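import Pool.Agent.Lib.MP_72e2e6_nt.Sm.B.SpecA

/-!
# MP_72e2e6_nt, `Sm/B/Chi`: the character is the same at the places of a good cube
-/

namespace Pool.Agent.MP72B

open Finset Pool.Agent.MP72S

private theorem chi_eq {G N P ι : Type} [Group G] [TopologicalSpace G] [AddCommGroup N]
    [DistribMulAction G N] [Fintype ι] [DecidableEq ι] (D : Dat G N P) {z z' : ι → P} {g : G}
    (h : ∀ i, D.ch (z i) g = D.ch (z' i) g) : D.chi z g = D.chi z' g := by
  rw [Dat.chi, Dat.chi, Finset.sum_congr rfl fun i _ => h i]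

theorem tChi : S_Gdf → MP72S.S_Alt → S_Chi := by
  intro hGdf _ G N P ι _ _ _ _ _ _ D hB x y U hG w hw
  have hA := hB.ax
  obtain ⟨_, hyx, hyS, hyy⟩ := hGdf D x y U hG
  have hx : D.Ok x := by
    have h := hG.ok ∅ (empty_subset U)
    have h' : mx x y ∅ = x := by
      funext i
      simp [mx]
    rwa [h'] at h
  have hxinf : ∀ i, x i ≠ D.inf := fun i h => hx.nS i (h ▸ hA.infS)
  have hyinf : ∀ i ∈ U, y i ≠ D.inf := fun i hi h => hyS i hi (h ▸ hA.infS)
  have key : ∀ g, (∀ i ∈ w, D.ch (x i) g = D.ch (y i) g) →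
      D.chi (mx x y w) g = D.chi x g := by
    intro g h
    refine chi_eq D.toDat fun i => ?_
    by_cases hi : i ∈ w
    · simp only [mx, hi, if_true]
      exact (h i hi).symm
    · simp only [mx, hi, if_false]
  have hS : ∀ s ∈ D.S, D.chi (mx x y w) (D.tau s) = D.chi x (D.tau s) ∧
      D.chi (mx x y w) (D.phi s) = D.chi x (D.phi s) := by
    intro s hs
    exact ⟨key _ fun i hi => (hG.sS i (hw hi) s hs).1, key _ fun i hi => (hG.sS i (hw hi) s hs).2⟩
  refine ⟨hS, ?_, ?_, ?_⟩
  · intro j hj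
    refine ⟨key _ fun i hi => ?_, key _ fun i hi => ?_⟩
    · have hij : x i ≠ x j := fun h => hj (hx.inj h ▸ hi)
      rw [hA.ch_tau' _ _ (hxinf i) (hxinf j) hij,
        hA.ch_tau' _ _ (hyinf i (hw hi)) (hxinf j) (hyx i (hw hi) j)]
    · exact hG.sx i (hw hi) j fun h => hj (h ▸ hi)
  · intro j hj
    have key2 : ∀ g, (∀ i ∈ w, i ≠ j → D.ch (x i) g = D.ch (y i) g) →
        D.chi (mx x y w) g = D.chi (mx x y {j}) g := by
      intro g h
      refine chi_eq D.toDat fun i => ?_
      by_cases hij : i = j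
      · subst hij
        simp only [mx, hj, if_true, mem_singleton]
      · by_cases hi : i ∈ w
        · simp only [mx, hi, if_true, mem_singleton, hij, if_false]
          exact (h i hi hij).symm
        · simp only [mx, hi, if_false, mem_singleton, hij]
    refine ⟨key2 _ fun i hi hij => ?_, key2 _ fun i hi hij => ?_⟩
    · rw [hA.ch_tau' _ _ (hxinf i) (hyinf j (hw hj)) (hyx j (hw hj) i).symm,
        hA.ch_tau' _ _ (hyinf i (hw hi)) (hyinf j (hw hj)) (hyy i (hw hi) j (hw hj) hij)]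
    · exact hG.sy i (hw hi) j (hw hj) (Ne.symm hij)
  · intro j
    cases j with
    | inl s =>
      change D.lam s.1 (D.chi (mx x y w) (D.tau s.1)) (D.chi (mx x y w) (D.phi s.1)) =
        D.lam s.1 (D.chi x (D.tau s.1)) (D.chi x (D.phi s.1))
      rw [(hS s.1 s.2).1, (hS s.1 s.2).2]
    | inr i => rfl

end Pool.Agent.MP72B
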