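import Pool.Agent.Lib.MP_72e2e6_nt.Sm.B.SpecA

/-!
# MP_72e2e6_nt, `Sm/B`, module `CmL`: the completed function at the places
-/

namespace Pool.Agent.MP72B

open Finset Pool.Agent.MP72S

private theorem CmL_tw {G N : Type} [Group G] [AddCommGroup N] [DistribMulAction G N]
    {χ χ' : G → ZMod 2} {g : G} (h : χ g = χ' g) (a : N) : tw χ g a = tw χ' g a := by
  unfold tw
  rw [h]

private theorem CmL_sum {G N κ : Type} [Group G] [AddCommGroup N] [DistribMulAction G N]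
    (χ : G → ZMod 2) (g : G) (s : Finset κ) (c : κ → ℤ) (Q : κ → N) :
    -∑ w ∈ s, c w • (tw χ g (Q w) - Q w) =
      tw χ g (-∑ w ∈ s, c w • Q w) - (-∑ w ∈ s, c w • Q w) := by
  simp only [tw_neg, tw_sum, tw_zsmul, smul_sub, sum_sub_distrib]
  abel

private theorem CmL_er {P ι A : Type} [DecidableEq ι] [AddCommGroup A] (hAlt : MP72S.S_Alt)
    (x y : ι → P) (U : Finset ι) (f : (ι → P) → A) :
    ∑ w ∈ U.powerset.erase ∅, (-1 : ℤ) ^ #w • f (mx x y w) = alt x y U f - f x := by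
  have h := sum_erase_eq_sub (s := U.powerset) (a := ∅)
    (f := fun w => (-1 : ℤ) ^ #w • f (mx x y w)) (empty_mem_powerset U)
  rw [h, card_empty, pow_zero, one_smul, (hAlt x y U f f).1]
  rfl

private theorem CmL_dec {G N P ι : Type} [AddCommGroup N] [DecidableEq ι] (hAlt : MP72S.S_Alt)
    (x y : ι → P) (U : Finset ι) (ψ : (ι → P) → G → N) (g : G) (i : ι) (hi : i ∈ U) :
    cmp x y U ψ g = -(∑ w ∈ (U.erase i).powerset.erase ∅, (-1 : ℤ) ^ #w • ψ (mx x y w) g) +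
      alt (Function.update x i (y i)) y (U.erase i) (fun z => ψ z g) := by
  have h1 := CmL_er hAlt x y U (fun z => ψ z g)
  have h2 := CmL_er hAlt x y (U.erase i) (fun z => ψ z g)
  have h3 := (hAlt x y (U.erase i) (fun z => ψ z g) (fun z => ψ z g)).2.2.2.2.1 i
    (notMem_erase i U)
  rw [insert_erase hi] at h3
  unfold MP72S.cmp
  rw [h1, h2, h3]
  abel

theorem tCmL : MP72S.S_Alt → S_Gdf → S_Tai → S_Chi → S_CmL := by
  intro hAlt hGdf _ hChi G N P ι _ _ _ _ _ _ D hD x y U hG ψ Q hU hL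
  have hmx0 : mx x y ∅ = x := (hAlt x y U (fun _ => (0 : ℤ)) (fun _ => 0)).1
  have hok0 : D.Ok x := by
    have := hG.ok ∅ (empty_subset U)
    rwa [hmx0] at this
  -- places of the vertices
  have hpl : ∀ w ⊆ U, ∀ j : D.J ι, (∀ i ∈ U, j ≠ Sum.inr i) → D.pl (mx x y w) j = D.pl x j := by
    intro w hw j hj
    rcases j with s | i
    · rfl
    · exact if_neg fun h => hj i (hw h) rfl
  have hch : ∀ w ⊆ U, ∀ j : D.J ι, (∀ i ∈ U, j ≠ Sum.inr i) →
      D.chi (mx x y w) (D.tau (D.pl x j)) = D.chi x (D.tau (D.pl x j)) ∧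
      D.chi (mx x y w) (D.phi (D.pl x j)) = D.chi x (D.phi (D.pl x j)) := by
    intro w hw j hj
    rcases j with s | i
    · exact (hChi D hD x y U hG w hw).1 s.1 s.2
    · exact (hChi D hD x y U hG w hw).2.1 i fun h => hj i (hw h) rfl
  have hrg : ∀ v, ∀ w ⊆ U, v ∉ D.S → (∀ i, i ∉ w → v ≠ x i) → (∀ i ∈ w, v ≠ y i) →
      v ∉ Set.range (D.pl (mx x y w)) := by
    rintro v w hw hv hx hy ⟨jj, hjj⟩
    rcases jj with s | jj
    · exact hv (by rw [← hjj]; exact s.2)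
    · by_cases hji : jj ∈ w
      · have h1 : D.pl (mx x y w) (Sum.inr jj) = y jj := if_pos hji
        exact hy jj hji (hjj.symm.trans h1)
      · have h1 : D.pl (mx x y w) (Sum.inr jj) = x jj := if_neg hji
        exact hx jj hji (hjj.symm.trans h1)
  have hmem : ∀ {V w : Finset ι}, w ∈ V.powerset.erase ∅ → w ⊆ V ∧ w.Nonempty := by
    intro V w hw
    rw [mem_erase, mem_powerset] at hw
    exact ⟨hw.2, nonempty_iff_ne_empty.mpr hw.1⟩
  refine ⟨fun j hj => ?_, fun i hi g hg hw => ?_, fun i hi w hw hiw => ?_, fun i hi => ?_,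
    fun v hv hy => ?_⟩
  · constructor
    · rw [← CmL_sum]
      unfold MP72S.cmp
      refine congrArg _ (sum_congr rfl fun w hw => ?_)
      obtain ⟨hwU, hwn⟩ := hmem hw
      have h1 := (hL w hwU hwn j hj).1
      rw [hpl w hwU j hj] at h1
      rw [h1, CmL_tw (hch w hwU j hj).1]
    · rw [← CmL_sum]
      unfold MP72S.cmp
      refine congrArg _ (sum_congr rfl fun w hw => ?_)
      obtain ⟨hwU, hwn⟩ := hmem hw
      have h1 := (hL w hwU hwn j hj).2
      rw [hpl w hwU j hj] at h1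
      rw [h1, CmL_tw (hch w hwU j hj).2]
  · rw [CmL_dec hAlt x y U ψ g i hi, ← CmL_sum]
    refine congrArg (· + _) (congrArg _ (sum_congr rfl fun w hw' => ?_))
    obtain ⟨hwU, hwn⟩ := hmem hw'
    rw [hw w hwU hwn]
  · refine (hU w hw ⟨i, hiw⟩).ur _ (hrg _ w hw (hok0.nS i) (fun j hj h => ?_) fun j hj h => ?_)
    · have := hok0.inj h
      subst this
      exact hj hiw
    · exact (hGdf D x y U hG).2.1 j (hw hj) i h.symm
  · rw [CmL_dec hAlt x y U ψ _ i hi, sum_eq_zero, neg_zero, zero_add]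
    intro w hw'
    obtain ⟨hwU, hwn⟩ := hmem hw'
    have hwU' : w ⊆ U := hwU.trans (erase_subset i U)
    have hiw : i ∉ w := fun h => notMem_erase i U (hwU h)
    rw [(hU w hwU' hwn).ur _ (hrg _ w hwU' ((hGdf D x y U hG).2.2.1 i hi)
      (fun j _ => (hGdf D x y U hG).2.1 i hi j)
      (fun j hj => (hGdf D x y U hG).2.2.2 i hi j (hwU' hj) fun h => hiw (h ▸ hj))), smul_zero]
  · unfold MP72S.cmp
    rw [sum_eq_zero, neg_zero]
    intro w hw'
    obtain ⟨hwU, hwn⟩ := hmem hw'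
    rw [(hU w hwU hwn).ur _ (hrg v w hwU (fun h => hv ⟨Sum.inl ⟨v, h⟩, rfl⟩)
      (fun j _ h => hv ⟨Sum.inr j, h.symm⟩) (fun j hj => hy j (hwU hj))), smul_zero]

end Pool.Agent.MP72B
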