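import Pool.Agent.Lib.MP_72e2e6_nt.Sm.B.SpecG

/-!
# MP_72e2e6_nt, `Sm/B`, module `CntR`: an upper bound for the order of `Dk z 1`
-/

set_option autoImplicit false

namespace Pool.Agent.MP72B

open Finset Polynomial MP72e2e6 Pool.Agent.MP72S Pool.Agent.MP72S.Lv

private theorem CntR_pow {T V : Type} [Fintype T] [AddCommGroup V] [Module (ZMod 2) V]
    {m k : ℕ} (S : Opr T V) (T1 : Finset T) (n : Fin m → ZMod 2) (A : T → Fin m → ZMod 2)
    (B : Fin m → Fin m → ZMod 2) (x : Fin k → Unk T V m) (h : ∀ j, RE S T1 n A B (x j)) :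
    RE (S.pow k) T1 n A B
      ((fun v j => (x j).1 v, fun j => (x j).2.1, fun i j => (x j).2.2 i) :
        Unk T (Fin k → V) m) := by
  constructor
  · intro v hv
    funext j
    have h1 := (h j).fix v hv
    simp only [Pi.add_apply, Finset.sum_apply, Pi.smul_apply, Pi.sub_apply, Opr.pow_σ,
      Opr.pow_Λ, Pi.zero_apply]
    exact h1
  · intro i
    funext j
    have h1 := (h j).var i
    simp only [Pi.add_apply, Finset.sum_apply, Pi.smul_apply, Pi.sub_apply, Opr.pow_σ,
      Opr.pow_Λ, Pi.zero_apply]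
    exact h1

theorem tCntR (hL : S_LnkR) (hD : S_Dk1) : S_CntR := by
  intro G N P _ _ _ _ D hA T1 hT S hS m z hz k
  classical
  obtain ⟨hl, hσ⟩ := hL D hA T1 hT S hS
  obtain ⟨hl1, hl2⟩ := hl m z hz
  obtain ⟨_, _, _, _, hfin, _⟩ := hD D hA z hz
  have hf1 : Finite (D.Dk z 1) := hfin 1 le_rfl
  have hc4 : Nat.card (VN N) = 4 := by
    rw [← hA.ax.four]
    exact Nat.card_congr
      ⟨fun x => ⟨x.v, x.two⟩, fun y => VN.mk y.1 y.2, fun x => rfl, fun y => rfl⟩
  have hfV : Finite (VN N) := Nat.finite_of_card_ne_zero (by rw [hc4]; norm_num)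
  have hex : ∀ t : D.Dk z 1, ∃ x, D.Crd z (D.coc z t.1) x := fun t => (hl1 t.1 t.2).2.1
  choose X hX using hex
  have hRE : ∀ t, RE S T1 (nz D.toDat z) (Az D.toDat z) (Bz D.toDat z) (X t) :=
    fun t => ((hl1 t.1 t.2).2.2 (X t) (hX t)).1
  have hXi : ∀ t t', X t = X t' → t = t' := by
    intro t t' h
    apply Subtype.ext
    refine hl2 t.1 t.2 t'.1 t'.2 (X t) (hX t) ?_
    rw [h]
    exact hX t'
  let Φ : (Fin k → D.Dk z 1) → {x : Unk (TT D.toDat) (Fin k → VN N) m //
      RE (S.pow k) T1 (nz D.toDat z) (Az D.toDat z) (Bz D.toDat z) x} := fun t =>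
    ⟨(fun v j => (X (t j)).1 v, fun j => (X (t j)).2.1, fun i j => (X (t j)).2.2 i),
      CntR_pow S T1 _ _ _ (fun j => X (t j)) fun j => hRE (t j)⟩
  have hinj : Function.Injective Φ := by
    intro t t' h
    have h1 := congrArg Subtype.val h
    funext j
    apply hXi
    refine Prod.ext ?_ (Prod.ext ?_ ?_)
    · funext v
      exact congrFun (congrFun (congrArg Prod.fst h1) v) j
    · exact congrFun (congrArg (fun y => y.2.1) h1) j
    · funext i
      exact congrFun (congrFun (congrArg (fun y => y.2.2) h1) i) j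
  have hcard : Nat.card (Fin k → D.Dk z 1) = Nat.card (D.Dk z 1) ^ k := by
    rw [Nat.card_fun, Nat.card_fin]
  rw [← hcard]
  exact Nat.card_le_card_of_injective Φ hinj

end Pool.Agent.MP72B
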