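import Pool.Agent.Lib.MP_72e2e6_nt.Sm.B.SpecA

/-!
# MP_72e2e6_nt, `Sm/B/Cou`: counting obstruction functionals
-/

namespace Pool.Agent.MP72B

open Finset Pool.Agent.MP72S

private theorem cou_card {M : Type} [AddCommGroup M] (H K : AddSubgroup M) (n : ℕ)
    (hK : ∀ m, m ∈ K ↔ m ∈ H ∧ n • m = 0) :
    Nat.card K * Nat.card (H.map (mulN M n)) = Nat.card H := by
  let φ : H →+ M := (mulN M n).comp H.subtype
  have h1 : φ.range = H.map (mulN M n) := by
    rw [AddMonoidHom.range_comp, AddSubgroup.range_subtype]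
  have h2 : Nat.card φ.ker * φ.ker.index = Nat.card H := φ.ker.card_mul_index
  rw [AddSubgroup.index_ker, h1] at h2
  rw [← h2]
  congr 1
  apply Nat.card_congr
  refine ⟨fun m => ⟨⟨m.1, ((hK m.1).1 m.2).1⟩, ((hK m.1).1 m.2).2⟩,
    fun m => ⟨m.1.1, (hK m.1.1).2 ⟨m.1.2, m.2⟩⟩, fun m => rfl, fun m => rfl⟩

theorem tCou : S_Uq → MP72S.S_Bas → S_Dk1 → S_ObA → S_Cou := by
  intro _ hBas hDk hObA G N P ι _ _ _ _ _ _ D hA x hx k hk
  classical
  obtain ⟨hO1, hO2, hO3, -, hO5⟩ := hObA D hA x hx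
  have hfin : ∀ k : ℕ, Finite (D.Z x ⊓ tor (D.J ι → N) k : AddSubgroup (D.J ι → N)) := by
    intro k
    have h1 : {t : D.J ι → N | 2 ^ k • t = 0}.Finite := by
      apply (Set.Finite.pi fun _ : D.J ι => (hBas D.toDat hA.ax).2.1 k).subset
      intro t ht j _
      exact congrFun ht j
    exact (h1.subset fun t ht => ht.2).to_subtype
  -- the subgroup of the elements with a half
  let A : AddSubgroup (D.J ι → N) :=
    { carrier := {ξ | 2 ^ (k - 1) • ξ = 0 ∧ ∃ η, D.IsH x ξ η}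
      zero_mem' := by
        refine ⟨smul_zero _, D.coc x 0, ?_⟩
        have := (hO3 0 (D.Z x).zero_mem).1
        rwa [smul_zero] at this
      add_mem' := by
        rintro a b ⟨ha, η, hη⟩ ⟨hb, η', hη'⟩
        exact ⟨by rw [smul_add, ha, hb, add_zero], _, (hO2 a b η η' hη hη').1⟩
      neg_mem' := by
        rintro a ⟨ha, η, hη⟩
        refine ⟨by rw [smul_neg, ha, neg_zero], fun σ => -η σ, hη.u.neg, ?_⟩
        have := hη.hf.neg
        simpa only [smul_neg] using this }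
  have hAle : A ≤ D.Z x ⊓ tor (D.J ι → N) (k - 1) := by
    rintro ξ ⟨h1, η, hη⟩
    exact ⟨⟨_, hη.hf⟩, h1⟩
  have : Finite (D.Z x ⊓ tor (D.J ι → N) (k - 1) : AddSubgroup (D.J ι → N)) := hfin _
  have hAfin : Finite A := Finite.of_injective (AddSubgroup.inclusion hAle)
    (AddSubgroup.inclusion_injective hAle)
  have hex : ∀ ξ : A, ∃ η, D.IsH x ξ.1 η := fun ξ => ξ.2.2
  choose ηf hηf using hex
  let g : A →+ ((D.J ι → N) → ZMod 2) :=
    { toFun := fun ξ ν => if ν ∈ D.Dk x 1 then D.ob x ξ.1 (ηf ξ) ν else 0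
      map_zero' := by
        funext ν
        by_cases hν : ν ∈ D.Dk x 1
        · simp only [if_pos hν, Pi.zero_apply]
          have h1 := hO3 0 (D.Z x).zero_mem
          rw [smul_zero] at h1
          rw [hO5 _ _ _ (hηf 0) h1.1 ν hν]
          exact h1.2 ν hν
        · simp only [if_neg hν, Pi.zero_apply]
      map_add' := by
        intro ξ ξ'
        funext ν
        by_cases hν : ν ∈ D.Dk x 1
        · simp only [if_pos hν, Pi.add_apply]
          have h1 := hO2 _ _ _ _ (hηf ξ) (hηf ξ')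
          rw [← h1.2 ν hν]
          exact hO5 _ _ _ (hηf (ξ + ξ')) h1.1 ν hν
        · simp only [if_neg hν, Pi.add_apply, add_zero] }
  have hrange : D.O x k = (g.range : Set ((D.J ι → N) → ZMod 2)) := by
    ext γ
    constructor
    · rintro ⟨ξ, η, h1, h2, h3, h4⟩
      refine ⟨⟨ξ, h1, η, h2⟩, ?_⟩
      funext ν
      by_cases hν : ν ∈ D.Dk x 1
      · change (if ν ∈ D.Dk x 1 then _ else _) = _
        rw [if_pos hν, h3 ν hν]
        exact hO5 _ _ _ (hηf _) h2 ν hν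
      · change (if ν ∈ D.Dk x 1 then _ else _) = _
        rw [if_neg hν, h4 ν hν]
    · rintro ⟨ξ, rfl⟩
      refine ⟨ξ.1, ηf ξ, ξ.2.1, hηf ξ, fun ν hν => if_pos hν, fun ν hν => if_neg hν⟩
  have hcard : Nat.card g.ker * Nat.card g.range = Nat.card A := by
    have := g.ker.card_mul_index
    rwa [AddSubgroup.index_ker] at this
  have hrfin : Finite g.range := Finite.of_surjective g.rangeRestrict
    g.rangeRestrict_surjective
  have hncard : (D.O x k).ncard = Nat.card g.range := by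
    rw [hrange]
    rfl
  -- the doubles
  set Zk := D.Z x ⊓ tor (D.J ι → N) k with hZk
  set Zk' := D.Z x ⊓ tor (D.J ι → N) (k - 1) with hZk'
  have hkk : 2 ^ k = 2 ^ (k - 1) * 2 := by
    rw [← pow_succ, Nat.sub_add_cancel hk]
  have h2le : ∀ ζ ∈ Zk.map (mulN (D.J ι → N) 2), ∃ h : ζ ∈ A, (⟨ζ, h⟩ : A) ∈ g.ker := by
    rintro _ ⟨ζ, hζ, rfl⟩
    have h1 := hO3 ζ hζ.1
    have h2 : 2 ^ (k - 1) • (2 • ζ) = 0 := by
      rw [← mul_smul, ← hkk]
      exact hζ.2
    refine ⟨⟨h2, _, h1.1⟩, ?_⟩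
    rw [AddMonoidHom.mem_ker]
    funext ν
    by_cases hν : ν ∈ D.Dk x 1
    · change (if ν ∈ D.Dk x 1 then _ else _) = _
      rw [if_pos hν]
      exact (hO5 _ _ _ (hηf _) h1.1 ν hν).trans (h1.2 ν hν)
    · change (if ν ∈ D.Dk x 1 then _ else _) = _
      rw [if_neg hν]
      rfl
  have hZkfin : Finite Zk := hfin k
  have h2card : Nat.card (Zk.map (mulN (D.J ι → N) 2)) ≤ Nat.card g.ker := by
    have hkf : Finite g.ker := inferInstance
    apply Nat.card_le_card_of_injective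
      (fun ζ : Zk.map (mulN (D.J ι → N) 2) =>
        (⟨⟨ζ.1, (h2le ζ.1 ζ.2).choose⟩, (h2le ζ.1 ζ.2).choose_spec⟩ : g.ker))
    intro a b hab
    exact Subtype.ext (congrArg (fun z : g.ker => z.1.1) hab)
  have hD1 : ∀ m, m ∈ D.Dk x 1 ↔ m ∈ Zk ∧ 2 • m = 0 := by
    intro m
    rw [(hDk D hA x hx).1 m]
    constructor
    · rintro ⟨h1, h2⟩
      refine ⟨⟨h1, ?_⟩, h2⟩
      change 2 ^ k • m = 0
      rw [hkk, mul_smul, h2, smul_zero]
    · rintro ⟨h1, h2⟩
      exact ⟨h1.1, h2⟩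
  have e1 := cou_card Zk (D.Dk x 1) 2 hD1
  have e2 : Nat.card Zk' * Nat.card (D.Dk x k) = Nat.card Zk := by
    apply cou_card Zk Zk' (2 ^ (k - 1))
    intro m
    constructor
    · rintro ⟨h1, h2⟩
      refine ⟨⟨h1, ?_⟩, h2⟩
      change 2 ^ k • m = 0
      have h2' : 2 ^ (k - 1) • m = 0 := h2
      rw [hkk, mul_comm, mul_smul, h2', smul_zero]
    · rintro ⟨h1, h2⟩
      exact ⟨h1.1, h2⟩
  have hAcard : Nat.card A ≤ Nat.card Zk' :=
    Nat.card_le_card_of_injective _ (AddSubgroup.inclusion_injective hAle)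
  have hpos : 0 < Nat.card Zk' := Nat.card_pos
  refine ⟨?_, ?_⟩
  · rw [hrange]
    exact Set.toFinite _
  · rw [hncard]
    apply Nat.le_of_mul_le_mul_left _ hpos
    calc Nat.card Zk' * (Nat.card g.range * Nat.card (D.Dk x k))
        = Nat.card g.range * (Nat.card Zk' * Nat.card (D.Dk x k)) := by ring
      _ = Nat.card g.range * (Nat.card (D.Dk x 1) * Nat.card (Zk.map (mulN (D.J ι → N) 2))) := by
        rw [e2, e1]
      _ ≤ Nat.card g.range * (Nat.card (D.Dk x 1) * Nat.card g.ker) :=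
        Nat.mul_le_mul_left _ (Nat.mul_le_mul_left _ h2card)
      _ = (Nat.card g.ker * Nat.card g.range) * Nat.card (D.Dk x 1) := by ring
      _ ≤ Nat.card Zk' * Nat.card (D.Dk x 1) := by
        rw [hcard]
        exact Nat.mul_le_mul_right _ hAcard

end Pool.Agent.MP72B
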