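import Pool.Agent.Lib.MP_72e2e6_nt.Sm.B.SpecA

/-!
# MP_72e2e6_nt, `Sm/B/Cst`: constant types of order two on a good cube
-/

set_option autoImplicit false

namespace Pool.Agent.MP72B

open Finset Pool.Agent.MP72S

theorem tCst : MP72S.S_Hom → S_Gdf → S_Uq → S_Tai → S_Chi → S_Lfx → S_Cst := by
  intro hHom hGdf hUq hTai hChi hLfx G N P ι _ _ _ _ _ _ D hD x y U hG ν hν hνi hZ
  have hA := hD.ax
  have hsp : ∀ w ⊆ U, D.IsZ (mx x y w) ν (D.coc (mx x y w) ν) := fun w hw =>
    DatL.coc_spec (hZ w hw)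
  have hmx0 : mx x y ∅ = x := by
    funext i
    exact if_neg (notMem_empty i)
  have hok0 : D.Ok x := by
    have h := hG.ok ∅ (empty_subset U)
    rwa [hmx0] at h
  have hsp0 : D.IsZ x ν (D.coc x ν) := by
    have h := hsp ∅ (empty_subset U)
    rwa [hmx0] at h
  have htwo : ∀ w ⊆ U, ∀ σ, 2 • D.coc (mx x y w) ν σ = 0 := by
    intro w hw σ
    have h := (hUq D hD _ (hG.ok w hw)).2.2.2.2 ν (hZ w hw) 1 (by rw [pow_one]; exact hν) σ
    rwa [pow_one] at h
  have htwo0 : ∀ σ, 2 • D.coc x ν σ = 0 := by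
    have h := htwo ∅ (empty_subset U)
    rwa [hmx0] at h
  have hmul : ∀ w ⊆ U, ∀ σ τ, D.coc (mx x y w) ν (σ * τ) =
      D.coc (mx x y w) ν σ + D.coc (mx x y w) ν τ := by
    intro w hw σ τ
    rw [(hsp w hw).u.co σ τ, tw_two hA.tri (htwo w hw τ)]
  have hmul0 : ∀ σ τ, D.coc x ν (σ * τ) = D.coc x ν σ + D.coc x ν τ := by
    have h := hmul ∅ (empty_subset U)
    rwa [hmx0] at h
  -- the values at the inertia generators of the moving places
  have hTx : ∀ w ⊆ U, ∀ i ∈ U, D.coc (mx x y w) ν (D.tau (x i)) = 0 := by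
    intro w hw i hi
    by_cases hiw : i ∈ w
    · refine (hsp w hw).u.ur _ ?_
      rintro ⟨jj, hjj⟩
      rcases jj with s | jj
      · exact hok0.nS i (by rw [← hjj]; exact s.2)
      · by_cases hji : jj ∈ w
        · have h1 : D.pl (mx x y w) (Sum.inr jj) = y jj := if_pos hji
          rw [h1] at hjj
          exact (hGdf D x y U hG).2.1 jj (hw hji) i hjj
        · have h1 : D.pl (mx x y w) (Sum.inr jj) = x jj := if_neg hji
          rw [h1] at hjj
          have h2 := hok0.inj hjj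
          subst h2
          exact hji hiw
    · have h1 := (hTai D hD (mx x y w) (hG.ok w hw)).2.2.2.2.1 i ν _ (hsp w hw)
      have h2 : mx x y w i = x i := if_neg hiw
      rw [h2, hνi i hi, neg_zero] at h1
      exact h1
  have hTy : ∀ w ⊆ U, ∀ i ∈ U, D.coc (mx x y w) ν (D.tau (y i)) = 0 := by
    intro w hw i hi
    by_cases hiw : i ∈ w
    · have h1 := (hTai D hD (mx x y w) (hG.ok w hw)).2.2.2.2.1 i ν _ (hsp w hw)
      have h2 : mx x y w i = y i := if_pos hiw
      rw [h2, hνi i hi, neg_zero] at h1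
      exact h1
    · refine (hsp w hw).u.ur _ ?_
      rintro ⟨jj, hjj⟩
      rcases jj with s | jj
      · exact (hGdf D x y U hG).2.2.1 i hi (by rw [← hjj]; exact s.2)
      · by_cases hji : jj ∈ w
        · have h1 : D.pl (mx x y w) (Sum.inr jj) = y jj := if_pos hji
          rw [h1] at hjj
          have hne : i ≠ jj := fun h => hiw (h ▸ hji)
          exact (hGdf D x y U hG).2.2.2 i hi jj (hw hji) hne hjj.symm
        · have h1 : D.pl (mx x y w) (Sum.inr jj) = x jj := if_neg hji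
          rw [h1] at hjj
          exact (hGdf D x y U hG).2.1 i hi jj hjj.symm
  -- the local agreement
  have hagree : ∀ w ⊆ U, ∀ jj : D.J ι, D.pl (mx x y w) jj = D.pl x jj →
      D.chi (mx x y w) (D.tau (D.pl x jj)) = D.chi x (D.tau (D.pl x jj)) →
      D.chi (mx x y w) (D.phi (D.pl x jj)) = D.chi x (D.phi (D.pl x jj)) →
      D.coc (mx x y w) ν (D.tau (D.pl x jj)) = D.coc x ν (D.tau (D.pl x jj)) ∧
        D.coc (mx x y w) ν (D.phi (D.pl x jj)) = D.coc x ν (D.phi (D.pl x jj)) := by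
    intro w hw jj hpl h1 h2
    obtain ⟨Q, hQ, hL⟩ := (hsp w hw).lo jj
    obtain ⟨Q', hQ', hL'⟩ := hsp0.lo jj
    rw [hpl] at hL
    rw [(hChi D hD x y U hG w hw).2.2.2 jj] at hQ
    have h := hLfx D hD x (mx x y w) hok0 jj Q' Q _ _ hL' hL (hQ'.trans hQ.symm) h1.symm h2.symm
    exact ⟨h.1.symm, h.2.symm⟩
  have main : ∀ w ⊆ U, ∀ σ, D.coc (mx x y w) ν σ = D.coc x ν σ := by
    intro w hw
    have hS : ∀ v ∈ D.S, D.coc (mx x y w) ν (D.tau v) = D.coc x ν (D.tau v) ∧
        D.coc (mx x y w) ν (D.phi v) = D.coc x ν (D.phi v) := by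
      intro v hv
      have h := (hChi D hD x y U hG w hw).1 v hv
      exact hagree w hw (Sum.inl ⟨v, hv⟩) rfl h.1 h.2
    have htau : ∀ v, D.coc (mx x y w) ν (D.tau v) = D.coc x ν (D.tau v) := by
      intro v
      by_cases hv : v ∈ D.S
      · exact (hS v hv).1
      by_cases hx : ∃ i, v = x i
      · obtain ⟨i, rfl⟩ := hx
        by_cases hi : i ∈ U
        · have h0 := hTx ∅ (empty_subset U) i hi
          rw [hmx0] at h0
          rw [hTx w hw i hi, h0]
        · have h := (hChi D hD x y U hG w hw).2.1 i fun h => hi (hw h)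
          exact (hagree w hw (Sum.inr i) (if_neg fun h => hi (hw h)) h.1 h.2).1
      by_cases hy : ∃ i ∈ U, v = y i
      · obtain ⟨i, hi, rfl⟩ := hy
        have h0 := hTy ∅ (empty_subset U) i hi
        rw [hmx0] at h0
        rw [hTy w hw i hi, h0]
      · rw [(hsp w hw).u.ur v ?_, hsp0.u.ur v ?_]
        · rintro ⟨jj, hjj⟩
          rcases jj with s | jj
          · exact hv (by rw [← hjj]; exact s.2)
          · exact hx ⟨jj, hjj.symm⟩
        · rintro ⟨jj, hjj⟩
          rcases jj with s | jj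
          · exact hv (by rw [← hjj]; exact s.2)
          · by_cases hji : jj ∈ w
            · have h1 : D.pl (mx x y w) (Sum.inr jj) = y jj := if_pos hji
              rw [h1] at hjj
              exact hy ⟨jj, hw hji, hjj.symm⟩
            · have h1 : D.pl (mx x y w) (Sum.inr jj) = x jj := if_neg hji
              rw [h1] at hjj
              exact hx ⟨jj, hjj.symm⟩
    have hHo : IsHo fun σ => D.coc (mx x y w) ν σ - D.coc x ν σ := by
      refine ⟨(hsp w hw).u.lc.comp₂ hsp0.u.lc (fun a b => a - b), fun σ => ?_, fun σ τ => ?_⟩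
      · rw [smul_sub, htwo w hw, htwo0, sub_zero]
      · rw [hmul w hw, hmul0]
        abel
    intro σ
    have h := (hHom D.toDat hA).1 _ hHo (fun v => sub_eq_zero.2 (htau v))
      (sub_eq_zero.2 (hS _ hA.infS).2) σ
    exact sub_eq_zero.1 h
  refine ⟨main, fun i hi g hg => ?_⟩
  rcases hg with rfl | rfl | rfl | rfl
  · have h0 := hTx ∅ (empty_subset U) i hi
    rwa [hmx0] at h0
  · obtain ⟨Q, hQ, hL⟩ := hsp0.lo (Sum.inr i)
    rw [hνi i hi] at hQ
    have hQ2 : 2 • Q = 0 := hQ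
    have h1 : D.coc x ν (D.phi (x i)) = tw (D.chi x) (D.phi (x i)) Q - Q := hL.2
    rw [h1, tw_two hA.tri hQ2, sub_self]
  · have h0 := hTy ∅ (empty_subset U) i hi
    rwa [hmx0] at h0
  · have hw : ({i} : Finset ι) ⊆ U := singleton_subset_iff.2 hi
    obtain ⟨Q, hQ, hL⟩ := (hsp {i} hw).lo (Sum.inr i)
    rw [hνi i hi] at hQ
    have hQ2 : 2 • Q = 0 := hQ
    have hpl : D.pl (mx x y {i}) (Sum.inr i) = y i := if_pos (mem_singleton_self i)
    rw [hpl] at hL
    rw [← main {i} hw, hL.2, tw_two hA.tri hQ2, sub_self]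

end Pool.Agent.MP72B
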