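import Pool.Agent.Lib.MP_72e2e6_nt.Sm.B.SpecR

/-!
# MP_72e2e6_nt, `Sm/B`: the density theorem for the frames with a prime of odd degree
-/

set_option autoImplicit false

namespace Pool.Agent.MP72B.Frm

open Finset Polynomial MP72e2e6 Pool.Agent.MP72S Pool.Agent.MP72T Pool.Agent.MP72S.Ns

theorem tDensB : Ns.S_Sqf → Ns.S_Dens → S_Odf → S_DensB := by
  classical
  intro h1 h2 h3 F _ _ hq B hB good hgood ε hε
  set ev : F[X] → Prop := fun f => ∀ P : F[X], P.Monic → Irreducible P → P ∣ f →
    Even P.natDegree with hev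
  obtain ⟨c, hc, n₁, hn₁⟩ := h1 F hq B hB
  obtain ⟨n₂, hn₂⟩ := h2 F hq B hB (fun f => good f ∨ ev f) (fun _ => True)
    (by
      intro ε hε
      obtain ⟨A, hA⟩ := hgood ε hε
      refine ⟨A, fun n h hh _ s hs r n' hn' hfr => ?_⟩
      by_cases ho : OdP s n'
      · refine (hA n h hh s hs r n' hn' hfr ho).trans ?_
        refine Nat.cast_le.2 (Set.ncard_le_ncard ?_ ?_)
        · rintro z ⟨hz, hg⟩
          exact ⟨hz, Or.inl hg⟩
        · exact (finite_toSet _).subset fun z hz => hz.1
      · have hall : {z ∈ (tpl F n' : Set (Fin (r + 1) → F[X])) |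
            good (s * ∏ i, z i) ∨ ev (s * ∏ i, z i)} = (tpl F n' : Set (Fin (r + 1) → F[X])) := by
          ext z
          refine ⟨fun hz => hz.1, fun hz => ⟨hz, Or.inr ?_⟩⟩
          intro P hP hPi hd
          rw [← Nat.not_odd_iff_even]
          intro hodd
          apply ho
          rcases hPi.prime.dvd_or_dvd hd with hd | hd
          · exact Or.inl ⟨P, hP, hPi, hd, hodd⟩
          · obtain ⟨i, -, hi⟩ := (hPi.prime.dvd_finsetProd_iff _).1 hd
            refine Or.inr ⟨i, ?_⟩
            have hz' : z ∈ tpl F n' := hz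
            unfold tpl at hz'
            rw [mem_filter, Fintype.mem_piFinset] at hz'
            have hzi := hz'.1 i
            unfold MP72e2e6.irr at hzi
            rw [mem_filter, mem_mon] at hzi
            have he : P = z i :=
              eq_of_monic_of_associated hP hzi.1.1 ((hPi.dvd_irreducible_iff_associated hzi.2).1 hi)
            rw [← hzi.1.2, ← he]
            exact hodd
        rw [hall, Set.ncard_coe_finset]
        have h0 : (0 : ℝ) ≤ (#(tpl F n') : ℝ) := Nat.cast_nonneg _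
        nlinarith) (ε / 2) (by positivity)
  obtain ⟨n₃, hn₃⟩ := h3 F (ε * c / 2) (by positivity)
  refine ⟨max n₁ (max n₂ n₃), fun n hn => ?_⟩
  have e1 := hn₁ n ((le_max_left _ _).trans hn)
  have e2 := hn₂ n (((le_max_left _ _).trans (le_max_right _ _)).trans hn) trivial
  have e3 := hn₃ n (((le_max_right _ _).trans (le_max_right _ _)).trans hn)
  have e4 : ({f ∈ (sqf F B n : Set F[X]) | good f ∨ ev f}.ncard : ℝ) ≤
      ({f ∈ (sqf F B n : Set F[X]) | good f}.ncard : ℝ) +
        ({f ∈ (mon F n : Set F[X]) | ev f}.ncard : ℝ) := by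
    have hsub : {f ∈ (sqf F B n : Set F[X]) | good f ∨ ev f} ⊆
        {f ∈ (sqf F B n : Set F[X]) | good f} ∪ {f ∈ (mon F n : Set F[X]) | ev f} := by
      rintro f ⟨hf, hg | hg⟩
      · exact Or.inl ⟨hf, hg⟩
      · refine Or.inr ⟨?_, hg⟩
        have hf' : f ∈ sqf F B n := hf
        unfold sqf at hf'
        exact (mem_filter.1 hf').1
    have hfin : ({f ∈ (sqf F B n : Set F[X]) | good f} ∪
        {f ∈ (mon F n : Set F[X]) | ev f}).Finite :=
      ((finite_toSet _).subset fun f hf => hf.1).union ((finite_toSet _).subset fun f hf => hf.1)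
    have h5 := (Set.ncard_le_ncard hsub hfin).trans (Set.ncard_union_le _ _)
    exact_mod_cast h5
  have e5 : ε * c / 2 * (Nat.card F : ℝ) ^ n ≤ ε / 2 * (#(sqf F B n) : ℝ) := by
    have : ε * c / 2 * (Nat.card F : ℝ) ^ n = ε / 2 * (c * (Nat.card F : ℝ) ^ n) := by ring
    rw [this]
    exact mul_le_mul_of_nonneg_left e1 (by positivity)
  have e6 : ({f ∈ (mon F n : Set F[X]) | ev f}.ncard : ℝ) ≤ ε * c / 2 * (Nat.card F : ℝ) ^ n := e3
  nlinarith

end Pool.Agent.MP72B.Frm
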