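import Pool.Agent.Lib.MP_72e2e6_nt.Sm.B.SpecA

/-!
# MP_72e2e6_nt, `Sm/B`, module `Dk1`: elementary facts on `Dk`, `T`
-/

namespace Pool.Agent.MP72B

open Finset Pool.Agent.MP72S

private theorem dk1_dvs {N : Type} [AddCommGroup N] (h : ∀ x : N, ∃ y : N, 2 • y = x) :
    ∀ (k : ℕ) (x : N), ∃ y : N, 2 ^ k • y = x := by
  intro k
  induction k with
  | zero => exact fun x => ⟨x, by rw [pow_zero, one_smul]⟩
  | succ k ih =>
    intro x
    obtain ⟨y, hy⟩ := h x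
    obtain ⟨z, hz⟩ := ih y
    refine ⟨z, ?_⟩
    rw [pow_succ', mul_smul, hz, hy]

private theorem dk1_mem {G N P ι : Type} [Group G] [TopologicalSpace G] [AddCommGroup N]
    [DistribMulAction G N] [Fintype ι] [DecidableEq ι] {D : DatL G N P} {x : ι → P} {k : ℕ}
    {ν : D.J ι → N} : ν ∈ D.Dk x k ↔ ∃ ζ, ζ ∈ D.Z x ∧ 2 ^ k • ζ = 0 ∧ 2 ^ (k - 1) • ζ = ν := by
  unfold DatL.Dk
  rw [AddSubgroup.mem_map]
  constructor
  · rintro ⟨ζ, ⟨h1, h2⟩, h3⟩
    exact ⟨ζ, h1, h2, h3⟩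
  · rintro ⟨ζ, h1, h2, h3⟩
    exact ⟨ζ, ⟨h1, h2⟩, h3⟩

theorem tDk1 : S_Tin → S_Fix → MP72S.S_Bas → S_Dk1 := by
  intro hTin hFix _ G N P ι _ _ _ _ _ _ D hDL x hx
  have hD := hDL.ax
  obtain ⟨-, -, f3, -, -, -, -⟩ := hFix D hDL x hx
  have hV : Finite {x : N // 2 • x = 0} := by
    apply Nat.finite_of_card_ne_zero
    rw [hD.four]
    norm_num
  have hhalf : ∀ N₀ : N, 2 • half N₀ = N₀ := by
    intro N₀
    unfold half
    split_ifs with h h'
    · rw [h, smul_zero]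
    · exact h'.choose_spec
    · exact absurd (hD.dvs N₀) h'
  have p1 : ∀ ν, ν ∈ D.Dk x 1 ↔ ν ∈ D.Z x ∧ 2 • ν = 0 := by
    intro ν
    rw [dk1_mem]
    constructor
    · rintro ⟨ζ, h1, h2, h3⟩
      rw [Nat.sub_self, pow_zero, one_smul] at h3
      subst h3
      rw [pow_one] at h2
      exact ⟨h1, h2⟩
    · rintro ⟨h1, h2⟩
      exact ⟨ν, h1, by rw [pow_one]; exact h2, by rw [Nat.sub_self, pow_zero, one_smul]⟩
  have p4 : ∀ (k : ℕ), 1 ≤ k → D.Dk x k ≤ D.Dk x 1 := by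
    intro k hk ν hν
    rw [dk1_mem] at hν
    obtain ⟨ζ, h1, h2, rfl⟩ := hν
    rw [p1]
    refine ⟨AddSubgroup.nsmul_mem _ h1 _, ?_⟩
    rw [← mul_smul, ← pow_succ', Nat.sub_add_cancel hk]
    exact h2
  have p10 : ∀ R R' : N, 4 • R = 0 → 4 • R' = 0 → 2 • R = 2 • R' → D.tv x R = D.tv x R' := by
    intro R R' _ _ h
    funext j
    have h1 : 2 • (R - R') = 0 := by rw [smul_sub, h, sub_self]
    have h2 := f3 j _ h1
    rw [map_sub, sub_eq_zero] at h2
    exact h2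
  refine ⟨p1, ?_, ?_, p4, ?_, ?_, hhalf, ?_, ?_, p10, ?_⟩
  · rintro k hk _ ⟨R, hR, rfl⟩
    obtain ⟨R', hR'⟩ := dk1_dvs hD.dvs (k - 1) R
    rw [dk1_mem]
    refine ⟨D.tv x R', ⟨_, hTin D hDL x hx R'⟩, ?_, ?_⟩
    · funext j
      show 2 ^ k • D.lm x j R' = 0
      obtain ⟨m, rfl⟩ : ∃ m, k = m + 1 := ⟨k - 1, by omega⟩
      rw [Nat.add_sub_cancel] at hR'
      rw [← map_nsmul, pow_succ', mul_smul, hR']
      refine f3 j _ ?_
      rw [← mul_smul]
      exact hR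
    · funext j
      show 2 ^ (k - 1) • D.lm x j R' = D.lm x j R
      rw [← map_nsmul, hR']
  · intro k hk ν hν
    rw [dk1_mem] at hν ⊢
    obtain ⟨ζ, h1, h2, rfl⟩ := hν
    refine ⟨2 • ζ, AddSubgroup.nsmul_mem _ h1 _, ?_, ?_⟩
    · rw [← mul_smul, ← pow_succ]
      exact h2
    · rw [← mul_smul, ← pow_succ]
      congr 2
      omega
  · intro k hk
    have hfin : {ν : D.J ι → N | ∀ j, 2 • ν j = 0}.Finite := by
      have h1 : {n : N | 2 • n = 0}.Finite := @Set.toFinite _ _ hV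
      have h2 := Set.Finite.pi' (fun _ : D.J ι => h1)
      exact h2
    have hsub : (D.Dk x k : Set (D.J ι → N)) ⊆ {ν | ∀ j, 2 • ν j = 0} := by
      intro ν hν j
      have h1 := ((p1 ν).1 (p4 k hk hν)).2
      exact congrFun h1 j
    exact (hfin.subset hsub).to_subtype
  · rintro ⟨i⟩
    rw [← hD.four]
    refine Nat.card_congr
      { toFun := fun t => ⟨(t : D.J ι → N) (Sum.inr i), ?_⟩
        invFun := fun s => ⟨D.tv x (half s.1), half s.1, ?_, rfl⟩
        left_inv := ?_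
        right_inv := ?_ }
    · obtain ⟨t, R, hR, rfl⟩ := t
      show 2 • (2 • R) = 0
      rw [← mul_smul]
      exact hR
    · rw [show 4 = 2 * 2 from rfl, mul_smul, hhalf]
      exact s.2
    · rintro ⟨t, R, hR, rfl⟩
      apply Subtype.ext
      show D.tv x (half (2 • R)) = D.tv x R
      have h1 : 4 • half (2 • R) = 0 := by
        rw [show 4 = 2 * 2 from rfl, mul_smul, hhalf, ← mul_smul]
        exact hR
      exact p10 _ _ h1 hR (hhalf _)
    · intro s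
      apply Subtype.ext
      exact hhalf s.1
  · unfold half
    rw [if_pos rfl]
  · have hxS := hx.nS
    rintro (s | i) (s' | i') h
    · exact congrArg Sum.inl (Subtype.ext h)
    · exact absurd (show x i' ∈ D.S by rw [← show s.1 = x i' from h]; exact s.2) (hxS i')
    · exact absurd (show x i ∈ D.S by rw [show x i = s'.1 from h]; exact s'.2) (hxS i)
    · exact congrArg Sum.inr (hx.inj h)
  · rintro _ ⟨R, hR, rfl⟩
    funext j
    show 2 • D.lm x j R = 0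
    rw [← map_nsmul]
    refine f3 j _ ?_
    rw [← mul_smul]
    exact hR

end Pool.Agent.MP72B
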