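import Pool.Agent.Lib.MP_72e2e6_nt.Sm.B.SpecB

/-!
# MP_72e2e6_nt, `Sm/Br`: module Dom (good points depend only on the code)
-/

namespace Pool.Agent.MP72B

open Finset Pool.Agent.MP72S
open Pool.Agent.Lib.MP_72e2e6_nt.Sm.Cnt (vtx Corner CodingData main_ineq)

private theorem Dom_b {P ι : Type} [DecidableEq ι] {M : ℕ} (g : Grd P ι M) (hb : g.b ∉ g.I)
    (c : P) (p : {i // i ∈ g.I} → Fin M) : g.cf c p g.b = c := by
  simp [Grd.cf, hb]

private theorem Dom_o {P ι : Type} [DecidableEq ι] {M : ℕ} (g : Grd P ι M)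
    (c c' : P) (p : {i // i ∈ g.I} → Fin M) {j : ι} (hj : j ≠ g.b) :
    g.cf c p j = g.cf c' p j := by
  simp [Grd.cf, hj]

private theorem Dom_R {P ι : Type} [DecidableEq ι] {M : ℕ} (g : Grd P ι M)
    (c c' : P) (p p' : {i // i ∈ g.I} → Fin M) {j : ι} (hj : j ≠ g.b) (hI : j ∉ g.I) :
    g.cf c p j = g.cf c' p' j := by
  simp [Grd.cf, hj, hI]

private theorem Dom_I {P ι : Type} [DecidableEq ι] {M : ℕ} (g : Grd P ι M)
    (c : P) (p : {i // i ∈ g.I} → Fin M) {i : ι} (hi : i ∈ g.I) :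
    g.cf c p i = g.e (⟨i, hi⟩, p ⟨i, hi⟩) := by
  simp [Grd.cf, hi]

open Classical in
theorem tDom : S_Sym → S_Cf → S_Dom := by
  intro hSym _ G N P ι _ _ _ _ _ _ M D hD S g s hg c c' hcod p hp
  have hb := hg.hb
  -- the components of the code
  have h1 : ∀ k, D.ch (g.e k) (D.phi c) = D.ch (g.e k) (D.phi c') := by
    intro k
    have := congrArg (fun z => z.1 k) hcod
    exact this
  have h2 := congrArg (fun z => z.2.1) hcod
  have h3 := congrArg (fun z => z.2.2) hcod
  simp only [Dat.cod] at h2 h3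
  obtain ⟨p', hp'⟩ : ∃ p', D.Gp S g s c' p' := (decide_eq_decide.1 h3).1 ⟨p, hp⟩
  obtain ⟨⟨hXS, hXi⟩, hXs⟩ := hp
  obtain ⟨⟨hYS, hYi⟩, hYs⟩ := hp'
  have hcc : ∀ k, g.e k = c' → c = c' := by
    intro k hk
    have hex : ∃ k, g.e k = c' := ⟨k, hk⟩
    rw [dif_pos hex] at h2
    by_cases hex' : ∃ k, g.e k = c
    · rw [dif_pos hex', Option.some_inj] at h2
      rw [← hex'.choose_spec, h2, hex.choose_spec]
    · rw [dif_neg hex'] at h2
      exact absurd h2 (by simp)
  have hbn : ∀ j, j ≠ g.b → g.cf c' p j ≠ c' := by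
    intro j hj h
    by_cases hI : j ∈ g.I
    · rw [Dom_I g c' p hI] at h
      have h4 := hcc _ h
      apply hj
      apply hXi
      rw [Dom_b g hb, Dom_I g c p hI, h, h4]
    · apply hj
      apply hYi
      rw [Dom_b g hb, ← Dom_R g c' c' p p' hj hI, h]
  have hinj : Function.Injective (g.cf c' p) := by
    intro i j hij
    by_cases hi : i = g.b
    · by_cases hj : j = g.b
      · rw [hi, hj]
      · rw [hi, Dom_b g hb] at hij
        exact absurd hij.symm (hbn j hj)
    · by_cases hj : j = g.b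
      · rw [hj, Dom_b g hb] at hij
        exact absurd hij (hbn i hi)
      · rw [Dom_o g c' c p hi, Dom_o g c' c p hj] at hij
        exact hXi hij
  have hmem : ∀ i, g.cf c' p i ∈ S i := by
    intro i
    by_cases hi : i = g.b
    · have := hYS g.b
      rw [Dom_b g hb] at this
      rw [hi, Dom_b g hb]
      exact this
    · rw [Dom_o g c' c p hi]
      exact hXS i
  refine ⟨⟨hmem, hinj⟩, ?_⟩
  -- places are not infinity
  have hne : ∀ (z : ι → P), z ∈ tup S → ∀ i, z i ≠ D.inf := by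
    intro z hz i h
    apply (hg.ok z hz).nS i
    rw [h]
    exact hD.ax.infS
  have hXt : g.cf c p ∈ tup S := ⟨hXS, hXi⟩
  have hYt : g.cf c' p' ∈ tup S := ⟨hYS, hYi⟩
  have hX't : g.cf c' p ∈ tup S := ⟨hmem, hinj⟩
  have hXY : D.Sy (g.cf c p) = D.Sy (g.cf c' p') := by rw [hXs, hYs]
  rw [← hXs]
  have hbb : g.cf c' p g.b = g.cf c' p' g.b := by rw [Dom_b g hb, Dom_b g hb]
  have oth : ∀ j, j ≠ g.b → g.cf c' p j = g.cf c p j := fun j hj => Dom_o g c' c p hj
  refine Prod.ext ?_ (Prod.ext ?_ (Prod.ext ?_ ?_))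
  · funext i j
    change (if i = j then 0 else D.ch (g.cf c' p i) (D.phi (g.cf c' p j))) =
      (if i = j then 0 else D.ch (g.cf c p i) (D.phi (g.cf c p j)))
    by_cases hij : i = j
    · rw [if_pos hij, if_pos hij]
    · have e1 := congrArg (fun z => z.1 i j) hXY
      change (if i = j then 0 else D.ch (g.cf c p i) (D.phi (g.cf c p j))) =
        (if i = j then 0 else D.ch (g.cf c' p' i) (D.phi (g.cf c' p' j))) at e1
      rw [if_neg hij, if_neg hij] at e1
      rw [if_neg hij, if_neg hij]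
      by_cases hi : i = g.b
      · subst hi
        have hj : j ≠ g.b := fun h => hij h.symm
        by_cases hI : j ∈ g.I
        · rw [hSym D.toDat hD.ax _ _ (hne _ hX't _) (hne _ hX't _) (fun h => hij (hinj h)),
            hSym D.toDat hD.ax _ _ (hne _ hXt _) (hne _ hXt _) (fun h => hij (hXi h)),
            Dom_b g hb, Dom_b g hb, Dom_I g c' p hI, Dom_I g c p hI]
          exact (h1 _).symm
        · rw [e1, hbb, Dom_R g c' c' p p' hj hI]
      · by_cases hj : j = g.b
        · subst hj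
          by_cases hI : i ∈ g.I
          · rw [Dom_b g hb, Dom_b g hb, Dom_I g c' p hI, Dom_I g c p hI]
            exact (h1 _).symm
          · rw [e1, hbb, Dom_R g c' c' p p' hi hI]
        · rw [oth i hi, oth j hj]
  · funext i t
    change (D.ch (g.cf c' p i) (D.tau t.1), D.ch (g.cf c' p i) (D.phi t.1),
        if t.1 = D.inf then 0 else D.ch t.1 (D.phi (g.cf c' p i))) =
      (D.ch (g.cf c p i) (D.tau t.1), D.ch (g.cf c p i) (D.phi t.1),
        if t.1 = D.inf then 0 else D.ch t.1 (D.phi (g.cf c p i)))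
    by_cases hi : i = g.b
    · subst hi
      have e1 := congrArg (fun z => z.2.1 g.b t) hXY
      change (D.ch (g.cf c p g.b) (D.tau t.1), D.ch (g.cf c p g.b) (D.phi t.1),
        if t.1 = D.inf then 0 else D.ch t.1 (D.phi (g.cf c p g.b))) =
        (D.ch (g.cf c' p' g.b) (D.tau t.1), D.ch (g.cf c' p' g.b) (D.phi t.1),
        if t.1 = D.inf then 0 else D.ch t.1 (D.phi (g.cf c' p' g.b))) at e1
      rw [e1, hbb]
    · rw [oth i hi]
  · funext i
    change (D.cst (D.phi (g.cf c' p i)), D.ch0 (D.phi (g.cf c' p i))) =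
      (D.cst (D.phi (g.cf c p i)), D.ch0 (D.phi (g.cf c p i)))
    by_cases hi : i = g.b
    · subst hi
      have e1 := congrArg (fun z => z.2.2.1 g.b) hXY
      change (D.cst (D.phi (g.cf c p g.b)), D.ch0 (D.phi (g.cf c p g.b))) =
        (D.cst (D.phi (g.cf c' p' g.b)), D.ch0 (D.phi (g.cf c' p' g.b))) at e1
      rw [e1, hbb]
    · rw [oth i hi]
  · funext i u
    change D.phi (g.cf c' p i) • u.1 = D.phi (g.cf c p i) • u.1
    by_cases hi : i = g.b
    · subst hi
      have e1 := congrArg (fun z => z.2.2.2 g.b u) hXY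
      change D.phi (g.cf c p g.b) • u.1 = D.phi (g.cf c' p' g.b) • u.1 at e1
      rw [e1, hbb]
    · rw [oth i hi]

end Pool.Agent.MP72B
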