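import Pool.Agent.Lib.MP_72e2e6_nt.Sm.B.SpecA

/-!
# MP_72e2e6_nt, `Sm/B/Dua`: duality
-/

namespace Pool.Agent.MP72B

open Finset Pool.Agent.MP72S

/-- The group of the elements of order two. -/
private def duaV (N : Type) [AddCommGroup N] : AddSubgroup N where
  carrier := {s | 2 • s = 0}
  zero_mem' := smul_zero _
  add_mem' := fun {a b} (ha : 2 • a = 0) (hb : 2 • b = 0) => by
    change 2 • (a + b) = 0
    rw [smul_add, ha, hb, add_zero]
  neg_mem' := fun {a} (ha : 2 • a = 0) => by
    change 2 • (-a) = 0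
    rw [smul_neg, ha, neg_zero]

section

variable {G N P : Type} [Group G] [TopologicalSpace G] [AddCommGroup N] [DistribMulAction G N]
  {D : Dat G N P}

private theorem dua_e0 (hA : Ax D) {s : N} (hs : 2 • s = 0) : D.e 0 s = 0 := by
  have := hA.e_add 0 0 s (smul_zero _) (smul_zero _) hs
  rw [add_zero] at this
  exact left_eq_add.1 this

private theorem dua_cst (hA : Ax D) {c : N} (hc : 2 • c = 0) :
    IsHo (fun σ => if D.cst σ = 0 then 0 else c) := by
  refine ⟨hA.cstc.lc.comp fun a => if a = 0 then 0 else c, fun σ => ?_, fun σ τ => ?_⟩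
  · beta_reduce
    split_ifs
    · exact smul_zero _
    · exact hc
  · beta_reduce
    rw [hA.cstc.mul]
    rw [two_nsmul] at hc
    rcases zmod2 (D.cst σ) with h | h <;> rcases zmod2 (D.cst τ) with h' | h' <;> rw [h, h']
    · simp
    · simp
    · simp
    · rw [show (1 : ZMod 2) + 1 = 0 from rfl, if_pos rfl, if_neg one_ne_zero, hc]

end

section

variable {G N P ι : Type} [Group G] [TopologicalSpace G] [AddCommGroup N] [DistribMulAction G N]
  [Fintype ι] [DecidableEq ι] {D : Dat G N P}

omit [DecidableEq ι] in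
private theorem dua_ho_u (hA : Ax D) (x : ι → P) {θ : G → N} (hθ : IsHo θ)
    (h : ∀ v, v ∉ Set.range (D.pl x) → θ (D.tau v) = 0) : D.IsU x θ := by
  refine ⟨hθ.lc, fun σ τ => ?_, ⟨1, fun σ => ?_⟩, h⟩
  · rw [hθ.mul, tw_two hA.tri (hθ.two τ)]
  · rw [pow_one, hθ.two]

theorem tDua : MP72S.S_Hom → S_Tai → MP72S.S_Bas → S_Fix → MP72S.S_Rcv → S_Uq → S_Dk1 → S_ObR →
    MP72S.S_LinD → S_Dua := by
  intro hHom _ _ hFix hRcv hUq hDk hObR hLin G N P ι _ _ _ _ _ _ DL hAL x hx ξ η hH hob
  classical
  obtain ⟨hDk1, -, -, -, -, -, -, -, hinj', -, -⟩ := hDk (ι := ι) DL hAL x hx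
  obtain ⟨f1, f2, -, f4, f5, f6, -⟩ := hFix (ι := ι) DL hAL x hx
  have hA : Ax DL.toDat := hAL.ax
  let D : Dat G N P := DL.toDat
  have hVmem : ∀ s : N, s ∈ duaV N ↔ 2 • s = 0 := fun s => Iff.rfl
  have hV4 : Nat.card (duaV N) = 4 := hA.four
  have hVfin : Finite (duaV N) := Nat.finite_of_card_ne_zero (by rw [hV4]; norm_num)
  -- the space
  let W := D.J ι → (duaV N) × (duaV N)
  let B : W → W → ZMod 2 := fun w w' =>
    ∑ j, (D.e (w j).1 (w' j).2 + D.e (w j).2 (w' j).1)
  have hWcard : Nat.card W = (4 ^ Nat.card (D.J ι)) ^ 2 := by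
    rw [Nat.card_fun, Nat.card_prod, hV4, ← pow_mul, mul_comm _ 2, pow_mul]
    norm_num
  have hJV : Nat.card (D.J ι → duaV N) = 4 ^ Nat.card (D.J ι) := by
    rw [Nat.card_fun, hV4]
  have hB2 : ∀ w : W, 2 • w = 0 := by
    intro w
    funext j
    apply Prod.ext
    · exact Subtype.ext (w j).1.2
    · exact Subtype.ext (w j).2.2
  have hBadd : ∀ a b c : W, B (a + b) c = B a c + B b c := by
    intro a b c
    simp only [B]
    rw [← Finset.sum_add_distrib]
    apply Finset.sum_congr rfl
    intro j _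
    have h1 := hA.e_add (a j).1 (b j).1 (c j).2 (a j).1.2 (b j).1.2 (c j).2.2
    have h2 := hA.e_add (a j).2 (b j).2 (c j).1 (a j).2.2 (b j).2.2 (c j).1.2
    have h3 : (((a + b) j).1 : N) = (a j).1 + (b j).1 := rfl
    have h4 : (((a + b) j).2 : N) = (a j).2 + (b j).2 := rfl
    rw [h3, h4, h1, h2]
    abel
  have hBsym : ∀ a b : W, B a b = B b a := by
    intro a b
    simp only [B]
    apply Finset.sum_congr rfl
    intro j _
    rw [hA.e_sym _ _ (a j).1.2 (b j).2.2, hA.e_sym _ _ (a j).2.2 (b j).1.2, add_comm]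
  have hBnd : ∀ a : W, (∀ b, B a b = 0) → a = 0 := by
    intro a ha
    funext j
    have hz : ∀ (s : N), 2 • s = 0 → D.e s 0 = 0 := by
      intro s hs
      rw [hA.e_sym s 0 hs (smul_zero _), dua_e0 hA hs]
    apply Prod.ext
    · apply Subtype.ext
      apply hA.e_nd _ (a j).1.2
      intro s hs
      have h1 := ha (fun k => if k = j then (0, ⟨s, hs⟩) else 0)
      simp only [B] at h1
      rw [Finset.sum_eq_single j] at h1
      · simp only [if_true] at h1
        have h2 : D.e ((a j).2 : N) (((0 : duaV N)) : N) = 0 := hz _ (a j).2.2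
        rw [h2, add_zero] at h1
        exact h1
      · intro k _ hk
        simp only [if_neg hk]
        have h2 : D.e ((a k).2 : N) (((0 : duaV N)) : N) = 0 := hz _ (a k).2.2
        have h3 : D.e ((a k).1 : N) (((0 : duaV N)) : N) = 0 := hz _ (a k).1.2
        exact (congrArg₂ (· + ·) h3 h2).trans (add_zero 0)
      · intro h
        exact absurd (mem_univ j) h
    · apply Subtype.ext
      apply hA.e_nd _ (a j).2.2
      intro s hs
      have h1 := ha (fun k => if k = j then (⟨s, hs⟩, 0) else 0)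
      simp only [B] at h1
      rw [Finset.sum_eq_single j] at h1
      · simp only [if_true] at h1
        have h2 : D.e ((a j).1 : N) (((0 : duaV N)) : N) = 0 := hz _ (a j).1.2
        rw [h2, zero_add] at h1
        exact h1
      · intro k _ hk
        simp only [if_neg hk]
        have h2 : D.e ((a k).2 : N) (((0 : duaV N)) : N) = 0 := hz _ (a k).2.2
        have h3 : D.e ((a k).1 : N) (((0 : duaV N)) : N) = 0 := hz _ (a k).1.2
        exact (congrArg₂ (· + ·) h3 h2).trans (add_zero 0)
      · intro h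
        exact absurd (mem_univ j) h
  -- the image of the homomorphisms
  let X : AddSubgroup W :=
    { carrier := {w | ∃ θ : G → N, IsHo θ ∧ (∀ v, v ∉ Set.range (D.pl x) → θ (D.tau v) = 0) ∧
        ∀ j, ((w j).1 : N) = θ (D.tau (D.pl x j)) ∧ ((w j).2 : N) = θ (D.phi (D.pl x j))}
      zero_mem' := ⟨fun _ => 0, ⟨IsLocallyConstant.const 0, fun _ => smul_zero _,
        fun _ _ => (add_zero 0).symm⟩, fun _ _ => rfl, fun _ => ⟨rfl, rfl⟩⟩
      add_mem' := by
        rintro a b ⟨θ, h1, h2, h3⟩ ⟨θ', h1', h2', h3'⟩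
        refine ⟨fun σ => θ σ + θ' σ, ⟨h1.lc.comp₂ h1'.lc (fun a b => a + b), fun σ => ?_,
          fun σ τ => ?_⟩, fun v hv => ?_, fun j => ⟨?_, ?_⟩⟩
        · rw [smul_add, h1.two, h1'.two, add_zero]
        · rw [h1.mul, h1'.mul]
          abel
        · beta_reduce
          rw [h2 v hv, h2' v hv, add_zero]
        · beta_reduce
          rw [← (h3 j).1, ← (h3' j).1]
          rfl
        · beta_reduce
          rw [← (h3 j).2, ← (h3' j).2]
          rfl
      neg_mem' := by
        rintro a ⟨θ, h1, h2, h3⟩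
        refine ⟨fun σ => -θ σ, ⟨h1.lc.comp (fun a => -a), fun σ => ?_,
          fun σ τ => ?_⟩, fun v hv => ?_, fun j => ⟨?_, ?_⟩⟩
        · rw [smul_neg, h1.two, neg_zero]
        · rw [h1.mul, neg_add]
        · beta_reduce
          rw [h2 v hv, neg_zero]
        · beta_reduce
          rw [← (h3 j).1]
          rfl
        · beta_reduce
          rw [← (h3 j).2]
          rfl }
  let L : AddSubgroup W :=
    { carrier := {w | ∃ R : D.J ι → N, (∀ j, 2 • DL.lm x j (R j) = 0) ∧
        ∀ j, ((w j).1 : N) = tw (D.chi x) (D.tau (D.pl x j)) (R j) - R j ∧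
          ((w j).2 : N) = tw (D.chi x) (D.phi (D.pl x j)) (R j) - R j}
      zero_mem' := by
        refine ⟨fun _ => 0, fun j => by rw [map_zero, smul_zero], fun j => ⟨?_, ?_⟩⟩
        · beta_reduce
          rw [tw_map_zero, sub_zero]
          rfl
        · beta_reduce
          rw [tw_map_zero, sub_zero]
          rfl
      add_mem' := by
        rintro a b ⟨R, h1, h2⟩ ⟨R', h1', h2'⟩
        refine ⟨fun j => R j + R' j, fun j => ?_, fun j => ⟨?_, ?_⟩⟩
        · rw [map_add, smul_add, h1, h1', add_zero]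
        · have : (((a + b) j).1 : N) = (a j).1 + (b j).1 := rfl
          rw [this, (h2 j).1, (h2' j).1]
          beta_reduce
          rw [tw_add]
          abel
        · have : (((a + b) j).2 : N) = (a j).2 + (b j).2 := rfl
          rw [this, (h2 j).2, (h2' j).2]
          beta_reduce
          rw [tw_add]
          abel
      neg_mem' := by
        rintro a ⟨R, h1, h2⟩
        refine ⟨fun j => -R j, fun j => ?_, fun j => ⟨?_, ?_⟩⟩
        · rw [map_neg, smul_neg, h1, neg_zero]
        · have : (((-a) j).1 : N) = -(a j).1 := rfl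
          rw [this, (h2 j).1]
          beta_reduce
          rw [tw_neg]
          abel
        · have : (((-a) j).2 : N) = -(a j).2 := rfl
          rw [this, (h2 j).2]
          beta_reduce
          rw [tw_neg]
          abel }
  -- isotropy
  have hXiso : ∀ a ∈ X, ∀ b ∈ X, B a b = 0 := by
    rintro a ⟨θ, h1, h2, h3⟩ b ⟨θ', h1', h2', h3'⟩
    have hr := hRcv DL.toDat hA θ θ' (univ.image (D.pl x)) h1 h1' (by
      intro v hv
      have hvr : v ∉ Set.range (D.pl x) := by
        rintro ⟨j, hj⟩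
        exact hv (mem_image.2 ⟨j, mem_univ j, hj⟩)
      rw [Dat.lp, h2 v hvr, h2' v hvr, dua_e0 hA (h1'.two _),
        hA.e_sym _ _ (h1.two _) (smul_zero _), dua_e0 hA (h1.two _), add_zero])
    rw [Finset.sum_image fun a _ b _ h => hinj' h] at hr
    rw [← hr]
    simp only [B]
    apply Finset.sum_congr rfl
    intro j _
    rw [Dat.lp, (h3 j).1, (h3 j).2, (h3' j).1, (h3' j).2]
  have hLiso : ∀ a ∈ L, ∀ b ∈ L, B a b = 0 := by
    rintro a ⟨R, h1, h2⟩ b ⟨R', h1', h2'⟩
    simp only [B]
    apply Finset.sum_eq_zero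
    intro j _
    rw [(h2 j).1, (h2 j).2, (h2' j).1, (h2' j).2]
    exact f5 j (R j) (R' j) (h1 j) (h1' j)
  -- orders
  let jinf : D.J ι := Sum.inl ⟨D.inf, hA.infS⟩
  have hplinf : D.pl x jinf = D.inf := rfl
  have hXinj : ∀ w ∈ X, (∀ j, (if D.pl x j = D.inf then (w j).2 else (w j).1) = 0) → w = 0 := by
    rintro w ⟨θ, h1, h2, h3⟩ h4
    have hphi : θ (D.phi D.inf) = 0 := by
      have h5 := h4 jinf
      rw [if_pos hplinf] at h5
      have h6 := (h3 jinf).2
      rw [hplinf] at h6
      rw [← h6, h5]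
      rfl
    have htau : ∀ v, v ≠ D.inf → θ (D.tau v) = 0 := by
      intro v hv
      by_cases hvr : v ∈ Set.range (D.pl x)
      · obtain ⟨j, rfl⟩ := hvr
        have h5 := h4 j
        rw [if_neg hv] at h5
        rw [← (h3 j).1, h5]
        rfl
      · exact h2 v hvr
    have htinf : θ (D.tau D.inf) = 0 := by
      apply hA.e_nd _ (h1.two _)
      intro c hc
      have hr := hRcv DL.toDat hA θ _ {D.inf} h1 (dua_cst hA hc) (by
        intro v hv
        rw [mem_singleton] at hv
        rw [Dat.lp, htau v hv, hA.cst_tau, if_pos rfl, dua_e0 hA ((dua_cst hA hc).two _),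
          hA.e_sym _ _ (h1.two _) (smul_zero _), dua_e0 hA (h1.two _), add_zero])
      rw [sum_singleton, Dat.lp, hA.cst_tau, hA.cst_inf, if_pos rfl, if_neg one_ne_zero,
        hA.e_sym (θ (D.phi D.inf)) 0 (h1.two _) (smul_zero _), dua_e0 hA (h1.two _),
        add_zero] at hr
      exact hr
    have h0 := (hHom DL.toDat hA).1 θ h1 (fun v => by
      by_cases hv : v = D.inf
      · rw [hv, htinf]
      · exact htau v hv) hphi
    funext j
    apply Prod.ext
    · apply Subtype.ext
      rw [(h3 j).1, h0]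
      rfl
    · apply Subtype.ext
      rw [(h3 j).2, h0]
      rfl
  have hXcard : Nat.card X = 4 ^ Nat.card (D.J ι) := by
    rw [← hJV]
    apply Nat.card_congr
    apply Equiv.ofBijective
      (fun w : X => fun j => if D.pl x j = D.inf then (w.1 j).2 else (w.1 j).1)
    constructor
    · intro w w' h
      apply Subtype.ext
      apply sub_eq_zero.1
      apply hXinj _ (X.sub_mem w.2 w'.2)
      intro j
      have h5 := congrFun h j
      beta_reduce at h5
      by_cases hj : D.pl x j = D.inf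
      · rw [if_pos hj, if_pos hj] at h5
        rw [if_pos hj]
        have : ((w.1 - w'.1) j).2 = (w.1 j).2 - (w'.1 j).2 := rfl
        rw [this, h5, sub_self]
      · rw [if_neg hj, if_neg hj] at h5
        rw [if_neg hj]
        have : ((w.1 - w'.1) j).1 = (w.1 j).1 - (w'.1 j).1 := rfl
        rw [this, h5, sub_self]
    · intro u
      obtain ⟨θ, h1, h2, h3, h4⟩ := (hHom DL.toDat hA).2.1 ((univ.image (D.pl x)).erase D.inf)
        (fun v => if h : ∃ j, D.pl x j = v then (u h.choose : N) else 0) (u jinf)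
        (fun h => (mem_erase.1 h).1 rfl)
        (by
          intro v
          beta_reduce
          split_ifs with h
          · exact (u h.choose).2
          · exact smul_zero _)
        (u jinf).2
      have hch : ∀ j, (if h : ∃ j', D.pl x j' = D.pl x j then (u h.choose : N) else 0) = u j := by
        intro j
        have h : ∃ j', D.pl x j' = D.pl x j := ⟨j, rfl⟩
        rw [dif_pos h, hinj' h.choose_spec]
      refine ⟨⟨fun j => (⟨θ (D.tau (D.pl x j)), h1.two _⟩, ⟨θ (D.phi (D.pl x j)), h1.two _⟩),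
        θ, h1, fun v hv => ?_, fun j => ⟨rfl, rfl⟩⟩, ?_⟩
      · apply h3
        · intro h
          obtain ⟨j, -, hj⟩ := mem_image.1 (mem_erase.1 h).2
          exact hv ⟨j, hj⟩
        · rintro rfl
          exact hv ⟨jinf, hplinf⟩
      · funext j
        beta_reduce
        by_cases hj : D.pl x j = D.inf
        · rw [if_pos hj]
          apply Subtype.ext
          have hjj : j = jinf := hinj' (hj.trans hplinf.symm)
          subst hjj
          exact h4
        · rw [if_neg hj]
          apply Subtype.ext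
          have h5 := h2 (D.pl x j) (mem_erase.2 ⟨hj, mem_image_of_mem _ (mem_univ j)⟩)
          exact h5.trans (hch j)
  have hLcard : Nat.card L = 4 ^ Nat.card (D.J ι) := by
    rw [← hJV]
    symm
    apply Nat.card_congr
    choose r hr using f2
    have hr2 : ∀ (j : D.J ι) (s : duaV N), 2 • DL.lm x j (r j (s : N)) = 0 := by
      intro j s
      rw [hr]
      exact s.2
    apply Equiv.ofBijective
      (fun s : D.J ι → duaV N => (⟨fun j =>
        (⟨tw (D.chi x) (D.tau (D.pl x j)) (r j (s j : N)) - r j (s j : N),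
          ((f4 j _).1 (hr2 j (s j))).1⟩,
         ⟨tw (D.chi x) (D.phi (D.pl x j)) (r j (s j : N)) - r j (s j : N),
          ((f4 j _).1 (hr2 j (s j))).2⟩),
        fun j => r j (s j : N), fun j => hr2 j (s j), fun j => ⟨rfl, rfl⟩⟩ : L))
    constructor
    · intro s s' h
      have h1 := congrArg (fun w : L => w.1) h
      funext j
      have h2 := congrFun h1 j
      have h3 := congrArg (fun p : duaV N × duaV N => (p.1 : N)) h2
      have h4 := congrArg (fun p : duaV N × duaV N => (p.2 : N)) h2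
      beta_reduce at h3 h4
      have h5 : tw (D.chi x) (D.tau (D.pl x j)) (r j (s j : N) - r j (s' j : N)) =
          r j (s j : N) - r j (s' j : N) := by
        rw [tw_sub]
        have h3' : tw (D.chi x) (D.tau (D.pl x j)) (r j (s j : N)) - r j (s j : N) =
          tw (D.chi x) (D.tau (D.pl x j)) (r j (s' j : N)) - r j (s' j : N) := h3
        rw [sub_eq_sub_iff_add_eq_add] at h3' ⊢
        rw [h3']
        abel
      have h6 : tw (D.chi x) (D.phi (D.pl x j)) (r j (s j : N) - r j (s' j : N)) =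
          r j (s j : N) - r j (s' j : N) := by
        rw [tw_sub]
        have h4' : tw (D.chi x) (D.phi (D.pl x j)) (r j (s j : N)) - r j (s j : N) =
          tw (D.chi x) (D.phi (D.pl x j)) (r j (s' j : N)) - r j (s' j : N) := h4
        rw [sub_eq_sub_iff_add_eq_add] at h4' ⊢
        rw [h4']
        abel
      have h7 : DL.lm x j (r j (s j : N) - r j (s' j : N)) = 0 := (f1 j _).2 ⟨h5, h6⟩
      rw [map_sub, hr, hr, sub_eq_zero] at h7
      exact Subtype.ext h7
    · rintro ⟨w, R, h1, h2⟩
      refine ⟨fun j => ⟨DL.lm x j (R j), h1 j⟩, ?_⟩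
      apply Subtype.ext
      funext j
      have h3 : DL.lm x j (r j (DL.lm x j (R j)) - R j) = 0 := by
        rw [map_sub, hr, sub_self]
      obtain ⟨h4, h5⟩ := (f1 j _).1 h3
      rw [tw_sub, sub_eq_sub_iff_add_eq_add] at h4 h5
      apply Prod.ext
      · apply Subtype.ext
        rw [(h2 j).1]
        change tw (D.chi x) (D.tau (D.pl x j)) (r j (DL.lm x j (R j))) -
          r j (DL.lm x j (R j)) = _
        rw [sub_eq_sub_iff_add_eq_add, add_comm (tw (D.chi x) (D.tau (D.pl x j)) (R j))]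
        exact h4
      · apply Subtype.ext
        rw [(h2 j).2]
        change tw (D.chi x) (D.phi (D.pl x j)) (r j (DL.lm x j (R j))) -
          r j (DL.lm x j (R j)) = _
        rw [sub_eq_sub_iff_add_eq_add, add_comm (tw (D.chi x) (D.phi (D.pl x j)) (R j))]
        exact h5
  -- the defect
  have hdf := (hObR DL hAL x hx ξ η hH (fun j => DL.qr x j (ξ j)) fun j => f6 j _).1
  let a : W := fun j => (⟨DL.df x ξ η j (D.tau (D.pl x j)), hdf j _ (Or.inl rfl)⟩,
    ⟨DL.df x ξ η j (D.phi (D.pl x j)), hdf j _ (Or.inr rfl)⟩)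
  have haperp : ∀ w ∈ X ⊓ L, B a w = 0 := by
    rintro w ⟨⟨θ, h1, h2, h3⟩, ⟨R, h4, h5⟩⟩
    have hZ : DL.IsZ x (fun j => DL.lm x j (R j)) θ := by
      refine ⟨dua_ho_u hA x h1 h2, fun j => ⟨R j, rfl, ?_, ?_⟩⟩
      · rw [← (h3 j).1, (h5 j).1]
      · rw [← (h3 j).2, (h5 j).2]
    have hs : (fun j => DL.lm x j (R j)) ∈ DL.Dk x 1 := by
      rw [hDk1]
      refine ⟨⟨θ, hZ⟩, ?_⟩
      funext j
      exact h4 j
    have h6 := hob _ hs
    have h7 : ∀ σ, DL.coc x (fun j => DL.lm x j (R j)) σ = θ σ := (hUq DL hAL x hx).1 _ _ hZ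
    rw [← h6, DatL.ob]
    simp only [B]
    apply Finset.sum_congr rfl
    intro j _
    rw [Dat.lp, h7, h7, (h3 j).1, (h3 j).2]
  obtain ⟨b, ⟨θ, h1, h2, h3⟩, c, ⟨R, h4, h5⟩, habc⟩ := hLin W B hB2 hBadd hBsym hBnd X L hXiso
    hLiso (by rw [hXcard, hWcard]) (by rw [hLcard, hWcard]) a haperp
  have h6 : ∀ j, DL.df x ξ η j (D.tau (D.pl x j)) = θ (D.tau (D.pl x j)) +
      (tw (D.chi x) (D.tau (D.pl x j)) (R j) - R j) := by
    intro j
    rw [← (h3 j).1, ← (h5 j).1]
    have := congrArg (fun p : duaV N × duaV N => (p.1 : N)) (congrFun habc j)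
    exact this
  have h7 : ∀ j, DL.df x ξ η j (D.phi (D.pl x j)) = θ (D.phi (D.pl x j)) +
      (tw (D.chi x) (D.phi (D.pl x j)) (R j) - R j) := by
    intro j
    rw [← (h3 j).2, ← (h5 j).2]
    have := congrArg (fun p : duaV N × duaV N => (p.2 : N)) (congrFun habc j)
    exact this
  refine ⟨fun j => DL.lm x j (R j + DL.qr x j (ξ j)), ⟨fun σ => η σ + -θ σ, ?_,
    fun j => ⟨_, rfl, ?_, ?_⟩⟩, ?_⟩
  · exact hH.u.add (dua_ho_u hA x h1 h2).neg
  · have h8 := h6 j
    rw [DatL.df, sub_eq_iff_eq_add] at h8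
    beta_reduce
    rw [h8, tw_add]
    abel
  · have h8 := h7 j
    rw [DatL.df, sub_eq_iff_eq_add] at h8
    beta_reduce
    rw [h8, tw_add]
    abel
  · funext j
    change 2 • DL.lm x j (R j + DL.qr x j (ξ j)) = ξ j
    rw [map_add, smul_add, h4, zero_add, ← map_nsmul, f6]

end

end Pool.Agent.MP72B
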