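import Pool.Agent.Lib.MP_72e2e6_nt.Sm.B.SpecA

/-!
# MP_72e2e6_nt, `Sm/B`, module `Evn`: parity
-/

set_option autoImplicit false

namespace Pool.Agent.MP72B

open Finset Pool.Agent.MP72S

private theorem evn_pow {A : Type} [AddCommGroup A] [Finite A] (h : ∀ a : A, 2 • a = 0) :
    ∃ e : ℕ, Nat.card A = 2 ^ e := by
  have hp : IsPGroup 2 (Multiplicative A) := by
    intro g
    refine ⟨1, ?_⟩
    rw [pow_one]
    exact congrArg Multiplicative.ofAdd (h (Multiplicative.toAdd g))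
  obtain ⟨e, he⟩ := IsPGroup.iff_card.1 hp
  exact ⟨e, by rw [← he]; exact Nat.card_congr Multiplicative.ofAdd⟩

private theorem evn_nat {a s c : ℕ} (h : 4 ^ a = 4 ^ s * c) (h1 : 4 ≤ c) (h2 : c < 16) : c = 4 := by
  have hd : c ∣ 2 ^ (2 * a) := by
    rw [pow_mul]
    exact ⟨4 ^ s, by rw [show (2 : ℕ) ^ 2 = 4 from rfl, h, mul_comm]⟩
  obtain ⟨e, -, he⟩ := (Nat.dvd_prime_pow Nat.prime_two).1 hd
  have h3 : 2 * a = 2 * s + e := by
    have h4 : 2 ^ (2 * a) = 2 ^ (2 * s + e) := by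
      rw [pow_add, pow_mul, pow_mul, show (2 : ℕ) ^ 2 = 4 from rfl, h, he]
    exact Nat.pow_right_injective le_rfl h4
  have h5 : e < 4 := by
    by_contra hc
    push Not at hc
    have := Nat.pow_le_pow_right (show 0 < 2 by norm_num) hc
    rw [← he] at this
    omega
  have h6 : e = 0 ∨ e = 2 := by omega
  rcases h6 with rfl | rfl
  · rw [he] at h1
    norm_num at h1
  · rw [he]
    rfl

theorem tEvn : S_Dk1 → S_Rad → S_Evn := by
  intro hD hRad G N P ι R _ _ _ _ _ _ _ _ _ _ D E hf ax ax2 ax3 x ok L hL hc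
  obtain ⟨hm, hT, -, hD1, hfin, hT4, -⟩ := hD (ι := ι) D ax x ok
  have hT4' := hT4 inferInstance
  have hs : ∀ k, 1 ≤ k → ∃ s : ℕ, Nat.card (D.Dk x 1) = 4 ^ s * Nat.card (D.Dk x k) := by
    intro k hk
    induction k, hk using Nat.le_induction with
    | base => exact ⟨0, by rw [pow_zero, one_mul]⟩
    | succ k hk ih =>
      obtain ⟨s, hs⟩ := ih
      obtain ⟨t, ht⟩ := hRad D E hf ax ax2 ax3 x ok k hk
      exact ⟨s + t, by rw [hs, ht, pow_add, mul_assoc]⟩
  obtain ⟨s, hs⟩ := hs L hL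
  have := hfin L hL
  have hle := hT L hL
  have h4 : 4 ≤ Nat.card (D.Dk x L) := by
    rw [← hT4']
    exact Nat.card_le_card_of_injective _ (AddSubgroup.inclusion_injective hle)
  constructor
  · rintro ⟨r, hr⟩
    have h5 : Nat.card (D.Dk x L) = 4 := evn_nat (hr.symm.trans hs) h4 hc
    exact (AddSubgroup.eq_of_le_of_card_ge hle (by rw [h5, hT4'])).symm
  · have h2 : ∀ a : D.Dk x L, 2 • a = 0 := by
      intro a
      have h := ((hm a.1).1 (hD1 L hL a.2)).2
      exact Subtype.ext h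
    obtain ⟨e, he⟩ := evn_pow h2
    have he4 : e < 4 := by
      by_contra hc'
      push Not at hc'
      have := Nat.pow_le_pow_right (show 0 < 2 by norm_num) hc'
      rw [← he] at this
      omega
    rw [he]
    have : e ≤ 3 := by omega
    calc 2 ^ e ≤ 2 ^ 3 := Nat.pow_le_pow_right (by norm_num) this
      _ = 8 := by norm_num

end Pool.Agent.MP72B
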