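import Pool.Agent.Lib.MP_72e2e6_nt.Sm.B.SpecF

/-!
# MP_72e2e6_nt, `Sm/B/FFrm`: the interface `S_FrmB`
-/

set_option autoImplicit false

namespace Pool.Agent.MP72B.Frm

open Finset Polynomial Pool.Agent.MP72W Pool.Agent.MP72T Pool.Agent.MP72S Pool.Agent.MP72S.Ns

private theorem ffrm_two {F : Type} [Field F] [Finite F] (h : Nat.card F % 4 = 1) :
    (2 : F) ≠ 0 := by
  have hft : Fintype F := Fintype.ofFinite F
  apply Ring.two_ne_zero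
  intro h2
  rw [FiniteField.even_card_iff_char_two] at h2
  rw [Nat.card_eq_fintype_card] at h
  omega

private theorem ffrm_mono {G N P F : Type} [Field F] {D : Dat G N P} {pi : P → F[X]}
    {A A' m : ℕ} {n : Fin m → ℕ} {h X : ℕ} (hA : A' ≤ A) (H : LvU.FrU D pi A m n h X) :
    LvU.FrU D pi A' m n h X where
  four := H.four
  ge := H.ge
  sm := H.sm
  tot := H.tot
  rat := (Nat.mul_le_mul_right _ hA).trans H.rat
  big := (Nat.pow_le_pow_left (Nat.mul_le_mul_left _ (Nat.pow_le_pow_left hA _)) 2).trans H.big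

private theorem ffrm_finite {P ι : Type} [Fintype ι] [DecidableEq ι] (S : ι → Finset P) :
    (tup S).Finite := by
  refine (Finset.finite_toSet (Fintype.piFinset S)).subset ?_
  intro z hz
  rw [Finset.mem_coe, Fintype.mem_piFinset]
  exact hz.1

private theorem ffrm_sum {α : Type} {s t : Set α} (ht : t.Finite) (hst : s ⊆ t) (f : α → ℕ) :
    (∑ᶠ z ∈ s, (f z : ℝ)) ≤ ∑ᶠ z ∈ t, (f z : ℝ) := by
  rw [finsum_mem_eq_finite_toFinset_sum _ ht, finsum_mem_eq_finite_toFinset_sum _ (ht.subset hst)]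
  refine Finset.sum_le_sum_of_subset_of_nonneg ?_ fun _ _ _ => Nat.cast_nonneg _
  intro z hz
  rw [Set.Finite.mem_toFinset] at hz ⊢
  exact hst hz

theorem tFFrm (hLo : D.S_Lo) (hRq : D.S_Rq) (hKk : D.S_Kk) (hVEnd : S_VEnd)
    (hLg1B : S_Lg1B) (hLg2aB : S_Lg2aB) (hLg2B : S_Lg2B)
    (hSpl : SF.S_SplI) (hAx : HB.S_Ax) (hAxl : HB.S_Axl) (hIrf : HB.S_Irf)
    (hCm : HD.S_Cm) (hIrc : S_FIrc) (hAri : S_FAri) (hFHy : S_FHy)
    (hFNum : MP72S.Frm.S_FNum) (hFTm : S_FTm) (hFFru : S_FFru) (hFSzc : S_FSzc)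
    (hFTop : S_FTop) : S_FFrm := by
  classical
  intro F _ _ a hcur d hd ε hε
  have h2 : (2 : F) ≠ 0 := ffrm_two hcur.q4
  obtain ⟨Ad, hAd⟩ := hLo F h2
  obtain ⟨Cg, A₁, hLg1⟩ := hLg1B (Dlt a).natDegree
  obtain ⟨Lf, hLf, hEnd⟩ := hVEnd (Cg : ℝ) (ε / 6) (by positivity)
  obtain ⟨K, A₂, hLg2a⟩ := hLg2aB (Dlt a).natDegree (ε / 6) (by positivity)
  obtain ⟨A₃, hLg2⟩ := hLg2B (Dlt a).natDegree Lf (ε / 6) (by positivity)
  obtain ⟨E, L₀, hEnd⟩ := hEnd K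
  obtain ⟨C₀, hC₀⟩ := hSpl F h2 Ad hAd
  obtain ⟨A, B, hNum⟩ := hFNum C₀ E L₀ (A₁ + A₂ + A₃) (Dlt a).natDegree
  refine ⟨A, fun n h hdh s hs r n' hsum hFrN hodp => ?_⟩
  have hHy := hFHy F a hcur d hd h n s hs
  obtain ⟨⟨S, hS⟩, ⟨u, hu⟩, hirr⟩ := hIrf F a (d * s) Ad hHy hAd
  have hFra : Fra a d n h s S r n' := ⟨hcur, hd, hdh, hs, hS, hsum, hFrN.ge, hFrN.four, hodp⟩
  have hle : ∀ i, n' i ≤ n := by
    intro i
    have e1 : n' i ≤ ∑ i, n' i := Finset.single_le_sum (fun _ _ => Nat.zero_le _) (mem_univ i)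
    omega
  have hq2 : 2 ≤ Nat.card F := by
    have e1 := hcur.q4
    have e2 : 1 < Nat.card F := Finite.one_lt_card
    omega
  obtain ⟨n1, n2, n3, n4, n5, n6⟩ := hNum (Nat.card F) (om 1 h s) r n h n' hq2 hle hFrN
  -- the structures
  obtain ⟨-, hax2⟩ := hAx F a (d * s) u S Ad hHy hu hS hAd
  have haxl := hAxl F a (d * s) u S Ad hHy hu hS hAd
  have hari := hAri F a (d * s) u S Ad hHy hu hS hAd
  have hird := hIrc F a (d * s) u S Ad hHy hS hAd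
  have hfru := hFFru F a d n h s S r n' hFra u Ad (A₁ + A₂ + A₃) n5 n6
  have hszc := hFSzc F a d n h s S r n' hFra u Ad hu hAd C₀ hC₀ E (B * (om 1 h s + r + 2)) n2 n3 n4
  obtain ⟨T1, tm1, tm2, tm3⟩ := hFTm F a d n h s S r n' hFra u Ad hAd
  have h4 : 4 ∣ Nat.card F - 1 := by
    have e1 := hcur.q4
    omega
  have hpar : (∃ v ∈ T1, (HD.DD F a (d * s) u S Ad).ch v.1 ((HD.DD F a (d * s) u S Ad).tau
      (HD.DD F a (d * s) u S Ad).inf) = 1) ∨ ∃ i, Odd (n' i) := by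
    rcases hodp with ⟨P, hPm, hPi, hPs, hPo⟩ | h
    · left
      obtain ⟨v, hv, hvP⟩ := tm3 ⟨P, hPm, hPi⟩ hPs
      refine ⟨v, hv, ?_⟩
      rw [hari.deg v.1 v.2.2, hvP]
      change ((P.natDegree : ℕ) : ZMod 2) = 1
      obtain ⟨k, hk⟩ := hPo
      rw [hk]
      push_cast
      rw [show (2 : ZMod 2) = 0 from rfl, zero_mul, zero_add]
    · exact Or.inr h
  have s1 := hLg1 (HB.DL F a (d * s) u S Ad) Lv.pq (HD.irr F S) haxl hari h4 T1 tm1 tm2 (r + 1) n' h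
    (2 * n) (ffrm_mono (by omega) hfru) hszc.ok
  have s2 := hLg2a (HB.DL F a (d * s) u S Ad) Lv.pq (HD.irr F S) haxl hari h4 T1 tm1 tm2 (r + 1) n'
    h (2 * n) (ffrm_mono (by omega) hfru) hszc.ok
  have s3 := hLg2 (HB.DL F a (d * s) u S Ad) Lv.pq (HD.irr F S) haxl hird hari h4 T1 tm1 tm2 (r + 1)
    n' h (2 * n) (ffrm_mono (by omega) hfru) hpar hszc.ok (Fin.last r)
  have s2' : (∑ᶠ z ∈ {z ∈ tup fun i : Fin (r + 1) => HD.irr F S (n' i) |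
      2 ^ K < Nat.card ((HB.DL F a (d * s) u S Ad).Dk z 1)},
      (Nat.card ((HB.DL F a (d * s) u S Ad).Dk z 1) : ℝ)) ≤
      ε / 6 * ∏ i, (#(HD.irr F S (n' i)) : ℝ) := by
    refine le_trans (ffrm_sum ((ffrm_finite _).subset (Set.sep_subset _ _)) ?_ _) s2
    rintro z ⟨hz1, hz2⟩
    have e1 : K < 2 ^ K := Nat.lt_two_pow_self
    exact ⟨hz1, by omega⟩
  have htau : ∀ v, (HD.DD F a (d * s) u S Ad).tau v ∈ SF.Gb F := by
    obtain ⟨-, k2, -⟩ := hKk F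
    intro v c
    obtain ⟨-, r2, -⟩ := hRq F h2 v.o (Ad v) (hAd.ok v)
    exact r2 _ (hAd.ok v).tg (c : D.Qf F) ((k2 _).1 c.2)
  have hmain := hEnd (B * (om 1 h s + r + 2)) n1 (HB.DL F a (d * s) u S Ad)
    (SF.Gb F) haxl hax2 htau (hCm F) (Fin.last r) (fun i => HD.irr F S (n' i)) hszc s1 s2' s3
  obtain ⟨t1, t2⟩ := hFTop F a d n h s S r n' hFra u Ad hu hAd Lf hLf
  have t1' : (#(tpl F n') : ℝ) ≤ ∏ i, (#(HD.irr F S (n' i)) : ℝ) := by exact_mod_cast t1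
  have t2' := (Nat.cast_le (α := ℝ)).2 t2
  have he : (1 - 6 * (ε / 6)) = 1 - ε := by ring
  rw [he] at hmain
  rcases le_or_gt ε 1 with h1 | h1
  · calc (1 - ε) * (#(tpl F n') : ℝ) ≤ (1 - ε) * ∏ i, (#(HD.irr F S (n' i)) : ℝ) :=
          mul_le_mul_of_nonneg_left t1' (by linarith)
      _ ≤ _ := hmain.trans t2'
  · refine le_trans (mul_nonpos_of_nonpos_of_nonneg (by linarith) (Nat.cast_nonneg _)) ?_
    exact Nat.cast_nonneg _

end Pool.Agent.MP72B.Frm
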