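import Pool.Agent.Lib.MP_72e2e6_nt.Sm.B.SpecF

/-!
# MP_72e2e6_nt, `Sm/N`, module `FFru`: the size conditions of block `NG`
-/

set_option autoImplicit false

namespace Pool.Agent.MP72B.Frm

open Finset Polynomial Pool.Agent.MP72W Pool.Agent.MP72T Pool.Agent.MP72S Pool.Agent.MP72S.Ns

theorem tFFru (h1 : S_FSok) : S_FFru := by
  classical
  intro F _ _ a d n h s S r n' hF u A A₀ hr hb
  obtain ⟨hs1, hs2, hs3, _⟩ := h1 F a hF.cur d hF.td h n hF.dh s hF.sml S hF.sok
  have hmem : ∀ v : D.Pl F, v ∈ S.erase none ↔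
      v ∈ (HD.DD F a (d * s) u S A).S ∧ v ≠ (HD.DD F a (d * s) u S A).inf := by
    intro v
    rw [Finset.mem_erase, and_comm]
    exact Iff.rfl
  have hcard : Fintype.card (Lv.TT (HD.DD F a (d * s) u S A)) = #(S.erase none) :=
    Fintype.card_of_subtype _ hmem
  have hsum : ∑ v : Lv.TT (HD.DD F a (d * s) u S A), (Lv.pq v.1).natDegree =
      ∑ w ∈ S.erase none, (Lv.pq w).natDegree :=
    (Finset.sum_subtype (S.erase none) hmem fun w => (Lv.pq w).natDegree).symm
  have hc : Fintype.card (Lv.TT (HD.DD F a (d * s) u S A)) ≤ (Dlt a).natDegree + om 1 h s := by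
    rw [hcard]
    exact hs2
  have hn0 : n' 0 ≤ n := by
    have h2 := hF.sum
    have h3 : n' 0 ≤ ∑ i, n' i := Finset.single_le_sum (fun i _ => Nat.zero_le _) (Finset.mem_univ 0)
    omega
  refine ⟨hF.four, hF.ge, fun v hv => (hs1 v hv).1, ?_, ?_, ?_⟩
  · rw [hsum]
    have h2 := hF.sum
    have h3 := hF.dh
    have h4 := hF.ge 0
    have h5 : ∑ w ∈ S.erase none, (Lv.pq w).natDegree ≤ (Dlt a).natDegree + s.natDegree := hs3
    omega
  · exact le_trans (Nat.mul_le_mul_left _ (Nat.succ_le_succ hc)) hr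
  · refine le_trans (Nat.pow_le_pow_left (Nat.mul_le_mul_left _ ?_) 2) hb
    rcases Nat.eq_zero_or_pos A₀ with h2 | h2
    · rw [h2, zero_pow (by omega), zero_pow (by omega)]
    · exact Nat.pow_le_pow_right h2 (by omega)

end Pool.Agent.MP72B.Frm
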