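import Pool.Agent.Lib.MP_72e2e6_nt.Sm.B.SpecF

/-!
# MP_72e2e6_nt, `Sm/G`, module `Irc`: no cyclic subgroup of order four is stable under inertia
-/

set_option autoImplicit false

namespace Pool.Agent.MP72B.Frm

open Finset Polynomial MP72e2e6 Pool.Agent.MP72S Pool.Agent.MP72S.Lv

/-- The action on a cyclic subgroup of order four and the square roots. -/
private theorem ircGen (h1 : C.S_Vee) (h2 : C.S_Msg) {K L : Type} [Field K] (a : Fin 3 → K)
    [Field L] [Algebra K L] (hyp : C.Hyp a L) (Q : C.NN a L) (hQ4 : 4 • Q = 0)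
    (hQ2 : 2 • Q ≠ 0) :
    ∃ i, ∀ j, i ≠ j → ∃ ρ : L, ρ ^ 2 = C.al a L i - C.al a L j ∧ ρ ≠ 0 ∧
      ∀ s : Gal(L/K), (s • Q = Q → s ρ = ρ) ∧ (s • Q = -Q → s ρ ≠ ρ) := by
  classical
  obtain ⟨_, hv2, _, hv4, _, _, _, _, hv9, _, _⟩ := h1 K a L hyp
  have h3 : C.pt (2 • Q) = C.pt Q + C.pt Q := by rw [two_nsmul, C.pt_add]
  have h4 : (C.pt Q + C.pt Q) + (C.pt Q + C.pt Q) = 0 := by
    have h5 : Q + Q + (Q + Q) = 4 • Q := by abel
    rw [← C.pt_add, ← C.pt_add, h5, hQ4, C.pt_zero]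
  have h5 : C.pt Q + C.pt Q ≠ 0 := by
    intro h
    apply hQ2
    apply C.pt_inj
    rw [h3, h, C.pt_zero]
  obtain ⟨i, hi⟩ := ((hv2 _).1 h4).resolve_left h5
  refine ⟨i, fun j hij => ⟨C.rr (C.pt Q) j, ?_, ?_, fun s => ⟨fun h => ?_, fun h => ?_⟩⟩⟩
  · exact (h2 K a L hyp 1 (C.pt Q) i j hij hi).2.1
  · exact (h2 K a L hyp 1 (C.pt Q) i j hij hi).2.2.1
  · have h6 := (h2 K a L hyp s (C.pt Q) i j hij hi).2.2.2
    rw [← C.pt_smul, h, sub_self] at h6
    by_contra h7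
    rw [if_neg h7, C.e2, if_pos (Or.inl rfl)] at h6
    exact zero_ne_one h6
  · have h6 := (h2 K a L hyp s (C.pt Q) i j hij hi).2.2.2
    have h7 : C.pt (-Q) - C.pt Q = C.ee a i := by
      rw [C.pt_neg, ← hi]
      have h8 : -C.pt Q - C.pt Q = -(C.pt Q + C.pt Q) := by abel
      rw [h8, neg_eq_iff_add_eq_zero]
      exact h4
    rw [← C.pt_smul, h, h7, hv9, if_neg hij] at h6
    intro h8
    rw [if_pos h8] at h6
    exact one_ne_zero h6

theorem tFIrc (h1 : C.S_Vee) (h2 : C.S_Msg) (h3 : HD.S_Nu) (h4 : S_Odm) : S_FIrc := by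
  classical
  intro F _ _ a d u S A hy hS hA
  have h2F : (2 : F) ≠ 0 := by
    intro h
    have := Fintype.ofFinite F
    have h5 : ringChar F = 2 := CharP.ringChar_of_prime_eq_zero Nat.prime_two (by exact_mod_cast h)
    have h6 := FiniteField.even_card_of_char_two h5
    have h7 := hy.q4
    rw [Nat.card_eq_fintype_card] at h7
    omega
  have hyp : C.Hyp (HD.aR a) (D.Qf F) := by
    refine ⟨fun h => h2F ?_, fun i j h => hy.inj ?_⟩
    · have h5 : algebraMap F (RatFunc F) 2 = algebraMap F (RatFunc F) 0 := by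
        apply (algebraMap (RatFunc F) (D.Qf F)).injective
        rw [map_ofNat, map_ofNat, map_zero, map_zero]
        exact h
      exact (algebraMap F (RatFunc F)).injective h5
    · exact IsFractionRing.injective F[X] (RatFunc F) h
  obtain ⟨hplc, hnu, _, _⟩ := h3 F a h2F hy.inj A hA
  intro Q hQ4 hQ2
  obtain ⟨i, hi⟩ := ircGen h1 h2 (HD.aR a) hyp Q hQ4 hQ2
  obtain ⟨j, l, hij, hil, hjl⟩ : ∃ j l : Fin 3, i ≠ j ∧ i ≠ l ∧ j ≠ l :=
    (show ∀ i : Fin 3, ∃ j l : Fin 3, i ≠ j ∧ i ≠ l ∧ j ≠ l by decide) i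
  have hne : ∀ k, i ≠ k → a i - a k ≠ 0 := fun k hk h => hk (hy.inj (sub_eq_zero.1 h))
  have hf : (a i - a j) * (a i - a l) ≠ 0 := mul_ne_zero (hne j hij) (hne l hil)
  obtain ⟨P, hPm, hPi, hodd⟩ := h4 F _ hf (hy.nis i j l hij hil hjl)
  have hPp : Prime P := hPi.prime
  have hdvd : P ∣ (a i - a j) * (a i - a l) := by
    refine dvd_of_multiplicity_pos ?_
    obtain ⟨r, hr⟩ := hodd
    omega
  have hbad : P ∣ HD.bad a d := by
    have h5 : ∀ k, i ≠ k → (a i - a k) ∣ HD.bad a d := by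
      intro k hk
      have h6 : ∀ i k : Fin 3, i ≠ k → (a i - a k) ∣ (a 0 - a 1) * (a 0 - a 2) * (a 1 - a 2) := by
        intro i k hik
        have e1 : (a 0 - a 1) ∣ (a 0 - a 1) * (a 0 - a 2) * (a 1 - a 2) :=
          ⟨(a 0 - a 2) * (a 1 - a 2), by ring⟩
        have e2 : (a 0 - a 2) ∣ (a 0 - a 1) * (a 0 - a 2) * (a 1 - a 2) :=
          ⟨(a 0 - a 1) * (a 1 - a 2), by ring⟩
        have e3 : (a 1 - a 2) ∣ (a 0 - a 1) * (a 0 - a 2) * (a 1 - a 2) :=
          ⟨(a 0 - a 1) * (a 0 - a 2), by ring⟩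
        fin_cases i <;> fin_cases k
        · exact absurd rfl hik
        · exact e1
        · exact e2
        · rw [← neg_sub]
          exact (neg_dvd).2 e1
        · exact absurd rfl hik
        · exact e3
        · rw [← neg_sub]
          exact (neg_dvd).2 e2
        · rw [← neg_sub]
          exact (neg_dvd).2 e3
        · exact absurd rfl hik
      exact (h6 i k hk).mul_left d
    rcases hPp.dvd_or_dvd hdvd with h | h
    · exact h.trans (h5 j hij)
    · exact h.trans (h5 l hil)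
  have hmul : multiplicity P ((a i - a j) * (a i - a l)) =
      multiplicity P (a i - a j) + multiplicity P (a i - a l) :=
    multiplicity_mul hPp (FiniteMultiplicity.of_not_isUnit hPi.not_isUnit hf)
  rw [hmul] at hodd
  set P' : {P : F[X] // P.Monic ∧ Irreducible P} := ⟨P, hPm, hPi⟩ with hP'
  set τ := (A (some P')).rQ (A (some P')).t with hτ
  -- the action on the square roots
  have key : ∀ k, i ≠ k → ∀ ρ : D.Qf F,
      ρ ^ 2 = C.al (HD.aR a) (D.Qf F) i - C.al (HD.aR a) (D.Qf F) k → ρ ≠ 0 →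
      (τ ρ = ρ ↔ Even (multiplicity P (a i - a k))) := by
    intro k hk ρ hρ hρ0
    have h5 := (hplc (some P')).sq _ ρ hρ (by
      rw [map_sub, C.al, C.al, AlgEquiv.commutes, AlgEquiv.commutes]) _ (hnu P' i k hk)
    rw [h5]
    constructor
    · intro h6
      by_contra h7
      rw [if_neg (by rwa [Int.even_coe_nat])] at h6
      have h8 : (2 : D.Qf F) * ρ = 0 := by linear_combination -h6
      rcases mul_eq_zero.1 h8 with h9 | h9
      · exact hyp.1 h9
      · exact hρ0 h9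
    · intro h6
      rw [if_pos (by rwa [Int.even_coe_nat])]
  obtain ⟨ρ, hρ, hρ0, hρs⟩ := hi j hij
  obtain ⟨ρ', hρ', hρ0', hρs'⟩ := hi l hil
  refine ⟨some P', (hS _).2 (Or.inr ⟨P', rfl, hbad⟩), ?_, ?_, ?_⟩
  · exact Option.some_ne_none _
  · intro h
    have e1 := (key j hij ρ hρ hρ0).1 ((hρs τ).1 h)
    have e2 := (key l hil ρ' hρ' hρ0').1 ((hρs' τ).1 h)
    exact (Nat.not_odd_iff_even.2 (e1.add e2)) hodd
  · intro h
    have e1 : ¬ Even (multiplicity P (a i - a j)) := fun e =>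
      (hρs τ).2 h ((key j hij ρ hρ hρ0).2 e)
    have e2 : ¬ Even (multiplicity P (a i - a l)) := fun e =>
      (hρs' τ).2 h ((key l hil ρ' hρ' hρ0').2 e)
    rw [Nat.not_even_iff_odd] at e1 e2
    exact (Nat.not_odd_iff_even.2 (e1.add_odd e2)) hodd

end Pool.Agent.MP72B.Frm
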