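import Pool.Agent.Lib.MP_72e2e6_nt.Sm.B.SpecF

/-!
# MP_72e2e6_nt, `Sm/B`: module `FSok` (the fixed places)
-/

set_option autoImplicit false

namespace Pool.Agent.MP72B.Frm

open Finset Polynomial Pool.Agent.MP72W Pool.Agent.MP72T Pool.Agent.MP72S Pool.Agent.MP72S.Ns

private theorem fsSum {F : Type} [Field F] (f : F[X]) (hf : f ≠ 0) (T : Finset F[X])
    (hT : ∀ P ∈ T, P.Monic ∧ Irreducible P ∧ P ∣ f) : ∑ P ∈ T, P.natDegree ≤ f.natDegree := by
  have hcop : (T : Set F[X]).Pairwise (Function.onFun IsCoprime (fun P => P)) := by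
    intro P hP Q hQ hne
    have h1 := hT P hP
    have h2 := hT Q hQ
    refine (h1.2.1.coprime_iff_not_dvd).2 ?_
    intro hd
    have : Associated P Q := h1.2.1.associated_of_dvd h2.2.1 hd
    exact hne (eq_of_monic_of_associated h1.1 h2.1 this)
  have hd : ∏ P ∈ T, P ∣ f := Finset.prod_dvd_of_coprime hcop fun P hP => (hT P hP).2.2
  calc ∑ P ∈ T, P.natDegree = (∏ P ∈ T, P).natDegree := by
        rw [natDegree_prod_of_monic _ _ fun P hP => (hT P hP).1]
    _ ≤ f.natDegree := natDegree_le_of_dvd hd hf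

private theorem fsCard {F : Type} [Field F] (T : Finset F[X])
    (hT : ∀ P ∈ T, P.Monic ∧ Irreducible P) : #T ≤ ∑ P ∈ T, P.natDegree := by
  rw [Finset.card_eq_sum_ones]
  exact Finset.sum_le_sum fun P hP => Irreducible.natDegree_pos (hT P hP).2

private theorem fsInj {F : Type} [Field F] (w w' : D.Pl F) (h : w ≠ none) (h' : w' ≠ none)
    (e : Lv.pq w = Lv.pq w') : w = w' := by
  cases w with
  | none => exact absurd rfl h
  | some P =>
    cases w' with
    | none => exact absurd rfl h'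
    | some P' =>
      have : P.1 = P'.1 := e
      rw [Subtype.ext this]

/-- The polynomials of the places of a finite set `S` which does not contain infinity, all of them divisors of
`f * g`. -/
private theorem fsCore {F : Type} [Field F] [Finite F] (f g : F[X]) (hf : f ≠ 0) (hg : g ≠ 0)
    (h : ℕ) (hgh : ∀ P, Irreducible P → P ∣ g → P.natDegree < h) (S : Finset (D.Pl F))
    (hS : ∀ w ∈ S, w ≠ none ∧ (Lv.pq w ∣ f ∨ Lv.pq w ∣ g)) :
    #S ≤ f.natDegree + om 1 h g ∧ ∑ w ∈ S, (Lv.pq w).natDegree ≤ f.natDegree + g.natDegree := by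
  classical
  have hmi : ∀ w ∈ S, (Lv.pq w).Monic ∧ Irreducible (Lv.pq w) := by
    intro w hw
    cases w with
    | none => exact absurd rfl (hS _ hw).1
    | some P => exact P.2
  have hinj : Set.InjOn (fun w : D.Pl F => Lv.pq w) (S : Set (D.Pl F)) := by
    intro w hw w' hw' e
    exact fsInj w w' (hS w hw).1 (hS w' hw').1 e
  set T : Finset F[X] := S.image fun w => Lv.pq w with hTdef
  have hTm : ∀ P ∈ T, P.Monic ∧ Irreducible P ∧ (P ∣ f ∨ P ∣ g) := by
    intro P hP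
    obtain ⟨w, hw, rfl⟩ := Finset.mem_image.1 hP
    exact ⟨(hmi w hw).1, (hmi w hw).2, (hS w hw).2⟩
  have hsub : T ⊆ T.filter (· ∣ f) ∪ T.filter (· ∣ g) := by
    intro P hP
    rcases (hTm P hP).2.2 with h1 | h1
    · exact Finset.mem_union_left _ (Finset.mem_filter.2 ⟨hP, h1⟩)
    · exact Finset.mem_union_right _ (Finset.mem_filter.2 ⟨hP, h1⟩)
  have h1 : ∑ P ∈ T.filter (· ∣ f), P.natDegree ≤ f.natDegree :=
    fsSum f hf _ fun P hP => ⟨(hTm P (Finset.mem_filter.1 hP).1).1,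
      (hTm P (Finset.mem_filter.1 hP).1).2.1, (Finset.mem_filter.1 hP).2⟩
  have h2 : ∑ P ∈ T.filter (· ∣ g), P.natDegree ≤ g.natDegree :=
    fsSum g hg _ fun P hP => ⟨(hTm P (Finset.mem_filter.1 hP).1).1,
      (hTm P (Finset.mem_filter.1 hP).1).2.1, (Finset.mem_filter.1 hP).2⟩
  have h3 : #(T.filter (· ∣ f)) ≤ f.natDegree :=
    (fsCard _ fun P hP => ⟨(hTm P (Finset.mem_filter.1 hP).1).1,
      (hTm P (Finset.mem_filter.1 hP).1).2.1⟩).trans h1
  have h4 : #(T.filter (· ∣ g)) ≤ om 1 h g := by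
    have hs : T.filter (· ∣ g) ⊆
        (Ico 1 h).biUnion fun k => (MP72e2e6.irr F k).filter (· ∣ g) := by
      intro P hP
      have hP1 := hTm P (Finset.mem_filter.1 hP).1
      have hP2 : P ∣ g := (Finset.mem_filter.1 hP).2
      refine Finset.mem_biUnion.2 ⟨P.natDegree, Finset.mem_Ico.2
        ⟨Irreducible.natDegree_pos hP1.2.1, hgh P hP1.2.1 hP2⟩, Finset.mem_filter.2 ⟨?_, hP2⟩⟩
      exact Finset.mem_filter.2 ⟨MP72e2e6.mem_mon.2 ⟨hP1.1, rfl⟩, hP1.2.1⟩
    refine (Finset.card_le_card hs).trans (Finset.card_biUnion_le.trans ?_)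
    unfold om
    exact le_of_eq (Finset.sum_congr rfl fun k _ => by congr)
  constructor
  · calc #S = #T := (Finset.card_image_of_injOn hinj).symm
      _ ≤ #(T.filter (· ∣ f) ∪ T.filter (· ∣ g)) := Finset.card_le_card hsub
      _ ≤ #(T.filter (· ∣ f)) + #(T.filter (· ∣ g)) := Finset.card_union_le _ _
      _ ≤ f.natDegree + om 1 h g := Nat.add_le_add h3 h4
  · calc ∑ w ∈ S, (Lv.pq w).natDegree = ∑ P ∈ T, P.natDegree :=
          (Finset.sum_image hinj).symm
      _ ≤ ∑ P ∈ T.filter (· ∣ f) ∪ T.filter (· ∣ g), P.natDegree :=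
          Finset.sum_le_sum_of_subset hsub
      _ ≤ ∑ P ∈ T.filter (· ∣ f) ∪ T.filter (· ∣ g), P.natDegree +
          ∑ P ∈ T.filter (· ∣ f) ∩ T.filter (· ∣ g), P.natDegree := Nat.le_add_right _ _
      _ = ∑ P ∈ T.filter (· ∣ f), P.natDegree + ∑ P ∈ T.filter (· ∣ g), P.natDegree :=
          Finset.sum_union_inter
      _ ≤ f.natDegree + g.natDegree := Nat.add_le_add h1 h2

/-- Module `FSok`. -/
theorem tFSok : S_FHy → S_FSok := by
  intro _ F _ _ a hc d hd h n hh s hs S hS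
  classical
  have hD0 : Dlt a ≠ 0 := by
    unfold Dlt
    have h01 : a 0 - a 1 ≠ 0 := sub_ne_zero.2 fun e => absurd (hc.inj e) (by decide)
    have h02 : a 0 - a 2 ≠ 0 := sub_ne_zero.2 fun e => absurd (hc.inj e) (by decide)
    have h12 : a 1 - a 2 ≠ 0 := sub_ne_zero.2 fun e => absurd (hc.inj e) (by decide)
    exact mul_ne_zero (mul_ne_zero h01 h02) h12
  obtain ⟨k₀, -, hk₀⟩ := Finset.mem_biUnion.1 hs
  obtain ⟨hmon, -, -, hsm⟩ := Finset.mem_filter.1 hk₀
  have hsM : s.Monic := (MP72e2e6.mem_mon.1 hmon).1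
  have hkey : ∀ w ∈ S, w ≠ none → Lv.pq w ∣ Dlt a ∨ Lv.pq w ∣ s := by
    intro w hw hn
    rcases (hS w).1 hw with h1 | ⟨P, rfl, hP⟩
    · exact absurd h1 hn
    · have hpr : Prime P.1 := P.2.2.prime
      have hP' : P.1 ∣ d * s * Dlt a := hP
      rcases hpr.dvd_or_dvd hP' with h2 | h2
      · rcases hpr.dvd_or_dvd h2 with h3 | h3
        · exact Or.inl (hd.2 P.1 P.2.2 h3)
        · exact Or.inr h3
      · exact Or.inl h2
  have hdeg : ∀ w ∈ S, (Lv.pq w).natDegree < h := by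
    intro w hw
    by_cases hn : w = none
    · subst hn
      have : (Lv.pq (none : D.Pl F)) = 1 := rfl
      rw [this, natDegree_one]
      omega
    · rcases hkey w hw hn with h1 | h1
      · exact lt_of_le_of_lt (natDegree_le_of_dvd h1 hD0) hh
      · refine hsm _ ?_ h1
        cases w with
        | none => exact absurd rfl hn
        | some P => exact P.2.2
  have hcore := fsCore (Dlt a) s hD0 hsM.ne_zero h hsm (S.erase none) (fun w hw =>
    ⟨(Finset.mem_erase.1 hw).1, hkey w (Finset.mem_erase.1 hw).2 (Finset.mem_erase.1 hw).1⟩)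
  refine ⟨fun w hw => ⟨hdeg w hw, ?_⟩, hcore.1, hcore.2, ?_⟩
  · cases w with
    | none =>
      have : dgP (D.Pl.o (none : D.Pl F)) = 1 := rfl
      rw [this]
      omega
    | some P => exact (hdeg _ hw).le
  · intro hirr k hk
    have hset : ∀ w, w ∈ HD.irr F S k ↔ w ∈ SF.Irs F k := by
      intro w
      rw [hirr]
      refine ⟨fun h1 => h1.1, fun h1 => ⟨h1, fun h2 => ?_⟩⟩
      obtain ⟨P, rfl, hP⟩ := h1
      have h3 : P.1.natDegree < h := hdeg _ h2
      omega
    refine ⟨Set.ext fun w => hset w, ?_⟩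
    refine Finset.card_bij (fun w _ => Lv.pq w) ?_ ?_ ?_
    · intro w hw
      obtain ⟨P, rfl, hP⟩ := (hset w).1 hw
      exact Finset.mem_filter.2 ⟨MP72e2e6.mem_mon.2 ⟨P.2.1, hP⟩, P.2.2⟩
    · intro w hw w' hw' e
      obtain ⟨P, rfl, -⟩ := (hset w).1 hw
      obtain ⟨P', rfl, -⟩ := (hset w').1 hw'
      exact fsInj _ _ (Option.some_ne_none _) (Option.some_ne_none _) e
    · intro P hP
      obtain ⟨h1, h2⟩ := Finset.mem_filter.1 hP
      obtain ⟨h3, h4⟩ := MP72e2e6.mem_mon.1 h1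
      exact ⟨some ⟨P, h3, h2⟩, (hset _).2 ⟨⟨P, h3, h2⟩, rfl, h4⟩, rfl⟩

end Pool.Agent.MP72B.Frm
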