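import Pool.Agent.Lib.MP_72e2e6_nt.Sm.B.SpecF

/-!
# MP_72e2e6_nt, `Sm/B`: module `FTm` (the places of the primes of `s`)
-/

set_option autoImplicit false

namespace Pool.Agent.MP72B.Frm

open Finset Polynomial Pool.Agent.MP72W Pool.Agent.MP72T Pool.Agent.MP72S Pool.Agent.MP72S.Ns

private theorem ftm_two {F : Type} [Field F] [Finite F] (h : Nat.card F % 4 = 1) :
    (2 : F) ≠ 0 := by
  have hft : Fintype F := Fintype.ofFinite F
  apply Ring.two_ne_zero
  intro h2
  rw [FiniteField.even_card_iff_char_two] at h2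
  rw [Nat.card_eq_fintype_card] at h
  omega

private theorem ftm_sum {F : Type} [Field F] (f : F[X]) (hf : f ≠ 0) (T : Finset F[X])
    (hT : ∀ P ∈ T, P.Monic ∧ Irreducible P ∧ P ∣ f) : ∑ P ∈ T, P.natDegree ≤ f.natDegree := by
  have hcop : (T : Set F[X]).Pairwise (Function.onFun IsCoprime (fun P => P)) := by
    intro P hP Q hQ hne
    have h1 := hT P hP
    have h2 := hT Q hQ
    refine (h1.2.1.coprime_iff_not_dvd).2 ?_
    intro hd
    have : Associated P Q := h1.2.1.associated_of_dvd h2.2.1 hd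
    exact hne (eq_of_monic_of_associated h1.1 h2.1 this)
  have hd : ∏ P ∈ T, P ∣ f := Finset.prod_dvd_of_coprime hcop fun P hP => (hT P hP).2.2
  calc ∑ P ∈ T, P.natDegree = (∏ P ∈ T, P).natDegree := by
        rw [natDegree_prod_of_monic _ _ fun P hP => (hT P hP).1]
    _ ≤ f.natDegree := natDegree_le_of_dvd hd hf

private theorem ftm_dvd {R : Type} [CommRing R] (P : R) (a : Fin 3 → R) (i j : Fin 3)
    (hij : i ≠ j) (h : P ∣ a i - a j) : P ∣ (a 0 - a 1) * (a 0 - a 2) * (a 1 - a 2) := by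
  have h3 : P ∣ a 0 - a 1 ∨ P ∣ a 0 - a 2 ∨ P ∣ a 1 - a 2 := by
    have h' : P ∣ a j - a i := (dvd_sub_comm).1 h
    revert hij h h'
    revert i j
    intro i j
    fin_cases i <;> fin_cases j <;> intro h1 h2 h3 <;> first
      | exact absurd rfl h1
      | exact Or.inl h2
      | exact Or.inl h3
      | exact Or.inr (Or.inl h2)
      | exact Or.inr (Or.inl h3)
      | exact Or.inr (Or.inr h2)
      | exact Or.inr (Or.inr h3)
  rcases h3 with h3 | h3 | h3
  · exact dvd_mul_of_dvd_left (dvd_mul_of_dvd_left h3 _) _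
  · exact dvd_mul_of_dvd_left (dvd_mul_of_dvd_right h3 _) _
  · exact dvd_mul_of_dvd_right h3 _

theorem tFTm (hKl : D.S_Kl) (hVl : HD.S_Vl) (hNu : HD.S_Nu)
    (hGoo : C.S_Goo) : S_FTm := by
  classical
  intro F _ _ a d n h s S r n' hF u A hA
  have h2 : (2 : F) ≠ 0 := ftm_two hF.cur.q4
  have hD0 : Dlt a ≠ 0 := by
    unfold Dlt
    have h01 : a 0 - a 1 ≠ 0 := sub_ne_zero.2 fun e => absurd (hF.cur.inj e) (by decide)
    have h02 : a 0 - a 2 ≠ 0 := sub_ne_zero.2 fun e => absurd (hF.cur.inj e) (by decide)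
    have h12 : a 1 - a 2 ≠ 0 := sub_ne_zero.2 fun e => absurd (hF.cur.inj e) (by decide)
    exact mul_ne_zero (mul_ne_zero h01 h02) h12
  obtain ⟨k₀, -, hk₀⟩ := Finset.mem_biUnion.1 hF.sml
  obtain ⟨hmon, hsq, hcop, hsm⟩ := Finset.mem_filter.1 hk₀
  have hsM : s.Monic := (MP72e2e6.mem_mon.1 hmon).1
  have hd0 : d ≠ 0 := hF.td.1.ne_zero
  have h2Q : (2 : D.Qf F) ≠ 0 := by
    have h : (2 : D.Qf F) = algebraMap (RatFunc F) (D.Qf F) (RatFunc.C 2) := by
      rw [map_ofNat, map_ofNat]
    rw [h, ne_eq, map_eq_zero, map_eq_zero]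
    exact h2
  have hyp : C.Hyp (HD.aR a) (D.Qf F) :=
    ⟨h2Q, fun i j hij => hF.cur.inj (RatFunc.algebraMap_injective F hij)⟩
  obtain ⟨n1, -, -, n4⟩ := hNu F a h2 hF.cur.inj A hA
  obtain ⟨v1, -⟩ := hVl F A hA
  refine ⟨univ.filter fun v => Lv.pq v.1 ∣ s, ?_, ?_, ?_⟩
  · rintro ⟨w, hwS, hwi⟩ hw
    have hws : Lv.pq w ∣ s := (Finset.mem_filter.1 hw).2
    cases w with
    | none => exact absurd rfl hwi
    | some P =>
      have hPs : P.1 ∣ s := hws
      have hPD : ¬ P.1 ∣ Dlt a := fun h1 => P.2.2.not_isUnit (hcop.isUnit_of_dvd' hPs h1)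
      have hPd : ¬ P.1 ∣ d := fun h1 => hPD (hF.td.2 P.1 P.2.2 h1)
      refine ⟨?_, fun Q => ?_⟩
      · have hm : multiplicity P.1 (d * s) = 1 := by
          refine multiplicity_eq_of_dvd_of_not_dvd ?_ ?_
          · rw [pow_one]
            exact hPs.mul_left d
          · intro h1
            have h3 := P.2.2.prime.pow_dvd_of_dvd_mul_left 2 hPd h1
            rw [pow_two] at h3
            exact P.2.2.not_isUnit (hsq P.1 h3)
        have h5 := (hKl F h2 _ (A (some P)) (hA.ok (some P))).1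
          (algebraMap F[X] (RatFunc F) (d * s)) _ (v1 P (d * s) (mul_ne_zero hd0 hsM.ne_zero))
        rw [hm] at h5
        exact h5.trans (by simp)
      · exact hGoo (RatFunc F) (HD.aR a) (D.Qf F) (D.kF F) _ _ _ _ _ hyp (n1 (some P))
          (fun i j hij => n4 P i j hij fun h1 => hPD (ftm_dvd P.1 a i j hij h1)) Q
  · have h3 : Fintype.card (Lv.TT (HD.DD F a (d * s) u S A)) =
        #(univ.filter fun v : Lv.TT (HD.DD F a (d * s) u S A) => Lv.pq v.1 ∣ s) +
        #(univ.filter fun v : Lv.TT (HD.DD F a (d * s) u S A) => ¬ Lv.pq v.1 ∣ s) := by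
      rw [Finset.card_filter_add_card_filter_not, Finset.card_univ]
    rw [h3]
    refine Nat.add_le_add_left ?_ _
    set U := univ.filter fun v : Lv.TT (HD.DD F a (d * s) u S A) => ¬ Lv.pq v.1 ∣ s with hU
    have hT : ∀ P ∈ U.image (fun v => Lv.pq v.1), P.Monic ∧ Irreducible P ∧ P ∣ Dlt a := by
      intro Q hQ
      obtain ⟨⟨w, hwS, hwi⟩, hw, rfl⟩ := Finset.mem_image.1 hQ
      have hws : ¬ Lv.pq w ∣ s := (Finset.mem_filter.1 hw).2
      cases w with
      | none => exact absurd rfl hwi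
      | some P =>
        have hPs : ¬ P.1 ∣ s := hws
        rcases (hF.sok (some P)).1 hwS with h1 | ⟨P', hP', hP⟩
        · exact absurd h1 (Option.some_ne_none _)
        · have e : P = P' := Option.some.inj hP'
          subst e
          have hP1 : P.1 ∣ d * s * Dlt a := hP
          refine ⟨P.2.1, P.2.2, ?_⟩
          change P.1 ∣ Dlt a
          rcases P.2.2.prime.dvd_or_dvd hP1 with h4 | h4
          · rcases P.2.2.prime.dvd_or_dvd h4 with h5 | h5
            · exact hF.td.2 P.1 P.2.2 h5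
            · exact absurd h5 hPs
          · exact h4
    have hinj : Set.InjOn (fun v : Lv.TT (HD.DD F a (d * s) u S A) => Lv.pq v.1) (U : Set _) := by
      rintro ⟨w, hwS, hwi⟩ - ⟨w', hwS', hwi'⟩ - e
      cases w with
      | none => exact absurd rfl hwi
      | some P =>
        cases w' with
        | none => exact absurd rfl hwi'
        | some P' =>
          have e' : P.1 = P'.1 := e
          have e2 : P = P' := Subtype.ext e'
          subst e2
          rfl
    calc #U = #(U.image fun v => Lv.pq v.1) := (Finset.card_image_of_injOn hinj).symm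
      _ ≤ ∑ P ∈ U.image (fun v => Lv.pq v.1), P.natDegree := by
          rw [Finset.card_eq_sum_ones]
          exact Finset.sum_le_sum fun P hP => Irreducible.natDegree_pos (hT P hP).2.1
      _ ≤ (Dlt a).natDegree := ftm_sum _ hD0 _ hT
  · intro P hP
    have hPS : (some P : D.Pl F) ∈ S := by
      refine (hF.sok (some P)).2 (Or.inr ⟨P, rfl, ?_⟩)
      exact Dvd.dvd.mul_right (hP.mul_left d) _
    refine ⟨⟨some P, hPS, Option.some_ne_none _⟩, ?_, rfl⟩
    exact Finset.mem_filter.2 ⟨Finset.mem_univ _, hP⟩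

end Pool.Agent.MP72B.Frm
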