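import Pool.Agent.Lib.MP_72e2e6_nt.Sm.B.SpecA

/-!
# MP_72e2e6_nt, `Sm/B/Fix`: the type map `lm` and the fixed points
-/

set_option autoImplicit false

namespace Pool.Agent.MP72B

open Finset Pool.Agent.MP72S

private theorem fix_lcsum {G A ι : Type} [TopologicalSpace G] [AddCommMonoid A] (s : Finset ι)
    (f : ι → G → A) (h : ∀ i ∈ s, IsLocallyConstant (f i)) :
    IsLocallyConstant fun σ => ∑ i ∈ s, f i σ := by
  classical
  induction s using Finset.induction_on with
  | empty =>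
    simp only [Finset.sum_empty]
    exact IsLocallyConstant.const 0
  | insert i s hi ih =>
    simp only [Finset.sum_insert hi]
    exact (h i (mem_insert_self i s)).comp₂ (ih fun j hj => h j (mem_insert_of_mem hj))
      fun a b => a + b

theorem tFix : MP72S.S_Iso → S_Fix := by
  intro hIso G N P ι _ _ _ _ _ _ D hAL x hx
  have hA : Ax D.toDat := hAL.ax
  have hinf : ∀ i, x i ≠ D.inf := fun i h => hx.nS i (h ▸ hA.infS)
  have hchi : ∀ i, D.chi x (D.tau (x i)) = 1 := by
    intro i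
    rw [Dat.chi, hA.ch0_tau _ (hx.nS i), zero_add, Finset.sum_eq_single i]
    · exact hA.ch_tau _ (hinf i)
    · intro j _ hj
      exact hA.ch_tau' _ _ (hinf j) (hinf i) fun h => hj (hx.inj h)
    · intro h
      exact absurd (mem_univ i) h
  have hch : IsCh (D.chi x) := by
    constructor
    · exact hA.ch0c.lc.comp₂ (fix_lcsum univ _ fun i _ => (hA.chc _ (hinf i)).lc) fun a b => a + b
    · intro σ τ
      simp only [Dat.chi]
      rw [hA.ch0c.mul, Finset.sum_congr rfl fun i _ => (hA.chc _ (hinf i)).mul σ τ,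
        Finset.sum_add_distrib]
      abel
  have h1 : ∀ j (Q : N), D.lm x j Q = 0 ↔
      tw (D.chi x) (D.tau (D.pl x j)) Q = Q ∧ tw (D.chi x) (D.phi (D.pl x j)) Q = Q := by
    intro j Q
    rcases j with s | i
    · exact hAL.ker s.1 s.2 (D.chi x) hch Q
    · have e0 : D.lm x (Sum.inr i) Q = 2 • Q := rfl
      rw [e0]
      constructor
      · intro h
        exact ⟨tw_two hA.tri h, tw_two hA.tri h⟩
      · rintro ⟨h, -⟩
        have e1 : tw (D.chi x) (D.tau (x i)) Q = Q := h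
        rw [tw, hchi i, hA.unr _ (hx.nS i), sg_one'] at e1
        rw [two_nsmul]
        nth_rewrite 1 [← e1]
        exact neg_add_cancel Q
  have h2 : ∀ j, Function.Surjective (D.lm x j) := by
    intro j
    rcases j with s | i
    · exact hAL.sur s.1 s.2 (D.chi x) hch
    · intro u
      exact hA.dvs u
  have h4 : ∀ j (Q : N), 2 • D.lm x j Q = 0 ↔
      2 • (tw (D.chi x) (D.tau (D.pl x j)) Q - Q) = 0 ∧
      2 • (tw (D.chi x) (D.phi (D.pl x j)) Q - Q) = 0 := by
    intro j Q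
    rw [← map_nsmul, h1, smul_sub, smul_sub, ← tw_nsmul, ← tw_nsmul, sub_eq_zero, sub_eq_zero]
  refine ⟨h1, h2, ?_, h4, ?_, ?_, hch⟩
  · intro j Q hQ
    exact (h1 j Q).2 ⟨tw_two hA.tri hQ, tw_two hA.tri hQ⟩
  · intro j Q Q' hQ hQ'
    rcases j with s | i
    · obtain ⟨a1, a2⟩ := (h4 (Sum.inl s) Q).1 hQ
      obtain ⟨a3, a4⟩ := (h4 (Sum.inl s) Q').1 hQ'
      exact hAL.iso s.1 s.2 (D.chi x) hch Q Q' a1 a2 a3 a4
    · have e1 : 2 • (2 • Q) = 0 := hQ
      have e2 : 2 • (2 • Q') = 0 := hQ'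
      rw [smul_smul] at e1 e2
      exact hIso D.toDat hA (D.chi x) (x i) Q Q' e1 e2
  · intro j u
    have hex : ∃ R : N, D.lm x j (2 • R) = u := by
      obtain ⟨Q, hQ⟩ := h2 j u
      obtain ⟨R, hR⟩ := hA.dvs Q
      exact ⟨R, by rw [hR, hQ]⟩
    rw [DatL.qr, dif_pos hex]
    exact hex.choose_spec

end Pool.Agent.MP72B
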