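import Pool.Agent.Lib.MP_72e2e6_nt.Sm.B.SpecA

/-!
# MP_72e2e6_nt, `Sm/B/Gdf`: faces of good cubes
-/

namespace Pool.Agent.MP72B

open Finset Pool.Agent.MP72S

private theorem gdf_mm {P ι : Type} [DecidableEq ι] (x y : ι → P) (W w : Finset ι) :
    mx (mx x y W) y w = mx x y (W ∪ w) := by
  funext j
  unfold mx
  by_cases h1 : j ∈ w
  · rw [if_pos h1, if_pos (mem_union_right _ h1)]
  · by_cases h2 : j ∈ W
    · rw [if_neg h1, if_pos h2, if_pos (mem_union_left _ h2)]
    · rw [if_neg h1, if_neg h2, if_neg (fun h => (mem_union.1 h).elim h2 h1)]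

theorem tGdf : S_Gdf := by
  intro G N P ι _ _ _ _ _ _ D x y U hG
  have hmm : ∀ W w, mx (mx x y W) y w = mx x y (W ∪ w) := gdf_mm x y
  have hxy : ∀ i ∈ U, ∀ j, y i ≠ x j := by
    intro i hi j h
    by_cases hij : j = i
    · subst hij
      exact hG.ne j hi h.symm
    · have h1 := (hG.ok {i} (singleton_subset_iff.2 hi)).inj
      have h2 : mx x y {i} i = mx x y {i} j := by
        simp [mx, hij, h]
      exact hij (h1 h2).symm
  refine ⟨?_, hxy, ?_, ?_⟩
  · intro A hA B hB hAB
    have hnA : ∀ i ∈ B, i ∉ A := fun i hi h => (Finset.disjoint_left.1 hAB h) hi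
    have hxi : ∀ i ∈ B, mx x y A i = x i := fun i hi => if_neg (hnA i hi)
    refine ⟨fun w hw => ?_, fun i hi => ?_, fun i hi s hs => ?_, fun i hi j hj => ?_,
      fun i hi j hj hji => ?_⟩
    · rw [hmm]
      exact hG.ok _ (union_subset hA (hw.trans hB))
    · rw [hxi i hi]
      exact hG.ne i (hB hi)
    · rw [hxi i hi]
      exact hG.sS i (hB hi) s hs
    · rw [hxi i hi]
      by_cases hjA : j ∈ A
      · have : mx x y A j = y j := if_pos hjA
        rw [this]
        exact hG.sy i (hB hi) j (hA hjA) hj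
      · have : mx x y A j = x j := if_neg hjA
        rw [this]
        exact hG.sx i (hB hi) j hj
    · rw [hxi i hi]
      exact hG.sy i (hB hi) j (hB hj) hji
  · intro i hi
    have h1 := (hG.ok {i} (singleton_subset_iff.2 hi)).nS i
    have h2 : mx x y {i} i = y i := by simp [mx]
    rwa [h2] at h1
  · intro i hi j hj hij h
    have h1 := (hG.ok {i, j} (by
      intro k hk
      rcases mem_insert.1 hk with rfl | hk
      · exact hi
      · rw [mem_singleton.1 hk]; exact hj)).inj
    have h2 : mx x y {i, j} i = mx x y {i, j} j := by simp [mx, h]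
    exact hij (h1 h2)

end Pool.Agent.MP72B
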