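import Pool.Agent.Lib.MP_72e2e6_nt.Sm.B.SpecH

/-!
# MP_72e2e6_nt, `Sm/B/HAx3`: the axioms `Ax3` for the concrete datum without tameness (copy of `Sm/H/Ax3`)
-/

namespace Pool.Agent.MP72B.HB

set_option autoImplicit false

open Polynomial Finset Pool.Agent.MP72S Pool.Agent.MP72W Pool.Agent.MP72S.D Pool.Agent.MP72S.HD

open Pool.Agent.MP72T (Spl nsp sqd RkOne)

private theorem ax3_two {F : Type} [Field F] [Finite F] (h : Nat.card F % 4 = 1) :
    (2 : F) ≠ 0 := by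
  have hft : Fintype F := Fintype.ofFinite F
  apply Ring.two_ne_zero
  intro h2
  rw [FiniteField.even_card_iff_char_two] at h2
  rw [Nat.card_eq_fintype_card] at h
  omega

/-- **Ax3**. The axioms `Ax3` for `R = RU (Qf F)`, `hf = hfU`. -/
theorem tAx3 (axe : C.S_AxE) (rup : C.S_RUp) (cts : C.S_Cts) (ppr : C.S_Ppr) (nis : C.S_Nis)
    (mls : C.S_MlS) (qg : D.S_QG) (kt : D.S_Kt) (qd : D.S_Qd) (eq : HD.S_EQ) (nu : HD.S_Nu)
    (ax : S_Ax) : S_Ax3 := by
  intro F _ _ a d u S A hy hu hS hA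
  have h2 : (2 : F) ≠ 0 := ax3_two hy.q4
  obtain ⟨g1, -, -, g4, -⟩ := qg F
  have g4 := g4 h2
  obtain ⟨k1, k2, k3, k4⟩ := kt F
  have halg : Algebra.IsAlgebraic (RatFunc F) (Qf F) := inferInstance
  have h2Q : (2 : Qf F) ≠ 0 := by
    intro h
    apply h2
    have h3 : algebraMap F (Qf F) 2 = 0 := by rw [map_ofNat]; exact h
    exact (map_eq_zero (algebraMap F (Qf F))).1 h3
  have hinj : Function.Injective (aR a) := by
    intro i j h
    exact hy.inj (IsFractionRing.injective F[X] (RatFunc F) h)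
  have hHyp : C.Hyp (aR a) (Qf F) := ⟨h2Q, hinj⟩
  have hQC : C.QC (Qf F) := g4
  obtain ⟨hplc, hnu2, -, -⟩ := nu F a h2 hy.inj A hA
  have hax := (ax F a d u S A hy hu hS hA).1
  have hq1 : 1 < Nat.card F := Finite.one_lt_card
  have hR : ∀ (w : Pl F) (r : C.RU (Qf F)), (A w).rQ (A w).t • r = r ∧
      (A w).rQ (A w).f • r = (Nat.card F ^ dgP w.o) • r := by
    intro w r
    obtain ⟨-, -, -, -, -, -, -, -, -, -, -, h12, -⟩ := ppr (RatFunc F) (Qf F) (kF F) _ _ _ _ _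
      (hplc w)
    exact h12 r
  obtain ⟨P, i, j, l, hPm, hPi, hij, hil, hjl, hlt⟩ := nis F a hy.inj hy.nis
  obtain ⟨hac, hqd⟩ := qd F hy.q4 A hA
  have hqd := hqd (C.NN (aR a) (Qf F)) (DD F a d u S A) rfl (fun _ => rfl) (fun _ => rfl)
    (fun _ => rfl)
  obtain ⟨-, -, -, hrec⟩ := eq (GQ F) (C.NN (aR a) (Qf F)) (Pl F) (DD F a d u S A) (kF F) (Qf F)
    (tQ F) (Nat.card F) (fun w => dgP w.o) (rtP A) hqd
  have hactR : ∀ r : C.RU (Qf F), IsLocallyConstant fun σ : GQ F => σ • r :=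
    (cts (RatFunc F) (aR a) (Qf F) hHyp).2.2
  have hP1 : C.P1 (C.RU (Qf F)) (C.hfU (Qf F)) := rup (Qf F) h2Q hQC
  obtain ⟨E, e1, e2, e3, e4, e5, e6⟩ := axe (GQ F) (C.NN (aR a) (Qf F)) (Pl F) (C.RU (Qf F))
    (DD F a d u S A) (C.hfU (Qf F)) hax hP1 hactR (fun v r => (hR v r).1) (fun v r => (hR v r).2)
    (by
      show 1 < Nat.card F ^ dgP (none : Option F[X])
      have h5 : dgP (none : Option F[X]) = 1 := rfl
      rw [h5, pow_one]
      exact hq1)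
    (by
      intro v
      refine ⟨dgP v.o, ?_, ?_⟩
      · rcases v with _ | P
        · exact le_refl 1
        · exact P.2.2.natDegree_pos
      · show Nat.card F ^ dgP v.o = (Nat.card F ^ dgP (none : Option F[X])) ^ dgP v.o
        have h5 : dgP (none : Option F[X]) = 1 := rfl
        rw [h5, pow_one])
    (some ⟨P, hPm, hPi⟩)
    (by
      intro E hE h1
      refine mls (RatFunc F) (aR a) (Qf F) (kF F) _ _ _ _ _ hHyp hQC (hplc (some ⟨P, hPm, hPi⟩))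
        i j l hij hil hjl ?_ E hE h1
      rw [hnu2 _ i l hil, hnu2 _ i j hij]
      exact_mod_cast hlt)
  refine ⟨E, hactR, fun v r => (hR v r).1, fun v r => (hR v r).2, hP1.hf0,
    (hP1.two _).2 (Or.inr rfl), e1, e2, e3, e4, e5, e6, ?_⟩
  refine hrec (C.RU (Qf F)) ⟨⟨C.uv, C.uv_zero⟩, C.uv_add⟩ (fun x y h => C.uv_inj h)
    (fun g r => C.ul_smul g r) ?_
  intro x
  constructor
  · rintro ⟨n, hn⟩
    refine ⟨C.mkU (Additive.ofMul x) ⟨n, ?_⟩, rfl⟩
    rw [← ofMul_pow, hn, ofMul_one]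
  · rintro ⟨r, hr⟩
    obtain ⟨n, hn⟩ := C.uv_mem r
    refine ⟨n, ?_⟩
    have h5 : C.uv r = Additive.ofMul x := hr
    rw [h5, ← ofMul_pow] at hn
    exact Additive.ofMul.injective hn

end Pool.Agent.MP72B.HB
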