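import Pool.Agent.Lib.MP_72e2e6_nt.Sm.B.SpecH

/-!
# MP_72e2e6_nt, `Sm/B/HAxl`: the axioms `AxL` for the concrete datum
-/

namespace Pool.Agent.MP72B.HB

set_option autoImplicit false

open Polynomial Finset Pool.Agent.MP72S Pool.Agent.MP72W Pool.Agent.MP72S.D Pool.Agent.MP72S.HD

open Pool.Agent.MP72T (Spl nsp sqd RkOne)

/-- **Axl**. The axioms `AxL` for the concrete datum. -/
theorem tAxl (ax : S_Ax) (ax3 : S_Ax3) (fnp : S_Fnp) (mkl : Loc.S_Mkl) : S_Axl := by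
  intro F _ _ a d u S A hy hu hS hA
  obtain ⟨E, hE⟩ := ax3 F a d u S A hy hu hS hA
  exact mkl (DD F a d u S A) E (C.hfU (Qf F)) (ax F a d u S A hy hu hS hA).1 hE
    (fun s _ => fnp F a d u S A hy hA s)

end Pool.Agent.MP72B.HB
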