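import Pool.Agent.Lib.MP_72e2e6_nt.Sm.B.SpecH

/-!
# MP_72e2e6_nt, `Sm/B`: the intersections of the local conditions at all places
-/

namespace Pool.Agent.MP72B.HB

open Polynomial Finset Pool.Agent.MP72S Pool.Agent.MP72W Pool.Agent.MP72S.D Pool.Agent.MP72S.HD

open Pool.Agent.MP72T (Spl nsp sqd RkOne)

private theorem HCad_two {F : Type} [Field F] [Finite F] (h : Nat.card F % 4 = 1) :
    (2 : F) ≠ 0 := by
  intro h2
  have h1 : addOrderOf (1 : F) ∣ 2 := by
    rw [addOrderOf_dvd_iff_nsmul_eq_zero, nsmul_one]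
    exact_mod_cast h2
  have h3 : addOrderOf (1 : F) ∣ Nat.card F := addOrderOf_dvd_natCard _
  have h4 : addOrderOf (1 : F) = 1 := by
    rcases (Nat.dvd_prime Nat.prime_two).1 h1 with h5 | h5
    · exact h5
    · rw [h5] at h3
      omega
  exact one_ne_zero (AddMonoid.addOrderOf_eq_one_iff.1 h4)

private theorem HCad_neg {F : Type} [Field F] [Finite F] (h : Nat.card F % 4 = 1) :
    ∃ b : F, b ^ 2 = -1 := by
  have := Fintype.ofFinite F
  have h1 : IsSquare (-1 : F) := by
    rw [FiniteField.isSquare_neg_one_iff, ← Nat.card_eq_fintype_card]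
    omega
  obtain ⟨b, hb⟩ := h1
  exact ⟨b, by rw [hb, sq]⟩

private theorem HCad_hf (m n : ℤ) (h : (1 / 2 : ℝ) ^ m = (1 / 2 : ℝ) ^ n) : m = n :=
  zpow_right_injective₀ (by norm_num) (by norm_num) h

private theorem HCad_lt (m n : ℤ) : (((m : ℚ) : WithTop ℚ) < ((n : ℚ) : WithTop ℚ)) ↔ m < n := by
  rw [WithTop.coe_lt_coe, Int.cast_lt]

/-- The exponents at a place. -/
private theorem HCad_m (hNu : HD.S_Nu) {F : Type} [Field F] [Finite F] {a : Fin 3 → F[X]}
    (h2 : (2 : F) ≠ 0) (hinj : Function.Injective a) {A : Pl F → Lcd F} (hA : LDok F A)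
    (v : Pl F) : ∃ m : Fin 3 → Fin 3 → ℤ,
      (∀ i j, i ≠ j → nuP (A v) (C.al (aR a) (Qf F) i - C.al (aR a) (Qf F) j) =
        (((m i j : ℤ) : ℚ) : WithTop ℚ)) ∧
      (∀ i j, i ≠ j → (A v).av (algebraMap F[X] (RatFunc F) (a i - a j)) = (1 / 2) ^ m i j) ∧
      ∀ (D : F[X]), D ≠ 0 → (Spl a D v.o ↔ ∃ i j l : Fin 3, i ≠ j ∧ i ≠ l ∧ j ≠ l ∧
        m i l < m i j ∧ (match v with
          | some P => ∃ (e : ℕ) (g h : F[X]), D * (a i - a l) = P.1 ^ (2 * e) * g ∧
              ¬ P.1 ∣ g ∧ P.1 ∣ g - h ^ 2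
          | none => Even (D * (a i - a l)).natDegree ∧
              ∃ c : F, c ^ 2 = (D * (a i - a l)).leadingCoeff)) := by
  obtain ⟨-, n2, n3, -⟩ := hNu F a h2 hinj A hA
  have hne : ∀ i j, i ≠ j → a i - a j ≠ 0 := fun i j hij h => hij (hinj (sub_eq_zero.1 h))
  have hpl := (hA.ok v).pl
  cases v with
  | some P =>
    refine ⟨fun i j => (multiplicity P.1 (a i - a j) : ℤ), fun i j hij => n2 P i j hij,
      fun i j hij => ?_, fun D _ => ?_⟩
    · rw [zpow_natCast]
      exact hpl.2.2 _ (hne i j hij)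
    · constructor
      · rintro ⟨-, -, i, j, l, h1, h2, h3, h4, h5⟩
        exact ⟨i, j, l, h1, h2, h3, Int.ofNat_lt.2 h4, h5⟩
      · rintro ⟨i, j, l, h1, h2, h3, h4, h5⟩
        exact ⟨P.2.1, P.2.2, i, j, l, h1, h2, h3, Int.ofNat_lt.1 h4, h5⟩
  | none =>
    refine ⟨fun i j => (-(a i - a j).natDegree : ℤ), fun i j hij => n3 i j hij,
      fun i j hij => ?_, fun D hD => ?_⟩
    · have h1 : (A none).av (algebraMap F[X] (RatFunc F) (a i - a j)) =
          2 ^ (algebraMap F[X] (RatFunc F) (a i - a j)).intDegree :=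
        hpl _ (by
          rw [ne_eq, map_eq_zero_iff _ (RatFunc.algebraMap_injective F)]
          exact hne i j hij)
      rw [h1, RatFunc.intDegree_polynomial, one_div, inv_zpow', neg_neg]
    · constructor
      · rintro ⟨i, j, l, h1, h2, h3, h4, h5, h6⟩
        refine ⟨i, j, l, h1, h2, h3, neg_lt_neg (Int.ofNat_lt.2 h4), ?_⟩
        show Even (D * (a i - a l)).natDegree ∧ ∃ c : F, c ^ 2 = (D * (a i - a l)).leadingCoeff
        rw [natDegree_mul hD (hne i l h2), leadingCoeff_mul]
        exact ⟨h5, h6⟩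
      · rintro ⟨i, j, l, h1, h2, h3, h4, h5⟩
        change Even (D * (a i - a l)).natDegree ∧
          ∃ c : F, c ^ 2 = (D * (a i - a l)).leadingCoeff at h5
        rw [natDegree_mul hD (hne i l h2), leadingCoeff_mul] at h5
        exact ⟨i, j, l, h1, h2, h3, Int.ofNat_lt.1 (neg_lt_neg_iff.1 h4), h5.1, h5.2⟩

private theorem HCad_fin (i j l : Fin 3) (h1 : i ≠ j) (h2 : i ≠ l) (h3 : j ≠ l) (x : Fin 3) :
    x = i ∨ x = j ∨ x = l := by
  revert i j l x
  decide

/-- **Cad**. -/
theorem tCad (hAx : S_Ax) (hAx3 : S_Ax3) (hNu : HD.S_Nu) (hFnp : S_Fnp) (hSpc : S_Spc)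
    (hKm : D.S_Km) (hKl : D.S_Kl) (hQG : D.S_QG) (hLcf : Par.S_Lcf) (hPgd : Par.S_Pgd)
    (hPgc : Par.S_Pgc) (hMab : Par.S_Mab) (hMlu : Par.S_Mlu) (hMuq : Par.S_Muq) : S_Cad := by
  intro F _ _ a d u S A hy hu hS hA D D' hD hD' v hDD
  have h2 : (2 : F) ≠ 0 := HCad_two hy.q4
  have hax := (hAx F a d u S A hy hu hS hA).1
  obtain ⟨E, hE⟩ := hAx3 F a d u S A hy hu hS hA
  have hP2 : C.P2 (C.NN (aR a) (Qf F)) := ⟨hax.prim, hax.dvs, hax.four⟩
  have htri : ∀ x : C.NN (aR a) (Qf F), 2 • x = 0 →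
      (A v).rQ (A v).t • x = x ∧ (A v).rQ (A v).f • x = x :=
    fun x hx => ⟨hax.tri _ x hx, hax.tri _ x hx⟩
  have hcard : ∀ b c : ZMod 2, Nat.card (Par.Lsp (N := C.NN (aR a) (Qf F)) ((A v).rQ (A v).t)
      ((A v).rQ (A v).f) b c) = 4 := by
    intro b c
    refine hLcf hP2 _ _ htri b c ((hFnp F a d u S A hy hA v).subset ?_)
    rintro x ⟨h3, h4⟩
    have key : ∀ (g : GQ F) (b : ZMod 2), sg b (g • x) = x → g • x = x ∨ g • x = -x := by
      intro g b hb
      rcases zmod2 b with rfl | rfl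
      · rw [sg_zero'] at hb
        exact Or.inl hb
      · rw [sg_one'] at hb
        exact Or.inr (neg_eq_iff_eq_neg.1 hb)
    exact ⟨key _ b h3, key _ c h4⟩
  obtain ⟨-, -, -, g4, -⟩ := hQG F
  have h2Q : (2 : Qf F) ≠ 0 := by
    have h : (2 : Qf F) = algebraMap (RatFunc F) (Qf F) (RatFunc.C 2) := by
      rw [map_ofNat, map_ofNat]
    rw [h, ne_eq, map_eq_zero, map_eq_zero]
    exact h2
  have hyp : C.Hyp (aR a) (Qf F) :=
    ⟨h2Q, fun i j hij => hy.inj (RatFunc.algebraMap_injective F hij)⟩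
  have hsq : ∃ ι : RatFunc F, ι ^ 2 = -1 := by
    obtain ⟨b, hb⟩ := HCad_neg hy.q4
    exact ⟨RatFunc.C b, by rw [← map_pow, hb, map_neg, map_one]⟩
  have hplc := (hNu F a h2 hy.inj A hA).1 v
  obtain ⟨m, m1, m2, m3⟩ := HCad_m hNu h2 hy.inj hA v
  have hne : ∀ i j, i ≠ j → a i - a j ≠ 0 := fun i j hij h => hij (hy.inj (sub_eq_zero.1 h))
  have hal : ∀ i j, C.al (aR a) (Qf F) i - C.al (aR a) (Qf F) j =
      algebraMap (RatFunc F) (Qf F) (algebraMap F[X] (RatFunc F) (a i - a j)) := by
    intro i j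
    unfold C.al aR
    rw [map_sub, map_sub]
  have hsym : ∀ i j, i ≠ j → m i j = m j i := by
    intro i j hij
    apply HCad_hf
    rw [← m2 i j hij, ← m2 j i hij.symm, map_sub (algebraMap F[X] (RatFunc F)),
      map_sub (algebraMap F[X] (RatFunc F)), AbsoluteValue.map_sub]
  have hult : ∀ i j l, i ≠ j → i ≠ l → j ≠ l → min (m i j) (m j l) ≤ m i l := by
    intro i j l h1 h3 h4
    have h5 := hplc.add (C.al (aR a) (Qf F) i - C.al (aR a) (Qf F) j)
      (C.al (aR a) (Qf F) j - C.al (aR a) (Qf F) l)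
    rw [sub_add_sub_cancel, m1 i j h1, m1 j l h4, m1 i l h3] at h5
    rcases min_le_iff.1 h5 with h6 | h6
    · exact min_le_iff.2 (Or.inl (by
        by_contra h7
        exact absurd h6 (not_le.2 ((HCad_lt _ _).2 (not_le.1 h7)))))
    · exact min_le_iff.2 (Or.inr (by
        by_contra h7
        exact absurd h6 (not_le.2 ((HCad_lt _ _).2 (not_le.1 h7)))))
  -- the condition of `Spl` in terms of the characters
  have hch : ∀ i l, i ≠ l → ((match v with
          | some P => ∃ (e : ℕ) (g h : F[X]), D * (a i - a l) = P.1 ^ (2 * e) * g ∧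
              ¬ P.1 ∣ g ∧ P.1 ∣ g - h ^ 2
          | none => Even (D * (a i - a l)).natDegree ∧
              ∃ c : F, c ^ 2 = (D * (a i - a l)).leadingCoeff) ↔
      hK (algebraMap F[X] (RatFunc F) (D * (a i - a l))) ((A v).rQ (A v).t) = 0 ∧
        hK (algebraMap F[X] (RatFunc F) (D * (a i - a l))) ((A v).rQ (A v).f) = 0) := by
    intro i l hil
    obtain ⟨s1, s2⟩ := hSpc F hy.q4 A hA
    have hne' : D * (a i - a l) ≠ 0 := mul_ne_zero hD (hne i l hil)
    cases v with
    | some P => exact (s1 P _ hne').symm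
    | none => exact (s2 _ hne').symm
  by_cases hcase : ∃ i j l : Fin 3, i ≠ j ∧ i ≠ l ∧ j ≠ l ∧ m i l < m i j
  · obtain ⟨i, j, l, hij, hil, hjl, hlt⟩ := hcase
    obtain ⟨km1, km2, km3, km4⟩ := hKm F h2
    obtain ⟨kl1, -, kl3, -⟩ := hKl F h2 v.o (A v) (hA.ok v)
    have hR : ∀ f : F[X], f ≠ 0 → algebraMap F[X] (RatFunc F) f ≠ 0 := fun f hf h =>
      hf ((map_eq_zero_iff _ (RatFunc.algebraMap_injective F)).1 h)
    obtain ⟨s, hs⟩ := g4 h2 (C.al (aR a) (Qf F) i - C.al (aR a) (Qf F) l)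
    have hs0 : s ≠ 0 := by
      rintro rfl
      rw [zero_pow two_ne_zero, hal] at hs
      exact hR _ (hne i l hil) ((map_eq_zero _).1 hs.symm)
    have hsgn : ∀ g : GQ F, Par.sgn g s =
        hK (algebraMap F[X] (RatFunc F) (a i - a l)) g := by
      intro g
      have h5 := km2 _ (hR _ (hne i l hil)) s (by rw [hs, hal]) g
      unfold Par.sgn
      rcases zmod2 (hK (algebraMap F[X] (RatFunc F) (a i - a l)) g) with h6 | h6
      · rw [if_pos h6] at h5
        rw [h6, if_pos h5]
      · rw [if_neg (by rw [h6]; exact one_ne_zero)] at h5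
        rw [h6, if_neg]
        rw [h5]
        intro h7
        have h8 : (2 : Qf F) * s = 0 := by linear_combination -h7
        rcases mul_eq_zero.1 h8 with h9 | h9
        · exact h2Q h9
        · exact hs0 h9
    have hlt' : nuP (A v) (C.al (aR a) (Qf F) i - C.al (aR a) (Qf F) l) <
        nuP (A v) (C.al (aR a) (Qf F) i - C.al (aR a) (Qf F) j) := by
      rw [m1 i l hil, m1 i j hij, HCad_lt]
      exact hlt
    obtain ⟨U, s₀, w1, w2, w3, w4, w5⟩ := hMlu (RatFunc F) (aR a) (Qf F) (kF F) _ _ _ _ _ hyp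
      (g4 h2) hsq hplc i j l hij hil hjl hlt' s hs
    rw [hsgn, hsgn] at w5
    have w6 := hMuq (DD F a d u S A) E (C.hfU (Qf F)) hax hE v U s₀ _ _ w1 w2 w3 w4 w5
    have hmul : ∀ (B : F[X]), B ≠ 0 → ∀ g : GQ F,
        hK (algebraMap F[X] (RatFunc F) (B * (a i - a l))) g =
          hK (algebraMap F[X] (RatFunc F) B) g +
            hK (algebraMap F[X] (RatFunc F) (a i - a l)) g := fun B hB g => by
      rw [map_mul]
      exact km3 _ _ (hR _ hB) (hR _ (hne i l hil)) g
    have hz : ∀ x y : ZMod 2, x + y = 0 ↔ x = y := fun x y => by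
      rw [← CharTwo.sub_eq_add, sub_eq_zero]
    have hc1 : hK (algebraMap F[X] (RatFunc F) D') ((A v).rQ (A v).t) =
        hK (algebraMap F[X] (RatFunc F) (a i - a l)) ((A v).rQ (A v).t) + 1 := by
      have h5 := hDD i j l hij hil hjl hlt'
      rw [hmul D' hD'] at h5
      rw [← h5, add_comm, add_assoc, CharTwo.add_self_eq_zero, add_zero]
    obtain ⟨n, hn⟩ := hMab hP2 _ _ htri hcard U s₀ _ _ _ (hax.q4 v) w1 w2 w3 w4 w5 w6
      (hK (algebraMap F[X] (RatFunc F) D) ((A v).rQ (A v).t))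
      (hK (algebraMap F[X] (RatFunc F) D) ((A v).rQ (A v).f))
      (hK (algebraMap F[X] (RatFunc F) D') ((A v).rQ (A v).t))
      (hK (algebraMap F[X] (RatFunc F) D') ((A v).rQ (A v).f)) hc1
    refine ⟨n, ?_⟩
    rw [← hn]
    congr 1
    have hSpl : Spl a D v.o ↔
        hK (algebraMap F[X] (RatFunc F) D) ((A v).rQ (A v).t) =
          hK (algebraMap F[X] (RatFunc F) (a i - a l)) ((A v).rQ (A v).t) ∧
        hK (algebraMap F[X] (RatFunc F) D) ((A v).rQ (A v).f) =
          hK (algebraMap F[X] (RatFunc F) (a i - a l)) ((A v).rQ (A v).f) := by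
      have hS' : (hK (algebraMap F[X] (RatFunc F) (D * (a i - a l))) ((A v).rQ (A v).t) = 0 ∧
          hK (algebraMap F[X] (RatFunc F) (D * (a i - a l))) ((A v).rQ (A v).f) = 0) ↔
        hK (algebraMap F[X] (RatFunc F) D) ((A v).rQ (A v).t) =
          hK (algebraMap F[X] (RatFunc F) (a i - a l)) ((A v).rQ (A v).t) ∧
        hK (algebraMap F[X] (RatFunc F) D) ((A v).rQ (A v).f) =
          hK (algebraMap F[X] (RatFunc F) (a i - a l)) ((A v).rQ (A v).f) := by
        rw [hmul D hD, hmul D hD, hz, hz]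
      refine Iff.trans ?_ hS'
      rw [m3 D hD]
      constructor
      · rintro ⟨i', j', l', h5, h6, h7, h8, h9⟩
        rw [hch i' l' h6] at h9
        have hjl' : m j l = m i l := by
          have e1 := hult i j l hij hil hjl
          have e2 := hult j i l hij.symm hjl hil
          have e3 := hsym i j hij
          omega
        have e1 := hsym i j hij
        have e2 := hsym i l hil
        have e3 := hsym j l hjl
        have hll : l' = l ∧ (i' = i ∨ i' = j) := by
          rcases HCad_fin i j l hij hil hjl i' with rfl | rfl | rfl <;>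
          rcases HCad_fin _ _ _ hij hil hjl j' with rfl | rfl | rfl <;>
          rcases HCad_fin _ _ _ hij hil hjl l' with rfl | rfl | rfl <;>
          first
            | exact absurd rfl h5
            | exact absurd rfl h6
            | exact absurd rfl h7
            | exact ⟨rfl, Or.inl rfl⟩
            | exact ⟨rfl, Or.inr rfl⟩
            | (exfalso; omega)
        obtain ⟨rfl, rfl | rfl⟩ := hll
        · exact h9
        · -- the triple `(j, i, l)`
          have hb0 := hR _ (hne i l' hil)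
          have hj0 := hR _ (hne i' l' hjl)
          set x := algebraMap F[X] (RatFunc F) (a i - a l') with hx
          set y := algebraMap F[X] (RatFunc F) (a i' - a l') with hyy
          have hr0 : y / x ≠ 0 := div_ne_zero hj0 hb0
          have hyx : y = x * (y / x) := (mul_div_cancel₀ y hb0).symm
          have hav1 : (A v).av (y / x) = (1 / 2 : ℝ) ^ (0 : ℤ) := by
            rw [map_div₀, m2 i' l' hjl, m2 i l' hil, hjl', zpow_zero]
            exact div_self (zpow_ne_zero _ (by norm_num))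
          have hav2 : (A v).av (y / x - 1) < 1 := by
            have e4 : y / x - 1 = algebraMap F[X] (RatFunc F) (a i' - a i) / x := by
              rw [div_sub_one hb0, hx, hyy, ← map_sub]
              congr 2
              ring
            rw [e4, map_div₀, m2 i' i hij.symm, m2 i l' hil, ← zpow_sub₀ (by norm_num)]
            apply zpow_lt_one₀ (by norm_num) (by norm_num)
            omega
          have hk1 := kl1 _ _ hav1
          have hk2 := kl3 _ hav2
          rw [Int.cast_zero] at hk1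
          have hfin : ∀ g : GQ F, hK (y / x) g = 0 →
              hK (algebraMap F[X] (RatFunc F) (D * (a i' - a l'))) g =
                hK (algebraMap F[X] (RatFunc F) (D * (a i - a l'))) g := by
            intro g hg
            rw [map_mul, map_mul, ← hx, ← hyy, hyx, ← mul_assoc,
              km3 _ _ (mul_ne_zero (hR _ hD) hb0) hr0, hg, add_zero]
          rw [hfin _ hk1, hfin _ hk2] at h9
          exact h9
      · intro h5
        exact ⟨i, j, l, hij, hil, hjl, hlt, (hch i l hil).2 h5⟩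
    by_cases hsp : Spl a D v.o
    · rw [if_pos hsp, if_pos (hSpl.1 hsp)]
    · rw [if_neg hsp, if_neg (fun h => hsp (hSpl.2 h))]
  · -- potentially good reduction
    push Not at hcase
    have hall : ∀ i j, i ≠ j → m i j = m 0 1 := by
      have e01 := hsym 0 1 (by decide)
      have e02 := hsym 0 2 (by decide)
      have e12 := hsym 1 2 (by decide)
      have c1 := hcase 0 1 2 (by decide) (by decide) (by decide)
      have c2 := hcase 0 2 1 (by decide) (by decide) (by decide)
      have c3 := hcase 1 0 2 (by decide) (by decide) (by decide)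
      have c4 := hcase 1 2 0 (by decide) (by decide) (by decide)
      intro i j hij
      fin_cases i <;> fin_cases j <;> first
        | exact absurd rfl hij
        | rfl
        | (show m 0 2 = m 0 1; omega)
        | (show m 1 0 = m 0 1; omega)
        | (show m 1 2 = m 0 1; omega)
        | (show m 2 0 = m 0 1; omega)
        | (show m 2 1 = m 0 1; omega)
    have hns : ¬ Spl a D v.o := by
      rw [m3 D hD]
      rintro ⟨i, j, l, h5, h6, h7, h8, -⟩
      exact absurd h8 (not_lt.2 (hcase i j l h5 h6 h7))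
    rw [if_neg hns, mul_one]
    have hm := hPgd (RatFunc F) (aR a) (Qf F) (kF F) _ _ _ _ _ hyp (g4 h2) hplc (m 0 1)
      (fun i j hij => by rw [m1 i j hij, hall i j hij])
    exact hPgc hP2 _ _ htri _ hm hcard _ _ _ _

end Pool.Agent.MP72B.HB
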