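import Pool.Agent.Lib.MP_72e2e6_nt.Sm.B.SpecH

/-!
# MP_72e2e6_nt, `Sm/B/HCnc`: the conclusion
-/

namespace Pool.Agent.MP72B.HB

open Polynomial Finset Pool.Agent.MP72S Pool.Agent.MP72W Pool.Agent.MP72S.D Pool.Agent.MP72S.HD

open Pool.Agent.MP72T (Spl nsp sqd RkOne)

section core

variable {F : Type} [Field F]

private theorem bcnc_two [Finite F] (hq : Nat.card F % 4 = 1) : (2 : F) ≠ 0 := by
  intro h2
  have hc : CharP F 2 := by
    have h : ((2 : ℕ) : F) = 0 := by exact_mod_cast h2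
    exact CharTwo.of_one_ne_zero_of_two_eq_zero one_ne_zero h2
  have hf : Fintype F := Fintype.ofFinite F
  obtain ⟨n, -, hn⟩ := FiniteField.card F 2
  rw [Nat.card_eq_fintype_card, hn] at hq
  have hn0 : (n : ℕ) ≠ 0 := n.ne_zero
  obtain ⟨k, hk⟩ := Nat.exists_eq_succ_of_ne_zero hn0
  rw [hk, pow_succ] at hq
  omega

private theorem bcnc_ndvd {a : Fin 3 → F[X]} {P : F[X]}
    (h : ¬ P ∣ (a 0 - a 1) * (a 0 - a 2) * (a 1 - a 2)) :
    ∀ i j : Fin 3, i ≠ j → ¬ P ∣ a i - a j := by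
  have h01 : ¬ P ∣ a 0 - a 1 := fun hh => h (Dvd.dvd.mul_right (Dvd.dvd.mul_right hh _) _)
  have h02 : ¬ P ∣ a 0 - a 2 := fun hh => h (Dvd.dvd.mul_right (Dvd.dvd.mul_left hh _) _)
  have h12 : ¬ P ∣ a 1 - a 2 := fun hh => h (Dvd.dvd.mul_left hh _)
  intro i j hij
  fin_cases i <;> fin_cases j
  · exact absurd rfl hij
  · exact h01
  · exact h02
  · exact fun hh => h01 ((dvd_sub_comm).1 hh)
  · exact absurd rfl hij
  · exact h12
  · exact fun hh => h02 ((dvd_sub_comm).1 hh)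
  · exact fun hh => h12 ((dvd_sub_comm).1 hh)
  · exact absurd rfl hij

private theorem bcnc_prod {ι : Type} [Fintype ι] (R : ι → {P : F[X] // P.Monic ∧ Irreducible P})
    (P : {P : F[X] // P.Monic ∧ Irreducible P}) (h : P.1 ∣ ∏ k, (R k).1) : ∃ k, R k = P := by
  obtain ⟨k, -, hk⟩ := (P.2.2.prime.dvd_finsetProd_iff _).1 h
  refine ⟨k, Subtype.ext ?_⟩
  have := (P.2.2.associated_of_dvd (R k).2.2 hk)
  exact (eq_of_monic_of_associated P.2.1 (R k).2.1 this).symm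

end core

theorem tCnc : S_Ax → S_Ax3 → S_Axl → S_GO → S_Prt → D.S_Lf → S.S_Plt → Loc.S_Ldv → Loc.S_Main →
    Pool.Agent.MP72B.S_Evn → S_Cnc := by
  intro hAx hAx3 hAxl hGO hPrt hLf hPlt hLdv hMain hEvn F _ _ a d u S A hy hu hS hA r R hOk L hL hc
  have h2 : (2 : F) ≠ 0 := bcnc_two hy.q4
  have hd0 : d ≠ 0 := by
    rintro rfl
    exact not_squarefree_zero hy.sqf
  have hR0 : (∏ k, (R k).1) ≠ 0 := Finset.prod_ne_zero_iff.2 fun j _ => (R j).2.2.ne_zero
  have hD0 : d * ∏ k, (R k).1 ≠ 0 := mul_ne_zero hd0 hR0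
  have hRS : ∀ k, (some (R k) : Pl F) ∉ S := fun k => hOk.nS k
  obtain ⟨-, -, p3⟩ := hPlt F a (d * ∏ k, (R k).1) hy.inj hD0
  have hpl : ∀ w : Pl F, IsPl w.o (A w).av := fun w => (hA.ok w).pl
  have hbad : ∀ P : {P : F[X] // P.Monic ∧ Irreducible P}, (some P : Pl F) ∉ S →
      ¬ P.1 ∣ bad a d := fun P h hh => h ((hS _).2 (Or.inr ⟨P, rfl, hh⟩))
  have key : (fun i => (algebraMap F[X] (RatFunc F) d * ∏ k, piP (some (R k) : Pl F)) * aR a i) =
      fun i => algebraMap F[X] (RatFunc F) (d * ∏ k, (R k).1) *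
        algebraMap F[X] (RatFunc F) (a i) := by
    funext i
    rw [map_mul, map_prod]
    rfl
  have key2 : (fun i => (algebraMap F[X] (RatFunc F) d * ∏ k, piP (some (R k) : Pl F)) * aR a i) =
      fun i => algebraMap F[X] (RatFunc F) ((d * ∏ k, (R k).1) * a i) := by
    rw [key]
    funext i
    rw [map_mul _ (d * ∏ k, (R k).1) (a i)]
  have hmain := hMain F (aR a) (Qf F) (Pl F) (Fin (r + 1)) (DL F a d u S A) (fun w => (A w).av) piP
    (algebraMap F[X] (RatFunc F) d) (hGO F a d u S A hy hA) (hAxl F a d u S A hy hu hS hA)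
    (fun i => some (R i)) hOk ?_ ?_ L hL
  · rw [key2] at hmain
    obtain ⟨E, hE⟩ := hAx3 F a d u S A hy hu hS hA
    obtain ⟨e1, e2⟩ := hEvn (DL F a d u S A) E _ (hAxl F a d u S A hy hu hS hA)
      (hAx F a d u S A hy hu hS hA).2 hE (fun i => some (R i)) hOk L hL hc
    refine ⟨hmain.1 e2, fun hev => hmain.2 ?_⟩
    have h3 := (hPrt F a d u S A hy hu hS hA r R hOk).1 hev
    exact (e1 h3).le
  · intro v _
    rw [key]
    obtain ⟨⟨Rs, hRs⟩, -⟩ := hLf F v.o (A v).av (hpl v)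
    refine hLdv F h2 (A v).av _ _ Rs hRs _ ⟨?_, ?_⟩
    · intro h
      apply h2
      have h4 : (2 : RatFunc F) = algebraMap F (RatFunc F) 2 := by rw [map_ofNat]
      rw [h4] at h
      exact (map_eq_zero _).1 h
    · intro i j hij
      have h5 : algebraMap F[X] (RatFunc F) (d * ∏ k, (R k).1) ≠ 0 := by
        intro h
        exact hD0 ((map_eq_zero_iff _ (IsFractionRing.injective F[X] (RatFunc F))).1 h)
      exact hy.inj (IsFractionRing.injective F[X] (RatFunc F) (mul_left_cancel₀ h5 hij))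
  · intro v hv
    rw [key]
    have hvS : v ∉ S := fun h => hv ⟨Sum.inl ⟨v, h⟩, rfl⟩
    rcases v with _ | P
    · exact absurd ((hS none).2 (Or.inl rfl)) hvS
    · have hb := hbad P hvS
      have hb1 : ¬ P.1 ∣ d := fun hh => hb (Dvd.dvd.mul_right hh _)
      have hb2 : ¬ P.1 ∣ (a 0 - a 1) * (a 0 - a 2) * (a 1 - a 2) :=
        fun hh => hb (Dvd.dvd.mul_left hh _)
      refine p3 P.1 _ (hpl (some P)) (fun hh => ?_) (bcnc_ndvd hb2)
      rcases P.2.2.prime.dvd_or_dvd hh with hh | hh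
      · exact hb1 hh
      · obtain ⟨k, hk⟩ := bcnc_prod R P hh
        exact hv ⟨Sum.inr k, congrArg some hk⟩

end Pool.Agent.MP72B.HB
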