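import Pool.Agent.Lib.MP_72e2e6_nt.Sm.B.SpecH

/-!
# MP_72e2e6_nt, `Sm/B/HFnp`: the local torsion is finite at all places
-/

namespace Pool.Agent.MP72B.HB

set_option autoImplicit false

open Polynomial Finset Pool.Agent.MP72S Pool.Agent.MP72W Pool.Agent.MP72S.D Pool.Agent.MP72S.HD

open Pool.Agent.MP72T (Spl nsp sqd RkOne)

private theorem fnp_two {F : Type} [Field F] [Finite F] (h : Nat.card F % 4 = 1) :
    (2 : F) ≠ 0 := by
  have hft : Fintype F := Fintype.ofFinite F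
  apply Ring.two_ne_zero
  intro h2
  rw [FiniteField.even_card_iff_char_two] at h2
  rw [Nat.card_eq_fintype_card] at h
  omega

/-- **Fnp**. The local torsion is finite at all places. -/
theorem tFnp (nu : HD.S_Nu) (lf : D.S_Lf) (pc : D.S_Pc) (tsf : Loc.S_Tsf) : S_Fnp := by
  intro F _ _ a d u S A hy hA v
  have h2 : (2 : F) ≠ 0 := fnp_two hy.q4
  have h2Q : (2 : Qf F) ≠ 0 := by
    intro h
    apply h2
    have h3 : algebraMap F (Qf F) 2 = 0 := by rw [map_ofNat]; exact h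
    exact (map_eq_zero (algebraMap F (Qf F))).1 h3
  have hinj : Function.Injective (aR a) := by
    intro i j h
    exact hy.inj (IsFractionRing.injective F[X] (RatFunc F) h)
  have hHyp : C.Hyp (aR a) (Qf F) := ⟨h2Q, hinj⟩
  obtain ⟨hplc, -, -, -⟩ := nu F a h2 hy.inj A hA
  have hpl := (hA.ok v).pl
  obtain ⟨-, hun⟩ := lf F v.o (A v).av hpl
  have hpi : nuP (A v) (algebraMap (RatFunc F) (Qf F) (unP v.o)) = ((1 : ℚ) : WithTop ℚ) := by
    rw [(pc F h2 v.o (A v) (hA.ok v)).2 (unP v.o) 1 (by rw [hun, zpow_one])]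
    norm_num
  exact tsf (RatFunc F) (aR a) (Qf F) (kF F) _ _ _ _ _ hHyp (hplc v) ⟨_, hpi⟩

end Pool.Agent.MP72B.HB
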