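import Pool.Agent.Lib.MP_72e2e6_nt.Sm.B.SpecH

/-!
# MP_72e2e6_nt, `Sm/B/HIsk`: the theta characteristic of the concrete datum
-/

namespace Pool.Agent.MP72B.HB

open Polynomial Finset Pool.Agent.MP72S Pool.Agent.MP72W Pool.Agent.MP72S.D Pool.Agent.MP72S.HD

open Pool.Agent.MP72T (Spl nsp sqd RkOne)

private theorem isk_two_ne {F : Type} [Field F] [Finite F] (h : Nat.card F % 4 = 1) :
    (2 : F) ≠ 0 := by
  intro h2
  have h1 : addOrderOf (1 : F) ∣ 2 := by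
    rw [addOrderOf_dvd_iff_nsmul_eq_zero, nsmul_one]
    exact_mod_cast h2
  have h3 : addOrderOf (1 : F) ∣ Nat.card F := addOrderOf_dvd_natCard _
  have h4 : addOrderOf (1 : F) = 1 := by
    rcases (Nat.dvd_prime Nat.prime_two).1 h1 with h5 | h5
    · exact h5
    · rw [h5] at h3
      omega
  exact one_ne_zero (AddMonoid.addOrderOf_eq_one_iff.1 h4)

private theorem isk_neg_one {F : Type} [Field F] [Finite F] (h : Nat.card F % 4 = 1) :
    ∃ b : F, b ^ 2 = -1 := by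
  have := Fintype.ofFinite F
  have h1 : IsSquare (-1 : F) := by
    rw [FiniteField.isSquare_neg_one_iff, ← Nat.card_eq_fintype_card]
    omega
  obtain ⟨b, hb⟩ := h1
  exact ⟨b, by rw [hb, sq]⟩

private theorem isk_pow4 (q d : ℕ) (h : q % 4 = 1) : q ^ d % 4 = 1 := by
  rw [Nat.pow_mod, h, one_pow]
  rfl

/-- **Isk.** The theta characteristic of the concrete datum. -/
theorem tIsk : S_Ax → HD.S_Nu → D.S_QG → Par.S_Kex → Par.S_Qqv → S_Isk := by
  intro hAx hNu hQG hKex hQqv F _ _ a d u S A hy hu hS hA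
  have h2 : (2 : F) ≠ 0 := isk_two_ne hy.q4
  obtain ⟨-, -, -, g4, -⟩ := hQG F
  obtain ⟨n1, -, -, -⟩ := hNu F a h2 hy.inj A hA
  have h2Q : (2 : Qf F) ≠ 0 := by
    have h : (2 : Qf F) = algebraMap (RatFunc F) (Qf F) (RatFunc.C 2) := by
      rw [map_ofNat, map_ofNat]
    rw [h, ne_eq, map_eq_zero, map_eq_zero]
    exact h2
  have hyp : C.Hyp (aR a) (Qf F) :=
    ⟨h2Q, fun i j hij => hy.inj (RatFunc.algebraMap_injective F hij)⟩
  have hsq : ∃ ι : RatFunc F, ι ^ 2 = -1 := by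
    obtain ⟨b, hb⟩ := isk_neg_one hy.q4
    exact ⟨RatFunc.C b, by rw [← map_pow, hb, map_neg, map_one]⟩
  obtain ⟨k, hk, hkap⟩ := hKex (DD F a d u S A) (hAx F a d u S A hy hu hS hA).1
  refine ⟨k, hk, hkap, fun v b c p hp => ?_⟩
  exact hQqv (RatFunc F) (aR a) (Qf F) (kF F) _ _ _ _ _ hyp (g4 h2) hsq (n1 v)
    (isk_pow4 _ _ hy.q4) (k ((DD F a d u S A).tau v)) (k ((DD F a d u S A).phi v)) (hk.two _)
    (hk.two _) (fun R hR => hkap _ R hR) (fun R hR => hkap _ R hR) b c p hp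

end Pool.Agent.MP72B.HB
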