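import Pool.Agent.Lib.MP_72e2e6_nt.Sm.B.SpecH

/-!
# MP_72e2e6_nt, `Sm/B`: module HSpc (squares in the completions)
-/

namespace Pool.Agent.MP72B.HB

open Polynomial Finset Pool.Agent.MP72S Pool.Agent.MP72W Pool.Agent.MP72S.D Pool.Agent.MP72S.HD

open Pool.Agent.MP72T (Spl nsp sqd RkOne)

/-- Multiplicative ultrametric norms. -/
private structure NrmC {L : Type} [Field L] (n : L → ℝ) : Prop where
  nn : ∀ x, 0 ≤ n x
  z : ∀ x, n x = 0 ↔ x = 0
  mul : ∀ x y, n (x * y) = n x * n y
  add : ∀ x y, n (x + y) ≤ max (n x) (n y)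

section
variable {L : Type} [Field L] {n : L → ℝ}

private theorem nc_one (h : NrmC n) : n 1 = 1 := by
  have h1 := h.mul 1 1
  rw [mul_one] at h1
  have h2 : n 1 ≠ 0 := fun h3 => one_ne_zero ((h.z 1).1 h3)
  exact (mul_right_cancel₀ h2 (by rw [one_mul]; exact h1)).symm

private theorem nc_neg (h : NrmC n) (x : L) : n (-x) = n x := by
  have h1 := h.mul (-1) (-1)
  rw [neg_mul_neg, one_mul, nc_one h] at h1
  have h2 : n (-1) = 1 := by
    nlinarith [h.nn (-1)]
  rw [← neg_one_mul, h.mul, h2, one_mul]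

private theorem nc_sub_lt (h : NrmC n) {x y : L} {c : ℝ} (hx : n x < c) (hy : n y < c) :
    n (x - y) < c := by
  rw [sub_eq_add_neg]
  exact lt_of_le_of_lt (h.add _ _) (max_lt hx (by rw [nc_neg h]; exact hy))

private theorem nc_sub_comm (h : NrmC n) (x y : L) : n (x - y) = n (y - x) := by
  rw [← nc_neg h, neg_sub]

/-- Squares of near elements are near. -/
private theorem nc_sq (h : NrmC n) {x y : L} (hx : n x ≤ 1) (hy : n (x - y) < 1) :
    n (x ^ 2 - y ^ 2) < 1 := by
  have h1 : x ^ 2 - y ^ 2 = (x - y) * (x + y) := by ring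
  have h2 : n (x + y) ≤ 1 := by
    have h3 : x + y = (x + x) + (y - x) := by ring
    rw [h3]
    refine (h.add _ _).trans (max_le ((h.add _ _).trans (max_le hx hx)) ?_)
    rw [nc_sub_comm h]
    exact hy.le
  rw [h1, h.mul]
  calc n (x - y) * n (x + y) ≤ n (x - y) * 1 := mul_le_mul_of_nonneg_left h2 (h.nn _)
    _ < 1 := by rw [mul_one]; exact hy

end

private theorem mul_div_self {L : Type} [Field L] {a b : L} (hb : b ≠ 0) : b * (a / b) = a := by
  field_simp

private theorem v_nrm {F : Type} [Field F] {v : AbsoluteValue (RatFunc F) ℝ} {d : ℕ}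
    {ϖ : RatFunc F} {R : Finset (RatFunc F)} (h : LF v d ϖ R) : NrmC (fun x => v x) :=
  ⟨fun x => v.nonneg x, fun _ => v.eq_zero, fun x y => v.map_mul x y, fun x y => h.na x y⟩

/-- Integral elements fixed by a Frobenius are near to elements of `F(t)`. -/
private theorem near_rat (hLc : D.S_Lc) (hLn : D.S_Ln) (hNrc : S.S_Nrc) {F : Type} [Field F]
    [Finite F] {v : AbsoluteValue (RatFunc F) ℝ} {d : ℕ} {ϖ : RatFunc F}
    {R : Finset (RatFunc F)} (h : LF v d ϖ R) {x : Kvs v} (hx : nm v x ≤ 1)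
    (g : Gal(Kvs v/v.Completion)) (hg : IsFro (Nat.card F) (Nat.card F ^ d) g) (hgx : g x = x) :
    ∃ r : RatFunc F, v r ≤ 1 ∧
      nm v (x - algebraMap v.Completion (Kvs v) (algebraMap (RatFunc F) v.Completion r)) < 1 := by
  classical
  obtain ⟨c1, c2, c3, c4, c5, c6, c7⟩ := hLc F v d ϖ R h
  obtain ⟨n1, n2, n3, n4, n5, n6, n7, n8⟩ := hLn F v d ϖ R h
  have N : NrmC (nm v) := ⟨n1, n2, n3, n4⟩
  obtain ⟨c, hc, hxc⟩ := hNrc F v d ϖ R h x hx
  have hq1 : 1 < Nat.card F := Finite.one_lt_card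
  have hQ1 : 1 < Nat.card F ^ d := Nat.one_lt_pow h.dpos.ne' hq1
  -- `c ^ Q = c`
  have hcQ : c ^ (Nat.card F ^ d) = c := by
    by_contra hne
    have hne' : c ^ (Nat.card F ^ d) - c ≠ 0 := sub_ne_zero.2 hne
    have hcst : c ^ (Nat.card F ^ d) - c ∈ Cst (Nat.card F) (Kvs v) := by
      obtain ⟨m, hm, hcm⟩ := hc
      refine ⟨m, hm, ?_⟩
      have : Fintype F := Fintype.ofFinite F
      obtain ⟨p, hp, k, hk, hcard⟩ := FiniteField.card' F
      have : Fact p.Prime := ⟨hk⟩
      let f : F →+* Kvs v :=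
        (algebraMap v.Completion (Kvs v)).comp ((algebraMap (RatFunc F) v.Completion).comp RatFunc.C)
      have : CharP (Kvs v) p := charP_of_injective_ringHom f.injective p
      have hcard' : Nat.card F = p ^ (k : ℕ) := by rw [Nat.card_eq_fintype_card, hcard]
      have e1 : ∀ a b : Kvs v, (a - b) ^ (Nat.card F ^ m) =
          a ^ (Nat.card F ^ m) - b ^ (Nat.card F ^ m) := by
        intro a b
        rw [hcard', ← pow_mul]
        exact sub_pow_char_pow a b _
      rw [e1, hcm, ← pow_mul, mul_comm, pow_mul, hcm]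
    have h1 := n7 _ hcst hne'
    have h2 : nm v (c ^ (Nat.card F ^ d) - c) < 1 := by
      have e2 : c ^ (Nat.card F ^ d) - c = (x - c) - (g (x - c)) := by
        rw [map_sub, hgx, hg c hc]
        ring
      rw [e2]
      exact nc_sub_lt N hxc (by rw [n6]; exact hxc)
    rw [h1] at h2
    exact lt_irrefl _ h2
  -- the representatives
  have hcr : ∀ r : RatFunc F, ∃ cr : v.Completion, r ∈ R →
      cr ^ (Nat.card F ^ d) = cr ∧ ‖algebraMap (RatFunc F) v.Completion r - cr‖ < 1 := by
    intro r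
    by_cases hr : r ∈ R
    · obtain ⟨cr, h1, h2⟩ := c7 (algebraMap (RatFunc F) v.Completion r) (by rw [c1]; exact h.int r hr)
      exact ⟨cr, fun _ => ⟨h1, h2⟩⟩
    · exact ⟨0, fun h1 => absurd h1 hr⟩
  choose cr hcr using hcr
  have hdist : ∀ r ∈ R, nm v (algebraMap v.Completion (Kvs v) (cr r) -
      algebraMap v.Completion (Kvs v) (algebraMap (RatFunc F) v.Completion r)) < 1 := by
    intro r hr
    rw [← map_sub, n5, norm_sub_rev]
    exact (hcr r hr).2
  have hinj : Set.InjOn (fun r => algebraMap v.Completion (Kvs v) (cr r)) (R : Set (RatFunc F)) := by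
    intro r hr r' hr' he
    by_contra hne
    have h1 := h.sep r hr r' hr' hne
    have h2 : nm v (algebraMap v.Completion (Kvs v) (algebraMap (RatFunc F) v.Completion (r - r')))
        < 1 := by
      have e3 : algebraMap v.Completion (Kvs v) (algebraMap (RatFunc F) v.Completion (r - r')) =
          (algebraMap v.Completion (Kvs v) (cr r') -
            algebraMap v.Completion (Kvs v) (algebraMap (RatFunc F) v.Completion r')) -
          (algebraMap v.Completion (Kvs v) (cr r) -
            algebraMap v.Completion (Kvs v) (algebraMap (RatFunc F) v.Completion r)) := by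
        simp only at he
        rw [map_sub, map_sub, he]
        ring
      rw [e3]
      exact nc_sub_lt N (hdist r' hr') (hdist r hr)
    rw [n5, c1, h1] at h2
    exact lt_irrefl _ h2
  let S : Finset (Kvs v) := R.image (fun r => algebraMap v.Completion (Kvs v) (cr r))
  let T : Finset (Kvs v) := (X ^ (Nat.card F ^ d) - X : (Kvs v)[X]).roots.toFinset
  have hne0 : (X ^ (Nat.card F ^ d) - X : (Kvs v)[X]) ≠ 0 :=
    FiniteField.X_pow_card_sub_X_ne_zero _ hQ1
  have hmT : ∀ y : Kvs v, y ∈ T ↔ y ^ (Nat.card F ^ d) = y := by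
    intro y
    simp only [T, Multiset.mem_toFinset]
    rw [mem_roots hne0, IsRoot.def, eval_sub, eval_pow, eval_X, sub_eq_zero]
  have hST : S ⊆ T := by
    intro y hy
    obtain ⟨r, hr, rfl⟩ := Finset.mem_image.1 hy
    rw [hmT, ← map_pow, (hcr r hr).1]
  have hcT : T.card ≤ S.card := by
    have h1 : S.card = Nat.card F ^ d := by
      rw [← h.card]
      exact Finset.card_image_of_injOn hinj
    rw [h1]
    refine (Multiset.toFinset_card_le _).trans ((card_roots' _).trans ?_)
    rw [FiniteField.X_pow_card_sub_X_natDegree_eq _ hQ1]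
  have hcS : c ∈ S := by
    rw [Finset.eq_of_subset_of_card_le hST hcT, hmT]
    exact hcQ
  obtain ⟨r, hr, hrc⟩ := Finset.mem_image.1 hcS
  refine ⟨r, h.int r hr, ?_⟩
  have e4 : x - algebraMap v.Completion (Kvs v) (algebraMap (RatFunc F) v.Completion r) =
      (x - c) - (algebraMap v.Completion (Kvs v) (algebraMap (RatFunc F) v.Completion r) - c) := by
    ring
  rw [e4]
  refine nc_sub_lt N hxc ?_
  rw [nc_sub_comm N, ← hrc]
  exact hdist r hr

/-- Integral rational functions are near to polynomials. -/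
private theorem near_pol {F : Type} [Field F] [Finite F] {v : AbsoluteValue (RatFunc F) ℝ} {d : ℕ}
    {ϖ : RatFunc F} {R : Finset (RatFunc F)} (h : LF v d ϖ R) {P : F[X]} (hP : Irreducible P)
    (hv : ∀ p : F[X], p ≠ 0 → v (algebraMap F[X] (RatFunc F) p) = (1 / 2) ^ multiplicity P p)
    (r : RatFunc F) (hr : v r ≤ 1) :
    ∃ s : F[X], v (r - algebraMap F[X] (RatFunc F) s) < 1 := by
  have N := v_nrm h
  have hvle : ∀ p : F[X], v (algebraMap F[X] (RatFunc F) p) ≤ 1 := by
    intro p
    by_cases hp : p = 0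
    · rw [hp, map_zero, map_zero]
      exact zero_le_one
    · rw [hv p hp]
      exact pow_le_one₀ (by norm_num) (by norm_num)
  have hvP : v (algebraMap F[X] (RatFunc F) P) < 1 := by
    rw [hv P hP.ne_zero]
    have h1 : 1 ≤ multiplicity P P := by
      rw [← FiniteMultiplicity.pow_dvd_iff_le_multiplicity]
      · rw [pow_one]
      · exact FiniteMultiplicity.of_not_isUnit hP.not_isUnit hP.ne_zero
    calc (1 / 2 : ℝ) ^ multiplicity P P ≤ (1 / 2) ^ 1 :=
          pow_le_pow_of_le_one (by norm_num) (by norm_num) h1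
      _ < 1 := by norm_num
  have hlt : ∀ p : F[X], P ∣ p → v (algebraMap F[X] (RatFunc F) p) < 1 := by
    rintro p ⟨s, rfl⟩
    rw [map_mul, map_mul]
    calc v (algebraMap F[X] (RatFunc F) P) * v (algebraMap F[X] (RatFunc F) s)
        ≤ v (algebraMap F[X] (RatFunc F) P) * 1 :=
          mul_le_mul_of_nonneg_left (hvle s) (v.nonneg _)
      _ < 1 := by rw [mul_one]; exact hvP
  have heq : ∀ p : F[X], ¬ P ∣ p → v (algebraMap F[X] (RatFunc F) p) = 1 := by
    intro p hp
    have hp0 : p ≠ 0 := fun h0 => hp (h0 ▸ dvd_zero P)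
    rw [hv p hp0, multiplicity_eq_zero.2 hp, pow_zero]
  have hden0 : algebraMap F[X] (RatFunc F) r.denom ≠ 0 := RatFunc.algebraMap_ne_zero r.denom_ne_zero
  have hrr : r = algebraMap F[X] (RatFunc F) r.num / algebraMap F[X] (RatFunc F) r.denom :=
    (RatFunc.num_div_denom r).symm
  have hden : ¬ P ∣ r.denom := by
    intro hd
    have hn : ¬ P ∣ r.num := by
      intro hn
      exact hP.not_isUnit ((RatFunc.isCoprime_num_denom r).isUnit_of_dvd' hn hd)
    have h1 := hlt _ hd
    have h2 := heq _ hn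
    have h3 : v r = 1 / v (algebraMap F[X] (RatFunc F) r.denom) := by
      conv_lhs => rw [hrr]
      rw [map_div₀, h2]
    have h4 : 0 < v (algebraMap F[X] (RatFunc F) r.denom) := v.pos hden0
    rw [h3, div_le_one h4] at hr
    linarith
  obtain ⟨a, b, hab⟩ := (hP.coprime_iff_not_dvd.2 hden)
  refine ⟨r.num * b, ?_⟩
  have e1 : r - algebraMap F[X] (RatFunc F) (r.num * b) =
      algebraMap F[X] (RatFunc F) (P * (a * r.num)) / algebraMap F[X] (RatFunc F) r.denom := by
    rw [eq_div_iff hden0, sub_mul]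
    nth_rewrite 1 [hrr]
    rw [div_mul_cancel₀ _ hden0, ← map_mul, ← map_sub]
    congr 1
    linear_combination (-r.num) * hab
  rw [e1, map_div₀, heq _ hden, div_one]
  exact hlt _ (dvd_mul_right _ _)

theorem tSpc (hLf : D.S_Lf) (hLc : D.S_Lc) (hLn : D.S_Ln) (hKm : D.S_Km) (hKl : D.S_Kl)
    (hRq : D.S_Rq) (hNrc : S.S_Nrc) : S_Spc := by
  classical
  intro F _ _ hq A hA
  have hF : (2 : F) ≠ 0 := by
    intro h2
    have : Fintype F := Fintype.ofFinite F
    have h3 : ringChar F = 2 := by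
      have h4 : ringChar F ∣ 2 := ringChar.dvd (by exact_mod_cast h2)
      rcases (Nat.dvd_prime Nat.prime_two).1 h4 with h5 | h5
      · exact absurd h5 (CharP.ringChar_ne_one)
      · exact h5
    have h6 := (FiniteField.even_card_iff_char_two (F := F)).1 h3
    rw [← Nat.card_eq_fintype_card] at h6
    omega
  obtain ⟨-, k2, k3, k4⟩ := hKm F hF
  have hz2 : ∀ a : ZMod 2, a ≠ 0 → a = 1 := by decide
  constructor
  · intro P f hf
    set B : Lcd F := A (some P) with hB
    have hBo : B.Ok (some P.1) := hA.ok (some P)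
    obtain ⟨hPm, hPi, hv⟩ := hBo.pl
    obtain ⟨⟨R, hR⟩, hϖ⟩ := hLf F _ _ hBo.pl
    obtain ⟨l1, -, l3, -, -⟩ := hKl F hF _ B hBo
    have N := v_nrm hR
    have heq : ∀ p : F[X], ¬ P.1 ∣ p → B.av (algebraMap F[X] (RatFunc F) p) = 1 := by
      intro p hp
      have hp0 : p ≠ 0 := fun h0 => hp (h0 ▸ dvd_zero P.1)
      rw [hv p hp0, multiplicity_eq_zero.2 hp, pow_zero]
    have hne : ∀ p : F[X], p ≠ 0 → algebraMap F[X] (RatFunc F) p ≠ 0 := fun p hp =>
      RatFunc.algebraMap_ne_zero hp
    have hP0 : P.1 ≠ 0 := hPi.ne_zero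
    have hdvd : ∀ p : F[X], B.av (algebraMap F[X] (RatFunc F) p) < 1 → P.1 ∣ p := by
      intro p hp
      by_contra hn
      rw [heq p hn] at hp
      exact lt_irrefl _ hp
    -- the values for `P ^ n * g`
    have htau : ∀ (n : ℕ) (g : F[X]), ¬ P.1 ∣ g →
        hK (algebraMap F[X] (RatFunc F) (P.1 ^ n * g)) (B.rQ B.t) = (n : ZMod 2) := by
      intro n g hg
      have h1 := l1 (algebraMap F[X] (RatFunc F) (P.1 ^ n * g)) n (by
        rw [map_mul, map_mul, heq g hg, mul_one, map_pow, map_pow]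
        have h2 : B.av (algebraMap F[X] (RatFunc F) P.1) = 1 / 2 := hϖ
        rw [h2, zpow_natCast])
      rw [h1]
      push_cast
      rfl
    have hphi : ∀ (m : ℕ) (g : F[X]), g ≠ 0 → ∀ σ : GQ F,
        hK (algebraMap F[X] (RatFunc F) (P.1 ^ (2 * m) * g)) σ =
          hK (algebraMap F[X] (RatFunc F) g) σ := by
      intro m g hg σ
      have e1 : algebraMap F[X] (RatFunc F) (P.1 ^ (2 * m) * g) =
          (algebraMap F[X] (RatFunc F) (P.1 ^ m)) ^ 2 * algebraMap F[X] (RatFunc F) g := by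
        rw [map_mul, ← map_pow, ← pow_mul, mul_comm m 2]
      rw [e1, k3 _ _ (pow_ne_zero _ (hne _ (pow_ne_zero _ hP0))) (hne g hg),
        k4 _ (hne _ (pow_ne_zero _ hP0)), zero_add]
    constructor
    · rintro ⟨h1, h2⟩
      have hfm : FiniteMultiplicity P.1 f :=
        FiniteMultiplicity.of_not_isUnit hPi.not_isUnit hf
      obtain ⟨g, hfg, hg⟩ := hfm.exists_eq_pow_mul_and_not_dvd
      have hg0 : g ≠ 0 := fun h0 => hg (h0 ▸ dvd_zero P.1)
      rw [hfg, htau _ g hg] at h1
      rw [ZMod.natCast_eq_zero_iff] at h1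
      obtain ⟨m, hm⟩ := h1
      rw [hm] at hfg
      rw [hfg, hphi m g hg0] at h2
      -- the square root
      obtain ⟨x, hx, hxφ⟩ : ∃ x : Qf F, x ^ 2 = algebraMap (RatFunc F) (Qf F)
          (algebraMap F[X] (RatFunc F) g) ∧ (B.rQ B.f) x = x := by
        by_contra hcon
        have h3 : hK (algebraMap F[X] (RatFunc F) g) (B.rQ B.f) = 1 := by
          unfold hK
          rw [if_neg hcon]
        rw [h3] at h2
        exact one_ne_zero h2
      obtain ⟨q1, -⟩ := hRq F hF _ B hBo
      have hfx : B.f (B.eQ x) = B.eQ x := by rw [← q1, hxφ]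
      obtain ⟨c1, -⟩ := hLc F _ _ _ R hR
      obtain ⟨n1, n2, n3, n4, n5, n6, n7, n8⟩ := hLn F _ _ _ R hR
      have M : NrmC (nm B.av) := ⟨n1, n2, n3, n4⟩
      have halg : ∀ y : RatFunc F, nm B.av (algebraMap B.av.Completion (Kvs B.av)
          (algebraMap (RatFunc F) B.av.Completion y)) = B.av y := fun y => by rw [n5, c1]
      have hx2 : B.eQ x ^ 2 = algebraMap B.av.Completion (Kvs B.av)
          (algebraMap (RatFunc F) B.av.Completion (algebraMap F[X] (RatFunc F) g)) := by
        rw [← map_pow, hx, AlgHom.commutes]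
        rfl
      have hnx : nm B.av (B.eQ x) = 1 := by
        have h3 : nm B.av (B.eQ x) ^ 2 = 1 := by
          rw [pow_two, ← n3, ← pow_two, hx2, halg, heq g hg]
        exact (pow_eq_one_iff_of_nonneg (n1 _) two_ne_zero).1 h3
      obtain ⟨r, hr1, hr2⟩ := near_rat hLc hLn hNrc hR hnx.le B.f hBo.ff hfx
      obtain ⟨s, hs⟩ := near_pol hR hPi hv r hr1
      refine ⟨m, g, s, hfg, hg, hdvd _ ?_⟩
      have e1 : B.av (algebraMap F[X] (RatFunc F) g - r ^ 2) < 1 := by
        rw [← halg, map_sub, map_sub, ← hx2, map_pow, map_pow]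
        exact nc_sq M hnx.le hr2
      have e2 : B.av (r ^ 2 - (algebraMap F[X] (RatFunc F) s) ^ 2) < 1 := nc_sq N hr1 hs
      have e3 : algebraMap F[X] (RatFunc F) (g - s ^ 2) =
          (algebraMap F[X] (RatFunc F) g - r ^ 2) +
            (r ^ 2 - (algebraMap F[X] (RatFunc F) s) ^ 2) := by
        rw [map_sub, map_pow]
        ring
      rw [e3]
      exact lt_of_le_of_lt (hR.na _ _) (max_lt e1 e2)
    · rintro ⟨m, g, s, hfg, hg, hgs⟩
      have hg0 : g ≠ 0 := fun h0 => hg (h0 ▸ dvd_zero P.1)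
      refine ⟨?_, ?_⟩
      · rw [hfg, htau _ g hg]
        push_cast
        have e2 : (2 : ZMod 2) = 0 := rfl
        rw [e2, zero_mul]
      · rw [hfg, hphi m g hg0]
        have hs : ¬ P.1 ∣ s := by
          intro hs
          apply hg
          have h3 : g = (g - s ^ 2) + s * s := by ring
          rw [h3]
          exact dvd_add hgs (hs.mul_right s)
        have hs0 : s ≠ 0 := fun h0 => hs (h0 ▸ dvd_zero P.1)
        have e1 : algebraMap F[X] (RatFunc F) g = (algebraMap F[X] (RatFunc F) s) ^ 2 *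
            (algebraMap F[X] (RatFunc F) g / (algebraMap F[X] (RatFunc F) s) ^ 2) := by
          exact (mul_div_self (pow_ne_zero 2 (hne s hs0))).symm
        rw [e1, k3 _ _ (pow_ne_zero _ (hne s hs0))
          (div_ne_zero (hne g hg0) (pow_ne_zero _ (hne s hs0))), k4 _ (hne s hs0), zero_add]
        apply l3
        have e2 : algebraMap F[X] (RatFunc F) g / (algebraMap F[X] (RatFunc F) s) ^ 2 - 1 =
            algebraMap F[X] (RatFunc F) (g - s ^ 2) / (algebraMap F[X] (RatFunc F) s) ^ 2 := by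
          rw [map_sub, map_pow, sub_div, div_self (pow_ne_zero _ (hne s hs0))]
        rw [e2, map_div₀, map_pow, heq s hs, one_pow, div_one]
        by_cases h0 : g - s ^ 2 = 0
        · rw [h0, map_zero, map_zero]
          exact zero_lt_one
        · rw [hv _ h0]
          have h1 : 1 ≤ multiplicity P.1 (g - s ^ 2) := by
            rw [← FiniteMultiplicity.pow_dvd_iff_le_multiplicity]
            · rw [pow_one]
              exact hgs
            · exact FiniteMultiplicity.of_not_isUnit hPi.not_isUnit h0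
          calc (1 / 2 : ℝ) ^ multiplicity P.1 (g - s ^ 2) ≤ (1 / 2) ^ 1 :=
                pow_le_pow_of_le_one (by norm_num) (by norm_num) h1
            _ < 1 := by norm_num
  · -- infinity
    intro f hf
    set B : Lcd F := A none with hB
    have hBo : B.Ok none := hA.ok none
    have hpl : ∀ f : RatFunc F, f ≠ 0 → B.av f = 2 ^ f.intDegree := hBo.pl
    obtain ⟨l1, -, l3, l4, l5⟩ := hKl F hF _ B hBo
    have hne : ∀ p : F[X], p ≠ 0 → algebraMap F[X] (RatFunc F) p ≠ 0 := fun p hp =>
      RatFunc.algebraMap_ne_zero hp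
    have ht : hK (algebraMap F[X] (RatFunc F) f) (B.rQ B.t) = (f.natDegree : ZMod 2) := by
      have h1 := l1 (algebraMap F[X] (RatFunc F) f) (-(f.natDegree : ℤ)) (by
        rw [hpl _ (hne f hf), RatFunc.intDegree_polynomial, one_div, inv_zpow', neg_neg])
      rw [h1]
      push_cast
      have e2 : ∀ b : ZMod 2, -b = b := by decide
      rw [e2]
    have hlc : f.leadingCoeff ≠ 0 := leadingCoeff_ne_zero.2 hf
    have hCl : (RatFunc.C f.leadingCoeff : RatFunc F) ≠ 0 := by
      intro h
      exact hlc ((RatFunc.C (K := F)).injective (by rw [h, map_zero]))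
    have hφ : hK (algebraMap F[X] (RatFunc F) f) (B.rQ B.f) =
        hK (RatFunc.C f.leadingCoeff) (B.rQ B.f) := by
      have hmon : (f * C f.leadingCoeff⁻¹).Monic := monic_mul_leadingCoeff_inv hf
      have e1 : algebraMap F[X] (RatFunc F) f = RatFunc.C f.leadingCoeff *
          algebraMap F[X] (RatFunc F) (f * C f.leadingCoeff⁻¹) := by
        rw [← RatFunc.algebraMap_C, ← map_mul]
        congr 1
        rw [mul_left_comm, ← C_mul, mul_inv_cancel₀ hlc, C_1, mul_one]
      rw [e1, k3 _ _ hCl (hne _ hmon.ne_zero), l5 rfl _ hmon, add_zero]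
    rw [ht, hφ, ZMod.natCast_eq_zero_iff, even_iff_two_dvd]
    apply and_congr_right
    intro _
    constructor
    · intro h1
      by_contra hcon
      rw [l4 _ hcon] at h1
      have h2 : ((dgP (none : Option F[X]) : ℕ) : ZMod 2) = 1 := by
        change ((1 : ℕ) : ZMod 2) = 1
        exact Nat.cast_one
      rw [h2] at h1
      exact one_ne_zero h1
    · rintro ⟨c, hc⟩
      have hc0 : c ≠ 0 := by
        rintro rfl
        rw [zero_pow two_ne_zero] at hc
        exact hlc hc.symm
      have hCc : (RatFunc.C c : RatFunc F) ≠ 0 := by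
        intro h
        exact hc0 ((RatFunc.C (K := F)).injective (by rw [h, map_zero]))
      rw [← hc, map_pow]
      exact k4 _ hCc _

end Pool.Agent.MP72B.HB
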