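import Pool.Agent.Lib.MP_72e2e6_nt.Sm.B.SpecA

/-!
# MP_72e2e6_nt, `Sm/B/Hlf`: existence of halves (copy of `Sm/P/Hlf` with `DatL`)
-/

set_option autoImplicit false

namespace Pool.Agent.MP72B

open Finset Pool.Agent.MP72S

section

variable {G N P : Type} [Group G] [TopologicalSpace G] [AddCommGroup N] [DistribMulAction G N]
  {D : Dat G N P}

private theorem hlf_half0 : half (0 : N) = 0 := by
  rw [half, if_pos rfl]

private theorem hlf_half (hA : Ax D) (x : N) : 2 • half x = x := by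
  by_cases hx : x = 0
  · rw [hx, hlf_half0, smul_zero]
  · have h : ∃ y : N, 2 • y = x := hA.dvs x
    rw [half, if_neg hx, dif_pos h]
    exact h.choose_spec

private theorem hlf_e0 (hA : Ax D) {y : N} (hy : 2 • y = 0) : D.e 0 y = 0 := by
  have h0 : 2 • (0 : N) = 0 := smul_zero _
  have h := hA.e_add 0 0 y h0 h0 hy
  rw [add_zero] at h
  exact left_eq_add.1 h

/-- The coboundary of the half of `η`. -/
private noncomputable def hlfC (χ : G → ZMod 2) (η : G → N) (g h : G) : N :=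
  half (η g) + tw χ g (half (η h)) - half (η (g * h))

private theorem hlf_two (hA : Ax D) {χ : G → ZMod 2} {η : G → N} (hη : IsCo χ η) (g h : G) :
    2 • hlfC χ η g h = 0 := by
  rw [hlfC, smul_sub, smul_add, ← tw_nsmul, hlf_half hA, hlf_half hA, hlf_half hA, hη g h]
  abel

private theorem hlf_lc [IsTopologicalGroup G] (hA : Ax D) {χ : G → ZMod 2}
    (hχ : IsLocallyConstant χ) {η : G → N} (hl : IsLocallyConstant η) :
    IsLocallyConstant fun p : G × G => hlfC χ η p.1 p.2 := by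
  have h1 : IsLocallyConstant fun p : G × G => η p.1 := hl.comp_continuous continuous_fst
  have h2 : IsLocallyConstant fun p : G × G => η p.2 := hl.comp_continuous continuous_snd
  have h3 : IsLocallyConstant fun p : G × G => η (p.1 * p.2) := hl.comp_continuous continuous_mul
  have h4 : IsLocallyConstant fun p : G × G => χ p.1 := hχ.comp_continuous continuous_fst
  rw [IsLocallyConstant.iff_eventually_eq] at h1 h2 h3 h4 ⊢
  intro p
  have h5 : IsLocallyConstant fun q : G × G => q.1 • half (η p.2) :=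
    (hA.act (half (η p.2))).comp_continuous continuous_fst
  rw [IsLocallyConstant.iff_eventually_eq] at h5
  filter_upwards [h1 p, h2 p, h3 p, h4 p, h5 p] with q e1 e2 e3 e4 e5
  rw [hlfC, hlfC, e1, e2, e3, tw, tw, e4, e5]

omit [TopologicalSpace G] in
private theorem hlf_coc (χ : G → ZMod 2) (hχ : ∀ σ τ, χ (σ * τ) = χ σ + χ τ) (η : G → N)
    (g h k : G) : hlfC χ η g h + hlfC χ η (g * h) k =
      tw χ g (hlfC χ η h k) + hlfC χ η g (h * k) := by
  rw [hlfC, hlfC, hlfC, hlfC, tw_sub, tw_add, tw_mul (hχ g h), mul_assoc]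
  abel

private theorem hlf_out (hA : Ax D) {χ : G → ZMod 2} (hχ : ∀ σ τ, χ (σ * τ) = χ σ + χ τ)
    {η : G → N} (hη : IsCo χ η) {s : N} (hs : 2 • s = 0) {v : P} (hv : v ∉ D.S)
    (h1 : χ (D.tau v) = 0) (h2 : η (D.tau v) = 0) :
    D.iv (fun g h => D.e (hlfC χ η g h) s) v = 0 := by
  have hone : χ 1 = 0 := by
    have h := hχ 1 1
    rw [mul_one] at h
    exact left_eq_add.1 h
  have ha1 : η 1 = 0 := by
    have h := hη 1 1
    rw [mul_one, tw, hone, sg_zero', one_smul] at h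
    exact left_eq_add.1 h
  have h3 : ∀ i : ℕ, η (D.tau v ^ i) = 0 := by
    intro i
    induction i with
    | zero => rw [pow_zero, ha1]
    | succ i ih => rw [pow_succ, hη, ih, h2, tw_map_zero, add_zero]
  have h4 : ∀ i : ℕ, χ (D.tau v ^ i) = 0 := by
    intro i
    induction i with
    | zero => rw [pow_zero, hone]
    | succ i ih => rw [pow_succ, hχ, ih, h1, add_zero]
  have h5 : ∀ (i : ℕ) (y : N), D.tau v ^ i • y = y := by
    intro i y
    induction i with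
    | zero => rw [pow_zero, one_smul]
    | succ i ih => rw [pow_succ, mul_smul, hA.unr v hv, ih]
  have h6 : ∀ (i : ℕ) (y : N), tw χ (D.tau v ^ i) y = y := by
    intro i y
    rw [tw, h4, sg_zero', h5]
  have h7 : hlfC χ η (D.phi v) (D.tau v) = 0 := by
    rw [hlfC, hη, h2, tw_map_zero, add_zero, hlf_half0, tw_map_zero, add_zero, sub_self]
  have h8 : ∀ i : ℕ, hlfC χ η (D.tau v ^ (i + 1)) (D.tau v) = 0 := by
    intro i
    rw [hlfC, ← pow_succ, h3, h3, h2, hlf_half0, tw_map_zero, add_zero, sub_self]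
  have h9 : hlfC χ η (D.tau v ^ D.nq v) (D.phi v) = 0 := by
    rw [hlfC, hη, h3, h6, h6, hlf_half0, zero_add, zero_add, sub_self]
  rw [Dat.iv]
  simp only [h7, h8, h9]
  rw [hlf_e0 hA hs, sum_const_zero, sub_zero, sub_zero]

/-- The multiple `[a = 1] u`. -/
private def hlfBr (a : ZMod 2) (u : N) : N := if a = 0 then 0 else u

private theorem hlfBr_add (a b : ZMod 2) {u : N} (hu : 2 • u = 0) :
    hlfBr (a + b) u = hlfBr a u + hlfBr b u := by
  rw [two_nsmul] at hu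
  rcases zmod2 a with rfl | rfl <;> rcases zmod2 b with rfl | rfl
  · simp [hlfBr]
  · simp [hlfBr]
  · simp [hlfBr]
  · rw [show (1 : ZMod 2) + 1 = 0 from rfl, hlfBr, if_pos rfl, hlfBr, if_neg one_ne_zero, hu]

private theorem hlfBr_two (a : ZMod 2) {u : N} (hu : 2 • u = 0) : 2 • hlfBr a u = 0 := by
  unfold hlfBr
  split_ifs
  · exact smul_zero _
  · exact hu

private theorem hlfBr_sub (a b : ZMod 2) {u : N} (hu : 2 • u = 0) :
    hlfBr (a - b) u = hlfBr a u - hlfBr b u := by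
  have h1 : hlfBr a u = hlfBr (a - b) u + hlfBr b u := by
    rw [← hlfBr_add _ _ hu, sub_add_cancel]
  rw [h1, add_sub_cancel_right]

omit [TopologicalSpace G] in
private theorem hlf_tw_inj (χ : G → ZMod 2) (σ : G) {y : N} (h : tw χ σ y = 0) : y = 0 := by
  rw [tw, sg] at h
  split_ifs at h
  · exact (smul_eq_zero_iff_eq σ).1 h
  · exact (smul_eq_zero_iff_eq σ).1 (neg_eq_zero.1 h)

end

theorem tHlf : MP72S.S_Hom → S_Uq → S_Tai → MP72S.S_Bas → S_Dk1 → MP72S.S_Trl → S_Hlf := by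
  intro hHom _ hTai hBas _ hTrl G N P ι _ _ _ _ _ _ _ D hAL hA2 x hx ξ hξ
  have hA : Ax D.toDat := hAL.ax
  classical
  obtain ⟨-, htau, hχ, hχl, -, -⟩ := hTai D hAL x hx
  obtain ⟨⟨T₁, T₂, hT₁, hT₂, -, hdec, -⟩, -, -⟩ := hBas D.toDat hA
  obtain ⟨ψ, hψ⟩ : ∃ ψ, ψ = D.coc x ξ := ⟨_, rfl⟩
  have hZ : D.IsZ x ξ ψ := by rw [hψ]; exact DatL.coc_spec hξ
  have hS : ∀ s ∈ D.S, s ∈ Set.range (D.pl x) := fun s hs => ⟨Sum.inl ⟨s, hs⟩, rfl⟩
  have hc2 := hlf_two hA hZ.u.co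
  -- the cocycles `e c T`
  have hl : ∀ T : N, 2 • T = 0 → ∃ l : G → ZMod 2, IsLocallyConstant l ∧
      ∀ σ τ, D.e (hlfC (D.chi x) ψ σ τ) T = l σ + l τ - l (σ * τ) := by
    intro T hT
    obtain ⟨r, hr⟩ := hA.dvs T
    have hC2 : IsC2 (fun _ r => r) (fun g h => D.e (hlfC (D.chi x) ψ g h) T) := by
      refine ⟨(hlf_lc hA hχl hZ.u.lc).comp fun y => D.e y T, fun g h k => ?_⟩
      have h1 := hlf_coc (D.chi x) hχ ψ g h k
      rw [tw_two hA.tri (hc2 h k)] at h1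
      rw [← hA.e_add _ _ _ (hc2 _ _) (hc2 _ _) hT, ← hA.e_add _ _ _ (hc2 _ _) (hc2 _ _) hT, h1]
    refine hA2.has2 _ hC2 fun v => ?_
    by_cases hc : v ∈ Set.range (D.pl x)
    · obtain ⟨j, rfl⟩ := hc
      obtain ⟨Q, -, hQ1, hQ2⟩ := hZ.lo j
      have hT' := hTrl D.toDat hA (D.chi x) hχ (D.pl x j)
        (fun g => ψ g - (tw (D.chi x) g Q - Q)) ψ Q r T ?_ ?_ ?_ (fun g => by abel) hr hT
      · have hr2 : ∀ g, 2 • (tw (D.chi x) g r - r) = 0 := by
          intro g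
          rw [smul_sub, ← tw_nsmul, hr, tw_two hA.tri hT, sub_self]
        simp only [hQ1, hQ2, sub_self] at hT'
        rw [hlf_e0 hA (hr2 _), hlf_e0 hA (hr2 _), add_zero] at hT'
        exact hT'
      · intro σ τ
        simp only [hZ.u.co σ τ, tw_sub, tw_mul (hχ σ τ)]
        abel
      · simp only [hQ1, sub_self, smul_zero]
      · simp only [hQ2, sub_self, smul_zero]
    · exact hlf_out hA hχ hZ.u.co hT (fun h => hc (hS v h)) (htau v hc) (hZ.u.ur v hc)
  obtain ⟨l₁, hl₁, hz₁⟩ := hl T₁ hT₁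
  obtain ⟨l₂, hl₂, hz₂⟩ := hl T₂ hT₂
  obtain ⟨l, hldef⟩ : ∃ l : G → N, ∀ g, l g = hlfBr (l₂ g) T₁ + hlfBr (l₁ g) T₂ :=
    ⟨_, fun _ => rfl⟩
  have hll : IsLocallyConstant l := by
    have : l = fun g => hlfBr (l₂ g) T₁ + hlfBr (l₁ g) T₂ := funext hldef
    rw [this]
    exact (hl₂.comp fun a => hlfBr a T₁).comp₂ (hl₁.comp fun a => hlfBr a T₂) (fun a b => a + b)
  have hl2 : ∀ g, 2 • l g = 0 := fun g => by
    rw [hldef, smul_add, hlfBr_two _ hT₁, hlfBr_two _ hT₂, add_zero]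
  have hcl : ∀ g h, hlfC (D.chi x) ψ g h = l g + l h - l (g * h) := by
    intro g h
    have h1 := hdec _ (hc2 g h)
    have h2 : hlfC (D.chi x) ψ g h = hlfBr (D.e (hlfC (D.chi x) ψ g h) T₂) T₁ +
        hlfBr (D.e (hlfC (D.chi x) ψ g h) T₁) T₂ := h1
    rw [h2, hz₁, hz₂, hlfBr_sub _ _ hT₁, hlfBr_sub _ _ hT₂, hlfBr_add _ _ hT₁, hlfBr_add _ _ hT₂,
      hldef, hldef, hldef]
    abel
  -- the first half
  obtain ⟨η₀, hη₀⟩ : ∃ η₀ : G → N, ∀ g, η₀ g = half (ψ g) - l g := ⟨_, fun _ => rfl⟩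
  have hη₀l : IsLocallyConstant η₀ := by
    have : η₀ = fun g => half (ψ g) - l g := funext hη₀
    rw [this]
    exact (hZ.u.lc.comp half).comp₂ hll (fun a b => a - b)
  have hη₀c : IsCo (D.chi x) η₀ := by
    intro σ τ
    have h1 := hcl σ τ
    rw [hlfC] at h1
    have h2 : half (ψ (σ * τ)) = half (ψ σ) + tw (D.chi x) σ (half (ψ τ)) -
        (l σ + l τ - l (σ * τ)) := by
      rw [← h1]; abel
    rw [hη₀, hη₀, hη₀, h2, tw_sub, tw_two hA.tri (hl2 τ)]
    abel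
  have hη₀2 : ∀ g, 2 • η₀ g = ψ g := fun g => by
    rw [hη₀, smul_sub, hlf_half hA, hl2, sub_zero]
  have hη₀1 : η₀ 1 = 0 := by
    have hone : D.chi x 1 = 0 := by
      have h := hχ 1 1
      rw [mul_one] at h
      exact left_eq_add.1 h
    have h := hη₀c 1 1
    rw [mul_one, tw, hone, sg_zero', one_smul] at h
    exact left_eq_add.1 h
  let U : Subgroup G :=
    { carrier := {σ | η₀ σ = 0}
      one_mem' := hη₀1
      mul_mem' := by
        intro a b (ha : η₀ a = 0) (hb : η₀ b = 0)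
        change η₀ (a * b) = 0
        rw [hη₀c, ha, hb, tw_map_zero, add_zero]
      inv_mem' := by
        intro a (ha : η₀ a = 0)
        change η₀ a⁻¹ = 0
        have h := hη₀c a a⁻¹
        rw [mul_inv_cancel, hη₀1, ha, zero_add] at h
        exact hlf_tw_inj _ _ h.symm }
  have hUo : IsOpen (U : Set G) := hη₀l {0}
  have hfin : {v | η₀ (D.tau v) ≠ 0 ∧ v ∉ Set.range (D.pl x)}.Finite :=
    (hA.fin U hUo).subset fun v hv => hv.1
  have hinf : D.inf ∈ Set.range (D.pl x) := hS _ hA.infS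
  obtain ⟨θ, hθ, hθ1, hθ2, -⟩ := (hHom D.toDat hA).2.1 hfin.toFinset
    (fun v => if v ∈ Set.range (D.pl x) then 0 else η₀ (D.tau v)) 0
    (fun h => (hfin.mem_toFinset.1 h).2 hinf)
    (fun v => by
      by_cases hv : v ∈ Set.range (D.pl x)
      · rw [if_pos hv, smul_zero]
      · rw [if_neg hv, hη₀2, hZ.u.ur v hv])
    (smul_zero _)
  obtain ⟨k, hk⟩ := hZ.u.bd
  have h2η : ∀ σ, 2 • (η₀ σ - θ σ) = ψ σ := fun σ => by
    rw [smul_sub, hη₀2, hθ.two, sub_zero]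
  refine ⟨fun σ => η₀ σ - θ σ, ⟨?_, ?_, ?_, ?_⟩, ?_⟩
  · exact hη₀l.comp₂ hθ.lc (fun a b => a - b)
  · intro σ τ
    dsimp only
    rw [hη₀c, hθ.mul, tw_sub, tw_two hA.tri (hθ.two τ)]
    abel
  · refine ⟨k + 1, fun σ => ?_⟩
    rw [pow_succ, mul_smul, h2η, hk]
  · intro v hv
    by_cases h0 : η₀ (D.tau v) = 0
    · have hvA : v ∉ hfin.toFinset := fun h => (hfin.mem_toFinset.1 h).1 h0
      rw [h0, hθ2 v hvA (fun h => hv (h ▸ hinf)), sub_zero]
    · have hvA : v ∈ hfin.toFinset := hfin.mem_toFinset.2 ⟨h0, hv⟩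
      rw [hθ1 v hvA, if_neg hv, sub_self]
  · have : (fun σ => 2 • (η₀ σ - θ σ)) = ψ := funext h2η
    rw [this]
    exact hZ

end Pool.Agent.MP72B
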