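import Pool.Agent.Lib.MP_72e2e6_nt.Sm.B.SpecR

/-!
# MP_72e2e6_nt, `Sm/B`: at least one half of the twists have the root number `+1`
-/

set_option autoImplicit false

namespace Pool.Agent.MP72B.Frm

open Finset Polynomial MP72e2e6 Pool.Agent.MP72S Pool.Agent.MP72T Pool.Agent.MP72S.Ns

private theorem hlf_ne {F : Type} [Field F] (a : Fin 3 → F[X]) (h : Function.Injective a) :
    Dlt a ≠ 0 := by
  have h01 : a 0 - a 1 ≠ 0 := sub_ne_zero.2 (h.ne (by decide))
  have h02 : a 0 - a 2 ≠ 0 := sub_ne_zero.2 (h.ne (by decide))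
  have h12 : a 1 - a 2 ≠ 0 := sub_ne_zero.2 (h.ne (by decide))
  exact mul_ne_zero (mul_ne_zero h01 h02) h12

private theorem hlf_fin (F : Type) [Field F] [Finite F] (N : ℕ) : (sqd F N).Finite := by
  have h : {d : F[X] | d.natDegree ≤ N}.Finite := by
    refine Set.Finite.of_finite_image (f := fun (h : F[X]) (i : Fin (N + 1)) => h.coeff i)
      (Set.toFinite _) ?_
    intro g hg h hh hgh
    change g.natDegree ≤ N at hg
    change h.natDegree ≤ N at hh
    ext i
    by_cases hi : i < N + 1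
    · exact congrFun hgh ⟨i, hi⟩
    · rw [coeff_eq_zero_of_natDegree_lt (by omega), coeff_eq_zero_of_natDegree_lt (by omega)]
  exact h.subset fun D hD => hD.1.le

private theorem hlf_sgn (k : ℕ) : ((-1 : ℝ)) ^ k = 2 * (if Even k then 1 else 0) - 1 := by
  by_cases h : Even k
  · rw [h.neg_one_pow, if_pos h]
    norm_num
  · rw [(Nat.not_even_iff_odd.1 h).neg_one_pow, if_neg h]
    norm_num

theorem tHlfB : Ns.S_Sqf → S_DcpB → S_TotB → S_NsA → S_NsC → S_NsZ → S_SqS → S_HlfB := by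
  classical
  intro hSqf hDcp hTot hA hC hZ hS F _ _ hq4 a ha ε hε
  have hq1 : 1 < Nat.card F := Finite.one_lt_card
  have hq3 : 3 ≤ Nat.card F := by omega
  set q : ℝ := (Nat.card F : ℝ) with hq
  have hq5 : (3 : ℝ) ≤ q := by
    rw [hq]
    exact_mod_cast hq3
  set lam : ℝ := Real.sqrt (2 * q) with hlam
  set s : F[X] → ℝ := fun D => (-1 : ℝ) ^ nsp a D with hs
  set δ := (Dlt a).natDegree with hδ
  have hB := hlf_ne a ha
  obtain ⟨c, hc, n₁, hn₁⟩ := hSqf F hq3 (Dlt a) hB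
  obtain ⟨hf0, hdec, -⟩ := hDcp F a ha
  obtain ⟨-, hsum⟩ := hTot F a ha
  -- the number `ν`
  obtain ⟨ν, hν⟩ : ∃ ν : F, ¬ IsSquare ν := by
    have := Fintype.ofFinite F
    refine FiniteField.exists_nonsquare ?_
    intro h2
    have h5 := FiniteField.even_card_of_char_two h2
    rw [← Nat.card_eq_fintype_card] at h5
    omega
  have hν0 : ν ≠ 0 := by
    rintro rfl
    exact hν ⟨0, by simp⟩
  -- sizes
  have hl0 : 0 ≤ lam := Real.sqrt_nonneg _
  have hl1 : 1 ≤ lam := by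
    rw [hlam, Real.one_le_sqrt]
    linarith
  have hlq : lam < q := by
    rw [hlam, Real.sqrt_lt' (by linarith)]
    nlinarith
  set Y := hf0.toFinset with hY
  have hlim : Filter.Tendsto (fun n : ℕ => ((#Y : ℝ) * q ^ δ) * (lam / q) ^ n) Filter.atTop
      (nhds (((#Y : ℝ) * q ^ δ) * 0)) :=
    (tendsto_pow_atTop_nhds_zero_of_lt_one (div_nonneg hl0 (by linarith))
      ((div_lt_one (by linarith)).2 hlq)).const_mul _
  rw [mul_zero] at hlim
  obtain ⟨n₂, hn₂⟩ := Filter.eventually_atTop.1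
    (hlim.eventually (gt_mem_nhds (show (0 : ℝ) < 2 * ε * c by positivity)))
  refine ⟨max n₁ (max n₂ δ), fun n hn => ?_⟩
  have e1 := hn₁ n ((le_max_left _ _).trans hn)
  have e2 := hn₂ n (((le_max_left _ _).trans (le_max_right _ _)).trans hn)
  have e3 : δ ≤ n := ((le_max_right _ _).trans (le_max_right _ _)).trans hn
  -- the sum of the signs
  set X := (hlf_fin F n).toFinset with hX
  have eX : (sqd F n).ncard = #X := Set.ncard_eq_toFinset_card _ (hlf_fin F n)
  have eE : {D ∈ sqd F n | Even (nsp a D)}.ncard = #(X.filter fun D => Even (nsp a D)) := by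
    rw [← Set.ncard_coe_finset]
    congr 1
    ext D
    rw [coe_filter]
    rw [hX]
    change (D ∈ sqd F n ∧ Even (nsp a D)) ↔ (D ∈ (hlf_fin F n).toFinset ∧ Even (nsp a D))
    rw [Set.Finite.mem_toFinset]
  have eS : ∑ᶠ D ∈ sqd F n, s D = 2 * (#(X.filter fun D => Even (nsp a D)) : ℝ) - #X := by
    rw [finsum_mem_eq_finite_toFinset_sum _ (hlf_fin F n)]
    have h5 : ∀ D ∈ X, s D = 2 * (if Even (nsp a D) then 1 else 0) - 1 := fun D _ => hlf_sgn _
    rw [sum_congr rfl h5, sum_sub_distrib, ← mul_sum, sum_boole, sum_const, nsmul_eq_mul, mul_one]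
  -- lower bound
  set T : F[X] → ℝ := fun d => ∑ f ∈ sqf F (Dlt a) (n - d.natDegree), s (d * f) with hT
  have eT : ∑ᶠ D ∈ sqd F n, s D = ∑ d ∈ Y, T d := by
    rw [hsum n e3 s, finsum_mem_eq_finite_toFinset_sum _ hf0]
  have hYm : ∀ d, d ∈ Y ↔ d ∈ sq0 a := fun d => by rw [hY, Set.Finite.mem_toFinset]
  have hY0 : ∀ d ∈ Y, d ≠ 0 := fun d hd => ((hYm d).1 hd).1.ne_zero
  have hsq : ∀ k, ∀ f ∈ sqf F (Dlt a) k, IsCoprime f (Dlt a) ∧ f ≠ 0 := by
    intro k f hf
    unfold sqf at hf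
    rw [mem_filter] at hf
    exact ⟨hf.2.2, hf.2.1.ne_zero⟩
  have hlow1 : ∀ d ∈ Y.filter (fun d => ∃ P, Mlt a d P), -(q ^ δ * lam ^ n) ≤ T d := by
    intro d hd
    obtain ⟨hdY, hdM⟩ := mem_filter.1 hd
    have hd0 := hY0 d hdY
    have h5 := hS F (Dlt a) hB (fun f => s (d * f))
      (fun f => by rw [hs]; simp [abs_pow])
      (fun h f hh hhc hf hfc => by
        show (-1 : ℝ) ^ nsp a (d * (h ^ 2 * f)) = (-1) ^ nsp a (d * f)
        rw [(hC F a ha d hd0 f hfc hf.ne_zero).1 h hhc hh.ne_zero])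
      (fun k hk => hZ F (by omega) a ha d hd0 hdM k hk) (n - d.natDegree)
    have h6 : lam ^ (n - d.natDegree) ≤ lam ^ n := pow_le_pow_right₀ hl1 (Nat.sub_le _ _)
    have h7 : q ^ δ * lam ^ (n - d.natDegree) ≤ q ^ δ * lam ^ n :=
      mul_le_mul_of_nonneg_left h6 (by positivity)
    have h8 := (abs_le.1 h5).1
    linarith
  set Y₀ := Y.filter (fun d => ¬ ∃ P, Mlt a d P) with hY₀
  have himg : Y₀.image (fun d => C ν * d) = Y₀ := by
    have hinj : Function.Injective fun d : F[X] => C ν * d := fun d d' h =>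
      mul_left_cancel₀ (C_ne_zero.2 hν0) h
    refine eq_of_subset_of_card_le ?_ (le_of_eq (card_image_of_injective _ hinj).symm)
    intro e he
    obtain ⟨d, hd, rfl⟩ := mem_image.1 he
    rw [hY₀, mem_filter] at hd ⊢
    obtain ⟨hdY, hdM⟩ := hd
    have hu : IsUnit (C ν : F[X]) := isUnit_C.2 (isUnit_iff_ne_zero.2 hν0)
    have hass : Associated d (C ν * d) := (associated_unit_mul_left d (C ν) hu).symm
    refine ⟨(hYm _).2 ⟨?_, ?_⟩, ?_⟩
    · exact hass.squarefree_iff.1 ((hYm d).1 hdY).1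
    · intro P hP hPd
      exact ((hYm d).1 hdY).2 P hP ((hass.dvd_iff_dvd_right).2 hPd)
    · rintro ⟨P, hP⟩
      exact hdM ⟨P, ((hA F a ha d (hY0 d hdY) P).2.2 ν hν0).1 hP⟩
  have hlow0 : 0 ≤ ∑ d ∈ Y₀, T d := by
    have h5 : ∑ d ∈ Y₀, T d = ∑ d ∈ Y₀, T (C ν * d) := by
      conv_lhs => rw [← himg]
      exact sum_image fun d _ d' _ h => mul_left_cancel₀ (C_ne_zero.2 hν0) h
    have h6 : 0 ≤ ∑ d ∈ Y₀, (T d + T (C ν * d)) := by
      refine sum_nonneg fun d hd => ?_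
      rw [hY₀, mem_filter] at hd
      obtain ⟨hdY, hdM⟩ := hd
      have h7 : (C ν * d).natDegree = d.natDegree := natDegree_C_mul hν0
      have h8 : T (C ν * d) = ∑ f ∈ sqf F (Dlt a) (n - d.natDegree), s (C ν * d * f) := by
        rw [hT]
        dsimp only
        rw [h7]
      rw [h8, hT]
      dsimp only
      rw [← sum_add_distrib]
      refine sum_nonneg fun f hf => ?_
      obtain ⟨hf1, hf2⟩ := hsq _ f hf
      exact (hC F a ha d (hY0 d hdY) f hf1 hf2).2 (fun P hP => hdM ⟨P, hP⟩) ν hν0 hν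
    rw [sum_add_distrib, ← h5] at h6
    linarith
  have hlow : -((#Y : ℝ) * q ^ δ * lam ^ n) ≤ ∑ d ∈ Y, T d := by
    rw [← sum_filter_add_sum_filter_not Y (fun d => ∃ P, Mlt a d P)]
    have h5 : -((#Y : ℝ) * q ^ δ * lam ^ n) ≤ ∑ d ∈ Y.filter (fun d => ∃ P, Mlt a d P), T d := by
      have h6 := card_nsmul_le_sum _ _ _ hlow1
      have h7 : (#(Y.filter fun d => ∃ P, Mlt a d P) : ℝ) ≤ #Y := by
        exact_mod_cast card_le_card (filter_subset _ _)
      rw [nsmul_eq_mul] at h6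
      have h8 : 0 ≤ q ^ δ * lam ^ n := by positivity
      nlinarith
    linarith
  -- conclusion
  have hcard : c * q ^ n ≤ (#X : ℝ) := by
    refine e1.trans ?_
    have h5 : sqf F (Dlt a) n ⊆ X := by
      intro f hf
      rw [hX, Set.Finite.mem_toFinset]
      unfold sqf at hf
      rw [mem_filter, mem_mon] at hf
      exact ⟨hf.1.2, hf.2.1⟩
    exact_mod_cast card_le_card h5
  have hsmall : (#Y : ℝ) * q ^ δ * lam ^ n ≤ 2 * ε * #X := by
    have hqn : 0 < q ^ n := by positivity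
    have h5 : (#Y : ℝ) * q ^ δ * lam ^ n = ((#Y : ℝ) * q ^ δ) * (lam / q) ^ n * q ^ n := by
      rw [div_pow]
      field_simp
    rw [h5]
    calc ((#Y : ℝ) * q ^ δ) * (lam / q) ^ n * q ^ n ≤ 2 * ε * c * q ^ n :=
          mul_le_mul_of_nonneg_right e2.le hqn.le
      _ = 2 * ε * (c * q ^ n) := by ring
      _ ≤ 2 * ε * #X := mul_le_mul_of_nonneg_left hcard (by positivity)
  rw [eX, eE]
  rw [← eT, eS] at hlow
  nlinarith

end Pool.Agent.MP72B.Frm
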