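import Pool.Agent.Lib.MP_72e2e6_nt.Sm.B.SpecA

/-!
# MP_72e2e6_nt, `Sm/B/Inj`: a Selmer cocycle of type zero vanishes
-/

namespace Pool.Agent.MP72B

open Finset Pool.Agent.MP72S

theorem tInj : MP72S.S_Hom → S_Fix → S_Inj := by
  intro hHom hFix G N P ι _ _ _ _ _ _ D hB x hx ψ hψ
  have hA := hB.ax
  have h1 := (hHom D.toDat hA).1
  have hfix := (hFix D hB x hx).1
  have hloc : ∀ j, ψ (D.tau (D.pl x j)) = 0 ∧ ψ (D.phi (D.pl x j)) = 0 := by
    intro j
    obtain ⟨Q, hQ, hl⟩ := hψ.lo j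
    have hQ0 : D.lm x j Q = 0 := hQ
    obtain ⟨f1, f2⟩ := (hfix j Q).mp hQ0
    constructor
    · rw [hl.1, f1, sub_self]
    · rw [hl.2, f2, sub_self]
  have htau : ∀ v, ψ (D.tau v) = 0 := by
    intro v
    by_cases hv : v ∈ Set.range (D.pl x)
    · obtain ⟨j, rfl⟩ := hv
      exact (hloc j).1
    · exact hψ.u.ur v hv
  have hphi : ψ (D.phi D.inf) = 0 := (hloc (Sum.inl ⟨D.inf, hA.infS⟩)).2
  obtain ⟨k, hk⟩ := hψ.u.bd
  induction k with
  | zero =>
    intro σ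
    simpa using hk σ
  | succ k ih =>
    apply ih
    apply h1 (fun σ => 2 ^ k • ψ σ)
    · refine ⟨hψ.u.lc.comp fun a => 2 ^ k • a, fun σ => ?_, fun σ τ => ?_⟩
      · rw [← mul_smul, mul_comm, ← pow_succ]
        exact hk σ
      · have h2 : 2 • (2 ^ k • ψ τ) = 0 := by
          rw [← mul_smul, mul_comm, ← pow_succ]
          exact hk τ
        rw [hψ.u.co σ τ, smul_add, ← tw_nsmul, tw_two hA.tri h2]
    · intro v
      simp only [htau v, smul_zero]
    · simp only [hphi, smul_zero]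

end Pool.Agent.MP72B
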