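import Pool.Agent.Lib.MP_72e2e6_nt.Sm.B.SpecA

/-!
# MP_72e2e6_nt, `Sm/B`, module `IsoE`: isotropy from the Weil pairings
-/

set_option autoImplicit false

namespace Pool.Agent.MP72B

open Finset Pool.Agent.MP72S

section

variable {G N : Type} [Group G] [AddCommGroup N] [DistribMulAction G N]

private theorem isoE_tw_one {χ : G → ZMod 2} (hχ : ∀ σ τ, χ (σ * τ) = χ σ + χ τ) (x : N) :
    tw χ 1 x = x := by
  have h := hχ 1 1
  rw [mul_one] at h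
  rw [tw, left_eq_add.1 h, sg_zero', one_smul]

private theorem isoE_fix {χ : G → ZMod 2} (hχ : ∀ σ τ, χ (σ * τ) = χ σ + χ τ) {t p : G} {Q : N}
    (ht : 2 • (tw χ t Q - Q) = 0) (hp : 2 • (tw χ p Q - Q) = 0) :
    ∀ g ∈ Subgroup.closure {t, p}, 2 • (tw χ g Q - Q) = 0 := by
  have key : ∀ g, 2 • (tw χ g Q - Q) = 0 ↔ tw χ g (2 • Q) = 2 • Q := by
    intro g
    rw [smul_sub, ← tw_nsmul, sub_eq_zero]
  intro g hg
  rw [key]
  induction hg using Subgroup.closure_induction with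
  | mem x hx =>
    rcases hx with rfl | hx
    · exact (key _).1 ht
    · rw [Set.mem_singleton_iff] at hx
      subst hx
      exact (key _).1 hp
  | one => exact isoE_tw_one hχ _
  | mul x y _ _ hx hy => rw [tw_mul (hχ x y), hy, hx]
  | inv x _ hx =>
    have h := tw_mul (χ := χ) (σ := x⁻¹) (τ := x) (hχ _ _) (2 • Q)
    rw [inv_mul_cancel, isoE_tw_one hχ, hx] at h
    exact h.symm

private theorem isoE_co {χ : G → ZMod 2} (hχ : ∀ σ τ, χ (σ * τ) = χ σ + χ τ) (Q : N) :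
    IsCo χ fun g => tw χ g Q - Q := by
  intro σ τ
  simp only [tw_sub, tw_mul (hχ σ τ)]
  abel

private theorem isoE_div (hdvs : ∀ x : N, ∃ y : N, 2 • y = x) (m : ℕ) (x : N) :
    ∃ y : N, 2 ^ m • y = x := by
  induction m generalizing x with
  | zero => exact ⟨x, by rw [pow_zero, one_smul]⟩
  | succ m ih =>
    obtain ⟨y, hy⟩ := ih x
    obtain ⟨z, hz⟩ := hdvs y
    exact ⟨z, by rw [pow_succ, mul_smul, hz, hy]⟩

end

theorem tIsoE : MP72S.S_EFa → MP72S.S_IvR → MP72S.S_Ivc → S_IsoE := by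
  intro hEFa hIvR hIvc G N P R _ _ _ _ _ _ D E hf hA hA3 v χ hχ Q Q' h1 h2 h3 h4
  classical
  obtain ⟨hE1, -, hE3, -, -, hE6⟩ := hEFa D E hf hA hA3
  obtain ⟨hI1, hI2, -⟩ := hIvR D E hf hA hA3 v
  obtain ⟨k, hk⟩ := hA.prim Q
  obtain ⟨Q₁, hQ₁⟩ := isoE_div hA.dvs k Q'
  -- `M = k + 1`
  have hQM : 2 ^ (k + 1) • Q = 0 := by rw [pow_succ, mul_comm, mul_smul, hk, smul_zero]
  have ha := isoE_fix hχ h1 h2
  have hfv := isoE_fix hχ h3 h4
  have hwf : ∀ g, 2 ^ k • (tw χ g Q₁ - Q₁) = tw χ g Q' - Q' := by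
    intro g
    rw [smul_sub, ← tw_nsmul, hQ₁]
  have hw : ∀ g ∈ Subgroup.closure {D.tau v, D.phi v}, 2 ^ (k + 1) • (tw χ g Q₁ - Q₁) = 0 := by
    intro g hg
    rw [pow_succ, mul_comm, mul_smul, hwf, hfv g hg]
  have hneg : -hf = hf := by
    have h := hA3.hf2
    rw [two_nsmul] at h
    exact neg_eq_of_add_eq_zero_left h
  have hz : ∀ g ∈ Subgroup.closure {D.tau v, D.phi v},
      ∀ h ∈ Subgroup.closure {D.tau v, D.phi v},
      (fun g h => if D.e (tw χ g Q - Q) (tw χ h Q' - Q') = 0 then (0 : R) else hf) g h =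
      (fun σ τ => (fun g => E (k + 1) Q (tw χ g Q₁ - Q₁)) σ +
        σ • (fun g => E (k + 1) Q (tw χ g Q₁ - Q₁)) τ -
        (fun g => E (k + 1) Q (tw χ g Q₁ - Q₁)) (σ * τ)) g h := by
    intro g hg h hh
    beta_reduce
    have hgw : 2 ^ (k + 1) • tw χ g (tw χ h Q₁ - Q₁) = 0 := by
      rw [← tw_nsmul, hw h hh, tw_map_zero]
    have haM : 2 ^ (k + 1) • (tw χ g Q - Q) = 0 := by
      rw [pow_succ, mul_smul, ha g hg, smul_zero]
    have e1 : tw χ (g * h) Q₁ - Q₁ = (tw χ g Q₁ - Q₁) + tw χ g (tw χ h Q₁ - Q₁) := by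
      rw [tw_mul (hχ g h), tw_sub]
      abel
    have e2 : E (k + 1) (tw χ g Q) (tw χ g (tw χ h Q₁ - Q₁)) =
        E (k + 1) Q (tw χ g (tw χ h Q₁ - Q₁)) +
        E (k + 1) (tw χ g Q - Q) (tw χ g (tw χ h Q₁ - Q₁)) := by
      rw [← hA3.E_add (k + 1) Q (tw χ g Q - Q) _ hQM haM hgw, add_sub_cancel]
    rw [← hE6 (k + 1) χ g Q (tw χ h Q₁ - Q₁) hQM (hw h hh), e1,
      hE1 (k + 1) Q _ _ hQM (hw g hg) hgw, e2, hA3.E_anti (k + 1) (tw χ g Q - Q) _ haM hgw,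
      hE3 (k + 1) _ (tw χ g Q - Q) (by omega) hgw (ha g hg), Nat.add_sub_cancel, ← tw_nsmul,
      hwf, tw_two hA.tri (hfv h hh), hA.e_sym _ _ (ha g hg) (hfv h hh)]
    split_ifs
    · rw [neg_zero]
      abel
    · rw [hneg]
      abel
  have hiv := hI2 _ _ hz
  rw [hI1, hIvc D E hf hA hA3 v χ _ _ hχ (isoE_co hχ Q) (isoE_co hχ Q') h1 h2 h3 h4] at hiv
  by_contra hne
  rw [if_neg hne] at hiv
  exact hA3.hf0 hiv

end Pool.Agent.MP72B
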