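import Pool.Agent.Lib.MP_72e2e6_nt.Sm.B.SpecL

/-!
# MP_72e2e6_nt, `Sm/B`, part L: discreteness of the points
-/

namespace Pool.Agent.MP72B.Loc

open Finset WeierstrassCurve Polynomial Pool.Agent.MP72S

open Pool.Agent.MP72W (pmap IsCoc LocTriv InSha ShaTwoFin XY px py)

open Pool.Agent.MP72S.C (Wa PA Hyp QC NN al ee act rr pt Plc P2)

open Pool.Agent.MP72S.S (GOk Tht LocC Good rs hgt)

open scoped Classical

private theorem dsc_sub {L : Type} [Field L] {v : AbsoluteValue L ℝ} (h : IsNonarchimedean v)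
    (a b : L) : v (a - b) ≤ max (v a) (v b) := by
  rw [sub_eq_add_neg]
  refine (h a (-b)).trans ?_
  rw [AbsoluteValue.map_neg]

/-- The claim: some `A i` is large. -/
private theorem dsc_claim {L : Type} [Field L] (v : AbsoluteValue L ℝ) (hv : IsNonarchimedean v)
    (h2 : v 2 = 1) (α : Fin 3 → L) (m : ℝ) (hm : 0 < m) (hα : ∀ i j, i ≠ j → m ≤ v (α i - α j))
    (x x' : L) (hh : v (x - x') < m) :
    ∃ i, m ^ 2 ≤ v ((x - α i) * (x' - α i) - (α i - α (i + 1)) * (α i - α (i + 2))) := by
  by_contra hcon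
  push Not at hcon
  have key : ∀ k : Fin 3, v (x - α k) < m := by
    intro k
    have h3 : (α (k + 2) - α (k + 1)) * (2 * (x - α k) - (x - x')) =
        ((x - α (k + 1)) * (x' - α (k + 1)) - (α (k + 1) - α (k + 1 + 1)) *
          (α (k + 1) - α (k + 1 + 2))) - ((x - α (k + 2)) * (x' - α (k + 2)) -
          (α (k + 2) - α (k + 2 + 1)) * (α (k + 2) - α (k + 2 + 2))) := by
      have e1 : k + 1 + 1 = k + 2 := by rw [add_assoc]; rfl
      have e2 : k + 1 + 2 = k := by
        rw [add_assoc]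
        exact add_zero k
      have e3 : k + 2 + 1 = k := by
        rw [add_assoc]
        exact add_zero k
      have e4 : k + 2 + 2 = k + 1 := by
        rw [add_assoc]
        rfl
      rw [e1, e2, e3, e4]
      ring
    have h4 : v ((α (k + 2) - α (k + 1)) * (2 * (x - α k) - (x - x'))) < m ^ 2 := by
      rw [h3]
      exact (dsc_sub hv _ _).trans_lt (max_lt (hcon (k + 1)) (hcon (k + 2)))
    rw [map_mul] at h4
    have hne : k + 2 ≠ k + 1 := by
      intro h
      exact absurd (add_left_cancel h) (by decide)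
    have h5 : v (2 * (x - α k) - (x - x')) < m := by
      by_contra h
      rw [not_lt] at h
      have := mul_le_mul (hα _ _ hne) h hm.le (v.nonneg _)
      nlinarith [this, h4]
    have h6 : v (2 * (x - α k)) < m := by
      have h7 : 2 * (x - α k) = (2 * (x - α k) - (x - x')) + (x - x') := by ring
      rw [h7]
      exact (hv _ _).trans_lt (max_lt h5 hh)
    rwa [map_mul, h2, one_mul] at h6
  have h8 : v (α 0 - α 1) < m := by
    have h9 : α 0 - α 1 = (x - α 1) - (x - α 0) := by ring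
    rw [h9]
    exact (dsc_sub hv _ _).trans_lt (max_lt (key 1) (key 0))
  exact absurd (hα 0 1 (by decide)) (not_le.2 h8)

/-- **Dsc**. Discreteness of the points. -/
theorem tDsc (_grp : C.S_Grp) (prd : C.S_Prd) : S_Dsc := by
  intro K _ a L _ _ hyp v hv h2 B
  obtain ⟨prd1, -⟩ := prd K a L hyp
  have hinj : ∀ i j, i ≠ j → al a L i - al a L j ≠ 0 := by
    intro i j hij h
    exact hij (hyp.2 ((algebraMap K L).injective (sub_eq_zero.1 h)))
  -- bounds
  obtain ⟨m, hm, hmα⟩ : ∃ m : ℝ, 0 < m ∧ ∀ i j, i ≠ j → m ≤ v (al a L i - al a L j) := by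
    have hfin : (Set.range fun p : {p : Fin 3 × Fin 3 // p.1 ≠ p.2} =>
        v (al a L p.1.1 - al a L p.1.2)).Finite := Set.finite_range _
    have hne : (Set.range fun p : {p : Fin 3 × Fin 3 // p.1 ≠ p.2} =>
        v (al a L p.1.1 - al a L p.1.2)).Nonempty := ⟨_, ⟨⟨(0, 1), by decide⟩, rfl⟩⟩
    obtain ⟨m, ⟨p, rfl⟩, hmin⟩ := Set.exists_min_image _ id hfin hne
    exact ⟨_, v.pos (hinj _ _ p.2), fun i j hij => hmin _ ⟨⟨(i, j), hij⟩, rfl⟩⟩
  obtain ⟨M, hM⟩ : ∃ M : ℝ, ∀ i j, v (al a L i - al a L j) ≤ M := by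
    obtain ⟨M, hM⟩ := (Set.finite_range fun p : Fin 3 × Fin 3 =>
      v (al a L p.1 - al a L p.2)).bddAbove
    exact ⟨M, fun i j => hM ⟨(i, j), rfl⟩⟩
  have hM0 : 0 ≤ M := (v.nonneg _).trans (hM 0 0)
  set B' : ℝ := max B M with hB'
  have hB'M : M ≤ B' := le_max_right _ _
  have hB'0 : 0 ≤ B' := hM0.trans hB'M
  refine ⟨min m (m ^ 2 / (B' + 1)), lt_min hm (by positivity), ?_⟩
  intro P Q hP hQ hne hlt
  have hlt1 : v (px P - px Q) < m := hlt.trans_le (min_le_left _ _)
  have hlt2 : v (px P - px Q) * (B' + 1) < m ^ 2 := by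
    have := hlt.trans_le (min_le_right _ _)
    rwa [lt_div_iff₀ (by positivity)] at this
  obtain ⟨i, hi⟩ := dsc_claim v hv h2 (al a L) m hm hmα (px P) (px Q) hlt1
  have h3 := congrArg v (prd1 P Q i hP hQ hne)
  rw [map_mul, map_mul, map_pow, map_pow] at h3
  -- the spread
  have spread : ∀ R : PA a L, B' < v (px R - al a L i) → ∀ j, B < v (px R - al a L j) := by
    intro R hR j
    by_contra hj
    rw [not_lt] at hj
    have h4 : px R - al a L i = (px R - al a L j) + (al a L j - al a L i) := by ring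
    rw [h4] at hR
    have h5 := (hv (px R - al a L j) (al a L j - al a L i)).trans
      (max_le (hj.trans (le_max_left B M)) ((hM j i).trans hB'M))
    exact absurd hR (not_lt.2 h5)
  by_cases hc : B' < v (px (P + Q) - al a L i)
  · exact Or.inl (spread _ hc)
  · right
    refine spread _ ?_
    by_contra hc'
    rw [not_lt] at hc hc'
    have h6 : m ^ 2 * m ^ 2 ≤ v (px (P + Q) - al a L i) * v (px (P - Q) - al a L i) *
        v (px P - px Q) ^ 2 := by
      rw [h3, sq (v _)]
      exact mul_le_mul hi hi (by positivity) (v.nonneg _)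
    have h7 : v (px (P + Q) - al a L i) * v (px (P - Q) - al a L i) * v (px P - px Q) ^ 2 ≤
        (B' * v (px P - px Q)) * (B' * v (px P - px Q)) := by
      have h8 : v (px (P + Q) - al a L i) * v (px (P - Q) - al a L i) ≤ B' * B' :=
        mul_le_mul hc hc' (v.nonneg _) hB'0
      calc _ ≤ B' * B' * v (px P - px Q) ^ 2 :=
            mul_le_mul_of_nonneg_right h8 (by positivity)
        _ = _ := by ring
    have h9 : B' * v (px P - px Q) < m ^ 2 := by
      have := v.nonneg (px P - px Q)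
      nlinarith [this, hlt2]
    have h10 : (B' * v (px P - px Q)) * (B' * v (px P - px Q)) < m ^ 2 * m ^ 2 :=
      mul_self_lt_mul_self (mul_nonneg hB'0 (v.nonneg _)) h9
    linarith

end Pool.Agent.MP72B.Loc
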