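import Pool.Agent.Lib.MP_72e2e6_nt.Sm.B.SpecL

/-!
# MP_72e2e6_nt, `Sm/B`, part L: E1d, the points near to `O` are divisible by two
-/

namespace Pool.Agent.MP72B.Loc

open Finset WeierstrassCurve Polynomial Pool.Agent.MP72S

open Pool.Agent.MP72W (pmap IsCoc LocTriv InSha ShaTwoFin XY px py)

open Pool.Agent.MP72S.C (Wa PA Hyp QC NN al ee act rr pt Plc P2)

open Pool.Agent.MP72S.S (GOk Tht LocC Good rs hgt)

open scoped Classical

/-- The square root of a quotient close to one. -/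
private theorem E1d_root (hSq : S.S_Sq1) {L : Type} [NormedField L] [CompleteSpace L]
    [IsUltrametricDist L] (h2 : ‖(2 : L)‖ = 1) (u v : L) (h : ‖u - v‖ < ‖v‖) :
    ∃ s : L, u = v * s ^ 2 ∧ ‖s - 1‖ < 1 := by
  obtain ⟨s, hs⟩ := hSq L h2 u v h
  have hv : 0 < ‖v‖ := lt_of_le_of_lt (norm_nonneg _) h
  have h3 : ‖s - 1‖ * ‖s + 1‖ < 1 := by
    have e : u - v = v * ((s - 1) * (s + 1)) := by
      rw [hs]
      ring
    rw [e, norm_mul, norm_mul] at h
    have h4 : ‖v‖ * (‖s - 1‖ * ‖s + 1‖) < ‖v‖ * 1 := by rwa [mul_one]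
    exact lt_of_mul_lt_mul_left h4 hv.le
  by_cases h5 : ‖s - 1‖ < 1
  · exact ⟨s, hs, h5⟩
  · refine ⟨-s, by rw [hs]; ring, ?_⟩
    have e : -s - 1 = -(s + 1) := by ring
    rw [e, norm_neg]
    by_contra h6
    push Not at h5 h6
    have h7 : (1 : ℝ) ≤ ‖s - 1‖ * ‖s + 1‖ := by nlinarith
    linarith

/-- The sum of two elements close to one has norm one. -/
private theorem E1d_two {L : Type} [NormedField L] [IsUltrametricDist L] (h2 : ‖(2 : L)‖ = 1)
    (s t : L) (hs : ‖s - 1‖ < 1) (ht : ‖t - 1‖ < 1) : ‖s + t‖ = 1 := by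
  have h3 : ‖(s - 1) + (t - 1)‖ < 1 :=
    lt_of_le_of_lt (IsUltrametricDist.norm_add_le_max _ _) (max_lt hs ht)
  have e : s + t = 2 + ((s - 1) + (t - 1)) := by ring
  rw [e, IsUltrametricDist.norm_add_eq_max_of_norm_ne_norm (by rw [h2]; exact h3.ne'), h2]
  exact max_eq_left h3.le

theorem tE1d (hGrp : C.S_Grp) (hHal : C.S_Hal) (hSq : S.S_Sq1) : S_E1d := by
  intro K _ a L _ _ _ _ I hH h2 M hle P hP
  obtain rfl : I = fun a b => Classical.propDecidable (a = b) := Subsingleton.elim _ _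
  have hg := hGrp K a L hH
  rcases hg.1 P with h0 | ⟨x, y, hxy⟩
  · exact ⟨0, Or.inl rfl, by rw [h0]; exact nsmul_zero 2⟩
  obtain ⟨hP0, hpx, -, heq⟩ := hg.2.1 P x y hxy
  have hu : ∀ i, M < ‖x - al a L i‖ := by
    rcases hP with h | h
    · exact absurd h hP0
    · rw [hpx] at h
      exact h
  have hM0 : 0 ≤ M := by
    have h3 := hle 0 0
    rwa [sub_self, norm_zero] at h3
  have hroot : ∀ j, ∃ s : L, x - al a L j = (x - al a L 0) * s ^ 2 ∧ ‖s - 1‖ < 1 := by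
    intro j
    refine E1d_root hSq h2 _ _ ?_
    have e : x - al a L j - (x - al a L 0) = al a L 0 - al a L j := by ring
    rw [e]
    exact (hle 0 j).trans_lt (hu 0)
  choose s hs hs1 using hroot
  have hne : ∀ i, x - al a L i ≠ 0 := fun i h => by
    have h3 := hu i
    rw [h, norm_zero] at h3
    linarith
  have hs0 : ∀ j, s j ≠ 0 := by
    intro j h
    apply hne j
    rw [hs j, h]
    ring
  have hu0 := hne 0
  have a0 := hs0 0
  have a1 := hs0 1
  have a2 := hs0 2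
  have hy2 : y ^ 2 = (x - al a L 0) ^ 3 * (s 0 * s 1 * s 2) ^ 2 := by
    have e : (x - al a L 0) * (x - al a L 1) * (x - al a L 2) =
        ((x - al a L 0) * s 0 ^ 2) * ((x - al a L 0) * s 1 ^ 2) * ((x - al a L 0) * s 2 ^ 2) := by
      rw [← hs 0, ← hs 1, ← hs 2]
    rw [heq, e]
    ring
  obtain ⟨t, ht⟩ : ∃ t : L, t = y / ((x - al a L 0) * (s 0 * s 1 * s 2)) := ⟨_, rfl⟩
  have ht1 : t * ((x - al a L 0) * (s 0 * s 1 * s 2)) = y := by
    rw [ht]
    exact div_mul_cancel₀ _ (mul_ne_zero hu0 (mul_ne_zero (mul_ne_zero a0 a1) a2))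
  have ht2 : t ^ 2 = x - al a L 0 := by
    rw [ht, div_pow, hy2]
    field_simp
  obtain ⟨Q, -, hQ, -, hQx⟩ := hHal K a L hH P x y hxy (fun i => t * s i)
    (fun i => by
      rw [hs i, mul_pow, ht2])
    (by
      change t * s 0 * (t * s 1) * (t * s 2) = y
      calc t * s 0 * (t * s 1) * (t * s 2) = t * (t ^ 2 * (s 0 * s 1 * s 2)) := by ring
        _ = y := by rw [ht2, ht1])
  refine ⟨Q, Or.inr fun i => ?_, by rw [two_nsmul, hQ]⟩
  have h4 : ∀ j k, ‖t * s j + t * s k‖ = ‖t‖ := by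
    intro j k
    rw [← mul_add, norm_mul, E1d_two h2 _ _ (hs1 j) (hs1 k), mul_one]
  have h5 : px Q - al a L i = (t * s i + t * s (i + 1)) * (t * s i + t * s (i + 2)) := hQx i
  rw [h5, norm_mul, h4, h4, ← norm_mul, ← pow_two, ht2]
  exact hu 0

end Pool.Agent.MP72B.Loc
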