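import Pool.Agent.Lib.MP_72e2e6_nt.Sm.B.SpecL

/-!
# MP_72e2e6_nt, `Sm/B`, module LExs: exponent and finiteness of the Selmer group
-/

namespace Pool.Agent.MP72B.Loc

open Finset WeierstrassCurve Polynomial Pool.Agent.MP72S

open Pool.Agent.MP72W (pmap IsCoc LocTriv InSha ShaTwoFin XY px py)

open Pool.Agent.MP72S.C (Wa PA Hyp QC NN al ee act rr pt Plc P2)

open Pool.Agent.MP72S.S (GOk Tht LocC Good rs hgt)

open scoped Classical

private theorem exs_dvs {N : Type} [AddCommGroup N] (h : ∀ x : N, ∃ y : N, 2 • y = x) (n : ℕ) :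
    ∀ x : N, ∃ y : N, 2 ^ n • y = x := by
  induction n with
  | zero => exact fun x => ⟨x, by rw [pow_zero, one_smul]⟩
  | succ n ih =>
    intro x
    obtain ⟨y, hy⟩ := ih x
    obtain ⟨z, hz⟩ := h y
    exact ⟨z, by rw [pow_succ, mul_smul, hz, hy]⟩

private theorem exs_up {A : Type} [AddCommGroup A] {a : A} {m n : ℕ} (hmn : m ≤ n)
    (h : 2 ^ m • a = 0) : 2 ^ n • a = 0 := by
  obtain ⟨k, rfl⟩ := Nat.exists_eq_add_of_le hmn
  rw [pow_add, mul_comm, mul_smul, h, smul_zero]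

section

variable {G N P ι : Type} [Group G] [TopologicalSpace G] [AddCommGroup N] [DistribMulAction G N]
  [Fintype ι] {D : DatL G N P} {x : ι → P}

private theorem exs_tv_add (R R' : N) : D.tv x (R + R') = D.tv x R + D.tv x R' := by
  funext j
  exact map_add (D.lm x j) R R'

private theorem exs_tv_nsmul (n : ℕ) (R : N) : D.tv x (n • R) = n • D.tv x R := by
  funext j
  exact map_nsmul (D.lm x j) n R

private theorem exs_tv_zero : D.tv x (0 : N) = 0 := by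
  funext j
  exact map_zero (D.lm x j)

private theorem exs_bd (hA : Ax D.toDat) (t : D.J ι → N) : ∃ n : ℕ, 2 ^ n • t = 0 := by
  choose k hk using fun j => hA.prim (t j)
  refine ⟨univ.sup k, funext fun j => ?_⟩
  show 2 ^ univ.sup k • t j = 0
  exact exs_up (le_sup (f := k) (mem_univ j)) (hk j)

end

section

variable {G N P ι : Type} [Group G] [TopologicalSpace G] [AddCommGroup N] [DistribMulAction G N]
  [Fintype ι] [DecidableEq ι] {D : DatL G N P} {x : ι → P}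

private theorem exs_one (h3 : MP72B.S_Tin) (hA : AxL D) (hx : D.Ok x) {L : ℕ} (hL : 1 ≤ L)
    (hT : D.Dk x L ≤ D.T x) (n : ℕ) : ∀ t ∈ D.Z x, 2 ^ n • t = 0 →
      ∃ w : N, 2 ^ (L - 1) • t = D.tv x w := by
  induction n with
  | zero =>
    intro t _ h
    rw [pow_zero, one_smul] at h
    exact ⟨0, by rw [h, smul_zero, exs_tv_zero]⟩
  | succ n ih =>
    intro t ht h
    rcases Nat.lt_or_ge n (L - 1) with hn | hn
    · exact ⟨0, by rw [exs_tv_zero]; exact exs_up (by omega) h⟩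
    · have e1 : L - 1 + (n + 1 - L) = n := by omega
      have e2 : L + (n + 1 - L) = n + 1 := by omega
      have h5 : 2 ^ n • t ∈ D.Dk x L := by
        refine ⟨2 ^ (n + 1 - L) • t, ⟨(D.Z x).nsmul_mem ht _, ?_⟩, ?_⟩
        · show 2 ^ L • 2 ^ (n + 1 - L) • t = 0
          rw [← mul_smul, ← pow_add, e2, h]
        · show 2 ^ (L - 1) • 2 ^ (n + 1 - L) • t = 2 ^ n • t
          rw [← mul_smul, ← pow_add, e1]
      obtain ⟨s, hs, hs'⟩ := hT h5
      obtain ⟨w, hw⟩ := exs_dvs hA.ax.dvs n s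
      have hcw : D.tv x w ∈ D.Z x := ⟨_, h3 D hA x hx w⟩
      obtain ⟨u', hu'⟩ := ih (t - D.tv x w) ((D.Z x).sub_mem ht hcw) (by
        rw [smul_sub, hs', ← exs_tv_nsmul, hw, sub_self])
      refine ⟨u' + 2 ^ (L - 1) • w, ?_⟩
      rw [smul_sub, sub_eq_iff_eq_add] at hu'
      rw [hu', exs_tv_add, exs_tv_nsmul]

end

theorem tExs : MP72B.S_Uq → MP72B.S_Tin → MP72B.S_TyU → MP72B.S_Inj → MP72B.S_Fix →
    MP72S.S_Bas → S_Exs := by
  intro h2 h3 h4 _h1 _hF h5 G N P ι _ _ _ _ _ _ D hA x hx L hL hT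
  obtain ⟨q1, -, q3, -, q5⟩ := h2 D hA x hx
  obtain ⟨ty, -⟩ := h4 D hA x hx
  obtain ⟨-, b2, -⟩ := h5 D.toDat hA.ax
  constructor
  · have hfin : {t : D.J ι → N | ∀ j, t j ∈ {y : N | 2 ^ (L - 1) • y = 0}}.Finite :=
      Set.Finite.pi' fun _ => b2 (L - 1)
    refine (hfin.image fun t => D.coc x t).subset ?_
    rintro ψ ⟨⟨t, ht⟩, hψ⟩
    refine ⟨t, ?_, funext fun σ => q1 t ψ ht σ⟩
    have hZ : t ∈ D.Z x := ⟨ψ, ht⟩
    have h6 : D.IsZ x (2 ^ (L - 1) • t) (D.coc x (2 ^ (L - 1) • t)) :=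
      DatL.coc_spec ((D.Z x).nsmul_mem hZ _)
    have h7 : D.coc x (2 ^ (L - 1) • t) = fun _ => 0 := by
      funext σ
      rw [q3 t hZ, q1 t ψ ht σ, hψ σ]
    rw [h7] at h6
    have h8 : 2 ^ (L - 1) • t = 0 := ty _ _ _ h6 (D.isZ_zero x)
    intro j
    exact congrFun h8 j
  · intro t ψ ht
    obtain ⟨n, hn⟩ := exs_bd hA.ax t
    obtain ⟨w, hw⟩ := exs_one h3 hA hx hL hT n t ⟨ψ, ht⟩ hn
    obtain ⟨R, hR⟩ := exs_dvs hA.ax.dvs (L - 1) w
    have h6 : D.IsZ x (D.tv x R) fun σ => tw (D.chi x) σ R - R := h3 D hA x hx R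
    have h7 := ht.add h6.neg
    have h8 : 2 ^ (L - 1) • (t + -D.tv x R) = 0 := by
      rw [smul_add, hw, smul_neg, ← exs_tv_nsmul, hR, add_neg_cancel]
    refine ⟨fun σ => ψ σ + -(tw (D.chi x) σ R - R), R, ⟨_, h7⟩, fun σ => ?_, fun σ => ?_⟩
    · have h9 := q5 _ ⟨_, h7⟩ (L - 1) h8 σ
      rw [q1 _ _ h7 σ] at h9
      exact h9
    · show ψ σ = ψ σ + -(tw (D.chi x) σ R - R) + (tw (D.chi x) σ R - R)
      rw [neg_add_cancel_right]

end Pool.Agent.MP72B.Loc
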