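import Pool.Agent.Lib.MP_72e2e6_nt.Sm.B.SpecL

/-!
# MP_72e2e6_nt, `Sm/B`: LFgr (abelian groups with a height)
-/

namespace Pool.Agent.MP72B.Loc

open Finset WeierstrassCurve Polynomial Pool.Agent.MP72S

open Pool.Agent.MP72W (pmap IsCoc LocTriv InSha ShaTwoFin XY px py)

open Pool.Agent.MP72S.C (Wa PA Hyp QC NN al ee act rr pt Plc P2)

open Pool.Agent.MP72S.S (GOk Tht LocC Good rs hgt)

open scoped Classical

/-- The quotient modulo `2 A` has at most `#S` elements. -/
private theorem fgr_quot (A : Type) [AddCommGroup A] (X : Type) (S : Set X) (hS : S.Finite)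
    (g : A → X) (hg : ∀ e, g e ∈ S) (hgg : ∀ e e', g e = g e' → ∃ c, e - e' = 2 • c) :
    Finite (A ⧸ (nsmulAddMonoidHom (α := A) 2).range) ∧
      Nat.card (A ⧸ (nsmulAddMonoidHom (α := A) 2).range) ≤ S.ncard := by
  let f : (A ⧸ (nsmulAddMonoidHom (α := A) 2).range) → S := fun x => ⟨g x.out, hg _⟩
  have hf : Function.Injective f := by
    intro x y hxy
    have h1 : g x.out = g y.out := congrArg Subtype.val hxy
    obtain ⟨c, hc⟩ := hgg _ _ h1
    have h2 : (QuotientAddGroup.mk x.out : A ⧸ (nsmulAddMonoidHom (α := A) 2).range) =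
        QuotientAddGroup.mk y.out := by
      rw [eq_comm, QuotientAddGroup.eq]
      exact ⟨c, by rw [nsmulAddMonoidHom_apply, ← hc]; abel⟩
    rwa [QuotientAddGroup.out_eq', QuotientAddGroup.out_eq'] at h2
  have : Finite S := hS
  refine ⟨Finite.of_injective f hf, ?_⟩
  have h3 := Nat.card_le_card_of_injective f hf
  rwa [Nat.card_coe_set_eq] at h3

/-- Kernel and cokernel of the multiplication by two on a finite group. -/
private theorem fgr_ker (T : Type) [AddCommGroup T] [Finite T] :
    Nat.card (T ⧸ (nsmulAddMonoidHom (α := T) 2).range) = Nat.card {x : T // x + x = 0} := by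
  set f := nsmulAddMonoidHom (α := T) 2 with hf
  have h1 := AddSubgroup.card_eq_card_quotient_mul_card_addSubgroup f.range
  have h2 := AddSubgroup.card_eq_card_quotient_mul_card_addSubgroup f.ker
  have h3 : Nat.card (T ⧸ f.ker) = Nat.card f.range :=
    Nat.card_congr (QuotientAddGroup.quotientKerEquivRange f).toEquiv
  have h4 : Nat.card f.ker = Nat.card {x : T // x + x = 0} :=
    Nat.card_congr (Equiv.subtypeEquivRight fun x => by
      rw [AddMonoidHom.mem_ker, hf, nsmulAddMonoidHom_apply, two_nsmul])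
  rw [h3, h4, mul_comm] at h2
  rw [h2] at h1
  have h5 : 0 < Nat.card f.range := Nat.card_pos
  exact (Nat.eq_of_mul_eq_mul_right h5 h1).symm

/-- The product of a free group and a finite group. -/
private theorem fgr_prod (A : Type) [AddCommGroup A] (n : ℕ) (T : Type) [AddCommGroup T] [Finite T]
    (φ : A ≃+ (Fin n →₀ ℤ) × T) (h4 : Nat.card {P : A // P + P = 0} = 4)
    [Finite (A ⧸ (nsmulAddMonoidHom (α := A) 2).range)] :
    2 ^ n * 4 ≤ Nat.card (A ⧸ (nsmulAddMonoidHom (α := A) 2).range) := by
  have e1 : Nat.card {x : T // x + x = 0} = 4 := by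
    rw [← h4]
    refine (Nat.card_congr ?_).symm
    refine
      { toFun := fun P => ⟨(φ P.1).2, by rw [← Prod.snd_add, ← map_add, P.2, map_zero]; rfl⟩
        invFun := fun t => ⟨φ.symm (0, t.1), by
          rw [← map_add, Prod.mk_add_mk, t.2, add_zero]
          exact map_zero _⟩
        left_inv := ?_
        right_inv := ?_ }
    · rintro ⟨P, hP⟩
      apply Subtype.ext
      change φ.symm (0, (φ P).2) = P
      have h1 : (φ P).1 = 0 := by
        have h2 : (φ P).1 + (φ P).1 = 0 := by rw [← Prod.fst_add, ← map_add, hP, map_zero]; rfl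
        ext i
        have h3 := DFunLike.congr_fun h2 i
        rw [Finsupp.add_apply, Finsupp.zero_apply] at h3
        rw [Finsupp.zero_apply]
        omega
      rw [← h1, Prod.mk.eta, AddEquiv.symm_apply_apply]
    · rintro ⟨t, ht⟩
      apply Subtype.ext
      change (φ (φ.symm (0, t))).2 = t
      rw [AddEquiv.apply_symm_apply]
  let f : A →+ (Fin n → ZMod 2) × (T ⧸ (nsmulAddMonoidHom (α := T) 2).range) :=
    { toFun := fun x => (fun i => ((φ x).1 i : ZMod 2), QuotientAddGroup.mk (φ x).2)
      map_zero' := by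
        refine Prod.ext ?_ ?_
        · funext i
          simp
        · simp
      map_add' := by
        intro x y
        refine Prod.ext ?_ ?_
        · funext i
          simp
        · simp }
  have hf : Function.Surjective f := by
    rintro ⟨u, t⟩
    obtain ⟨t, rfl⟩ := QuotientAddGroup.mk_surjective t
    refine ⟨φ.symm (Finsupp.equivFunOnFinite.symm fun i => ((u i).val : ℤ), t), ?_⟩
    refine Prod.ext ?_ ?_
    · funext i
      change (((φ (φ.symm (_, t))).1 i : ℤ) : ZMod 2) = u i
      rw [AddEquiv.apply_symm_apply]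
      change ((((u i).val : ℕ) : ℤ) : ZMod 2) = u i
      rw [Int.cast_natCast, ZMod.natCast_zmod_val]
    · change QuotientAddGroup.mk (φ (φ.symm (_, t))).2 = _
      rw [AddEquiv.apply_symm_apply]
  have hker : (nsmulAddMonoidHom (α := A) 2).range ≤ f.ker := by
    rintro _ ⟨x, rfl⟩
    rw [AddMonoidHom.mem_ker, nsmulAddMonoidHom_apply, map_nsmul]
    refine Prod.ext ?_ ?_
    · funext i
      change 2 • (((φ x).1 i : ℤ) : ZMod 2) = 0
      rw [nsmul_eq_mul]
      have : ((2 : ℕ) : ZMod 2) = 0 := rfl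
      rw [this, zero_mul]
    · change 2 • (QuotientAddGroup.mk (φ x).2 : T ⧸ (nsmulAddMonoidHom (α := T) 2).range) = 0
      rw [← QuotientAddGroup.mk_nsmul, QuotientAddGroup.eq_zero_iff]
      exact ⟨_, rfl⟩
  have hF : Function.Surjective (QuotientAddGroup.lift _ f hker) := by
    intro y
    obtain ⟨x, rfl⟩ := hf y
    exact ⟨QuotientAddGroup.mk x, rfl⟩
  have h5 := Nat.card_le_card_of_surjective _ hF
  rw [Nat.card_prod, fgr_ker T, e1] at h5
  have h6 : Nat.card (Fin n → ZMod 2) = 2 ^ n := by simp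
  rwa [h6] at h5

private theorem fgr_fin (A : Type) [AddCommGroup A] (n : ℕ) (T : Type) [AddCommGroup T] [Finite T]
    (φ : A ≃+ (Fin n →₀ ℤ) × T) (h4 : Nat.card {P : A // P + P = 0} = 4)
    [Finite (A ⧸ (nsmulAddMonoidHom (α := A) 2).range)] :
    (Nat.card (A ⧸ (nsmulAddMonoidHom (α := A) 2).range) < 8 → Finite A) ∧
    (Nat.card (A ⧸ (nsmulAddMonoidHom (α := A) 2).range) < 16 →
      ∃ P : A, Finite (A ⧸ AddSubgroup.zmultiples P)) := by
  have h5 := fgr_prod A n T φ h4
  have hzero : n = 0 → Finite A := by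
    rintro rfl
    have : Finite (Fin 0 →₀ ℤ) := Finite.of_subsingleton
    exact Finite.of_equiv _ φ.symm.toEquiv
  refine ⟨fun h => hzero ?_, fun h => ?_⟩
  · rcases n with _ | n
    · rfl
    · exfalso
      rw [pow_succ] at h5
      have := Nat.one_le_two_pow (n := n)
      omega
  rcases n with _ | _ | n
  · have := hzero rfl
    exact ⟨0, inferInstance⟩
  · refine ⟨φ.symm (Finsupp.single 0 1, 0), ?_⟩
    refine Finite.of_surjective (fun t : T => (QuotientAddGroup.mk (φ.symm (0, t)) :
      A ⧸ AddSubgroup.zmultiples (φ.symm (Finsupp.single 0 1, 0)))) ?_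
    intro x
    obtain ⟨x, rfl⟩ := QuotientAddGroup.mk_surjective x
    refine ⟨(φ x).2, ?_⟩
    rw [QuotientAddGroup.eq]
    refine ⟨(φ x).1 0, ?_⟩
    apply φ.injective
    simp only [map_zsmul, map_add, map_neg, AddEquiv.apply_symm_apply]
    refine Prod.ext ?_ ?_
    · ext i
      have : i = 0 := Fin.ext (by have := i.2; simpa using this)
      subst this
      simp
    · simp
  · exfalso
    rw [pow_add] at h5
    have := Nat.one_le_two_pow (n := n)
    omega

/-- Finitely generated abelian groups with four points of order two. -/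
private theorem fgr_main (A : Type) [AddCommGroup A] [AddGroup.FG A]
    (h4 : Nat.card {P : A // P + P = 0} = 4)
    [Finite (A ⧸ (nsmulAddMonoidHom (α := A) 2).range)] :
    (Nat.card (A ⧸ (nsmulAddMonoidHom (α := A) 2).range) < 8 → Finite A) ∧
    (Nat.card (A ⧸ (nsmulAddMonoidHom (α := A) 2).range) < 16 →
      ∃ P : A, Finite (A ⧸ AddSubgroup.zmultiples P)) := by
  obtain ⟨n, ι, _, p, hp, e, ⟨φ⟩⟩ := AddCommGroup.equiv_free_prod_directSum_zmod A
  have hne : ∀ i, NeZero (p i ^ e i) := fun i => ⟨pow_ne_zero _ (hp i).ne_zero⟩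
  have hT : Finite (DirectSum ι fun i : ι => ZMod (p i ^ e i)) :=
    Finite.of_equiv (∀ i, ZMod (p i ^ e i)) (DirectSum.addEquivProd _).symm.toEquiv
  exact fgr_fin A n _ φ h4

theorem tFgr : S_Fgr := by
  intro A _ h B hB hC hN h4 X S hS g hg hgg
  obtain ⟨hfin, hcard⟩ := fgr_quot A X S hS g hg hgg
  have hfg : AddGroup.FG A := by
    choose C hC using hC
    have : Northcott (fun x : A => (h x : ℝ)) := by
      refine ⟨fun b => (hN ⌊b⌋₊).subset fun x hx => ?_⟩
      exact Nat.le_floor hx
    refine AddCommGroup.fg_of_descent (n := 2) (h := fun x : A => (h x : ℝ)) (a := 2) (b := 4)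
      (c₀ := B) (c := fun x => (C (-x) : ℝ)) (by norm_num) (by norm_num) ?_ ?_ ?_
    · exact AddSubgroup.finiteIndex_of_finite_quotient
    · intro x y
      have h1 := hC (-x) (x + y)
      rw [add_neg_cancel_comm] at h1
      exact_mod_cast h1
    · intro x
      have h1 := hB x
      rw [two_nsmul]
      have h2 : (4 : ℝ) * h x ≤ h (x + x) + B := by exact_mod_cast h1
      linarith
  obtain ⟨m1, m2⟩ := fgr_main A h4
  exact ⟨fun h => m1 (hcard.trans_lt h), fun h => m2 (hcard.trans_lt h)⟩

end Pool.Agent.MP72B.Loc
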