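import Pool.Agent.Lib.MP_72e2e6_nt.Sm.B.SpecL

/-!
# MP_72e2e6_nt, `Sm/B`, local theory: module Itg (torsion points are integral)
-/

set_option autoImplicit false

namespace Pool.Agent.MP72B.Loc

open Finset WeierstrassCurve Polynomial Pool.Agent.MP72S

open Pool.Agent.MP72W (pmap IsCoc LocTriv InSha ShaTwoFin XY px py)

open Pool.Agent.MP72S.C (Wa PA Hyp QC NN al ee act rr pt Plc P2)

open Pool.Agent.MP72S.S (GOk Tht LocC Good rs hgt)

open scoped Classical

private theorem itg_px {K : Type} [Field K] {a : Fin 3 → K} {L : Type} [Field L] [Algebra K L]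
    {P : PA a L} {x y : L} (h : XY P x y) : px P = x := by
  obtain ⟨h', e⟩ := h
  rw [e]
  rfl

private theorem itg_num (A B C M : ℝ) (hA : 0 ≤ A) (hB : 0 ≤ B) (hC : 0 ≤ C) (hA2 : A ^ 2 ≤ M)
    (hB2 : B ^ 2 ≤ M) (hC2 : C ^ 2 ≤ M) : max A B * max A C ≤ M := by
  have h1 : max A B ≤ √M := max_le (Real.le_sqrt_of_sq_le hA2) (Real.le_sqrt_of_sq_le hB2)
  have h2 : max A C ≤ √M := max_le (Real.le_sqrt_of_sq_le hA2) (Real.le_sqrt_of_sq_le hC2)
  have h3 : 0 ≤ M := (sq_nonneg A).trans hA2
  calc max A B * max A C ≤ √M * √M :=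
        mul_le_mul h1 h2 (le_max_of_le_left hA) (Real.sqrt_nonneg _)
    _ = M := Real.mul_self_sqrt h3

theorem tItg : C.S_Vee → C.S_Rrq → S_Itg := by
  intro h2 h3 K _ a L _ _ hyp v hv M hM
  obtain ⟨v1, v2, -⟩ := h2 K a L hyp
  have key : ∀ (n : ℕ) (P : PA a L), 2 ^ n • P = 0 → P ≠ 0 →
      ∀ i, v (px P - al a L i) ≤ M := by
    intro n
    induction n with
    | zero =>
      intro P hP hne
      rw [pow_zero, one_nsmul] at hP
      exact absurd hP hne
    | succ n ih =>
      intro P hP hne i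
      by_cases hPP : P + P = 0
      · obtain ⟨j, hj⟩ := ((v2 P).1 hPP).resolve_left hne
        rw [hj, itg_px (v1 j)]
        exact hM j i
      · have hn : 2 ^ n • (P + P) = 0 := by
          rw [← two_nsmul, ← mul_nsmul', ← pow_succ]
          exact hP
        have hr := ih (P + P) hn hPP
        obtain ⟨-, -, r3, -, r5, -⟩ := h3 K a L hyp P hPP
        have hri : ∀ i, v (rr P i) ^ 2 ≤ M := by
          intro i
          rw [← map_pow, r3 i]
          exact hr i
        rw [r5 i, map_mul]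
        refine le_trans (mul_le_mul (hv _ _) (hv _ _) (v.nonneg _)
          (le_max_of_le_left (v.nonneg _))) ?_
        exact itg_num _ _ _ M (v.nonneg _) (v.nonneg _) (v.nonneg _) (hri _) (hri _) (hri _)
  rintro P ⟨n, hn⟩ hne
  exact key n P hn hne

end Pool.Agent.MP72B.Loc
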