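import Pool.Agent.Lib.MP_72e2e6_nt.Sm.B.SpecL

/-!
# MP_72e2e6_nt, `Sm/B`, part L: Ldv, local divisibility
-/

namespace Pool.Agent.MP72B.Loc

open Finset WeierstrassCurve Polynomial Pool.Agent.MP72S

open Pool.Agent.MP72W (pmap IsCoc LocTriv InSha ShaTwoFin XY px py)

open Pool.Agent.MP72S.C (Wa PA Hyp QC NN al ee act rr pt Plc P2)

open Pool.Agent.MP72S.S (GOk Tht LocC Good rs hgt)

open scoped Classical

private theorem ldv_grp {A : Type} [AddCommGroup A] (P : A) (k n : ℕ) (c : ℤ) (hc : Odd c)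
    (R₂ : A) (h : 2 ^ (n + k) • R₂ = (c * 2 ^ n) • P) :
    ∃ (T R : A) (m : ℕ), 2 ^ m • T = 0 ∧ P = T + 2 ^ k • R := by
  obtain ⟨m, hm⟩ := hc
  have hcop : IsCoprime c ((2 : ℤ) ^ k) := by
    apply IsCoprime.pow_right
    exact ⟨1, -m, by rw [hm]; ring⟩
  obtain ⟨u, w, huw⟩ := hcop
  have h' : ((2 : ℤ) ^ (n + k)) • R₂ = (c * 2 ^ n) • P := by
    rw [← h, ← natCast_zsmul]
    push_cast
    rfl
  refine ⟨u • (c • P - ((2 : ℤ) ^ k) • R₂), u • R₂ + w • P, n, ?_, ?_⟩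
  · have e : ((2 : ℤ) ^ n) • (c • P - ((2 : ℤ) ^ k) • R₂) = 0 := by
      rw [smul_sub, smul_smul, smul_smul, ← pow_add, h', mul_comm c, sub_self]
    have e2 : (2 ^ n : ℕ) • (u • (c • P - ((2 : ℤ) ^ k) • R₂)) =
        ((2 : ℤ) ^ n) • (u • (c • P - ((2 : ℤ) ^ k) • R₂)) := by
      rw [← natCast_zsmul]
      push_cast
      rfl
    rw [e2, smul_comm, e, smul_zero]
  · have e2 : (2 ^ k : ℕ) • (u • R₂ + w • P) = ((2 : ℤ) ^ k) • (u • R₂ + w • P) := by
      rw [← natCast_zsmul]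
      push_cast
      rfl
    have e3 : P = (u * c + w * 2 ^ k) • P := by rw [huw, one_smul]
    rw [e2]
    calc P = (u * c + w * 2 ^ k) • P := e3
      _ = u • (c • P - ((2 : ℤ) ^ k) • R₂) + ((2 : ℤ) ^ k) • (u • R₂ + w • P) := by module

private theorem ldv_odd {A : Type} [AddCommGroup A] (near : A → Prop) (P : A)
    (h : (∃ n : ℕ, near (2 ^ n • P)) ∨ ∃ n n' : ℕ, n < n' ∧
      (near (2 ^ n • P + 2 ^ n' • P) ∨ near (2 ^ n • P - 2 ^ n' • P))) :
    ∃ (n : ℕ) (c : ℤ), Odd c ∧ near ((c * 2 ^ n) • P) := by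
  have e1 : ∀ n : ℕ, (2 ^ n : ℕ) • P = ((2 : ℤ) ^ n) • P := by
    intro n
    rw [← natCast_zsmul]
    push_cast
    rfl
  rcases h with ⟨n, hn⟩ | ⟨n, n', hlt, hn⟩
  · refine ⟨n, 1, odd_one, ?_⟩
    rw [one_mul, ← e1]
    exact hn
  · obtain ⟨m, rfl⟩ := Nat.exists_eq_add_of_lt hlt
    rw [e1, e1] at hn
    rcases hn with hn | hn
    · refine ⟨n, 1 + 2 ^ (m + 1), ?_, ?_⟩
      · exact ⟨2 ^ m, by ring⟩
      · have : ((1 + 2 ^ (m + 1)) * 2 ^ n : ℤ) • P =
            ((2 : ℤ) ^ n) • P + ((2 : ℤ) ^ (n + m + 1)) • P := by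
          rw [← add_smul]
          refine congrArg (fun z : ℤ => z • P) ?_
          ring
        rw [this]
        exact hn
    · refine ⟨n, 1 - 2 ^ (m + 1), ?_, ?_⟩
      · exact ⟨- 2 ^ m, by ring⟩
      · have : ((1 - 2 ^ (m + 1)) * 2 ^ n : ℤ) • P =
            ((2 : ℤ) ^ n) • P - ((2 : ℤ) ^ (n + m + 1)) • P := by
          rw [← sub_smul]
          refine congrArg (fun z : ℤ => z • P) ?_
          ring
        rw [this]
        exact hn

private theorem ldv_iter (hE : S_E1d) {K : Type} [Field K] (a : Fin 3 → K) (L : Type)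
    [NormedField L] [CompleteSpace L] [IsUltrametricDist L] [Algebra K L] (hyp : Hyp a L)
    (h2 : ‖(2 : L)‖ = 1) (M : ℝ) (hM : ∀ i j, ‖al a L i - al a L j‖ ≤ M) (n : ℕ) :
    ∀ P : PA a L, (P = 0 ∨ ∀ i, M < ‖px P - al a L i‖) → ∃ Q : PA a L, 2 ^ n • Q = P := by
  induction n with
  | zero => exact fun P _ => ⟨P, by rw [pow_zero, one_smul]⟩
  | succ n ih =>
    intro P hP
    obtain ⟨Q, hQ, e⟩ := hE K a L hyp h2 M hM P hP
    obtain ⟨Q', e'⟩ := ih Q hQ
    exact ⟨Q', by rw [pow_succ', mul_smul, e', e]⟩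

private theorem ldv_core (hG : C.S_Grp) (hD : S_Dsc) (hE : S_E1d) {K : Type} [Field K]
    (a : Fin 3 → K) (L : Type)
    [NormedField L] [CompleteSpace L] [IsUltrametricDist L] [Algebra K L] (hyp : Hyp a L)
    (h2 : ‖(2 : L)‖ = 1)
    (hpg : ∀ (M ε : ℝ), 0 < ε → ∀ x : ℕ → L, (∀ n, ‖x n‖ ≤ M) →
      ∃ n n', n < n' ∧ ‖x n - x n'‖ < ε) : Ldp a L := by
  intro k P
  set M : ℝ := ∑ i, ∑ j, ‖al a L i - al a L j‖ with hMd
  have hM : ∀ i j, ‖al a L i - al a L j‖ ≤ M := by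
    intro i j
    refine le_trans ?_ (single_le_sum (f := fun i => ∑ j, ‖al a L i - al a L j‖)
      (fun i _ => sum_nonneg fun j _ => norm_nonneg _) (mem_univ i))
    exact single_le_sum (f := fun j => ‖al a L i - al a L j‖) (fun j _ => norm_nonneg _)
      (mem_univ j)
  obtain ⟨ε, hε, hdsc⟩ := hD K a L hyp (NormedField.toAbsoluteValue L)
    IsUltrametricDist.isNonarchimedean_norm h2 M
  have hdsc' : ∀ P Q : PA a L, P ≠ 0 → Q ≠ 0 → px P ≠ px Q → ‖px P - px Q‖ < ε →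
      (∀ i, M < ‖px (P + Q) - al a L i‖) ∨ ∀ i, M < ‖px (P - Q) - al a L i‖ := hdsc
  set near : PA a L → Prop := fun P => P = 0 ∨ ∀ i, M < ‖px P - al a L i‖ with hnear
  have hcl : (∃ n : ℕ, near (2 ^ n • P)) ∨ ∃ n n' : ℕ, n < n' ∧
      (near (2 ^ n • P + 2 ^ n' • P) ∨ near (2 ^ n • P - 2 ^ n' • P)) := by
    by_cases hall : ∃ n : ℕ, near (2 ^ n • P)
    · exact Or.inl hall
    · right
      push Not at hall
      have hbd : ∀ n : ℕ, ‖px (2 ^ n • P)‖ ≤ M + ∑ i, ‖al a L i‖ := by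
        intro n
        have h3 := hall n
        rw [hnear] at h3
        simp only [not_or, not_forall, not_lt] at h3
        obtain ⟨-, i, hi⟩ := h3
        have h4 : px (2 ^ n • P) = (px (2 ^ n • P) - al a L i) + al a L i := by ring
        rw [h4]
        refine (norm_add_le _ _).trans (add_le_add hi ?_)
        exact single_le_sum (f := fun j => ‖al a L j‖) (fun j _ => norm_nonneg _) (mem_univ i)
      obtain ⟨n, n', hlt, hlt'⟩ := hpg _ ε hε (fun n => px (2 ^ n • P)) hbd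
      have hn0 : ∀ n : ℕ, 2 ^ n • P ≠ 0 := by
        intro n h3
        exact hall n (Or.inl h3)
      refine ⟨n, n', hlt, ?_⟩
      by_cases heq : px (2 ^ n • P) = px (2 ^ n' • P)
      · rcases (hG K a L hyp).2.2.2.2.2.1 _ _ (hn0 n) (hn0 n') heq with h5 | h5
        · right
          left
          rw [h5, sub_self]
        · left
          left
          rw [h5, add_neg_cancel]
      · rcases hdsc' _ _ (hn0 n) (hn0 n') heq hlt' with h5 | h5
        · exact Or.inl (Or.inr h5)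
        · exact Or.inr (Or.inr h5)
  obtain ⟨n, c, hc, hn⟩ := ldv_odd near P hcl
  obtain ⟨R₂, hR₂⟩ := ldv_iter hE a L hyp h2 M hM (n + k) _ hn
  exact ldv_grp P k n c hc R₂ hR₂

theorem tLdv (hG : C.S_Grp) (hLc : D.S_Lc) (hD : S_Dsc) (hP : S_Pgk) (hE : S_E1d) : S_Ldv := by
  intro F _ _ hF2 v d ϖ R hLF a hyp
  have hLc' := hLc F v d ϖ R hLF
  have : IsUltrametricDist v.Completion := hLc'.2.2.1
  have h2 : ‖(2 : v.Completion)‖ = 1 := by
    have e : (2 : v.Completion) = algebraMap (RatFunc F) v.Completion (RatFunc.C 2) := by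
      rw [map_ofNat, map_ofNat]
    rw [e, hLc'.1]
    exact hLF.one 2 hF2
  have h20 : (2 : v.Completion) ≠ 0 := by
    intro h0
    rw [h0, norm_zero] at h2
    exact zero_ne_one h2
  exact ldv_core hG hD hE a v.Completion ⟨h20, hyp.2⟩ h2 (hP F v d ϖ R hLF)

end Pool.Agent.MP72B.Loc
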