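import Pool.Agent.Lib.MP_72e2e6_nt.Sm.B.SpecL

/-!
# MP_72e2e6_nt, `Sm/B`, part L: homomorphisms with a given finite kernel
-/

namespace Pool.Agent.MP72B.Loc

open Finset WeierstrassCurve Polynomial Pool.Agent.MP72S

open Pool.Agent.MP72W (pmap IsCoc LocTriv InSha ShaTwoFin XY px py)

open Pool.Agent.MP72S.C (Wa PA Hyp QC NN al ee act rr pt Plc P2)

open Pool.Agent.MP72S.S (GOk Tht LocC Good rs hgt)

open scoped Classical

/-- Compatible sequences. -/
private theorem lme_up {N : Type} [AddCommGroup N] (u : ℕ → N) (hu : ∀ n, 2 • u (n + 1) = u n)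
    (n m : ℕ) : (2 ^ m : ℤ) • u (n + m) = u n := by
  induction m with
  | zero => simp
  | succ m ih =>
    have h1 : (2 : ℤ) • u (n + m + 1) = u (n + m) := by
      rw [← hu (n + m)]
      exact natCast_zsmul _ 2
    rw [pow_succ, mul_smul, ← add_assoc, h1, ih]

/-- The coordinates determine the image. -/
private theorem lme_wd {N N' : Type} [AddCommGroup N] [AddCommGroup N'] (u w : ℕ → N)
    (u' w' : ℕ → N') (hu : ∀ n, 2 • u (n + 1) = u n) (hw : ∀ n, 2 • w (n + 1) = w n)
    (hu' : ∀ n, 2 • u' (n + 1) = u' n) (hw' : ∀ n, 2 • w' (n + 1) = w' n)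
    (hu0 : u' 0 = 0) (hw0 : w' 0 = 0)
    (hc : ∀ (n : ℕ) (k l : ℤ), k • u n + l • w n = 0 → (2 ^ n : ℤ) ∣ k ∧ (2 ^ n : ℤ) ∣ l)
    (n m : ℕ) (k l k' l' : ℤ) (h : k • u n + l • w n = k' • u m + l' • w m) :
    k • u' n + l • w' n = k' • u' m + l' • w' m := by
  have e1 := lme_up u hu n m
  have e2 := lme_up w hw n m
  have e3 := lme_up u hu m n
  have e4 := lme_up w hw m n
  have f1 := lme_up u' hu' n m
  have f2 := lme_up w' hw' n m
  have f3 := lme_up u' hu' m n
  have f4 := lme_up w' hw' m n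
  rw [add_comm m n] at e3 e4 f3 f4
  rw [← e1, ← e2, ← e3, ← e4] at h
  have h1 : (k * 2 ^ m - k' * 2 ^ n) • u (n + m) + (l * 2 ^ m - l' * 2 ^ n) • w (n + m) = 0 := by
    rw [sub_smul, sub_smul, mul_smul, mul_smul, mul_smul, mul_smul]
    rw [show ∀ A B C D : N, A - B + (C - D) = (A + C) - (B + D) by intros; abel, h, sub_self]
  obtain ⟨⟨c, hc1⟩, ⟨c', hc2⟩⟩ := hc _ _ _ h1
  have z1 : (2 ^ (n + m) : ℤ) • u' (n + m) = 0 := by
    have := lme_up u' hu' 0 (n + m)
    rw [zero_add] at this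
    rw [this, hu0]
  have z2 : (2 ^ (n + m) : ℤ) • w' (n + m) = 0 := by
    have := lme_up w' hw' 0 (n + m)
    rw [zero_add] at this
    rw [this, hw0]
  rw [← f1, ← f2, ← f3, ← f4, ← sub_eq_zero]
  have h2 : k • (2 ^ m : ℤ) • u' (n + m) + l • (2 ^ m : ℤ) • w' (n + m) -
      (k' • (2 ^ n : ℤ) • u' (n + m) + l' • (2 ^ n : ℤ) • w' (n + m)) =
      (k * 2 ^ m - k' * 2 ^ n) • u' (n + m) + (l * 2 ^ m - l' * 2 ^ n) • w' (n + m) := by
    rw [sub_smul, sub_smul, mul_smul, mul_smul, mul_smul, mul_smul]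
    abel
  rw [h2, hc1, hc2, mul_comm _ c, mul_comm _ c', mul_smul, mul_smul, z1, z2, smul_zero, smul_zero,
    add_zero]

/-- The homomorphism with given values on a basis. -/
private theorem lme_hom {N N' : Type} [AddCommGroup N] [AddCommGroup N'] (u w : ℕ → N)
    (u' w' : ℕ → N') (hu : ∀ n, 2 • u (n + 1) = u n) (hw : ∀ n, 2 • w (n + 1) = w n)
    (hu' : ∀ n, 2 • u' (n + 1) = u' n) (hw' : ∀ n, 2 • w' (n + 1) = w' n)
    (hu0 : u' 0 = 0) (hw0 : w' 0 = 0)
    (hc : ∀ (n : ℕ) (k l : ℤ), k • u n + l • w n = 0 → (2 ^ n : ℤ) ∣ k ∧ (2 ^ n : ℤ) ∣ l)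
    (hs : ∀ x : N, ∃ (n : ℕ) (k l : ℤ), x = k • u n + l • w n) :
    ∃ g : N →+ N', ∀ (n : ℕ) (k l : ℤ), g (k • u n + l • w n) = k • u' n + l • w' n := by
  choose n k l h using hs
  have wd := lme_wd u w u' w' hu hw hu' hw' hu0 hw0 hc
  refine ⟨⟨⟨fun x => k x • u' (n x) + l x • w' (n x), ?_⟩, ?_⟩, ?_⟩
  · have h0 := wd (n 0) 0 (k 0) (l 0) 0 0 (by rw [← h 0]; simp)
    rw [h0]
    simp
  · intro x y
    have f1 := lme_up u' hu' (n x) (n y)
    have f2 := lme_up w' hw' (n x) (n y)
    have f3 := lme_up u' hu' (n y) (n x)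
    have f4 := lme_up w' hw' (n y) (n x)
    have e1 := lme_up u hu (n x) (n y)
    have e2 := lme_up w hw (n x) (n y)
    have e3 := lme_up u hu (n y) (n x)
    have e4 := lme_up w hw (n y) (n x)
    rw [add_comm (n y) (n x)] at e3 e4 f3 f4
    have h1 := wd (n (x + y)) (n x + n y) (k (x + y)) (l (x + y))
      (k x * 2 ^ n y + k y * 2 ^ n x) (l x * 2 ^ n y + l y * 2 ^ n x) ?_
    · show k (x + y) • u' (n (x + y)) + l (x + y) • w' (n (x + y)) =
        (k x • u' (n x) + l x • w' (n x)) + (k y • u' (n y) + l y • w' (n y))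
      rw [h1, add_smul, add_smul, mul_smul, mul_smul, mul_smul, mul_smul, f1, f2, f3, f4]
      abel
    · rw [← h (x + y), add_smul, add_smul, mul_smul, mul_smul, mul_smul, mul_smul, e1, e2, e3, e4]
      conv_lhs => rw [h x, h y]
      abel
  · intro m k' l'
    exact wd _ _ _ _ _ _ (h (k' • u m + l' • w m)).symm

/-- A surjective homomorphism with a kernel of order two. -/
private theorem lme_two {N : Type} [AddCommGroup N] (p2 : P2 N) (bs2 : C.S_Bs2) (u₁ : N)
    (h1 : u₁ ≠ 0) (h2 : 2 • u₁ = 0) :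
    ∃ g : N →+ N, Function.Surjective g ∧ ∀ x, g x = 0 ↔ x = 0 ∨ x = u₁ := by
  obtain ⟨-, b2, b3⟩ := bs2 N p2
  -- the sequence of halves
  obtain ⟨u, u0, u1, us⟩ : ∃ u : ℕ → N, u 0 = 0 ∧ u 1 = u₁ ∧ ∀ n, 2 • u (n + 1) = u n := by
    choose hv hhv using p2.dvs
    refine ⟨fun n => Nat.rec 0 (fun n y => if n = 0 then u₁ else hv y) n, rfl, rfl, ?_⟩
    intro n
    rcases Nat.eq_zero_or_pos n with rfl | hn
    · exact h2
    · show 2 • (if n = 0 then u₁ else hv _) = _
      rw [if_neg hn.ne']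
      exact hhv _
  obtain ⟨w, hb⟩ := b2 u u0 (by rw [u1]; exact h1) us
  obtain ⟨b4, b5, b6, -, -⟩ := b3 u w hb
  have hs : ∀ x : N, ∃ (n : ℕ) (k l : ℤ), x = k • u n + l • w n := by
    intro x
    obtain ⟨n, hn⟩ := p2.prim x
    obtain ⟨k, l, hkl⟩ := b5 n x hn
    exact ⟨n, k, l, by rw [natCast_zsmul, natCast_zsmul]; exact hkl⟩
  obtain ⟨g, hg⟩ := lme_hom u w (fun n => u (n - 1)) w us hb.ws (fun n => by
    rcases n with _ | n
    · show 2 • u 0 = u 0
      rw [u0, smul_zero]
    · exact us n) hb.ws u0 hb.w0 b6 hs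
  refine ⟨g, ?_, ?_⟩
  · intro y
    obtain ⟨n, k, l, rfl⟩ := hs y
    have e2 := lme_up w hb.ws n 1
    refine ⟨k • u (n + 1) + (l * 2) • w (n + 1), ?_⟩
    rw [hg]
    show k • u n + (l * 2) • w (n + 1) = k • u n + l • w n
    rw [mul_smul]
    rw [pow_one] at e2
    rw [e2]
  · intro x
    constructor
    · intro hx
      obtain ⟨n, k, l, rfl⟩ := hs x
      rcases n with _ | n
      · left
        rw [u0, hb.w0, smul_zero, smul_zero, add_zero]
      · rw [hg] at hx
        have hx' : k • u n + l • w (n + 1) = 0 := hx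
        have e1 := lme_up u us n 1
        rw [pow_one] at e1
        rw [← e1, ← mul_smul] at hx'
        obtain ⟨⟨c, hc⟩, ⟨c', hc'⟩⟩ := b6 _ _ _ hx'
        have z2 : (2 ^ (n + 1) : ℤ) • w (n + 1) = 0 := by
          have := lme_up w hb.ws 0 (n + 1)
          rw [zero_add] at this
          rw [this, hb.w0]
        have hk : k = c * 2 ^ n := by
          rw [pow_succ] at hc
          have : k * 2 = (c * 2 ^ n) * 2 := by rw [hc]; ring
          exact mul_right_cancel₀ two_ne_zero this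
        have hu1 : (2 ^ n : ℤ) • u (n + 1) = u₁ := by
          have := lme_up u us 1 n
          rw [add_comm 1 n] at this
          rw [this, u1]
        rw [hc', mul_comm _ c', mul_smul c', z2, smul_zero, add_zero, hk, mul_smul, hu1]
        rcases Int.even_or_odd c with ⟨e, he⟩ | ⟨e, he⟩
        · left
          rw [he, ← two_mul, mul_comm, mul_smul, show (2 : ℤ) • u₁ = 0 from by
            rw [← h2]; exact natCast_zsmul _ 2, smul_zero]
        · right
          rw [he, add_smul, mul_comm, mul_smul, show (2 : ℤ) • u₁ = 0 from by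
            rw [← h2]; exact natCast_zsmul _ 2, smul_zero, zero_add, one_smul]
    · rintro (rfl | rfl)
      · exact map_zero g
      · have := hg 1 1 0
        simp only [one_smul, zero_smul, add_zero, u1] at this
        rw [this]
        exact u0

/-- **Lme**. Homomorphisms with a given finite kernel. -/
theorem tLme (bs2 : C.S_Bs2) : S_Lme := by
  intro N _ p2 T hT
  obtain ⟨n, hn⟩ : ∃ n, Nat.card T = n := ⟨_, rfl⟩
  induction n using Nat.strong_induction_on generalizing T with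
  | _ n ih =>
    by_cases hT0 : ∀ x ∈ T, x = 0
    · refine ⟨AddMonoidHom.id N, Function.surjective_id, fun x => ?_⟩
      constructor
      · intro h
        have h' : x = 0 := h
        rw [h']
        exact T.zero_mem
      · intro h
        exact hT0 x h
    · push Not at hT0
      obtain ⟨y, hyT, hy0⟩ := hT0
      -- an element of order two
      obtain ⟨u₁, hu₁T, hu₁0, hu₁2⟩ : ∃ u₁ ∈ T, u₁ ≠ 0 ∧ 2 • u₁ = 0 := by
        have hex : ∃ k : ℕ, 2 ^ k • y = 0 := p2.prim y
        have h1 := Nat.find_spec hex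
        rcases Nat.eq_zero_or_pos (Nat.find hex) with h0 | h0
        · rw [h0, pow_zero, one_smul] at h1
          exact absurd h1 hy0
        · refine ⟨2 ^ (Nat.find hex - 1) • y, T.nsmul_mem hyT _, ?_, ?_⟩
          · exact Nat.find_min hex (by omega)
          · rw [← mul_smul, ← pow_succ', Nat.sub_add_cancel h0]
            exact h1
      obtain ⟨g, hg, hgk⟩ := lme_two p2 bs2 u₁ hu₁0 hu₁2
      have hfin : Finite (T.map g) := by
        have : ((T.map g : AddSubgroup N) : Set N) = g '' (T : Set N) := AddSubgroup.coe_map g T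
        exact Set.Finite.subset ((Set.toFinite (T : Set N)).image g) this.le
      have hlt : Nat.card (T.map g) < n := by
        rw [← hn]
        by_contra hle
        rw [not_lt] at hle
        let φ : T → T.map g := fun x => ⟨g x.1, ⟨x.1, x.2, rfl⟩⟩
        have hφ : Function.Surjective φ := by
          rintro ⟨z, ⟨x, hx, rfl⟩⟩
          exact ⟨⟨x, hx⟩, rfl⟩
        have hb := Function.Surjective.bijective_of_nat_card_le hφ hle
        have h3 : φ ⟨u₁, hu₁T⟩ = φ ⟨0, T.zero_mem⟩ := by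
          apply Subtype.ext
          show g u₁ = g 0
          rw [map_zero]
          exact (hgk u₁).2 (Or.inr rfl)
        exact hu₁0 (congrArg Subtype.val (hb.1 h3))
      obtain ⟨f', hf', hfk⟩ := ih _ hlt (T.map g) hfin rfl
      refine ⟨f'.comp g, hf'.comp hg, fun x => ?_⟩
      show f' (g x) = 0 ↔ x ∈ T
      rw [hfk]
      constructor
      · rintro ⟨z, hz, hzx⟩
        have h4 : g (x - z) = 0 := by
          rw [map_sub, ← hzx, sub_self]
        rcases (hgk _).1 h4 with h5 | h5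
        · rw [sub_eq_zero.1 h5]
          exact hz
        · have h6 : x = u₁ + z := by rw [← h5]; abel
          rw [h6]
          exact T.add_mem hu₁T hz
      · intro hx
        exact ⟨x, hx, rfl⟩

end Pool.Agent.MP72B.Loc
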