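import Pool.Agent.Lib.MP_72e2e6_nt.Sm.B.SpecL

/-!
# MP_72e2e6_nt, `Sm/B`, module LMain: the theorem of part L
-/

namespace Pool.Agent.MP72B.Loc

open Finset WeierstrassCurve Polynomial Pool.Agent.MP72S

open Pool.Agent.MP72W (pmap IsCoc LocTriv InSha ShaTwoFin XY px py)

open Pool.Agent.MP72S.C (Wa PA Hyp QC NN al ee act rr pt Plc P2)

open Pool.Agent.MP72S.S (GOk Tht LocC Good rs hgt)

open scoped Classical

private theorem main_tr {K : Type} [Field K] (W W' : WeierstrassCurve K) (h : W = W')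
    (h1 : ∃ e : W.toAffine.Point, Finite (W.toAffine.Point ⧸ AddSubgroup.zmultiples e)) :
    ∃ e : W'.toAffine.Point, Finite (W'.toAffine.Point ⧸ AddSubgroup.zmultiples e) := by
  subst h
  exact h1

private theorem main_four {K : Type} [Field K] (h : MP72S.C.S_Vee) (b : Fin 3 → K)
    (hb : Hyp b K) : Nat.card {P : PA b K // P + P = 0} = 4 := by
  obtain ⟨-, v2, v3, v4, -⟩ := h K b K hb
  let f : Option (Fin 3) → {P : PA b K // P + P = 0} := fun o =>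
    match o with
    | none => ⟨0, add_zero _⟩
    | some i => ⟨ee b i, (v2 _).mpr (Or.inr ⟨i, rfl⟩)⟩
  have hf : Function.Bijective f := by
    constructor
    · rintro (_ | i) (_ | j) hij
      · rfl
      · exact absurd (congrArg Subtype.val hij).symm (v3 j)
      · exact absurd (congrArg Subtype.val hij) (v3 i)
      · rw [v4 i j (congrArg Subtype.val hij)]
    · rintro ⟨P, hP⟩
      rcases (v2 P).mp hP with rfl | ⟨i, rfl⟩
      · exact ⟨none, rfl⟩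
      · exact ⟨some i, rfl⟩
  rw [← Nat.card_congr (Equiv.ofBijective f hf)]
  simp

theorem tMain : MP72S.S.S_Kum → MP72S.S.S_Twt → S_Typ → S_Sha → S_Wmw → MP72S.S.S_Hdb → S_Htr →
    S_Fgr → MP72S.C.S_Vee → MP72B.S_Dk1 → S_Main := by
  intro h1 h2 h3 h4 h5 h6 h7 h8 h9 h10 F _ _ a Q P ι _ _ _ D av π d₀ hG hA x hx hT hGd L hL
  have : Normal (RatFunc F) Q := hG.nrm
  have hxi : ∀ i, x i ≠ D.inf := fun i h => hx.nS i (h ▸ hA.ax.infS)
  obtain ⟨hdd, δ, hδ, hδg⟩ := h1 (RatFunc F) a Q P ι D.toDat av π d₀ hG x hxi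
  obtain ⟨θ, hθ⟩ := h2 (RatFunc F) a Q hG.hyp hG.qc _ hdd δ (D.chi x) hδ hδg
  have hty := h3 (RatFunc F) a Q P ι D av π d₀ hG x _ θ hdd hθ hT hGd
  have hb : Hyp (fun i => (d₀ * ∏ k, π (x k)) * a i) (RatFunc F) :=
    ⟨hG.hyp.1, fun i j h => hG.hyp.2 (mul_left_cancel₀ hdd h)⟩
  obtain ⟨g, hg1, hg2⟩ := h5 (RatFunc F) (fun i => (d₀ * ∏ k, π (x k)) * a i) Q (NN a Q) P ι D x θ
    hb hθ hA hx hty L hL
  obtain ⟨δ', hδ', ⟨B, hB⟩, hfin, htor⟩ := h6 F (fun i => (d₀ * ∏ k, π (x k)) * a i) hb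
  obtain ⟨-, -, -, -, d5, d6, -⟩ := h10 D hA x hx
  have hDf : Finite (D.Dk x L) := d5 L hL
  have hS : ((D.Dk x L : Set (D.J ι → NN a Q))).Finite := Set.toFinite _
  have hF := h8 (PA (fun i => (d₀ * ∏ k, π (x k)) * a i) (RatFunc F)) _ B hB
    (fun Q' => h7 F (fun i => (d₀ * ∏ k, π (x k)) * a i) hb δ' hδ' Q') hfin
    (main_four h9 _ hb) _ (D.Dk x L : Set (D.J ι → NN a Q)) hS g hg1 hg2
  have hcard : (D.Dk x L : Set (D.J ι → NN a Q)).ncard = Nat.card (D.Dk x L) := rfl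
  rw [hcard] at hF
  have e : ((Wa fun i => (d₀ * ∏ k, π (x k)) * a i)⁄(RatFunc F)) =
    Wa fun i => (d₀ * ∏ k, π (x k)) * a i := WeierstrassCurve.map_id _
  refine ⟨fun hc => main_tr _ _ e (hF.2 (by omega)), fun hD => ⟨?_, ?_⟩⟩
  · have h4' : Nat.card (D.T x) = 4 := d6 inferInstance
    have : Finite (D.T x) := Nat.finite_of_card_ne_zero (by rw [h4']; norm_num)
    have h5' : Nat.card (D.Dk x L) ≤ Nat.card (D.T x) :=
      Nat.card_le_card_of_injective _ (AddSubgroup.inclusion_injective hD)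
    have hf := hF.1 (by omega)
    rwa [PA, e] at hf
  · exact h4 (RatFunc F) (fun i => (d₀ * ∏ k, π (x k)) * a i) Q (NN a Q) P ι D x θ hb hθ hA hx hty
      L hL hD

end Pool.Agent.MP72B.Loc
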