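import Pool.Agent.Lib.MP_72e2e6_nt.Sm.B.SpecL

/-!
# MP_72e2e6_nt, `Sm/B`, part L: the datum `mkL D` satisfies the axioms
-/

namespace Pool.Agent.MP72B.Loc

open Finset WeierstrassCurve Polynomial Pool.Agent.MP72S

open Pool.Agent.MP72W (pmap IsCoc LocTriv InSha ShaTwoFin XY px py)

open Pool.Agent.MP72S.C (Wa PA Hyp QC NN al ee act rr pt Plc P2)

open Pool.Agent.MP72S.S (GOk Tht LocC Good rs hgt)

open scoped Classical

private def mkl_T {G N : Type} [Group G] [AddCommGroup N] [DistribMulAction G N] (t p : G)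
    (a b : ZMod 2) : AddSubgroup N where
  carrier := {x | sg a (t • x) = x ∧ sg b (p • x) = x}
  zero_mem' := by
    constructor
    · rw [smul_zero, sg_map_zero]
    · rw [smul_zero, sg_map_zero]
  add_mem' := by
    rintro x y ⟨h1, h2⟩ ⟨h3, h4⟩
    constructor
    · rw [smul_add, sg_add, h1, h3]
    · rw [smul_add, sg_add, h2, h4]
  neg_mem' := by
    rintro x ⟨h1, h2⟩
    constructor
    · rw [smul_neg, sg_neg, h1]
    · rw [smul_neg, sg_neg, h2]

private theorem mkl_sg {N : Type} [AddCommGroup N] (a : ZMod 2) (x y : N) (h : sg a y = x) :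
    y = x ∨ y = -x := by
  unfold sg at h
  split_ifs at h
  · exact Or.inl h
  · exact Or.inr (by rw [← h, neg_neg])

/-- **Mkl**. The datum `mkL D` satisfies the axioms. -/
theorem tMkl (lme : S_Lme) (iso : Pool.Agent.MP72B.S_IsoE) : S_Mkl := by
  intro G N P R _ _ _ _ _ _ D E hf ax ax3 hfin
  have p2 : P2 N := ⟨ax.prim, ax.dvs, ax.four⟩
  have key : ∀ s ∈ D.S, ∀ a b : ZMod 2,
      Function.Surjective ((mkL D).lam s a b) ∧
        ∀ x, (mkL D).lam s a b x = 0 ↔ sg a (D.tau s • x) = x ∧ sg b (D.phi s • x) = x := by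
    intro s hs a b
    have hT : Finite (mkl_T (N := N) (D.tau s) (D.phi s) a b) := by
      refine Set.Finite.subset (hfin s hs) ?_
      rintro x ⟨h1, h2⟩
      exact ⟨mkl_sg a _ _ h1, mkl_sg b _ _ h2⟩
    have hex : ∃ f : N →+ N, Function.Surjective f ∧
        ∀ x, f x = 0 ↔ sg a (D.tau s • x) = x ∧ sg b (D.phi s • x) = x := by
      obtain ⟨f, hf1, hf2⟩ := lme N p2 (mkl_T (D.tau s) (D.phi s) a b) hT
      exact ⟨f, hf1, hf2⟩
    have he : (mkL D).lam s a b = hex.choose := dif_pos hex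
    rw [he]
    exact hex.choose_spec
  refine ⟨ax, ?_, ?_, ?_⟩
  · intro s hs χ _
    exact (key s hs _ _).1
  · intro s hs χ _ Q
    exact (key s hs _ _).2 Q
  · intro s _ χ hχ Q Q' h1 h2 h3 h4
    exact iso D E hf ax ax3 s χ hχ.mul Q Q' h1 h2 h3 h4

end Pool.Agent.MP72B.Loc
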