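import Pool.Agent.Lib.MP_72e2e6_nt.Sm.B.SpecL

/-!
# MP_72e2e6_nt, `Sm/B`, part L: pigeonhole principle in the completion
-/

namespace Pool.Agent.MP72B.Loc

open Finset WeierstrassCurve Polynomial Pool.Agent.MP72S

open Pool.Agent.MP72W (pmap IsCoc LocTriv InSha ShaTwoFin XY px py)

open Pool.Agent.MP72S.C (Wa PA Hyp QC NN al ee act rr pt Plc P2)

open Pool.Agent.MP72S.S (GOk Tht LocC Good rs hgt)

open scoped Classical

private theorem pgk_step {M : Type} [NormedField M] (e : M) (p : ℝ) (hp0 : 0 < p) (hp1 : p < 1)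
    (he : ‖e‖ = p) (hd : ∀ x : M, x ≠ 0 → ∃ n : ℤ, ‖x‖ = p ^ n) (R : Set M) (hR : R.Finite)
    (hc : ∀ x : M, ‖x‖ ≤ 1 → ∃ r ∈ R, ‖x - r‖ < 1) (x : ℕ → M) (m : ℤ) (I : Set ℕ)
    (hI : I.Infinite) (c : M) (hIc : ∀ n ∈ I, ‖x n - c‖ ≤ p ^ m) :
    ∃ I' : Set ℕ, I'.Infinite ∧ ∃ c' : M, ∀ n ∈ I', ‖x n - c'‖ ≤ p ^ (m + 1) := by
  have he0 : e ≠ 0 := by
    rintro rfl
    rw [norm_zero] at he
    exact hp0.ne he
  have hem : ‖e ^ m‖ = p ^ m := by rw [norm_zpow, he]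
  have hem0 : e ^ m ≠ 0 := zpow_ne_zero _ he0
  have h1 : ∀ n ∈ I, ∃ r ∈ R, ‖(x n - c) / e ^ m - r‖ < 1 := by
    intro n hn
    refine hc _ ?_
    rw [norm_div, hem, div_le_one (zpow_pos hp0 m)]
    exact hIc n hn
  obtain ⟨r, hr, hinf⟩ : ∃ r ∈ R, {n ∈ I | ‖(x n - c) / e ^ m - r‖ < 1}.Infinite := by
    by_contra hcon
    push Not at hcon
    refine hI ((hR.biUnion fun r hr => hcon r hr).subset ?_)
    intro n hn
    obtain ⟨r, hr, hlt⟩ := h1 n hn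
    exact Set.mem_biUnion hr ⟨hn, hlt⟩
  refine ⟨_, hinf, c + r * e ^ m, ?_⟩
  rintro n ⟨_, hlt⟩
  have h2 : x n - (c + r * e ^ m) = ((x n - c) / e ^ m - r) * e ^ m := by
    field_simp
    ring
  have h3 : ‖(x n - c) / e ^ m - r‖ ≤ p := by
    rcases eq_or_ne ((x n - c) / e ^ m - r) 0 with h0 | h0
    · rw [h0, norm_zero]
      exact hp0.le
    · obtain ⟨k, hk⟩ := hd _ h0
      rw [hk] at hlt ⊢
      have hk1 : 1 ≤ k := by
        by_contra hk1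
        have hk2 : k ≤ 0 := by omega
        have := one_le_zpow_of_nonpos₀ hp0 hp1.le hk2
        linarith
      calc p ^ k ≤ p ^ (1 : ℤ) := zpow_le_zpow_right_of_le_one₀ hp0 hp1.le hk1
        _ = p := zpow_one p
  rw [h2, norm_mul, hem, zpow_add_one₀ hp0.ne', mul_comm]
  exact mul_le_mul_of_nonneg_left h3 (zpow_pos hp0 m).le

/-- **Pgk**. Pigeonhole principle in the completion. -/
theorem tPgk (lc : D.S_Lc) : S_Pgk := by
  intro F _ _ v d ϖ R hLF M ε hε x hx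
  obtain ⟨l1, -, l3, l4, l5, -, -⟩ := lc F v d ϖ R hLF
  have hp0 := hLF.pi0
  have hp1 := hLF.pi1
  have he : ‖algebraMap (RatFunc F) v.Completion ϖ‖ = v ϖ := l1 ϖ
  have iter : ∀ (k : ℕ) (m : ℤ), (∃ I : Set ℕ, I.Infinite ∧ ∃ c : v.Completion,
      ∀ n ∈ I, ‖x n - c‖ ≤ v ϖ ^ m) → ∃ I : Set ℕ, I.Infinite ∧ ∃ c : v.Completion,
      ∀ n ∈ I, ‖x n - c‖ ≤ v ϖ ^ (m + k) := by
    intro k
    induction k with
    | zero =>
      intro m h
      simpa using h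
    | succ k ih =>
      intro m h
      obtain ⟨I, hI, c, hc⟩ := ih m h
      obtain ⟨I', hI', c', hc'⟩ := pgk_step (algebraMap (RatFunc F) v.Completion ϖ) (v ϖ) hp0 hp1
        he l4 (algebraMap (RatFunc F) v.Completion '' (R : Set (RatFunc F)))
        (R.finite_toSet.image _) (fun y hy => by
          obtain ⟨r, hr, hlt⟩ := l5 y hy
          exact ⟨_, ⟨r, hr, rfl⟩, hlt⟩) x (m + k) I hI c hc
      refine ⟨I', hI', c', fun n hn => ?_⟩
      have := hc' n hn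
      rwa [add_assoc] at this
  -- the start
  obtain ⟨N, hN⟩ := pow_unbounded_of_one_lt M (one_lt_inv_iff₀.2 ⟨hp0, hp1⟩)
  have hm : M ≤ v ϖ ^ (-(N : ℤ)) := by
    rw [zpow_neg, zpow_natCast, ← inv_pow]
    exact hN.le
  obtain ⟨k, hk⟩ := exists_pow_lt_of_lt_one (mul_pos hε (zpow_pos hp0 (N : ℤ))) hp1
  have hk' : v ϖ ^ (-(N : ℤ) + k) < ε := by
    rw [zpow_add₀ hp0.ne', zpow_natCast, zpow_neg, inv_mul_lt_iff₀ (zpow_pos hp0 _), mul_comm]
    exact hk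
  obtain ⟨I, hI, c, hc⟩ := iter k (-(N : ℤ)) ⟨Set.univ, Set.infinite_univ, 0, fun n _ => by
    rw [sub_zero]
    exact (hx n).trans hm⟩
  obtain ⟨n, hn⟩ := hI.nonempty
  obtain ⟨n', hn', hlt⟩ := hI.exists_gt n
  refine ⟨n, n', hlt, ?_⟩
  have h1 : x n - x n' = (x n - c) + -(x n' - c) := by ring
  rw [h1]
  refine lt_of_le_of_lt ?_ hk'
  refine (IsUltrametricDist.norm_add_le_max _ _).trans (max_le (hc n hn) ?_)
  rw [norm_neg]
  exact hc n' hn'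

end Pool.Agent.MP72B.Loc
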