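import Pool.Agent.Lib.MP_72e2e6_nt.Sm.B.SpecL

/-!
# MP_72e2e6_nt, `Sm/B`, module LSha: finiteness of `Sha[2^∞]`
-/

namespace Pool.Agent.MP72B.Loc

open Finset WeierstrassCurve Polynomial Pool.Agent.MP72S

open Pool.Agent.MP72W (pmap IsCoc LocTriv InSha ShaTwoFin XY px py)

open Pool.Agent.MP72S.C (Wa PA Hyp QC NN al ee act rr pt Plc P2)

open Pool.Agent.MP72S.S (GOk Tht LocC Good rs hgt pm_add pm_nsmul)

open scoped Classical

section

variable {K : Type} [Field K] {W : WeierstrassCurve K}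
    {Q : IntermediateField K (SeparableClosure K)} [Normal K Q] {N : Type} [AddCommGroup N]
    [DistribMulAction Gal(Q/K) N] {χ : Gal(Q/K) → ZMod 2}
    {θ : N → (W⁄(SeparableClosure K)).toAffine.Point}

private theorem sha_tht_sub (h : Tht W Q χ θ) (a b : N) : θ (a - b) = θ a - θ b := by
  have h1 := h.add (a - b) b
  rw [sub_add_cancel] at h1
  rw [h1, add_sub_cancel_right]

end

/-- The separable closure is closed under square roots. -/
private theorem sha_qc_sep (K : Type) [Field K] (two : (2 : K) ≠ 0) : QC (SeparableClosure K) := by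
  intro x
  by_cases hx : x = 0
  · exact ⟨0, by rw [hx]; ring⟩
  have two' : (2 : SeparableClosure K) ≠ 0 := by
    have := (algebraMap K (SeparableClosure K)).injective.ne two
    rwa [map_ofNat, map_zero] at this
  have : NeZero ((2 : ℕ) : SeparableClosure K) := ⟨by exact_mod_cast two'⟩
  obtain ⟨z, hz⟩ := IsSepClosed.exists_pow_nat_eq x 2
  exact ⟨z, hz⟩

private theorem sha_two_pow_div {A : Type} [AddCommGroup A] (h : ∀ P : A, ∃ P' : A, 2 • P' = P)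
    (n : ℕ) (P : A) : ∃ P' : A, 2 ^ n • P' = P := by
  induction n generalizing P with
  | zero => exact ⟨P, by rw [pow_zero, one_smul]⟩
  | succ n ih =>
    obtain ⟨P₁, h1⟩ := h P
    obtain ⟨P₂, h2⟩ := ih P₁
    exact ⟨P₂, by rw [pow_succ, mul_comm, mul_smul, h2, h1]⟩

theorem tSha : MP72W.S_Shg → MP72S.S.S_Dvo → S_Exs → S_Sha := by
  intro h1 h2 h3 K _ b Q _ N P ι _ _ _ _ D x θ hyp hθ hAx hOk hTyp L hL hDk
  obtain ⟨hfin, hdec⟩ := h3 D hAx x hOk L hL hDk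
  obtain ⟨-, sadd, sneg, -, scob⟩ := h1 K (Wa b)
  have hyps : Hyp b (SeparableClosure K) := by
    refine ⟨?_, hyp.2⟩
    have := (algebraMap K (SeparableClosure K)).injective.ne hyp.1
    rwa [map_ofNat, map_zero] at this
  have hdiv : ∀ (n : ℕ) (P : PA b (SeparableClosure K)), ∃ P' : PA b (SeparableClosure K),
      2 ^ n • P' = P :=
    sha_two_pow_div (h2 K b (SeparableClosure K) (SeparableClosure K) (AlgHom.id K _) hyps
      (sha_qc_sep K hyp.1)).1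
  -- the decomposition of the elements of `Sha` killed by a power of two
  have key : ∀ z, InSha (Wa b) z → (∃ k : ℕ, ∀ σ, 2 ^ k • z σ = 0) →
      ∃ (ψ₁ : Gal(Q/K) → N) (R : N), ((∃ t₁, D.IsZ x t₁ ψ₁) ∧ ∀ σ, 2 ^ (L - 1) • ψ₁ σ = 0) ∧
        ∀ σ : Gal(SeparableClosure K/K), z σ = θ (ψ₁ (rs Q σ)) +
          (pmap (Wa b) (σ : SeparableClosure K →ₐ[K] SeparableClosure K) (θ R) - θ R) := by
    intro z hz hk
    obtain ⟨t, ψ, hψ, e⟩ := hTyp z hz hk
    obtain ⟨ψ₁, R, ht₁, hk₁, e₁⟩ := hdec t ψ hψ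
    refine ⟨ψ₁, R, ⟨ht₁, hk₁⟩, fun σ => ?_⟩
    rw [← e σ, e₁, hθ.add, sha_tht_sub hθ, hθ.eqv]
  refine ⟨(fun (ψ : Gal(Q/K) → N) (σ : Gal(SeparableClosure K/K)) => θ (ψ (rs Q σ))) ''
    {ψ | (∃ t, D.IsZ x t ψ) ∧ ∀ σ, 2 ^ (L - 1) • ψ σ = 0}, hfin.image _, ?_⟩
  rintro z hz ⟨n, P₀, hP₀⟩
  obtain ⟨P', hP'⟩ := hdiv n P₀
  have hz' := sadd _ _ hz (sneg _ (scob P'))
  obtain ⟨ψ₁, R, hψ₁, e⟩ := key _ hz' ⟨n, fun σ => by
    rw [smul_add, hP₀ σ, smul_neg, smul_sub, ← pm_nsmul, hP']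
    abel⟩
  refine ⟨_, ⟨ψ₁, hψ₁, rfl⟩, P' + θ R, fun σ => ?_⟩
  have e1 := e σ
  rw [← sub_eq_add_neg, sub_eq_iff_eq_add] at e1
  simp only
  rw [e1, pm_add]
  abel

end Pool.Agent.MP72B.Loc
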