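import Pool.Agent.Lib.MP_72e2e6_nt.Sm.B.SpecL
import Pool.Agent.Lib.MP_72e2e6_nt.Sm.S.Lcx

/-!
# MP_72e2e6_nt, `Sm/B`, part L: Trg, locally trivial cocycles at arbitrary places
-/

namespace Pool.Agent.MP72B.Loc

open Finset WeierstrassCurve Polynomial Pool.Agent.MP72S

open Pool.Agent.MP72W (pmap IsCoc LocTriv InSha ShaTwoFin XY px py)

open Pool.Agent.MP72S.C (Wa PA Hyp QC NN al ee act rr pt Plc P2)

open Pool.Agent.MP72S.S (GOk Tht LocC Good rs hgt)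

open Pool.Agent.MP72S.S (lcx_coc lcx_fix lcx_qc lcx_rs pm_add pm_sub pm_neg pm_nsmul pm_inj pm_comp
  pm_congr pm_sq pm_xy pm_zero)

open scoped Classical

private theorem trg_aux (hRe : D.S_Re) (hDvo : S.S_Dvo) {K : Type} [Field K]
    (Q : IntermediateField K (SeparableClosure K)) [Normal K Q] (a : Fin 3 → K) (hyp : Hyp a K)
    {M : Type} [Field M] [Algebra K M]
    (hM : Ldp a M)
    (ι : SeparableClosure K →ₐ[K] SeparableClosure M) (τ φ : Gal(SeparableClosure M/M))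
    (g h : Gal(Q/K)) (hg : ∀ x : Q, τ (ι x) = ι (g x)) (hh : ∀ x : Q, φ (ι x) = ι (h x))
    (z : Gal(SeparableClosure K/K) → PA a (SeparableClosure K))
    (hk : ∃ k : ℕ, ∀ σ, 2 ^ k • z σ = 0) (hz : LocTriv (Wa a) z M) :
    ∃ (R : PA a (SeparableClosure K)) (m : ℕ) (σ σ' : Gal(SeparableClosure K/K)),
        2 ^ m • R = 0 ∧ rs Q σ = g ∧ rs Q σ' = h ∧
        z σ = pmap (Wa a) (σ : SeparableClosure K →ₐ[K] SeparableClosure K) R - R ∧
        z σ' = pmap (Wa a) (σ' : SeparableClosure K →ₐ[K] SeparableClosure K) R - R := by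
  obtain ⟨Q₀, k, hfix, hall⟩ := lcx_coc hRe (Wa a) hz hk ι
  have two : (2 : K) ≠ 0 := hyp.1
  have twoK : (2 : SeparableClosure K) ≠ 0 := by
    have := (algebraMap K (SeparableClosure K)).injective.ne two
    rwa [map_ofNat, map_zero] at this
  obtain ⟨R₀, hR₀⟩ := lcx_fix K (Wa a) M _ hfix
  obtain ⟨T, R, m, hT, e⟩ := hM k R₀
  set Q₁ : PA a (SeparableClosure M) :=
    Q₀ - pmap (Wa a) (Algebra.ofId M (SeparableClosure M)) R with hQ₁
  have h1 : 2 ^ (k + m) • Q₁ = 0 := by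
    rw [add_comm, pow_add, mul_smul, hQ₁, smul_sub, ← pm_nsmul, ← hR₀, ← pm_sub, e, add_sub_cancel_right,
      ← pm_nsmul, hT, pm_zero]
  obtain ⟨R₂, hR₂, hR₂0⟩ := (hDvo K a (SeparableClosure K) (SeparableClosure M) ι ⟨twoK, hyp.2⟩
    (lcx_qc K two)).2 (k + m) Q₁ 0 (by rw [h1, pm_zero])
  have key : ∀ (τ₁ : Gal(SeparableClosure M/M)) (g₁ : Gal(Q/K)),
      (∀ x : Q, τ₁ (ι x) = ι (g₁ x)) → ∃ σ : Gal(SeparableClosure K/K), rs Q σ = g₁ ∧
        z σ = pmap (Wa a) (σ : SeparableClosure K →ₐ[K] SeparableClosure K) R₂ - R₂ := by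
    intro τ₁ g₁ hg₁
    obtain ⟨σ, hσ, e₁⟩ := hall τ₁
    refine ⟨σ, lcx_rs ι hg₁ hσ, pm_inj (Wa a) ι ?_⟩
    have h2 : pmap (Wa a) (τ₁ : SeparableClosure M →ₐ[M] SeparableClosure M)
        (pmap (Wa a) (Algebra.ofId M (SeparableClosure M)) R) =
          pmap (Wa a) (Algebra.ofId M (SeparableClosure M)) R := by
      rw [pm_comp]
      exact pm_congr _ _ _ _ fun x y _ => ⟨τ₁.commutes x, τ₁.commutes y⟩
    have h3 : Q₀ = Q₁ + pmap (Wa a) (Algebra.ofId M (SeparableClosure M)) R := by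
      rw [hQ₁, sub_add_cancel]
    have h4 : pmap (Wa a) (τ₁ : SeparableClosure M →ₐ[M] SeparableClosure M)
        (pmap (Wa a) ι R₂) =
        pmap (Wa a) ι (pmap (Wa a) (σ : SeparableClosure K →ₐ[K] SeparableClosure K) R₂) := by
      refine (pm_sq (Wa a) (((τ₁ : SeparableClosure M →ₐ[M]
        SeparableClosure M).restrictScalars K).comp ι) ι _ R₂
        fun x y _ => ⟨rfl, rfl⟩).symm.trans ?_
      exact pm_sq _ _ _ _ _ fun x y _ => ⟨hσ x, hσ y⟩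
    rw [e₁, h3, pm_add, h2, add_sub_add_right_eq_sub, ← hR₂, h4, pm_sub]
  obtain ⟨σ, hσ, e₁⟩ := key τ g hg
  obtain ⟨σ', hσ', e₂⟩ := key φ h hh
  exact ⟨R₂, k + m, σ, σ', hR₂0, hσ, hσ', e₁, e₂⟩

theorem tTrg (hRe : D.S_Re) (hDvo : S.S_Dvo) : S_Trg := by
  intro K _ Q _ a hyp av g h hloc hld z hz hk hlt
  obtain ⟨hult, h2, hnM, hval, n, ι, τ, φ, -, -, -, -, hg, hh⟩ := hloc
  exact trg_aux hRe hDvo Q a hyp hld ι τ φ g h hg hh z hk hlt

end Pool.Agent.MP72B.Loc
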