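import Pool.Agent.Lib.MP_72e2e6_nt.Sm.B.SpecL

/-!
# MP_72e2e6_nt, `Sm/B`, part L: Typ, the Selmer cocycle of a locally trivial cocycle
-/

namespace Pool.Agent.MP72B.Loc

open Finset WeierstrassCurve Polynomial Pool.Agent.MP72S

open Pool.Agent.MP72W (pmap IsCoc LocTriv InSha ShaTwoFin XY px py)

open Pool.Agent.MP72S.C (Wa PA Hyp QC NN al ee act rr pt Plc P2)

open Pool.Agent.MP72S.S (GOk Tht LocC Good rs hgt)

open scoped Classical

private theorem tht_zero {K : Type} [Field K] {W : WeierstrassCurve K}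
    {Q : IntermediateField K (SeparableClosure K)} [Normal K Q] {N : Type} [AddCommGroup N]
    [DistribMulAction Gal(Q/K) N] {χ : Gal(Q/K) → ZMod 2}
    {θ : N → (W⁄(SeparableClosure K)).toAffine.Point} (h : Tht W Q χ θ) : θ 0 = 0 := by
  have h1 := h.add 0 0
  rw [add_zero] at h1
  exact left_eq_add.mp h1

private theorem tht_sub {K : Type} [Field K] {W : WeierstrassCurve K}
    {Q : IntermediateField K (SeparableClosure K)} [Normal K Q] {N : Type} [AddCommGroup N]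
    [DistribMulAction Gal(Q/K) N] {χ : Gal(Q/K) → ZMod 2}
    {θ : N → (W⁄(SeparableClosure K)).toAffine.Point} (h : Tht W Q χ θ) (a b : N) :
    θ (a - b) = θ a - θ b := by
  have h1 := h.add (a - b) b
  rw [sub_add_cancel] at h1
  rw [h1, add_sub_cancel_right]

private theorem typ_aux (h1 : S.S_Unr) (h2 : S_Trg) (h3 : S.S_Inf) {K : Type} [Field K]
    (a : Fin 3 → K) (Q : IntermediateField K (SeparableClosure K)) [Normal K Q] (P ι : Type)
    [Fintype ι] (D : DatL Gal(Q/K) (NN a Q) P) (av : P → AbsoluteValue K ℝ) (π : P → K) (d₀ : K)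
    (hG : GOk a Q D.toDat av π d₀) (x : ι → P) (b : Fin 3 → K) (hyp : Hyp b K)
    (θ : NN a Q → PA b (SeparableClosure K)) (hθ : Tht (Wa b) Q (D.chi x) θ)
    (hT : ∀ v ∈ Set.range (D.pl x), Ldp b (av v).Completion)
    (hgood : ∀ v, v ∉ Set.range (D.pl x) → Good (av v) b) : TypOkL (Wa b) Q D x θ := by
  intro z hz hk
  have two : (2 : K) ≠ 0 := hG.hyp.1
  obtain ⟨ψ, hlc, hco, hbd, hψ⟩ := h3 K (Wa b) Q (NN a Q) (D.chi x) θ two hG.qc hθ z hz.1 hk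
  have hloc : ∀ v, LocTriv (Wa b) z (av v).Completion := fun v => hz.2 _ (hG.ntr v)
  have hur : ∀ v, v ∉ Set.range (D.pl x) → ψ (D.tau v) = 0 := by
    intro v hv
    obtain ⟨σ, hσ, hzσ⟩ := h1 K Q b hyp (av v) (D.tau v) (D.phi v) (hG.loc v) (hgood v hv) z hz.1 hk
      (hloc v)
    apply hθ.inj
    rw [tht_zero hθ, ← hzσ, ← hψ, hσ]
  have hlo : ∀ j, ∃ R : NN a Q, D.Lo x (D.pl x j) R ψ := by
    intro j
    obtain ⟨R, m, σ, σ', hR, hσ, hσ', e1, e2⟩ := h2 K Q b hyp (av (D.pl x j)) (D.tau (D.pl x j))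
      (D.phi (D.pl x j)) (hG.loc _) (hT _ ⟨j, rfl⟩) z hz.1 hk (hloc _)
    obtain ⟨R', rfl⟩ := hθ.rng R ⟨m, hR⟩
    refine ⟨R', ?_, ?_⟩
    · apply hθ.inj
      rw [tht_sub hθ, ← hσ, hψ, e1, hθ.eqv]
    · apply hθ.inj
      rw [tht_sub hθ, ← hσ', hψ, e2, hθ.eqv]
  choose R hR using hlo
  exact ⟨fun j => D.lm x j (R j), ψ, ⟨⟨hlc, hco, hbd, hur⟩, fun j => ⟨R j, rfl, hR j⟩⟩, hψ⟩

theorem tTyp (h1 : S.S_Unr) (h2 : S_Trg) (h3 : S.S_Inf) : S_Typ := by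
  intro K _ a Q _ P ι _ D av π d₀ hG x dd θ hdd hθ hT hgood
  exact typ_aux h1 h2 h3 a Q P ι D av π d₀ hG x (fun i => dd * a i)
    ⟨hG.hyp.1, fun i j hij => hG.hyp.2 (mul_left_cancel₀ hdd hij)⟩ θ hθ hT hgood

end Pool.Agent.MP72B.Loc
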