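import Pool.Agent.Lib.MP_72e2e6_nt.Sm.B.SpecL

/-!
# MP_72e2e6_nt, `Sm/B`: LWmw (the Kummer image lies in the image of the Selmer group of level `L`)
-/

namespace Pool.Agent.MP72B.Loc

open Finset WeierstrassCurve Polynomial Pool.Agent.MP72S

open Pool.Agent.MP72W (pmap IsCoc LocTriv InSha ShaTwoFin XY px py)

open Pool.Agent.MP72S.C (Wa PA Hyp QC NN al ee act rr pt Plc P2)

open Pool.Agent.MP72S.S (GOk Tht LocC Good rs hgt)

open scoped Classical

open Pool.Agent.MP72S.S (pm_zero pm_neg pm_add pm_sub pm_nsmul pm_some pm_inj pm_comp pm_congr)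

section

variable {K : Type} [Field K] {W : WeierstrassCurve K}
    {Q : IntermediateField K (SeparableClosure K)} [Normal K Q] {N : Type} [AddCommGroup N]
    [DistribMulAction Gal(Q/K) N] {χ : Gal(Q/K) → ZMod 2}
    {θ : N → (W⁄(SeparableClosure K)).toAffine.Point}

private theorem tht_zero (h : Tht W Q χ θ) : θ 0 = 0 := by
  have h1 := h.add 0 0
  rw [add_zero] at h1
  exact left_eq_add.mp h1

private theorem tht_sub (h : Tht W Q χ θ) (a b : N) : θ (a - b) = θ a - θ b := by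
  have h1 := h.add (a - b) b
  rw [sub_add_cancel] at h1
  rw [h1, add_sub_cancel_right]

private theorem tht_nsmul (h : Tht W Q χ θ) (n : ℕ) (a : N) : θ (n • a) = n • θ a := by
  induction n with
  | zero => rw [zero_smul, zero_smul, tht_zero h]
  | succ n ih => rw [succ_nsmul, succ_nsmul, h.add, ih]

end

/-- The separable closure is closed under square roots. -/
private theorem qc_sep (K : Type) [Field K] (two : (2 : K) ≠ 0) : QC (SeparableClosure K) := by
  intro x
  by_cases hx : x = 0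
  · exact ⟨0, by rw [hx]; ring⟩
  have two' : (2 : SeparableClosure K) ≠ 0 := by
    have := (algebraMap K (SeparableClosure K)).injective.ne two
    rwa [map_ofNat, map_zero] at this
  have : NeZero ((2 : ℕ) : SeparableClosure K) := ⟨by exact_mod_cast two'⟩
  obtain ⟨z, hz⟩ := IsSepClosed.exists_pow_nat_eq x 2
  exact ⟨z, hz⟩

/-- Fixed points are rational. -/
private theorem fix_rat (K : Type) [Field K] (W : WeierstrassCurve K)
    (P : (W⁄(SeparableClosure K)).toAffine.Point)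
    (h : ∀ σ : Gal(SeparableClosure K/K),
      pmap W (σ : SeparableClosure K →ₐ[K] SeparableClosure K) P = P) :
    ∃ P₀ : (W⁄K).toAffine.Point, pmap W (Algebra.ofId K (SeparableClosure K)) P₀ = P := by
  cases P with
  | zero => exact ⟨0, rfl⟩
  | some x y hxy =>
    have hf : ∀ σ : Gal(SeparableClosure K/K), σ x = x ∧ σ y = y := by
      intro σ
      have h1 := h σ
      obtain ⟨h', e⟩ := pm_some W (σ : SeparableClosure K →ₐ[K] SeparableClosure K) hxy
      rw [e, Affine.Point.some.injEq] at h1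
      exact h1
    have hx : x ∈ Set.range (algebraMap K (SeparableClosure K)) :=
      (InfiniteGalois.mem_range_algebraMap_iff_fixed x).mpr fun σ => (hf σ).1
    have hy : y ∈ Set.range (algebraMap K (SeparableClosure K)) :=
      (InfiniteGalois.mem_range_algebraMap_iff_fixed y).mpr fun σ => (hf σ).2
    obtain ⟨x₀, rfl⟩ := hx
    obtain ⟨y₀, rfl⟩ := hy
    have h0 : (W⁄K).toAffine.Nonsingular x₀ y₀ :=
      (W.toAffine.baseChange_nonsingular (S := K)
        (Algebra.ofId K (SeparableClosure K)).injective x₀ y₀).mp hxy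
    refine ⟨Affine.Point.some x₀ y₀ h0, ?_⟩
    obtain ⟨h', e⟩ := pm_some W (Algebra.ofId K (SeparableClosure K)) h0
    rw [e, Affine.Point.some.injEq]
    exact ⟨rfl, rfl⟩

private theorem two_pow_div {A : Type} [AddCommGroup A] (h : ∀ P : A, ∃ P' : A, 2 • P' = P) (n : ℕ)
    (P : A) : ∃ P' : A, 2 ^ n • P' = P := by
  induction n generalizing P with
  | zero => exact ⟨P, by rw [pow_zero, one_smul]⟩
  | succ n ih =>
    obtain ⟨P₁, h1⟩ := h P
    obtain ⟨P₂, h2⟩ := ih P₁
    exact ⟨P₂, by rw [pow_succ, mul_comm, mul_smul, h2, h1]⟩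

private theorem isZ_nsmul {G N P : Type} [Group G] [TopologicalSpace G] [AddCommGroup N]
    [DistribMulAction G N] {D : DatL G N P} {ι : Type} [Fintype ι] {x : ι → P} {t : D.J ι → N}
    {ψ : G → N} (h : D.IsZ x t ψ) (n : ℕ) : D.IsZ x (n • t) fun σ => n • ψ σ := by
  induction n with
  | zero =>
    simp only [zero_smul]
    exact D.isZ_zero x
  | succ n ih =>
    simp only [succ_nsmul]
    exact ih.add h

theorem tWmw (h1 : MP72W.S_Shg) (h2 : S.S_Dvo) (h3 : MP72B.S_Uq) (h4 : MP72B.S_TyU) : S_Wmw := by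
  intro K _ b Q _ N P ι _ _ _ _ D x θ hyp hθ hAx hOk hTyp L hL
  obtain ⟨-, -, -, -, scob⟩ := h1 K (Wa b)
  have hyps : Hyp b (SeparableClosure K) := by
    refine ⟨?_, hyp.2⟩
    have := (algebraMap K (SeparableClosure K)).injective.ne hyp.1
    rwa [map_ofNat, map_zero] at this
  have hdiv : ∀ (n : ℕ) (P : PA b (SeparableClosure K)), ∃ P' : PA b (SeparableClosure K),
      2 ^ n • P' = P :=
    two_pow_div (h2 K b (SeparableClosure K) (SeparableClosure K) (AlgHom.id K _) hyps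
      (qc_sep K hyp.1)).1
  have hfix : ∀ (e : PA b K) (σ : Gal(SeparableClosure K/K)),
      pmap (Wa b) (σ : SeparableClosure K →ₐ[K] SeparableClosure K)
        (pmap (Wa b) (Algebra.ofId K (SeparableClosure K)) e) =
        pmap (Wa b) (Algebra.ofId K (SeparableClosure K)) e := by
    intro e σ
    rw [pm_comp]
    exact pm_congr _ _ _ _ fun x y _ => ⟨σ.commutes x, σ.commutes y⟩
  have key : ∀ e : PA b K, ∃ (R : PA b (SeparableClosure K)) (t : D.J ι → N) (ψ : Gal(Q/K) → N),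
      2 ^ L • R = pmap (Wa b) (Algebra.ofId K (SeparableClosure K)) e ∧ D.IsZ x t ψ ∧
      2 ^ L • t = 0 ∧ ∀ σ : Gal(SeparableClosure K/K), θ (ψ (rs Q σ)) =
        pmap (Wa b) (σ : SeparableClosure K →ₐ[K] SeparableClosure K) R - R := by
    intro e
    obtain ⟨R, hR⟩ := hdiv L (pmap (Wa b) (Algebra.ofId K (SeparableClosure K)) e)
    obtain ⟨t, ψ, hψ, he⟩ := hTyp _ (scob R) ⟨L, fun σ => by
      rw [smul_sub, ← pm_nsmul, hR, hfix, sub_self]⟩
    refine ⟨R, t, ψ, hR, hψ, ?_, he⟩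
    have h0 : ∀ g, 2 ^ L • ψ g = 0 := by
      intro g
      obtain ⟨σ, rfl⟩ := AlgEquiv.restrictNormalHom_surjective (F := K) (K₁ := Q)
        (SeparableClosure K) g
      apply hθ.inj
      have e1 := he σ
      rw [tht_nsmul hθ, e1, smul_sub, ← pm_nsmul, hR, hfix, sub_self, tht_zero hθ]
    refine (h4 D hAx x hOk).1 _ 0 (fun _ => 0) ?_ (D.isZ_zero x)
    have h5 := isZ_nsmul hψ (2 ^ L)
    simp only [h0] at h5
    exact h5
  choose R t ψ hR hψ ht he using key
  refine ⟨fun e => 2 ^ (L - 1) • t e, fun e => ?_, fun e e' hee => ?_⟩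
  · exact ⟨t e, ⟨⟨ψ e, hψ e⟩, ht e⟩, rfl⟩
  have hz : ∀ g, 2 ^ (L - 1) • (ψ e g - ψ e' g) = 0 := by
    intro g
    have h5 := isZ_nsmul ((hψ e).add (hψ e').neg) (2 ^ (L - 1))
    have h6 : 2 ^ (L - 1) • (t e + -t e') = 0 := by
      rw [smul_add, smul_neg, ← sub_eq_add_neg, sub_eq_zero]
      exact hee
    rw [h6] at h5
    have h7 := (h3 D hAx x hOk).1 _ _ h5 g
    rw [(h3 D hAx x hOk).2.2.2.1 g] at h7
    rw [sub_eq_add_neg]
    exact h7.symm
  obtain ⟨c, hc⟩ := fix_rat K (Wa b) (2 ^ (L - 1) • (R e - R e')) (by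
    intro σ
    have h5 : θ (2 ^ (L - 1) • (ψ e (rs Q σ) - ψ e' (rs Q σ))) = 0 := by
      rw [hz, tht_zero hθ]
    rw [tht_nsmul hθ, tht_sub hθ, he, he] at h5
    rw [pm_nsmul, pm_sub, ← sub_eq_zero, ← smul_sub, ← h5]
    congr 1
    abel)
  refine ⟨c, pm_inj (Wa b) (Algebra.ofId K (SeparableClosure K)) ?_⟩
  have hL2 : 2 * 2 ^ (L - 1) = 2 ^ L := by
    rw [← pow_succ', Nat.sub_add_cancel hL]
  rw [pm_nsmul, hc, smul_smul, hL2, smul_sub, hR, hR, pm_sub]

end Pool.Agent.MP72B.Loc
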