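import Pool.Agent.Lib.MP_72e2e6_nt.Sm.B.SpecA

/-!
# MP_72e2e6_nt, `Sm/B/Lfx`: local agreement of cocycles
-/

namespace Pool.Agent.MP72B

open Finset Pool.Agent.MP72S

private theorem lfx_aux {G N : Type} [Group G] [AddCommGroup N] [DistribMulAction G N]
    {χ χ' : G → ZMod 2} {g : G} (h : χ g = χ' g) {Q Q' : N}
    (h2 : tw χ g (Q - Q') = Q - Q') : tw χ g Q - Q = tw χ' g Q' - Q' := by
  have h3 : tw χ' g Q' = tw χ g Q' := by
    rw [tw, tw, h]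
  rw [tw_sub] at h2
  rw [h3]
  have h4 : tw χ g Q = Q - Q' + tw χ g Q' := by
    rw [← h2]
    abel
  rw [h4]
  abel

theorem tLfx : S_Fix → S_Lfx := by
  intro hFix G N P ι _ _ _ _ _ _ D hA x x' hx j Q Q' ψ ψ' h h' hl h1 h2
  obtain ⟨hf1, -⟩ := hFix D hA x hx
  have h3 : D.lm x j (Q - Q') = 0 := by
    rw [map_sub, hl, sub_self]
  obtain ⟨h4, h5⟩ := (hf1 j (Q - Q')).1 h3
  refine ⟨?_, ?_⟩
  · rw [h.1, h'.1]
    exact lfx_aux h1 h4
  · rw [h.2, h'.2]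
    exact lfx_aux h2 h5

end Pool.Agent.MP72B
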