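import Pool.Agent.Lib.MP_72e2e6_nt.Sm.B.SpecG

/-!
# MP_72e2e6_nt, `Sm/B`, module `Lg1B`: the average order of `Dk z 1`, relaxed system
-/

set_option autoImplicit false

namespace Pool.Agent.MP72B

open Finset Polynomial MP72e2e6 Pool.Agent.MP72S Pool.Agent.MP72S.Lv

private theorem lg1bTup {P : Type} {m : ℕ} (Irr : ℕ → Finset P) (n : Fin m → ℕ) :
    (tup fun i => Irr (n i)) = (↑(tupF Irr n) : Set (Fin m → P)) := by
  ext z
  simp [tup, tupF, Fintype.mem_piFinset]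

private theorem lg1bNum (q : ℝ) (N t m β' β : ℕ) (f ε' : ℝ) (hN : 1 ≤ N) (hq : 0 ≤ q)
    (hβ : β' ≤ β)
    (hb : (N : ℝ) ^ (t + 2) * f ≤ 1 * (N : ℝ) ^ m) (he : ε' * (N : ℝ) ^ (t + 1 + m) ≤ 1) :
    (N : ℝ) ^ (β' + 1) * q + (N : ℝ) ^ (t + 2) * q * (f / (N : ℝ) ^ m) +
      ε' * (N : ℝ) ^ (t + 1 + m) ≤ (N : ℝ) ^ (β + 1) * q + q + 1 := by
  have hN0 : (0 : ℝ) < N := by exact_mod_cast hN
  have hN1 : (1 : ℝ) ≤ N := by exact_mod_cast hN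
  have h4m : (0 : ℝ) < (N : ℝ) ^ m := by positivity
  have hb' : (N : ℝ) ^ (t + 2) * (f / (N : ℝ) ^ m) ≤ 1 := by
    rw [← mul_div_assoc, div_le_iff₀ h4m]
    exact hb
  have e1 : (N : ℝ) ^ (t + 2) * q * (f / (N : ℝ) ^ m) =
      q * ((N : ℝ) ^ (t + 2) * (f / (N : ℝ) ^ m)) := by ring
  rw [e1]
  have e2 := mul_le_mul_of_nonneg_left hb' hq
  have e3 : (N : ℝ) ^ (β' + 1) ≤ (N : ℝ) ^ (β + 1) := pow_le_pow_right₀ hN1 (by omega)
  have e4 := mul_le_mul_of_nonneg_right e3 hq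
  linarith

theorem tLg1B (h1 : Lv.S_Mop) (h2 : Lv.S_Exp) (h3 : S_LnkR) (h4 : S_CntR) (h5 : S_MomR)
    (h6 : LvU.S_Binu) (h7 : LvU.S_EqzE) (h8 : LvU.S_Epsu) : S_Lg1B := by
  intro β
  obtain ⟨C₀, hC₀⟩ := h6 4 0 (by norm_num)
  obtain ⟨m₀, hm₀⟩ := hC₀ 1 one_pos
  obtain ⟨K, hK⟩ := exists_nat_ge
    (((4 : ℕ) : ℝ) ^ (β + 1) * 2 ^ ((4 : ℕ) ^ 2) + 2 ^ ((4 : ℕ) ^ 2) + 1)
  refine ⟨K, max (2 * C₀) (m₀ + 144), ?_⟩
  intro G N P F _ _ _ _ _ _ D pi Irr hA ar hq T1 hT1 hβ m n h X hF hok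
  obtain ⟨A, hAdef⟩ : ∃ A, A = max (2 * C₀) (m₀ + 144) := ⟨_, rfl⟩
  rw [← hAdef] at hF
  have hA1 : 2 * C₀ ≤ A := hAdef ▸ le_max_left _ _
  have hA2 : m₀ + 144 ≤ A := hAdef ▸ le_max_right _ _
  have hc : Nat.card (VN N) = 4 := (h1 D.toDat hA.ax).1
  obtain ⟨S, hS⟩ := (h2 D.toDat hA.ax).2.2.1
  have : Finite (VN N) := Nat.finite_of_card_ne_zero (by rw [hc]; norm_num)
  have hc1 : 4 = Nat.card (Fin 1 → VN N) := by
    rw [Nat.card_fun, Nat.card_fin, hc]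
    norm_num
  have hσ : ∀ v ∈ T1, ∀ y, (S.pow 1).σ v y = y := by
    intro v hv y
    funext j
    rw [Opr.pow_σ]
    exact (h3 D hA T1 hT1 S hS).2 v hv (y j)
  rw [lg1bTup] at hok ⊢
  rw [finsum_mem_coe_finset]
  have hP0 : 0 ≤ ∏ i, (#(Irr (n i)) : ℝ) := prod_nonneg fun i _ => Nat.cast_nonneg _
  have hnz : ∀ z ∈ tupF Irr n, nz D.toDat z = fun i => (n i : ZMod 2) := by
    intro z hz
    have hz' : z ∈ tup fun i => Irr (n i) := by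
      rw [lg1bTup]
      exact hz
    funext i
    obtain ⟨hS', hd⟩ := (ar.irr _ _).1 (hz'.1 i)
    have hne : z i ≠ D.inf := fun h => hS' (by rw [h]; exact hA.ax.infS)
    rw [nz, ar.deg _ hne, hd]
  have e : ∑ z ∈ tupF Irr n, (Nat.card (D.Dk z 1) : ℝ) ≤ ∑ z ∈ tupF Irr n,
      (Nat.card {x : Unk (TT D.toDat) (Fin 1 → VN N) m //
        RE (S.pow 1) T1 (fun i => (n i : ZMod 2)) (Az D.toDat z) (Bz D.toDat z) x} : ℝ) := by
    refine sum_le_sum fun z hz => ?_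
    have e1 := h4 D hA T1 hT1 S hS m z (hok z hz) 1
    rw [pow_one, hnz z hz] at e1
    exact_mod_cast e1
  refine e.trans ?_
  obtain ⟨h20, heps⟩ := h8 D.toDat pi A m n h X hF (by omega)
  obtain ⟨ε', he0, he1, he2⟩ := heps 4 1 (by norm_num) (by omega) (by
    have : (144 : ℝ) ≤ A := by exact_mod_cast (by omega : 144 ≤ A)
    push_cast
    linarith)
  have hE := h7 D.toDat pi Irr hA.ax ar hq m n h X hF.four hF.ge hF.sm hF.tot h20 ε' he1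
  have hle : #T1 ≤ Fintype.card (TT D.toDat) := Finset.card_le_univ T1
  refine (h5 (TT D.toDat) (Fin 1 → VN N) (Fin m → P) m (S.pow 1) T1 hσ
    (fun i => (n i : ZMod 2)) (tupF Irr n) (Az D.toDat)
    (Bz D.toDat) (∏ i, (#(Irr (n i)) : ℝ)) ε' hP0 he0 hE 4
    (Fintype.card (TT D.toDat) - #T1) hc1 (by omega)).trans ?_
  have hrat := hF.rat
  have hm1 : C₀ * (Fintype.card (TT D.toDat) + 2) ≤ m := by
    refine le_trans ?_ hrat
    calc C₀ * (Fintype.card (TT D.toDat) + 2) ≤ C₀ * (2 * (Fintype.card (TT D.toDat) + 1)) :=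
          Nat.mul_le_mul_left _ (by omega)
      _ = 2 * C₀ * (Fintype.card (TT D.toDat) + 1) := by ring
      _ ≤ A * (Fintype.card (TT D.toDat) + 1) := Nat.mul_le_mul_right _ hA1
  have hm2 : m₀ ≤ m := by
    refine le_trans ?_ hrat
    calc m₀ ≤ A := by omega
      _ = A * 1 := (mul_one A).symm
      _ ≤ A * (Fintype.card (TT D.toDat) + 1) := Nat.mul_le_mul_left _ (by omega)
  have hb := hm₀ m hm2 (Fintype.card (TT D.toDat) + 2) hm1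
  have hfin := lg1bNum ((2 : ℝ) ^ ((4 : ℕ) ^ 2)) 4 (Fintype.card (TT D.toDat)) m
    (Fintype.card (TT D.toDat) - #T1) β (few 4 0 m) ε'
    (by norm_num) (by positivity) (by omega) hb he2
  rw [mul_comm (K : ℝ)]
  exact mul_le_mul_of_nonneg_left (hfin.trans hK) hP0

end Pool.Agent.MP72B
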