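import Pool.Agent.Lib.MP_72e2e6_nt.Sm.B.SpecG

/-!
# MP_72e2e6_nt, `Sm/B`, module `Lg2aB`: large groups `Dk z 1` are rare
-/

set_option autoImplicit false

namespace Pool.Agent.MP72B

open Finset Polynomial MP72e2e6 Pool.Agent.MP72S Pool.Agent.MP72S.Lv

open scoped Classical in
private theorem lg2a_set {P : Type} {m : ℕ} (Irr : ℕ → Finset P) (n : Fin m → ℕ)
    (p : (Fin m → P) → Prop) :
    {z ∈ tup fun i => Irr (n i) | p z} = (((tupF Irr n).filter p : Finset (Fin m → P)) :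
      Set (Fin m → P)) := by
  ext z
  rw [Finset.mem_coe, Finset.mem_filter]
  unfold tupF
  rw [Finset.mem_filter, Fintype.mem_piFinset]
  exact Iff.rfl

private theorem lg2a_mem {P : Type} {m : ℕ} (Irr : ℕ → Finset P) (n : Fin m → ℕ)
    (z : Fin m → P) (hz : z ∈ tupF Irr n) : z ∈ tup fun i => Irr (n i) := by
  classical
  unfold tupF at hz
  rw [Finset.mem_filter, Fintype.mem_piFinset] at hz
  exact hz

open scoped Classical in
private theorem lg2a_cheb {X : Type} (Z : Finset X) (c : X → ℕ) (q : X → Prop) (K : ℕ)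
    (hq : ∀ z, q z ↔ K ≤ c z) (C M ε : ℝ) (hM : 0 ≤ M)
    (hK : 0 < (K : ℝ)) (hC : C / K ≤ ε) (h : (∑ z ∈ Z, (c z : ℝ) ^ 2) ≤ C * M) :
    (∑ z ∈ Z.filter q, (c z : ℝ)) ≤ ε * M := by
  have e1 : (∑ z ∈ Z.filter q, (c z : ℝ)) ≤ ∑ z ∈ Z, (c z : ℝ) ^ 2 / K := by
    rw [Finset.sum_filter]
    apply Finset.sum_le_sum
    intro z _
    by_cases hz : q z
    · rw [if_pos hz, le_div_iff₀ hK, pow_two]
      exact mul_le_mul_of_nonneg_left (Nat.cast_le.2 ((hq z).1 hz)) (Nat.cast_nonneg _)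
    · rw [if_neg hz]
      positivity
  rw [← Finset.sum_div] at e1
  calc (∑ z ∈ Z.filter q, (c z : ℝ)) ≤ (∑ z ∈ Z, (c z : ℝ) ^ 2) / K := e1
    _ ≤ (C * M) / K := div_le_div_of_nonneg_right h hK.le
    _ = (C / K) * M := by ring
    _ ≤ ε * M := mul_le_mul_of_nonneg_right hC hM

private theorem lg2a_num (q c c' : ℝ) (N t m : ℕ) (f ε' : ℝ) (hN : 0 < N) (hq : 0 ≤ q)
    (hc : c ≤ c') (hb : (N : ℝ) ^ (t + 2) * f ≤ 1 * (N : ℝ) ^ m)
    (he : ε' * (N : ℝ) ^ (t + 1 + m) ≤ 1) :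
    c * q + (N : ℝ) ^ (t + 2) * q * (f / (N : ℝ) ^ m) + ε' * (N : ℝ) ^ (t + 1 + m) ≤
      c' * q + q + 1 := by
  have h4m : (0 : ℝ) < (N : ℝ) ^ m := by positivity
  have hb' : (N : ℝ) ^ (t + 2) * (f / (N : ℝ) ^ m) ≤ 1 := by
    rw [← mul_div_assoc, div_le_iff₀ h4m]
    exact hb
  have e1 : (N : ℝ) ^ (t + 2) * q * (f / (N : ℝ) ^ m) =
      q * ((N : ℝ) ^ (t + 2) * (f / (N : ℝ) ^ m)) := by ring
  rw [e1]
  have e2 := mul_le_mul_of_nonneg_left hb' hq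
  have e3 := mul_le_mul_of_nonneg_right hc hq
  linarith

private theorem lg2a_const (β : ℕ) : ∃ C : ℝ, 0 < C ∧
    ∀ N : ℕ, N = 16 → (N : ℝ) ^ (β + 1) * 2 ^ (N ^ 2) + 2 ^ (N ^ 2) + 1 ≤ C :=
  ⟨((16 : ℕ) : ℝ) ^ (β + 1) * 2 ^ ((16 : ℕ) ^ 2) + 2 ^ ((16 : ℕ) ^ 2) + 1, by positivity,
    fun N h => by rw [h]⟩

theorem tLg2aB (h1 : Lv.S_Mop) (h2 : Lv.S_Exp) (h3 : S_LnkR) (h5 : S_CntR) (h6 : S_MomR)
    (h7 : LvU.S_Binu) (h8 : LvU.S_EqzE) (h9 : LvU.S_Epsu) : S_Lg2aB := by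
  classical
  intro β ε hε
  obtain ⟨C₀, hC₀⟩ := h7 16 0 (by norm_num)
  obtain ⟨m₀, hm₀⟩ := hC₀ 1 one_pos
  obtain ⟨C, hC, hCN⟩ := lg2a_const β
  obtain ⟨K, hK⟩ := exists_nat_gt (C / ε)
  have hK0 : 0 < (K : ℝ) := lt_trans (by positivity) hK
  refine ⟨K, max (2 * C₀) (m₀ + 576), ?_⟩
  intro G N P F _ _ _ _ _ _ D pi Irr hA ar hq T1 hT1 hTc m n h X hF hok
  obtain ⟨A, hAdef⟩ : ∃ A, A = max (2 * C₀) (m₀ + 576) := ⟨_, rfl⟩
  rw [← hAdef] at hF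
  have hA1 : 2 * C₀ ≤ A := hAdef ▸ le_max_left _ _
  have hA2 : m₀ + 576 ≤ A := hAdef ▸ le_max_right _ _
  obtain ⟨hcard, -⟩ := h1 D.toDat hA.ax
  obtain ⟨-, -, ⟨S, hS⟩, -⟩ := h2 D.toDat hA.ax
  have hσ := (h3 D hA T1 hT1 S hS).2
  have : Finite (VN N) := Nat.finite_of_card_ne_zero (by rw [hcard]; norm_num)
  have hW : 16 = Nat.card (Fin 2 → VN N) := by
    rw [Nat.card_fun, hcard, Nat.card_fin]
    norm_num
  have hM : (0 : ℝ) ≤ ∏ i, (#(Irr (n i)) : ℝ) := Finset.prod_nonneg fun i _ => Nat.cast_nonneg _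
  have hnz : ∀ z ∈ tupF Irr n, nz D.toDat z = fun i => ((n i : ℕ) : ZMod 2) := by
    intro z hz
    have hz' := lg2a_mem Irr n z hz
    funext i
    have h7 := (ar.irr (n i) (z i)).1 (hz'.1 i)
    have h8 : z i ≠ D.inf := by
      rintro h9
      rw [h9] at h7
      exact h7.1 hA.ax.infS
    show D.ch (z i) (D.tau D.inf) = _
    rw [ar.deg (z i) h8, h7.2]
  obtain ⟨h20, heps⟩ := h9 D.toDat pi A m n h X hF (by omega)
  obtain ⟨ε', he0, he1, he2⟩ := heps 16 1 (by norm_num) (by omega) (by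
    have : (576 : ℝ) ≤ A := by exact_mod_cast (by omega : 576 ≤ A)
    push_cast
    linarith)
  have hE := h8 D.toDat pi Irr hA.ax ar hq m n h X hF.four hF.ge hF.sm hF.tot h20 ε' he1
  have hTle : #T1 ≤ Fintype.card (TT D.toDat) := Finset.card_le_univ T1
  have hmom := h6 (TT D.toDat) (Fin 2 → VN N) (Fin m → P) m (S.pow 2) T1
    (fun v hv y => by
      funext j
      rw [Opr.pow_σ]
      exact hσ v hv (y j))
    (fun i => ((n i : ℕ) : ZMod 2)) (tupF Irr n) (Az D.toDat) (Bz D.toDat)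
    (∏ i, (#(Irr (n i)) : ℝ)) ε' hM he0 hE 16 (Fintype.card (TT D.toDat) - #T1) hW (by omega)
  have hrat := hF.rat
  have hm1 : C₀ * (Fintype.card (TT D.toDat) + 2) ≤ m := by
    refine le_trans ?_ hrat
    calc C₀ * (Fintype.card (TT D.toDat) + 2) ≤ C₀ * (2 * (Fintype.card (TT D.toDat) + 1)) :=
          Nat.mul_le_mul_left _ (by omega)
      _ = 2 * C₀ * (Fintype.card (TT D.toDat) + 1) := by ring
      _ ≤ A * (Fintype.card (TT D.toDat) + 1) := Nat.mul_le_mul_right _ hA1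
  have hm2 : m₀ ≤ m := by
    refine le_trans ?_ hrat
    calc m₀ ≤ A := by omega
      _ = A * 1 := (mul_one A).symm
      _ ≤ A * (Fintype.card (TT D.toDat) + 1) := Nat.mul_le_mul_left _ (by omega)
  have hb := hm₀ m hm2 (Fintype.card (TT D.toDat) + 2) hm1
  have hcc : ((16 : ℕ) : ℝ) ^ (Fintype.card (TT D.toDat) - #T1 + 1) ≤
      ((16 : ℕ) : ℝ) ^ (β + 1) :=
    pow_le_pow_right₀ (by norm_num) (by omega)
  have hfin := lg2a_num ((2 : ℝ) ^ ((16 : ℕ) ^ 2)) _ _ 16 (Fintype.card (TT D.toDat)) m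
    (few 16 0 m) ε' (by norm_num) (by positivity) hcc hb he2
  have hmom' := hmom.trans (mul_le_mul_of_nonneg_left (hfin.trans (hCN 16 rfl)) hM)
  have hfinu : ∀ z, Finite {x : Unk (TT D.toDat) (Fin 2 → VN N) m //
      RE (S.pow 2) T1 (fun i => ((n i : ℕ) : ZMod 2)) (Az D.toDat z) (Bz D.toDat z) x} :=
    fun z => inferInstance
  have hsq : ∀ z ∈ tupF Irr n, (Nat.card (D.Dk z 1) : ℝ) ^ 2 ≤
      (Nat.card {x : Unk (TT D.toDat) (Fin 2 → VN N) m //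
      RE (S.pow 2) T1 (fun i => ((n i : ℕ) : ZMod 2)) (Az D.toDat z) (Bz D.toDat z) x} : ℝ) := by
    intro z hz
    have hz' := lg2a_mem Irr n z hz
    have h10 := h5 D hA T1 hT1 S hS m z (hok z hz') 2
    rw [hnz z hz] at h10
    exact_mod_cast h10
  have hmom2 := (Finset.sum_le_sum hsq).trans hmom'
  rw [lg2a_set, finsum_mem_coe_finset]
  refine lg2a_cheb (tupF Irr n) (fun z => Nat.card (D.Dk z 1)) _ K (fun _ => Iff.rfl) C _ ε hM
    hK0 ?_ ?_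
  · rw [div_le_iff₀ hK0]
    rw [div_lt_iff₀ hε] at hK
    linarith
  · rw [mul_comm]
    exact hmom2

end Pool.Agent.MP72B
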