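import Pool.Agent.Lib.MP_72e2e6_nt.Sm.B.SpecG

/-!
# MP_72e2e6_nt, `Sm/B`, module `Lg2bB`: missing patterns are rare for a given order of `Dk z 1`
-/

set_option autoImplicit false

namespace Pool.Agent.MP72B

open Finset Polynomial MP72e2e6 Pool.Agent.MP72S Pool.Agent.MP72S.Lv

private theorem lgbbTup {P : Type} {m : ℕ} (Irr : ℕ → Finset P) (n : Fin m → ℕ) :
    (tup fun i => Irr (n i)) = (↑(tupF Irr n) : Set (Fin m → P)) := by
  ext z
  simp [tup, tupF, Fintype.mem_piFinset]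

private theorem lgbbNum (K q : ℝ) (t m : ℕ) (f ε ε' : ℝ) (hK : 0 < K) (hq : 0 < q)
    (hb : K ^ (t + 2) * f ≤ ε / (2 * q) * K ^ m) (he : ε' * K ^ (t + 1 + m) ≤ ε / 2) :
    K ^ (t + 2) * q * (f / K ^ m) + ε' * K ^ (t + 1 + m) ≤ ε := by
  have h4m : (0 : ℝ) < K ^ m := by positivity
  have hb' : K ^ (t + 2) * (f / K ^ m) ≤ ε / (2 * q) := by
    rw [← mul_div_assoc, div_le_iff₀ h4m]
    exact hb
  have e1 : K ^ (t + 2) * q * (f / K ^ m) = q * (K ^ (t + 2) * (f / K ^ m)) := by ring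
  rw [e1]
  have e2 := mul_le_mul_of_nonneg_left hb' hq.le
  have e3 : q * (ε / (2 * q)) = ε / 2 := by
    field_simp
  rw [e3] at e2
  linarith

theorem tLg2bB (h1 : Lv.S_Mop) (h2 : Lv.S_Exp) (h4 : Lv.S_Dnz) (h3 : S_LnkR) (h5 : S_MbdR)
    (h6 : S_PbdR) (h7 : LvU.S_Binu) (h8 : LvU.S_EqzE) (h9 : LvU.S_Epsu) : S_Lg2bB := by
  classical
  intro k L ε hε
  obtain ⟨K, hK⟩ : ∃ K : ℕ, K = 4 ^ k := ⟨_, rfl⟩
  have hK1 : 1 ≤ K := by
    rw [hK]
    exact Nat.one_le_pow _ _ (by norm_num)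
  have hKr : (0 : ℝ) < K := by exact_mod_cast hK1
  obtain ⟨C₀, hC₀⟩ := h7 K L hK1
  have hq0 : (0 : ℝ) < 2 ^ (K ^ 2) := pow_pos two_pos _
  obtain ⟨m₀, hm₀⟩ := hC₀ (ε / (2 * 2 ^ (K ^ 2))) (by positivity)
  obtain ⟨R, hR⟩ := exists_nat_ge (72 * (K : ℝ) / ε)
  refine ⟨max (2 * C₀) (max m₀ (max K R)), ?_⟩
  intro G N P F _ _ _ _ _ _ D pi Irr hA hI ar hq T1 hT1 m n h X hF hpar hok b
  obtain ⟨A, hAdef⟩ : ∃ A, A = max (2 * C₀) (max m₀ (max K R)) := ⟨_, rfl⟩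
  rw [← hAdef] at hF
  have hA1 : 2 * C₀ ≤ A := by omega
  have hA2 : m₀ ≤ A := by omega
  have hA3 : K ≤ A := by omega
  have hA4 : R ≤ A := by omega
  have hc : Nat.card (VN N) = 4 := (h1 D.toDat hA.ax).1
  obtain ⟨S, hS⟩ := (h2 D.toDat hA.ax).2.2.1
  have : Finite (VN N) := Nat.finite_of_card_ne_zero (by rw [hc]; norm_num)
  have hKc : K = Nat.card (VN N) ^ k := by rw [hc]; exact hK
  obtain ⟨t, ht⟩ : ∃ t, t = Fintype.card (TT D.toDat) := ⟨_, rfl⟩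
  obtain ⟨M, hM⟩ : ∃ M : ℝ, M = ∏ i, (#(Irr (n i)) : ℝ) := ⟨_, rfl⟩
  have hM0 : 0 ≤ M := by
    rw [hM]
    exact prod_nonneg fun i _ => Nat.cast_nonneg _
  have hnz : ∀ z ∈ tup fun i => Irr (n i), nz D.toDat z = fun i => (n i : ZMod 2) := by
    intro z hz'
    funext i
    obtain ⟨hS', hd⟩ := (ar.irr _ _).1 (hz'.1 i)
    have hne : z i ≠ D.inf := fun h => hS' (by rw [h]; exact hA.ax.infS)
    rw [nz, ar.deg _ hne, hd]
  have hpar' : (∃ v ∈ T1, S.d v ≠ 0) ∨ ∃ i, (n i : ZMod 2) ≠ 0 := by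
    rcases hpar with ⟨v, hv, h⟩ | ⟨i, hi⟩
    · refine Or.inl ⟨v, hv, ?_⟩
      rw [hS.d v, h]
      exact one_ne_zero
    · refine Or.inr ⟨i, ?_⟩
      rw [Ne, ZMod.natCast_eq_zero_iff_even]
      exact Nat.not_even_iff_odd.2 hi
  obtain ⟨h20, heps⟩ := h9 D.toDat pi A m n h X hF (by omega)
  obtain ⟨ε', he0, he1, he2⟩ := heps K (ε / 2) hK1 hA3 (by
    have e1 : 72 * (K : ℝ) ≤ R * ε := by rwa [div_le_iff₀ hε] at hR
    have e2 : (R : ℝ) ≤ A := by exact_mod_cast hA4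
    have e3 : (R : ℝ) * ε ≤ A * ε := mul_le_mul_of_nonneg_right e2 hε.le
    linarith)
  have hE := h8 D.toDat pi Irr hA.ax ar hq m n h X hF.four hF.ge hF.sm hF.tot h20 ε' he1
  have hmb := h5 (TT D.toDat) (VN N) (Fin m → P) m S T1 (h3 D hA T1 hT1 S hS).2
    (fun i => (n i : ZMod 2)) hpar' k
    (h4 D.toDat hA.ax hI S hS k) (tupF Irr n) (Az D.toDat) (Bz D.toDat) M ε' hM0 he0
    (by rw [hM]; exact hE) b L K hKc
  have hrat := hF.rat
  rw [← ht] at hrat he2 hmb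
  have hm1 : C₀ * (t + 2) ≤ m := by
    refine le_trans ?_ hrat
    calc C₀ * (t + 2) ≤ C₀ * (2 * (t + 1)) := Nat.mul_le_mul_left _ (by omega)
      _ = 2 * C₀ * (t + 1) := by ring
      _ ≤ A * (t + 1) := Nat.mul_le_mul_right _ hA1
  have hm2 : m₀ ≤ m := by
    refine le_trans ?_ hrat
    calc m₀ ≤ A := hA2
      _ = A * 1 := (mul_one A).symm
      _ ≤ A * (t + 1) := Nat.mul_le_mul_left _ (by omega)
  have hb := hm₀ m hm2 (t + 2) hm1
  rw [← hM]
  refine le_trans ?_ (hmb.trans ?_)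
  · -- every `z` in the set has a bad solution
    obtain ⟨E, hE⟩ : ∃ E : Set (Fin m → P), E = {z ∈ tup fun i => Irr (n i) |
      Nat.card (D.Dk z 1) = 4 * 2 ^ k ∧ ¬ D.Pat z b L} := ⟨_, rfl⟩
    rw [← hE]
    have hsub : E = (↑((tupF Irr n).filter fun z => z ∈ E) : Set (Fin m → P)) := by
      ext z
      rw [Finset.mem_coe, Finset.mem_filter]
      constructor
      · intro h
        refine ⟨?_, h⟩
        have h' := h
        rw [hE] at h'
        have h'' := h'.1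
        rw [lgbbTup] at h''
        exact h''
      · exact fun h => h.2
    have hcard : E.ncard = #((tupF Irr n).filter fun z => z ∈ E) := by
      conv_lhs => rw [hsub]
      exact Set.ncard_coe_finset _
    rw [hcard, card_filter]
    push_cast
    refine sum_le_sum fun z hz => ?_
    split_ifs with hzE
    · rw [hE] at hzE
      have hz' := hzE.1
      obtain ⟨x, hx, hb⟩ :=
        (h6 D hA T1 hT1 S hS m z (hok z hz') b).2 k hzE.2.1 L hzE.2.2
      rw [hnz z hz'] at hx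
      have hne : Nonempty {x : Unk (TT D.toDat) (Fin k → VN N) m //
          RE (S.pow k) T1 (fun i => (n i : ZMod 2)) (Az D.toDat z) (Bz D.toDat z) x ∧
            BadR S k b L x} :=
        ⟨⟨x, hx, hb⟩⟩
      have : 0 < Nat.card {x : Unk (TT D.toDat) (Fin k → VN N) m //
          RE (S.pow k) T1 (fun i => (n i : ZMod 2)) (Az D.toDat z) (Bz D.toDat z) x ∧
            BadR S k b L x} :=
        Nat.card_pos
      exact_mod_cast this
    · exact Nat.cast_nonneg _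
  · rw [mul_comm]
    refine mul_le_mul_of_nonneg_right ?_ hM0
    exact lgbbNum K (2 ^ (K ^ 2)) t m (few K L m) ε ε' hKr hq0 hb he2

end Pool.Agent.MP72B
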