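import Pool.Agent.Lib.MP_72e2e6_nt.Sm.B.SpecG

/-!
# MP_72e2e6_nt, `Sm/B`, module `LnkR`: the elements of `Dk z 1` solve the relaxed system
-/

set_option autoImplicit false

namespace Pool.Agent.MP72B

open Finset Polynomial MP72e2e6 Pool.Agent.MP72S Pool.Agent.MP72S.Lv

section

variable {G N P : Type} [Group G] [TopologicalSpace G] [AddCommGroup N] [DistribMulAction G N]

/-- The homomorphism with the prescribed coordinates. -/
private noncomputable def lrF (D : Dat G N P) {m : ℕ} (z : Fin m → P)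
    (x : Unk (TT D) (VN N) m) (g : G) : VN N :=
  ∑ v, D.ch v.1 g • x.1 v + ∑ i, D.ch (z i) g • x.2.2 i + D.cst g • x.2.1

variable {D : Dat G N P} {S : Opr (TT D) (VN N)} {m : ℕ} {z : Fin m → P}

private theorem lr_tw (ax : Ax D) (hMop : Lv.S_Mop) (hExp : Lv.S_Exp) (hS : IsSy D S) (g : G)
    (w : VN N) (Q : N) (hQ : 2 • Q = w.v) :
    tw (D.chi z) g Q - Q = (∑ v, D.ch v.1 g • S.σ v w + D.cst g • S.Λ w +
      (∑ i, D.ch (z i) g) • w).v := by
  obtain ⟨-, -, h3, -, -, -, h7, h8⟩ := hMop D ax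
  obtain ⟨-, -, -, h4⟩ := hExp D ax
  obtain ⟨L, hL⟩ := h3 D.ch0 g
  have hm := h7 D.ch0 (D.chi z) g (∑ i, D.ch (z i) g) L rfl hL
  rw [← hm w Q hQ, LinearMap.add_apply, h4 S hS _ L hL w, LinearMap.smul_apply,
    Module.End.one_apply]

private theorem lr_hoF (ax : Ax D) (hz : ∀ i, z i ∉ D.S) (x : Unk (TT D) (VN N) m) :
    IsHo fun g => (lrF D z x g).v := by
  have hzi : ∀ i, z i ≠ D.inf := fun i hi => hz i (hi ▸ ax.infS)
  refine ⟨?_, fun σ => VN.two _, fun σ τ => ?_⟩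
  · rw [IsLocallyConstant.iff_eventually_eq]
    intro g
    have e1 : ∀ᶠ y in nhds g, ∀ v : TT D, D.ch v.1 y = D.ch v.1 g :=
      Filter.eventually_all.mpr fun v =>
        (IsLocallyConstant.iff_eventually_eq _).mp (ax.chc v.1 v.2.2).lc g
    have e2 : ∀ᶠ y in nhds g, ∀ i : Fin m, D.ch (z i) y = D.ch (z i) g :=
      Filter.eventually_all.mpr fun i =>
        (IsLocallyConstant.iff_eventually_eq _).mp (ax.chc (z i) (hzi i)).lc g
    have e3 : ∀ᶠ y in nhds g, D.cst y = D.cst g :=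
      (IsLocallyConstant.iff_eventually_eq _).mp ax.cstc.lc g
    filter_upwards [e1, e2, e3] with y h1 h2 h3
    simp only [lrF, h1, h2, h3]
  · rw [← VN.v_add]
    congr 1
    unfold lrF
    have h1 : ∀ v : TT D, D.ch v.1 (σ * τ) = D.ch v.1 σ + D.ch v.1 τ :=
      fun v => (ax.chc v.1 v.2.2).mul σ τ
    have h2 : ∀ i : Fin m, D.ch (z i) (σ * τ) = D.ch (z i) σ + D.ch (z i) τ :=
      fun i => (ax.chc (z i) (hzi i)).mul σ τ
    simp only [h1, h2, ax.cstc.mul σ τ, add_smul, Finset.sum_add_distrib]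
    abel

private theorem lrF_tau (ax : Ax D) (hz : ∀ i, z i ∉ D.S) (x : Unk (TT D) (VN N) m) (v : TT D) :
    lrF D z x (D.tau v.1) = x.1 v := by
  have hzi : ∀ i, z i ≠ D.inf := fun i hi => hz i (hi ▸ ax.infS)
  unfold lrF
  have h1 : ∑ v', D.ch v'.1 (D.tau v.1) • x.1 v' = x.1 v := by
    rw [Finset.sum_eq_single v]
    · rw [ax.ch_tau _ v.2.2, one_smul]
    · intro v' _ h
      rw [ax.ch_tau' _ _ v'.2.2 v.2.2 (fun h' => h (Subtype.ext h')), zero_smul]
    · intro h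
      exact absurd (Finset.mem_univ _) h
  have h2 : ∑ i, D.ch (z i) (D.tau v.1) • x.2.2 i = 0 := by
    refine Finset.sum_eq_zero fun i _ => ?_
    rw [ax.ch_tau' _ _ (hzi i) v.2.2 (fun h' => hz i (h' ▸ v.2.1)), zero_smul]
  rw [h1, h2, ax.cst_tau, zero_smul, add_zero, add_zero]

private theorem lrF_tau_z (ax : Ax D) (hz : ∀ i, z i ∉ D.S) (hi : Function.Injective z)
    (x : Unk (TT D) (VN N) m) (i : Fin m) : lrF D z x (D.tau (z i)) = x.2.2 i := by
  have hzi : ∀ i, z i ≠ D.inf := fun i hi => hz i (hi ▸ ax.infS)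
  unfold lrF
  have h1 : ∑ v', D.ch v'.1 (D.tau (z i)) • x.1 v' = 0 := by
    refine Finset.sum_eq_zero fun v' _ => ?_
    rw [ax.ch_tau' _ _ v'.2.2 (hzi i) (fun h' => hz i (h' ▸ v'.2.1)), zero_smul]
  have h2 : ∑ j, D.ch (z j) (D.tau (z i)) • x.2.2 j = x.2.2 i := by
    rw [Finset.sum_eq_single i]
    · rw [ax.ch_tau _ (hzi i), one_smul]
    · intro j _ h
      rw [ax.ch_tau' _ _ (hzi j) (hzi i) (fun h' => h (hi h')), zero_smul]
    · intro h
      exact absurd (Finset.mem_univ _) h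
  rw [h1, h2, ax.cst_tau, zero_smul, add_zero, zero_add]

private theorem lrF_phi_inf (ax : Ax D) (hz : ∀ i, z i ∉ D.S) (x : Unk (TT D) (VN N) m) :
    lrF D z x (D.phi D.inf) = x.2.1 := by
  have hzi : ∀ i, z i ≠ D.inf := fun i hi => hz i (hi ▸ ax.infS)
  unfold lrF
  have h1 : ∑ v', D.ch v'.1 (D.phi D.inf) • x.1 v' = 0 := by
    refine Finset.sum_eq_zero fun v' _ => ?_
    rw [ax.ch_inf _ v'.2.2, zero_smul]
  have h2 : ∑ j, D.ch (z j) (D.phi D.inf) • x.2.2 j = 0 := by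
    refine Finset.sum_eq_zero fun j _ => ?_
    rw [ax.ch_inf _ (hzi j), zero_smul]
  rw [h1, h2, ax.cst_inf, one_smul, zero_add, zero_add]

/-- The expansion of a homomorphism. -/
private theorem lr_exp (ax : Ax D) (hExp : Lv.S_Exp) (hz : ∀ i, z i ∉ D.S)
    (hi : Function.Injective z) (x : Unk (TT D) (VN N) m) (ψ : G → N) (ho : IsHo ψ)
    (hur0 : ∀ v, v ∉ Set.range (D.pl z) → ψ (D.tau v) = 0)
    (c1 : ∀ v : TT D, (x.1 v).v = ψ (D.tau v.1)) (c2 : x.2.1.v = ψ (D.phi D.inf))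
    (c3 : ∀ i, (x.2.2 i).v = ψ (D.tau (z i))) (g : G) : ψ g = (lrF D z x g).v := by
  classical
  have hzi : ∀ i, z i ≠ D.inf := fun i hi => hz i (hi ▸ ax.infS)
  have hoF := lr_hoF ax hz x
  obtain ⟨-, hE2, -, -⟩ := hExp D ax
  let A : Finset P := D.S.erase D.inf ∪ univ.image z
  have hA : ∀ v, v ∈ A ↔ (v ∈ D.S ∧ v ≠ D.inf) ∨ ∃ i, z i = v := by
    intro v
    simp only [A, mem_union, mem_erase, mem_image, mem_univ, true_and]
    tauto
  have hiA : D.inf ∉ A := by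
    rw [hA]
    rintro (h' | ⟨i, h'⟩)
    · exact h'.2 rfl
    · exact hzi i h'
  have hurF : ∀ v, v ∉ A → v ≠ D.inf → (lrF D z x (D.tau v)).v = 0 := by
    intro v hv hvi
    rw [hA] at hv
    push Not at hv
    have e : lrF D z x (D.tau v) = 0 := by
      unfold lrF
      have e1 : ∑ v', D.ch v'.1 (D.tau v) • x.1 v' = 0 := by
        refine Finset.sum_eq_zero fun v' _ => ?_
        rw [ax.ch_tau' _ _ v'.2.2 hvi (fun h' => hvi (hv.1 (h' ▸ v'.2.1))), zero_smul]
      have e2 : ∑ i, D.ch (z i) (D.tau v) • x.2.2 i = 0 := by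
        refine Finset.sum_eq_zero fun i _ => ?_
        rw [ax.ch_tau' _ _ (hzi i) hvi (hv.2 i), zero_smul]
      rw [e1, e2, ax.cst_tau, zero_smul, add_zero, add_zero]
    rw [e, VN.v_zero]
  have hur : ∀ v, v ∉ A → v ≠ D.inf → ψ (D.tau v) = 0 := by
    intro v hv hvi
    apply hur0
    rw [hA] at hv
    push Not at hv
    rintro ⟨j, hj⟩
    rcases j with ⟨s, hs⟩ | i
    · have hj' : s = v := hj
      subst hj'
      exact hvi (hv.1 hs)
    · exact hv.2 i hj
  have hA1 : ∀ v ∈ A, ψ (D.tau v) = (lrF D z x (D.tau v)).v := by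
    intro v hv
    rw [hA] at hv
    rcases hv with hv | ⟨i, rfl⟩
    · rw [lrF_tau ax hz x ⟨v, hv⟩, c1 ⟨v, hv⟩]
    · rw [lrF_tau_z ax hz hi x i, c3 i]
  have hA2 : ψ (D.phi D.inf) = (lrF D z x (D.phi D.inf)).v := by
    rw [lrF_phi_inf ax hz x, c2]
  rw [hE2 A ψ hiA ho hur g, hE2 A _ hiA hoF hurF g, ← hA2]
  congr 1
  refine Finset.sum_congr rfl fun v hv => ?_
  rw [hA1 v hv]

/-- The equation at `g`. -/
private theorem lr_eq (ax : Ax D) (hMop : Lv.S_Mop) (hExp : Lv.S_Exp) (hS : IsSy D S)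
    (x : Unk (TT D) (VN N) m) (g : G) (w : VN N) (Q : N) (hQ : 2 • Q = w.v)
    (h : (lrF D z x g).v = tw (D.chi z) g Q - Q) :
    ∑ v, D.ch v.1 g • (x.1 v - S.σ v w) + ∑ i, D.ch (z i) g • (x.2.2 i - w) +
      D.cst g • (x.2.1 - S.Λ w) = 0 := by
  rw [lr_tw ax hMop hExp hS g w Q hQ] at h
  have h1 := VN.inj h
  unfold lrF at h1
  simp only [smul_sub, Finset.sum_sub_distrib]
  rw [← Finset.sum_smul]
  rw [← sub_eq_zero] at h1
  rw [← h1]
  abel

private theorem lr_neg {x : N} (h : 2 • x = 0) : -x = x := by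
  rw [two_nsmul] at h
  exact neg_eq_of_add_eq_zero_left h

end

theorem tLnkR : MP72S.S_Hom → MP72S.S_Sym → Lv.S_Mop → Lv.S_Exp → S_Uq → S_Tai → S_TyU →
    S_Dk1 → S_LnkR := by
  intro _ hSym hMop hExp hUq hTai hTyU hDk1 G N P _ _ _ _ D hA T1 hT1 S hS
  have ax := hA.ax
  refine ⟨fun m z hz => ?_, ?_⟩
  · have hzS := hz.nS
    have hzi : ∀ i, z i ≠ D.inf := fun i hi => hzS i (hi ▸ ax.infS)
    have hmem := (hDk1 D hA z hz).1
    obtain ⟨-, -, -, -, u5⟩ := hUq D hA z hz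
    obtain ⟨-, -, -, -, a5, -⟩ := hTai D hA z hz
    obtain ⟨hc, -, -, -⟩ := hExp D.toDat ax
    have hho : ∀ t ∈ D.Dk z 1, IsHo (D.coc z t) := by
      intro t ht
      obtain ⟨h1, h2⟩ := (hmem t).1 ht
      have hZ := DatL.coc_spec h1
      have h3 : ∀ σ, 2 • D.coc z t σ = 0 := fun σ => by
        have := u5 t h1 1 (by rw [pow_one]; exact h2) σ
        rwa [pow_one] at this
      exact ⟨hZ.u.lc, h3, fun σ τ => by rw [hZ.u.co σ τ, tw_two ax.tri (h3 τ)]⟩
    have hexp : ∀ t ∈ D.Dk z 1, ∀ x, D.Crd z (D.coc z t) x → ∀ g,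
        D.coc z t g = (lrF D.toDat z x g).v := by
      intro t ht x hx g
      have hZ := DatL.coc_spec ((hmem t).1 ht).1
      exact lr_exp ax hExp hzS hz.inj x _ (hho t ht) hZ.u.ur hx.fx hx.fi hx.vr g
    refine ⟨fun t ht => ⟨hho t ht, ?_, fun x hx => ?_⟩, fun t ht t' ht' x hx hx' => ?_⟩
    · have ho := hho t ht
      exact ⟨(fun v => VN.mk _ (ho.two (D.tau v.1)), VN.mk _ (ho.two (D.phi D.inf)),
        fun i => VN.mk _ (ho.two (D.tau (z i)))), fun v => rfl, rfl, fun i => rfl⟩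
    · obtain ⟨h1, h2⟩ := (hmem t).1 ht
      have hZ := DatL.coc_spec h1
      have ho := hho t ht
      have he := hexp t ht x hx
      have ht2 : ∀ j, 2 • t j = 0 := fun j => congrFun h2 j
      have hlast : ∀ i, (x.2.2 i).v = t (Sum.inr i) := by
        intro i
        rw [hx.vr i, a5 i t _ hZ, lr_neg (ht2 _)]
      refine ⟨⟨fun v hv => ?_, fun i => ?_⟩, hlast⟩
      · obtain ⟨Q, -, l1, l2⟩ := hZ.lo (Sum.inl ⟨v.1, v.2.1⟩)
        have l1 : D.coc z t (D.tau v.1) = tw (D.chi z) (D.tau v.1) Q - Q := l1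
        have l2 : D.coc z t (D.phi v.1) = tw (D.chi z) (D.phi v.1) Q - Q := l2
        have hchi : D.chi z (D.tau v.1) = 1 := by
          have e : ∑ i, D.ch (z i) (D.tau v.1) = 0 := by
            refine Finset.sum_eq_zero fun i _ => ?_
            rw [ax.ch_tau' _ _ (hzi i) v.2.2 (fun h' => hzS i (h' ▸ v.2.1))]
          change D.ch0 (D.tau v.1) + ∑ i, D.ch (z i) (D.tau v.1) = 1
          rw [(hT1 v hv).1, e, add_zero]
        have hQ : 2 • Q = (x.1 v).v := by
          have e1 : (x.1 v).v = -(2 • Q) := by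
            rw [hx.fx v, l1, MP72S.tw, hchi, sg_one', (hT1 v hv).2 Q, two_nsmul]
            abel
          have e2 := lr_neg (VN.two (x.1 v))
          rw [← e2, e1, neg_neg]
        have heq := lr_eq (z := z) ax hMop hExp hS x (D.phi v.1) (x.1 v) Q hQ (by
          rw [← he]
          exact l2)
        rw [← heq]
        have h : ∀ i, D.ch (z i) (D.phi v.1) = Az D.toDat z v i := fun i =>
          hSym D.toDat ax _ _ (hzi i) v.2.2 (fun h' => hzS i (h' ▸ v.2.1))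
        simp only [hS.l, hS.d, hc v.1 v.2.2, h]
      · obtain ⟨Q, q1, l1, l2⟩ := hZ.lo (Sum.inr i)
        have l2 : D.coc z t (D.phi (z i)) = tw (D.chi z) (D.phi (z i)) Q - Q := l2
        have hQ : 2 • Q = (x.2.2 i).v := by
          rw [hlast i]
          exact q1
        have heq := lr_eq (z := z) ax hMop hExp hS x (D.phi (z i)) (x.2.2 i) Q hQ (by
          rw [← he]
          exact l2)
        rw [← heq]
        have h : ∀ j, D.ch (z j) (D.phi (z i)) = Bz D.toDat z i j := by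
          intro j
          by_cases hij : j = i
          · rw [hij]
            rfl
          · exact hSym D.toDat ax _ _ (hzi j) (hzi i) (fun h' => hij (hz.inj h'))
        simp only [h, hc (z i) (hzi i)]
        rfl
    · have h1 := DatL.coc_spec ((hmem t).1 ht).1
      have h2 := DatL.coc_spec ((hmem t').1 ht').1
      have h3 : D.coc z t = D.coc z t' := by
        funext g
        rw [hexp t ht x hx g, hexp t' ht' x hx' g]
      rw [← h3] at h2
      exact (hTyU D hA z hz).1 _ _ _ h1 h2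
  · intro v hv y
    obtain ⟨Q, hQ⟩ := ax.dvs y.v
    apply VN.inj
    rw [hS.sg v y Q hQ, MP72S.tw, (hT1 v hv).1, sg_one', (hT1 v hv).2 Q]
    have e2 := lr_neg (VN.two y)
    rw [← e2, ← hQ, two_nsmul]
    abel

end Pool.Agent.MP72B
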