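import Pool.Agent.Lib.MP_72e2e6_nt.Sm.B.SpecG
import Pool.Agent.Lib.MP_72e2e6_nt.Sm.G.Mom

/-!
# MP_72e2e6_nt, `Sm/B`: the average number of the solutions of the relaxed system
-/

set_option autoImplicit false

namespace Pool.Agent.MP72B

open Finset Polynomial MP72e2e6 Pool.Agent.MP72S Pool.Agent.MP72S.Lv Pool.Agent.MP72S.Lv.MomAux

/-- Every element of a maximal set is a value of `u`. -/
private def Fll {W : Type} [AddCommGroup W] [Module (ZMod 2) W] {m : ℕ}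
    (u : Fin m → W × Module.Dual (ZMod 2) W) : Prop :=
  ∃ 𝓥 : Finset (W × Module.Dual (ZMod 2) W), #𝓥 = Nat.card W ∧ (∀ i, u i ∈ 𝓥) ∧
        ∀ w ∈ 𝓥, 0 < {i | u i = w}.ncard

section

variable {T W X : Type} [Fintype T] [AddCommGroup W] [Module (ZMod 2) W] [Finite W] {m : ℕ}

open Classical in
private theorem sum_leR (hPrb : S_PrbR) (S : Opr T W) (T1 : Finset T)
    (hσ : ∀ v ∈ T1, ∀ y, S.σ v y = y) (n : Fin m → ZMod 2) (Z : Finset X)
    (A : X → T → Fin m → ZMod 2) (B : X → Fin m → Fin m → ZMod 2) {M ε : ℝ} (hM : 0 ≤ M)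
    (hε : 0 ≤ ε) (h : Eqd Z A B M ε) :
    (∑ z ∈ Z, (Nat.card {x : Unk T W m // RE S T1 n (A z) (B z) x} : ℝ)) ≤
      M * ((Nat.card {q : Unk T W m × ((Fin m → Module.Dual (ZMod 2) W) ×
          ({v // v ∈ T1} → Module.Dual (ZMod 2) W)) // RC S T1 q.1 q.2.1 q.2.2} : ℝ) /
            (Nat.card W : ℝ) ^ (#T1 + m) +
        ε * (Nat.card W : ℝ) ^ (Fintype.card T + 1 + m)) := by
  have : Fintype W := Fintype.ofFinite W
  have := fin_dual W
  have : Fintype (Module.Dual (ZMod 2) W) := Fintype.ofFinite _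
  have h1 : ∀ z, (Nat.card {x : Unk T W m // RE S T1 n (A z) (B z) x} : ℝ) =
      ∑ x : Unk T W m, if RE S T1 n (A z) (B z) x then (1 : ℝ) else 0 := by
    intro z
    rw [Nat.card_eq_fintype_card, Fintype.card_subtype, Finset.sum_boole]
  have h2 : ∀ x : Unk T W m, ({z | z ∈ Z ∧ RE S T1 n (A z) (B z) x}.ncard : ℝ) =
      ∑ z ∈ Z, if RE S T1 n (A z) (B z) x then (1 : ℝ) else 0 := by
    intro x
    rw [Finset.sum_boole]
    congr 1
    rw [← Set.ncard_coe_finset]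
    congr 1
    ext z
    simp
  have h3 : (Nat.card {q : Unk T W m × ((Fin m → Module.Dual (ZMod 2) W) ×
          ({v // v ∈ T1} → Module.Dual (ZMod 2) W)) // RC S T1 q.1 q.2.1 q.2.2} : ℝ) =
      ∑ x : Unk T W m, (Nat.card {p : (Fin m → Module.Dual (ZMod 2) W) ×
        ({v // v ∈ T1} → Module.Dual (ZMod 2) W) // RC S T1 x p.1 p.2} : ℝ) := by
    rw [Nat.card_eq_fintype_card, Fintype.card_subtype, Finset.card_filter]
    push_cast
    rw [Fintype.sum_prod_type]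
    refine Finset.sum_congr rfl fun x _ => ?_
    rw [Nat.card_eq_fintype_card, Fintype.card_subtype, Finset.card_filter]
    push_cast
    rfl
  calc (∑ z ∈ Z, (Nat.card {x : Unk T W m // RE S T1 n (A z) (B z) x} : ℝ))
      = ∑ x : Unk T W m, ({z | z ∈ Z ∧ RE S T1 n (A z) (B z) x}.ncard : ℝ) := by
        simp_rw [h1]
        rw [Finset.sum_comm]
        exact Finset.sum_congr rfl fun x _ => (h2 x).symm
    _ ≤ ∑ x : Unk T W m, (M * ((Nat.card {p : (Fin m → Module.Dual (ZMod 2) W) ×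
          ({v // v ∈ T1} → Module.Dual (ZMod 2) W) // RC S T1 x p.1 p.2} : ℝ) /
          (Nat.card W : ℝ) ^ (#T1 + m)) + M * ε) := by
        refine Finset.sum_le_sum fun x _ => ?_
        rw [← mul_add]
        exact hPrb T W X m S T1 hσ n Z A B M ε hM hε h x
    _ = _ := by
        rw [Finset.sum_add_distrib, Finset.sum_const, Finset.card_univ,
          ← Nat.card_eq_fintype_card (α := Unk T W m), card_unk, h3, mul_add, Finset.sum_div,
          Finset.mul_sum, nsmul_eq_mul]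
        congr 1
        push_cast
        ring

private theorem card_fullR (h1 : S_Few) (h3 : MP72e2e6.StmtPpTS) (hStr : S_StrR) (S : Opr T W)
    (T1 : Finset T) (hσ : ∀ v ∈ T1, ∀ y, S.σ v y = y) {β : ℕ} (hβ : Fintype.card T = #T1 + β) :
    Nat.card {q : Unk T W m × ((Fin m → Module.Dual (ZMod 2) W) ×
      ({v // v ∈ T1} → Module.Dual (ZMod 2) W)) // RC S T1 q.1 q.2.1 q.2.2 ∧
        Fll (fun i => (q.1.2.2 i, q.2.1 i))} ≤
    Nat.card W * (Nat.card W ^ β *
      ((2 ^ (Nat.card W ^ 2) * Nat.card W ^ m) * Nat.card W ^ #T1)) := by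
  classical
  have := fin_dual W
  set U : Type := {u : Fin m → W × Module.Dual (ZMod 2) W // (∀ i j, Rel (u i) (u j)) ∧ Fll u}
    with hU
  have : Fintype U := Fintype.ofFinite _
  let 𝓥 : U → Finset (W × Module.Dual (ZMod 2) W) := fun u => u.2.2.choose
  have h𝓥 : ∀ u : U, #(𝓥 u) = Nat.card W ∧ (∀ i, u.1 i ∈ 𝓥 u) ∧
      ∀ w ∈ 𝓥 u, 0 < {i | u.1 i = w}.ncard := fun u => u.2.2.choose_spec
  have hc0 : Nat.card ({v : T // v ∉ T1} → W) = Nat.card W ^ β := by
    rw [Nat.card_fun, Nat.card_eq_fintype_card (α := {v : T // v ∉ T1}),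
      Fintype.card_subtype_compl (fun v => v ∈ T1), Fintype.card_coe, hβ, Nat.add_sub_cancel_left]
  have hc1 : Nat.card (W × ({v : T // v ∉ T1} → W) ×
      Σ u : U, ({v // v ∈ T1} → {p // p ∈ 𝓥 u})) ≤
      Nat.card W * (Nat.card W ^ β *
        ((2 ^ (Nat.card W ^ 2) * Nat.card W ^ m) * Nat.card W ^ #T1)) := by
    rw [Nat.card_prod, Nat.card_prod, Nat.card_sigma, hc0]
    refine Nat.mul_le_mul_left _ (Nat.mul_le_mul_left _ ?_)
    have h5 : ∀ u : U, Nat.card ({v // v ∈ T1} → {p // p ∈ 𝓥 u}) ≤ Nat.card W ^ #T1 := by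
      intro u
      rw [Nat.card_fun, Nat.card_eq_fintype_card (α := {v : T // v ∈ T1}), Fintype.card_coe,
        Nat.card_eq_fintype_card, Fintype.card_coe, (h𝓥 u).1]
    calc ∑ u : U, Nat.card ({v // v ∈ T1} → {p // p ∈ 𝓥 u}) ≤ ∑ _u : U, Nat.card W ^ #T1 :=
          Finset.sum_le_sum fun u _ => h5 u
      _ = Nat.card U * Nat.card W ^ #T1 := by
          rw [Finset.sum_const, Finset.card_univ, smul_eq_mul, ← Nat.card_eq_fintype_card]
      _ ≤ _ := by
          refine Nat.mul_le_mul_right _ ?_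
          refine le_trans ?_ (few_hyp h3 h1 W m 0).1
          exact Nat.card_le_card_of_injective
            (fun u : U => (⟨u.1, u.2.1⟩ :
              {u : Fin m → W × Module.Dual (ZMod 2) W // ∀ i j, Rel (u i) (u j)}))
            (fun x y h => Subtype.ext (Subtype.mk.inj h))
  refine le_trans ?_ hc1
  have hmem : ∀ (q : Unk T W m × ((Fin m → Module.Dual (ZMod 2) W) ×
      ({v // v ∈ T1} → Module.Dual (ZMod 2) W))) (hq : RC S T1 q.1 q.2.1 q.2.2)
      (hF : Fll (fun i => (q.1.2.2 i, q.2.1 i))) (v : {v // v ∈ T1}),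
      (q.1.1 v.1, q.2.2 v) ∈ 𝓥 ⟨fun i => (q.1.2.2 i, q.2.1 i), fun i j => hq.un i j, hF⟩ := by
    intro q hq hF v
    have h6 := h𝓥 ⟨fun i => (q.1.2.2 i, q.2.1 i), fun i j => hq.un i j, hF⟩
    exact (hStr T W m S T1 hσ q.1 q.2.1 q.2.2 hq 0 _ h6.1 h6.2.1 h6.2.2).1 v
  refine Nat.card_le_card_of_injective (fun q => (q.1.1.2.1, fun v => q.1.1.1 v.1,
    ⟨(⟨fun i => (q.1.1.2.2 i, q.1.2.1 i), fun i j => q.2.1.un i j, q.2.2⟩ : U),
      fun v => ⟨(q.1.1.1 v.1, q.1.2.2 v), hmem q.1 q.2.1 q.2.2 v⟩⟩)) ?_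
  rintro ⟨⟨⟨c, c₀, s⟩, lam, δ⟩, hq⟩ ⟨⟨⟨c', c₀', s'⟩, lam', δ'⟩, hq'⟩ h
  simp only [Prod.mk.injEq, Sigma.mk.injEq] at h
  obtain ⟨h2, h4, h5, h7⟩ := h
  have h5' := Subtype.mk.inj h5
  have h8 : s = s' := funext fun i => (Prod.mk.inj (congrFun h5' i)).1
  have h9 : lam = lam' := funext fun i => (Prod.mk.inj (congrFun h5' i)).2
  subst h2 h8 h9
  have h10 := eq_of_heq h7
  have h11 : c = c' := by
    funext v
    by_cases hv : v ∈ T1
    · exact (Prod.mk.inj (Subtype.mk.inj (congrFun h10 ⟨v, hv⟩))).1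
    · exact congrFun h4 ⟨v, hv⟩
  have h12 : δ = δ' := funext fun v => (Prod.mk.inj (Subtype.mk.inj (congrFun h10 v))).2
  subst h11 h12
  rfl

private theorem card_notfullR (h1 : S_Few) (h3 : MP72e2e6.StmtPpTS) (S : Opr T W)
    (T1 : Finset T) :
    Nat.card {q : Unk T W m × ((Fin m → Module.Dual (ZMod 2) W) ×
      ({v // v ∈ T1} → Module.Dual (ZMod 2) W)) // RC S T1 q.1 q.2.1 q.2.2 ∧
        ¬ Fll (fun i => (q.1.2.2 i, q.2.1 i))} ≤
    Nat.card W ^ (Fintype.card T + #T1 + 1) *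
      (2 ^ (Nat.card W ^ 2) * Nat.card W * few (Nat.card W) 0 m) := by
  classical
  have := fin_dual W
  have hc1 : Nat.card ((T → W) × W × ({v // v ∈ T1} → Module.Dual (ZMod 2) W) ×
      {u : Fin m → W × Module.Dual (ZMod 2) W // (∀ i j, Rel (u i) (u j)) ∧ ¬ Fll u}) ≤
      Nat.card W ^ (Fintype.card T + #T1 + 1) *
      (2 ^ (Nat.card W ^ 2) * Nat.card W * few (Nat.card W) 0 m) := by
    rw [Nat.card_prod, Nat.card_prod, Nat.card_prod, Nat.card_fun, Nat.card_fun, card_dual,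
      Nat.card_eq_fintype_card (α := T), Nat.card_eq_fintype_card (α := {v : T // v ∈ T1}),
      Fintype.card_coe]
    have h5 := (few_hyp h3 h1 W m 0).2
    calc _ = Nat.card W ^ (Fintype.card T + #T1 + 1) * Nat.card {u : Fin m → W ×
          Module.Dual (ZMod 2) W // (∀ i j, Rel (u i) (u j)) ∧ ¬ Fll u} := by ring
      _ ≤ _ := Nat.mul_le_mul_left _ h5
  refine le_trans ?_ hc1
  refine Nat.card_le_card_of_injective (fun q => (q.1.1.1, q.1.1.2.1, q.1.2.2,
    ⟨fun i => (q.1.1.2.2 i, q.1.2.1 i), fun i j => q.2.1.un i j, q.2.2⟩)) ?_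
  rintro ⟨⟨⟨c, c₀, s⟩, lam, δ⟩, hq⟩ ⟨⟨⟨c', c₀', s'⟩, lam', δ'⟩, hq'⟩ h
  simp only [Prod.mk.injEq, Subtype.mk.injEq] at h
  obtain ⟨h2, h3, h4, h5⟩ := h
  have h6 : s = s' := funext fun i => (Prod.mk.inj (congrFun h5 i)).1
  have h7 : lam = lam' := funext fun i => (Prod.mk.inj (congrFun h5 i)).2
  subst h2 h3 h4 h6 h7
  rfl

end

private theorem card_splitR {α : Type} [Finite α] (P Q : α → Prop) :
    Nat.card {a // P a} ≤ Nat.card {a // P a ∧ Q a} + Nat.card {a // P a ∧ ¬ Q a} := by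
  classical
  have : Fintype α := Fintype.ofFinite α
  rw [Nat.card_eq_fintype_card, Nat.card_eq_fintype_card, Nat.card_eq_fintype_card,
    Fintype.card_subtype, Fintype.card_subtype, Fintype.card_subtype]
  refine le_trans (Finset.card_le_card ?_) (Finset.card_union_le _ _)
  intro a ha
  rw [Finset.mem_filter] at ha
  rw [Finset.mem_union, Finset.mem_filter, Finset.mem_filter]
  by_cases hq : Q a
  · exact Or.inl ⟨ha.1, ha.2, hq⟩
  · exact Or.inr ⟨ha.1, ha.2, hq⟩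

/-- **MomR.** The average number of the solutions. -/
theorem tMomR : Lv.S_Few → S_PrbR → S_StrR → MP72e2e6.StmtPpTS → S_MomR := by
  intro h1 h2 hStr h3 T W X _ _ _ _ m S T1 hσ n Z A B M ε hM hε hE N β hNW hβ
  subst hNW
  have := fin_dual W
  have hN : (0 : ℝ) < (Nat.card W : ℝ) := by exact_mod_cast card_one_le W
  refine (sum_leR h2 S T1 hσ n Z A B hM hε hE).trans
    (mul_le_mul_of_nonneg_left (add_le_add_left ?_ _) hM)
  have h6 : Nat.card {q : Unk T W m × ((Fin m → Module.Dual (ZMod 2) W) ×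
          ({v // v ∈ T1} → Module.Dual (ZMod 2) W)) // RC S T1 q.1 q.2.1 q.2.2} ≤
      Nat.card W * (Nat.card W ^ β *
        ((2 ^ (Nat.card W ^ 2) * Nat.card W ^ m) * Nat.card W ^ #T1)) +
      Nat.card W ^ (Fintype.card T + #T1 + 1) *
      (2 ^ (Nat.card W ^ 2) * Nat.card W * few (Nat.card W) 0 m) :=
    (card_splitR _ (fun q : Unk T W m × ((Fin m → Module.Dual (ZMod 2) W) ×
      ({v // v ∈ T1} → Module.Dual (ZMod 2) W)) => Fll (fun i => (q.1.2.2 i, q.2.1 i)))).trans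
      (add_le_add (card_fullR h1 h3 hStr S T1 hσ hβ) (card_notfullR h1 h3 S T1))
  have hNe : (Nat.card W : ℝ) ≠ 0 := hN.ne'
  rw [div_le_iff₀ (pow_pos hN _)]
  calc _ ≤ ((Nat.card W * (Nat.card W ^ β *
        ((2 ^ (Nat.card W ^ 2) * Nat.card W ^ m) * Nat.card W ^ #T1)) +
      Nat.card W ^ (Fintype.card T + #T1 + 1) *
      (2 ^ (Nat.card W ^ 2) * Nat.card W * few (Nat.card W) 0 m) : ℕ) : ℝ) := by exact_mod_cast h6
    _ = _ := by
      push_cast
      rw [pow_add (Nat.card W : ℝ) #T1 m]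
      field_simp
      ring

end Pool.Agent.MP72B
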