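import Pool.Agent.Lib.MP_72e2e6_nt.Sm.B.SpecR

/-!
# MP_72e2e6_nt, `Sm/B`: module `NsA`, the finite places (helper66)
-/

set_option autoImplicit false

namespace Pool.Agent.MP72B.Frm

open Finset Polynomial MP72e2e6 Pool.Agent.MP72S Pool.Agent.MP72T Pool.Agent.MP72S.Ns

private theorem nsA_fin (i j l x : Fin 3) (h1 : i ≠ j) (h2 : i ≠ l) (h3 : j ≠ l) :
    x = i ∨ x = j ∨ x = l := by
  revert i j l x
  decide

/-- The pair with the largest value is unique. -/
private theorem nsA_uniq (M : Fin 3 → Fin 3 → ℕ) (hs : ∀ i j, M i j = M j i)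
    (hu : ∀ i j l : Fin 3, i ≠ j → i ≠ l → j ≠ l → min (M i j) (M i l) ≤ M j l)
    (i j l i' j' l' : Fin 3) (h1 : i ≠ j) (h2 : i ≠ l) (h3 : j ≠ l) (h1' : i' ≠ j')
    (h2' : i' ≠ l') (h3' : j' ≠ l') (h : M i l < M i j) (h' : M i' l' < M i' j') :
    l' = l ∧ ((i' = i ∧ j' = j) ∨ (i' = j ∧ j' = i)) := by
  have e1 := hu i j l h1 h2 h3
  have e2 := hu j i l h1.symm h3 h2
  have e3 := hu l i j h2.symm h3.symm h1
  rw [hs j i] at e2
  rw [hs l i, hs l j] at e3
  rcases nsA_fin i j l l' h1 h2 h3 with rfl | rfl | rfl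
  · exfalso
    rcases nsA_fin l' j l i' h1 h2 h3 with rfl | rfl | rfl
    · exact h2' rfl
    · rcases nsA_fin l' i' l j' h1 h2 h3 with rfl | rfl | rfl
      · exact h3' rfl
      · exact h1' rfl
      · rw [hs i' l'] at h'
        omega
    · rcases nsA_fin l' j i' j' h1 h2 h3 with rfl | rfl | rfl
      · exact h3' rfl
      · rw [hs i' l', hs i' j'] at h'
        omega
      · exact h1' rfl
  · exfalso
    rcases nsA_fin i l' l i' h1 h2 h3 with rfl | rfl | rfl
    · rcases nsA_fin i' l' l j' h1 h2 h3 with rfl | rfl | rfl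
      · exact h1' rfl
      · exact h3' rfl
      · omega
    · exact h2' rfl
    · rcases nsA_fin i l' i' j' h1 h2 h3 with rfl | rfl | rfl
      · rw [hs i' l', hs i' j'] at h'
        omega
      · exact h3' rfl
      · exact h1' rfl
  · refine ⟨rfl, ?_⟩
    rcases nsA_fin i j l' i' h1 h2 h3 with rfl | rfl | rfl
    · rcases nsA_fin i' j l' j' h1 h2 h3 with rfl | rfl | rfl
      · exact absurd rfl h1'
      · exact Or.inl ⟨rfl, rfl⟩
      · exact absurd rfl h3'
    · rcases nsA_fin i i' l' j' h1 h2 h3 with rfl | rfl | rfl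
      · exact Or.inr ⟨rfl, rfl⟩
      · exact absurd rfl h1'
      · exact absurd rfl h3'
    · exact absurd rfl h2'

section

variable {F : Type} [Field F]

private theorem nsA_ex {P x : F[X]} (hP : Prime P) (hx : x ≠ 0) :
    ∃ w, x = P ^ multiplicity P x * w ∧ ¬ P ∣ w :=
  (FiniteMultiplicity.of_prime_left hP hx).exists_eq_pow_mul_and_not_dvd

private theorem nsA_eq {P x w : F[X]} {k : ℕ} (hP : Prime P) (h : x = P ^ k * w)
    (hw : ¬ P ∣ w) : multiplicity P x = k := by
  refine multiplicity_eq_of_dvd_of_not_dvd ⟨w, h⟩ fun h' => hw ?_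
  rw [h, pow_succ] at h'
  exact (mul_dvd_mul_iff_left (pow_ne_zero k hP.ne_zero)).1 h'

private theorem nsA_can {P x y : F[X]} {n m : ℕ} (hP : Prime P) (h : P ^ n * x = P ^ m * y)
    (hx : ¬ P ∣ x) (hy : ¬ P ∣ y) : n = m ∧ x = y := by
  have h1 : multiplicity P (P ^ n * x) = n := nsA_eq hP rfl hx
  have h2 : multiplicity P (P ^ n * x) = m := nsA_eq hP h hy
  have h3 : n = m := h1.symm.trans h2
  subst h3
  exact ⟨rfl, mul_left_cancel₀ (pow_ne_zero n hP.ne_zero) h⟩

private theorem nsA_le {P x : F[X]} {k : ℕ} (hP : Prime P) (hx : x ≠ 0) :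
    P ^ k ∣ x ↔ k ≤ multiplicity P x :=
  (FiniteMultiplicity.of_prime_left hP hx).pow_dvd_iff_le_multiplicity

private theorem nsA_dvd (a : Fin 3 → F[X]) (i j : Fin 3) (h : i ≠ j) : a i - a j ∣ Dlt a := by
  have h01 : a 0 - a 1 ∣ Dlt a := ⟨(a 0 - a 2) * (a 1 - a 2), by unfold Dlt; ring⟩
  have h02 : a 0 - a 2 ∣ Dlt a := ⟨(a 0 - a 1) * (a 1 - a 2), by unfold Dlt; ring⟩
  have h12 : a 1 - a 2 ∣ Dlt a := ⟨(a 0 - a 1) * (a 0 - a 2), by unfold Dlt; ring⟩
  fin_cases i <;> fin_cases j
  · exact absurd rfl h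
  · exact h01
  · exact h02
  · have h1 := (neg_dvd.2 h01)
    rwa [neg_sub] at h1
  · exact absurd rfl h
  · exact h12
  · have h1 := (neg_dvd.2 h02)
    rwa [neg_sub] at h1
  · have h1 := (neg_dvd.2 h12)
    rwa [neg_sub] at h1
  · exact absurd rfl h

end

/-- **NsA**. The finite places. -/
theorem tNsA : S_NsA := by
  intro F _ _ a ha g hg P
  have hne : ∀ i j : Fin 3, i ≠ j → a i - a j ≠ 0 := fun i j h => sub_ne_zero.2 fun h' => h (ha h')
  refine ⟨?_, ?_, ?_⟩
  · rintro ⟨hm, hirr, i, j, l, hij, hil, hjl, hlt, hev⟩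
    have hP : Prime P := hirr.prime
    have hPij : P ∣ a i - a j := by
      have h1 : P ^ 1 ∣ a i - a j := (nsA_le hP (hne i j hij)).2 (by omega)
      rwa [pow_one] at h1
    refine ⟨hPij.trans (nsA_dvd a i j hij), ?_⟩
    obtain ⟨e, he⟩ := hev
    have hx0 : g * (a i - a l) ≠ 0 := mul_ne_zero hg (hne i l hil)
    have hmx : multiplicity P (g * (a i - a l)) = 2 * e := by
      rw [multiplicity_mul hP (FiniteMultiplicity.of_prime_left hP hx0), he]
      ring
    obtain ⟨w, hw, hPw⟩ := nsA_ex hP hx0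
    rw [hmx] at hw
    refine ⟨w, hPw, fun f hf => ?_⟩
    have hwf : ¬ P ∣ w * f := fun h => (hP.dvd_or_dvd h).elim hPw hf
    constructor
    · rintro ⟨-, -, i', j', l', hij', hil', hjl', hlt', e', g', h', hD, hg', hh'⟩
      have hsq : P ∣ w * f - h' ^ 2 → IsSquare (AdjoinRoot.mk P (w * f)) := by
        intro h
        have h1 : AdjoinRoot.mk P (w * f - h' ^ 2) = 0 := AdjoinRoot.mk_eq_zero.2 h
        rw [map_sub, sub_eq_zero] at h1
        exact ⟨AdjoinRoot.mk P h', by rw [h1, map_pow, sq]⟩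
      obtain ⟨rfl, hc⟩ := nsA_uniq (fun i j => multiplicity P (a i - a j))
        (fun i j => by
          rw [← neg_sub, multiplicity_neg])
        (fun i j l h1 h2 h3 => by
          rw [← nsA_le hP (hne j l h3)]
          have h4 : a j - a l = (a i - a l) - (a i - a j) := by ring
          rw [h4]
          exact dvd_sub ((nsA_le hP (hne i l h2)).2 (min_le_right _ _))
            ((nsA_le hP (hne i j h1)).2 (min_le_left _ _))) i j l i' j' l' hij hil hjl hij' hil'
        hjl' hlt hlt'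
      rcases hc with ⟨rfl, rfl⟩ | ⟨rfl, rfl⟩
      · have h1 : P ^ (2 * e') * g' = P ^ (2 * e) * (w * f) := by
          rw [← hD, ← mul_assoc, ← hw]
          ring
        obtain ⟨-, h2⟩ := nsA_can hP h1 hg' hwf
        rw [h2] at hh'
        exact hsq hh'
      · obtain ⟨w', hw'⟩ : P ^ (2 * e + 1) ∣ g * (a j' - a i') := by
          have h1 : g * (a j' - a i') ≠ 0 := mul_ne_zero hg (hne _ _ hij)
          rw [nsA_le hP h1, multiplicity_mul hP (FiniteMultiplicity.of_prime_left hP h1)]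
          omega
        have h1 : P ^ (2 * e') * g' = P ^ (2 * e) * (w * f - P * (w' * f)) := by
          rw [← hD]
          calc g * f * (a i' - a l') = (g * (a j' - a l')) * f - (g * (a j' - a i')) * f := by ring
            _ = P ^ (2 * e) * (w * f - P * (w' * f)) := by
              rw [hw, hw', pow_succ]
              ring
        have h3 : ¬ P ∣ w * f - P * (w' * f) := fun h =>
          hwf ((dvd_sub_left (dvd_mul_right P _)).1 h)
        obtain ⟨-, h2⟩ := nsA_can hP h1 hg' h3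
        rw [h2] at hh'
        refine hsq ?_
        have h4 : w * f - h' ^ 2 = (w * f - P * (w' * f) - h' ^ 2) + P * (w' * f) := by ring
        rw [h4]
        exact dvd_add hh' (dvd_mul_right P _)
    · rintro ⟨s, hs⟩
      obtain ⟨h, rfl⟩ := AdjoinRoot.mk_surjective s
      refine ⟨hm, hirr, i, j, l, hij, hil, hjl, hlt, e, w * f, h, ?_, hwf, ?_⟩
      · rw [← mul_assoc, ← hw]
        ring
      · rw [← AdjoinRoot.mk_eq_zero, map_sub, hs, map_pow, sq, sub_self]
  · rintro f hf ⟨hm, hirr, i, j, l, hij, hil, hjl, hlt, e, g', h, hD, hg', hh⟩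
    have hP : Prime P := hirr.prime
    refine ⟨hm, hirr, i, j, l, hij, hil, hjl, hlt, ?_⟩
    have hPij : P ∣ a i - a j := by
      have h1 : P ^ 1 ∣ a i - a j := (nsA_le hP (hne i j hij)).2 (by omega)
      rwa [pow_one] at h1
    have hPf : ¬ P ∣ f := fun h1 =>
      hirr.not_isUnit (hf.isUnit_of_dvd' h1 (hPij.trans (nsA_dvd a i j hij)))
    have hf0 : f ≠ 0 := by
      rintro rfl
      exact hPf (dvd_zero P)
    have hx0 : g * (a i - a l) ≠ 0 := mul_ne_zero hg (hne i l hil)
    have h1 : multiplicity P (f * (g * (a i - a l))) = 2 * e := by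
      refine nsA_eq hP ?_ hg'
      rw [← hD]
      ring
    rw [multiplicity_mul hP (FiniteMultiplicity.of_prime_left hP (mul_ne_zero hf0 hx0)),
      multiplicity_mul hP (FiniteMultiplicity.of_prime_left hP hx0),
      multiplicity_eq_zero.2 hPf, zero_add] at h1
    exact ⟨e, by rw [h1]; ring⟩
  · intro ν hν
    have h1 : multiplicity P (C ν * g) = multiplicity P g := by
      refine (multiplicity_eq_of_associated_right ?_).symm
      have h2 : IsUnit (C ν : F[X]) := Polynomial.isUnit_C.2 (isUnit_iff_ne_zero.2 hν)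
      exact (associated_unit_mul_left g (C ν) h2).symm
    unfold Mlt
    rw [h1]

end Pool.Agent.MP72B.Frm
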