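import Pool.Agent.Lib.MP_72e2e6_nt.Sm.B.SpecR

/-!
# MP_72e2e6_nt, `Sm/B`: module `NsB` (infinity and finiteness)
-/

set_option autoImplicit false

namespace Pool.Agent.MP72B.Frm

open Finset Polynomial MP72e2e6 Pool.Agent.MP72S Pool.Agent.MP72T Pool.Agent.MP72S.Ns

private theorem nsb_fin3 : ∀ i j l i' j' l' : Fin 3, i ≠ j → i ≠ l → j ≠ l → i' ≠ j' → i' ≠ l' →
    j' ≠ l' → (i' = i ∧ j' = j ∧ l' = l) ∨ (i' = j ∧ j' = i ∧ l' = l) ∨
      (i' = i ∧ j' = l ∧ l' = j) ∨ (i' = l ∧ j' = i ∧ l' = j) ∨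
      (i' = j ∧ j' = l ∧ l' = i) ∨ (i' = l ∧ j' = j ∧ l' = i) := by
  decide

private theorem nsb_dvd {R : Type} [CommRing R] (P : R) (a : Fin 3 → R) (i j : Fin 3)
    (hij : i ≠ j) (h : P ∣ a i - a j) : P ∣ (a 0 - a 1) * (a 0 - a 2) * (a 1 - a 2) := by
  have h3 : P ∣ a 0 - a 1 ∨ P ∣ a 0 - a 2 ∨ P ∣ a 1 - a 2 := by
    have h' : P ∣ a j - a i := (dvd_sub_comm).1 h
    revert hij h h'
    revert i j
    intro i j
    fin_cases i <;> fin_cases j <;> intro h1 h2 h3 <;> first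
      | exact absurd rfl h1
      | exact Or.inl h2
      | exact Or.inl h3
      | exact Or.inr (Or.inl h2)
      | exact Or.inr (Or.inl h3)
      | exact Or.inr (Or.inr h2)
      | exact Or.inr (Or.inr h3)
  rcases h3 with h3 | h3 | h3
  · exact dvd_mul_of_dvd_left (dvd_mul_of_dvd_left h3 _) _
  · exact dvd_mul_of_dvd_left (dvd_mul_of_dvd_right h3 _) _
  · exact dvd_mul_of_dvd_right h3 _

/-- The unique pair at infinity. -/
private theorem nsb_lc {F : Type} [Field F] (a : Fin 3 → F[X]) {i j l i' j' l' : Fin 3}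
    (hij : i ≠ j) (hil : i ≠ l) (hjl : j ≠ l) (hij' : i' ≠ j') (hil' : i' ≠ l') (hjl' : j' ≠ l')
    (h : (a i - a j).natDegree < (a i - a l).natDegree)
    (h' : (a i' - a j').natDegree < (a i' - a l').natDegree) :
    (a i' - a l').leadingCoeff = (a i - a l).leadingCoeff := by
  have e : a j - a l = (a i - a l) - (a i - a j) := by ring
  have hd : (a j - a l).natDegree = (a i - a l).natDegree := by
    rw [e]
    exact natDegree_sub_eq_left_of_natDegree_lt h
  have hl : (a j - a l).leadingCoeff = (a i - a l).leadingCoeff := by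
    rw [e]
    exact leadingCoeff_sub_of_degree_lt (degree_lt_degree h)
  have s1 : (a j - a i).natDegree = (a i - a j).natDegree := natDegree_sub
  have s2 : (a l - a i).natDegree = (a i - a l).natDegree := natDegree_sub
  have s3 : (a l - a j).natDegree = (a j - a l).natDegree := natDegree_sub
  rcases nsb_fin3 i j l i' j' l' hij hil hjl hij' hil' hjl' with
    ⟨rfl, rfl, rfl⟩ | ⟨rfl, rfl, rfl⟩ | ⟨rfl, rfl, rfl⟩ | ⟨rfl, rfl, rfl⟩ | ⟨rfl, rfl, rfl⟩ |
      ⟨rfl, rfl, rfl⟩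
  · rfl
  · exact hl
  all_goals exfalso; omega

theorem tNsB : S_NsB := by
  classical
  intro F _ _ a ha
  have hb : ∀ i j : Fin 3, i ≠ j → a i - a j ≠ 0 := fun i j h => sub_ne_zero.2 fun e => h (ha e)
  have key : ∀ (D D' : F[X]) (c : F), c ≠ 0 → D'.leadingCoeff = c ^ 2 * D.leadingCoeff →
      (Even D.natDegree ↔ Even D'.natDegree) → Spl a D none → Spl a D' none := by
    rintro D D' c _ hlc hev ⟨i, j, l, hij, hil, hjl, hdeg, he, c₁, hc₁⟩
    refine ⟨i, j, l, hij, hil, hjl, hdeg, ?_, c * c₁, ?_⟩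
    · rw [Nat.even_add] at he ⊢
      rw [← hev]
      exact he
    · rw [hlc, mul_pow, hc₁]
      ring
  refine ⟨?_, ?_, ?_⟩
  · intro D D' c hc hlc hev
    refine ⟨key D D' c hc hlc hev, key D' D c⁻¹ (inv_ne_zero hc) ?_ hev.symm⟩
    rw [hlc, ← mul_assoc, ← mul_pow, inv_mul_cancel₀ hc, one_pow, one_mul]
  · rintro D ν hD hν ⟨⟨i, j, l, hij, hil, hjl, hdeg, -, c₁, hc₁⟩,
      ⟨i', j', l', hij', hil', hjl', hdeg', -, c₂, hc₂⟩⟩
    rw [nsb_lc a hij hil hjl hij' hil' hjl' hdeg hdeg', leadingCoeff_mul, leadingCoeff_C] at hc₂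
    have h1 : D.leadingCoeff * (a i - a l).leadingCoeff ≠ 0 :=
      mul_ne_zero (leadingCoeff_ne_zero.2 hD) (leadingCoeff_ne_zero.2 (hb i l hil))
    have hc0 : c₁ ≠ 0 := by
      rintro rfl
      rw [← hc₁] at h1
      exact h1 (by ring)
    refine hν ⟨c₂ / c₁, ?_⟩
    have h3 : c₂ ^ 2 = ν * c₁ ^ 2 := by
      rw [hc₂, hc₁]
      ring
    field_simp
    linear_combination -h3
  · intro D
    have hD0 : Dlt a ≠ 0 := by
      unfold Dlt
      exact mul_ne_zero (mul_ne_zero (hb 0 1 (by decide)) (hb 0 2 (by decide)))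
        (hb 1 2 (by decide))
    have hfin := Finset.finite_toSet
      (insert none (((range ((Dlt a).natDegree + 1)).biUnion fun k => mon F k).image some))
    refine hfin.subset ?_
    rintro (_ | P) hw
    · exact Finset.mem_coe.2 (mem_insert_self _ _)
    · obtain ⟨hPm, hPi, i, j, l, hij, hil, hjl, hlt, -⟩ := hw
      have h1 : P ∣ a i - a j := by
        by_contra h2
        rw [multiplicity_eq_zero.2 h2] at hlt
        exact absurd hlt (Nat.not_lt_zero _)
      have h2 : P ∣ Dlt a := nsb_dvd P a i j hij h1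
      refine Finset.mem_coe.2 (mem_insert_of_mem (mem_image.2 ⟨P, ?_, rfl⟩))
      refine mem_biUnion.2 ⟨P.natDegree, mem_range.2 ?_, mem_mon.2 ⟨hPm, rfl⟩⟩
      exact Nat.lt_succ_of_le (natDegree_le_of_dvd h2 hD0)

end Pool.Agent.MP72B.Frm
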