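import Pool.Agent.Lib.MP_72e2e6_nt.Sm.B.SpecR

/-!
# MP_72e2e6_nt, `Sm/B`: module `NsC` (squares; no finite multiplicative place)
-/

set_option autoImplicit false

namespace Pool.Agent.MP72B.Frm

open Finset Polynomial MP72e2e6 Pool.Agent.MP72S Pool.Agent.MP72T Pool.Agent.MP72S.Ns

private theorem nsc_sq {K : Type} [Field K] {x y : K} (hx : x ≠ 0) :
    IsSquare (x ^ 2 * y) ↔ IsSquare y := by
  constructor
  · rintro ⟨z, hz⟩
    refine ⟨z / x, ?_⟩
    field_simp
    linear_combination hz
  · rintro ⟨z, rfl⟩
    exact ⟨x * z, by ring⟩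

/-- A set of places which contains at most infinity. -/
private theorem nsc_card {F : Type} [Field F] (a : Fin 3 → F[X]) (D : F[X])
    (h : ∀ P, ¬ Spl a D (some P)) :
    (Spl a D none → nsp a D = 1) ∧ (¬ Spl a D none → nsp a D = 0) := by
  constructor
  · intro h1
    have : {w : Option F[X] | Spl a D w} = {none} := by
      ext w
      cases w with
      | none => exact ⟨fun _ => rfl, fun _ => h1⟩
      | some P =>
        exact ⟨fun h2 => absurd h2 (h P), fun h2 => absurd h2 (Option.some_ne_none P)⟩
    rw [nsp, this, Set.ncard_singleton]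
  · intro h1
    have : {w : Option F[X] | Spl a D w} = ∅ := by
      ext w
      cases w with
      | none => exact ⟨fun h2 => absurd h2 h1, fun h2 => absurd h2 (Set.notMem_empty _)⟩
      | some P => exact ⟨fun h2 => absurd h2 (h P), fun h2 => absurd h2 (Set.notMem_empty _)⟩
    rw [nsp, this, Set.ncard_empty]

theorem tNsC : S_NsA → S_NsB → S_NsC := by
  classical
  intro hA hB F _ _ a ha g hg f hf hf0
  obtain ⟨b1, b2, -⟩ := hB F a ha
  refine ⟨?_, ?_⟩
  · intro h hh hh0
    have hset : ∀ w, Spl a (g * (h ^ 2 * f)) w ↔ Spl a (g * f) w := by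
      intro w
      cases w with
      | none =>
        refine (b1 _ _ h.leadingCoeff (leadingCoeff_ne_zero.2 hh0) ?_ ?_).symm
        · rw [leadingCoeff_mul, leadingCoeff_mul, leadingCoeff_mul, leadingCoeff_pow]
          ring
        · have hh2 : h ^ 2 ≠ 0 := pow_ne_zero 2 hh0
          rw [natDegree_mul hg hf0, natDegree_mul hg (mul_ne_zero hh2 hf0),
            natDegree_mul hh2 hf0, natDegree_pow]
          rw [show g.natDegree + (2 * h.natDegree + f.natDegree) =
            (g.natDegree + f.natDegree) + 2 * h.natDegree by ring,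
            Nat.even_add (m := g.natDegree + f.natDegree) (n := 2 * h.natDegree)]
          have h9 : Even (2 * h.natDegree) := even_two_mul _
          tauto
      | some P =>
        obtain ⟨a1, a2, -⟩ := hA F a ha g hg P
        by_cases hM : Mlt a g P
        · obtain ⟨hPD, w, hw, hspl⟩ := a1 hM
          have hPi : Irreducible P := hM.2.1
          have hndv : ∀ x : F[X], IsCoprime x (Dlt a) → ¬ P ∣ x := fun x hx h1 =>
            hPi.not_isUnit (hx.isUnit_of_dvd' h1 hPD)
          have hPf : ¬ P ∣ f := hndv f hf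
          have hPh : ¬ P ∣ h := hndv h hh
          have hPhf : ¬ P ∣ h ^ 2 * f := by
            intro h1
            rcases hPi.prime.dvd_or_dvd h1 with h2 | h2
            · exact hPh (hPi.prime.dvd_of_dvd_pow h2)
            · exact hPf h2
          rw [hspl f hPf, hspl _ hPhf]
          have : Fact (Irreducible P) := ⟨hPi⟩
          have e : AdjoinRoot.mk P (w * (h ^ 2 * f)) =
              AdjoinRoot.mk P h ^ 2 * AdjoinRoot.mk P (w * f) := by
            rw [← map_pow, ← map_mul]
            congr 1
            ring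
          rw [e]
          refine nsc_sq ?_
          intro h1
          exact hPh (AdjoinRoot.mk_eq_zero.1 h1)
        · exact ⟨fun h1 => absurd (a2 _ ((hh.pow_left).mul_left hf) h1) hM,
            fun h1 => absurd (a2 _ hf h1) hM⟩
    unfold nsp
    congr 1
    ext w
    exact hset w
  · intro hM ν hν0 hν
    have h1 : ∀ P, ¬ Spl a (g * f) (some P) := fun P h =>
      hM P ((hA F a ha g hg P).2.1 f hf h)
    have hg' : C ν * g ≠ 0 := mul_ne_zero (by simpa using hν0) hg
    have h2 : ∀ P, ¬ Spl a (C ν * g * f) (some P) := fun P h =>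
      hM P (((hA F a ha g hg P).2.2 ν hν0).1 ((hA F a ha (C ν * g) hg' P).2.1 f hf h))
    obtain ⟨c1, c2⟩ := nsc_card a _ h1
    obtain ⟨d1, d2⟩ := nsc_card a _ h2
    by_cases h3 : Spl a (g * f) none
    · have h4 : ¬ Spl a (C ν * g * f) none := by
        intro h4
        rw [mul_assoc] at h4
        exact b2 (g * f) ν (mul_ne_zero hg hf0) hν ⟨h3, h4⟩
      rw [c1 h3, d2 h4]
      norm_num
    · rw [c2 h3]
      by_cases h4 : Spl a (C ν * g * f) none
      · rw [d1 h4]
        norm_num
      · rw [d2 h4]
        norm_num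

end Pool.Agent.MP72B.Frm
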