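import Pool.Agent.Lib.MP_72e2e6_nt.Sm.B.SpecR

/-!
# MP_72e2e6_nt, `Sm/B`: module `NsZ` (a finite multiplicative place)
-/

set_option autoImplicit false

namespace Pool.Agent.MP72B.Frm

open Finset Polynomial MP72e2e6 Pool.Agent.MP72S Pool.Agent.MP72T Pool.Agent.MP72S.Ns

/-- A sign changing bijection. -/
private theorem nsz_sum {α : Type} (s : Finset α) (φ : α → ℝ) (Φ : α → α)
    (h1 : ∀ x ∈ s, Φ x ∈ s) (h2 : ∀ x ∈ s, ∀ y ∈ s, Φ x = Φ y → x = y)
    (h3 : ∀ x ∈ s, φ (Φ x) = - φ x) : ∑ x ∈ s, φ x = 0 := by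
  classical
  have hinj : Set.InjOn Φ (s : Set α) := fun x hx y hy h =>
    h2 x (Finset.mem_coe.1 hx) y (Finset.mem_coe.1 hy) h
  have him : s.image Φ = s := by
    refine Finset.eq_of_subset_of_card_le ?_ ?_
    · intro y hy
      obtain ⟨x, hx, rfl⟩ := Finset.mem_image.1 hy
      exact h1 x hx
    · rw [Finset.card_image_of_injOn hinj]
  have h4 : ∑ x ∈ s, φ x = ∑ x ∈ s, φ (Φ x) := by
    conv_lhs => rw [← him]
    exact Finset.sum_image fun x hx y hy h => h2 x hx y hy h
  have h5 : ∑ x ∈ s, φ (Φ x) = - ∑ x ∈ s, φ x := by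
    rw [← Finset.sum_neg_distrib]
    exact Finset.sum_congr rfl h3
  linarith

/-- Two finite sets which differ exactly at one element. -/
private theorem nsz_card {α : Type} {A B : Set α} (hA : A.Finite) (hB : B.Finite) (x : α)
    (h1 : ∀ y, y ≠ x → (y ∈ A ↔ y ∈ B)) (h2 : x ∈ A ↔ x ∉ B) :
    (-1 : ℝ) ^ A.ncard = - (-1) ^ B.ncard := by
  by_cases hx : x ∈ A
  · have hxB := h2.1 hx
    have e : A \ {x} = B := by
      ext y
      simp only [Set.mem_sdiff, Set.mem_singleton_iff]
      constructor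
      · rintro ⟨h3, h4⟩
        exact (h1 y h4).1 h3
      · intro h3
        have h4 : y ≠ x := fun h => hxB (h ▸ h3)
        exact ⟨(h1 y h4).2 h3, h4⟩
    have h5 := Set.ncard_sdiff_singleton_add_one hx hA
    rw [e] at h5
    rw [← h5, pow_succ]
    ring
  · have hxB : x ∈ B := by
      by_contra h
      exact hx (h2.2 h)
    have e : B \ {x} = A := by
      ext y
      simp only [Set.mem_sdiff, Set.mem_singleton_iff]
      constructor
      · rintro ⟨h3, h4⟩
        exact (h1 y h4).2 h3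
      · intro h3
        have h4 : y ≠ x := fun h => hx (h ▸ h3)
        exact ⟨(h1 y h4).1 h3, h4⟩
    have h5 := Set.ncard_sdiff_singleton_add_one hxB hB
    rw [e] at h5
    rw [← h5, pow_succ]
    ring

private theorem nsz_two {F : Type} [Field F] [Finite F] (h : Nat.card F % 2 = 1) :
    (2 : F) ≠ 0 := by
  intro h2
  have h1 : addOrderOf (1 : F) ∣ 2 := by
    rw [addOrderOf_dvd_iff_nsmul_eq_zero, nsmul_one]
    exact_mod_cast h2
  have h3 : addOrderOf (1 : F) ∣ Nat.card F := addOrderOf_dvd_natCard _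
  have h4 : addOrderOf (1 : F) = 1 := by
    rcases (Nat.dvd_prime Nat.prime_two).1 h1 with h5 | h5
    · exact h5
    · rw [h5] at h3
      omega
  exact one_ne_zero (AddMonoid.addOrderOf_eq_one_iff.1 h4)

/-- In a finite field the product with a nonsquare changes the property to be a square. -/
private theorem nsz_sq {K : Type} [Field K] [Finite K] (x y : K) (hx : x ≠ 0)
    (hy : ¬ IsSquare y) : IsSquare (x * y) ↔ ¬ IsSquare x := by
  classical
  have : Fintype K := Fintype.ofFinite K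
  have hy1 := quadraticChar_neg_one_iff_not_isSquare.2 hy
  have hy0 : y ≠ 0 := by
    rintro rfl
    exact hy ⟨0, by ring⟩
  rw [← quadraticChar_one_iff_isSquare (mul_ne_zero hx hy0), map_mul, hy1,
    ← quadraticChar_neg_one_iff_not_isSquare]
  constructor
  · intro h
    linarith
  · intro h
    rw [h]
    norm_num

/-- There is a nonsquare modulo a prime. -/
private theorem nsz_non {F : Type} [Field F] [Finite F] (h2 : (2 : F) ≠ 0) (P : F[X])
    (hP : P.Monic) (hPi : Irreducible P) :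
    ∃ u : F[X], ¬ IsSquare (AdjoinRoot.mk P u) := by
  have : Fact (Irreducible P) := ⟨hPi⟩
  have : Module.Finite F (AdjoinRoot P) := hP.finite_adjoinRoot
  have : Finite (AdjoinRoot P) := Module.finite_of_finite F
  have hc : ringChar (AdjoinRoot P) ≠ 2 := by
    intro h
    have h3 : ((ringChar (AdjoinRoot P) : ℕ) : AdjoinRoot P) = 0 := ringChar.Nat.cast_ringChar
    rw [h] at h3
    have h4 : algebraMap F (AdjoinRoot P) 2 = 0 := by
      rw [map_ofNat]
      exact_mod_cast h3
    exact h2 ((map_eq_zero _).1 h4)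
  obtain ⟨b, hb⟩ := FiniteField.exists_nonsquare hc
  obtain ⟨u, rfl⟩ := AdjoinRoot.mk_surjective b
  exact ⟨u, hb⟩

/-- The multiplier `u`. -/
private theorem nsz_mult {F : Type} [Field F] (B P₀ u₀ : F[X]) (hB : B ≠ 0) (hP : P₀.Monic)
    (hPi : Irreducible P₀) (hu₀ : ¬ P₀ ∣ u₀) :
    ∃ u : F[X], P₀ ∣ u - u₀ ∧ (∀ P : F[X], P.Monic → Irreducible P → P ∣ B → P ≠ P₀ → P ∣ u - 1) ∧
      IsCoprime u B := by
  classical
  let s : Finset F[X] := (UniqueFactorizationMonoid.normalizedFactors B).toFinset.erase P₀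
  have hs : ∀ P, P ∈ s → P.Monic ∧ Irreducible P ∧ P ≠ P₀ := by
    intro P h
    obtain ⟨h1, h2⟩ := Finset.mem_erase.1 h
    have h3 := Multiset.mem_toFinset.1 h2
    have h4 := UniqueFactorizationMonoid.irreducible_of_normalized_factor P h3
    have h5 := UniqueFactorizationMonoid.normalize_normalized_factor P h3
    refine ⟨?_, h4, h1⟩
    rw [← h5]
    exact Polynomial.monic_normalize h4.ne_zero
  have hs' : ∀ P : F[X], P.Monic → Irreducible P → P ∣ B → P ≠ P₀ → P ∈ s := by
    intro P h1 h2 h3 h4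
    refine Finset.mem_erase.2 ⟨h4, Multiset.mem_toFinset.2 ?_⟩
    rw [UniqueFactorizationMonoid.mem_normalizedFactors_iff' hB]
    exact ⟨h2, h1.normalize_eq_self, h3⟩
  let Q : F[X] := ∏ P ∈ s, P
  have hQ : IsCoprime P₀ Q := by
    refine IsCoprime.prod_right fun P hPs => ?_
    obtain ⟨h1, h2, h3⟩ := hs P hPs
    refine (hPi.coprime_iff_not_dvd).2 fun h4 => h3 ?_
    have h5 : Associated P₀ P := hPi.associated_of_dvd h2 h4
    exact (Polynomial.eq_of_monic_of_associated hP h1 h5).symm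
  obtain ⟨x, y, hxy⟩ := hQ
  refine ⟨u₀ * (y * Q) + x * P₀, ?_, ?_, ?_⟩
  · refine ⟨x - u₀ * x, ?_⟩
    linear_combination u₀ * hxy
  · intro P h1 h2 h3 h4
    have h5 : P ∣ Q := Finset.dvd_prod_of_mem (fun x => x) (hs' P h1 h2 h3 h4)
    have h6 : u₀ * (y * Q) + x * P₀ - 1 = Q * (u₀ * y - y) := by
      linear_combination hxy
    rw [h6]
    exact h5.mul_right _
  · have key : ∀ P : F[X], P.Monic → Irreducible P → P ∣ u₀ * (y * Q) + x * P₀ → ¬ P ∣ B := by
      intro P h1 h2 h3 h4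
      by_cases h5 : P = P₀
      · rw [h5] at h3
        have h6 : u₀ = (u₀ * (y * Q) + x * P₀) - (x - u₀ * x) * P₀ := by
          linear_combination - u₀ * hxy
        apply hu₀
        rw [h6]
        exact dvd_sub h3 (Dvd.intro_left _ rfl)
      · have h6 : P ∣ Q := Finset.dvd_prod_of_mem (fun x => x) (hs' P h1 h2 h4 h5)
        have h7 : (1 : F[X]) = (u₀ * (y * Q) + x * P₀) - Q * (u₀ * y - y) := by
          linear_combination - hxy
        refine h2.not_isUnit (isUnit_of_dvd_one ?_)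
        rw [h7]
        exact dvd_sub h3 (h6.mul_right _)
    refine isCoprime_of_irreducible_dvd (fun h => hB h.2) fun z hz h1 h2 => ?_
    have hz0 : z.leadingCoeff ≠ 0 := leadingCoeff_ne_zero.2 hz.ne_zero
    have hass : Associated z (z * C z.leadingCoeff⁻¹) := by
      refine (associated_mul_unit_right z _ ?_)
      exact isUnit_C.2 (isUnit_iff_ne_zero.2 (inv_ne_zero hz0))
    refine key (z * C z.leadingCoeff⁻¹) (monic_mul_leadingCoeff_inv hz.ne_zero)
      (hass.irreducible hz) (hass.symm.dvd.trans h1) (hass.symm.dvd.trans h2)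

theorem tNsZ : S_NsA → S_NsB → S_NsZ := by
  classical
  intro hA hB F _ _ hq a ha g hg hM k hk
  obtain ⟨P₀, hM₀⟩ := hM
  have h2 := nsz_two hq
  obtain ⟨b1, -, b3⟩ := hB F a ha
  have hP : P₀.Monic := hM₀.1
  have hPi : Irreducible P₀ := hM₀.2.1
  have : Fact (Irreducible P₀) := ⟨hPi⟩
  have : Module.Finite F (AdjoinRoot P₀) := hP.finite_adjoinRoot
  have : Finite (AdjoinRoot P₀) := Module.finite_of_finite F
  obtain ⟨hPD, w₀, hw₀, hspl₀⟩ := (hA F a ha g hg P₀).1 hM₀
  have hD0 : Dlt a ≠ 0 := by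
    unfold Dlt
    refine mul_ne_zero (mul_ne_zero ?_ ?_) ?_ <;> rw [sub_ne_zero] <;> intro h <;>
      exact absurd (ha h) (by decide)
  obtain ⟨u₀, hu₀⟩ := nsz_non h2 P₀ hP hPi
  have hu₀' : ¬ P₀ ∣ u₀ := by
    intro h
    rw [← AdjoinRoot.mk_eq_zero] at h
    exact hu₀ ⟨0, by rw [h]; ring⟩
  obtain ⟨u, hu1, hu2, hu3⟩ := nsz_mult (Dlt a) P₀ u₀ hD0 hP hPi hu₀'
  have hcong : ∀ f, Dlt a ∣ (f + ((u * f) % Dlt a - f % Dlt a)) - u * f := by
    intro f
    have e1 := EuclideanDomain.div_add_mod f (Dlt a)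
    have e2 := EuclideanDomain.div_add_mod (u * f) (Dlt a)
    refine ⟨f / Dlt a - (u * f) / Dlt a, ?_⟩
    linear_combination e2 - e1
  have hcopΦ : ∀ f, IsCoprime f (Dlt a) →
      IsCoprime (f + ((u * f) % Dlt a - f % Dlt a)) (Dlt a) := by
    intro f hf
    obtain ⟨c, hc⟩ := hcong f
    have e : f + ((u * f) % Dlt a - f % Dlt a) = u * f + Dlt a * c := by
      linear_combination hc
    rw [e]
    exact (IsCoprime.mul_left hu3 hf).add_mul_left_left c
  have hdeg : ∀ f, degree ((u * f) % Dlt a - f % Dlt a) < degree (Dlt a) := by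
    intro f
    refine lt_of_le_of_lt (degree_sub_le _ _) (max_lt ?_ ?_)
    · exact EuclideanDomain.mod_lt _ hD0
    · exact EuclideanDomain.mod_lt _ hD0
  refine nsz_sum _ _ (fun f => f + ((u * f) % Dlt a - f % Dlt a)) ?_ ?_ ?_
  · intro f hf
    rw [Finset.mem_filter, mem_mon] at hf ⊢
    obtain ⟨⟨hf1, hf2⟩, hf3⟩ := hf
    have hlt : degree ((u * f) % Dlt a - f % Dlt a) < degree f := by
      refine (hdeg f).trans_le ?_
      rw [degree_eq_natDegree hD0, degree_eq_natDegree hf1.ne_zero, hf2]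
      exact_mod_cast hk
    refine ⟨⟨hf1.add_of_left hlt, ?_⟩, hcopΦ f hf3⟩
    rw [← hf2]
    exact natDegree_eq_of_degree_eq (degree_add_eq_left_of_degree_lt hlt)
  · intro f hf f' hf' h
    have h1 : Dlt a ∣ u * (f - f') := by
      have e1 := hcong f
      have e2 := hcong f'
      rw [← h] at e2
      have e3 := dvd_sub e2 e1
      have e4 : f + (u * f % Dlt a - f % Dlt a) - u * f' -
          (f + (u * f % Dlt a - f % Dlt a) - u * f) = u * (f - f') := by ring
      rwa [e4] at e3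
    have h3 : Dlt a ∣ f - f' := hu3.symm.dvd_of_dvd_mul_left h1
    have h4 : f % Dlt a = f' % Dlt a := by
      rw [← sub_eq_zero, ← Polynomial.sub_mod]
      exact (EuclideanDomain.mod_eq_zero).2 h3
    have h5 : (u * f) % Dlt a = (u * f') % Dlt a := by
      rw [← sub_eq_zero, ← Polynomial.sub_mod, ← mul_sub]
      exact (EuclideanDomain.mod_eq_zero).2 h1
    rw [h4, h5] at h
    exact add_right_cancel h
  · intro f hf
    rw [Finset.mem_filter, mem_mon] at hf
    obtain ⟨⟨hf1, hf2⟩, hf3⟩ := hf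
    set f' : F[X] := f + ((u * f) % Dlt a - f % Dlt a) with hf'
    have hlt : degree ((u * f) % Dlt a - f % Dlt a) < degree f := by
      refine (hdeg f).trans_le ?_
      rw [degree_eq_natDegree hD0, degree_eq_natDegree hf1.ne_zero, hf2]
      exact_mod_cast hk
    have hf'm : f'.Monic := hf1.add_of_left hlt
    have hf'd : f'.natDegree = f.natDegree :=
      natDegree_eq_of_degree_eq (degree_add_eq_left_of_degree_lt hlt)
    have hf'c : IsCoprime f' (Dlt a) := hcopΦ f hf3
    have hf'u : Dlt a ∣ f' - u * f := hcong f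
    have hndv : ∀ (P : F[X]), Irreducible P → P ∣ Dlt a → ∀ x : F[X], IsCoprime x (Dlt a) →
        ¬ P ∣ x := fun P hP hPD x hx h1 => hP.not_isUnit (hx.isUnit_of_dvd' h1 hPD)
    unfold nsp
    refine nsz_card (b3 _) (b3 _) (some P₀) ?_ ?_
    · intro w hw
      rw [Set.mem_ofPred_eq, Set.mem_ofPred_eq]
      cases w with
      | none =>
        refine b1 _ _ 1 one_ne_zero ?_ ?_
        · rw [leadingCoeff_mul, leadingCoeff_mul, hf1.leadingCoeff, hf'm.leadingCoeff]
          ring
        · rw [natDegree_mul hg hf1.ne_zero, natDegree_mul hg hf'm.ne_zero, hf'd]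
      | some P =>
        have hne : P ≠ P₀ := fun h => hw (by rw [h])
        obtain ⟨a1, a2, -⟩ := hA F a ha g hg P
        by_cases hM : Mlt a g P
        · obtain ⟨hPD', w, hw', hspl⟩ := a1 hM
          rw [hspl f (hndv P hM.2.1 hPD' f hf3), hspl f' (hndv P hM.2.1 hPD' f' hf'c)]
          have e : AdjoinRoot.mk P (w * f') = AdjoinRoot.mk P (w * f) := by
            rw [← sub_eq_zero, ← map_sub, AdjoinRoot.mk_eq_zero]
            have e1 : P ∣ f' - u * f := hPD'.trans hf'u
            have e2 : P ∣ u - 1 := hu2 P hM.1 hM.2.1 hPD' hne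
            have e3 : w * f' - w * f = w * ((f' - u * f) + (u - 1) * f) := by ring
            rw [e3]
            exact (dvd_add e1 (e2.mul_right f)).mul_left w
          rw [e]
        · exact ⟨fun h1 => absurd (a2 _ hf'c h1) hM, fun h1 => absurd (a2 _ hf3 h1) hM⟩
    · rw [Set.mem_ofPred_eq, Set.mem_ofPred_eq, hspl₀ f (hndv P₀ hPi hPD f hf3),
        hspl₀ f' (hndv P₀ hPi hPD f' hf'c)]
      have e : AdjoinRoot.mk P₀ (w₀ * f') = AdjoinRoot.mk P₀ (w₀ * f) * AdjoinRoot.mk P₀ u₀ := by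
        rw [← map_mul, ← sub_eq_zero, ← map_sub, AdjoinRoot.mk_eq_zero]
        have e1 : P₀ ∣ f' - u * f := hPD.trans hf'u
        have e3 : w₀ * f' - w₀ * f * u₀ = w₀ * ((f' - u * f) + (u - u₀) * f) := by ring
        rw [e3]
        exact (dvd_add e1 (hu1.mul_right f)).mul_left w₀
      rw [e]
      refine nsz_sq _ _ ?_ hu₀
      intro h
      rw [AdjoinRoot.mk_eq_zero] at h
      rcases hPi.prime.dvd_or_dvd h with h | h
      · exact hw₀ h
      · exact hndv P₀ hPi hPD f hf3 h

end Pool.Agent.MP72B.Frm
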