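import Pool.Agent.Lib.MP_72e2e6_nt.Sm.B.SpecA

/-!
# MP_72e2e6_nt, `Sm/B`, module `ObA`: formal properties of the obstruction functional
-/

namespace Pool.Agent.MP72B

open Finset Pool.Agent.MP72S

section

variable {G N P : Type} [Group G] [TopologicalSpace G] [AddCommGroup N] [DistribMulAction G N]
  {D : Dat G N P}

private theorem oba_e0 (hA : Ax D) {b : N} (hb : 2 • b = 0) : D.e 0 b = 0 := by
  have h := hA.e_add 0 0 b (smul_zero _) (smul_zero _) hb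
  rw [add_zero] at h
  exact left_eq_add.1 h

private theorem oba_e0' (hA : Ax D) {b : N} (hb : 2 • b = 0) : D.e b 0 = 0 := by
  rw [hA.e_sym b 0 hb (smul_zero _), oba_e0 hA hb]

private theorem oba_eadd' (hA : Ax D) {a b c : N} (ha : 2 • a = 0) (hb : 2 • b = 0)
    (hc : 2 • c = 0) : D.e a (b + c) = D.e a b + D.e a c := by
  rw [hA.e_sym a (b + c) ha (by rw [smul_add, hb, hc, add_zero]), hA.e_add b c a hb hc ha,
    hA.e_sym b a hb ha, hA.e_sym c a hc ha]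

private theorem oba_lp_left (hA : Ax D) {a a' b : G → N} {v : P}
    (h1 : ∀ g, g = D.tau v ∨ g = D.phi v → 2 • a g = 0)
    (h2 : ∀ g, g = D.tau v ∨ g = D.phi v → 2 • a' g = 0) (h3 : ∀ g, 2 • b g = 0) :
    D.lp (fun g => a g + a' g) b v = D.lp a b v + D.lp a' b v := by
  unfold Dat.lp
  rw [hA.e_add _ _ _ (h1 _ (Or.inl rfl)) (h2 _ (Or.inl rfl)) (h3 _),
    hA.e_add _ _ _ (h1 _ (Or.inr rfl)) (h2 _ (Or.inr rfl)) (h3 _)]
  ring

private theorem oba_lp_right (hA : Ax D) {a b b' : G → N} {v : P}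
    (h1 : ∀ g, g = D.tau v ∨ g = D.phi v → 2 • a g = 0)
    (h2 : ∀ g, 2 • b g = 0) (h3 : ∀ g, 2 • b' g = 0) :
    D.lp a (fun g => b g + b' g) v = D.lp a b v + D.lp a b' v := by
  unfold Dat.lp
  rw [oba_eadd' hA (h1 _ (Or.inl rfl)) (h2 _) (h3 _),
    oba_eadd' hA (h1 _ (Or.inr rfl)) (h2 _) (h3 _)]
  ring

omit [Group G] [TopologicalSpace G] [AddCommGroup N] [DistribMulAction G N] in
private theorem oba_lp_congr {a a' b b' : G → N} {v : P}
    (h1 : ∀ g, g = D.tau v ∨ g = D.phi v → a g = a' g)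
    (h2 : ∀ g, g = D.tau v ∨ g = D.phi v → b g = b' g) : D.lp a b v = D.lp a' b' v := by
  unfold Dat.lp
  rw [h1 _ (Or.inl rfl), h1 _ (Or.inr rfl), h2 _ (Or.inl rfl), h2 _ (Or.inr rfl)]

end

theorem tObA (hUq : S_Uq) (hRcv : MP72S.S_Rcv) (hDk1 : S_Dk1) (hObR : S_ObR) (hFix : S_Fix) :
    S_ObA := by
  intro G N P ι _ _ _ _ _ _ D hA x hx
  obtain ⟨u1, u2, -, -, u5⟩ := hUq D hA x hx
  obtain ⟨d1, -, -, -, -, -, -, -, d9, -, -⟩ := hDk1 (ι := ι) D hA x hx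
  obtain ⟨-, -, -, -, -, f6, -⟩ := hFix D hA x hx
  -- elements of `Dk x 1`
  have hcz : ∀ ν ∈ D.Dk x 1, D.IsZ x ν (D.coc x ν) := fun ν hν =>
    DatL.coc_spec ((d1 ν).1 hν).1
  have hc2 : ∀ ν ∈ D.Dk x 1, ∀ σ, 2 • D.coc x ν σ = 0 := by
    intro ν hν σ
    have h := u5 ν ((d1 ν).1 hν).1 1 (by rw [pow_one]; exact ((d1 ν).1 hν).2) σ
    rwa [pow_one] at h
  -- the defects are in `V`
  have hdf : ∀ ξ (η : G → N), D.IsH x ξ η → ∀ j g,
      g = D.tau (D.pl x j) ∨ g = D.phi (D.pl x j) → 2 • D.df x ξ η j g = 0 := by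
    intro ξ η h j g hg
    exact (hObR D hA x hx ξ η h (fun j => D.qr x j (ξ j)) (fun j => f6 j _)).1 j g hg
  have h1 : ∀ ξ (η : G → N), D.IsH x ξ η → ∀ ν ∈ D.Dk x 1, ∀ ν' ∈ D.Dk x 1,
      D.ob x ξ η (ν + ν') = D.ob x ξ η ν + D.ob x ξ η ν' := by
    intro ξ η h ν hν ν' hν'
    unfold DatL.ob
    rw [← sum_add_distrib]
    refine sum_congr rfl fun j _ => ?_
    have e1 : D.coc x (ν + ν') = fun σ => D.coc x ν σ + D.coc x ν' σ := by
      funext σ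
      exact u2 ν ((d1 ν).1 hν).1 ν' ((d1 ν').1 hν').1 σ
    rw [e1]
    exact oba_lp_right hA.ax (hdf ξ η h j) (hc2 ν hν) (hc2 ν' hν')
  have h2 : ∀ ξ ξ' (η η' : G → N), D.IsH x ξ η → D.IsH x ξ' η' →
      D.IsH x (ξ + ξ') (fun σ => η σ + η' σ) ∧ ∀ ν ∈ D.Dk x 1,
        D.ob x (ξ + ξ') (fun σ => η σ + η' σ) ν = D.ob x ξ η ν + D.ob x ξ' η' ν := by
    intro ξ ξ' η η' h h'
    have hH : D.IsH x (ξ + ξ') (fun σ => η σ + η' σ) := by
      refine ⟨h.u.add h'.u, ?_⟩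
      have e1 : (fun σ => 2 • (η σ + η' σ)) = fun σ => 2 • η σ + 2 • η' σ := by
        funext σ
        rw [smul_add]
      rw [e1]
      exact h.hf.add h'.hf
    refine ⟨hH, fun ν hν => ?_⟩
    rw [(hObR D hA x hx (ξ + ξ') _ hH (fun j => D.qr x j (ξ j) + D.qr x j (ξ' j)) (fun j => by
      rw [smul_add, map_add, f6, f6, Pi.add_apply])).2 ν hν]
    unfold DatL.ob
    rw [← sum_add_distrib]
    refine sum_congr rfl fun j _ => ?_
    rw [← oba_lp_left hA.ax (hdf ξ η h j) (hdf ξ' η' h' j) (hc2 ν hν)]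
    refine oba_lp_congr (fun g _ => ?_) (fun g _ => rfl)
    unfold DatL.df
    rw [tw_add]
    abel
  have h3 : ∀ ζ ∈ D.Z x, D.IsH x (2 • ζ) (D.coc x ζ) ∧ ∀ ν ∈ D.Dk x 1,
      D.ob x (2 • ζ) (D.coc x ζ) ν = 0 := by
    intro ζ hζ
    have hz := DatL.coc_spec hζ
    have hH : D.IsH x (2 • ζ) (D.coc x ζ) := by
      refine ⟨hz.u, ?_⟩
      have e1 : (fun σ => 2 • D.coc x ζ σ) = fun σ => D.coc x ζ σ + D.coc x ζ σ := by
        funext σ
        rw [two_nsmul]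
      rw [e1, two_nsmul]
      exact hz.add hz
    refine ⟨hH, fun ν hν => ?_⟩
    choose Q hQ hlo using hz.lo
    rw [(hObR D hA x hx (2 • ζ) _ hH Q (fun j => by
      rw [map_nsmul, hQ, Pi.smul_apply])).2 ν hν]
    refine sum_eq_zero fun j _ => ?_
    have hzero : ∀ g, g = D.tau (D.pl x j) ∨ g = D.phi (D.pl x j) →
        D.coc x ζ g - (tw (D.chi x) g (Q j) - Q j) = (0 : N) := by
      rintro g (rfl | rfl)
      · rw [(hlo j).1, sub_self]
      · rw [(hlo j).2, sub_self]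
    rw [oba_lp_congr (a' := fun _ => 0) hzero (fun g _ => rfl)]
    unfold Dat.lp
    rw [oba_e0 hA.ax (hc2 ν hν _), oba_e0 hA.ax (hc2 ν hν _), add_zero]
  have h4 : ∀ ξ (η θ : G → N), D.IsH x ξ η → IsHo θ →
      (∀ v, v ∉ Set.range (D.pl x) → θ (D.tau v) = 0) →
      D.IsH x ξ (fun σ => η σ + θ σ) ∧ ∀ ν ∈ D.Dk x 1,
        D.ob x ξ (fun σ => η σ + θ σ) ν = D.ob x ξ η ν := by
    intro ξ η θ h hθ hur
    have hθU : D.IsU x θ := by
      refine ⟨hθ.lc, fun σ τ => ?_, ⟨1, fun σ => ?_⟩, hur⟩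
      · rw [hθ.mul, tw_two hA.ax.tri (hθ.two τ)]
      · rw [pow_one]
        exact hθ.two σ
    have hH : D.IsH x ξ (fun σ => η σ + θ σ) := by
      refine ⟨h.u.add hθU, ?_⟩
      have e1 : (fun σ => 2 • (η σ + θ σ)) = fun σ => 2 • η σ := by
        funext σ
        rw [smul_add, hθ.two, add_zero]
      rw [e1]
      exact h.hf
    refine ⟨hH, fun ν hν => ?_⟩
    have hz := hcz ν hν
    have hHo : IsHo (D.coc x ν) := by
      refine ⟨hz.u.lc, hc2 ν hν, fun σ τ => ?_⟩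
      rw [hz.u.co, tw_two hA.ax.tri (hc2 ν hν τ)]
    have hsum : D.ob x ξ (fun σ => η σ + θ σ) ν =
        D.ob x ξ η ν + ∑ j, D.lp θ (D.coc x ν) (D.pl x j) := by
      unfold DatL.ob
      rw [← sum_add_distrib]
      refine sum_congr rfl fun j _ => ?_
      rw [← oba_lp_left hA.ax (hdf ξ η h j) (fun g _ => hθ.two g) (hc2 ν hν)]
      refine oba_lp_congr (fun g _ => ?_) (fun g _ => rfl)
      exact add_sub_right_comm _ _ _
    classical
    have himg : ∑ j, D.lp θ (D.coc x ν) (D.pl x j) =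
        ∑ v ∈ univ.image (D.pl x), D.lp θ (D.coc x ν) v := by
      rw [sum_image]
      intro a _ b _ hab
      exact d9 hab
    rw [hsum, himg, hRcv D.toDat hA.ax θ (D.coc x ν) (univ.image (D.pl x)) hθ hHo ?_, add_zero]
    intro v hv
    have hv' : v ∉ Set.range (D.pl x) := by
      rintro ⟨j, rfl⟩
      exact hv (mem_image_of_mem _ (mem_univ j))
    unfold Dat.lp
    rw [hur v hv', hz.u.ur v hv', oba_e0 hA.ax (hc2 ν hν _), oba_e0' hA.ax (hθ.two _), add_zero]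
  refine ⟨h1, h2, h3, h4, ?_⟩
  intro ξ η η' h h' ν hν
  have hθ2 : ∀ σ, 2 • (η' σ - η σ) = 0 := by
    intro σ
    have e1 := u1 ξ _ h.hf σ
    have e2 := u1 ξ _ h'.hf σ
    rw [smul_sub, ← e1, ← e2, sub_self]
  have hHo : IsHo fun σ => η' σ - η σ := by
    refine ⟨h'.u.lc.comp₂ h.u.lc (fun a b => a - b), hθ2, fun σ τ => ?_⟩
    have e1 : η' (σ * τ) - η (σ * τ) = (η' σ - η σ) + tw (D.chi x) σ (η' τ - η τ) := by
      rw [h'.u.co, h.u.co, tw_sub]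
      abel
    rw [e1, tw_two hA.ax.tri (hθ2 τ)]
  have h5 := (h4 ξ η (fun σ => η' σ - η σ) h hHo (fun v hv => by
    show η' (D.tau v) - η (D.tau v) = 0
    rw [h'.u.ur v hv, h.u.ur v hv, sub_zero])).2 ν hν
  have e2 : (fun σ => η σ + (η' σ - η σ)) = η' := by
    funext σ
    abel
  rw [← h5, e2]

end Pool.Agent.MP72B
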