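import Pool.Agent.Lib.MP_72e2e6_nt.Sm.B.SpecA

/-!
# MP_72e2e6_nt, `Sm/B`, module `ObR`: the defects with other choices
-/

namespace Pool.Agent.MP72B

open Finset Pool.Agent.MP72S

theorem tObR : S_Uq → S_Fix → S_Dk1 → S_ObR := by
  intro hUq hFix hDk1 G N P ι _ _ _ _ _ _ D hDL x hx ξ η hη R hR
  have hD := hDL.ax
  obtain ⟨d1, -⟩ := hDk1 D hDL x hx
  obtain ⟨-, -, -, -, u5⟩ := hUq D hDL x hx
  obtain ⟨f1, -, -, -, f5, f6, -⟩ := hFix D hDL x hx
  -- first part, for arbitrary choices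
  have key : ∀ R : D.J ι → N, (∀ j, D.lm x j (2 • R j) = ξ j) → ∀ j g,
      g = D.tau (D.pl x j) ∨ g = D.phi (D.pl x j) →
        2 • (η g - (tw (D.chi x) g (R j) - R j)) = 0 := by
    intro R hR j g hg
    obtain ⟨Q, hQ, hlo⟩ := hη.hf.lo j
    have h1 : 2 • η g = tw (D.chi x) g Q - Q := by
      rcases hg with rfl | rfl
      · exact hlo.1
      · exact hlo.2
    have h2 : D.lm x j (Q - 2 • R j) = 0 := by
      rw [map_sub, hQ, hR, sub_self]
    have h3 : tw (D.chi x) g (Q - 2 • R j) = Q - 2 • R j := by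
      rcases hg with rfl | rfl
      · exact ((f1 j _).1 h2).1
      · exact ((f1 j _).1 h2).2
    rw [tw_sub, tw_nsmul] at h3
    rw [smul_sub, h1, smul_sub]
    have h4 : tw (D.chi x) g Q - Q - (2 • tw (D.chi x) g (R j) - 2 • R j) =
        (tw (D.chi x) g Q - 2 • tw (D.chi x) g (R j)) - (Q - 2 • R j) := by abel
    rw [h4, h3, sub_self]
  refine ⟨key R hR, fun ν hν => ?_⟩
  obtain ⟨hν1, hν2⟩ := (d1 ν).1 hν
  have hc : ∀ σ, 2 • D.coc x ν σ = 0 := by
    intro σ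
    have := u5 ν hν1 1 (by rw [pow_one]; exact hν2) σ
    rwa [pow_one] at this
  unfold DatL.ob
  refine sum_congr rfl fun j _ => ?_
  have k1 := key (fun j => D.qr x j (ξ j)) (fun j => f6 j (ξ j)) j
  have k2 := key R hR j
  obtain ⟨Q', hQ', hlo⟩ := (DatL.coc_spec hν1).lo j
  have hu : 2 • D.lm x j (R j - D.qr x j (ξ j)) = 0 := by
    rw [← map_nsmul, smul_sub, map_sub, hR, f6, sub_self]
  have hQ4 : 2 • D.lm x j Q' = 0 := by
    rw [hQ']
    exact congrFun hν2 j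
  have hiso := f5 j (R j - D.qr x j (ξ j)) Q' hu hQ4
  rw [← hlo.1, ← hlo.2] at hiso
  have hdf : ∀ g, D.df x ξ η j g = (η g - (tw (D.chi x) g (R j) - R j)) +
      (tw (D.chi x) g (R j - D.qr x j (ξ j)) - (R j - D.qr x j (ξ j))) := by
    intro g
    unfold DatL.df
    rw [tw_sub]
    abel
  have h2u : ∀ g, g = D.tau (D.pl x j) ∨ g = D.phi (D.pl x j) →
      2 • (tw (D.chi x) g (R j - D.qr x j (ξ j)) - (R j - D.qr x j (ξ j))) = 0 := by
    intro g hg
    have h1 := k1 g hg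
    have h2 := k2 g hg
    have h4 : tw (D.chi x) g (R j - D.qr x j (ξ j)) - (R j - D.qr x j (ξ j)) =
        (η g - (tw (D.chi x) g (D.qr x j (ξ j)) - D.qr x j (ξ j))) -
          (η g - (tw (D.chi x) g (R j) - R j)) := by
      rw [tw_sub]
      abel
    rw [h4, smul_sub, h1, h2, sub_zero]
  unfold Dat.lp
  rw [hdf, hdf, hD.e_add _ _ _ (k2 _ (Or.inl rfl)) (h2u _ (Or.inl rfl)) (hc _),
    hD.e_add _ _ _ (k2 _ (Or.inr rfl)) (h2u _ (Or.inr rfl)) (hc _)]
  have h5 : ∀ a b c d : ZMod 2, b + d = 0 → (a + b) + (c + d) = a + c := by decide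
  exact h5 _ _ _ _ hiso

end Pool.Agent.MP72B
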