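import Pool.Agent.Lib.MP_72e2e6_nt.Sm.B.SpecR

/-!
# MP_72e2e6_nt, `Sm/B/Odf`: few polynomials have no prime divisor of odd degree
-/

set_option autoImplicit false

namespace Pool.Agent.MP72B.Frm

open Finset Polynomial MP72e2e6 Pool.Agent.MP72S Pool.Agent.MP72T Pool.Agent.MP72S.Ns

/-- divergence of the sum of the inverses of the odd numbers -/
private theorem Odf_sum (T : ℝ) : ∃ K : ℕ,
    T ≤ ∑ k ∈ Ico 2 K, 1 / (2 * ((2 * k + 1 : ℕ) : ℝ)) := by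
  have h1 := (Real.tendsto_sum_range_one_div_nat_succ_atTop.eventually_ge_atTop
    (4 * T + 3 / 2)).and (Filter.eventually_ge_atTop 2)
  obtain ⟨K, hK, hK2⟩ := h1.exists
  refine ⟨K, ?_⟩
  have h2 : ∑ i ∈ range K, (1 / ((i : ℝ) + 1)) =
      ∑ i ∈ range 2, (1 / ((i : ℝ) + 1)) + ∑ i ∈ Ico 2 K, (1 / ((i : ℝ) + 1)) :=
    (sum_range_add_sum_Ico _ hK2).symm
  have h3 : ∑ i ∈ range 2, (1 / ((i : ℝ) + 1)) = 3 / 2 := by
    rw [sum_range_succ, sum_range_one]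
    norm_num
  have h4 : ∑ i ∈ Ico 2 K, (1 / ((i : ℝ) + 1)) ≤
      ∑ k ∈ Ico 2 K, 4 * (1 / (2 * ((2 * k + 1 : ℕ) : ℝ))) := by
    refine sum_le_sum fun k _ => ?_
    have h5 : (0 : ℝ) ≤ k := Nat.cast_nonneg k
    push_cast
    rw [mul_one_div, div_le_div_iff₀ (by positivity) (by positivity)]
    linarith
  rw [← mul_sum] at h4
  rw [h2, h3] at hK
  linarith

theorem tOdf (h1 : Lv.S_Nir) (h2 : S_Vrj) : S_Odf := by
  intro F _ _ ε hε
  classical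
  have hq : (0 : ℝ) < (Nat.card F : ℝ) := by
    exact_mod_cast Nat.card_pos
  obtain ⟨K, hK⟩ := Odf_sum (1 / ε)
  refine ⟨4 * K + 2, fun n hn => ?_⟩
  obtain ⟨J, hJ⟩ : ∃ J : Finset ℕ, J = (Ico 2 K).image fun k => 2 * k + 1 := ⟨_, rfl⟩
  have hJm : ∀ d ∈ J, ∃ k, 2 ≤ k ∧ k < K ∧ d = 2 * k + 1 := by
    intro d hd
    rw [hJ, mem_image] at hd
    obtain ⟨k, hk, rfl⟩ := hd
    rw [mem_Ico] at hk
    exact ⟨k, hk.1, hk.2, rfl⟩
  obtain ⟨μ, hμ⟩ : ∃ μ : ℝ, μ = ∑ d ∈ J, (#(irr F d) : ℝ) / (Nat.card F : ℝ) ^ d := ⟨_, rfl⟩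
  have h3 := h2 F J n μ (by
    intro d hd
    obtain ⟨k, hk1, hk2, rfl⟩ := hJm d hd
    omega) hμ
  have h4 : 1 / ε ≤ μ := by
    refine hK.trans ?_
    rw [hμ, hJ, sum_image (by intro x _ y _ hxy; simpa using hxy)]
    refine sum_le_sum fun k hk => ?_
    rw [mem_Ico] at hk
    have h5 := (h1 F).1 (2 * k + 1) (by omega)
    have h6 : (0 : ℝ) < (Nat.card F : ℝ) ^ (2 * k + 1) := pow_pos hq _
    have h7 : (0 : ℝ) < ((2 * k + 1 : ℕ) : ℝ) := by positivity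
    rw [div_le_div_iff₀ (by positivity) h6, one_mul]
    linarith
  have hε' : 0 < 1 / ε := one_div_pos.2 hε
  have hμ0 : 0 < μ := lt_of_lt_of_le hε' h4
  obtain ⟨E, hE⟩ : ∃ E, E = (mon F n).filter fun f => ∀ P : F[X], P.Monic → Irreducible P →
    P ∣ f → Even P.natDegree := ⟨_, rfl⟩
  have h5 : {f ∈ (mon F n : Set F[X]) | ∀ P : F[X], P.Monic → Irreducible P → P ∣ f →
      Even P.natDegree} = (E : Set F[X]) := by
    rw [hE, coe_filter]
    rfl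
  rw [h5, Set.ncard_coe_finset]
  have h6 : (#E : ℝ) * μ ^ 2 ≤ (Nat.card F : ℝ) ^ n * μ := by
    refine le_trans ?_ h3
    rw [← nsmul_eq_mul, ← sum_const]
    refine le_trans (sum_le_sum (f := fun _ => μ ^ 2)
      (g := fun f => (∑ d ∈ J, (#((irr F d).filter (· ∣ f)) : ℝ) - μ) ^ 2) fun f hf => ?_) ?_
    · rw [hE, mem_filter] at hf
      have h7 : ∑ d ∈ J, (#((irr F d).filter (· ∣ f)) : ℝ) = 0 := by
        refine sum_eq_zero fun d hd => ?_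
        obtain ⟨k, hk1, hk2, rfl⟩ := hJm d hd
        rw [Nat.cast_eq_zero, card_eq_zero, filter_eq_empty_iff]
        intro P hP hPf
        unfold irr at hP
        rw [mem_filter, mem_mon] at hP
        have h8 := hf.2 P hP.1.1 hP.2 hPf
        rw [hP.1.2] at h8
        exact (Nat.not_even_iff_odd.2 ⟨k, rfl⟩) h8
      simp only [h7, zero_sub, even_two, Even.neg_pow, le_refl]
    · refine le_trans (sum_le_sum_of_subset_of_nonneg (t := mon F n) ?_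
        fun f _ _ => sq_nonneg _) ?_
      · rw [hE]
        exact filter_subset _ _
      · convert le_refl _ using 8
  have h7 : (#E : ℝ) * μ ≤ (Nat.card F : ℝ) ^ n := by
    have h8 : ((#E : ℝ) * μ) * μ ≤ (Nat.card F : ℝ) ^ n * μ := by nlinarith [h6]
    exact le_of_mul_le_mul_right h8 hμ0
  have h8 : (#E : ℝ) * (1 / ε) ≤ (#E : ℝ) * μ := mul_le_mul_of_nonneg_left h4 (Nat.cast_nonneg _)
  have h9 : (#E : ℝ) * (1 / ε) ≤ (Nat.card F : ℝ) ^ n := h8.trans h7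
  rw [mul_one_div, div_le_iff₀ hε] at h9
  linarith

end Pool.Agent.MP72B.Frm
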