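import Pool.Agent.Lib.MP_72e2e6_nt.Sm.B.SpecG

/-!
# MP_72e2e6_nt, `Sm/B`, module `PbdR`: missing patterns give bad solutions
-/

set_option autoImplicit false

namespace Pool.Agent.MP72B

open Finset Polynomial MP72e2e6 Pool.Agent.MP72S Pool.Agent.MP72S.Lv

private theorem PbdR_pow {T V : Type} [Fintype T] [AddCommGroup V] [Module (ZMod 2) V]
    {m k : ℕ} (S : Opr T V) (T1 : Finset T) (n : Fin m → ZMod 2) (A : T → Fin m → ZMod 2)
    (B : Fin m → Fin m → ZMod 2) (x : Fin k → Unk T V m) (h : ∀ j, RE S T1 n A B (x j)) :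
    RE (S.pow k) T1 n A B
      ((fun v j => (x j).1 v, fun j => (x j).2.1, fun i j => (x j).2.2 i) :
        Unk T (Fin k → V) m) := by
  constructor
  · intro v hv
    funext j
    have h1 := (h j).fix v hv
    simp only [Pi.add_apply, Finset.sum_apply, Pi.smul_apply, Pi.sub_apply, Opr.pow_σ,
      Opr.pow_Λ, Pi.zero_apply]
    exact h1
  · intro i
    funext j
    have h1 := (h j).var i
    simp only [Pi.add_apply, Finset.sum_apply, Pi.smul_apply, Pi.sub_apply, Opr.pow_σ,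
      Opr.pow_Λ, Pi.zero_apply]
    exact h1

/-- The finite linear algebra: a basis modulo a subgroup of order four. -/
private theorem PbdR_bas {A : Type} [AddCommGroup A] [Module (ZMod 2) A] [Finite A]
    (Tm : Submodule (ZMod 2) A) (hT : Nat.card Tm = 4) :
    (∃ k : ℕ, Nat.card A = 4 * 2 ^ k) ∧ ∀ k : ℕ, Nat.card A = 4 * 2 ^ k →
      ∃ ν : Fin k → A, (∀ y : A, ∃ (β : Fin k → ZMod 2) (t : A), t ∈ Tm ∧
        y = ∑ j, β j • ν j + t) ∧ ∀ β : Fin k → ZMod 2, ∑ j, β j • ν j ∈ Tm → β = 0 := by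
  have hcard : Nat.card A = 4 * 2 ^ Module.finrank (ZMod 2) (A ⧸ Tm) := by
    rw [Submodule.card_eq_card_quotient_mul_card Tm, hT,
      Module.natCard_eq_pow_finrank (K := ZMod 2), Nat.card_zmod, mul_comm]
  refine ⟨⟨_, hcard⟩, fun k hk => ?_⟩
  have hkk : Module.finrank (ZMod 2) (A ⧸ Tm) = k := by
    have : 2 ^ Module.finrank (ZMod 2) (A ⧸ Tm) = 2 ^ k := by
      have := hcard.symm.trans hk
      omega
    exact Nat.pow_right_injective le_rfl this
  let bas := Module.finBasisOfFinrankEq (ZMod 2) (A ⧸ Tm) hkk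
  choose ν hν using fun j => Tm.mkQ_surjective (bas j)
  refine ⟨ν, fun y => ?_, fun β hβ => ?_⟩
  · refine ⟨fun j => bas.repr (Tm.mkQ y) j, y - ∑ j, bas.repr (Tm.mkQ y) j • ν j, ?_, by abel⟩
    refine (Submodule.Quotient.mk_eq_zero Tm).1 ?_
    change Tm.mkQ (y - ∑ j, bas.repr (Tm.mkQ y) j • ν j) = 0
    rw [map_sub, map_sum, sub_eq_zero]
    have e := bas.sum_repr (Tm.mkQ y)
    refine e.symm.trans (Finset.sum_congr rfl fun j _ => ?_)
    rw [map_smul, hν j]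
  · have e : ∑ j, β j • bas j = 0 := by
      have hβ' : Tm.mkQ (∑ j, β j • ν j) = 0 := (Submodule.Quotient.mk_eq_zero Tm).2 hβ
      rw [← hβ', map_sum]
      refine Finset.sum_congr rfl fun j _ => ?_
      rw [map_smul, hν j]
    funext j
    exact Fintype.linearIndependent_iff.mp bas.linearIndependent β e j

theorem tPbdR : MP72S.S_Hom → Lv.S_Mop → Lv.S_Exp → S_Uq → S_Tin → S_TyU → S_Dk1 → S_LnkR →
    S_PbdR := by
  intro _ _ _ hUq hTin _ hDk hLnk G N P _ _ _ _ D axL T1 hT1 S hS m z hz b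
  classical
  have ax := axL.ax
  obtain ⟨hl, -⟩ := hLnk D axL T1 hT1 S hS
  obtain ⟨hl1, hl2⟩ := hl m z hz
  obtain ⟨hd1, hd2, -, -, hdf, hd4, -, -, -, -, hd2'⟩ := hDk D axL z hz
  obtain ⟨hu1, hu2, -⟩ := hUq D axL z hz
  have hfin : Finite (D.Dk z 1) := hdf 1 le_rfl
  have htwo : ∀ ν : D.Dk z 1, 2 • ν = 0 := fun ν => Subtype.ext ((hd1 ν.1).1 ν.2).2
  letI : Module (ZMod 2) (D.Dk z 1) := AddCommGroup.zmodModule (n := 2) htwo
  let Tm : Submodule (ZMod 2) (D.Dk z 1) :=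
    AddSubgroup.toZModSubmodule 2 ((D.T z).addSubgroupOf (D.Dk z 1))
  have hTm : ∀ ν : D.Dk z 1, ν ∈ Tm ↔ ν.1 ∈ D.T z := fun ν => Iff.rfl
  have hTle : D.T z ≤ D.Dk z 1 := hd2 1 le_rfl
  have hTc : Nat.card Tm = 4 := by
    rw [← hd4 ⟨b⟩]
    exact Nat.card_congr ⟨fun x => ⟨x.1.1, (hTm x.1).1 x.2⟩,
      fun y => ⟨⟨y.1, hTle y.2⟩, (hTm _).2 y.2⟩, fun x => rfl, fun y => rfl⟩
  obtain ⟨hc1, hc2⟩ := PbdR_bas Tm hTc
  refine ⟨hc1, fun k hk L hpat => ?_⟩
  obtain ⟨ν, hν1, hν2⟩ := hc2 k hk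
  -- the coordinates
  have hho : ∀ t : D.Dk z 1, IsHo (D.coc z t.1) := fun t => (hl1 t.1 t.2).1
  have hZ : ∀ t : D.Dk z 1, t.1 ∈ D.Z z := fun t => ((hd1 t.1).1 t.2).1
  let X₀ : D.Dk z 1 → Unk (TT D.toDat) (VN N) m := fun t =>
    (fun v => VN.mk (D.coc z t.1 (D.tau v.1)) ((hho t).two _),
      VN.mk (D.coc z t.1 (D.phi D.inf)) ((hho t).two _),
      fun i => VN.mk (D.coc z t.1 (D.tau (z i))) ((hho t).two _))
  have hadd : ∀ t t', X₀ (t + t') = X₀ t + X₀ t' := by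
    intro t t'
    refine Prod.ext ?_ (Prod.ext ?_ ?_)
    · funext v
      apply VN.inj
      exact hu2 t.1 (hZ t) t'.1 (hZ t') _
    · apply VN.inj
      exact hu2 t.1 (hZ t) t'.1 (hZ t') _
    · funext i
      apply VN.inj
      exact hu2 t.1 (hZ t) t'.1 (hZ t') _
  let X₁ : D.Dk z 1 →+ Unk (TT D.toDat) (VN N) m := AddMonoidHom.mk' X₀ hadd
  let X : D.Dk z 1 →ₗ[ZMod 2] Unk (TT D.toDat) (VN N) m := X₁.toZModLinearMap 2
  have hX0 : ∀ t, X t = X₀ t := fun _ => rfl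
  have hX : ∀ t, D.Crd z (D.coc z t.1) (X t) := fun t =>
    ⟨fun v => rfl, rfl, fun i => rfl⟩
  have hRE : ∀ t, RE S T1 (nz D.toDat z) (Az D.toDat z) (Bz D.toDat z) (X t) :=
    fun t => ((hl1 t.1 t.2).2.2 (X t) (hX t)).1
  have hXr : ∀ t i, ((X t).2.2 i).v = t.1 (Sum.inr i) :=
    fun t => ((hl1 t.1 t.2).2.2 (X t) (hX t)).2
  have hXi : ∀ t t', X t = X t' → t = t' := by
    intro t t' h
    apply Subtype.ext
    refine hl2 t.1 t.2 t'.1 t'.2 (X t) (hX t) ?_
    rw [h]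
    exact hX t'
  -- the torsion cocycles
  have hzinf : ∀ i, z i ≠ D.inf := fun i h => hz.nS i (by rw [h]; exact ax.infS)
  have hchτ : ∀ v : TT D.toDat, D.chi z (D.tau v.1) = D.ch0 (D.tau v.1) := by
    intro v
    unfold Dat.chi
    rw [Finset.sum_eq_zero, add_zero]
    intro i _
    exact ax.ch_tau' (z i) v.1 (hzinf i) v.2.2 (fun h => hz.nS i (by rw [h]; exact v.2.1))
  have hchφ : D.chi z (D.phi D.inf) = D.ch0 (D.phi D.inf) := by
    unfold Dat.chi
    rw [Finset.sum_eq_zero, add_zero]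
    intro i _
    exact ax.ch_inf (z i) (hzinf i)
  have hTX : ∀ (y : VN N) (R : N) (hR : 2 • R = y.v) (t : D.Dk z 1), t.1 = D.tv z R →
      X t = (fun v => S.σ v y, S.Λ y, fun _ => y) := by
    intro y R hR t ht
    have hcoc : ∀ σ, D.coc z t.1 σ = tw (D.chi z) σ R - R := by
      intro σ
      rw [ht]
      exact hu1 _ _ (hTin D axL z hz R) σ
    refine Prod.ext ?_ (Prod.ext ?_ ?_)
    · funext v
      apply VN.inj
      change D.coc z t.1 (D.tau v.1) = (S.σ v y).v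
      rw [hcoc, hS.sg v y R hR]
      unfold MP72S.tw
      rw [hchτ v]
    · apply VN.inj
      change D.coc z t.1 (D.phi D.inf) = (S.Λ y).v
      rw [hcoc, hS.la y R hR]
      unfold MP72S.tw
      rw [hchφ]
    · funext i
      apply VN.inj
      rw [hXr t i, ht, ← hR]
      rfl
  let x : Unk (TT D.toDat) (Fin k → VN N) m :=
    (fun v j => (X (ν j)).1 v, fun j => (X (ν j)).2.1, fun i j => (X (ν j)).2.2 i)
  refine ⟨x, PbdR_pow S T1 _ _ _ (fun j => X (ν j)) fun j => hRE (ν j), ⟨?_, ?_⟩⟩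
  · intro β y h1 h2 h3
    apply hν2
    have e0 : X (∑ j, β j • ν j) = (fun v => S.σ v y, S.Λ y, fun _ => y) := by
      rw [map_sum]
      refine Prod.ext ?_ (Prod.ext ?_ ?_)
      · rw [Prod.fst_sum]
        funext v
        rw [Finset.sum_apply]
        refine (Finset.sum_congr rfl fun j _ => ?_).trans (h2 v)
        rw [map_smul]
        rfl
      · rw [Prod.snd_sum, Prod.fst_sum]
        refine (Finset.sum_congr rfl fun j _ => ?_).trans h3
        rw [map_smul]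
        rfl
      · rw [Prod.snd_sum, Prod.snd_sum]
        funext i
        rw [Finset.sum_apply]
        refine (Finset.sum_congr rfl fun j _ => ?_).trans (h1 i)
        rw [map_smul]
        rfl
    obtain ⟨R, hR⟩ := ax.dvs y.v
    have hR4 : 4 • R = 0 := by
      have h4 : (4 : ℕ) • R = 2 • (2 • R) := by
        rw [smul_smul]
        norm_num
      rw [h4, hR]
      exact y.two
    have hmem : D.tv z R ∈ D.T z := ⟨R, hR4, rfl⟩
    have e1 := hTX y R hR ⟨D.tv z R, hTle hmem⟩ rfl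
    have e2 := hXi _ _ (e0.trans e1.symm)
    rw [hTm, e2]
    exact hmem
  · unfold DatL.Pat at hpat
    push Not at hpat
    obtain ⟨c, hc1', hc2', hc3', hc4'⟩ := hpat
    let g₀ : D.Dk z 1 →+ VN N := AddMonoidHom.mk' (fun y => VN.mk (c y.1) (hc3' _ y.2))
      (by
        intro y y'
        apply VN.inj
        rw [VN.v_add, VN.v_mk, VN.v_mk, VN.v_mk, ← hc1' _ y.2 _ y'.2]
        rfl)
    let g : D.Dk z 1 →ₗ[ZMod 2] VN N := g₀.toZModLinearMap 2
    have hg : ∀ y : D.Dk z 1, (g y).v = c y.1 := fun y => rfl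
    refine ⟨fun j => g (ν j), ?_⟩
    by_contra hlt
    push Not at hlt
    have hset : {i | i ≠ b ∧ x.2.2 i = x.2.2 b + fun j => g (ν j)} =
        ((univ.filter fun i => i ≠ b ∧ x.2.2 i = x.2.2 b + fun j => g (ν j) : Finset (Fin m)) :
          Set (Fin m)) := by
      ext i
      simp
    rw [hset, Set.ncard_coe_finset] at hlt
    obtain ⟨I, hI, hIc⟩ := Finset.exists_subset_card_eq hlt
    have hI' : ∀ i ∈ I, i ≠ b ∧ x.2.2 i = x.2.2 b + fun j => g (ν j) := fun i hi =>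
      (Finset.mem_filter.mp (hI hi)).2
    obtain ⟨i, hi, ν', hν', hne⟩ := hc4' I hIc (fun hb => (hI' b hb).1 rfl)
    apply hne
    obtain ⟨β, κ, hκ, hy1⟩ := hν1 ⟨ν', hν'⟩
    let h : D.Dk z 1 →ₗ[ZMod 2] VN N :=
      { toFun := fun y => (X y).2.2 i - (X y).2.2 b
        map_add' := fun y y' => by
          rw [map_add]
          change ((X y).2.2 i + (X y').2.2 i) - ((X y).2.2 b + (X y').2.2 b) =
            ((X y).2.2 i - (X y).2.2 b) + ((X y').2.2 i - (X y').2.2 b)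
          abel
        map_smul' := fun a y => by
          rw [map_smul]
          change a • (X y).2.2 i - a • (X y).2.2 b = a • ((X y).2.2 i - (X y).2.2 b)
          rw [smul_sub] }
    have hgκ : g κ = 0 := by
      apply VN.inj
      rw [hg, VN.v_zero]
      exact hc2' _ ((hTm κ).1 hκ)
    have hhκ : h κ = 0 := by
      change (X κ).2.2 i - (X κ).2.2 b = 0
      obtain ⟨R, hR4, hR⟩ := (hTm κ).1 hκ
      apply VN.inj
      rw [VN.v_sub, hXr, hXr, hR, VN.v_zero, sub_eq_zero]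
      rfl
    have hgh : g ⟨ν', hν'⟩ = h ⟨ν', hν'⟩ := by
      rw [hy1, map_add, map_add, hgκ, hhκ, map_sum, map_sum]
      congr 1
      refine Finset.sum_congr rfl fun j _ => ?_
      rw [map_smul, map_smul]
      congr 1
      have e := congrFun (hI' i hi).2 j
      change g (ν j) = (X (ν j)).2.2 i - (X (ν j)).2.2 b
      rw [eq_sub_iff_add_eq, add_comm]
      exact e.symm
    have e1 := hXr ⟨ν', hν'⟩ i
    have e2 := hXr ⟨ν', hν'⟩ b
    have e3 : c ν' = (h ⟨ν', hν'⟩).v := by rw [← hgh, hg]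
    change ν' (Sum.inr i) = ν' (Sum.inr b) + c ν'
    rw [e3]
    change ν' (Sum.inr i) = ν' (Sum.inr b) + ((X ⟨ν', hν'⟩).2.2 i - (X ⟨ν', hν'⟩).2.2 b).v
    rw [VN.v_sub, e1, e2]
    abel

end Pool.Agent.MP72B
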