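import Pool.Agent.Lib.MP_72e2e6_nt.Sm.B.SpecQ

/-!
# MP_72e2e6_nt, `Sm/B`, part Q: the Selmer group of level one (general local conditions)
-/

namespace Pool.Agent.MP72B.Par

open Finset Pool.Agent.MP72S

private theorem Dkl_sg {N : Type} [AddCommGroup N] (a : ZMod 2) (x y : N) (h : sg a y = x) :
    y = x ∨ y = -x := by
  unfold sg at h
  split_ifs at h
  · exact Or.inl h
  · exact Or.inr (by rw [← h, neg_neg])

/-- The local condition at an unramified place. -/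
private theorem Dkl_zero (hLcf : S_Lcf) {G N : Type} [Group G] [AddCommGroup N]
    [DistribMulAction G N] (p2 : C.P2 N) (t f : G)
    (htri : ∀ x : N, 2 • x = 0 → t • x = x ∧ f • x = x) (a b : ZMod 2)
    (hfin : {x : N | sg a (t • x) = x ∧ sg b (f • x) = x}.Finite)
    (ha : ∀ Q : N, sg a (t • Q) = Q) (p : N × N) :
    p ∈ Lsp (N := N) t f a b ↔ p.1 = 0 ∧ 2 • p.2 = 0 := by
  have h1 : ((Lsp (N := N) t f a b : AddSubgroup (N × N)) : Set (N × N)) ⊆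
      (fun s : N => ((0 : N), s)) '' {s | 2 • s = 0} := by
    rintro ⟨p1, p2⟩ ⟨-, h2, Q, h3, -⟩
    refine ⟨p2, h2, ?_⟩
    have h4 : p1 = 0 := by
      have h5 : p1 = sg a (t • Q) - Q := h3
      rw [h5, ha, sub_self]
    rw [h4]
  have hV : ({s : N | 2 • s = 0}).ncard = 4 := by
    rw [← Nat.card_coe_set_eq]
    exact p2.four
  have hVf : ({s : N | 2 • s = 0}).Finite := Set.finite_of_ncard_ne_zero (by rw [hV]; norm_num)
  have hinj : Function.Injective fun s : N => ((0 : N), s) := fun s s' h => (Prod.ext_iff.1 h).2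
  have h2 : ((fun s : N => ((0 : N), s)) '' {s | 2 • s = 0}).ncard = 4 := by
    rw [Set.ncard_image_of_injective _ hinj, hV]
  have h3 : ((Lsp (N := N) t f a b : AddSubgroup (N × N)) : Set (N × N)).ncard = 4 := by
    rw [← Nat.card_coe_set_eq]
    exact hLcf p2 t f htri a b hfin
  have h4 := Set.eq_of_subset_of_ncard_le h1 (by rw [h2, h3]) (hVf.image _)
  have h5 : p ∈ Lsp (N := N) t f a b ↔
      p ∈ ((Lsp (N := N) t f a b : AddSubgroup (N × N)) : Set (N × N)) := Iff.rfl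
  rw [h5, h4]
  constructor
  · rintro ⟨s, hs, rfl⟩
    exact ⟨rfl, hs⟩
  · rintro ⟨h6, h7⟩
    exact ⟨p.2, h7, Prod.ext h6.symm rfl⟩

theorem tDkl (hFix : MP72B.S_Fix) (hUq : MP72B.S_Uq) (hDk1 : MP72B.S_Dk1) (hTyU : MP72B.S_TyU)
    (hLcf : S_Lcf) : S_Dkl := by
  intro G N P ι _ _ _ _ _ _ D hA hF x hx
  have ax := hA.ax
  have p2 : C.P2 N := ⟨ax.prim, ax.dvs, ax.four⟩
  obtain ⟨-, -, -, hf4, -, -, hch⟩ := hFix D hA x hx
  obtain ⟨hu1, -, -, -, hu5⟩ := hUq D hA x hx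
  obtain ⟨hty, -⟩ := hTyU D hA x hx
  have hk1 := (hDk1 D hA x hx).1
  have htw : ∀ (σ : G) (y : N), 2 • y = 0 → tw (D.chi x) σ y = y := fun σ y hy =>
    tw_two ax.tri hy
  -- the character at the unramified places
  have hchi : ∀ v, v ∉ Set.range (D.pl x) → v ∉ D.S ∧ D.chi x (D.tau v) = 0 := by
    intro v hv
    have hvS : v ∉ D.S := fun h => hv ⟨Sum.inl ⟨v, h⟩, rfl⟩
    refine ⟨hvS, ?_⟩
    have h1 : ∀ i, D.ch (x i) (D.tau v) = 0 := by
      intro i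
      refine ax.ch_tau' _ _ ?_ ?_ ?_
      · intro h
        exact hx.nS i (h ▸ ax.infS)
      · intro h
        exact hvS (h ▸ ax.infS)
      · intro h
        exact hv ⟨Sum.inr i, h⟩
    unfold Dat.chi
    rw [ax.ch0_tau v hvS, Finset.sum_eq_zero fun i _ => h1 i, add_zero]
  have hzero : ∀ v, v ∉ Set.range (D.pl x) → ∀ p : N × N,
      p ∈ Lsp (N := N) (D.tau v) (D.phi v) (D.chi x (D.tau v)) (D.chi x (D.phi v)) ↔
        p.1 = 0 ∧ 2 • p.2 = 0 := by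
    intro v hv p
    obtain ⟨hvS, hc⟩ := hchi v hv
    refine Dkl_zero hLcf p2 _ _ (fun y hy => ⟨ax.tri _ y hy, ax.tri _ y hy⟩) _ _ ?_ ?_ p
    · refine (hF v).subset ?_
      rintro y ⟨h1, h2⟩
      exact ⟨Dkl_sg _ _ _ h1, Dkl_sg _ _ _ h2⟩
    · intro Q
      rw [hc, sg_zero', ax.unr v hvS]
  -- the map
  have hmem : ∀ ν ∈ D.Dk x 1, D.coc x ν ∈ SelD D.toDat (D.chi x) := by
    intro ν hν
    obtain ⟨h1, h2⟩ := (hk1 ν).1 hν
    have hz := DatL.coc_spec h1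
    have htwo : ∀ σ, 2 • D.coc x ν σ = 0 := by
      intro σ
      have h3 := hu5 ν h1 1 (by rw [pow_one]; exact h2) σ
      rwa [pow_one] at h3
    refine ⟨⟨hz.u.lc, htwo, fun σ τ => ?_⟩, fun v => ?_⟩
    · rw [hz.u.co σ τ, htw σ _ (htwo τ)]
    · by_cases hv : v ∈ Set.range (D.pl x)
      · obtain ⟨j, rfl⟩ := hv
        obtain ⟨Q, -, hQ⟩ := hz.lo j
        exact ⟨htwo _, htwo _, Q, hQ.1, hQ.2⟩
      · exact (hzero v hv _).2 ⟨hz.u.ur v hv, htwo _⟩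
  let F : D.Dk x 1 → SelD D.toDat (D.chi x) := fun ν => ⟨D.coc x ν.1, hmem ν.1 ν.2⟩
  refine Nat.card_congr (Equiv.ofBijective F ⟨?_, ?_⟩)
  · intro ν ν' h
    have h1 : D.coc x ν.1 = D.coc x ν'.1 := congrArg Subtype.val h
    have h2 := DatL.coc_spec ((hk1 ν.1).1 ν.2).1
    have h3 := DatL.coc_spec ((hk1 ν'.1).1 ν'.2).1
    rw [h1] at h2
    exact Subtype.ext (hty _ _ _ h2 h3)
  · rintro ⟨ψ, hψ, hloc⟩
    have hQ : ∀ j : D.J ι, ∃ Q : N, ψ (D.tau (D.pl x j)) = tw (D.chi x) (D.tau (D.pl x j)) Q - Q ∧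
        ψ (D.phi (D.pl x j)) = tw (D.chi x) (D.phi (D.pl x j)) Q - Q := by
      intro j
      obtain ⟨-, -, Q, h1, h2⟩ := hloc (D.pl x j)
      exact ⟨Q, h1, h2⟩
    choose Q hQ1 hQ2 using hQ
    have hz : D.IsZ x (fun j => D.lm x j (Q j)) ψ := by
      refine ⟨⟨hψ.lc, fun σ τ => ?_, ⟨1, fun σ => ?_⟩, fun v hv => ?_⟩, fun j =>
        ⟨Q j, rfl, hQ1 j, hQ2 j⟩⟩
      · rw [hψ.mul, htw σ _ (hψ.two τ)]
      · rw [pow_one]
        exact hψ.two σ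
      · exact ((hzero v hv _).1 (hloc v)).1
    have ht : (fun j => D.lm x j (Q j)) ∈ D.Dk x 1 := by
      refine (hk1 _).2 ⟨⟨ψ, hz⟩, ?_⟩
      funext j
      show 2 • D.lm x j (Q j) = 0
      rw [hf4 j (Q j), ← hQ1 j, ← hQ2 j]
      exact ⟨hψ.two _, hψ.two _⟩
    refine ⟨⟨_, ht⟩, Subtype.ext (funext fun σ => ?_)⟩
    exact hu1 _ ψ hz σ

end Pool.Agent.MP72B.Par
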