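import Pool.Agent.Lib.MP_72e2e6_nt.Sm.B.SpecQ

/-!
# MP_72e2e6_nt, `Sm/B`, module QDkt: the Selmer group of level one (tame configurations)
-/

namespace Pool.Agent.MP72B.Par

open Finset Pool.Agent.MP72S

section

variable {G N P : Type} [Group G] [TopologicalSpace G] [AddCommGroup N] [DistribMulAction G N]
  {D : Dat G N P}

/-- At an unramified place the local condition is `0 × V`. -/
private theorem dkt_unr (hLcf : S_Lcf) (hA : Ax D) (hF : FinP D) {χ : G → ZMod 2} {v : P}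
    (hv : v ∉ D.S) (hχ : χ (D.tau v) = 0) {s : N} (hs : 2 • s = 0) :
    ((0 : N), s) ∈ Lsp (N := N) (D.tau v) (D.phi v) (χ (D.tau v)) (χ (D.phi v)) := by
  have hc : Nat.card (Lsp (N := N) (D.tau v) (D.phi v) (χ (D.tau v)) (χ (D.phi v))) = 4 := by
    refine hLcf ⟨hA.prim, hA.dvs, hA.four⟩ _ _ (fun x hx => ⟨hA.tri _ _ hx, hA.tri _ _ hx⟩) _ _
      ((hF v).subset ?_)
    rintro x ⟨h1, h2⟩
    constructor
    · rcases zmod2 (χ (D.tau v)) with h | h
      · rw [h, sg_zero'] at h1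
        exact Or.inl h1
      · rw [h, sg_one'] at h1
        exact Or.inr (by rw [← h1, neg_neg]; rw [h1])
    · rcases zmod2 (χ (D.phi v)) with h | h
      · rw [h, sg_zero'] at h2
        exact Or.inl h2
      · rw [h, sg_one'] at h2
        exact Or.inr (by rw [← h2, neg_neg]; rw [h2])
  have hfst : ∀ p ∈ Lsp (N := N) (D.tau v) (D.phi v) (χ (D.tau v)) (χ (D.phi v)), p.1 = 0 := by
    rintro p ⟨_, _, Q, h1, _⟩
    rw [h1, hχ, sg_zero', hA.unr v hv, sub_self]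
  let g : Lsp (N := N) (D.tau v) (D.phi v) (χ (D.tau v)) (χ (D.phi v)) → {x : N // 2 • x = 0} :=
    fun p => ⟨p.1.2, p.2.2.1⟩
  have hg : Function.Injective g := by
    intro p p' h
    apply Subtype.ext
    apply Prod.ext
    · rw [hfst _ p.2, hfst _ p'.2]
    · exact congrArg Subtype.val h
  have hfin : Finite {x : N // 2 • x = 0} := Nat.finite_of_card_ne_zero (by rw [hA.four]; decide)
  have hb := hg.bijective_of_nat_card_le (by rw [hc, hA.four])
  obtain ⟨p, hp⟩ := hb.2 ⟨s, hs⟩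
  have h1 : p.1 = ((0 : N), s) := Prod.ext (hfst _ p.2) (congrArg Subtype.val hp)
  rw [← h1]
  exact p.2

end

theorem tDkt : MP72S.S_Uq → MP72S.S_Dk1 → MP72S.S_TyU → MP72S.S_Tai → S_Lcf → S_Dkt := by
  intro hUq hDk1 hTyU hTai hLcf G N P ι _ _ _ _ _ _ D hA hF x hx
  obtain ⟨u1, u2, u3, u4, u5⟩ := hUq D hA x
  have hmem := (hDk1 D hA).1 x
  have hty := (hTyU D hA x hx).1
  obtain ⟨a1, a2, a3, a4, _, _⟩ := hTai D hA x hx
  have hS : ∀ v, v ∉ Set.range (D.pl x) → v ∉ D.S := fun v hv h => hv ⟨Sum.inl ⟨v, h⟩, rfl⟩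
  -- the cocycles of types of order two are homomorphisms in the Selmer group
  have hsel : ∀ t (ψ : G → N), D.IsZ x t ψ → (∀ σ, 2 • ψ σ = 0) → ψ ∈ SelD D (D.chi x) := by
    intro t ψ hψ h2
    refine ⟨⟨hψ.u.lc, h2, fun σ τ => ?_⟩, fun v => ?_⟩
    · rw [hψ.u.co σ τ, tw_two hA.tri (h2 τ)]
    · by_cases hv : v ∈ Set.range (D.pl x)
      · obtain ⟨j, rfl⟩ := hv
        obtain ⟨Q, _, h3⟩ := hψ.lo j
        exact ⟨h2 _, h2 _, Q, h3.1, h3.2⟩
      · have h3 := hψ.u.ur v hv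
        rw [h3]
        exact dkt_unr hLcf hA hF (hS v hv) (a2 v hv) (h2 _)
  refine Nat.card_congr (Equiv.ofBijective
    (fun ν : D.Dk x 1 => (⟨D.coc x ν.1, hsel ν.1 _ (Dat.coc_spec ((hmem ν.1).1 ν.2).1)
      (fun σ => by
        have := u5 ν.1 ((hmem ν.1).1 ν.2).1 1 (by rw [pow_one]; exact ((hmem ν.1).1 ν.2).2) σ
        rwa [pow_one] at this)⟩ : SelD D (D.chi x))) ⟨?_, ?_⟩)
  · intro ν ν' h
    have h1 : D.coc x ν.1 = D.coc x ν'.1 := congrArg Subtype.val h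
    have h2 := Dat.coc_spec ((hmem ν.1).1 ν.2).1
    have h3 := Dat.coc_spec ((hmem ν'.1).1 ν'.2).1
    rw [← h1] at h3
    exact Subtype.ext (hty _ _ _ h2 h3)
  · rintro ⟨ψ, hψ, hψ1⟩
    choose Q hQ using fun v => (hψ1 v).2.2
    have hur : ∀ v, v ∉ Set.range (D.pl x) → ψ (D.tau v) = 0 := by
      intro v hv
      have h1 := (hQ v).1
      simp only at h1
      rw [h1, a2 v hv, sg_zero', hA.unr v (hS v hv), sub_self]
    have hco : IsCo (D.chi x) ψ := by
      intro σ τ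
      rw [hψ.mul, tw_two hA.tri (hψ.two τ)]
    have hZ : D.IsZ x (fun j => 2 • Q (D.pl x j)) ψ := by
      refine ⟨⟨hψ.lc, hco, ⟨1, fun σ => by rw [pow_one]; exact hψ.two σ⟩, hur⟩, fun j => ?_⟩
      exact ⟨Q (D.pl x j), rfl, (hQ _).1, (hQ _).2⟩
    have hfix : ∀ v, tw (D.chi x) (D.tau v) (2 • Q v) = 2 • Q v ∧
        tw (D.chi x) (D.phi v) (2 • Q v) = 2 • Q v := by
      intro v
      have h1 := hψ.two (D.tau v)
      have h2 := hψ.two (D.phi v)
      have h3 : ψ (D.tau v) = tw (D.chi x) (D.tau v) (Q v) - Q v := (hQ v).1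
      have h4 : ψ (D.phi v) = tw (D.chi x) (D.phi v) (Q v) - Q v := (hQ v).2
      rw [h3, smul_sub, ← tw_nsmul, sub_eq_zero] at h1
      rw [h4, smul_sub, ← tw_nsmul, sub_eq_zero] at h2
      exact ⟨h1, h2⟩
    have h2t : 2 • (fun j => 2 • Q (D.pl x j) : D.J ι → N) = 0 := by
      funext j
      rw [Pi.smul_apply, Pi.zero_apply]
      rcases j with s | i
      · exact hx.tame s.1 s.2 _ (hfix s.1).1 (hfix s.1).2
      · have h1 := (hfix (x i)).1
        rw [tw, a1 i, sg_one', hA.unr _ (hx.nS i)] at h1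
        have h2 : 2 • Q (x i) + 2 • Q (x i) = 0 := by
          nth_rewrite 1 [← h1]
          exact neg_add_cancel _
        change 2 • (2 • Q (x i)) = 0
        rw [two_nsmul]
        exact h2
    refine ⟨⟨fun j => 2 • Q (D.pl x j), (hmem _).2 ⟨⟨ψ, hZ⟩, h2t⟩⟩, ?_⟩
    apply Subtype.ext
    funext σ
    exact u1 _ ψ hZ σ

end Pool.Agent.MP72B.Par
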