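import Pool.Agent.Lib.MP_72e2e6_nt.Sm.B.SpecQ

/-!
# MP_72e2e6_nt, `Sm/B`, module QKex: the theta characteristic
-/

namespace Pool.Agent.MP72B.Par

open Finset Pool.Agent.MP72S

section

variable {G N P : Type} [Group G] [TopologicalSpace G] [AddCommGroup N] [DistribMulAction G N]
  {D : Dat G N P}

private theorem kex_b (hA : Ax D) (σ : G) {Q : N} (hQ : 4 • Q = 0) :
    2 • (σ • Q - Q) = 0 ∧ 2 • (2 • Q) = 0 := by
  have h1 : 2 • (2 • Q) = 0 := by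
    rw [← mul_smul]
    exact hQ
  refine ⟨?_, h1⟩
  rw [smul_sub, ← smul_comm σ 2 Q, hA.tri σ _ h1, sub_self]

private theorem kex_z (hA : Ax D) {x : N} (hx : 2 • x = 0) : D.e 0 x = 0 ∧ D.e x 0 = 0 := by
  have h0 : 2 • (0 : N) = 0 := smul_zero _
  have h1 : D.e 0 x = 0 := by
    have := hA.e_add 0 0 x h0 h0 hx
    rw [add_zero] at this
    exact left_eq_add.1 this
  exact ⟨h1, by rw [hA.e_sym x 0 hx h0]; exact h1⟩

/-- The function `κ` is additive. -/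
private theorem kex_add (hA : Ax D) (σ : G) {Q Q' : N} (hQ : 4 • Q = 0) (hQ' : 4 • Q' = 0) :
    D.e (σ • (Q + Q') - (Q + Q')) (2 • (Q + Q')) =
      D.e (σ • Q - Q) (2 • Q) + D.e (σ • Q' - Q') (2 • Q') := by
  obtain ⟨b1, b2⟩ := kex_b hA σ hQ
  obtain ⟨b1', b2'⟩ := kex_b hA σ hQ'
  have h1 : σ • (Q + Q') - (Q + Q') = (σ • Q - Q) + (σ • Q' - Q') := by
    rw [smul_add]
    abel
  have b3 : 2 • (2 • Q + 2 • Q') = 0 := by rw [smul_add, b2, b2', add_zero]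
  have hadd2 : ∀ a b c : N, 2 • a = 0 → 2 • b = 0 → 2 • c = 0 →
      D.e a (b + c) = D.e a b + D.e a c := by
    intro a b c ha hb hc
    rw [hA.e_sym a (b + c) ha (by rw [smul_add, hb, hc, add_zero]), hA.e_add b c a hb hc ha,
      hA.e_sym b a hb ha, hA.e_sym c a hc ha]
  rw [h1, smul_add 2 Q Q', hA.e_add _ _ _ b1 b1' b3, hadd2 _ _ _ b1 b2 b2',
    hadd2 _ _ _ b1' b2 b2']
  have h2 : D.e (σ • Q - Q) (2 • Q') = D.e (σ • Q' - Q') (2 • Q) := by
    rw [hA.sa σ Q Q' hQ hQ', hA.e_sym _ _ b2 b1']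
  rw [h2]
  have h3 : D.e (σ • Q' - Q') (2 • Q) + D.e (σ • Q' - Q') (2 • Q) = 0 :=
    CharTwo.add_self_eq_zero _
  linear_combination h3

private theorem kex_hom (hA : Ax D) (σ τ : G) {Q : N} (hQ : 4 • Q = 0) :
    D.e ((σ * τ) • Q - Q) (2 • Q) = D.e (σ • Q - Q) (2 • Q) + D.e (τ • Q - Q) (2 • Q) := by
  obtain ⟨b1, b2⟩ := kex_b hA σ hQ
  obtain ⟨b1', _⟩ := kex_b hA τ hQ
  have h1 : (σ * τ) • Q - Q = (σ • Q - Q) + (τ • Q - Q) := by
    have h2 := hA.tri σ _ b1'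
    rw [smul_sub] at h2
    rw [mul_smul]
    calc σ • τ • Q - Q = (σ • τ • Q - σ • Q) + (σ • Q - Q) := by abel
      _ = _ := by rw [h2]; abel
  rw [h1, hA.e_add _ _ _ b1 b1' b2]

private theorem kex_if {T : N} (hT : 2 • T = 0) (a b : ZMod 2) :
    (if a + b = 0 then (0 : N) else T) = (if a = 0 then 0 else T) + (if b = 0 then 0 else T) := by
  have hTT : T + T = 0 := by rw [← two_nsmul]; exact hT
  rcases zmod2 a with rfl | rfl <;> rcases zmod2 b with rfl | rfl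
  · simp
  · simp
  · simp
  · rw [show (1 : ZMod 2) + 1 = 0 from rfl, if_pos rfl, if_neg one_ne_zero, hTT]

private theorem kex_main (hBas : MP72S.S_Bas) (hA : Ax D) : ∃ k : G → N, IsHo k ∧
    ∀ (σ : G) (Q : N), 4 • Q = 0 → D.e (σ • Q - Q) (2 • Q) = D.e (2 • Q) (k σ) := by
  obtain ⟨⟨T₁, T₂, hT1, hT2, h12, hdec, _⟩, _⟩ := hBas D hA
  obtain ⟨h₁, hh1⟩ := hA.dvs T₁
  obtain ⟨h₂, hh2⟩ := hA.dvs T₂
  have q1 : 4 • h₁ = 0 := by
    rw [show 4 = 2 * 2 from rfl, mul_smul, hh1, hT1]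
  have q2 : 4 • h₂ = 0 := by
    rw [show 4 = 2 * 2 from rfl, mul_smul, hh2, hT2]
  let κ₁ : G → ZMod 2 := fun σ => D.e (σ • h₁ - h₁) (2 • h₁)
  let κ₂ : G → ZMod 2 := fun σ => D.e (σ • h₂ - h₂) (2 • h₂)
  let k : G → N := fun σ => (if κ₂ σ = 0 then 0 else T₁) + (if κ₁ σ = 0 then 0 else T₂)
  have hk2 : ∀ σ, 2 • k σ = 0 := by
    intro σ
    simp only [k]
    rw [smul_add]
    split_ifs <;> simp [hT1, hT2]
  have h21 : D.e T₂ T₁ = 1 := by rw [hA.e_sym T₂ T₁ hT2 hT1, h12]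
  have e1 : ∀ σ, D.e T₁ (k σ) = κ₁ σ := by
    intro σ
    rw [hA.e_sym T₁ (k σ) hT1 (hk2 σ)]
    simp only [k]
    have a1 : 2 • (if κ₂ σ = 0 then (0 : N) else T₁) = 0 := by split_ifs <;> simp [hT1]
    have a2 : 2 • (if κ₁ σ = 0 then (0 : N) else T₂) = 0 := by split_ifs <;> simp [hT2]
    rw [hA.e_add _ _ _ a1 a2 hT1]
    have a3 : D.e (if κ₂ σ = 0 then (0 : N) else T₁) T₁ = 0 := by
      split_ifs
      · exact (kex_z hA hT1).1
      · exact hA.e_alt T₁ hT1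
    rw [a3, zero_add]
    rcases zmod2 (κ₁ σ) with h | h
    · rw [h, if_pos rfl]
      exact (kex_z hA hT1).1
    · rw [h, if_neg one_ne_zero, h21]
  have e2 : ∀ σ, D.e T₂ (k σ) = κ₂ σ := by
    intro σ
    rw [hA.e_sym T₂ (k σ) hT2 (hk2 σ)]
    simp only [k]
    have a1 : 2 • (if κ₂ σ = 0 then (0 : N) else T₁) = 0 := by split_ifs <;> simp [hT1]
    have a2 : 2 • (if κ₁ σ = 0 then (0 : N) else T₂) = 0 := by split_ifs <;> simp [hT2]
    rw [hA.e_add _ _ _ a1 a2 hT2]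
    have a3 : D.e (if κ₁ σ = 0 then (0 : N) else T₂) T₂ = 0 := by
      split_ifs
      · exact (kex_z hA hT2).1
      · exact hA.e_alt T₂ hT2
    rw [a3, add_zero]
    rcases zmod2 (κ₂ σ) with h | h
    · rw [h, if_pos rfl]
      exact (kex_z hA hT2).1
    · rw [h, if_neg one_ne_zero, h12]
  -- locally constant
  have lcκ : ∀ h : N, IsLocallyConstant fun σ : G => D.e (σ • h - h) (2 • h) := fun h =>
    (hA.act h).comp fun x => D.e (x - h) (2 • h)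
  refine ⟨k, ⟨?_, hk2, ?_⟩, ?_⟩
  · exact ((lcκ h₂).comp fun a => if a = 0 then (0 : N) else T₁).comp₂
      ((lcκ h₁).comp fun a => if a = 0 then (0 : N) else T₂) (fun a b => a + b)
  · intro σ τ
    have m1 : κ₁ (σ * τ) = κ₁ σ + κ₁ τ := kex_hom hA σ τ q1
    have m2 : κ₂ (σ * τ) = κ₂ σ + κ₂ τ := kex_hom hA σ τ q2
    simp only [k]
    rw [m1, m2, kex_if hT1, kex_if hT2]
    abel
  · intro σ Q hQ
    -- the set where the formula holds is closed under addition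
    have hadd : ∀ A B : N, 4 • A = 0 → 4 • B = 0 →
        D.e (σ • A - A) (2 • A) = D.e (2 • A) (k σ) →
        D.e (σ • B - B) (2 • B) = D.e (2 • B) (k σ) →
        D.e (σ • (A + B) - (A + B)) (2 • (A + B)) = D.e (2 • (A + B)) (k σ) := by
      intro A B hA4 hB4 h1 h2
      rw [kex_add hA σ hA4 hB4, h1, h2, smul_add 2 A B,
        hA.e_add _ _ _ (kex_b hA σ hA4).2 (kex_b hA σ hB4).2 (hk2 σ)]
    have hV : ∀ w : N, 2 • w = 0 → D.e (σ • w - w) (2 • w) = D.e (2 • w) (k σ) := by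
      intro w hw
      rw [hA.tri σ w hw, sub_self, hw, (kex_z hA (hk2 σ)).1, (kex_z hA (smul_zero 2)).1]
    have f1 : D.e (σ • h₁ - h₁) (2 • h₁) = D.e (2 • h₁) (k σ) := by
      nth_rewrite 2 [hh1]
      exact (e1 σ).symm
    have f2 : D.e (σ • h₂ - h₂) (2 • h₂) = D.e (2 • h₂) (k σ) := by
      nth_rewrite 2 [hh2]
      exact (e2 σ).symm
    have hw4 : ∀ w : N, 2 • w = 0 → 4 • w = 0 := fun w hw => by
      rw [show 4 = 2 * 2 from rfl, mul_smul, hw, smul_zero]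
    have hs : 2 • (2 • Q) = 0 := (kex_b hA σ hQ).2
    have hd := hdec (2 • Q) hs
    rcases zmod2 (D.e (2 • Q) T₂) with c2 | c2 <;> rcases zmod2 (D.e (2 • Q) T₁) with c1 | c1
    · rw [c1, c2, if_pos rfl, if_pos rfl, add_zero] at hd
      exact hV Q hd
    · rw [c1, c2, if_pos rfl, if_neg one_ne_zero, zero_add] at hd
      have hw : 2 • (Q - h₂) = 0 := by rw [smul_sub, hd, hh2, sub_self]
      have := hadd h₂ (Q - h₂) q2 (hw4 _ hw) f2 (hV _ hw)
      rwa [add_sub_cancel] at this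
    · rw [c1, c2, if_pos rfl, if_neg one_ne_zero, add_zero] at hd
      have hw : 2 • (Q - h₁) = 0 := by rw [smul_sub, hd, hh1, sub_self]
      have := hadd h₁ (Q - h₁) q1 (hw4 _ hw) f1 (hV _ hw)
      rwa [add_sub_cancel] at this
    · rw [c1, c2, if_neg one_ne_zero, if_neg one_ne_zero] at hd
      have hw : 2 • (Q - (h₁ + h₂)) = 0 := by rw [smul_sub, hd, smul_add, hh1, hh2, sub_self]
      have h3 := hadd h₁ h₂ q1 q2 f1 f2
      have q3 : 4 • (h₁ + h₂) = 0 := by rw [smul_add, q1, q2, add_zero]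
      have := hadd (h₁ + h₂) (Q - (h₁ + h₂)) q3 (hw4 _ hw) h3 (hV _ hw)
      rwa [add_sub_cancel] at this

end

theorem tKex : MP72S.S_Bas → S_Kex := by
  intro hBas G N P _ _ _ _ D hA
  exact kex_main hBas hA

end Pool.Agent.MP72B.Par
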