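import Pool.Agent.Lib.MP_72e2e6_nt.Sm.B.SpecQ

/-!
# `Sm/B/QLag`: three maximal totally singular subgroups
-/

namespace Pool.Agent.MP72B.Par

open Finset Pool.Agent.MP72S

open Module

section Lag

variable {W : Type} [AddCommGroup W] [Module (ZMod 2) W]

private theorem lag_sup (β : LinearMap.BilinForm (ZMod 2) W) (X Y : Submodule (ZMod 2) W) :
    β.orthogonal (X ⊔ Y) = β.orthogonal X ⊓ β.orthogonal Y := by
  apply le_antisymm
  · exact le_inf (LinearMap.BilinForm.orthogonal_le le_sup_left)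
      (LinearMap.BilinForm.orthogonal_le le_sup_right)
  · intro a ha
    obtain ⟨h1, h2⟩ := Submodule.mem_inf.1 ha
    rw [LinearMap.BilinForm.mem_orthogonal_iff] at h1 h2 ⊢
    intro w hw
    obtain ⟨x, hx, y, hy, rfl⟩ := Submodule.mem_sup.1 hw
    show β (x + y) a = 0
    rw [map_add, LinearMap.add_apply, show β x a = 0 from h1 x hx, show β y a = 0 from h2 y hy,
      add_zero]

private theorem lag_max [Finite W] (β : LinearMap.BilinForm (ZMod 2) W) (hn : β.Nondegenerate)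
    (X : Submodule (ZMod 2) W) (hX : ∀ a ∈ X, ∀ b ∈ X, β a b = 0)
    (hc : finrank (ZMod 2) X * 2 = finrank (ZMod 2) W) : β.orthogonal X = X := by
  have hle : X ≤ β.orthogonal X := by
    intro a ha
    rw [LinearMap.BilinForm.mem_orthogonal_iff]
    intro b hb
    exact hX b hb a ha
  refine (Submodule.eq_of_le_of_finrank_le hle ?_).symm
  rw [LinearMap.BilinForm.finrank_orthogonal hn]
  omega

private theorem lag_card [Finite W] (X : Submodule (ZMod 2) W) :
    Nat.card X = 2 ^ finrank (ZMod 2) X := by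
  have h := natCard_eq_pow_finrank (K := ZMod 2) (V := X)
  rwa [Nat.card_zmod] at h

end Lag

/-- The statement for submodules. -/
private theorem lag_main (hAlt : MP72S.S_AltE) {H : Type} [AddCommGroup H] [Module (ZMod 2) H]
    [Finite H] (β : LinearMap.BilinForm (ZMod 2) H) (hn : β.Nondegenerate) (hr : β.IsRefl)
    (q : H → ZMod 2) (hq : ∀ a b, q (a + b) = q a + q b + β a b) (X Y Z : Submodule (ZMod 2) H)
    (hX : ∀ a ∈ X, q a = 0) (hY : ∀ a ∈ Y, q a = 0) (hZ : ∀ a ∈ Z, q a = 0)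
    (hcX : finrank (ZMod 2) X * 2 = finrank (ZMod 2) H)
    (hcY : finrank (ZMod 2) Y * 2 = finrank (ZMod 2) H)
    (hcZ : finrank (ZMod 2) Z * 2 = finrank (ZMod 2) H) :
    ∃ m : ℕ, Nat.card ↥(X ⊓ Y) * Nat.card ↥(X ⊓ Z) * Nat.card ↥(Y ⊓ Z) * Nat.card X = 4 ^ m := by
  classical
  have hiso : ∀ U : Submodule (ZMod 2) H, (∀ a ∈ U, q a = 0) → ∀ a ∈ U, ∀ b ∈ U, β a b = 0 := by
    intro U hU a ha b hb
    have h1 := hq a b
    rw [hU a ha, hU b hb, hU _ (U.add_mem ha hb)] at h1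
    simpa using h1.symm
  have eX : β.orthogonal X = X := lag_max β hn X (hiso X hX) hcX
  have eY : β.orthogonal Y = Y := lag_max β hn Y (hiso Y hY) hcY
  have eZ : β.orthogonal Z = Z := lag_max β hn Z (hiso Z hZ) hcZ
  have eYZ : β.orthogonal (Y ⊔ Z) = Y ⊓ Z := by rw [lag_sup, eY, eZ]
  have eYZ' : β.orthogonal (Y ⊓ Z) = Y ⊔ Z := by
    rw [← eYZ, LinearMap.BilinForm.orthogonal_orthogonal hn hr]
  obtain ⟨W, hW⟩ : ∃ W : Submodule (ZMod 2) H, W = X ⊓ (Y ⊔ Z) := ⟨_, rfl⟩
  have eW : β.orthogonal W = X ⊔ (Y ⊓ Z) := by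
    have h1 : β.orthogonal (X ⊔ (Y ⊓ Z)) = W := by rw [lag_sup, eX, eYZ', hW]
    rw [← h1, LinearMap.BilinForm.orthogonal_orthogonal hn hr]
  obtain ⟨R, hR⟩ : ∃ R : Submodule (ZMod 2) H, R = (X ⊓ Y) ⊔ (X ⊓ Z) := ⟨_, rfl⟩
  have hRW : R ≤ W := by
    rw [hR, hW]
    exact sup_le (inf_le_inf_left X le_sup_left) (inf_le_inf_left X le_sup_right)
  have hWX : ∀ w ∈ W, w ∈ X := fun w hw => by
    rw [hW] at hw
    exact hw.1
  have hWYZ : ∀ w ∈ W, w ∈ Y ⊔ Z := fun w hw => by
    rw [hW] at hw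
    exact hw.2
  -- the decomposition
  have hdec : ∀ w : W, ∃ y : H, y ∈ Y ∧ (w : H) - y ∈ Z := by
    intro w
    have h1 : (w : H) ∈ Y ⊔ Z := hWYZ _ w.2
    obtain ⟨y, hy, z, hz, h3⟩ := Submodule.mem_sup.1 h1
    refine ⟨y, hy, ?_⟩
    rw [← h3, add_sub_cancel_left]
    exact hz
  choose y hyY hyZ using hdec
  -- elements of `Y ⊓ Z` are orthogonal to `W`
  have horth : ∀ a ∈ Y ⊓ Z, ∀ w : W, β a w = 0 := by
    intro a ha w
    rw [← eYZ] at ha
    have h1 : (w : H) ∈ Y ⊔ Z := hWYZ _ w.2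
    exact hr _ _ (LinearMap.BilinForm.mem_orthogonal_iff.1 ha w h1)
  have hindep : ∀ (w : W) (y' : H), y' ∈ Y → (w : H) - y' ∈ Z → ∀ w' : W,
      β (y w) w' = β y' w' := by
    intro w y' h1 h2 w'
    have h3 : y w - y' ∈ Y ⊓ Z := by
      refine ⟨Y.sub_mem (hyY w) h1, ?_⟩
      have h4 := Z.sub_mem h2 (hyZ w)
      rwa [sub_sub_sub_cancel_left] at h4
    have h5 := horth _ h3 w'
    rw [map_sub, LinearMap.sub_apply, sub_eq_zero] at h5
    exact h5
  obtain ⟨r, hr4⟩ := hAlt W (fun a b => β (y a) b)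
    (by
      intro a b c
      show β (y (a + b)) c = β (y a) c + β (y b) c
      rw [hindep (a + b) (y a + y b) (Y.add_mem (hyY a) (hyY b)) (by
        have h1 := Z.add_mem (hyZ a) (hyZ b)
        rwa [sub_add_sub_comm] at h1) c, map_add, LinearMap.add_apply])
    (by
      intro a b c
      show β (y a) ((b : H) + c) = _
      rw [map_add])
    (by
      intro a
      show β (y a) a = 0
      have h1 := hq (y a) (a - y a)
      rw [hY _ (hyY a), hZ _ (hyZ a), add_sub_cancel, hX a (hWX _ a.2), zero_add, zero_add,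
        map_sub, hiso Y hY _ (hyY a) _ (hyY a), sub_zero] at h1
      exact h1.symm)
    (R.comap W.subtype).toAddSubgroup
    (by
      intro a
      constructor
      · intro ha b
        have ha' : (a : H) ∈ R := ha
        rw [hR] at ha'
        obtain ⟨u, hu, v, hv, huv⟩ := Submodule.mem_sup.1 ha'
        have hbX : (b : H) ∈ X := hWX _ b.2
        show β (y a) b = 0
        rw [hindep a u hu.2 (by rw [← huv, add_sub_cancel_left]; exact hv.2) b]
        exact hiso X hX _ hu.1 _ hbX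
      · intro ha
        show (a : H) ∈ R
        have h1 : y a ∈ β.orthogonal W := by
          rw [LinearMap.BilinForm.mem_orthogonal_iff]
          intro b hb
          exact hr _ _ (ha ⟨b, hb⟩)
        rw [eW] at h1
        obtain ⟨x₁, hx₁, w, hw, hxw⟩ := Submodule.mem_sup.1 h1
        have haX : (a : H) ∈ X := hWX _ a.2
        have h3 : x₁ ∈ X ⊓ Y := by
          refine ⟨hx₁, ?_⟩
          have h4 : x₁ = y a - w := by rw [← hxw, add_sub_cancel_right]
          rw [h4]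
          exact Y.sub_mem (hyY a) hw.1
        have h5 : (a : H) - x₁ ∈ X ⊓ Z := by
          refine ⟨X.sub_mem haX hx₁, ?_⟩
          have h4 : (a : H) - x₁ = ((a : H) - y a) + w := by rw [← hxw]; abel
          rw [h4]
          exact Z.add_mem (hyZ a) hw.2
        rw [hR]
        exact Submodule.mem_sup.2 ⟨x₁, h3, _, h5, by abel⟩)
  have hcR : Nat.card (R.comap W.subtype).toAddSubgroup = Nat.card R :=
    Nat.card_congr (Submodule.comapSubtypeEquivOfLe hRW).toEquiv
  rw [hcR, lag_card, lag_card] at hr4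
  have h4 : (4 : ℕ) ^ r = 2 ^ (2 * r) := by rw [pow_mul]; norm_num
  rw [h4, ← pow_add] at hr4
  have d0 : finrank (ZMod 2) W = 2 * r + finrank (ZMod 2) R := Nat.pow_right_injective le_rfl hr4
  have d1 := Submodule.finrank_sup_add_finrank_inf_eq (X ⊓ Y) (X ⊓ Z)
  have d2 := Submodule.finrank_sup_add_finrank_inf_eq X (Y ⊔ Z)
  have d3 := Submodule.finrank_sup_add_finrank_inf_eq Y Z
  have e1 : (X ⊓ Y) ⊓ (X ⊓ Z) = X ⊓ (Y ⊓ Z) := (inf_inf_distrib_left X Y Z).symm
  have e2 : β.orthogonal (X ⊔ (Y ⊔ Z)) = X ⊓ (Y ⊓ Z) := by rw [lag_sup, eX, eYZ]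
  have d4 := LinearMap.BilinForm.finrank_orthogonal hn (X ⊔ (Y ⊔ Z))
  have d5 : finrank (ZMod 2) ↥(X ⊔ (Y ⊔ Z)) ≤ finrank (ZMod 2) H := Submodule.finrank_le _
  rw [e2] at d4
  rw [e1, ← hR] at d1
  rw [← hW] at d2
  refine ⟨finrank (ZMod 2) X + finrank (ZMod 2) ↥(X ⊓ (Y ⊓ Z)) - r, ?_⟩
  rw [lag_card, lag_card, lag_card, lag_card, ← pow_add, ← pow_add, ← pow_add,
    show (4 : ℕ) = 2 ^ 2 by norm_num, ← pow_mul]
  congr 1
  omega

theorem tLag (hAlt : MP72S.S_AltE) : S_Lag := by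
  intro H _ _ B q h2 hadd hq hnd X Y Z hX hY hZ hcX hcY hcZ
  let _ : Module (ZMod 2) H := AddCommGroup.zmodModule h2
  have hsym : ∀ a b, B a b = B b a := fun a b => by
    have h1 := (hq a b).symm.trans ((congrArg q (add_comm a b)).trans (hq b a))
    linear_combination h1
  have hadd' : ∀ a b c, B a (b + c) = B a b + B a c := fun a b c => by
    rw [hsym, hadd, hsym b, hsym c]
  let f : H →+ H →+ ZMod 2 := AddMonoidHom.mk' (fun a => AddMonoidHom.mk' (B a) (hadd' a))
    (fun a b => by ext c; exact hadd a b c)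
  let β : LinearMap.BilinForm (ZMod 2) H :=
    AddMonoidHom.toZModLinearMap 2 (AddMonoidHom.mk'
      (fun a => AddMonoidHom.toZModLinearMap 2 (f a)) (fun a b => by ext c; exact hadd a b c))
  have hβ : ∀ a b, β a b = B a b := fun _ _ => rfl
  have hn : β.Nondegenerate := by
    refine ⟨fun a h => hnd a fun b => ?_, fun a h => hnd a fun b => ?_⟩
    · exact h b
    · rw [hsym]; exact h b
  have hr : β.IsRefl := by
    intro a b h
    rw [hβ] at h ⊢
    rw [hsym]; exact h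
  have hc : ∀ U : AddSubgroup H, Nat.card U ^ 2 = Nat.card H →
      finrank (ZMod 2) (AddSubgroup.toZModSubmodule 2 U) * 2 = finrank (ZMod 2) H := by
    intro U hU
    have h3 : Nat.card U = 2 ^ finrank (ZMod 2) (AddSubgroup.toZModSubmodule 2 U) :=
      lag_card (AddSubgroup.toZModSubmodule 2 U)
    have h4 := natCard_eq_pow_finrank (K := ZMod 2) (V := H)
    rw [Nat.card_zmod] at h4
    rw [h3, h4, ← pow_mul] at hU
    exact Nat.pow_right_injective le_rfl hU
  exact lag_main hAlt β hn hr q (fun a b => hq a b) (AddSubgroup.toZModSubmodule 2 X)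
    (AddSubgroup.toZModSubmodule 2 Y) (AddSubgroup.toZModSubmodule 2 Z) hX hY hZ (hc X hcX)
    (hc Y hcY) (hc Z hcZ)

end Pool.Agent.MP72B.Par
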