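import Pool.Agent.Lib.MP_72e2e6_nt.Sm.B.SpecQ

/-! # MP_72e2e6_nt, `Sm/B`: the local conditions have order four -/

namespace Pool.Agent.MP72B.Par

open Finset Pool.Agent.MP72S

open Pool.Agent.MP72W (XY px py)

open Pool.Agent.MP72S.C

open scoped Classical

private theorem lcf_card {A B : Type} [AddCommGroup A] [AddCommGroup B] (φ : A →+ B)
    (hφ : Function.Surjective φ) : Nat.card A = Nat.card B * Nat.card φ.ker := by
  rw [AddSubgroup.card_eq_card_quotient_mul_card_addSubgroup φ.ker,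
    Nat.card_congr (QuotientAddGroup.quotientKerEquivOfSurjective φ hφ).toEquiv]

section

variable {G N : Type} [Group G] [AddCommGroup N] [DistribMulAction G N]

/-- The fixed elements. -/
private def lcfT (t f : G) (a b : ZMod 2) : AddSubgroup N where
  carrier := {x | sg a (t • x) = x ∧ sg b (f • x) = x}
  zero_mem' := by
    constructor
    · rw [smul_zero, sg_map_zero]
    · rw [smul_zero, sg_map_zero]
  add_mem' := by
    rintro x y ⟨h1, h2⟩ ⟨h3, h4⟩
    constructor
    · rw [smul_add, sg_add, h1, h3]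
    · rw [smul_add, sg_add, h2, h4]
  neg_mem' := by
    rintro x ⟨h1, h2⟩
    constructor
    · rw [smul_neg, sg_neg, h1]
    · rw [smul_neg, sg_neg, h2]

/-- Their halves. -/
private def lcfH (t f : G) (a b : ZMod 2) : AddSubgroup N :=
  (lcfT (N := N) t f a b).comap (mulN N 2)

private theorem lcf_mem {t f : G} {a b : ZMod 2} {Q : N} :
    Q ∈ lcfH (N := N) t f a b ↔ sg a (t • (2 • Q)) = 2 • Q ∧ sg b (f • (2 • Q)) = 2 • Q := Iff.rfl

private theorem lcf_two {g : G} {c : ZMod 2} {Q : N} :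
    2 • (sg c (g • Q) - Q) = 0 ↔ sg c (g • (2 • Q)) = 2 • Q := by
  rw [smul_sub, ← sg_nsmul, smul_comm g 2 Q, sub_eq_zero]

private theorem lcf_lsp {t f : G} {a b : ZMod 2} {Q : N} (hQ : Q ∈ lcfH (N := N) t f a b) :
    (sg a (t • Q) - Q, sg b (f • Q) - Q) ∈ Lsp (N := N) t f a b :=
  ⟨lcf_two.2 (lcf_mem.1 hQ).1, lcf_two.2 (lcf_mem.1 hQ).2, Q, rfl, rfl⟩

/-- The multiplication by two. -/
private def lcfF (t f : G) (a b : ZMod 2) : lcfH (N := N) t f a b →+ lcfT (N := N) t f a b where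
  toFun Q := ⟨2 • Q.1, lcf_mem.1 Q.2⟩
  map_zero' := Subtype.ext (smul_zero 2)
  map_add' x y := Subtype.ext (smul_add 2 x.1 y.1)

/-- The coboundary. -/
private def lcfG (t f : G) (a b : ZMod 2) : lcfH (N := N) t f a b →+ Lsp (N := N) t f a b where
  toFun Q := ⟨(sg a (t • Q.1) - Q.1, sg b (f • Q.1) - Q.1), lcf_lsp Q.2⟩
  map_zero' := by
    apply Subtype.ext
    apply Prod.ext
    · change sg a (t • (0 : N)) - 0 = 0
      rw [smul_zero, sg_map_zero, sub_zero]
    · change sg b (f • (0 : N)) - 0 = 0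
      rw [smul_zero, sg_map_zero, sub_zero]
  map_add' x y := by
    apply Subtype.ext
    apply Prod.ext
    · change sg a (t • (x.1 + y.1)) - (x.1 + y.1) = (sg a (t • x.1) - x.1) + (sg a (t • y.1) - y.1)
      rw [smul_add, sg_add]
      abel
    · change sg b (f • (x.1 + y.1)) - (x.1 + y.1) = (sg b (f • x.1) - x.1) + (sg b (f • y.1) - y.1)
      rw [smul_add, sg_add]
      abel

end

/-- The local conditions have order four. -/
theorem tLcf : S_Lcf := by
  intro G N _ _ _ hP2 t f hV a b hfin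
  have hfinT : Finite (lcfT (N := N) t f a b) := hfin
  -- the elements of order two
  have hVT : ∀ x : N, 2 • x = 0 → x ∈ lcfT (N := N) t f a b := by
    intro x hx
    refine ⟨?_, ?_⟩
    · rw [(hV x hx).1, sg_two a hx]
    · rw [(hV x hx).2, sg_two b hx]
  have h0 : ∀ x : N, x ∈ lcfT (N := N) t f a b → x ∈ lcfH (N := N) t f a b := by
    intro x hx
    have h1 : sg a (t • x) = x := hx.1
    have h2 : sg b (f • x) = x := hx.2
    refine lcf_mem.2 ⟨?_, ?_⟩
    · rw [smul_comm t 2 x, sg_nsmul, h1]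
    · rw [smul_comm f 2 x, sg_nsmul, h2]
  have e1 : Nat.card (lcfH (N := N) t f a b) = Nat.card (lcfT (N := N) t f a b) * 4 := by
    rw [lcf_card (lcfF (N := N) t f a b) ?_]
    · congr 1
      rw [← hP2.four]
      refine Nat.card_congr ⟨fun x => ⟨x.1.1, ?_⟩, fun x => ⟨⟨x.1, h0 _ (hVT _ x.2)⟩, ?_⟩, ?_, ?_⟩
      · exact congrArg Subtype.val x.2
      · exact Subtype.ext x.2
      · intro x
        rfl
      · intro x
        rfl
    · intro y
      obtain ⟨Q, hQ⟩ := hP2.dvs y.1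
      have hy : Q ∈ lcfH (N := N) t f a b := by
        have h2 := y.2
        rw [← hQ] at h2
        exact h2
      exact ⟨⟨Q, hy⟩, Subtype.ext hQ⟩
  have e2 : Nat.card (lcfH (N := N) t f a b) =
      Nat.card (Lsp (N := N) t f a b) * Nat.card (lcfT (N := N) t f a b) := by
    rw [lcf_card (lcfG (N := N) t f a b) ?_]
    · congr 1
      refine Nat.card_congr ⟨fun x => ⟨x.1.1, ?_⟩, fun x => ⟨⟨x.1, h0 _ x.2⟩, ?_⟩, ?_, ?_⟩
      · have h1 : (lcfG (N := N) t f a b) x.1 = 0 := x.2
        have h2 := congrArg (fun p : Lsp (N := N) t f a b => p.1.1) h1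
        have h3 := congrArg (fun p : Lsp (N := N) t f a b => p.1.2) h1
        have h2' : sg a (t • (x.1.1 : N)) - x.1.1 = 0 := h2
        have h3' : sg b (f • (x.1.1 : N)) - x.1.1 = 0 := h3
        exact ⟨sub_eq_zero.1 h2', sub_eq_zero.1 h3'⟩
      · apply Subtype.ext
        apply Prod.ext
        · exact sub_eq_zero.2 x.2.1
        · exact sub_eq_zero.2 x.2.2
      · intro x
        rfl
      · intro x
        rfl
    · rintro ⟨p, h1, h2, Q, h3, h4⟩
      have hQ : Q ∈ lcfH (N := N) t f a b := by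
        refine lcf_mem.2 ⟨lcf_two.1 ?_, lcf_two.1 ?_⟩
        · rw [← h3, h1]
        · rw [← h4, h2]
      exact ⟨⟨Q, hQ⟩, Subtype.ext (Prod.ext h3.symm h4.symm)⟩
  have hpos : 0 < Nat.card (lcfT (N := N) t f a b) := Nat.card_pos
  have h5 := e1.symm.trans e2
  rw [mul_comm (Nat.card (Lsp (N := N) t f a b))] at h5
  exact (Nat.eq_of_mul_eq_mul_left hpos h5).symm

end Pool.Agent.MP72B.Par
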