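import Pool.Agent.Lib.MP_72e2e6_nt.Sm.B.SpecQ

/-!
# MP_72e2e6_nt, `Sm/B`: intersections of the local conditions, multiplicative case
-/

namespace Pool.Agent.MP72B.Par

open Finset Pool.Agent.MP72S

/-- The local condition for the endomorphisms `T`, `F`. -/
private def QMab_L {N : Type} [AddCommGroup N] (T F : N →+ N) (a b : ZMod 2) : Set (N × N) :=
  {p | 2 • p.1 = 0 ∧ 2 • p.2 = 0 ∧ ∃ Q : N, p.1 = sg a (T Q) - Q ∧ p.2 = sg b (F Q) - Q}

private theorem QMab_core {N : Type} [AddCommGroup N] (hP : ∀ x : N, ∃ k : ℕ, 2 ^ k • x = 0)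
    (T F : N →+ N) (hV : ∀ x : N, 2 • x = 0 → T x = x ∧ F x = x)
    (hc : ∀ a b, (QMab_L T F a b).ncard = 4) (U : AddSubgroup N) (s₀ : N) (q : ℕ) (hq : q % 4 = 1)
    (hs : s₀ ∈ U) (hs0 : s₀ ≠ 0) (hd : ∀ x ∈ U, ∃ y ∈ U, 2 • y = x)
    (h2 : ∀ x ∈ U, 2 • x = 0 ↔ x = 0 ∨ x = s₀) (hU : ∀ x ∈ U, T x = x ∧ F x = q • x)
    (hT : ∀ x, T x - x ∈ U ∧ F x - x ∈ U) (a b b' : ZMod 2) :
    ∃ n : ℕ, (QMab_L T F a b ∩ QMab_L T F 1 b').ncard *
      (if a = 0 ∧ b = 0 then 2 else 1) = 4 ^ n := by
  have hss : 2 • s₀ = 0 := (h2 s₀ hs).2 (Or.inr rfl)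
  have hsn : -s₀ = s₀ := by linear_combination (norm := module) -hss
  obtain ⟨h, hhU, hh⟩ := hd s₀ hs
  have h4 : 4 • h = 0 := by linear_combination (norm := module) 2 • hh + hss
  -- the points of an additive condition
  have hA : ∀ Q : N, 2 • (-(T Q) - Q) = 0 → 4 • Q = 0 ∧ (T Q - Q = 0 ∨ T Q - Q = s₀) := by
    intro Q hQ
    obtain ⟨y, hyU, hy⟩ := hd _ (hT Q).1
    have e1 : 2 • (2 • (Q + y)) = 0 := by linear_combination (norm := module) 2 • hy - hQ
    have e2 := (hV _ e1).1
    have e3 := (hU y hyU).1
    rw [map_nsmul, map_add, e3] at e2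
    have e4 : 2 • (T Q - Q) = 0 := by linear_combination (norm := module) e2
    exact ⟨by linear_combination (norm := module) -hQ - e4, (h2 _ (hT Q).1).1 e4⟩
  -- the value at the half `h`
  let p₀ : N × N := (s₀, sg b' (q • h) - h)
  have hqh : q • h = h := by
    obtain ⟨m, hm⟩ : ∃ m, q = 4 * m + 1 := ⟨q / 4, by omega⟩
    rw [hm, add_smul, one_smul, mul_comm, mul_smul, h4, smul_zero, zero_add]
  have hp2 : sg b' (q • h) - h = 0 ∨ sg b' (q • h) - h = s₀ := by
    rw [hqh]
    rcases zmod2 b' with rfl | rfl
    · left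
      rw [sg_zero', sub_self]
    · right
      rw [sg_one']
      linear_combination (norm := module) hsn - hh
  have hp0 : p₀ ∈ QMab_L T F 1 b' := by
    refine ⟨hss, ?_, h, ?_, ?_⟩
    · show 2 • (sg b' (q • h) - h) = 0
      rcases hp2 with e | e <;> rw [e]
      · exact smul_zero _
      · exact hss
    · show s₀ = sg 1 (T h) - h
      rw [sg_one', (hU h hhU).1]
      linear_combination (norm := module) -hsn + hh
    · show sg b' (q • h) - h = sg b' (F h) - h
      rw [(hU h hhU).2]
  have hB : ∀ p ∈ QMab_L T F 1 b', (p.1 = 0 ∨ p.1 = s₀) → p = 0 ∨ p = p₀ := by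
    rintro ⟨p1, p2⟩ ⟨hp1, hp2', Q, e1, e2⟩ hp
    change p1 = _ at e1
    change p2 = _ at e2
    change p1 = 0 ∨ p1 = s₀ at hp
    change 2 • p1 = 0 at hp1
    rw [sg_one'] at e1
    obtain ⟨h4Q, hw⟩ := hA Q (by rw [← e1]; exact hp1)
    have h2Q : 2 • Q = 0 ∨ 2 • Q = s₀ := by
      have e3 : 2 • Q = -p1 - (T Q - Q) := by rw [e1]; module
      rcases hp with e4 | e4 <;> rcases hw with e5 | e5 <;> rw [e3, e4, e5]
      · left
        module
      · right
        linear_combination (norm := module) hsn
      · right
        linear_combination (norm := module) hsn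
      · left
        linear_combination (norm := module) -hss
    rcases h2Q with h2Q | h2Q
    · left
      obtain ⟨e6, e7⟩ := hV Q h2Q
      rw [e6] at e1
      rw [e7, sg_two _ h2Q, sub_self] at e2
      have e8 : p1 = 0 := by linear_combination (norm := module) e1 - h2Q
      rw [e8, e2]
      rfl
    · right
      have hv : 2 • (Q - h) = 0 := by linear_combination (norm := module) h2Q - hh
      obtain ⟨e6, e7⟩ := hV _ hv
      rw [map_sub] at e6 e7
      rw [(hU h hhU).1] at e6
      rw [(hU h hhU).2] at e7
      have e8 : p1 = s₀ := by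
        linear_combination (norm := module) e1 - e6 - h2Q + hsn
      have e9 : p2 = sg b' (q • h) - h := by
        have e10 : F Q = q • h + (Q - h) := by linear_combination (norm := module) e7
        rw [e2, e10, sg_add, sg_two b' hv]
        module
      rw [e8, e9]
  have hz : ∀ a b, (0 : N × N) ∈ QMab_L T F a b := fun a b =>
    ⟨smul_zero _, smul_zero _, 0, by rw [map_zero, sg_map_zero, sub_zero]; rfl,
      by rw [map_zero, sg_map_zero, sub_zero]; rfl⟩
  have hn : p₀ ≠ 0 := fun e => hs0 (congrArg Prod.fst e)
  rcases zmod2 a with rfl | rfl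
  · rcases zmod2 b with rfl | rfl
    · -- split
      rw [if_pos ⟨rfl, rfl⟩]
      have hsub : QMab_L T F 0 0 ⊆ ({0, s₀} : Set N) ×ˢ ({0, s₀} : Set N) := by
        rintro ⟨p1, p2⟩ ⟨hp1, hp2', Q, e1, e2⟩
        change p1 = _ at e1
        change p2 = _ at e2
        change 2 • p1 = 0 at hp1
        change 2 • p2 = 0 at hp2'
        rw [sg_zero'] at e1 e2
        refine Set.mem_prod.2 ⟨?_, ?_⟩
        · exact (h2 p1 (by rw [e1]; exact (hT Q).1)).1 hp1
        · exact (h2 p2 (by rw [e2]; exact (hT Q).2)).1 hp2'
      have hfin : (({0, s₀} : Set N) ×ˢ ({0, s₀} : Set N)).Finite :=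
        (Set.toFinite _).prod (Set.toFinite _)
      have hcard : (({0, s₀} : Set N) ×ˢ ({0, s₀} : Set N)).ncard ≤
          (QMab_L T F 0 0).ncard := by
        rw [hc, Set.ncard_prod, Set.ncard_pair hs0.symm]
      have heq := Set.eq_of_subset_of_ncard_le hsub hcard hfin
      have hI : QMab_L T F 0 0 ∩ QMab_L T F 1 b' = {0, p₀} := by
        ext p
        constructor
        · rintro ⟨h5, h6⟩
          rw [heq] at h5
          exact hB p h6 (Set.mem_prod.1 h5).1
        · rintro (rfl | h7)
          · exact ⟨hz _ _, hz _ _⟩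
          · rw [Set.mem_singleton_iff] at h7
            rw [h7]
            refine ⟨?_, hp0⟩
            rw [heq]
            exact Set.mem_prod.2 ⟨Or.inr rfl, hp2⟩
      rw [hI, Set.ncard_pair hn.symm]
      exact ⟨1, rfl⟩
    · -- nonsplit
      rw [if_neg (fun e => one_ne_zero e.2)]
      have hI : QMab_L T F 0 1 ∩ QMab_L T F 1 b' = {0} := by
        ext p
        constructor
        · rintro ⟨⟨hp1, hp2', Q, e1, e2⟩, h6⟩
          rw [sg_zero'] at e1
          rw [sg_one'] at e2
          rcases hB p h6 ((h2 p.1 (by rw [e1]; exact (hT Q).1)).1 hp1) with h7 | h7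
          · exact h7
          · exfalso
            have e3 : T Q - Q = s₀ := by rw [← e1, h7]
            have e4 : p.2 = 0 ∨ p.2 = s₀ := by rw [h7]; exact hp2
            have hpU : p.2 ∈ U := by
              rcases e4 with e | e <;> rw [e]
              · exact zero_mem _
              · exact hs
            have e5 : 2 • Q = -(F Q - Q) - p.2 := by rw [e2]; module
            have h2QU : 2 • Q ∈ U := by
              rw [e5]
              exact U.sub_mem (U.neg_mem (hT Q).2) hpU
            have e6 := (hU _ h2QU).2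
            rw [map_nsmul] at e6
            obtain ⟨m, hm⟩ : ∃ m, q = 4 * m + 1 := ⟨q / 4, by omega⟩
            have e7 : (q + 1) • (2 • Q) = 0 := by
              rw [add_smul, ← e6, one_smul]
              have : 2 • p.2 = 0 := hp2'
              rw [e2] at this
              linear_combination (norm := module) -this
            have e8 : (2 * m + 1) • (4 • Q) = 0 := by
              rw [← e7, hm]
              simp only [← mul_smul]
              congr 1
              ring
            have e9 : 4 • Q = 0 := by
              obtain ⟨k, hk⟩ := hP (4 • Q)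
              have hcop : Nat.Coprime (2 * m + 1) (2 ^ k) := by
                apply Nat.Coprime.pow_right
                rw [Nat.coprime_two_right]
                exact ⟨m, rfl⟩
              have h8 := Nat.dvd_gcd (addOrderOf_dvd_of_nsmul_eq_zero e8)
                (addOrderOf_dvd_of_nsmul_eq_zero hk)
              rw [hcop] at h8
              exact AddMonoid.addOrderOf_eq_one_iff.1 (Nat.dvd_one.1 h8)
            rcases (h2 _ h2QU).1 (by linear_combination (norm := module) e9) with h8 | h8
            · rw [(hV Q h8).1, sub_self] at e3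
              exact hs0 e3.symm
            · have hv : 2 • (Q - h) = 0 := by linear_combination (norm := module) h8 - hh
              have e10 := (hV _ hv).1
              rw [map_sub, (hU h hhU).1] at e10
              exact hs0 (by linear_combination (norm := module) e10 - e3)
        · rintro rfl
          exact ⟨hz _ _, hz _ _⟩
      rw [hI, Set.ncard_singleton]
      exact ⟨0, rfl⟩
  · rw [if_neg (fun e => one_ne_zero e.1)]
    by_cases hbb : b = b'
    · rw [hbb, Set.inter_self, hc]
      exact ⟨1, rfl⟩
    · have hI : QMab_L T F 1 b ∩ QMab_L T F 1 b' = {0} := by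
        ext p
        constructor
        · rintro ⟨⟨hp1, hp2', Q, e1, e2⟩, -, -, R, e1', e2'⟩
          rw [sg_one'] at e1 e1'
          obtain ⟨h4Q, hwQ⟩ := hA Q (by rw [← e1]; exact hp1)
          obtain ⟨h4R, hwR⟩ := hA R (by rw [← e1']; exact hp1)
          -- the difference of the doubles is in `U`
          have hd1 : 2 • (Q - R) = (T R - R) - (T Q - Q) := by
            linear_combination (norm := module) e1 - e1'
          have hwn : ∀ w : N, w = 0 ∨ w = s₀ → w ∈ U ∧ 2 • w = 0 := by
            rintro w (rfl | rfl)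
            · exact ⟨zero_mem _, smul_zero _⟩
            · exact ⟨hs, hss⟩
          have hdU : 2 • (Q - R) ∈ U := by
            rw [hd1]
            exact U.sub_mem (hwn _ hwR).1 (hwn _ hwQ).1
          have hTd : T (Q - R) = Q - R := by
            rcases (h2 _ hdU).1 (by linear_combination (norm := module) h4Q - h4R) with h8 | h8
            · exact (hV _ h8).1
            · have hv : 2 • (Q - R - h) = 0 := by linear_combination (norm := module) h8 - hh
              have e10 := (hV _ hv).1
              rw [map_sub T (Q - R) h, (hU h hhU).1] at e10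
              linear_combination (norm := module) e10
          have hv : 2 • (Q - R) = 0 := by
            rw [hd1]
            rw [map_sub] at hTd
            linear_combination (norm := module) -hTd
          have hFd := (hV _ hv).2
          rw [map_sub] at hFd
          have e11 : F R = F Q + (Q - R) := by
            linear_combination (norm := module) -hFd - hv
          rw [e11, sg_add, sg_two b' hv, e2] at e2'
          have e12 : sg b (F Q) = sg b' (F Q) := by
            linear_combination (norm := module) e2' + hv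
          have e13 : 2 • F Q = 0 := by
            rcases zmod2 b with rfl | rfl <;> rcases zmod2 b' with rfl | rfl
            · exact absurd rfl hbb
            · rw [sg_zero', sg_one'] at e12
              linear_combination (norm := module) e12
            · rw [sg_zero', sg_one'] at e12
              linear_combination (norm := module) -e12
            · exact absurd rfl hbb
          have e14 : 2 • Q = 0 := by
            have := (hV (2 • Q) (by linear_combination (norm := module) h4Q)).2
            rw [map_nsmul, e13] at this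
            exact this.symm
          obtain ⟨e6, e7⟩ := hV Q e14
          rw [e6] at e1
          rw [e7, sg_two _ e14, sub_self] at e2
          have e8 : p.1 = 0 := by linear_combination (norm := module) e1 - e14
          exact Prod.ext e8 e2
        · rintro rfl
          exact ⟨hz _ _, hz _ _⟩
      rw [hI, Set.ncard_singleton]
      exact ⟨0, rfl⟩

/-- The endomorphism `x ↦ ± g x`. -/
private def QMab_E {G N : Type} [Group G] [AddCommGroup N] [DistribMulAction G N] (c : ZMod 2)
    (g : G) : N →+ N where
  toFun x := sg c (g • x)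
  map_zero' := by rw [smul_zero, sg_map_zero]
  map_add' x y := by rw [smul_add, sg_add]

/-- **Mab**. -/
theorem tMab : S_Mab := by
  intro G N _ _ _ hP t f hV hc U s₀ q c d hq hs hs0 hd h2 hU hT a b a' b' ha'
  have hL : ∀ a b, (Lsp (N := N) t f a b : Set (N × N)) =
      QMab_L (QMab_E c t) (QMab_E d f) (a + c) (b + d) := by
    intro a b
    ext p
    have e1 : ∀ Q : N, sg (a + c) (QMab_E c t Q) = sg a (t • Q) := fun Q => by
      show sg (a + c) (sg c (t • Q)) = _
      rw [sg_sg, add_assoc, CharTwo.add_self_eq_zero, add_zero]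
    have e2 : ∀ Q : N, sg (b + d) (QMab_E d f Q) = sg b (f • Q) := fun Q => by
      show sg (b + d) (sg d (f • Q)) = _
      rw [sg_sg, add_assoc, CharTwo.add_self_eq_zero, add_zero]
    show (2 • p.1 = 0 ∧ 2 • p.2 = 0 ∧ ∃ Q : N, p.1 = sg a (t • Q) - Q ∧
      p.2 = sg b (f • Q) - Q) ↔ (2 • p.1 = 0 ∧ 2 • p.2 = 0 ∧ ∃ Q : N,
        p.1 = sg (a + c) (QMab_E c t Q) - Q ∧ p.2 = sg (b + d) (QMab_E d f Q) - Q)
    simp only [e1, e2]
  have hcc : ∀ a b, (QMab_L (N := N) (QMab_E c t) (QMab_E d f) a b).ncard = 4 := by
    intro a b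
    have h1 := hc (a + c) (b + d)
    have h3 := hL (a + c) (b + d)
    rw [add_assoc, add_assoc, CharTwo.add_self_eq_zero, CharTwo.add_self_eq_zero, add_zero,
      add_zero] at h3
    rw [← h3, ← Nat.card_coe_set_eq]
    exact h1
  obtain ⟨n, hn⟩ := QMab_core hP.prim (QMab_E c t) (QMab_E d f) (fun x hx => by
      refine ⟨?_, ?_⟩
      · show sg c (t • x) = x
        rw [(hV x hx).1, sg_two c hx]
      · show sg d (f • x) = x
        rw [(hV x hx).2, sg_two d hx]) hcc U s₀ q hq hs hs0 hd h2 hU hT (a + c) (b + d) (b' + d)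
  refine ⟨n, ?_⟩
  have h5 : Nat.card ↥(Lsp (N := N) t f a b ⊓ Lsp (N := N) t f a' b') =
      (QMab_L (QMab_E c t) (QMab_E d f) (a + c) (b + d) ∩
        QMab_L (N := N) (QMab_E c t) (QMab_E d f) 1 (b' + d)).ncard := by
    have h6 : (1 : ZMod 2) = a' + c := by
      rw [ha', add_comm c 1, add_assoc, CharTwo.add_self_eq_zero, add_zero]
    rw [h6, ← hL, ← hL, ← Nat.card_coe_set_eq]
    rfl
  rw [h5, ← hn]
  congr 1
  have h7 : ∀ x y : ZMod 2, x + y = 0 ↔ x = y := fun x y => by
    rw [← CharTwo.sub_eq_add, sub_eq_zero]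
  simp only [h7]

end Pool.Agent.MP72B.Par
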