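import Pool.Agent.Lib.MP_72e2e6_nt.Sm.B.SpecQ

/-!
# MP_72e2e6_nt, `Sm/B`: the subgroup `U` at a place of potentially multiplicative reduction
-/

namespace Pool.Agent.MP72B.Par

open Finset Pool.Agent.MP72S

open Pool.Agent.MP72W (XY px py)

open Pool.Agent.MP72S.C

open scoped Classical

private theorem QMlu_perm (i j l : Fin 3) (h1 : i ≠ j) (h2 : i ≠ l) (h3 : j ≠ l) :
    ∃ π : Equiv.Perm (Fin 3), π 0 = i ∧ π 1 = j ∧ π 2 = l := by
  have hinj : Function.Injective ![i, j, l] := by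
    intro x y hxy
    fin_cases x <;> fin_cases y <;> first | rfl | (exfalso; revert hxy; simp; tauto)
  exact ⟨Equiv.ofBijective _ (Finite.injective_iff_bijective.1 hinj), rfl, rfl, rfl⟩

private theorem QMlu_N {K : Type} [Field K] {L : Type} [Field L] [Algebra K L]
    {a a' : Fin 3 → K} (φ : PA a L ≃+ PA a' L) :
    ∃ Φ : NN a L ≃+ NN a' L, ∀ x, pt (Φ x) = φ (pt x) := by
  have h1 : ∀ x : NN a L, ∃ n : ℕ, 2 ^ n • φ (pt x) = 0 := by
    intro x
    obtain ⟨n, hn⟩ := pt_mem x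
    exact ⟨n, by rw [← map_nsmul, hn, map_zero]⟩
  have h2 : ∀ x : NN a' L, ∃ n : ℕ, 2 ^ n • φ.symm (pt x) = 0 := by
    intro x
    obtain ⟨n, hn⟩ := pt_mem x
    exact ⟨n, by rw [← map_nsmul, hn, map_zero]⟩
  refine ⟨⟨⟨fun x => mkN (φ (pt x)) (h1 x), fun x => mkN (φ.symm (pt x)) (h2 x), fun x => ?_,
    fun x => ?_⟩, fun x y => ?_⟩, fun x => rfl⟩
  · apply pt_inj
    rw [pt_mkN, pt_mkN, AddEquiv.symm_apply_apply]
  · apply pt_inj
    rw [pt_mkN, pt_mkN, AddEquiv.apply_symm_apply]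
  · apply pt_inj
    show φ (pt (x + y)) = φ (pt x) + φ (pt y)
    rw [pt_add, map_add]

private theorem QMlu_px {K : Type} [Field K] {a : Fin 3 → K} {L : Type} [Field L] [Algebra K L]
    {P : PA a L} {x y : L} (h : XY P x y) : px P = x := by
  obtain ⟨hxy, rfl⟩ := h
  rfl

/-- The subgroup `U` if `Mlt a ν` and `α 0 - α 2` has a square root fixed by `f`. -/
private theorem QMlu_U (hV : C.S_Vee) (hPp : C.S_Ppr) (hUsg : C.S_Usg) (hUhf : C.S_Uhf)
    (hThs : S_Ths) (K : Type) [Field K] (a : Fin 3 → K) (L : Type) [Field L] [Algebra K L]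
    (k : Type) [Field k] (t f : Gal(L/K)) (q : ℕ) (ν : L → WithTop ℚ) (res : L → k)
    (hyp : Hyp a L) (hQC : QC L) (hp : Plc t f q ν res) (hM : Mlt a ν)
    (hd : ∃ d : L, d ^ 2 = al a L 0 - al a L 2 ∧ f d = d) :
    ∃ (U : AddSubgroup (NN a L)) (s₀ : NN a L), s₀ ∈ U ∧ s₀ ≠ 0 ∧
      (∀ x ∈ U, ∃ y ∈ U, 2 • y = x) ∧ (∀ x ∈ U, 2 • x = 0 ↔ x = 0 ∨ x = s₀) ∧
      ∀ x ∈ U, t • x = x ∧ f • x = q • x := by
  obtain ⟨-, p2, -⟩ := hPp K L k t f q ν res hp
  obtain ⟨u0, uadd, uneg, ue, -, -, uact'⟩ := hUsg K a L k t f q ν res hyp hp hM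
  obtain ⟨v1, v2, v3, -⟩ := hV K a L hyp
  obtain ⟨θ, θm, θ1, θ0, θt, θf⟩ := hThs K a L k t f q ν res hyp hQC hp hM hd
  have hν0 : ν 0 = ⊤ := (hp.top 0).2 rfl
  let U : AddSubgroup (NN a L) :=
    { carrier := {x | Us a ν (pt x)}
      zero_mem' := u0
      add_mem' := fun {x y} hx hy => uadd (pt x) (pt y) hx hy
      neg_mem' := fun {x} hx => uneg (pt x) hx }
  have hmem : ∀ x : NN a L, x ∈ U ↔ Us a ν (pt x) := fun x => Iff.rfl
  have θn : ∀ P : PA a L, Us a ν P → θ P * θ (-P) = 1 := fun P hP => by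
    rw [← θm P (-P) hP (uneg P hP), add_neg_cancel, θ0]
  have θp : ∀ (n : ℕ) (P : PA a L), Us a ν P → Us a ν (n • P) ∧ θ (n • P) = θ P ^ n := by
    intro n P hP
    induction n with
    | zero => rw [zero_smul, pow_zero]; exact ⟨u0, θ0⟩
    | succ n ih =>
      rw [add_smul, one_smul, pow_succ, θm _ _ ih.1 hP, ih.2]
      exact ⟨uadd _ _ ih.1 hP, rfl⟩
  have θe : ∀ P Q : PA a L, Us a ν P → Us a ν Q → θ P = θ Q → P = Q := by
    intro P Q hP hQ h
    have h1 : θ (P + -Q) = 1 := by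
      rw [θm P (-Q) hP (uneg Q hQ), h, θn Q hQ]
    have h2 := (θ1 _ (uadd P (-Q) hP (uneg Q hQ))).2 h1
    rwa [← sub_eq_add_neg, sub_eq_zero] at h2
  refine ⟨U, mkN (ee a 2) ue.1, ue, ?_, ?_, ?_, ?_⟩
  · intro h
    refine v3 2 ?_
    rw [← pt_zero, ← h, pt_mkN]
  · intro x hx
    obtain ⟨Q, hQU, hQ2⟩ := hUhf K a L k t f q ν res hyp hQC hp hM (pt x) hx
    refine ⟨mkN Q hQU.1, hQU, pt_inj ?_⟩
    rw [pt_nsmul, pt_mkN, two_nsmul, hQ2]
  · intro x hx
    constructor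
    · intro h
      have h1 : pt x + pt x = 0 := by
        have : pt (2 • x) = 0 := by rw [h, pt_zero]
        rwa [pt_nsmul, two_nsmul] at this
      rcases (v2 _).1 h1 with h2 | ⟨i, h2⟩
      · left
        exact pt_inj (h2.trans pt_zero.symm)
      · right
        apply pt_inj
        rw [pt_mkN, h2]
        have hx' : Us a ν (ee a i) := by
          rw [← h2]
          exact hx
        have h3 : ν (al a L i - al a L 0) = 0 := by
          rcases hx'.2 with h4 | h4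
          · exact absurd h4 (v3 i)
          · rwa [QMlu_px (v1 i)] at h4
        fin_cases i
        · exfalso
          change ν (al a L 0 - al a L 0) = 0 at h3
          rw [sub_self, hν0] at h3
          exact WithTop.top_ne_zero h3
        · exfalso
          change ν (al a L 1 - al a L 0) = 0 at h3
          rw [← neg_sub, p2] at h3
          exact hM.h01.ne' h3
        · rfl
    · rintro (rfl | rfl)
      · exact smul_zero _
      · apply pt_inj
        rw [pt_nsmul, pt_mkN, two_nsmul, pt_zero]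
        exact (v2 _).2 (Or.inr ⟨2, rfl⟩)
  · intro x hx
    have hx' : Us a ν (pt x) := hx
    constructor
    · apply pt_inj
      rw [pt_smul]
      exact θe _ _ (uact' _ hx').1 hx' (θt _ hx')
    · apply pt_inj
      rw [pt_smul, pt_nsmul]
      refine θe _ _ (uact' _ hx').2 (θp q _ hx').1 ?_
      rw [θf _ hx', (θp q _ hx').2]

/-- **Mlu**. -/
theorem tMlu (hV : C.S_Vee) (hPp : C.S_Ppr) (hT : C.S_Twi) (hUsg : C.S_Usg) (hUhf : C.S_Uhf)
    (hThs : S_Ths) : S_Mlu := by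
  intro K _ a L _ _ k _ t f q ν res hyp hQC hι hp i j l hij hil hjl hlt s hs
  obtain ⟨ι, hι⟩ := hι
  obtain ⟨p1, p2, -⟩ := hPp K L k t f q ν res hp
  obtain ⟨π, hπ0, hπ1, hπ2⟩ := QMlu_perm i j l hij hil hjl
  have hli : a l - a i ≠ 0 := by
    intro h
    exact hil ((hyp.2 (sub_eq_zero.1 h)).symm)
  set D : K := (a l - a i)⁻¹ with hD
  have hD0 : D ≠ 0 := inv_ne_zero hli
  set b : K := -(D * a i) with hb
  obtain ⟨δ, hδ⟩ := hQC (algebraMap K L D)
  obtain ⟨a', ha', hyp', φ, hφ3⟩ : ∃ a' : Fin 3 → K, (∀ m, a' m = D * a (π m) + b) ∧ Hyp a' L ∧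
      ∃ φ : PA a L ≃+ PA a' L, ∀ s : Gal(L/K), (s δ = δ ∨ s δ = -δ) ∧
        (s δ = δ → ∀ P, act a' s (φ P) = φ (act a s P)) ∧
        (s δ = -δ → ∀ P, act a' s (φ P) = - φ (act a s P)) := by
    obtain ⟨h1, φ, -, -, h4⟩ := hT K a L hyp D b hD0 δ hδ π
    exact ⟨_, fun _ => rfl, h1, φ, h4⟩
  obtain ⟨Φ, hΦ⟩ := QMlu_N φ
  have hDne : ν (algebraMap K L D) ≠ ⊤ := by
    rw [Ne, hp.top]
    exact (map_ne_zero _).2 hD0
  have hal : ∀ m n, al a' L m - al a' L n = algebraMap K L D * (al a L (π m) - al a L (π n)) := by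
    intro m n
    simp only [al, ha', map_add, map_mul]
    ring
  have hm1 : algebraMap K L D * (al a L i - al a L l) = -1 := by
    simp only [al]
    rw [← map_sub, ← map_mul, hD]
    have : (a l - a i)⁻¹ * (a i - a l) = -1 := by
      field_simp
      ring
    rw [this, map_neg, map_one]
  have hDl : ν (algebraMap K L D) + ν (al a L i - al a L l) = 0 := by
    rw [← hp.mul, hm1, p2, p1]
  have hM : Mlt a' ν := by
    constructor
    · rw [hal, hπ0, hπ1, hp.mul, ← hDl]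
      exact WithTop.add_lt_add_left hDne hlt
    · rw [hal, hπ0, hπ2, hp.mul, hDl]
  have hd : ∃ d : L, d ^ 2 = al a' L 0 - al a' L 2 ∧ f d = d := by
    refine ⟨algebraMap K L ι, ?_, AlgEquiv.commutes f ι⟩
    rw [hal, hπ0, hπ2, hm1, ← map_pow, hι, map_neg, map_one]
  obtain ⟨U', s₀', w1, w2, w3, w4, w5⟩ := QMlu_U hV hPp hUsg hUhf hThs K a' L k t f q ν res hyp'
    hQC hp hM hd
  -- the signs
  have hsδ : ∀ g : Gal(L/K), g (s * δ) = s * δ := by
    intro g
    have h1 : (s * δ) ^ 2 = (algebraMap K L ι) ^ 2 := by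
      rw [mul_pow, hs, hδ, ← map_pow, hι, map_neg, map_one, mul_comm, hm1]
    rcases sq_eq_sq_iff_eq_or_eq_neg.1 h1 with h2 | h2
    · rw [h2]
      exact AlgEquiv.commutes g ι
    · rw [h2, map_neg]
      congr 1
      exact AlgEquiv.commutes g ι
  have hδ0 : δ ≠ 0 := by
    rintro rfl
    rw [zero_pow two_ne_zero] at hδ
    exact hD0 ((map_eq_zero _).1 hδ.symm)
  have hs0 : s ≠ 0 := by
    rintro rfl
    rw [zero_pow two_ne_zero] at hs
    rw [← hs, mul_zero] at hm1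
    exact neg_ne_zero.2 one_ne_zero hm1.symm
  have hsg : ∀ (g : Gal(L/K)) (x : NN a L), g • Φ x = Φ (sg (sgn g s) (g • x)) := by
    intro g x
    obtain ⟨h1, h2, h3⟩ := hφ3 g
    have h4 := hsδ g
    rw [map_mul] at h4
    rcases h1 with h1 | h1
    · rw [h1] at h4
      have h5 : g s = s := mul_right_cancel₀ hδ0 h4
      rw [sgn, if_pos h5, sg_zero']
      apply pt_inj
      rw [pt_smul, hΦ, hΦ, pt_smul]
      exact h2 h1 _
    · rw [h1] at h4
      have h5 : g s = -s := by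
        apply mul_right_cancel₀ hδ0
        rw [neg_mul, ← h4]
        ring
      have h6 : g s ≠ s := by
        rw [h5]
        intro h7
        have h8 : (2 : L) * s = 0 := by
          linear_combination -h7
        rcases mul_eq_zero.1 h8 with h9 | h9
        · exact hyp.1 h9
        · exact hs0 h9
      rw [sgn, if_neg h6, sg_one', map_neg]
      apply pt_inj
      rw [pt_smul, pt_neg, hΦ, hΦ, pt_smul]
      exact h3 h1 _
  have hmem : ∀ x, x ∈ U'.comap Φ.toAddMonoidHom ↔ Φ x ∈ U' := fun x => Iff.rfl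
  refine ⟨U'.comap Φ.toAddMonoidHom, Φ.symm s₀', ?_, ?_, ?_, ?_, ?_⟩
  · rw [hmem, AddEquiv.apply_symm_apply]
    exact w1
  · intro h
    exact w2 ((AddEquiv.map_eq_zero_iff Φ.symm).1 h)
  · intro x hx
    obtain ⟨y, hy, hyx⟩ := w3 _ hx
    refine ⟨Φ.symm y, ?_, ?_⟩
    · rw [hmem, AddEquiv.apply_symm_apply]
      exact hy
    · apply Φ.injective
      rw [map_nsmul, AddEquiv.apply_symm_apply, hyx]
      rfl
  · intro x hx
    have h1 := w4 (Φ x) hx
    rw [← map_nsmul, AddEquiv.map_eq_zero_iff, AddEquiv.map_eq_zero_iff] at h1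
    rw [h1, AddEquiv.eq_symm_apply]
  · intro x hx
    obtain ⟨h1, h2⟩ := w5 (Φ x) hx
    rw [hsg] at h1 h2
    rw [← map_nsmul] at h2
    exact ⟨Φ.injective h1, Φ.injective h2⟩

end Pool.Agent.MP72B.Par
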