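import Pool.Agent.Lib.MP_72e2e6_nt.Sm.B.SpecQ

/-! # MP_72e2e6_nt, `Sm/B`: the parity theorem -/

namespace Pool.Agent.MP72B.Par

open Finset Pool.Agent.MP72S

open Pool.Agent.MP72W (XY px py)

open Pool.Agent.MP72S.C

open scoped Classical

/-- The group of the elements of order two. -/
private def parV (N : Type) [AddCommGroup N] : AddSubgroup N where
  carrier := {s | 2 • s = 0}
  zero_mem' := smul_zero _
  add_mem' := fun {a b} (ha : 2 • a = 0) (hb : 2 • b = 0) => by
    change 2 • (a + b) = 0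
    rw [smul_add, ha, hb, add_zero]
  neg_mem' := fun {a} (ha : 2 • a = 0) => by
    change 2 • (-a) = 0
    rw [smul_neg, ha, neg_zero]

/-- The subgroup of the families with components in given subgroups. -/
private def parPi {N J : Type} [AddCommGroup N] (L : J → AddSubgroup (N × N)) :
    AddSubgroup (J → (parV N) × (parV N)) where
  carrier := {w | ∀ j, (((w j).1 : N), ((w j).2 : N)) ∈ L j}
  zero_mem' := fun j => (L j).zero_mem
  add_mem' := fun ha hb j => (L j).add_mem (ha j) (hb j)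
  neg_mem' := fun ha j => (L j).neg_mem (ha j)

private theorem par_card {N J : Type} [AddCommGroup N] [Fintype J] (L : J → AddSubgroup (N × N))
    (hL : ∀ j, ∀ p ∈ L j, 2 • p.1 = 0 ∧ 2 • p.2 = 0) :
    Nat.card (parPi L) = ∏ j, Nat.card (L j) := by
  rw [← Nat.card_pi]
  refine Nat.card_congr ⟨fun w j => ⟨(((w.1 j).1 : N), ((w.1 j).2 : N)), w.2 j⟩,
    fun u => ⟨fun j => (⟨(u j).1.1, (hL j _ (u j).2).1⟩, ⟨(u j).1.2, (hL j _ (u j).2).2⟩),
      fun j => (u j).2⟩, fun w => rfl, fun u => rfl⟩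

section

variable {G N P : Type} [Group G] [TopologicalSpace G] [AddCommGroup N] [DistribMulAction G N]
  {D : Dat G N P}

private theorem par_e0 (hA : Ax D) {s : N} (hs : 2 • s = 0) : D.e 0 s = 0 := by
  have := hA.e_add 0 0 s (smul_zero _) (smul_zero _) hs
  rw [add_zero] at this
  exact left_eq_add.1 this

private theorem par_e0' (hA : Ax D) {s : N} (hs : 2 • s = 0) : D.e s 0 = 0 := by
  rw [hA.e_sym s 0 hs (smul_zero _), par_e0 hA hs]

private theorem par_cst (hA : Ax D) {c : N} (hc : 2 • c = 0) :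
    IsHo (fun σ => if D.cst σ = 0 then 0 else c) := by
  refine ⟨hA.cstc.lc.comp fun a => if a = 0 then 0 else c, fun σ => ?_, fun σ τ => ?_⟩
  · beta_reduce
    split_ifs
    · exact smul_zero _
    · exact hc
  · beta_reduce
    rw [hA.cstc.mul]
    rw [two_nsmul] at hc
    rcases zmod2 (D.cst σ) with h | h <;> rcases zmod2 (D.cst τ) with h' | h' <;> rw [h, h']
    · simp
    · simp
    · simp
    · rw [show (1 : ZMod 2) + 1 = 0 from rfl, if_pos rfl, if_neg one_ne_zero, hc]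

private theorem par_ktau (hA : Ax D) {k : G → N} (hk : IsK D k) (v : P) (hv : v ∉ D.S) :
    k (D.tau v) = 0 := by
  apply hA.e_nd _ (hk.ho.two _)
  intro s hs
  obtain ⟨Q, hQ⟩ := hA.dvs s
  have h4 : 4 • Q = 0 := by
    have : (4 : ℕ) • Q = 2 • (2 • Q) := by
      rw [← mul_smul]
      rfl
    rw [this, hQ, hs]
  have h1 := hk.kap (D.tau v) Q h4
  rw [hA.unr v hv, sub_self, hQ, par_e0 hA hs] at h1
  rw [hA.e_sym _ _ (hk.ho.two _) hs, ← h1]

/-- The local conditions have order four. -/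
private theorem par_lcf (hL : S_Lcf) (hA : Ax D) (hF : FinP D) (v : P) (a b : ZMod 2) :
    Nat.card (Lsp (N := N) (D.tau v) (D.phi v) a b) = 4 := by
  refine hL ⟨hA.prim, hA.dvs, hA.four⟩ _ _ (fun x hx => ⟨hA.tri _ x hx, hA.tri _ x hx⟩) a b ?_
  refine (hF v).subset fun x hx => ?_
  have key : ∀ (c : ZMod 2) (g : G), sg c (g • x) = x → g • x = x ∨ g • x = -x := by
    intro c g h
    rcases zmod2 c with rfl | rfl
    · left
      rwa [sg_zero'] at h
    · right
      rw [sg_one'] at h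
      rw [← h, neg_neg, h]
  exact ⟨key a _ hx.1, key b _ hx.2⟩

/-- The first component vanishes at the unramified places. -/
private theorem par_fst (hA : Ax D) (v : P) (hv : v ∉ D.S) {a b : ZMod 2} (ha : a = 0)
    {p : N × N} (hp : p ∈ Lsp (N := N) (D.tau v) (D.phi v) a b) : p.1 = 0 := by
  obtain ⟨-, -, Q, h3, -⟩ := hp
  rw [h3, ha, sg_zero', hA.unr v hv, sub_self]

/-- The local condition at the unramified places. -/
private theorem par_unr (hL : S_Lcf) (hA : Ax D) (hF : FinP D) (v : P) (hv : v ∉ D.S)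
    {a b : ZMod 2} (ha : a = 0) {s : N} (hs : 2 • s = 0) :
    ((0 : N), s) ∈ Lsp (N := N) (D.tau v) (D.phi v) a b := by
  have h4 : Nat.card {x : N // 2 • x = 0} = Set.ncard {p : N × N | p.1 = 0 ∧ 2 • p.2 = 0} := by
    rw [← Nat.card_coe_set_eq]
    refine Nat.card_congr ⟨fun x => ⟨(0, x.1), rfl, x.2⟩, fun p => ⟨p.1.2, p.2.2⟩, fun x => rfl, ?_⟩
    rintro ⟨⟨p1, p2⟩, h1, h2⟩
    have h1' : p1 = 0 := h1
    subst h1'
    rfl
  have h5 : Set.ncard {p : N × N | p.1 = 0 ∧ 2 • p.2 = 0} = 4 := by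
    rw [← h4, hA.four]
  have h6 : (Lsp (N := N) (D.tau v) (D.phi v) a b : Set (N × N)) =
      {p : N × N | p.1 = 0 ∧ 2 • p.2 = 0} := by
    refine Set.eq_of_subset_of_ncard_le (fun p hp => ⟨par_fst hA v hv ha hp, ?_⟩) ?_ ?_
    · obtain ⟨-, h2, -⟩ := hp
      exact h2
    · rw [h5, ← Nat.card_coe_set_eq]
      exact (par_lcf hL hA hF v a b).ge
    · exact Set.finite_of_ncard_ne_zero (by rw [h5]; norm_num)
  have h7 : ((0 : N), s) ∈ {p : N × N | p.1 = 0 ∧ 2 • p.2 = 0} := ⟨rfl, hs⟩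
  rw [← h6] at h7
  exact h7

/-- The bilinear form. -/
private def parB (D : Dat G N P) (A : Finset P) (w w' : A → (parV N) × (parV N)) : ZMod 2 :=
  ∑ j, (D.e (w j).1 (w' j).2 + D.e (w j).2 (w' j).1)

/-- The quadratic form. -/
private def parQ (D : Dat G N P) (k : G → N) (A : Finset P) (w : A → (parV N) × (parV N)) :
    ZMod 2 :=
  ∑ j : A, qf D k j.1 ((w j).1, (w j).2)

private theorem parB_add (hA : Ax D) (A : Finset P) (a b c : A → (parV N) × (parV N)) :
    parB D A (a + b) c = parB D A a c + parB D A b c := by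
  unfold parB
  rw [← Finset.sum_add_distrib]
  apply Finset.sum_congr rfl
  intro j _
  have h1 := hA.e_add (a j).1 (b j).1 (c j).2 (a j).1.2 (b j).1.2 (c j).2.2
  have h2 := hA.e_add (a j).2 (b j).2 (c j).1 (a j).2.2 (b j).2.2 (c j).1.2
  have h3 : (((a + b) j).1 : N) = (a j).1 + (b j).1 := rfl
  have h4 : (((a + b) j).2 : N) = (a j).2 + (b j).2 := rfl
  rw [h3, h4, h1, h2]
  abel

private theorem parQ_add (hA : Ax D) {k : G → N} (hk : IsK D k) (A : Finset P)
    (a b : A → (parV N) × (parV N)) :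
    parQ D k A (a + b) = parQ D k A a + parQ D k A b + parB D A a b := by
  unfold parQ parB
  rw [← Finset.sum_add_distrib, ← Finset.sum_add_distrib]
  apply Finset.sum_congr rfl
  intro j _
  have h3 : (((a + b) j).1 : N) = (a j).1 + (b j).1 := rfl
  have h4 : (((a + b) j).2 : N) = (a j).2 + (b j).2 := rfl
  have a1 := (a j).1.2
  have a2 := (a j).2.2
  have b1 := (b j).1.2
  have b2 := (b j).2.2
  have ab2 : 2 • (((a j).2 : N) + (b j).2) = 0 := by
    rw [smul_add, show 2 • ((a j).2 : N) = 0 from a2, show 2 • ((b j).2 : N) = 0 from b2, add_zero]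
  unfold qf
  beta_reduce
  rw [h3, h4, hA.e_add _ _ _ a1 b1 ab2, hA.e_sym _ _ a1 ab2, hA.e_sym _ _ b1 ab2,
    hA.e_add _ _ _ a2 b2 a1, hA.e_add _ _ _ a2 b2 b1, hA.e_add _ _ _ a1 b1 (hk.ho.two _),
    hA.e_add _ _ _ a2 b2 (hk.ho.two _), hA.e_sym _ _ a1 a2, hA.e_sym _ _ b1 b2,
    hA.e_sym _ _ a1 b2]
  ring

private theorem parB_nd (hA : Ax D) (A : Finset P) (a : A → (parV N) × (parV N))
    (ha : ∀ b, parB D A a b = 0) : a = 0 := by
  funext j
  apply Prod.ext
  · apply Subtype.ext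
    apply hA.e_nd _ (a j).1.2
    intro s hs
    have h1 := ha (fun k => if k = j then (0, ⟨s, hs⟩) else 0)
    unfold parB at h1
    rw [Finset.sum_eq_single j] at h1
    · simp only [if_true] at h1
      have h2 : D.e ((a j).2 : N) (((0 : parV N)) : N) = 0 := par_e0' hA (a j).2.2
      rw [h2, add_zero] at h1
      exact h1
    · intro k _ hk
      simp only [if_neg hk]
      have h2 : D.e ((a k).2 : N) (((0 : parV N)) : N) = 0 := par_e0' hA (a k).2.2
      have h3 : D.e ((a k).1 : N) (((0 : parV N)) : N) = 0 := par_e0' hA (a k).1.2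
      exact (congrArg₂ (· + ·) h3 h2).trans (add_zero 0)
    · intro h
      exact absurd (mem_univ j) h
  · apply Subtype.ext
    apply hA.e_nd _ (a j).2.2
    intro s hs
    have h1 := ha (fun k => if k = j then (⟨s, hs⟩, 0) else 0)
    unfold parB at h1
    rw [Finset.sum_eq_single j] at h1
    · simp only [if_true] at h1
      have h2 : D.e ((a j).1 : N) (((0 : parV N)) : N) = 0 := par_e0' hA (a j).1.2
      rw [h2, zero_add] at h1
      exact h1
    · intro k _ hk
      simp only [if_neg hk]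
      have h2 : D.e ((a k).2 : N) (((0 : parV N)) : N) = 0 := par_e0' hA (a k).2.2
      have h3 : D.e ((a k).1 : N) (((0 : parV N)) : N) = 0 := par_e0' hA (a k).1.2
      exact (congrArg₂ (· + ·) h3 h2).trans (add_zero 0)
    · intro h
      exact absurd (mem_univ j) h

/-- The values of the homomorphisms. -/
private def parX (D : Dat G N P) (A : Finset P) : AddSubgroup (A → (parV N) × (parV N)) where
  carrier := {w | ∃ θ : G → N, IsHo θ ∧ (∀ v, v ∉ A → θ (D.tau v) = 0) ∧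
    ∀ j : A, ((w j).1 : N) = θ (D.tau j.1) ∧ ((w j).2 : N) = θ (D.phi j.1)}
  zero_mem' := ⟨fun _ => 0, ⟨IsLocallyConstant.const 0, fun _ => smul_zero _,
    fun _ _ => (add_zero 0).symm⟩, fun _ _ => rfl, fun _ => ⟨rfl, rfl⟩⟩
  add_mem' := by
    rintro a b ⟨θ, h1, h2, h3⟩ ⟨θ', h1', h2', h3'⟩
    refine ⟨fun σ => θ σ + θ' σ, ⟨h1.lc.comp₂ h1'.lc (fun a b => a + b), fun σ => ?_,
      fun σ τ => ?_⟩, fun v hv => ?_, fun j => ⟨?_, ?_⟩⟩
    · rw [smul_add, h1.two, h1'.two, add_zero]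
    · rw [h1.mul, h1'.mul]
      abel
    · beta_reduce
      rw [h2 v hv, h2' v hv, add_zero]
    · beta_reduce
      rw [← (h3 j).1, ← (h3' j).1]
      rfl
    · beta_reduce
      rw [← (h3 j).2, ← (h3' j).2]
      rfl
  neg_mem' := by
    rintro a ⟨θ, h1, h2, h3⟩
    refine ⟨fun σ => -θ σ, ⟨h1.lc.comp (fun a => -a), fun σ => ?_,
      fun σ τ => ?_⟩, fun v hv => ?_, fun j => ⟨?_, ?_⟩⟩
    · rw [smul_neg, h1.two, neg_zero]
    · rw [h1.mul, neg_add]
    · beta_reduce
      rw [h2 v hv, neg_zero]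
    · beta_reduce
      rw [← (h3 j).1]
      rfl
    · beta_reduce
      rw [← (h3 j).2]
      rfl

/-- A homomorphism which is unramified outside `A` and vanishes at the inertia generators different from
the one at infinity, and at the Frobenius element at infinity, is zero. -/
private theorem par_inj (hHom : MP72S.S_Hom) (hRcq : S_Rcq) (hA : Ax D) {θ : G → N}
    (h1 : IsHo θ) (htau : ∀ v, v ≠ D.inf → θ (D.tau v) = 0) (hphi : θ (D.phi D.inf) = 0) :
    ∀ σ, θ σ = 0 := by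
  have htinf : θ (D.tau D.inf) = 0 := by
    apply hA.e_nd _ (h1.two _)
    intro c hc
    have hr := hRcq D hA θ _ {D.inf} h1 (par_cst hA hc) (by
      intro v hv
      rw [mem_singleton] at hv
      unfold qf
      beta_reduce
      rw [htau v hv, hA.cst_tau, if_pos rfl, par_e0 hA ((par_cst hA hc).two _),
        par_e0 hA (h1.two _), par_e0' hA (h1.two _), add_zero, add_zero])
    rw [sum_singleton, qf, hA.cst_tau, hA.cst_inf, if_pos rfl, if_neg one_ne_zero] at hr
    beta_reduce at hr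
    rw [hphi, par_e0' hA (h1.two _), par_e0 hA (smul_zero _), add_zero, zero_add] at hr
    exact hr
  exact (hHom D hA).1 θ h1 (fun v => by
    by_cases hv : v = D.inf
    · rw [hv, htinf]
    · exact htau v hv) hphi

private theorem parX_inj (hHom : MP72S.S_Hom) (hRcq : S_Rcq) (hA : Ax D) {A : Finset P}
    (hS : D.S ⊆ A) (w : A → (parV N) × (parV N)) (hw : w ∈ parX D A)
    (h4 : ∀ j : A, (if j.1 = D.inf then (w j).2 else (w j).1) = 0) : w = 0 := by
  obtain ⟨θ, h1, h2, h3⟩ := hw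
  let jinf : A := ⟨D.inf, hS hA.infS⟩
  have hphi : θ (D.phi D.inf) = 0 := by
    have h5 := h4 jinf
    rw [if_pos rfl] at h5
    have h6 := (h3 jinf).2
    rw [← h6, h5]
    rfl
  have htau : ∀ v, v ≠ D.inf → θ (D.tau v) = 0 := by
    intro v hv
    by_cases hvr : v ∈ A
    · have h5 := h4 ⟨v, hvr⟩
      rw [if_neg hv] at h5
      have h6 := (h3 ⟨v, hvr⟩).1
      rw [← h6, h5]
      rfl
    · exact h2 v hvr
  have h0 := par_inj hHom hRcq hA h1 htau hphi
  funext j
  apply Prod.ext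
  · apply Subtype.ext
    rw [(h3 j).1, h0]
    rfl
  · apply Subtype.ext
    rw [(h3 j).2, h0]
    rfl

private theorem parX_card (hHom : MP72S.S_Hom) (hRcq : S_Rcq) (hA : Ax D) {A : Finset P}
    (hS : D.S ⊆ A) : Nat.card (parX (N := N) D A) = Nat.card (A → parV N) := by
  apply Nat.card_congr
  apply Equiv.ofBijective
    (fun w : parX (N := N) D A => fun j : A => if j.1 = D.inf then (w.1 j).2 else (w.1 j).1)
  constructor
  · intro w w' h
    apply Subtype.ext
    apply sub_eq_zero.1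
    apply parX_inj hHom hRcq hA hS _ ((parX D A).sub_mem w.2 w'.2)
    intro j
    have h5 := congrFun h j
    beta_reduce at h5
    by_cases hj : j.1 = D.inf
    · rw [if_pos hj, if_pos hj] at h5
      rw [if_pos hj]
      have : ((w.1 - w'.1) j).2 = (w.1 j).2 - (w'.1 j).2 := rfl
      rw [this, h5, sub_self]
    · rw [if_neg hj, if_neg hj] at h5
      rw [if_neg hj]
      have : ((w.1 - w'.1) j).1 = (w.1 j).1 - (w'.1 j).1 := rfl
      rw [this, h5, sub_self]
  · intro u
    let jinf : A := ⟨D.inf, hS hA.infS⟩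
    obtain ⟨θ, h1, h2, h3, h4⟩ := (hHom D hA).2.1 (A.erase D.inf)
      (fun v => if h : v ∈ A then (u ⟨v, h⟩ : N) else 0) (u jinf)
      (fun h => (mem_erase.1 h).1 rfl)
      (by
        intro v
        beta_reduce
        split_ifs with h
        · exact (u ⟨v, h⟩).2
        · exact smul_zero _)
      (u jinf).2
    refine ⟨⟨fun j => (⟨θ (D.tau j.1), h1.two _⟩, ⟨θ (D.phi j.1), h1.two _⟩),
      θ, h1, fun v hv => ?_, fun j => ⟨rfl, rfl⟩⟩, ?_⟩
    · apply h3
      · intro h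
        exact hv (mem_erase.1 h).2
      · rintro rfl
        exact hv (hS hA.infS)
    · funext j
      beta_reduce
      by_cases hj : j.1 = D.inf
      · rw [if_pos hj]
        apply Subtype.ext
        have hjj : j = jinf := Subtype.ext hj
        subst hjj
        exact h4
      · rw [if_neg hj]
        apply Subtype.ext
        have h5 := h2 j.1 (mem_erase.2 ⟨hj, j.2⟩)
        rw [dif_pos j.2] at h5
        exact h5

/-- The Selmer group is the intersection with the local conditions. -/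
private theorem par_sel (hHom : MP72S.S_Hom) (hRcq : S_Rcq) (hL : S_Lcf) (hA : Ax D)
    (hF : FinP D) {A : Finset P} (hS : D.S ⊆ A) (χ : G → ZMod 2)
    (hχ : ∀ v, v ∉ A → χ (D.tau v) = 0) :
    Nat.card ↥(parX (N := N) D A ⊓ parPi fun j : A =>
      Lsp (N := N) (D.tau j.1) (D.phi j.1) (χ (D.tau j.1)) (χ (D.phi j.1))) =
    Nat.card (SelD D χ) := by
  symm
  apply Nat.card_congr
  apply Equiv.ofBijective (fun ψ : SelD D χ =>
    (⟨fun j : A => (⟨ψ.1 (D.tau j.1), ψ.2.1.two _⟩, ⟨ψ.1 (D.phi j.1), ψ.2.1.two _⟩),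
      ⟨ψ.1, ψ.2.1, fun v hv => par_fst hA v (fun h => hv (hS h)) (hχ v hv) (ψ.2.2 v),
        fun j => ⟨rfl, rfl⟩⟩, fun j => ψ.2.2 j.1⟩ :
      ↥(parX (N := N) D A ⊓ parPi fun j : A =>
        Lsp (N := N) (D.tau j.1) (D.phi j.1) (χ (D.tau j.1)) (χ (D.phi j.1)))))
  constructor
  · intro ψ ψ' h
    have h1 := congrArg Subtype.val h
    apply Subtype.ext
    have hd : IsHo fun σ => ψ.1 σ - ψ'.1 σ := by
      refine ⟨ψ.2.1.lc.comp₂ ψ'.2.1.lc (fun a b => a - b), fun σ => ?_, fun σ τ => ?_⟩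
      · rw [smul_sub, ψ.2.1.two, ψ'.2.1.two, sub_zero]
      · rw [ψ.2.1.mul, ψ'.2.1.mul]
        abel
    funext σ
    apply sub_eq_zero.1
    refine par_inj hHom hRcq hA hd (fun v _ => ?_) ?_ σ
    · beta_reduce
      by_cases hv : v ∈ A
      · have h2 := congrFun h1 ⟨v, hv⟩
        have h3 := congrArg (fun p : (parV N) × (parV N) => (p.1 : N)) h2
        exact sub_eq_zero.2 h3
      · have e1 : ψ.1 (D.tau v) = 0 :=
          par_fst hA v (fun h => hv (hS h)) (hχ v hv) (ψ.2.2 v)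
        have e2 : ψ'.1 (D.tau v) = 0 :=
          par_fst hA v (fun h => hv (hS h)) (hχ v hv) (ψ'.2.2 v)
        rw [e1, e2, sub_zero]
    · beta_reduce
      have h2 := congrFun h1 ⟨D.inf, hS hA.infS⟩
      have h3 := congrArg (fun p : (parV N) × (parV N) => (p.2 : N)) h2
      exact sub_eq_zero.2 h3
  · rintro ⟨w, ⟨θ, h1, h2, h3⟩, h4⟩
    refine ⟨⟨θ, h1, fun v => ?_⟩, ?_⟩
    · by_cases hv : v ∈ A
      · have h5 := h4 ⟨v, hv⟩
        rw [(h3 ⟨v, hv⟩).1, (h3 ⟨v, hv⟩).2] at h5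
        exact h5
      · rw [h2 v hv]
        exact par_unr hL hA hF v (fun h => hv (hS h)) (hχ v hv) (h1.two _)
    · apply Subtype.ext
      funext j
      apply Prod.ext
      · apply Subtype.ext
        exact ((h3 j).1).symm
      · apply Subtype.ext
        exact ((h3 j).2).symm

end

/-- The parity theorem. -/
theorem tPar : MP72S.S_Hom → MP72S.S_Bas → S_Lag → S_Lcf → S_Rcq → S_Par := by
  intro hHom _ hLag hL hRcq G N P _ _ _ _ D hA k hk hF χ χ' _ _ A hS hχ
  have hV4 : Nat.card (parV N) = 4 := hA.four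
  have hVfin : Finite (parV N) := Nat.finite_of_card_ne_zero (by rw [hV4]; norm_num)
  have hH : Nat.card (A → (parV N) × (parV N)) = (4 ^ #A) ^ 2 := by
    rw [Nat.card_fun, Nat.card_prod, hV4, Nat.card_eq_fintype_card, Fintype.card_coe, ← pow_mul,
      mul_comm _ 2, pow_mul]
    norm_num
  have hX : Nat.card (parX (N := N) D A) = 4 ^ #A := by
    rw [parX_card hHom hRcq hA hS, Nat.card_fun, hV4, Nat.card_eq_fintype_card, Fintype.card_coe]
  have hLt : ∀ (a b : ZMod 2) (v : P), ∀ p ∈ Lsp (N := N) (D.tau v) (D.phi v) a b,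
      2 • p.1 = 0 ∧ 2 • p.2 = 0 := fun a b v p hp => ⟨hp.1, hp.2.1⟩
  have hY : ∀ χ : G → ZMod 2, Nat.card (parPi fun j : A =>
      Lsp (N := N) (D.tau j.1) (D.phi j.1) (χ (D.tau j.1)) (χ (D.phi j.1))) = 4 ^ #A := by
    intro χ
    rw [par_card _ fun j => hLt _ _ _]
    rw [Finset.prod_congr rfl fun j _ => par_lcf hL hA hF j.1 _ _, Finset.prod_const,
      Finset.card_univ, Fintype.card_coe]
  have hXs : ∀ a ∈ parX (N := N) D A, parQ D k A a = 0 := by
    rintro a ⟨θ, h1, h2, h3⟩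
    have hr := hRcq D hA θ k A h1 hk.ho (by
      intro v hv
      have e1 : k (D.tau v) = 0 := par_ktau hA hk v fun h => hv (hS h)
      unfold qf
      beta_reduce
      rw [h2 v hv, e1, par_e0 hA (h1.two _), par_e0 hA (hk.ho.two _), par_e0' hA (h1.two _),
        add_zero, add_zero])
    rw [← hr, ← Finset.sum_coe_sort A]
    unfold parQ
    apply Finset.sum_congr rfl
    intro j _
    rw [(h3 j).1, (h3 j).2]
  have hYs : ∀ χ : G → ZMod 2, ∀ a ∈ (parPi fun j : A =>
      Lsp (N := N) (D.tau j.1) (D.phi j.1) (χ (D.tau j.1)) (χ (D.phi j.1))),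
      parQ D k A a = 0 := by
    intro χ a ha
    unfold parQ
    apply Finset.sum_eq_zero
    intro j _
    exact hk.qv j.1 _ _ _ (ha j)
  obtain ⟨m, hm⟩ := hLag (A → (parV N) × (parV N)) (parB D A) (parQ D k A)
    (fun w => by
      funext j
      apply Prod.ext
      · exact Subtype.ext (w j).1.2
      · exact Subtype.ext (w j).2.2)
    (parB_add hA A) (parQ_add hA hk A) (parB_nd hA A) (parX D A)
    (parPi fun j : A => Lsp (N := N) (D.tau j.1) (D.phi j.1) (χ (D.tau j.1)) (χ (D.phi j.1)))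
    (parPi fun j : A => Lsp (N := N) (D.tau j.1) (D.phi j.1) (χ' (D.tau j.1)) (χ' (D.phi j.1)))
    hXs (hYs χ) (hYs χ') (by rw [hX, hH]) (by rw [hY, hH]) (by rw [hY, hH])
  rw [par_sel hHom hRcq hL hA hF hS χ fun v hv => (hχ v hv).1,
    par_sel hHom hRcq hL hA hF hS χ' fun v hv => (hχ v hv).2, hX] at hm
  have hYZ : Nat.card ↥((parPi fun j : A =>
      Lsp (N := N) (D.tau j.1) (D.phi j.1) (χ (D.tau j.1)) (χ (D.phi j.1))) ⊓
      parPi fun j : A =>
        Lsp (N := N) (D.tau j.1) (D.phi j.1) (χ' (D.tau j.1)) (χ' (D.phi j.1))) =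
      ∏ v ∈ A, Nat.card ↥(Lsp (N := N) (D.tau v) (D.phi v) (χ (D.tau v)) (χ (D.phi v)) ⊓
        Lsp (N := N) (D.tau v) (D.phi v) (χ' (D.tau v)) (χ' (D.phi v))) := by
    have h1 : ((parPi fun j : A =>
      Lsp (N := N) (D.tau j.1) (D.phi j.1) (χ (D.tau j.1)) (χ (D.phi j.1))) ⊓
      parPi fun j : A =>
        Lsp (N := N) (D.tau j.1) (D.phi j.1) (χ' (D.tau j.1)) (χ' (D.phi j.1))) =
      parPi fun j : A => (Lsp (N := N) (D.tau j.1) (D.phi j.1) (χ (D.tau j.1)) (χ (D.phi j.1)) ⊓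
        Lsp (N := N) (D.tau j.1) (D.phi j.1) (χ' (D.tau j.1)) (χ' (D.phi j.1))) := by
      ext w
      exact ⟨fun h j => ⟨h.1 j, h.2 j⟩, fun h => ⟨fun j => (h j).1, fun j => (h j).2⟩⟩
    rw [h1, par_card _ fun j p hp => hLt _ _ _ p (AddSubgroup.mem_inf.1 hp).1]
    exact Finset.prod_coe_sort A fun v =>
      Nat.card ↥(Lsp (N := N) (D.tau v) (D.phi v) (χ (D.tau v)) (χ (D.phi v)) ⊓
        Lsp (N := N) (D.tau v) (D.phi v) (χ' (D.tau v)) (χ' (D.phi v)))
  rw [hYZ] at hm
  have hdvd : 4 ^ #A ∣ 4 ^ m := Dvd.intro_left _ hm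
  have hle : #A ≤ m := (Nat.pow_dvd_pow_iff_le_right (by norm_num)).1 hdvd
  refine ⟨m - #A, ?_⟩
  have hpos : 0 < 4 ^ #A := pow_pos (by norm_num) _
  apply Nat.eq_of_mul_eq_mul_right hpos
  rw [hm, ← pow_add, Nat.sub_add_cancel hle]

end Pool.Agent.MP72B.Par
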