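import Pool.Agent.Lib.MP_72e2e6_nt.Sm.B.SpecQ

/-! # MP_72e2e6_nt, `Sm/B`: intersections of the local conditions, potentially good reduction -/

namespace Pool.Agent.MP72B.Par

open Finset Pool.Agent.MP72S

open Pool.Agent.MP72W (XY px py)

open Pool.Agent.MP72S.C

open scoped Classical

section

variable {G N : Type} [Group G] [AddCommGroup N] [DistribMulAction G N]

private theorem pgc_first {t f : G} {a b m : ZMod 2} (ht : ∀ x : N, t • x = sg m x) (p : N × N)
    (hp : p ∈ Lsp (N := N) t f a b) (ham : a + m = 0) : p.1 = 0 := by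
  obtain ⟨-, -, Q, h3, -⟩ := hp
  rw [h3, ht, sg_sg, ham, sg_zero', sub_self]

private theorem pgc_zero {t f : G} (hV : ∀ x : N, 2 • x = 0 → t • x = x ∧ f • x = x)
    {b : ZMod 2} {Q : N} (hQ : 2 • Q = 0) : sg b (f • Q) - Q = 0 := by
  rw [(hV Q hQ).2, sg_two b hQ, sub_self]

private theorem pgc_one {t : G} {a m : ZMod 2} (ht : ∀ x : N, t • x = sg m x) (Q : N)
    (ham : a + m = 1) : sg a (t • Q) - Q = -(2 • Q) := by
  rw [ht, sg_sg, ham, sg_one', two_nsmul]
  abel

private theorem pgc_ncard : Nat.card {x : N // 2 • x = 0} =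
    Set.ncard {p : N × N | p.1 = 0 ∧ 2 • p.2 = 0} := by
  rw [← Nat.card_coe_set_eq]
  refine Nat.card_congr ⟨fun x => ⟨(0, x.1), rfl, x.2⟩, fun p => ⟨p.1.2, p.2.2⟩, fun x => rfl, ?_⟩
  rintro ⟨⟨p1, p2⟩, h1, h2⟩
  have h1' : p1 = 0 := h1
  subst h1'
  rfl

end

/-- Intersections, potentially good reduction. -/
theorem tPgc : S_Pgc := by
  intro G N _ _ _ hP2 t f hV m ht h4 a b a' b'
  have hbot : (∀ p ∈ Lsp (N := N) t f a b, p ∈ Lsp (N := N) t f a' b' → p = 0) →
      ∃ n : ℕ, Nat.card ↥(Lsp (N := N) t f a b ⊓ Lsp (N := N) t f a' b') = 4 ^ n := by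
    intro h
    refine ⟨0, ?_⟩
    have : Lsp (N := N) t f a b ⊓ Lsp (N := N) t f a' b' = ⊥ := by
      rw [eq_bot_iff]
      intro p hp
      exact AddSubgroup.mem_bot.2 (h p hp.1 hp.2)
    rw [this, AddSubgroup.card_bot, pow_zero]
  have heq : Lsp (N := N) t f a b = Lsp (N := N) t f a' b' →
      ∃ n : ℕ, Nat.card ↥(Lsp (N := N) t f a b ⊓ Lsp (N := N) t f a' b') = 4 ^ n := by
    intro h
    refine ⟨1, ?_⟩
    rw [← h, inf_idem, h4, pow_one]
  rcases zmod2 (a + m) with ha | ha <;> rcases zmod2 (a' + m) with ha' | ha'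
  · apply heq
    have key : ∀ (c d : ZMod 2), c + m = 0 → (Lsp (N := N) t f c d : Set (N × N)) =
        {p : N × N | p.1 = 0 ∧ 2 • p.2 = 0} := by
      intro c d hc
      have hfin : Set.ncard {p : N × N | p.1 = 0 ∧ 2 • p.2 = 0} = 4 := by
        rw [← pgc_ncard, hP2.four]
      refine Set.eq_of_subset_of_ncard_le (fun p hp => ⟨pgc_first ht p hp hc, ?_⟩) ?_ ?_
      · obtain ⟨-, h2, -⟩ := hp
        exact h2
      · rw [hfin, ← Nat.card_coe_set_eq]
        exact (h4 c d).ge
      · exact Set.finite_of_ncard_ne_zero (by rw [hfin]; norm_num)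
    exact SetLike.coe_injective ((key a b ha).trans (key a' b' ha').symm)
  · apply hbot
    intro p hp hp'
    have h1 := pgc_first ht p hp ha
    obtain ⟨-, -, Q, h3, h5⟩ := hp'
    rw [pgc_one ht Q ha'] at h3
    rw [h1] at h3
    have hQ : 2 • Q = 0 := neg_eq_zero.1 h3.symm
    rw [pgc_zero hV hQ] at h5
    exact Prod.ext h1 h5
  · apply hbot
    intro p hp hp'
    have h1 := pgc_first ht p hp' ha'
    obtain ⟨-, -, Q, h3, h5⟩ := hp
    rw [pgc_one ht Q ha] at h3
    rw [h1] at h3
    have hQ : 2 • Q = 0 := neg_eq_zero.1 h3.symm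
    rw [pgc_zero hV hQ] at h5
    exact Prod.ext h1 h5
  · have haa : a = a' := add_right_cancel (ha.trans ha'.symm)
    by_cases hbb : b = b'
    · exact heq (by rw [haa, hbb])
    · apply hbot
      intro p hp hp'
      obtain ⟨-, -, Q, h3, h5⟩ := hp
      obtain ⟨-, -, Q', h3', h5'⟩ := hp'
      rw [pgc_one ht Q ha] at h3
      rw [pgc_one ht Q' ha'] at h3'
      have hw : 2 • (Q - Q') = 0 := by
        rw [smul_sub, sub_eq_zero]
        exact neg_injective (h3.symm.trans h3')
      have h6 : sg b (f • Q) - Q = sg b (f • Q') - Q' := by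
        have := pgc_zero hV (b := b) hw
        rw [smul_sub, sg_sub] at this
        rw [sub_eq_zero] at this
        have h7 : sg b (f • Q) - Q - (sg b (f • Q') - Q') =
            sg b (f • Q) - sg b (f • Q') - (Q - Q') := by abel
        rw [← sub_eq_zero, h7, this, sub_self]
      have h8 : sg b (f • Q') = sg b' (f • Q') := by
        have : sg b (f • Q') - Q' = sg b' (f • Q') - Q' := by
          rw [← h6, ← h5, h5']
        exact sub_left_injective this
      have h9 : 2 • (f • Q') = 0 := by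
        rcases zmod2 b with rfl | rfl <;> rcases zmod2 b' with rfl | rfl
        · exact absurd rfl hbb
        · rw [sg_zero', sg_one'] at h8
          rw [two_nsmul]
          nth_rewrite 1 [h8]
          exact neg_add_cancel _
        · rw [sg_zero', sg_one'] at h8
          rw [two_nsmul]
          nth_rewrite 1 [← h8]
          exact neg_add_cancel _
        · exact absurd rfl hbb
      have h10 : 2 • Q' = 0 := by
        have h11 : f • (2 • Q') = 0 := by
          rw [← h9, two_nsmul, two_nsmul, smul_add]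
        have h12 : f⁻¹ • (f • (2 • Q')) = 0 := by rw [h11, smul_zero]
        rwa [inv_smul_smul] at h12
      rw [h10, neg_zero] at h3'
      rw [pgc_zero hV h10] at h5'
      exact Prod.ext h3' h5'

end Pool.Agent.MP72B.Par
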