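import Pool.Agent.Lib.MP_72e2e6_nt.Sm.B.SpecQ

/-! # MP_72e2e6_nt, `Sm/B`: the action of inertia, potentially good reduction -/

namespace Pool.Agent.MP72B.Par

open Finset Pool.Agent.MP72S

open Pool.Agent.MP72W (XY px py)

open Pool.Agent.MP72S.C

open scoped Classical

section

variable {K : Type} [Field K] {L : Type} [Field L] [Algebra K L] {a a' : Fin 3 → K}

private theorem pgd_N (φ : PA a L ≃+ PA a' L) (x : NN a L) : ∃ n : ℕ, 2 ^ n • φ (pt x) = 0 := by
  obtain ⟨n, hn⟩ := pt_mem x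
  exact ⟨n, by rw [← map_nsmul, hn, map_zero]⟩

end

/-- Potentially good reduction. -/
theorem tPgd : C.S_Twi → C.S_Goo → C.S_Ppr → S_Pgd := by
  intro hT hG hP K _ a L _ _ k _ t f q ν res hyp hQC hp m hm x
  obtain ⟨p1, p2, -, -, -, -, -, -, -, -, -, -, -, -, -⟩ := hP K L k t f q ν res hp
  have h01 : a 0 - a 1 ≠ 0 := by
    intro h
    exact absurd (hyp.2 (sub_eq_zero.1 h)) (by decide)
  set D : K := (a 0 - a 1)⁻¹ with hD
  have hD0 : D ≠ 0 := inv_ne_zero h01
  obtain ⟨δ, hδ⟩ := hQC (algebraMap K L D)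
  obtain ⟨a', ha', hyp', φ, hφ3⟩ : ∃ a' : Fin 3 → K, (∀ i, a' i = D * a i) ∧ Hyp a' L ∧
      ∃ φ : PA a L ≃+ PA a' L, ∀ s : Gal(L/K), (s δ = δ ∨ s δ = -δ) ∧
        (s δ = δ → ∀ P, act a' s (φ P) = φ (act a s P)) ∧
        (s δ = -δ → ∀ P, act a' s (φ P) = - φ (act a s P)) := by
    obtain ⟨h1, φ, -, -, h4⟩ := hT K a L hyp D 0 hD0 δ hδ (Equiv.refl _)
    exact ⟨_, fun i => by rw [Equiv.refl_apply, add_zero], h1, φ, h4⟩
  have hal : ∀ i j, al a' L i - al a' L j = algebraMap K L D * (al a L i - al a L j) := by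
    intro i j
    simp only [al, ha', map_mul]
    ring
  have hDl : ν (algebraMap K L D) + ((m : ℚ) : WithTop ℚ) = 0 := by
    rw [← hm 0 1 (by decide), ← hp.mul]
    have e : algebraMap K L D * (al a L 0 - al a L 1) = 1 := by
      simp only [al]
      rw [← map_sub, ← map_mul, hD, inv_mul_cancel₀ h01, map_one]
    rw [e, p1]
  have hgood : ∀ y : NN a' L, t • y = y := by
    refine hG K a' L k t f q ν res hyp' hp fun i j hij => ?_
    rw [hal, hp.mul, hm i j hij, hDl]
  have hν : ν (algebraMap K L D) = (((-m : ℤ) : ℚ) : WithTop ℚ) := by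
    have hne : ν (algebraMap K L D) ≠ ⊤ := by
      rw [Ne, hp.top]
      exact (map_ne_zero _).2 hD0
    obtain ⟨r, hr⟩ := WithTop.ne_top_iff_exists.1 hne
    rw [← hr] at hDl ⊢
    have h0 : r + (m : ℚ) = 0 := by exact_mod_cast hDl
    have : r = ((-m : ℤ) : ℚ) := by
      push_cast
      linarith
    rw [this]
  have htδ := hp.sq (algebraMap K L D) δ hδ (t.commutes D) (-m) hν
  have hact : act a' t (φ (pt x)) = φ (pt x) := by
    have := hgood (mkN (φ (pt x)) (pgd_N φ x))
    exact congrArg pt this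
  obtain ⟨-, h2, h3⟩ := hφ3 t
  by_cases hev : Even m
  · have hm0 : (m : ZMod 2) = 0 := by
      rw [← Int.cast_zero, ZMod.intCast_eq_intCast_iff_dvd_sub]
      simpa using hev.two_dvd
    rw [hm0, sg_zero']
    rw [if_pos hev.neg] at htδ
    apply pt_inj
    rw [pt_smul]
    apply φ.injective
    rw [← h2 htδ, hact]
  · have hm1 : (m : ZMod 2) = 1 := by
      rcases zmod2 (m : ZMod 2) with h | h
      · exfalso
        apply hev
        rw [← Int.cast_zero, ZMod.intCast_eq_intCast_iff_dvd_sub] at h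
        have h' : (2 : ℤ) ∣ m := by simpa using h
        exact even_iff_two_dvd.2 h'
      · exact h
    rw [hm1, sg_one']
    rw [if_neg fun h => hev (even_neg.1 h)] at htδ
    apply pt_inj
    rw [pt_smul, pt_neg]
    apply φ.injective
    rw [map_neg, eq_neg_iff_add_eq_zero, ← hact, h3 htδ, add_neg_cancel]

end Pool.Agent.MP72B.Par
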