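import Pool.Agent.Lib.MP_72e2e6_nt.Sm.B.SpecQ

/-!
# MP_72e2e6_nt, `Sm/B`: module QQqv (the local quadratic form vanishes on the local conditions)
-/

set_option autoImplicit false

namespace Pool.Agent.MP72B.Par

open Finset Pool.Agent.MP72S

open Pool.Agent.MP72W (XY px py)

open Pool.Agent.MP72S.C

open scoped Classical

private theorem z2 : ∀ b : ZMod 2, b = 0 ∨ b = 1 := by decide

private theorem fin3 : ∀ k j : Fin 3, ¬ k = j → j = k + 1 ∨ j = k + 2 := by decide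

private theorem fin3b : ∀ i : Fin 3, i + 1 + 2 = i := by decide

private theorem fin3c : ∀ i j : Fin 3, (if i = j then 0 else 1 : ZMod 2) =
    (if i = 0 then 0 else 1) * (if j = 1 then 0 else 1) +
      (if i = 1 then 0 else 1) * (if j = 0 then 0 else 1) := by decide

private theorem fin3a : ∀ i : Fin 3, i + 2 + 1 = i ∧ i ≠ i + 1 ∧ i ≠ i + 2 ∧ i + 1 + 1 = i + 2 := by
  decide

/-! ### Signs in a field -/

section

variable {K L : Type} [Field K] [Field L] [Algebra K L]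

/-- The sign of an element of a field. -/
private def ns (b : ZMod 2) (x : L) : L := if b = 0 then x else -x

private theorem ns0 (x : L) : ns 0 x = x := if_pos rfl

private theorem ns1 (x : L) : ns 1 x = -x := if_neg (by decide)

private theorem ns_ns (b b' : ZMod 2) (x : L) : ns b (ns b' x) = ns (b + b') x := by
  have h : (1 + 1 : ZMod 2) = 0 := by decide
  rcases z2 b with rfl | rfl <;> rcases z2 b' with rfl | rfl
  · rw [ns0, ns0, add_zero, ns0]
  · rw [ns0, zero_add]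
  · rw [ns0, add_zero]
  · rw [ns1, ns1, h, ns0, neg_neg]

private theorem ns_mul (b b' : ZMod 2) (x y : L) : ns b x * ns b' y = ns (b + b') (x * y) := by
  have h : (1 + 1 : ZMod 2) = 0 := by decide
  rcases z2 b with rfl | rfl <;> rcases z2 b' with rfl | rfl
  · rw [ns0, ns0, add_zero, ns0]
  · rw [ns0, ns1, zero_add, ns1, mul_neg]
  · rw [ns1, ns0, add_zero, ns1, neg_mul]
  · rw [ns1, ns1, h, ns0, neg_mul_neg]

private theorem ns_div (b b' : ZMod 2) (x y : L) : ns b x / ns b' y = ns (b + b') (x / y) := by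
  have h : (1 + 1 : ZMod 2) = 0 := by decide
  rcases z2 b with rfl | rfl <;> rcases z2 b' with rfl | rfl
  · rw [ns0, ns0, add_zero, ns0]
  · rw [ns0, ns1, zero_add, ns1, div_neg]
  · rw [ns1, ns0, add_zero, ns1, neg_div]
  · rw [ns1, ns1, h, ns0, neg_div_neg_eq]

private theorem ns_sq (b : ZMod 2) (x : L) : ns b x ^ 2 = x ^ 2 := by
  rcases z2 b with rfl | rfl
  · rw [ns0]
  · rw [ns1, neg_sq]

private theorem sgn_of (h2 : (2 : L) ≠ 0) {g : Gal(L/K)} {x : L} {b : ZMod 2} (hx : x ≠ 0)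
    (h : g x = ns b x) : sgn g x = b := by
  rcases z2 b with rfl | rfl
  · rw [ns0] at h
    exact if_pos h
  · rw [ns1] at h
    refine if_neg fun h' => hx ?_
    have h3 : 2 * x = 0 := by linear_combination h - h'
    exact (mul_eq_zero.1 h3).resolve_left h2

private theorem ns_sgn {g : Gal(L/K)} {x : L} (h : g (x ^ 2) = x ^ 2) : g x = ns (sgn g x) x := by
  by_cases h1 : g x = x
  · have h3 : sgn g x = 0 := if_pos h1
    rw [h3, ns0, h1]
  · have h3 : sgn g x = 1 := if_neg h1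
    rw [h3, ns1]
    rw [map_pow] at h
    exact (sq_eq_sq_iff_eq_or_eq_neg.1 h).resolve_left h1

private theorem sgn_congr {g : Gal(L/K)} {x y : L} (h : g x = x ↔ g y = y) : sgn g x = sgn g y := by
  by_cases h1 : g y = y
  · have h3 : sgn g x = 0 := if_pos (h.2 h1)
    have h4 : sgn g y = 0 := if_pos h1
    rw [h3, h4]
  · have h3 : sgn g x = 1 := if_neg fun h' => h1 (h.1 h')
    have h4 : sgn g y = 1 := if_neg h1
    rw [h3, h4]

private theorem sgn_sq {g : Gal(L/K)} {x y : L} (h : x ^ 2 = y ^ 2) : sgn g x = sgn g y := by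
  rcases sq_eq_sq_iff_eq_or_eq_neg.1 h with rfl | rfl
  · rfl
  · apply sgn_congr
    rw [map_neg, neg_inj]

private theorem sgn_sqn {g : Gal(L/K)} {ι x y : L} (hι : ι ^ 2 = -1) (hg : g ι = ι)
    (h : x ^ 2 = -(y ^ 2)) : sgn g x = sgn g y := by
  have hi : ι ≠ 0 := by
    rintro rfl
    have h3 : (1 : L) = 0 := by linear_combination hι
    exact one_ne_zero h3
  have h1 : x ^ 2 = (ι * y) ^ 2 := by
    rw [h, mul_pow, hι]
    ring
  rw [sgn_sq h1]
  apply sgn_congr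
  rw [map_mul, hg]
  exact ⟨fun h => mul_left_cancel₀ hi h, fun h => by rw [h]⟩

private theorem act_div {g : Gal(L/K)} {ι x y : L} {b b' : ZMod 2} (hg : g ι = ι)
    (hx : g x = ns b x) (hy : g y = ns b' y) : g (ι * x / y) = ns (b + b') (ι * x / y) := by
  have h0 : ι * ns b x = ns b (ι * x) := by
    have h := ns_mul 0 b ι x
    rwa [ns0, zero_add] at h
  rw [map_div₀, map_mul, hg, hx, hy, h0, ns_div]

private theorem claim (h2 : (2 : L) ≠ 0) {t f : Gal(L/K)} {ι : L} (hι : ι ^ 2 = -1)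
    (ht : t ι = ι) (hf : f ι = ι)
    (hst : ∀ x y : L, x ≠ 0 → y ≠ 0 → x ^ 2 + y ^ 2 = 1 → t (x ^ 2) = x ^ 2 → f (x ^ 2) = x ^ 2 →
      sgn t x * sgn f y + sgn f x * sgn t y = 0)
    {r0 r1 r2 : L} (hr : r0 ^ 2 + r1 ^ 2 + r2 ^ 2 = 0) (hne : r0 ≠ 0 ∨ r1 ≠ 0)
    {u0 u1 u2 w0 w1 w2 : ZMod 2} (hu0 : t r0 = ns u0 r0) (hu1 : t r1 = ns u1 r1)
    (hu2 : t r2 = ns u2 r2) (hw0 : f r0 = ns w0 r0) (hw1 : f r1 = ns w1 r1)
    (hw2 : f r2 = ns w2 r2) :
    (u0 + u2) * (w1 + w2) + (w0 + w2) * (u1 + u2) = 0 := by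
  have hi : ι ≠ 0 := by
    rintro rfl
    have h3 : (1 : L) = 0 := by linear_combination hι
    exact one_ne_zero h3
  by_cases c0 : r0 = 0
  · have c1 : r1 ≠ 0 := hne.resolve_left fun h => h c0
    have c2 : r2 ≠ 0 := by
      rintro rfl
      rw [c0] at hr
      apply c1
      have h : r1 ^ 2 = 0 := by linear_combination hr
      exact pow_eq_zero_iff (two_ne_zero) |>.1 h
    have h1 : r1 ^ 2 = -(r2 ^ 2) := by
      rw [c0] at hr
      linear_combination hr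
    have h3 : u1 = u2 := by
      rw [← sgn_of h2 c1 hu1, ← sgn_of h2 c2 hu2]
      exact sgn_sqn hι ht h1
    have h4 : w1 = w2 := by
      rw [← sgn_of h2 c1 hw1, ← sgn_of h2 c2 hw2]
      exact sgn_sqn hι hf h1
    rw [h3, h4, CharTwo.add_self_eq_zero, CharTwo.add_self_eq_zero, mul_zero, mul_zero, add_zero]
  by_cases c1 : r1 = 0
  · have c2 : r2 ≠ 0 := by
      rintro rfl
      rw [c1] at hr
      apply c0
      have h : r0 ^ 2 = 0 := by linear_combination hr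
      exact pow_eq_zero_iff (two_ne_zero) |>.1 h
    have h1 : r0 ^ 2 = -(r2 ^ 2) := by
      rw [c1] at hr
      linear_combination hr
    have h3 : u0 = u2 := by
      rw [← sgn_of h2 c0 hu0, ← sgn_of h2 c2 hu2]
      exact sgn_sqn hι ht h1
    have h4 : w0 = w2 := by
      rw [← sgn_of h2 c0 hw0, ← sgn_of h2 c2 hw2]
      exact sgn_sqn hι hf h1
    rw [h3, h4, CharTwo.add_self_eq_zero, CharTwo.add_self_eq_zero, zero_mul, zero_mul, add_zero]
  by_cases c2 : r2 = 0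
  · have h1 : r0 ^ 2 = -(r1 ^ 2) := by
      rw [c2] at hr
      linear_combination hr
    have h3 : u0 = u1 := by
      rw [← sgn_of h2 c0 hu0, ← sgn_of h2 c1 hu1]
      exact sgn_sqn hι ht h1
    have h4 : w0 = w1 := by
      rw [← sgn_of h2 c0 hw0, ← sgn_of h2 c1 hw1]
      exact sgn_sqn hι hf h1
    rw [h3, h4, mul_comm (w1 + w2), CharTwo.add_self_eq_zero]
  have x0 : ι * r0 / r2 ≠ 0 := div_ne_zero (mul_ne_zero hi c0) c2
  have y0 : ι * r1 / r2 ≠ 0 := div_ne_zero (mul_ne_zero hi c1) c2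
  have hxy : (ι * r0 / r2) ^ 2 + (ι * r1 / r2) ^ 2 = 1 := by
    field_simp
    linear_combination (r0 ^ 2 + r1 ^ 2) * hι - hr
  have hx1 := act_div ht hu0 hu2
  have hx2 := act_div hf hw0 hw2
  have hy1 := act_div ht hu1 hu2
  have hy2 := act_div hf hw1 hw2
  have h := hst _ _ x0 y0 hxy (by rw [map_pow, hx1, ns_sq]) (by rw [map_pow, hx2, ns_sq])
  rwa [sgn_of h2 x0 hx1, sgn_of h2 x0 hx2, sgn_of h2 y0 hy1, sgn_of h2 y0 hy2] at h

end

/-! ### The curve -/

section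

variable {K : Type} [Field K] {a : Fin 3 → K} {L : Type} [Field L] [Algebra K L]

private theorem rr_neg (hG : C.S_Grp) (hyp : Hyp a L) (P : PA a L) (i : Fin 3) :
    rr (-P) i = - rr P i := by
  obtain ⟨g1, g2, g3, g4, g5, g6, g7, g8, g9⟩ := hG K a L hyp
  rcases g1 P with rfl | ⟨x, y, h⟩
  · have h1 : rr (0 : PA a L) i = 0 := by
      have h : py (0 : PA a L) = 0 := rfl
      unfold rr
      rw [h, zero_div, zero_div, zero_div, add_zero, sub_zero, zero_div]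
    rw [neg_zero, h1, neg_zero]
  · obtain ⟨-, hx, hy, -⟩ := g2 P x y h
    obtain ⟨-, hx', hy', -⟩ := g2 (-P) x (-y) (g5 P x y h)
    unfold rr
    rw [hx, hy, hx', hy']
    ring

private theorem actr (hG : C.S_Grp) (hV : C.S_Vee) (hR : C.S_Rrq) (hA : C.S_Acp) (hyp : Hyp a L)
    (g : Gal(L/K)) (c : ZMod 2) (Q A : NN a L) (hQ : pt Q + pt Q ≠ 0) (h2 : 2 • A = 0)
    (hAQ : A = sg c (g • Q) - Q) (i : Fin 3) :
    g (rr (pt Q) i) = ns (c + e2 (pt A) (ee a i)) (rr (pt Q) i) := by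
  obtain ⟨v1, v2, v3, v4, v5, v6, v7, v8, v9, v10, v11⟩ := hV K a L hyp
  obtain ⟨a1, a2, a3, a4, a5, a6⟩ := hA K a L hyp g
  obtain ⟨r1, r2, r3, r4, r5, r6, r7, r8, r9⟩ := hR K a L hyp (pt Q) hQ
  have s0 : ∀ x : NN a L, sg 0 x = x := fun x => if_pos rfl
  have s1 : ∀ x : NN a L, sg 1 x = -x := fun x => if_neg (by decide)
  have hA' : Q + A = sg c (g • Q) := by rw [hAQ, add_sub_cancel]
  have h3 : g • Q = sg c (Q + A) := by
    rw [hA']
    rcases z2 c with rfl | rfl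
    · rw [s0, s0]
    · rw [s1, s1, neg_neg]
  have h5 : g (rr (pt Q) i) = rr (pt (sg c (Q + A))) i := by
    rw [← h3, pt_smul, a5]
  have h6 : rr (pt (sg c (Q + A))) i = ns c (rr (pt Q + pt A) i) := by
    rcases z2 c with rfl | rfl
    · rw [s0, ns0, pt_add]
    · rw [s1, ns1, pt_neg, pt_add, rr_neg hG hyp]
  have h7 : rr (pt Q + pt A) i = ns (e2 (pt A) (ee a i)) (rr (pt Q) i) := by
    have h8 : pt A + pt A = 0 := by
      rw [← pt_add, ← two_nsmul, h2, pt_zero]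
    rcases (v2 _).1 h8 with h9 | ⟨j, h9⟩
    · rw [h9, v7, v10, ns0, add_zero]
    · rw [h9, v9]
      by_cases hij : j = i
      · subst hij
        rw [if_pos rfl, ns0]
        exact (r9 j).1
      · rw [if_neg hij, ns1]
        rcases fin3 j i hij with rfl | rfl
        · exact (r9 j).2.1
        · exact (r9 j).2.2
  rw [h5, h6, h7, ns_ns]

private theorem e2sum (hV : C.S_Vee) (hyp : Hyp a L) (x : PA a L) (hx : x + x = 0) (i : Fin 3) :
    e2 x (ee a i) = e2 x (ee a (i + 1)) + e2 x (ee a (i + 2)) := by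
  obtain ⟨v1, v2, v3, v4, v5, v6, v7, v8, v9, v10, v11⟩ := hV K a L hyp
  have h1 : ∀ j : Fin 3, (ee a j : PA a L) + ee a j = 0 := fun j => (v2 _).2 (Or.inr ⟨j, rfl⟩)
  have h2 : (ee a (i + 1) : PA a L) + ee a (i + 2) = ee a i := by
    have h := v5 (i + 1)
    rw [(fin3a i).2.2.2] at h
    rw [h]
    rw [fin3b]
  rw [v7 x (ee a i), ← h2, v6 _ _ _ (h1 _) (h1 _) hx, v7 x, v7 x]

private theorem kap (hV : C.S_Vee) (hM : C.S_Msg) (hD : C.S_Dvn) (hyp : Hyp a L) (hqc : QC L)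
    (g : Gal(L/K)) {ι : L} (hι : ι ^ 2 = -1) (hg : g ι = ι) (kg : NN a L)
    (hk : ∀ R : NN a L, 4 • R = 0 → eN (g • R - R) (2 • R) = eN (2 • R) kg) (s : Fin 3 → L)
    (hs : ∀ i, s i ^ 2 = al a L i - al a L (i + 1)) (i : Fin 3) :
    e2 (pt kg) (ee a i) = sgn g (s i) + sgn g (s (i + 2)) := by
  obtain ⟨v1, v2, v3, v4, v5, v6, v7, v8, v9, v10, v11⟩ := hV K a L hyp
  have h1 : ∀ j : Fin 3, (ee a j : PA a L) + ee a j = 0 := fun j => (v2 _).2 (Or.inr ⟨j, rfl⟩)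
  obtain ⟨R, hR⟩ := (hD K a L hyp hqc).2.dvs
    (mkN (ee a i) ⟨1, by rw [pow_one, two_nsmul]; exact h1 i⟩)
  have hR2 : pt R + pt R = ee a i := by
    rw [← pt_add, ← two_nsmul, hR, pt_mkN]
  have hR4 : 4 • R = 0 := by
    apply pt_inj
    have h4 : 4 • R = (R + R) + (R + R) := by abel
    rw [h4, pt_add, pt_add, hR2, h1, pt_zero]
  have h2 := hk R hR4
  have h3 : eN (2 • R) kg = e2 (pt kg) (ee a i) := by
    unfold eN
    rw [v7, hR, pt_mkN]
  have h4 : eN (g • R - R) (2 • R) = e2 (act a g (pt R) - pt R) (ee a i) := by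
    unfold eN
    rw [hR, pt_mkN, pt_sub, pt_smul]
  obtain ⟨m1, m2, -, m4⟩ := hM K a L hyp g (pt R) i (i + 1) (fin3a i).2.1 hR2
  obtain ⟨-, n2, -, n4⟩ := hM K a L hyp g (pt R) i (i + 2) (fin3a i).2.2.1 hR2
  rw [← h3, ← h2, h4, e2sum hV hyp _ m1, m4, n4]
  have h5 : sgn g (rr (pt R) (i + 1)) = sgn g (s i) := sgn_sq (by rw [m2, hs])
  have h6 : sgn g (rr (pt R) (i + 2)) = sgn g (s (i + 2)) := by
    refine sgn_sqn hι hg ?_
    rw [n2, hs, (fin3a i).1]
    ring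
  rw [← h5, ← h6]
  rfl

private theorem e2f (hV : C.S_Vee) (hyp : Hyp a L) (u w : PA a L) (hu : u + u = 0)
    (hw : w + w = 0) :
    e2 u w = e2 u (ee a 0) * e2 w (ee a 1) + e2 u (ee a 1) * e2 w (ee a 0) := by
  obtain ⟨v1, v2, v3, v4, v5, v6, v7, v8, v9, v10, v11⟩ := hV K a L hyp
  have h0 : ∀ x : PA a L, e2 0 x = 0 := fun x => by rw [v7, v10]
  rcases (v2 _).1 hu with rfl | ⟨i, rfl⟩
  · rw [h0, h0, h0, zero_mul, zero_mul, add_zero]
  rcases (v2 _).1 hw with rfl | ⟨j, rfl⟩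
  · rw [h0, h0, v10, mul_zero, mul_zero, add_zero]
  rw [v9, v9, v9, v9, v9]
  have h := fin3c i j
  convert h

end

theorem tQqv : C.S_Grp → C.S_Vee → C.S_Rrq → C.S_Acp → C.S_Msg → C.S_Dvn → S_Stb → S_Qqv := by
  intro hG hV hR hA hM hD hS K _ a L _ _ k _ t f q ν res hyp hqc hio hplc hq4 kt kf hkt hkf hkt2 hkf2
    c d p hp
  obtain ⟨ι, hι⟩ := hio
  have hι2 : (algebraMap K L ι) ^ 2 = -1 := by
    rw [← map_pow, hι, map_neg, map_one]
  have hti : t (algebraMap K L ι) = algebraMap K L ι := t.commutes ι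
  have hfi : f (algebraMap K L ι) = algebraMap K L ι := f.commutes ι
  have hst : ∀ x y : L, x ≠ 0 → y ≠ 0 → x ^ 2 + y ^ 2 = 1 → t (x ^ 2) = x ^ 2 →
      f (x ^ 2) = x ^ 2 → sgn t x * sgn f y + sgn f x * sgn t y = 0 :=
    hS K L k t f q ν res hplc hq4 (algebraMap K L ι) hι2 hti hfi
  obtain ⟨v1, v2, v3, v4, v5, v6, v7, v8, v9, v10, v11⟩ := hV K a L hyp
  have h0 : ∀ x : PA a L, e2 0 x = 0 := fun x => by rw [v7, v10]
  obtain ⟨hp1, hp2, Q, hQ1, hQ2⟩ := hp
  have hA2 : pt p.1 + pt p.1 = 0 := by rw [← pt_add, ← two_nsmul, hp1, pt_zero]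
  have hB2 : pt p.2 + pt p.2 = 0 := by rw [← pt_add, ← two_nsmul, hp2, pt_zero]
  have hkt0 : pt kt + pt kt = 0 := by rw [← pt_add, ← two_nsmul, hkt, pt_zero]
  have hkf0 : pt kf + pt kf = 0 := by rw [← pt_add, ← two_nsmul, hkf, pt_zero]
  by_cases hQ : pt Q + pt Q = 0
  · have hz : ∀ (g : Gal(L/K)) (b : ZMod 2), sg b (g • Q) - Q = 0 := by
      intro g b
      have h1 : g • Q = Q := pt_inj (by rw [pt_smul, (hA K a L hyp g).2.2.2.2.2 _ hQ])
      have h2 : sg b Q = Q := by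
        unfold sg
        split_ifs with h
        · rfl
        · apply pt_inj
          rw [pt_neg]
          exact neg_eq_of_add_eq_zero_left hQ
      rw [h1, h2, sub_self]
    have h1 : p.1 = 0 := by rw [hQ1, hz]
    have h2 : p.2 = 0 := by rw [hQ2, hz]
    unfold eN
    rw [h1, h2, pt_zero, h0, h0, h0, add_zero, add_zero]
  choose s hs using fun i : Fin 3 => hqc (al a L i - al a L (i + 1))
  have hal : ∀ i j : Fin 3, i ≠ j → al a L i ≠ al a L j := fun i j hij h =>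
    hij (hyp.2 ((algebraMap K L).injective h))
  have hs0 : ∀ i, s i ≠ 0 := by
    intro i h
    have h1 := hs i
    rw [h] at h1
    apply hal i (i + 1) (fin3a i).2.1
    linear_combination -h1
  have hgs : ∀ (g : Gal(L/K)) (i : Fin 3), g (s i) = ns (sgn g (s i)) (s i) := by
    intro g i
    apply ns_sgn
    rw [hs]
    unfold al
    rw [map_sub, g.commutes, g.commutes]
  obtain ⟨r1, r2, r3, r4, r5, r6, r7, r8, r9⟩ := hR K a L hyp (pt Q) hQ
  have hrt := actr hG hV hR hA hyp t c Q p.1 hQ hp1 hQ1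
  have hrf := actr hG hV hR hA hyp f d Q p.2 hQ hp2 hQ2
  have hpt : ∀ i, t (s (i + 1) * rr (pt Q) i) =
      ns (sgn t (s (i + 1)) + (c + e2 (pt p.1) (ee a i))) (s (i + 1) * rr (pt Q) i) := by
    intro i
    rw [map_mul, hgs, hrt, ns_mul]
  have hpf : ∀ i, f (s (i + 1) * rr (pt Q) i) =
      ns (sgn f (s (i + 1)) + (d + e2 (pt p.2) (ee a i))) (s (i + 1) * rr (pt Q) i) := by
    intro i
    rw [map_mul, hgs, hrf, ns_mul]
  have e01 : (0 : Fin 3) + 1 = 1 := rfl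
  have e11 : (1 : Fin 3) + 1 = 2 := rfl
  have e21 : (2 : Fin 3) + 1 = 0 := rfl
  have e02 : (0 : Fin 3) + 2 = 2 := rfl
  have e12 : (1 : Fin 3) + 2 = 0 := rfl
  have e22 : (2 : Fin 3) + 2 = 1 := rfl
  have hs_0 := hs 0
  have hs_1 := hs 1
  have hs_2 := hs 2
  rw [e01] at hs_0
  rw [e11] at hs_1
  rw [e21] at hs_2
  have hsum : (s (0 + 1) * rr (pt Q) 0) ^ 2 + (s (1 + 1) * rr (pt Q) 1) ^ 2 +
      (s (2 + 1) * rr (pt Q) 2) ^ 2 = 0 := by
    rw [e01, e11, e21, mul_pow, mul_pow, mul_pow, r3, r3, r3, hs_0, hs_1, hs_2]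
    ring
  have hne : s (0 + 1) * rr (pt Q) 0 ≠ 0 ∨ s (1 + 1) * rr (pt Q) 1 ≠ 0 := by
    by_contra hcon
    rw [not_or, not_not, not_not] at hcon
    have h1 : rr (pt Q) 0 = 0 := (mul_eq_zero.1 hcon.1).resolve_left (hs0 _)
    have h2 : rr (pt Q) 1 = 0 := (mul_eq_zero.1 hcon.2).resolve_left (hs0 _)
    have h3 := r3 0
    have h4 := r3 1
    rw [h1] at h3
    rw [h2] at h4
    apply hal 0 1 (by decide)
    linear_combination h3 - h4
  have C1 := claim hyp.1 hι2 hti hfi hst hsum hne (hpt 0) (hpt 1) (hpt 2) (hpf 0) (hpf 1) (hpf 2)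
  have C2 := claim hyp.1 hι2 hti hfi hst (r0 := s 1) (r1 := s 2) (r2 := s 0)
    (by rw [hs_0, hs_1, hs_2]; ring) (Or.inl (hs0 1)) (hgs t 1) (hgs t 2) (hgs t 0) (hgs f 1)
    (hgs f 2) (hgs f 0)
  have k1 := kap hV hM hD hyp hqc t hι2 hti kt hkt2 s hs
  have k2 := kap hV hM hD hyp hqc f hι2 hfi kf hkf2 s hs
  have k10 := k1 0
  have k11 := k1 1
  have k20 := k2 0
  have k21 := k2 1
  rw [e02] at k10 k20
  rw [e12] at k11 k21
  have A2 := e2sum hV hyp _ hA2 2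
  have B2 := e2sum hV hyp _ hB2 2
  rw [e21, e22] at A2 B2
  rw [e01, e11, e21, A2, B2] at C1
  unfold eN
  rw [e2f hV hyp _ _ hA2 hB2, e2f hV hyp _ _ hA2 hkf0, e2f hV hyp _ _ hB2 hkt0, k10, k11, k20, k21]
  generalize e2 (pt p.1) (ee a 0) = A0 at *
  generalize e2 (pt p.1) (ee a 1) = A1 at *
  generalize e2 (pt p.2) (ee a 0) = B0 at *
  generalize e2 (pt p.2) (ee a 1) = B1 at *
  generalize sgn t (s 0) = t0 at *
  generalize sgn t (s 1) = t1 at *
  generalize sgn t (s 2) = t2 at *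
  generalize sgn f (s 0) = f0 at *
  generalize sgn f (s 1) = f1 at *
  generalize sgn f (s 2) = f2 at *
  have two : (2 : ZMod 2) = 0 := by decide
  linear_combination (norm := skip) C1 + C2
  ring_nf
  reduce_mod_char

end Pool.Agent.MP72B.Par
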