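import Pool.Agent.Lib.MP_72e2e6_nt.Sm.B.SpecQ

/-! # MP_72e2e6_nt, `Sm/B`: reciprocity for the quadratic forms -/

namespace Pool.Agent.MP72B.Par

open Finset Pool.Agent.MP72S

open Pool.Agent.MP72W (XY px py)

open Pool.Agent.MP72S.C

open scoped Classical

private theorem rcq_fin {G N P : Type} [Group G] [TopologicalSpace G] [AddCommGroup N]
    [DistribMulAction G N] {D : Dat G N P} (hD : Ax D) {f : G → ZMod 2} (hf : IsCh f) :
    {v | f (D.tau v) ≠ 0}.Finite := by
  have h1 : f 1 = 0 := by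
    have := hf.mul 1 1
    rw [mul_one] at this
    exact left_eq_add.mp this
  let U : Subgroup G :=
    { carrier := {σ | f σ = 0}
      one_mem' := h1
      mul_mem' := by
        intro a b ha hb
        show f (a * b) = 0
        rw [hf.mul, show f a = 0 from ha, show f b = 0 from hb, add_zero]
      inv_mem' := by
        intro a ha
        show f a⁻¹ = 0
        have := hf.mul a⁻¹ a
        rw [inv_mul_cancel, h1, show f a = 0 from ha, add_zero] at this
        exact this.symm }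
  have hU : IsOpen (U : Set G) := hf.lc.isOpen_fiber 0
  exact hD.fin U hU

private theorem rcq_sup {G N P : Type} [Group G] [TopologicalSpace G] [AddCommGroup N]
    [DistribMulAction G N] {D : Dat G N P} (hD : Ax D) {f g : G → ZMod 2} (hf : IsCh f)
    (hg : IsCh g) :
    (Function.support fun v => f (D.tau v) * g (D.phi v) + f (D.phi v) * g (D.tau v)).Finite := by
  refine ((rcq_fin hD hf).union (rcq_fin hD hg)).subset fun v hv => ?_
  by_contra hnot
  simp only [Set.mem_union, Set.mem_ofPred_eq, not_or, not_not] at hnot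
  apply hv
  show f (D.tau v) * g (D.phi v) + f (D.phi v) * g (D.tau v) = 0
  rw [hnot.1, hnot.2, zero_mul, mul_zero, add_zero]

/-- Reciprocity for the quadratic forms. -/
theorem tRcq : MP72S.S_Bas → MP72S.S_Rcv → S_Rcq := by
  intro hBas _ G N P _ _ _ _ D hD ψ k A hψ hk hA
  obtain ⟨⟨T₁, T₂, hT1, hT2, -, -, hf⟩, -, -⟩ := hBas D hD
  have hch : ∀ (θ : G → N) (T : N), IsHo θ → 2 • T = 0 → IsCh fun σ => D.e (θ σ) T := by
    intro θ T hθ hT
    refine ⟨hθ.lc.comp (fun a => D.e a T), fun σ τ => ?_⟩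
    show D.e (θ (σ * τ)) T = _
    rw [hθ.mul, hD.e_add _ _ _ (hθ.two σ) (hθ.two τ) hT]
  have c1 := hch ψ T₂ hψ hT2
  have c2 := hch k T₁ hk hT1
  have c3 := hch ψ T₁ hψ hT1
  have c4 := hch k T₂ hk hT2
  have r1 := hD.rcp _ _ c1 c2
  have r2 := hD.rcp _ _ c3 c4
  have r3 := hD.rcp _ _ c1 c3
  have hq : ∀ v, qf D k v (ψ (D.tau v), ψ (D.phi v)) =
      (D.e (ψ (D.tau v)) T₂ * D.e (ψ (D.phi v)) T₁ + D.e (ψ (D.phi v)) T₂ * D.e (ψ (D.tau v)) T₁) +
      ((D.e (ψ (D.tau v)) T₂ * D.e (k (D.phi v)) T₁ + D.e (ψ (D.phi v)) T₂ * D.e (k (D.tau v)) T₁) +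
      (D.e (ψ (D.tau v)) T₁ * D.e (k (D.phi v)) T₂ +
        D.e (ψ (D.phi v)) T₁ * D.e (k (D.tau v)) T₂)) := by
    intro v
    unfold qf
    rw [hf _ _ (hψ.two _) (hk.two _), hf _ _ (hψ.two _) (hk.two _), hf _ _ (hψ.two _) (hψ.two _)]
    ring
  have hsum : ∑ v ∈ A, qf D k v (ψ (D.tau v), ψ (D.phi v)) =
      ∑ᶠ v, qf D k v (ψ (D.tau v), ψ (D.phi v)) := by
    rw [finsum_eq_sum_of_support_subset]
    intro v hv
    by_contra h
    exact hv (hA v h)
  have s1 := rcq_sup hD c1 c2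
  have s2 := rcq_sup hD c3 c4
  have s3 := rcq_sup hD c1 c3
  have s4 : (Function.support fun v =>
      ((D.e (ψ (D.tau v)) T₂ * D.e (k (D.phi v)) T₁ + D.e (ψ (D.phi v)) T₂ * D.e (k (D.tau v)) T₁) +
      (D.e (ψ (D.tau v)) T₁ * D.e (k (D.phi v)) T₂ +
        D.e (ψ (D.phi v)) T₁ * D.e (k (D.tau v)) T₂))).Finite :=
    (s1.union s2).subset (Function.support_add _ _)
  rw [hsum, finsum_congr hq, finsum_add_distrib s3 s4, finsum_add_distrib s1 s2, r1, r2, r3,
    add_zero, add_zero]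

end Pool.Agent.MP72B.Par
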