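import Pool.Agent.Lib.MP_72e2e6_nt.Sm.B.SpecQ

/-!
# MP_72e2e6_nt, `Sm/B`, module QStb: the Steinberg relation
-/

namespace Pool.Agent.MP72B.Par

open Finset Pool.Agent.MP72S

open Pool.Agent.MP72W (XY px py)

open Pool.Agent.MP72S.C

open scoped Classical

private theorem stb_or {K L : Type} [Field K] [Field L] [Algebra K L] (g : Gal(L/K)) {x : L}
    (h : g (x ^ 2) = x ^ 2) : g x = x ∨ g x = -x := by
  rw [map_pow] at h
  exact sq_eq_sq_iff_eq_or_eq_neg.1 h

private theorem stb_zero {K L : Type} [Field K] [Field L] [Algebra K L] {g : Gal(L/K)} {x : L}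
    (h : g x = x) : sgn g x = 0 := if_pos h

private theorem stb_cl (hPpr : S_Ppr) (K : Type) [Field K] (L : Type) [Field L] [Algebra K L]
    (k : Type) [Field k] (t f : Gal(L/K)) (q : ℕ) (ν : L → WithTop ℚ) (res : L → k)
    (h : Plc t f q ν res) (hq : q % 4 = 1) {u w : L} (hu : 0 < ν u) (huw : u ^ 2 + w ^ 2 = 1)
    (ht : t w = w ∨ t w = -w) (hf : f w = w ∨ f w = -w) : t w = w ∧ f w = w := by
  obtain ⟨p1, p2, p3, p4, p5, p6, p7, p8, p9, p10, p11, p12, p13, p14, p15⟩ :=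
    hPpr K L k t f q ν res h
  have hu2 : 0 < ν (u ^ 2) := by
    rw [pow_two, h.mul]
    exact hu.trans_le (le_add_of_nonneg_right hu.le)
  have hw2 : ν (w ^ 2) = 0 := by
    have h1 : w ^ 2 = 1 - u ^ 2 := by rw [← huw]; ring
    rw [h1, (p6 1 (u ^ 2) (by rw [p1]; exact hu2)).2.1, p1]
  have hw : ν w = 0 := p13 w hw2
  have hr : res w ^ 2 = 1 := by
    have h1 := h.radd (u ^ 2) (w ^ 2) hu2.le hw2.ge
    rw [huw, h.r1, (h.r0 _ hu2.le).2 hu2, zero_add, pow_two w, h.rmul w w hw.ge hw.ge,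
      ← pow_two] at h1
    exact h1.symm
  have hr0 : res w ≠ 0 := (p9 w hw).2
  have hneg : res (-w) ≠ res w := by
    rw [p8 w hw.ge]
    intro h2
    have h3 : 2 * res w = 0 := by
      have h4 : res w + res w = 0 := by
        nth_rewrite 1 [← h2]
        exact neg_add_cancel _
      rw [two_mul]
      exact h4
    rcases mul_eq_zero.1 h3 with h4 | h4
    · exact p11 h4
    · exact hr0 h4
  constructor
  · rcases ht with h1 | h1
    · exact h1
    · have h2 := h.rt w hw.ge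
      rw [h1] at h2
      exact absurd h2 hneg
  · rcases hf with h1 | h1
    · exact h1
    · have h2 := h.rf w hw.ge
      have h3 : res w ^ q = res w := by
        have h4 : q = 2 * (q / 2) + 1 := by omega
        rw [h4, pow_succ, pow_mul, hr, one_pow, one_mul]
      rw [h1, h3] at h2
      exact absurd h2 hneg

private theorem stb_neg (hPpr : S_Ppr) (K : Type) [Field K] (L : Type) [Field L] [Algebra K L]
    (k : Type) [Field k] (t f : Gal(L/K)) (q : ℕ) (ν : L → WithTop ℚ) (res : L → k)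
    (h : Plc t f q ν res) (hq : q % 4 = 1) {ι x y : L} (hi : ι ^ 2 = -1) (hti : t ι = ι)
    (hfi : f ι = ι) (hx : x ≠ 0) (hy : y ≠ 0) (hxy : x ^ 2 + y ^ 2 = 1)
    (htx : t x = x ∨ t x = -x) (hfx : f x = x ∨ f x = -x) (hty : t y = y ∨ t y = -y)
    (hfy : f y = y ∨ f y = -y) (hn : ν x < 0) :
    sgn t x * sgn f y + sgn f x * sgn t y = 0 := by
  have p1 := (hPpr K L k t f q ν res h).1
  have h2 : (2 : L) ≠ 0 := fun h0 => by
    have := h.two
    rw [h0, (h.top 0).2 rfl] at this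
    exact absurd this (by simp)
  have hi0 : ι ≠ 0 := fun h0 => by
    rw [h0] at hi
    norm_num at hi
  have hu : 0 < ν x⁻¹ := by
    have h3 := h.mul x x⁻¹
    rw [mul_inv_cancel₀ hx, p1] at h3
    have h4 : ν x ≠ ⊤ := fun h0 => hx ((h.top x).1 h0)
    have h5 : ν x⁻¹ ≠ ⊤ := fun h0 => inv_ne_zero hx ((h.top _).1 h0)
    obtain ⟨a, ha⟩ := WithTop.ne_top_iff_exists.1 h4
    obtain ⟨b, hb⟩ := WithTop.ne_top_iff_exists.1 h5
    rw [← ha, ← hb] at h3
    rw [← hb]
    rw [← ha] at hn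
    norm_cast at h3 hn ⊢
    have h6 : 0 = a + b := by exact_mod_cast h3
    have h7 : a < 0 := by exact_mod_cast hn
    linarith
  have key : ∀ g : Gal(L/K), g ι = ι → (g x = x ∨ g x = -x) → (g y = y ∨ g y = -y) →
      (g (ι * y * x⁻¹) = ι * y * x⁻¹ ∨ g (ι * y * x⁻¹) = -(ι * y * x⁻¹)) := by
    intro g hgi hgx hgy
    rw [map_mul, map_mul, map_inv₀, hgi]
    rcases hgx with h1 | h1 <;> rcases hgy with h2 | h2 <;> rw [h1, h2]
    · exact Or.inl rfl
    · right
      ring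
    · right
      rw [inv_neg]
      ring
    · left
      rw [inv_neg]
      ring
  have huw : (x⁻¹) ^ 2 + (ι * y * x⁻¹) ^ 2 = 1 := by
    have h3 : (x⁻¹) ^ 2 + (ι * y * x⁻¹) ^ 2 = (1 + ι ^ 2 * y ^ 2) * (x ^ 2)⁻¹ := by
      rw [← inv_pow]
      ring
    have h4 : 1 + -1 * y ^ 2 = x ^ 2 := by linear_combination -hxy
    rw [h3, hi, h4]
    exact mul_inv_cancel₀ (pow_ne_zero 2 hx)
  obtain ⟨c1, c2⟩ := stb_cl hPpr K L k t f q ν res h hq hu huw (key t hti htx hty)
    (key f hfi hfx hfy)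
  have key2 : ∀ g : Gal(L/K), g ι = ι → (g x = x ∨ g x = -x) → (g y = y ∨ g y = -y) →
      g (ι * y * x⁻¹) = ι * y * x⁻¹ → sgn g x = sgn g y := by
    intro g hgi hgx hgy hg
    rw [map_mul, map_mul, map_inv₀, hgi] at hg
    have hne : ∀ z : L, z ≠ 0 → -z ≠ z := by
      intro z hz h0
      have h3 : 2 * z = 0 := by
        rw [two_mul]
        nth_rewrite 1 [← h0]
        exact neg_add_cancel _
      rcases mul_eq_zero.1 h3 with h4 | h4
      · exact h2 h4
      · exact hz h4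
    have hw0 : ι * y * x⁻¹ ≠ 0 := mul_ne_zero (mul_ne_zero hi0 hy) (inv_ne_zero hx)
    rcases hgx with h1 | h1 <;> rcases hgy with h3 | h3
    · rw [stb_zero h1, stb_zero h3]
    · rw [h1, h3] at hg
      have h4 : ι * -y * x⁻¹ = -(ι * y * x⁻¹) := by ring
      rw [h4] at hg
      exact absurd hg (hne _ hw0)
    · rw [h1, h3, inv_neg] at hg
      have h4 : ι * y * -x⁻¹ = -(ι * y * x⁻¹) := by ring
      rw [h4] at hg
      exact absurd hg (hne _ hw0)
    · unfold sgn
      rw [h1, h3, if_neg (hne x hx), if_neg (hne y hy)]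
  rw [key2 t hti htx hty c1, key2 f hfi hfx hfy c2, mul_comm]
  exact CharTwo.add_self_eq_zero _

theorem tStb : S_Ppr → S_Stb := by
  intro hPpr K _ L _ _ k _ t f q ν res h hq ι hi hti hfi x y hx hy hxy htx2 hfx2
  have hy2 : y ^ 2 = 1 - x ^ 2 := by rw [← hxy]; ring
  have hty2 : t (y ^ 2) = y ^ 2 := by rw [hy2, map_sub, map_one, htx2]
  have hfy2 : f (y ^ 2) = y ^ 2 := by rw [hy2, map_sub, map_one, hfx2]
  have htx := stb_or t htx2
  have hfx := stb_or f hfx2
  have hty := stb_or t hty2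
  have hfy := stb_or f hfy2
  have hyx : y ^ 2 + x ^ 2 = 1 := by rw [add_comm]; exact hxy
  rcases lt_trichotomy (ν x) 0 with h1 | h1 | h1
  · exact stb_neg hPpr K L k t f q ν res h hq hi hti hfi hx hy hxy htx hfx hty hfy h1
  · rcases lt_trichotomy (ν y) 0 with h2 | h2 | h2
    · have := stb_neg hPpr K L k t f q ν res h hq hi hti hfi hy hx hyx hty hfy htx hfx h2
      rw [← this]
      ring
    · have h0 : ∀ z : L, ν z = 0 → ν (z ^ 2) = (((0 : ℤ) : ℚ) : WithTop ℚ) := by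
        intro z hz
        rw [pow_two, h.mul, hz]
        simp
      have h3 : t x = x := by
        rw [h.sq (x ^ 2) x rfl htx2 0 (h0 x h1), if_pos (by decide)]
      have h4 : t y = y := by
        rw [h.sq (y ^ 2) y rfl hty2 0 (h0 y h2), if_pos (by decide)]
      rw [stb_zero h3, stb_zero h4, zero_mul, mul_zero, add_zero]
    · obtain ⟨c1, c2⟩ := stb_cl hPpr K L k t f q ν res h hq h2 hyx htx hfx
      rw [stb_zero c1, stb_zero c2, zero_mul, zero_mul, add_zero]
  · obtain ⟨c1, c2⟩ := stb_cl hPpr K L k t f q ν res h hq h1 hxy hty hfy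
    rw [stb_zero c1, stb_zero c2, mul_zero, mul_zero, add_zero]

end Pool.Agent.MP72B.Par
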