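import Pool.Agent.Lib.MP_72e2e6_nt.Sm.B.SpecQ

/-!
# MP_72e2e6_nt, `Sm/B`: module Ths (the parametrization of the nonsingular points of the
reduction and the action of the Frobenius element with its sign)

The proof is the one of `Sm/C/Tht.lean`.
-/

set_option autoImplicit false

namespace Pool.Agent.MP72B.Par

open Finset WeierstrassCurve Pool.Agent.MP72W Pool.Agent.MP72S Pool.Agent.MP72S.C

open scoped Classical

namespace Ths

section

variable {K : Type} [Field K] {a : Fin 3 → K} {L : Type} [Field L] [Algebra K L]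
  {k : Type} [Field k]

/-- The coordinate of the reduction. -/
private noncomputable def zz (res : L → k) (P : PA a L) : k :=
  res (py P) / res (px P - al a L 0)

/-- The parametrization. -/
private noncomputable def th (res : L → k) (κ : k) (P : PA a L) : k :=
  if P = 0 then 1 else (zz res P - κ) / (zz res P + κ)

end

private theorem alg {k : Type} [Field k] {z w κ u l : k} (hu : u * (z + w) = κ ^ 2 + z * w)
    (hl : l = z + w - u) :
    l ^ 2 + κ ^ 2 - z ^ 2 - w ^ 2 = u ^ 2 - κ ^ 2 ∧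
    l * ((z ^ 2 - κ ^ 2) - (u ^ 2 - κ ^ 2)) - z * (z ^ 2 - κ ^ 2) = u * (u ^ 2 - κ ^ 2) ∧
    (u - κ) * (z + w) = (z - κ) * (w - κ) ∧ (u + κ) * (z + w) = (z + κ) * (w + κ) := by
  subst hl
  refine ⟨?_, ?_, ?_, ?_⟩
  · linear_combination (-2) * hu
  · linear_combination (-(z + u)) * hu
  · linear_combination hu
  · linear_combination hu

end Ths

open Ths in
theorem tThs (h1 : C.S_Grp) (h2 : C.S_Vee) (h3 : C.S_Acp) (h4 : C.S_Ppr) (h5 : C.S_Int)
    (h6 : C.S_Usg) : S_Ths := by
  intro K _ a L _ _ k _ t f q ν res hyp _hQC hp hm hdd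
  obtain ⟨g1, g2, g3, g4, g5, g6, g7, g8, g9⟩ := h1 K a L hyp
  obtain ⟨v1, v2, v3, -⟩ := h2 K a L hyp
  obtain ⟨p1, p2, p3, p4, p5, p6, p7, p8, p9, p10, p11, p12, p13, p14, p15⟩ :=
    h4 K L k t f q ν res hp
  obtain ⟨u1, u2, u3, u4, u5, u6, u7⟩ := h6 K a L k t f q ν res hyp hp hm
  have hν0 : ν 0 = ⊤ := (hp.top 0).2 rfl
  have rsub : ∀ x y, 0 ≤ ν x → 0 ≤ ν y → res (x - y) = res x - res y := by
    intro x y hx hy
    rw [sub_eq_add_neg, hp.radd x (-y) hx (by rw [p2]; exact hy), p8 y hy, ← sub_eq_add_neg]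
  have i01 : 0 ≤ ν (al a L 0 - al a L 1) := hm.h01.le
  have i02 : 0 ≤ ν (al a L 0 - al a L 2) := by rw [hm.h02]
  have i12 : 0 ≤ ν (al a L 1 - al a L 2) := by
    have := (p5 _ _ i02 i01).2.1
    have e : al a L 0 - al a L 2 - (al a L 0 - al a L 1) = al a L 1 - al a L 2 := by ring
    rwa [e] at this
  have hint : ∀ i j, 0 ≤ ν (al a L i - al a L j) := by
    intro i j
    have hs : ∀ i : Fin 3, 0 ≤ ν (al a L i - al a L i) := by
      intro i; rw [sub_self, hν0]; exact le_top
    have hc : ∀ i j : Fin 3, 0 ≤ ν (al a L i - al a L j) → 0 ≤ ν (al a L j - al a L i) := by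
      intro i j h
      rw [← neg_sub, p2]; exact h
    fin_cases i <;> fin_cases j
    · exact hs 0
    · exact i01
    · exact i02
    · exact hc 0 1 i01
    · exact hs 1
    · exact i12
    · exact hc 0 2 i02
    · exact hc 1 2 i12
    · exact hs 2
  obtain ⟨d, hd, hfd⟩ := hdd
  have hνd : ν d = 0 := p13 d (by rw [hd]; exact hm.h02)
  obtain ⟨κ, hκd⟩ : ∃ κ, κ = res d := ⟨_, rfl⟩
  have hκ : κ ≠ 0 := by rw [hκd]; exact (p9 d hνd).2
  have hκ2 : res (al a L 0 - al a L 2) = κ ^ 2 := by
    rw [← hd, pow_two, hp.rmul d d hνd.ge hνd.ge, pow_two, hκd]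
  have r01 : res (al a L 0 - al a L 1) = 0 := (hp.r0 _ i01).2 hm.h01
  have h2κ : 2 * κ ≠ 0 := mul_ne_zero p11 hκ
  -- basic facts
  have fact : ∀ P : PA a L, Us a ν P → P ≠ 0 →
      ν (px P - al a L 0) = 0 ∧ 0 ≤ ν (py P) ∧ res (px P - al a L 0) ≠ 0 ∧
      res (px P - al a L 0) = zz res P ^ 2 - κ ^ 2 ∧
      res (py P) = zz res P * (zz res P ^ 2 - κ ^ 2) ∧ zz res P - κ ≠ 0 ∧ zz res P + κ ≠ 0 := by
    intro P hU hP
    obtain ⟨hn, hz⟩ := hU
    have e0 : ν (px P - al a L 0) = 0 := by
      rcases hz with hz | hz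
      · exact absurd hz hP
      · exact hz
    obtain ⟨e1, e2⟩ := h5 K a L k t f q ν res hyp hp hint P hn hP
    have hX : res (px P - al a L 0) ≠ 0 := (p9 _ e0).2
    have heq : py P ^ 2 = (px P - al a L 0) * (px P - al a L 1) * (px P - al a L 2) := by
      rcases g1 P with h | ⟨x, y, h⟩
      · exact absurd h hP
      · obtain ⟨-, hx, hy, h⟩ := g2 P x y h
        rw [hx, hy, h]
    have e3 : res (px P - al a L 1) = res (px P - al a L 0) := by
      have : px P - al a L 1 = (px P - al a L 0) + (al a L 0 - al a L 1) := by ring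
      rw [this, hp.radd _ _ (e1 0) i01, r01, add_zero]
    have e4 : res (px P - al a L 2) = res (px P - al a L 0) + κ ^ 2 := by
      have : px P - al a L 2 = (px P - al a L 0) + (al a L 0 - al a L 2) := by ring
      rw [this, hp.radd _ _ (e1 0) i02, hκ2]
    have e5 : res (py P) ^ 2 = res (px P - al a L 0) * res (px P - al a L 0) *
        (res (px P - al a L 0) + κ ^ 2) := by
      rw [pow_two, ← hp.rmul _ _ e2 e2, ← pow_two, heq,
        hp.rmul _ _ (p5 _ _ (e1 0) (e1 1)).2.2 (e1 2), hp.rmul _ _ (e1 0) (e1 1), e3, e4]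
    have e6 : zz res P * res (px P - al a L 0) = res (py P) := by
      rw [zz, div_mul_cancel₀ _ hX]
    have e7 : res (px P - al a L 0) = zz res P ^ 2 - κ ^ 2 := by
      have h8 : res (px P - al a L 0) ^ 2 * (zz res P ^ 2 - κ ^ 2 - res (px P - al a L 0)) = 0 := by
        rw [← e6] at e5
        linear_combination e5
      rcases mul_eq_zero.1 h8 with h9 | h9
      · exact absurd (pow_eq_zero_iff (two_ne_zero)|>.1 h9) hX
      · linear_combination -h9
    have e8 : (zz res P - κ) * (zz res P + κ) ≠ 0 := by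
      intro h
      apply hX
      rw [e7]
      linear_combination h
    refine ⟨e0, e2, hX, e7, ?_, (mul_ne_zero_iff.1 e8).1, (mul_ne_zero_iff.1 e8).2⟩
    rw [← e7]
    exact e6.symm
  have conv : ∀ (R : PA a L) (u : k), res (px R - al a L 0) = u ^ 2 - κ ^ 2 →
      res (px R - al a L 0) ≠ 0 → res (py R) = u * (u ^ 2 - κ ^ 2) → zz res R = u := by
    intro R u e1 e2 e3
    rw [zz, e3, e1, mul_div_cancel_right₀]
    rw [← e1]; exact e2
  have th0 : th res κ (0 : PA a L) = 1 := by rw [th, if_pos rfl]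
  have thn : ∀ P : PA a L, P ≠ 0 → th res κ P = (zz res P - κ) / (zz res P + κ) := by
    intro P hP
    rw [th, if_neg hP]
  have thne : ∀ P : PA a L, Us a ν P → th res κ P ≠ 0 := by
    intro P hU
    by_cases hP : P = 0
    · rw [hP, th0]; exact one_ne_zero
    · obtain ⟨-, -, -, -, -, h8, h9⟩ := fact P hU hP
      rw [thn P hP]
      exact div_ne_zero h8 h9
  -- negation
  have thneg : ∀ P : PA a L, Us a ν P → th res κ P * th res κ (-P) = 1 := by
    intro P hU
    by_cases hP : P = 0
    · rw [hP, neg_zero, th0, one_mul]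
    · have hP' : -P ≠ 0 := neg_ne_zero.2 hP
      obtain ⟨f0, f1, -, -, -, h8, h9⟩ := fact P hU hP
      obtain ⟨x, y, hxy⟩ : ∃ x y, XY P x y := by
        rcases g1 P with h | h
        · exact absurd h hP
        · exact h
      obtain ⟨-, hx, hy, -⟩ := g2 P x y hxy
      obtain ⟨-, hx', hy', -⟩ := g2 (-P) x (-y) (g5 P x y hxy)
      have e1 : zz res (-P) = - zz res P := by
        rw [zz, zz, hx', hy', hx, hy, p8 y (by rw [← hy]; exact f1), neg_div]
      rw [thn P hP, thn _ hP', e1]
      have h10 : -zz res P + κ ≠ 0 := by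
        intro h
        apply h8
        linear_combination -h
      field_simp
      ring
  -- the addition step
  have step : ∀ (P Q R : PA a L) (l X' : L), Us a ν P → P ≠ 0 → Us a ν Q → Q ≠ 0 → Us a ν R →
      XY R X' (l * (px P - X') - py P) →
      X' = l ^ 2 + (al a L 0 + al a L 1 + al a L 2) - px P - px Q → 0 ≤ ν l →
      zz res P + zz res Q ≠ 0 →
      res l * (zz res P + zz res Q) = zz res P ^ 2 + zz res P * zz res Q + zz res Q ^ 2 - κ ^ 2 →
      th res κ R = th res κ P * th res κ Q := by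
    intro P Q R l X' hUP hP hUQ hQ hUR hXY hX' hl hzw hrl
    obtain ⟨hR, hRx, hRy, -⟩ := g2 R _ _ hXY
    obtain ⟨a0, a1, a2, a3, a4, a5, a6⟩ := fact P hUP hP
    obtain ⟨b0, b1, b2, b3, b4, b5, b6⟩ := fact Q hUQ hQ
    obtain ⟨c0, c1, c2, c3, c4, c5, c6⟩ := fact R hUR hR
    obtain ⟨z, hz⟩ : ∃ z, z = zz res P := ⟨_, rfl⟩
    obtain ⟨w, hw⟩ : ∃ w, w = zz res Q := ⟨_, rfl⟩
    rw [← hz] at a3 a4 a5 a6 hzw hrl
    rw [← hw] at b3 b4 b5 b6 hzw hrl
    obtain ⟨u, hu⟩ : ∃ u : k, u = (κ ^ 2 + z * w) / (z + w) := ⟨_, rfl⟩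
    have hu1 : u * (z + w) = κ ^ 2 + z * w := by rw [hu, div_mul_cancel₀ _ hzw]
    have hl1 : res l = z + w - u := by
      have : (res l - (z + w - u)) * (z + w) = 0 := by linear_combination hrl + hu1
      rcases mul_eq_zero.1 this with h | h
      · linear_combination h
      · exact absurd h hzw
    obtain ⟨k1, k2, k3, k4⟩ := alg hu1 hl1
    have hll : 0 ≤ ν (l * l) := (p5 _ _ hl hl).2.2
    have eX : res (X' - al a L 0) = u ^ 2 - κ ^ 2 := by
      have e1 : X' - al a L 0 = l * l - (px P - al a L 0) - (px Q - al a L 0) -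
          (al a L 0 - al a L 1) - (al a L 0 - al a L 2) := by
        rw [hX']; ring
      have n1 := (p5 _ _ hll a0.ge).2.1
      have n2 := (p5 _ _ n1 b0.ge).2.1
      have n3 := (p5 _ _ n2 i01).2.1
      rw [e1, rsub _ _ n3 i02, rsub _ _ n2 i01, rsub _ _ n1 b0.ge, rsub _ _ hll a0.ge,
        hp.rmul _ _ hl hl, a3, b3, r01, hκ2]
      linear_combination k1
    have n4 : 0 ≤ ν (X' - al a L 0) := by
      rw [hRx] at c0
      exact c0.ge
    have eY : res (l * (px P - X') - py P) = u * (u ^ 2 - κ ^ 2) := by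
      have e1 : l * (px P - X') - py P =
          l * ((px P - al a L 0) - (X' - al a L 0)) - py P := by ring
      have n5 := (p5 _ _ a0.ge n4).2.1
      have n6 := (p5 _ _ hl n5).2.2
      rw [e1, rsub _ _ n6 a1, hp.rmul _ _ hl n5, rsub _ _ a0.ge n4, a3, a4, eX]
      exact k2
    have hzR : zz res R = u := by
      refine conv R u ?_ c2 ?_
      · rw [hRx]; exact eX
      · rw [hRy]; exact eY
    rw [hzR] at c5 c6
    rw [thn R hR, thn P hP, thn Q hQ, hzR, ← hz, ← hw, div_mul_div_comm,
      div_eq_div_iff c6 (mul_ne_zero a6 b6)]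
    have : ((u - κ) * ((z + κ) * (w + κ)) - (z - κ) * (w - κ) * (u + κ)) * (z + w) = 0 := by
      linear_combination ((z + κ) * (w + κ)) * k3 - ((z - κ) * (w - κ)) * k4
    rcases mul_eq_zero.1 this with h | h
    · linear_combination h
    · exact absurd h hzw
  have hadd : ∀ P Q : PA a L, Us a ν P → Us a ν Q →
      th res κ (P + Q) = th res κ P * th res κ Q := by
    intro P Q hUP hUQ
    by_cases hP : P = 0
    · rw [hP, zero_add, th0, one_mul]
    by_cases hQ : Q = 0
    · rw [hQ, add_zero, th0, mul_one]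
    have hUR := u2 P Q hUP hUQ
    obtain ⟨a0, a1, a2, a3, a4, a5, a6⟩ := fact P hUP hP
    obtain ⟨b0, b1, b2, b3, b4, b5, b6⟩ := fact Q hUQ hQ
    obtain ⟨x, y, hxy⟩ : ∃ x y, XY P x y := by
      rcases g1 P with h | h
      · exact absurd h hP
      · exact h
    obtain ⟨x', y', hxy'⟩ : ∃ x y, XY Q x y := by
      rcases g1 Q with h | h
      · exact absurd h hQ
      · exact h
    obtain ⟨-, hx, hy, -⟩ := g2 P x y hxy
    obtain ⟨-, hx', hy', -⟩ := g2 Q x' y' hxy'
    by_cases hne : px P = px Q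
    · rcases g6 P Q hP hQ hne with h | h
      · subst h
        by_cases hPP : Q + Q = 0
        · rw [hPP, th0]
          rcases (v2 Q).1 hPP with h | ⟨i, h⟩
          · exact absurd h hP
          · have hy0 : py Q = 0 := by
              rw [h]
              exact (g2 _ _ _ (v1 i)).2.2.1
            have hz : zz res Q = 0 := by
              have r00 : res 0 = 0 := (hp.r0 0 (by rw [hν0]; exact le_top)).2
                (by rw [hν0]; exact WithTop.coe_lt_top 0)
              rw [zz, hy0, r00, zero_div]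
            rw [thn Q hP, hz, zero_sub, zero_add, neg_div, div_self hκ]
            ring
        · have hνy := u6 Q hUP hPP
          have hyne : py Q ≠ 0 := by
            intro h
            rw [h, hν0] at hνy
            exact WithTop.top_ne_zero hνy
          have hz0 : zz res Q ≠ 0 := by
            intro h
            have h7 := (p9 _ hνy).2
            rw [a4, h] at h7
            apply h7
            ring
          obtain ⟨-, i1, i2⟩ : True ∧ 0 ≤ ν (px Q - al a L 1) ∧ 0 ≤ ν (px Q - al a L 2) := by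
            obtain ⟨e1, -⟩ := h5 K a L k t f q ν res hyp hp hint Q hUP.1 hP
            exact ⟨trivial, e1 1, e1 2⟩
          obtain ⟨fd, hfd⟩ : ∃ fd : L, fd = (px Q - al a L 0) * (px Q - al a L 1) +
              (px Q - al a L 0) * (px Q - al a L 2) + (px Q - al a L 1) * (px Q - al a L 2) :=
            ⟨_, rfl⟩
          have hν2 : ν (2 * py Q) = 0 := p3 _ _ hp.two hνy
          have hν2' : ν (2 * py Q)⁻¹ = 0 := p4 _ hν2
          have h22 : (2 * py Q) ≠ 0 := mul_ne_zero hyp.1 hyne
          have n1 := (p5 _ _ a0.ge i1).2.2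
          have n2 := (p5 _ _ a0.ge i2).2.2
          have n3 := (p5 _ _ i1 i2).2.2
          have n4 := (p5 _ _ n1 n2).1
          have n5 := (p5 _ _ n4 n3).1
          have hνl : 0 ≤ ν (fd * (2 * py Q)⁻¹) := by
            rw [hfd]
            exact (p5 _ _ n5 hν2'.ge).2.2
          have hl2 : 2 * (fd * (2 * py Q)⁻¹) * py Q = fd := by
            have : 2 * (fd * (2 * py Q)⁻¹) * py Q = fd * ((2 * py Q)⁻¹ * (2 * py Q)) := by ring
            rw [this, inv_mul_cancel₀ h22, mul_one]
          have e3 : res (px Q - al a L 1) = res (px Q - al a L 0) := by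
            have : px Q - al a L 1 = (px Q - al a L 0) + (al a L 0 - al a L 1) := by ring
            rw [this, hp.radd _ _ a0.ge i01, r01, add_zero]
          have e4 : res (px Q - al a L 2) = res (px Q - al a L 0) + κ ^ 2 := by
            have : px Q - al a L 2 = (px Q - al a L 0) + (al a L 0 - al a L 2) := by ring
            rw [this, hp.radd _ _ a0.ge i02, hκ2]
          have hrf : res fd = (zz res Q ^ 2 - κ ^ 2) * (3 * zz res Q ^ 2 - κ ^ 2) := by
            rw [hfd, hp.radd _ _ n4 n3, hp.radd _ _ n1 n2, hp.rmul _ _ a0.ge i1,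
              hp.rmul _ _ a0.ge i2, hp.rmul _ _ i1 i2, e3, e4, a3]
            ring
          have n6 : 0 ≤ ν (2 * (fd * (2 * py Q)⁻¹)) := (p5 _ _ hp.two.ge hνl).2.2
          have r2 : res 2 = 2 := by
            have : (2 : L) = 1 + 1 := by norm_num
            rw [this, hp.radd 1 1 p1.ge p1.ge, hp.r1]
            norm_num
          have hrl : 2 * res (fd * (2 * py Q)⁻¹) *
              (zz res Q * (zz res Q ^ 2 - κ ^ 2)) =
              (zz res Q ^ 2 - κ ^ 2) * (3 * zz res Q ^ 2 - κ ^ 2) := by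
            rw [← hrf, ← a4, ← hl2, hp.rmul _ _ n6 a1, hp.rmul _ _ hp.two.ge hνl, r2, hl2]
          have hX0 : zz res Q ^ 2 - κ ^ 2 ≠ 0 := by rw [← a3]; exact a2
          refine step Q Q (Q + Q) (fd * (2 * py Q)⁻¹)
            ((fd * (2 * py Q)⁻¹) ^ 2 + (al a L 0 + al a L 1 + al a L 2) - px Q - px Q)
            hUP hP hUP hP hUR ?_ rfl hνl ?_ ?_
          · have := g8 Q (px Q) (py Q) (fd * (2 * py Q)⁻¹)
              ((fd * (2 * py Q)⁻¹) ^ 2 + (al a L 0 + al a L 1 + al a L 2) - px Q - px Q)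
              (by rw [hx, hy]; exact hxy) hyne (by rw [hl2, hfd]) (by ring)
            exact this
          · rw [← two_mul]
            exact mul_ne_zero p11 hz0
          · have : (res (fd * (2 * py Q)⁻¹) * (zz res Q + zz res Q) -
                (3 * zz res Q ^ 2 - κ ^ 2)) * (zz res Q ^ 2 - κ ^ 2) = 0 := by
              linear_combination hrl
            rcases mul_eq_zero.1 this with h | h
            · linear_combination h
            · exact absurd h hX0
      · rw [h, add_neg_cancel, th0, thneg P hUP]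
    · have hνx := u5 P Q hUP hUQ hP hQ hne
      have hxne : px P - px Q ≠ 0 := sub_ne_zero.2 hne
      have hνi : ν (px P - px Q)⁻¹ = 0 := p4 _ hνx
      have n1 := (p5 _ _ a1 b1).2.1
      have hνl : 0 ≤ ν ((py P - py Q) * (px P - px Q)⁻¹) := (p5 _ _ n1 hνi.ge).2.2
      have hl2 : (py P - py Q) * (px P - px Q)⁻¹ * (px P - px Q) = py P - py Q := by
        rw [mul_assoc, inv_mul_cancel₀ hxne, mul_one]
      have hrx : res (px P - px Q) = zz res P ^ 2 - zz res Q ^ 2 := by
        have : px P - px Q = (px P - al a L 0) - (px Q - al a L 0) := by ring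
        rw [this, rsub _ _ a0.ge b0.ge, a3, b3]
        ring
      have hrxne : (zz res P - zz res Q) * (zz res P + zz res Q) ≠ 0 := by
        have h7 := (p9 _ hνx).2
        rw [hrx] at h7
        intro h
        apply h7
        linear_combination h
      have hrl : res ((py P - py Q) * (px P - px Q)⁻¹) * (zz res P ^ 2 - zz res Q ^ 2) =
          zz res P * (zz res P ^ 2 - κ ^ 2) - zz res Q * (zz res Q ^ 2 - κ ^ 2) := by
        rw [← hrx, ← hp.rmul _ _ hνl hνx.ge, hl2, rsub _ _ a1 b1, a4, b4]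
      refine step P Q (P + Q) ((py P - py Q) * (px P - px Q)⁻¹)
        (((py P - py Q) * (px P - px Q)⁻¹) ^ 2 + (al a L 0 + al a L 1 + al a L 2) - px P - px Q)
        hUP hP hUQ hQ hUR ?_ rfl hνl (mul_ne_zero_iff.1 hrxne).2 ?_
      · exact g7 P Q (px P) (py P) (px Q) (py Q) _ _ (by rw [hx, hy]; exact hxy)
          (by rw [hx', hy']; exact hxy') hne hl2 rfl
      · have : (res ((py P - py Q) * (px P - px Q)⁻¹) * (zz res P + zz res Q) -
            (zz res P ^ 2 + zz res P * zz res Q + zz res Q ^ 2 - κ ^ 2)) *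
            (zz res P - zz res Q) = 0 := by
          linear_combination hrl
        rcases mul_eq_zero.1 this with h | h
        · linear_combination h
        · exact absurd h (mul_ne_zero_iff.1 hrxne).1
  -- the Galois action
  obtain ⟨at1, at2, at3, -⟩ := h3 K a L hyp t
  obtain ⟨af1, af2, af3, -⟩ := h3 K a L hyp f
  have hst : ∀ (s : Gal(L/K)) (i : Fin 3), s (al a L i) = al a L i := fun s i => s.commutes (a i)
  refine ⟨th res κ, hadd, ?_, th0, ?_, ?_⟩
  · intro P hU
    refine ⟨thne P hU, fun h => ?_⟩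
    by_contra hP
    obtain ⟨-, -, -, -, -, h8, h9⟩ := fact P hU hP
    rw [thn P hP, div_eq_one_iff_eq h9] at h
    apply h2κ
    linear_combination -h
  · intro P hU
    by_cases hP : P = 0
    · rw [hP, map_zero]
    · have hP' : act a t P ≠ 0 := fun h => hP (at2 (by rw [h, map_zero]))
      obtain ⟨f0, f1, -, -, -, h8, h9⟩ := fact P hU hP
      have e1 : zz res (act a t P) = zz res P := by
        rw [zz, zz, (at3 P).1, (at3 P).2]
        have : t (px P) - al a L 0 = t (px P - al a L 0) := by rw [map_sub, hst]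
        rw [this, hp.rt _ f0.ge, hp.rt _ f1]
      rw [thn _ hP', thn P hP, e1]
  · have ezf : ∀ P : PA a L, Us a ν P → P ≠ 0 → zz res (act a f P) = zz res P ^ q := by
      intro P hU hP
      obtain ⟨f0, f1, -, -, -, h8, h9⟩ := fact P hU hP
      rw [zz, zz, (af3 P).1, (af3 P).2]
      have : f (px P) - al a L 0 = f (px P - al a L 0) := by rw [map_sub, hst]
      rw [this, hp.rf _ f0.ge, hp.rf _ f1, div_pow]
    have ezr : ∀ P : PA a L, Us a ν P → P ≠ 0 →
        zz res P = res (py P * (px P - al a L 0)⁻¹) ∧ 0 ≤ ν (py P * (px P - al a L 0)⁻¹) := by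
      intro P hU hP
      obtain ⟨f0, f1, -, -, -, h8, h9⟩ := fact P hU hP
      have h10 := p4 _ f0
      refine ⟨?_, (p5 _ _ f1 h10.ge).2.2⟩
      rw [hp.rmul _ _ f1 h10.ge, (p9 _ f0).1, zz, div_eq_mul_inv]
    have hκq : κ ^ q = κ := by rw [hκd, ← hp.rf _ hνd.ge, hfd]
    intro P hU
    by_cases hP : P = 0
    · rw [hP, map_zero, th0, one_pow]
    · have hP' : act a f P ≠ 0 := fun h => hP (af2 (by rw [h, map_zero]))
      obtain ⟨z1, z2⟩ := ezr P hU hP
      obtain ⟨k1, k2⟩ := p10 _ _ z2 hνd.ge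
      rw [← z1, ← hκd] at k1 k2
      rw [thn _ hP', thn P hP, ezf P hU hP, div_pow, k1, k2, hκq]

end Pool.Agent.MP72B.Par
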