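import Pool.Agent.Lib.MP_72e2e6_nt.Sm.B.SpecA

/-!
# MP_72e2e6_nt, `Sm/B`, module `Qka`: the quadratic cochain of a coboundary
-/

set_option autoImplicit false

namespace Pool.Agent.MP72B

open Finset Pool.Agent.MP72S

private theorem qka_div {N : Type} [AddCommGroup N] (h : ∀ x : N, ∃ y : N, 2 • y = x) (n : ℕ) :
    ∀ s : N, ∃ r : N, 2 ^ n • r = s := by
  induction n with
  | zero => exact fun s => ⟨s, by rw [pow_zero, one_smul]⟩
  | succ n ih =>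
    intro s
    obtain ⟨y, hy⟩ := h s
    obtain ⟨r, hr⟩ := ih y
    exact ⟨r, by rw [pow_succ', mul_smul, hr, hy]⟩

theorem tQka : MP72S.S_EFa → S_Qka := by
  intro hE G N P R _ _ _ _ _ _ D E hf ax ax3 m hm χ hχ Γ Q hg
  obtain ⟨b1, b2, -, -, -, b6⟩ := hE D E hf ax ax3
  have hE0 : ∀ k (a : N), 2 ^ k • a = 0 → E k a 0 = 0 := by
    intro k a ha
    have h := b1 k a 0 0 ha (smul_zero _) (smul_zero _)
    rw [add_zero] at h
    exact left_eq_add.1 h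
  have hup : ∀ (k l : ℕ) (a : N), 2 ^ k • a = 0 → k ≤ l → 2 ^ l • a = 0 := by
    intro k l a ha hkl
    obtain ⟨c, rfl⟩ := Nat.exists_eq_add_of_le' hkl
    rw [pow_add, mul_smul, ha, smul_zero]
  -- lowering the level
  have hlow : ∀ (k : ℕ) (a b : N), 2 ^ (m + 1) • a = 0 → 2 ^ (m + 1 + k) • b = 0 →
      E (m + 1 + k) a b = E (m + 1) a (2 ^ k • b) := by
    intro k
    induction k with
    | zero =>
      intro a b _ _
      rw [pow_zero, one_smul, add_zero]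
    | succ k ih =>
      intro a b ha hb
      rw [show m + 1 + (k + 1) = m + 1 + k + 1 from rfl] at hb ⊢
      have hb' : 2 ^ (m + 1 + k) • (2 • b) = 0 := by
        rw [← mul_smul, ← pow_succ]
        exact hb
      rw [b2 (m + 1 + k) a b (by omega) (hup _ _ _ ha (by omega)) hb, ih a (2 • b) ha hb',
        ← mul_smul, ← pow_succ]
  obtain ⟨k, hk⟩ := ax.prim Q
  obtain ⟨Q₁, hQ₁⟩ := qka_div ax.dvs k Q
  have hQM : 2 ^ (m + 1 + k) • Q = 0 := hup k _ _ hk (by omega)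
  have hwx : ∀ g : G, 2 ^ k • (tw χ g Q₁ - Q₁) = tw χ g Q - Q := by
    intro g
    rw [smul_sub, ← tw_nsmul, hQ₁]
  have key : ∀ g ∈ Γ, 2 ^ (m + 1 + k) • (tw χ g Q₁ - Q₁) = 0 := by
    intro g hgΓ
    rw [pow_add, mul_smul, hwx]
    exact hg g hgΓ
  have htw : ∀ (k : ℕ) (g : G) (a : N), k • a = 0 → k • tw χ g a = 0 := by
    intro k g a ha
    rw [← tw_nsmul, ha, tw_map_zero]
  refine ⟨fun g => E (m + 1 + k) Q (tw χ g Q₁ - Q₁), fun g hgΓ h hhΓ => ?_⟩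
  have hgh : g * h ∈ Γ := Γ.mul_mem hgΓ hhΓ
  have hco : (tw χ g Q - Q) + tw χ g (tw χ h Q - Q) - (tw χ (g * h) Q - Q) = 0 := by
    rw [tw_mul (hχ g h), tw_sub]
    abel
  have hdec : tw χ (g * h) Q₁ - Q₁ = (tw χ g Q₁ - Q₁) + tw χ g (tw χ h Q₁ - Q₁) := by
    rw [tw_mul (hχ g h), tw_sub]
    abel
  have hkt : 2 ^ (m + 1 + k) • tw χ g (tw χ h Q₁ - Q₁) = 0 := htw _ _ _ (key h hhΓ)
  have e1 : g • E (m + 1 + k) Q (tw χ h Q₁ - Q₁) =
      E (m + 1 + k) (tw χ g Q) (tw χ g (tw χ h Q₁ - Q₁)) :=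
    (b6 (m + 1 + k) χ g Q _ hQM (key h hhΓ)).symm
  have e2 : E (m + 1 + k) (tw χ g Q) (tw χ g (tw χ h Q₁ - Q₁)) =
      E (m + 1 + k) (tw χ g Q - Q) (tw χ g (tw χ h Q₁ - Q₁)) +
        E (m + 1 + k) Q (tw χ g (tw χ h Q₁ - Q₁)) := by
    rw [← ax3.E_add (m + 1 + k) _ _ _ (hup (m + 1) _ _ (hg g hgΓ) (by omega)) hQM hkt,
      sub_add_cancel]
  have e3 : E (m + 1 + k) Q (tw χ (g * h) Q₁ - Q₁) =
      E (m + 1 + k) Q (tw χ g Q₁ - Q₁) +
        E (m + 1 + k) Q (tw χ g (tw χ h Q₁ - Q₁)) := by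
    rw [hdec, b1 (m + 1 + k) Q _ _ hQM (key g hgΓ) hkt]
  have e4 : E (m + 1 + k) (tw χ g Q - Q) (tw χ g (tw χ h Q₁ - Q₁)) =
      E (m + 1) (tw χ g Q - Q) (tw χ g (tw χ h Q - Q)) := by
    rw [hlow k _ _ (hg g hgΓ) hkt, ← tw_nsmul, hwx]
  have e5 : qx E m χ (fun σ => tw χ σ Q - Q) g h =
      E (m + 1) (tw χ g Q - Q) (tw χ g (tw χ h Q - Q)) := by
    unfold qx
    simp only
    rw [hco, hE0 (m + 1) _ (hg _ hgh), sub_zero]
  rw [e5, e1, e2]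
  beta_reduce
  rw [e3, e4]
  abel

end Pool.Agent.MP72B
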