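import Pool.Agent.Lib.MP_72e2e6_nt.Sm.B.SpecA

/-!
# MP_72e2e6_nt, `Sm/B`, module `Qlo`: the local computation
-/

set_option autoImplicit false

namespace Pool.Agent.MP72B

open Finset Pool.Agent.MP72S

private theorem two_half {N : Type} [AddCommGroup N] (hd : ∀ x : N, ∃ y : N, 2 • y = x) (x : N) :
    2 • half x = x := by
  unfold half
  by_cases h : x = 0
  · rw [if_pos h, h, smul_zero]
  · rw [if_neg h, dif_pos (hd x)]
    exact (hd x).choose_spec

private theorem tw_zero_of {G N : Type} [Group G] [AddCommGroup N] [DistribMulAction G N]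
    (χ : G → ZMod 2) (σ : G) {x : N} (h : tw χ σ x = 0) : x = 0 := by
  have h1 : σ • x = 0 := by
    unfold tw sg at h
    split_ifs at h
    · exact h
    · exact neg_eq_zero.1 h
  have h2 := congrArg (fun z => σ⁻¹ • z) h1
  simpa using h2

private theorem co_two {G N : Type} [Group G] [AddCommGroup N] [DistribMulAction G N]
    {χ : G → ZMod 2} {a : G → N} (ha : IsCo χ a) {s : Set G}
    (hs : ∀ g ∈ s, 2 • a g = 0) : ∀ g ∈ Subgroup.closure s, 2 • a g = 0 := by
  have a1 : a 1 = 0 := by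
    have h := ha 1 1
    rw [mul_one] at h
    have h2 : tw χ 1 (a 1) = 0 := by
      have h3 := h
      nth_rw 1 [← add_zero (a 1)] at h3
      exact (add_left_cancel h3).symm
    exact tw_zero_of χ 1 h2
  intro g hg
  induction hg using Subgroup.closure_induction with
  | mem x hx => exact hs x hx
  | one => rw [a1, smul_zero]
  | mul x y _ _ hx hy => rw [ha x y, smul_add, ← tw_nsmul, hx, hy, tw_map_zero, add_zero]
  | inv x _ hx =>
    have h := ha x x⁻¹
    rw [mul_inv_cancel, a1] at h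
    have h2 : 2 • tw χ x (a x⁻¹) = 0 := by
      have h3 : 2 • (a x + tw χ x (a x⁻¹)) = 0 := by rw [← h, smul_zero]
      rwa [smul_add, hx, zero_add] at h3
    rw [← tw_nsmul] at h2
    exact tw_zero_of χ x h2

private theorem four_half {N : Type} [AddCommGroup N] (hd : ∀ x : N, ∃ y : N, 2 • y = x) (x : N) :
    4 • half x = 2 • x := by
  rw [show 4 = 2 * 2 from rfl, mul_smul, two_half hd]

private theorem pow_half {N : Type} [AddCommGroup N] (n : ℕ) (x : N) :
    2 ^ (n + 1) • x = 2 ^ n • (2 • x) := by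
  rw [pow_succ, mul_smul]

private theorem qka_z2 {i : ZMod 2} (h : i = i + i) : i = 0 := by
  revert i
  decide

private theorem qka2 (hE : MP72S.S_EFa) {G N P R : Type} [Group G] [TopologicalSpace G] [AddCommGroup N]
    [DistribMulAction G N] [AddCommGroup R] [DistribMulAction G R] (D : Dat G N P)
    (E : ℕ → N → N → R) (hf : R) (ax : Ax D) (ax3 : Ax3 D E hf) (m : ℕ) (hm : 2 ≤ m) (χ : G → ZMod 2)
    (Γ : Subgroup G) :
    ∀ y : G → N, (∀ g ∈ Γ, 4 • y g = 0) →
      (∀ g ∈ Γ, ∀ h ∈ Γ, 2 • (y g + tw χ g (y h) - y (g * h)) = 0) → ∀ g ∈ Γ, ∀ h ∈ Γ,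
      qx E m χ y g h =
        if m = 2 then (if D.e (2 • y g) (2 • y h) = 0 then 0 else hf) else 0 := by
  obtain ⟨b1, b2, b3, -, -, b6⟩ := hE D E hf ax ax3
  have hhalf : ∀ x : N, 2 • half x = x := by
    intro x
    unfold half
    split_ifs with h0 h1
    · rw [h0, smul_zero]
    · exact h1.choose_spec
    · exact absurd (ax.dvs x) h1
  have hE0 : ∀ k (a : N), 2 ^ k • a = 0 → E k a 0 = 0 := by
    intro k a ha
    have h := b1 k a 0 0 ha (smul_zero _) (smul_zero _)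
    rw [add_zero] at h
    exact left_eq_add.1 h
  have hE0' : ∀ k (a : N), 2 ^ k • a = 0 → E k 0 a = 0 := by
    intro k a ha
    have h := ax3.E_add k 0 0 a (smul_zero _) (smul_zero _) ha
    rw [add_zero] at h
    exact left_eq_add.1 h
  have he0 : ∀ c : N, 2 • c = 0 → D.e 0 c = 0 := by
    intro c hc
    have h := ax.e_add 0 0 c (smul_zero _) (smul_zero _) hc
    rw [add_zero] at h
    exact qka_z2 h
  have hneg : -hf = hf := by
    have := ax3.hf2
    rw [two_nsmul] at this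
    exact neg_eq_of_add_eq_zero_left this
  intro y hy hc g hgΓ h hhΓ
  have hgh : g * h ∈ Γ := Γ.mul_mem hgΓ hhΓ
  have h4 : ∀ (k : ℕ) (a : N), 2 ≤ k → 4 • a = 0 → 2 ^ k • a = 0 := by
    intro k a hk ha
    obtain ⟨j, rfl⟩ := Nat.exists_eq_add_of_le' hk
    rw [pow_add, show (2 : ℕ) ^ 2 = 4 from rfl, mul_smul, ha, smul_zero]
  have h4t : 4 • tw χ g (y h) = 0 := by
    rw [← tw_nsmul, hy h hhΓ, tw_map_zero]
  have h2y : ∀ g ∈ Γ, 2 • (2 • y g) = 0 := by
    intro g hg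
    rw [smul_smul]
    exact hy g hg
  have e1 : E (m + 1) (y (g * h)) (y g + tw χ g (y h) - y (g * h)) = 0 := by
    rw [b3 (m + 1) _ _ (by omega) (h4 _ _ (by omega) (hy _ hgh)) (hc g hgΓ h hhΓ),
      Nat.add_sub_cancel, h4 m _ hm (hy _ hgh), he0 _ (hc g hgΓ h hhΓ), if_pos rfl]
  have e2 : E (m + 1) (y g) (tw χ g (y h)) =
      if D.e (2 ^ (m - 1) • tw χ g (y h)) (2 • y g) = 0 then 0 else hf := by
    rw [ax3.E_two m _ _ (by omega) (h4 _ _ (by omega) (hy g hgΓ)) (h4 m _ hm h4t),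
      ax3.E_anti m _ _ _ (h4 m _ hm h4t), b3 m _ _ (by omega) (h4 m _ hm h4t) (h2y g hgΓ)]
    · split_ifs
      · exact neg_zero
      · exact hneg
    · rw [smul_comm, h4 m _ hm (hy g hgΓ), smul_zero]
  unfold qx
  rw [e1, e2, sub_zero]
  by_cases hm2 : m = 2
  · subst hm2
    rw [if_pos rfl, show 2 - 1 = 1 from rfl, pow_one, ← tw_nsmul,
      tw_two ax.tri (h2y h hhΓ), ax.e_sym _ _ (h2y h hhΓ) (h2y g hgΓ)]
  · rw [if_neg hm2, h4 (m - 1) _ (by omega) h4t, he0 _ (h2y g hgΓ), if_pos rfl]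

theorem tQlo : MP72S.S_Dk1 → MP72S.S_EFa → MP72S.S_IvR → MP72S.S_Ivc → MP72S.S_Qch → MP72S.S_Qbi →
    S_Qka → S_Qlo := by
  intro _ hEFa hIvR hIvc hQch hQbi hQka
  intro G N P R _ _ _ _ _ _ D E hf hA hA3 m hm χ hχ v a η Q hη ha haτ haφ hηQ hηm
  obtain ⟨iv1, iv2, iv3⟩ := hIvR D E hf hA hA3 v
  have hd := hA.dvs
  -- the subgroup
  have ha2 : ∀ g ∈ Subgroup.closure {D.tau v, D.phi v}, 2 • a g = 0 := by
    refine co_two ha ?_
    intro g hg
    rcases hg with rfl | hg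
    · exact haτ
    · rw [Set.mem_singleton_iff] at hg
      rw [hg]
      exact haφ
  set Γ := Subgroup.closure {D.tau v, D.phi v} with hΓ
  set Q' := half Q with hQ'
  have hQ2 : 2 • Q' = Q := two_half hd Q
  obtain ⟨n, rfl⟩ : ∃ n, m = n + 2 := ⟨m - 2, by omega⟩
  have han : ∀ (j : ℕ), ∀ g ∈ Γ, 2 ^ (j + 1) • a g = 0 := by
    intro j g hg
    rw [pow_half, ha2 g hg, smul_zero]
  -- the half x + y
  have hx2 : ∀ g, 2 • (tw χ g Q' - Q') = tw χ g Q - Q := by
    intro g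
    rw [smul_sub, ← tw_nsmul, hQ2]
  have hy2 : ∀ g, 2 • half (a g) = a g := fun g => two_half hd (a g)
  have hxy2 : ∀ g, 2 • ((tw χ g Q' - Q') + half (a g)) = η g := by
    intro g
    rw [smul_add, hx2, hy2, hηQ]
  have hxQ : ∀ g ∈ Γ, 2 ^ (n + 2) • (tw χ g Q - Q) = 0 := by
    intro g hg
    have h1 : tw χ g Q - Q = η g - a g := by rw [hηQ]; abel
    rw [h1, smul_sub, hηm, han (n + 1) g hg, sub_zero]
  have hxm : ∀ g ∈ Γ, 2 ^ (n + 2 + 1) • (tw χ g Q' - Q') = 0 := by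
    intro g hg
    rw [pow_half, hx2, hxQ g hg]
  have hxco : ∀ g ∈ Γ, ∀ h ∈ Γ, tw χ (g * h) Q' - Q' = (tw χ g Q' - Q') +
      tw χ g (tw χ h Q' - Q') := by
    intro g _ h _
    rw [tw_mul (hχ g h), tw_sub]
    abel
  -- change of the half
  obtain ⟨l1, hl1⟩ := hQch D E hf hA hA3 (n + 2) (by omega) χ Γ
    (fun g => (tw χ g Q' - Q') + half (a g)) (fun g => half (η g))
    (by
      intro g _
      rw [pow_half, hxy2, hηm])
    (by
      intro g _
      rw [smul_sub, hxy2, two_half hd, sub_self])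
    (by
      intro g _ h _
      rw [smul_sub, smul_add, ← tw_nsmul, hxy2, hxy2, hxy2, hη g h, sub_self])
  obtain ⟨l2, hl2⟩ := hQbi D E hf hA hA3 (n + 2) hm χ Γ
    (fun g => tw χ g Q' - Q') (fun g => half (a g)) hxm hxco
    (by
      intro g hg
      rw [four_half hd, ha2 g hg])
    (by
      intro g _ h _
      rw [smul_sub, smul_add, ← tw_nsmul, hy2, hy2, hy2, ha g h, sub_self])
  obtain ⟨l3, hl3⟩ := hQka D E hf hA hA3 (n + 2) hm χ hχ Γ Q' hxm
  have hK2 := qka2 hEFa D E hf hA hA3 (n + 2) hm χ Γ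
  have hK2' := hK2 (fun g => half (a g))
    (by
      intro g hg
      rw [four_half hd, ha2 g hg])
    (by
      intro g _ h _
      rw [smul_sub, smul_add, ← tw_nsmul, hy2, hy2, hy2, ha g h, sub_self])
  -- 2 ^ m x h
  have hxf : ∀ h ∈ Γ, 2 ^ (n + 2) • (tw χ h Q' - Q') = 2 ^ (n + 1) • η h := by
    intro h hh
    rw [pow_half (n + 1), hx2]
    have h1 : tw χ h Q - Q = η h - a h := by rw [hηQ]; abel
    rw [h1, smul_sub, han n h hh, sub_zero]
  -- the local invariant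
  have e1 : D.iv (qx E (n + 2) χ fun g => half (η g)) v =
      D.iv (qx E (n + 2) χ (fun g => (tw χ g Q' - Q') + half (a g))) v := by
    rw [iv2 _ _ hl1, iv3, iv1, add_zero]
  have e2 : D.iv (qx E (n + 2) χ (fun g => (tw χ g Q' - Q') + half (a g))) v =
      D.iv (fun g h => if D.e (a g) (2 ^ (n + 1) • η h) = 0 then (0 : R) else hf) v +
      D.iv (fun g h => if n + 2 = 2 then (if D.e (a g) (a h) = 0 then (0 : R) else hf)
        else 0) v := by
    have h1 : ∀ g ∈ Γ, ∀ h ∈ Γ, qx E (n + 2) χ (fun g => (tw χ g Q' - Q') + half (a g)) g h =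
        ((if D.e (a g) (2 ^ (n + 1) • η h) = 0 then (0 : R) else hf) +
          (if n + 2 = 2 then (if D.e (a g) (a h) = 0 then (0 : R) else hf) else 0)) +
        ((l3 g - l2 g) + g • (l3 h - l2 h) - (l3 (g * h) - l2 (g * h))) := by
      intro g hg h hh
      rw [hl2 g hg h hh, hl3 g hg h hh, hK2' g hg h hh]
      simp only [hy2]
      rw [hxf h hh, smul_sub]
      abel
    rw [iv2 _ _ h1, iv3, iv3, iv1 (fun g => l3 g - l2 g), add_zero]
  have hη2 : ∀ g, 2 • (2 ^ (n + 1) • η g) = 0 := by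
    intro g
    rw [← mul_smul, ← pow_succ', hηm]
  have e3 := hIvc D E hf hA hA3 v χ a (fun g => 2 ^ (n + 1) • η g) hχ ha (hη.nsmul _) haτ haφ
    (hη2 _) (hη2 _)
  have e4 := hIvc D E hf hA hA3 v χ a a hχ ha ha haτ haφ haτ haφ
  have e5 : D.iv (fun g h => if n + 2 = 2 then (if D.e (a g) (a h) = 0 then (0 : R) else hf)
        else 0) v = 0 := by
    by_cases hn : n + 2 = 2
    · simp only [hn, if_true]
      rw [e4, hA.e_sym _ _ haφ haτ, CharTwo.add_self_eq_zero, if_pos rfl]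
    · simp only [hn, if_false]
      have h0 := iv1 (fun _ => 0)
      simpa using h0
  rw [e1, e2, e5, add_zero, e3]
  rfl

end Pool.Agent.MP72B
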