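import Pool.Agent.Lib.MP_72e2e6_nt.Sm.B.SpecR

/-! # MP_72e2e6_nt, `Sm/B`: the largest square divisor of a polynomial -/

set_option autoImplicit false

namespace Pool.Agent.MP72B.Frm

open Finset Polynomial MP72e2e6 Pool.Agent.MP72S Pool.Agent.MP72T Pool.Agent.MP72S.Ns

section sqb

variable {F : Type} [Field F]

private theorem sqb_exists {f : F[X]} (hf : f.Monic) :
    ∃ h E : F[X], h.Monic ∧ E.Monic ∧ Squarefree E ∧ f = h ^ 2 * E := by
  -- a monic polynomial of the largest degree with `h ^ 2 ∣ f`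
  have hb : ∀ d : ℕ, (∃ h : F[X], h.Monic ∧ h.natDegree = d ∧ h ^ 2 ∣ f) → d ≤ f.natDegree := by
    rintro d ⟨h, hh, rfl, hd⟩
    have h1 := natDegree_le_of_dvd hd hf.ne_zero
    rw [hh.natDegree_pow] at h1
    omega
  classical
  have h0 : ∃ d : ℕ, ∃ h : F[X], h.Monic ∧ h.natDegree = d ∧ h ^ 2 ∣ f :=
    ⟨0, 1, monic_one, natDegree_one, by simp⟩
  obtain ⟨d, hd, hmax⟩ : ∃ d : ℕ, (∃ h : F[X], h.Monic ∧ h.natDegree = d ∧ h ^ 2 ∣ f) ∧
      ∀ e, (∃ h : F[X], h.Monic ∧ h.natDegree = e ∧ h ^ 2 ∣ f) → e ≤ d := by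
    refine ⟨Nat.findGreatest (fun d => ∃ h : F[X], h.Monic ∧ h.natDegree = d ∧ h ^ 2 ∣ f)
      f.natDegree, ?_, ?_⟩
    · obtain ⟨d, hd⟩ := h0
      exact Nat.findGreatest_spec (P := fun d => ∃ h : F[X], h.Monic ∧ h.natDegree = d ∧ h ^ 2 ∣ f)
        (hb d hd) hd
    · intro e he
      exact Nat.le_findGreatest (hb e he) he
  obtain ⟨h, hh, hhd, E, hE⟩ := hd
  have hEm : E.Monic := by
    have h1 : (h ^ 2 * E).Monic := by rw [← hE]; exact hf
    exact (hh.pow 2).of_mul_monic_left h1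
  refine ⟨h, E, hh, hEm, ?_, hE⟩
  by_contra hsq
  rw [squarefree_iff_irreducible_sq_not_dvd_of_ne_zero hEm.ne_zero] at hsq
  push Not at hsq
  obtain ⟨P, hP, hPE⟩ := hsq
  -- the monic associate of `P`
  have hP0 : P ≠ 0 := hP.ne_zero
  have hlc : P.leadingCoeff ≠ 0 := leadingCoeff_ne_zero.2 hP0
  have hQm : (P * C P.leadingCoeff⁻¹).Monic := monic_mul_leadingCoeff_inv hP0
  have hQd : (P * C P.leadingCoeff⁻¹).natDegree = P.natDegree :=
    natDegree_mul_C (inv_ne_zero hlc)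
  have hQ2 : (P * C P.leadingCoeff⁻¹) * (P * C P.leadingCoeff⁻¹) ∣ E := by
    have hu : Associated (P * P)
        ((P * C P.leadingCoeff⁻¹) * (P * C P.leadingCoeff⁻¹)) := by
      have h1 : Associated P (P * C P.leadingCoeff⁻¹) :=
        associated_mul_unit_right P _
          ((isUnit_C).2 (isUnit_iff_ne_zero.2 (inv_ne_zero hlc)))
      exact h1.mul_mul h1
    exact hu.dvd_iff_dvd_left.1 hPE
  obtain ⟨Q, hQ⟩ : ∃ Q, Q = P * C P.leadingCoeff⁻¹ := ⟨_, rfl⟩
  rw [← hQ] at hQm hQd hQ2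
  have h1 : (h * Q) ^ 2 ∣ f := by
    rw [hE, mul_pow, sq Q]
    exact mul_dvd_mul_left _ hQ2
  have h2 := hmax _ ⟨h * Q, hh.mul hQm, rfl, h1⟩
  rw [hh.natDegree_mul hQm, hhd, hQd] at h2
  have h3 := hP.natDegree_pos
  omega

private theorem sqb_unique {h h' E E' : F[X]} (hh : h.Monic) (hh' : h'.Monic) (hE : E.Monic)
    (hE' : E'.Monic) (hs : Squarefree E) (hs' : Squarefree E') (he : h ^ 2 * E = h' ^ 2 * E') :
    h = h' ∧ E = E' := by
  classical
  have h1 : h = h' := by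
    refine eq_of_monic_of_associated hh hh' ?_
    rw [UniqueFactorizationMonoid.associated_iff_normalizedFactors_eq_normalizedFactors
      hh.ne_zero hh'.ne_zero]
    have h2 := congrArg UniqueFactorizationMonoid.normalizedFactors he
    rw [UniqueFactorizationMonoid.normalizedFactors_mul (hh.pow 2).ne_zero hE.ne_zero,
      UniqueFactorizationMonoid.normalizedFactors_mul (hh'.pow 2).ne_zero hE'.ne_zero,
      UniqueFactorizationMonoid.normalizedFactors_pow,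
      UniqueFactorizationMonoid.normalizedFactors_pow] at h2
    have h3 := (UniqueFactorizationMonoid.squarefree_iff_nodup_normalizedFactors hE.ne_zero).1 hs
    have h4 := (UniqueFactorizationMonoid.squarefree_iff_nodup_normalizedFactors hE'.ne_zero).1 hs'
    rw [Multiset.nodup_iff_count_le_one] at h3 h4
    refine Multiset.ext.2 fun P => ?_
    have h5 := congrArg (Multiset.count P) h2
    rw [Multiset.count_add, Multiset.count_add, Multiset.count_nsmul, Multiset.count_nsmul] at h5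
    have h6 := h3 P
    have h7 := h4 P
    omega
  subst h1
  exact ⟨rfl, mul_left_cancel₀ (hh.pow 2).ne_zero he⟩

end sqb

theorem tSqB : S_SqB := by
  classical
  intro F _ _ B k φ
  symm
  have h1 : ∀ d : ℕ, ∑ h ∈ (mon F d).filter (fun h => IsCoprime h B),
      ∑ E ∈ sqf F B (k - 2 * d), φ (h ^ 2 * E) =
      ∑ x ∈ (mon F d).filter (fun h => IsCoprime h B) ×ˢ sqf F B (k - 2 * d),
        φ (x.1 ^ 2 * x.2) := fun d => by rw [Finset.sum_product]
  rw [Finset.sum_congr rfl fun d _ => h1 d,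
    Finset.sum_sigma' (range (k / 2 + 1))
      (fun d => (mon F d).filter (fun h => IsCoprime h B) ×ˢ sqf F B (k - 2 * d))
      (fun _ x => φ (x.1 ^ 2 * x.2))]
  refine Finset.sum_nbij (fun x => x.2.1 ^ 2 * x.2.2) ?_ ?_ ?_ fun _ _ => rfl
  · rintro ⟨d, h, E⟩ hx
    rw [mem_sigma, mem_product, mem_filter, mem_mon] at hx
    obtain ⟨hd, ⟨⟨hh, hhd⟩, hhB⟩, hE⟩ := hx
    unfold sqf at hE
    simp only [mem_filter, mem_mon, mem_range] at hd hh hhd hhB hE
    obtain ⟨⟨hEm, hEd⟩, hEs, hEB⟩ := hE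
    rw [mem_filter, mem_mon]
    refine ⟨⟨(hh.pow 2).mul hEm, ?_⟩, (hhB.pow_left).mul_left hEB⟩
    change (h ^ 2 * E).natDegree = k
    rw [(hh.pow 2).natDegree_mul hEm, hh.natDegree_pow, hhd, hEd]
    omega
  · rintro ⟨d, h, E⟩ hx ⟨d', h', E'⟩ hx' he
    rw [mem_coe, mem_sigma, mem_product, mem_filter, mem_mon] at hx hx'
    obtain ⟨hd, ⟨⟨hh, hhd⟩, hhB⟩, hE⟩ := hx
    obtain ⟨hd', ⟨⟨hh', hhd'⟩, hhB'⟩, hE'⟩ := hx'
    unfold sqf at hE hE'
    simp only [mem_filter, mem_mon, mem_range] at hd hh hhd hhB hE hd' hh' hhd' hhB' hE'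
    change h ^ 2 * E = h' ^ 2 * E' at he
    obtain ⟨h1, h2⟩ := sqb_unique hh hh' hE.1.1 hE'.1.1 hE.2.1 hE'.2.1 he
    subst h1 h2
    have h3 : d = d' := hhd.symm.trans hhd'
    subst h3
    rfl
  · intro f hf
    rw [mem_coe, mem_filter, mem_mon] at hf
    obtain ⟨⟨hfm, hfk⟩, hfB⟩ := hf
    obtain ⟨h, E, hh, hE, hEs, rfl⟩ := sqb_exists hfm
    rw [(hh.pow 2).natDegree_mul hE, hh.natDegree_pow] at hfk
    refine ⟨⟨h.natDegree, h, E⟩, ?_, rfl⟩
    rw [mem_coe, mem_sigma, mem_product, mem_filter, mem_mon]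
    refine ⟨?_, ⟨⟨hh, rfl⟩, ?_⟩, ?_⟩
    · rw [mem_range]
      change h.natDegree < k / 2 + 1
      omega
    · exact hfB.of_isCoprime_of_dvd_left ((dvd_pow_self h two_ne_zero).mul_right _)
    · unfold sqf
      rw [mem_filter, mem_mon]
      refine ⟨⟨hE, ?_⟩, hEs, hfB.of_isCoprime_of_dvd_left (dvd_mul_left _ _)⟩
      change E.natDegree = k - 2 * h.natDegree
      omega

end Pool.Agent.MP72B.Frm
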