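import Pool.Agent.Lib.MP_72e2e6_nt.Sm.B.SpecR

/-!
# MP_72e2e6_nt, `Sm/B`: module `SqS` (sums over squarefree polynomials)
-/

set_option autoImplicit false

namespace Pool.Agent.MP72B.Frm

open Finset Polynomial MP72e2e6 Pool.Agent.MP72S Pool.Agent.MP72T Pool.Agent.MP72S.Ns

private theorem sqs_geo (m : ℕ) : ∑ d ∈ range m, (1 / 2 : ℝ) ^ (d + 1) = 1 - (1 / 2) ^ m := by
  induction m with
  | zero => simp
  | succ m ih =>
    rw [sum_range_succ, ih]
    ring

open Classical in
theorem tSqS : StmtTwMon.{0} → S_SqB → S_SqS := by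
  intro hMon hSqB F _ _ B hB φ hφ hsq hzero
  have hcard : ∀ n, (mon F n).card = Nat.card F ^ n := (hMon F).1
  have hq1 : (1 : ℝ) ≤ (Nat.card F : ℝ) := by
    exact_mod_cast Nat.one_le_iff_ne_zero.2 (Nat.card_pos.ne')
  set q : ℝ := (Nat.card F : ℝ) with hq
  set lam : ℝ := Real.sqrt (2 * q) with hlam
  have hlam2 : lam ^ 2 = 2 * q := Real.sq_sqrt (by positivity)
  have hlam0 : 0 < lam := Real.sqrt_pos.2 (by positivity)
  have hlam1 : 1 ≤ lam := by
    rw [hlam, Real.one_le_sqrt]
    linarith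
  set b := B.natDegree with hb
  -- the numbers of the `h`
  obtain ⟨c, hc⟩ : ∃ c : ℕ → ℕ, c = fun d => #((mon F d).filter fun h => IsCoprime h B) :=
    ⟨_, rfl⟩
  have hcq : ∀ d, (c d : ℝ) ≤ q ^ d := by
    intro d
    have h1 : c d ≤ Nat.card F ^ d := by
      rw [hc, ← hcard d]
      exact card_filter_le _ _
    rw [hq]
    exact_mod_cast h1
  have hc0 : c 0 = 1 := by
    rw [hc]
    have : (mon F 0).filter (fun h => IsCoprime h B) = {1} := by
      ext h
      rw [mem_filter, mem_mon, mem_singleton]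
      constructor
      · rintro ⟨⟨h1, h2⟩, -⟩
        exact h1.natDegree_eq_zero.1 h2
      · rintro rfl
        exact ⟨⟨monic_one, natDegree_one⟩, isCoprime_one_left⟩
    change #((mon F 0).filter fun h => IsCoprime h B) = 1
    rw [this, card_singleton]
  obtain ⟨T, hT⟩ : ∃ T : ℕ → ℝ, T = fun k => ∑ E ∈ sqf F B k, φ E := ⟨_, rfl⟩
  obtain ⟨A, hA⟩ : ∃ A : ℕ → ℝ, A = fun k =>
    ∑ f ∈ (mon F k).filter (fun f => IsCoprime f B), φ f := ⟨_, rfl⟩
  have hAT : ∀ k, A k = ∑ d ∈ range (k / 2), (c (d + 1) : ℝ) * T (k - 2 * (d + 1)) + T k := by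
    intro k
    have h1 := hSqB F B k φ
    have h2 : ∀ d ∈ range (k / 2 + 1), ∑ h ∈ (mon F d).filter (fun h => IsCoprime h B),
        ∑ E ∈ sqf F B (k - 2 * d), φ (h ^ 2 * E) = (c d : ℝ) * T (k - 2 * d) := by
      intro d _
      rw [hc, hT]
      dsimp only
      rw [← nsmul_eq_mul, ← sum_const]
      refine sum_congr rfl fun h hh => sum_congr rfl fun E hE => ?_
      obtain ⟨hh1, hh2⟩ := mem_filter.1 hh
      obtain ⟨hE1, -, hE2⟩ := mem_filter.1 hE
      exact hsq h E (mem_mon.1 hh1).1 hh2 (mem_mon.1 hE1).1 hE2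
    rw [sum_congr rfl h2, sum_range_succ', hc0] at h1
    rw [hA]
    refine h1.trans ?_
    simp
  have hAq : ∀ k, |A k| ≤ q ^ k := by
    intro k
    rw [hA]
    refine (abs_sum_le_sum_abs _ _).trans ?_
    refine (sum_le_sum fun f _ => hφ f).trans ?_
    rw [sum_const, nsmul_eq_mul, mul_one]
    have h1 := hcq k
    rw [hc] at h1
    exact h1
  have hAM : ∀ k, |A k| ≤ q ^ b * lam ^ k * (1 / 2) ^ (k / 2) := by
    intro k
    rcases le_or_gt b k with h | h
    · have h1 : A k = 0 := by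
        rw [hA]
        exact hzero k h
      rw [h1, abs_zero]
      positivity
    · refine (hAq k).trans ?_
      have h1 : q ^ k ≤ q ^ b := pow_le_pow_right₀ hq1 h.le
      have h2 : (2 : ℝ) ^ (k / 2) ≤ lam ^ k := by
        calc (2 : ℝ) ^ (k / 2) ≤ (2 * q) ^ (k / 2) := by
              refine pow_le_pow_left₀ (by norm_num) ?_ _
              linarith
          _ = lam ^ (2 * (k / 2)) := by rw [pow_mul, hlam2]
          _ ≤ lam ^ k := pow_le_pow_right₀ hlam1 (Nat.mul_div_le k 2)
      have h3 : (1 : ℝ) ≤ lam ^ k * (1 / 2) ^ (k / 2) := by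
        rw [one_div, inv_pow, ← div_eq_mul_inv, one_le_div (by positivity)]
        exact h2
      calc q ^ k ≤ q ^ b * 1 := by rw [mul_one]; exact h1
        _ ≤ q ^ b * (lam ^ k * (1 / 2) ^ (k / 2)) := by gcongr
        _ = _ := by ring
  have main : ∀ k, |T k| ≤ q ^ b * lam ^ k := by
    intro k
    induction k using Nat.strong_induction_on with
    | _ k ih =>
      have e : T k = A k - ∑ d ∈ range (k / 2), (c (d + 1) : ℝ) * T (k - 2 * (d + 1)) := by
        rw [hAT k]
        ring
      have h1 : ∀ d ∈ range (k / 2), |(c (d + 1) : ℝ) * T (k - 2 * (d + 1))| ≤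
          q ^ b * lam ^ k * (1 / 2) ^ (d + 1) := by
        intro d hd
        have hd' : 2 * (d + 1) ≤ k := by
          have := mem_range.1 hd
          omega
        rw [abs_mul, Nat.abs_cast]
        have h2 := ih (k - 2 * (d + 1)) (by omega)
        have h3 : lam ^ k = lam ^ (k - 2 * (d + 1)) * (2 * q) ^ (d + 1) := by
          rw [← hlam2, ← pow_mul, ← pow_add]
          congr 1
          omega
        calc (c (d + 1) : ℝ) * |T (k - 2 * (d + 1))| ≤
              q ^ (d + 1) * (q ^ b * lam ^ (k - 2 * (d + 1))) := by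
              refine mul_le_mul (hcq _) h2 (abs_nonneg _) (by positivity)
          _ = q ^ b * lam ^ k * (1 / 2) ^ (d + 1) := by
              rw [h3, mul_pow 2 q]
              have h4 : (2 : ℝ) ^ (d + 1) * (1 / 2) ^ (d + 1) = 1 := by
                rw [← mul_pow]
                norm_num
              linear_combination (-(q ^ (d + 1) * q ^ b * lam ^ (k - 2 * (d + 1)))) * h4
      rw [e]
      calc |A k - ∑ d ∈ range (k / 2), (c (d + 1) : ℝ) * T (k - 2 * (d + 1))|
          ≤ |A k| + |∑ d ∈ range (k / 2), (c (d + 1) : ℝ) * T (k - 2 * (d + 1))| := abs_sub _ _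
        _ ≤ q ^ b * lam ^ k * (1 / 2) ^ (k / 2) +
            ∑ d ∈ range (k / 2), q ^ b * lam ^ k * (1 / 2) ^ (d + 1) := by
            refine add_le_add (hAM k) ?_
            exact (abs_sum_le_sum_abs _ _).trans (sum_le_sum h1)
        _ = q ^ b * lam ^ k := by
            rw [← mul_sum, sqs_geo]
            ring
  intro k
  have h1 := main k
  rw [hT] at h1
  exact h1

end Pool.Agent.MP72B.Frm
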