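import Pool.Agent.Lib.MP_72e2e6_nt.Sm.B.SpecG

set_option autoImplicit false

namespace Pool.Agent.MP72B

open Finset Polynomial MP72e2e6 Pool.Agent.MP72S Pool.Agent.MP72S.Lv

/-- **StrR.** -/
theorem tStrR (h1 : MP72e2e6.StmtPpTS) : S_StrR := by
  classical
  intro T W _ _ _ m S T1 hT1 x lam δ hC L 𝓥 hcard hmem hmult
  obtain ⟨c, c₀, s⟩ := x
  have hC1 : ∀ (v : {v // v ∈ T1}) (i : Fin m), (lam i - δ v) (c v.1 - s i) = 0 := hC.t1
  have hC2 : ∀ v, v ∉ T1 → ∀ i, lam i (c v - S.σ v (s i)) = 0 := hC.t2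
  have hC3 : ∀ i j, (lam i - lam j) (s i - s j) = 0 := hC.un
  simp only at hmem hmult ⊢
  have hidx : ∀ w ∈ 𝓥, ∃ i, (s i, lam i) = w := by
    intro w hw
    have h2 := hmult w hw
    have h3 : {i | (s i, lam i) = w}.ncard ≠ 0 := by omega
    obtain ⟨i, hi⟩ := Set.nonempty_of_ncard_ne_zero h3
    exact ⟨i, hi⟩
  have hrel : ∀ (a b : W) (e f : Module.Dual (ZMod 2) W), (e - f) (a - b) = 0 →
      BW (a, e) (b, f) + BW (b, f) (a, e) = 0 := by
    intro a b e f h2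
    unfold BW
    simp only
    rw [LinearMap.sub_apply] at h2
    have h3 : b - a = -(a - b) := by abel
    rw [h3, map_neg]
    rw [← sub_eq_zero.1 h2]
    ring
  have hunl : ∀ w ∈ 𝓥, ∀ w' ∈ 𝓥, BW w w' + BW w' w = 0 := by
    intro w hw w' hw'
    obtain ⟨i, rfl⟩ := hidx w hw
    obtain ⟨j, rfl⟩ := hidx w' hw'
    exact hrel _ _ _ _ (hC3 i j)
  have hpos : 0 < #𝓥 := by
    rw [hcard]
    exact Nat.card_pos
  obtain ⟨u₀, hu₀⟩ := Finset.card_pos.1 hpos
  obtain ⟨L', hL, hQ, hE⟩ := (h1 2 W 𝓥 hunl).2 hcard u₀ hu₀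
  -- the places of T1
  have h0 : ∀ v : {v // v ∈ T1}, (c v.1, δ v) ∈ 𝓥 := by
    intro v
    by_contra hcon
    have hins : ∀ w ∈ insert (c v.1, δ v) 𝓥, ∀ w' ∈ insert (c v.1, δ v) 𝓥,
        BW w w' + BW w' w = 0 := by
      intro w hw w' hw'
      rw [mem_insert] at hw hw'
      have hv : ∀ w ∈ 𝓥, BW w (c v.1, δ v) + BW (c v.1, δ v) w = 0 := by
        intro w hw
        obtain ⟨i, rfl⟩ := hidx w hw
        apply hrel
        have h2 := hC1 v i
        rw [← neg_sub (c v.1) (s i), map_neg, h2, neg_zero]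
      rcases hw with rfl | hw
      · rcases hw' with rfl | hw'
        · apply hrel
          rw [sub_self, LinearMap.zero_apply]
        · rw [add_comm]
          exact hv w' hw'
      · rcases hw' with rfl | hw'
        · exact hv w hw
        · exact hunl w hw w' hw'
    have h2 := (h1 2 W (insert (c v.1, δ v) 𝓥) hins).1
    rw [card_insert_of_notMem hcon, hcard] at h2
    omega
  set A : Submodule (ZMod 2) W := L'.map (LinearMap.fst (ZMod 2) W (Module.Dual (ZMod 2) W))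
    with hAd
  have hmA : ∀ y, y ∈ A ↔ ∃ e, (y, e) ∈ L' := by
    intro y
    rw [hAd, Submodule.mem_map]
    constructor
    · rintro ⟨⟨a, e⟩, h, rfl⟩
      exact ⟨e, h⟩
    · rintro ⟨e, h⟩
      exact ⟨(y, e), h, rfl⟩
  have hshift : ∀ i, ∀ z ∈ L', ((s i, lam i) + z) ∈ 𝓥 := by
    intro i z hz
    rw [hL]
    have h2 := (hL _).1 (hmem i)
    have h3 : (s i, lam i) + z - u₀ = ((s i, lam i) - u₀) + z := by abel
    rw [h3]
    exact L'.add_mem h2 hz
  have ha : ∀ i j, s i - s j ∈ A := by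
    intro i j
    rw [hmA]
    refine ⟨lam i - lam j, ?_⟩
    have h2 := L'.sub_mem ((hL _).1 (hmem i)) ((hL _).1 (hmem j))
    have h3 : (s i, lam i) - u₀ - ((s j, lam j) - u₀) = (s i - s j, lam i - lam j) := by
      rw [sub_sub_sub_cancel_right, Prod.mk_sub_mk]
    rw [h3] at h2
    exact h2
  have hstep : ∀ i, ∀ w e, (w, e) ∈ L' → ∃ i', s i' = s i + w ∧ lam i' = lam i + e := by
    intro i w e hwe
    obtain ⟨i', hi'⟩ := hidx _ (hshift i _ hwe)
    rw [Prod.mk_add_mk, Prod.mk.injEq] at hi'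
    exact ⟨i', hi'.1, hi'.2⟩
  have ht1 : ∀ v ∈ T1, ∀ i, c v - s i ∈ A := by
    intro v hv i
    obtain ⟨j, hj⟩ := hidx _ (h0 ⟨v, hv⟩)
    rw [Prod.mk.injEq] at hj
    rw [← hj.1]
    exact ha j i
  -- (c)
  have hc : ∀ v, v ∉ T1 → ∀ i, c v - S.σ v (s i) ∈ A := by
    intro v hv i
    by_contra hcon
    obtain ⟨e, he1, he2⟩ := Submodule.exists_le_ker_of_notMem hcon
    have h0e : ((0 : W), e) ∈ L' := hE e fun z hz => he2 ((hmA _).2 ⟨z.2, hz⟩)
    obtain ⟨i', hi1, hi2⟩ := hstep i 0 e h0e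
    rw [add_zero] at hi1
    have hf1 := hC2 v hv i
    have hf2 := hC2 v hv i'
    rw [hi1, hi2, LinearMap.add_apply, hf1, zero_add] at hf2
    exact he1 hf2
  have hi₀ : ∃ i₀ : Fin m, True := by
    obtain ⟨i, -⟩ := hidx u₀ hu₀
    exact ⟨i, trivial⟩
  obtain ⟨i₀, -⟩ := hi₀
  have hd : ∀ v, ∀ y ∈ A, S.σ v y ∈ A := by
    intro v y hy
    by_cases hv : v ∈ T1
    · rw [hT1 v hv]
      exact hy
    · obtain ⟨e, he⟩ := (hmA y).1 hy
      obtain ⟨i', hi', -⟩ := hstep i₀ y e he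
      have h5 : S.σ v y = (c v - S.σ v (s i₀)) - (c v - S.σ v (s i')) := by
        rw [hi', map_add]
        abel
      rw [h5]
      exact A.sub_mem (hc v hv i₀) (hc v hv i')
  refine ⟨h0, A, hd, ha, ht1, hc, ?_⟩
  intro b w hw
  obtain ⟨e, he'⟩ := (hmA w).1 hw
  have h5 := hmult _ (hshift b _ he')
  have hsub : {i | (s i, lam i) = (s b, lam b) + (w, e)}
      ⊆ insert b {i | i ≠ b ∧ s i = s b + w} := by
    intro i hi
    rw [Set.mem_ofPred_eq, Prod.mk_add_mk, Prod.mk.injEq] at hi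
    by_cases hib : i = b
    · exact Or.inl hib
    · exact Or.inr ⟨hib, hi.1⟩
  have h6 := Set.ncard_le_ncard hsub (Set.toFinite _)
  have h7 := Set.ncard_insert_le b {i | i ≠ b ∧ s i = s b + w}
  omega

end Pool.Agent.MP72B
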