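import Pool.Agent.Lib.MP_72e2e6_nt.Sm.B.SpecA

namespace Pool.Agent.MP72B

open Finset Pool.Agent.MP72S

set_option linter.unusedSectionVars false

section

variable {G N P : Type} [Group G] [TopologicalSpace G] [AddCommGroup N] [DistribMulAction G N]
  {D : Dat G N P} {ι : Type} [Fintype ι] [DecidableEq ι]

/-- The two conditions on a configuration. -/
private def SyOk (D : Dat G N P) (x : ι → P) : Prop := Function.Injective x ∧ ∀ i, x i ∉ D.S

/-- `[a = 1] u`. -/
private def Sy1_sel (a : ZMod 2) (u : N) : N := if a = 0 then 0 else u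

private theorem Sy1_sel_add {u : N} (hu : 2 • u = 0) (a b : ZMod 2) :
    Sy1_sel (a + b) u = Sy1_sel a u + Sy1_sel b u := by
  rcases zmod2 a with rfl | rfl <;> rcases zmod2 b with rfl | rfl
  · simp [Sy1_sel]
  · simp [Sy1_sel]
  · simp [Sy1_sel]
  · rw [show (1 : ZMod 2) + 1 = 0 from rfl]
    simp only [Sy1_sel, if_true, if_neg (one_ne_zero : (1 : ZMod 2) ≠ 0)]
    rw [← two_nsmul, hu]

open Classical in
/-- The homomorphism with the values `u j` at the inertia generators and `c` at `φ_∞`. -/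
private noncomputable def Sy1_TH (D : Dat G N P) (z : ι → P) (u : D.J ι → N) (c : N) (σ : G) : N :=
  (∑ j : D.J ι, if D.pl z j = D.inf then 0 else Sy1_sel (D.ch (D.pl z j) σ) (u j)) +
    Sy1_sel (D.cst σ) c

private theorem Sy1_TH_two (z : ι → P) {u : D.J ι → N} {c : N} (hu : ∀ j, 2 • u j = 0)
    (hc : 2 • c = 0) (σ : G) : 2 • Sy1_TH D z u c σ = 0 := by
  unfold Sy1_TH
  rw [smul_add, Finset.smul_sum, Finset.sum_eq_zero, zero_add]
  · unfold Sy1_sel; split_ifs
    · exact smul_zero _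
    · exact hc
  · intro j _
    unfold Sy1_sel
    split_ifs
    · exact smul_zero _
    · exact smul_zero _
    · exact hu j

private theorem Sy1_TH_ho (hD : Ax D) (z : ι → P) {u : D.J ι → N} {c : N}
    (hu : ∀ j, 2 • u j = 0) (hc : 2 • c = 0) : IsHo (Sy1_TH D z u c) := by
  classical
  refine ⟨?_, Sy1_TH_two z hu hc, ?_⟩
  · unfold Sy1_TH
    have h1 : IsLocallyConstant fun σ : G => ∑ j : D.J ι,
        if D.pl z j = D.inf then 0 else Sy1_sel (D.ch (D.pl z j) σ) (u j) := by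
      have key : ∀ s : Finset (D.J ι), IsLocallyConstant fun σ : G => ∑ j ∈ s,
          if D.pl z j = D.inf then 0 else Sy1_sel (D.ch (D.pl z j) σ) (u j) := by
        intro s
        induction s using Finset.induction_on with
        | empty => simp only [Finset.sum_empty]; exact IsLocallyConstant.const 0
        | insert j s hj ih =>
          simp only [Finset.sum_insert hj]
          refine IsLocallyConstant.comp₂ ?_ ih (fun a b => a + b)
          by_cases h : D.pl z j = D.inf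
          · simp only [if_pos h]; exact IsLocallyConstant.const 0
          · simp only [if_neg h]
            exact (hD.chc _ h).lc.comp fun a => Sy1_sel a (u j)
      exact key univ
    exact h1.comp₂ (hD.cstc.lc.comp fun a => Sy1_sel a c) (fun a b => a + b)
  · intro σ τ
    unfold Sy1_TH
    rw [hD.cstc.mul, Sy1_sel_add hc]
    have h1 : ∀ j : D.J ι, (if D.pl z j = D.inf then (0 : N) else
        Sy1_sel (D.ch (D.pl z j) (σ * τ)) (u j)) =
        (if D.pl z j = D.inf then 0 else Sy1_sel (D.ch (D.pl z j) σ) (u j)) +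
        (if D.pl z j = D.inf then 0 else Sy1_sel (D.ch (D.pl z j) τ) (u j)) := by
      intro j
      by_cases h : D.pl z j = D.inf
      · simp only [if_pos h]; rw [add_zero]
      · simp only [if_neg h]
        rw [(hD.chc _ h).mul, Sy1_sel_add (hu j)]
    simp only [h1, Finset.sum_add_distrib]
    abel

private theorem Sy1_ninf {z : ι → P} (hD : Ax D) (hz : SyOk D z) (i : ι) : z i ≠ D.inf :=
  fun h => hz.2 i (h ▸ hD.infS)

/-- Value at the inertia generator of a place `≠ ∞` of `z`. -/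
private theorem Sy1_TH_tau (hD : Ax D) (z : ι → P) (hinj : Function.Injective (D.pl z))
    {u : D.J ι → N} {c : N} (j : D.J ι) (hj : D.pl z j ≠ D.inf) :
    Sy1_TH D z u c (D.tau (D.pl z j)) = u j := by
  classical
  unfold Sy1_TH
  rw [hD.cst_tau, Finset.sum_eq_single j]
  · rw [if_neg hj, hD.ch_tau _ hj]
    simp [Sy1_sel]
  · intro j' _ hne
    by_cases h : D.pl z j' = D.inf
    · rw [if_pos h]
    · rw [if_neg h, hD.ch_tau' _ _ h hj (fun h' => hne (hinj h'))]
      simp [Sy1_sel]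
  · intro h; exact absurd (Finset.mem_univ _) h

/-- Value at the inertia generator of other places. -/
private theorem Sy1_TH_tau' (hD : Ax D) (z : ι → P)
    {u : D.J ι → N} {c : N} (v : P) (hv : v ≠ D.inf) (hvz : ∀ j, D.pl z j ≠ v) :
    Sy1_TH D z u c (D.tau v) = 0 := by
  classical
  unfold Sy1_TH
  rw [hD.cst_tau, Finset.sum_eq_zero]
  · simp [Sy1_sel]
  · intro j' _
    by_cases h : D.pl z j' = D.inf
    · rw [if_pos h]
    · rw [if_neg h, hD.ch_tau' _ _ h hv (hvz j')]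
      simp [Sy1_sel]

private theorem Sy1_TH_phi (hD : Ax D) (z : ι → P) {u : D.J ι → N} {c : N} :
    Sy1_TH D z u c (D.phi D.inf) = c := by
  classical
  unfold Sy1_TH
  rw [hD.cst_inf, Finset.sum_eq_zero]
  · simp [Sy1_sel]
  · intro j' _
    by_cases h : D.pl z j' = D.inf
    · rw [if_pos h]
    · rw [if_neg h, hD.ch_inf _ h]
      simp [Sy1_sel]

private theorem Sy1_e0 (hD : Ax D) {s : N} (hs : 2 • s = 0) : D.e 0 s = 0 := by
  have h := hD.e_add 0 0 s (smul_zero _) (smul_zero _) hs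
  rw [add_zero] at h
  have h2 : D.e 0 s + 0 = D.e 0 s + D.e 0 s := by rw [add_zero]; exact h
  exact (add_left_cancel h2).symm

/-- A homomorphism to `V` which vanishes at the `τ_v`, `v ≠ ∞`, and at `φ_∞` vanishes. -/
private theorem Sy1_uniq (hHom : MP72S.S_Hom) (hD : Ax D) (θ : G → N) (hθ : IsHo θ)
    (h1 : ∀ v, v ≠ D.inf → θ (D.tau v) = 0) (h2 : θ (D.phi D.inf) = 0) (σ : G) : θ σ = 0 := by
  refine (hHom D hD).1 θ hθ ?_ h2 σ
  intro v
  by_cases hv : v = D.inf
  swap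
  · exact h1 v hv
  subst hv
  refine hD.e_nd _ (hθ.two _) fun s hs => ?_
  have hch : IsCh (fun σ : G => D.e (θ σ) s) :=
    ⟨hθ.lc.comp fun a => D.e a s, fun σ τ => by
      rw [hθ.mul, hD.e_add _ _ _ (hθ.two _) (hθ.two _) hs]⟩
  have h3 := hD.rcp _ _ hch hD.cstc
  rw [finsum_eq_single _ D.inf] at h3
  · rw [hD.cst_inf, hD.cst_tau, mul_one, mul_zero, add_zero] at h3
    exact h3
  · intro v hv
    rw [h1 v hv, Sy1_e0 hD hs, hD.cst_tau, zero_mul, mul_zero, add_zero]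

/-- Equal symbols: values of the characters. -/
private theorem Sy1_ch (hD : Ax D) {x y : ι → P} (hx : SyOk D x) (hy : SyOk D y)
    (hS : D.Sy x = D.Sy y) (j j' : D.J ι) (hj' : D.pl x j' ≠ D.inf) :
    D.ch (D.pl x j') (D.tau (D.pl x j)) = D.ch (D.pl y j') (D.tau (D.pl y j)) ∧
    D.ch (D.pl x j') (D.phi (D.pl x j)) = D.ch (D.pl y j') (D.phi (D.pl y j)) := by
  classical
  have e1 : ∀ i i', (if i' = i then 0 else D.ch (x i') (D.phi (x i))) =
      (if i' = i then 0 else D.ch (y i') (D.phi (y i))) := fun i i' =>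
    congrFun (congrFun (congrArg (fun q => q.1) hS) i') i
  have e2 : ∀ i (s : {v // v ∈ D.S}), (D.ch (x i) (D.tau s.1), D.ch (x i) (D.phi s.1),
      if s.1 = D.inf then (0 : ZMod 2) else D.ch s.1 (D.phi (x i))) =
      (D.ch (y i) (D.tau s.1), D.ch (y i) (D.phi s.1),
      if s.1 = D.inf then (0 : ZMod 2) else D.ch s.1 (D.phi (y i))) := fun i s =>
    congrFun (congrFun (congrArg (fun q => q.2.1) hS) i) s
  rcases j with s | i <;> rcases j' with s' | i'
  · exact ⟨rfl, rfl⟩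
  · simp only [Dat.pl, Sum.elim_inl, Sum.elim_inr]
    have h := e2 i' s
    simp only [Prod.mk.injEq] at h
    exact ⟨h.1, h.2.1⟩
  · simp only [Dat.pl, Sum.elim_inl, Sum.elim_inr] at hj' ⊢
    constructor
    · rw [hD.ch_tau' _ _ hj' (Sy1_ninf hD hx i), hD.ch_tau' _ _ hj' (Sy1_ninf hD hy i)]
      · intro h; exact hy.2 i (h ▸ s'.2)
      · intro h; exact hx.2 i (h ▸ s'.2)
    · have h := e2 i s'
      simp only [Prod.mk.injEq, if_neg hj'] at h
      exact h.2.2
  · simp only [Dat.pl, Sum.elim_inr]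
    by_cases hii : i' = i
    · subst hii
      rw [hD.ch_tau _ (Sy1_ninf hD hx i'), hD.ch_tau _ (Sy1_ninf hD hy i'),
        hD.ch_phi _ (Sy1_ninf hD hx i'), hD.ch_phi _ (Sy1_ninf hD hy i')]
      exact ⟨rfl, rfl⟩
    · constructor
      · rw [hD.ch_tau' _ _ (Sy1_ninf hD hx i') (Sy1_ninf hD hx i) (fun h => hii (hx.1 h)),
          hD.ch_tau' _ _ (Sy1_ninf hD hy i') (Sy1_ninf hD hy i) (fun h => hii (hy.1 h))]
      · have h := e1 i i'
        simpa [if_neg hii] using h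

private theorem Sy1_cst (hD : Ax D) {x y : ι → P} (hS : D.Sy x = D.Sy y) (j : D.J ι) :
    D.cst (D.tau (D.pl x j)) = D.cst (D.tau (D.pl y j)) ∧
    D.cst (D.phi (D.pl x j)) = D.cst (D.phi (D.pl y j)) := by
  rw [hD.cst_tau, hD.cst_tau]
  refine ⟨rfl, ?_⟩
  rcases j with s | i
  · rfl
  · have h := congrFun (congrArg (fun q => q.2.2.1) hS) i
    simp only [Dat.Sy, Prod.mk.injEq] at h
    exact h.1

private theorem Sy1_ch0 (hD : Ax D) {x y : ι → P} (hx : SyOk D x) (hy : SyOk D y)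
    (hS : D.Sy x = D.Sy y) (j : D.J ι) :
    D.ch0 (D.tau (D.pl x j)) = D.ch0 (D.tau (D.pl y j)) ∧
    D.ch0 (D.phi (D.pl x j)) = D.ch0 (D.phi (D.pl y j)) := by
  rcases j with s | i
  · exact ⟨rfl, rfl⟩
  · constructor
    · simp only [Dat.pl, Sum.elim_inr]
      rw [hD.ch0_tau _ (hx.2 i), hD.ch0_tau _ (hy.2 i)]
    · have h := congrFun (congrArg (fun q => q.2.2.1) hS) i
      simp only [Dat.Sy, Prod.mk.injEq] at h
      exact h.2

private theorem Sy1_chi (hD : Ax D) {x y : ι → P} (hx : SyOk D x) (hy : SyOk D y)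
    (hS : D.Sy x = D.Sy y) (j : D.J ι) :
    D.chi x (D.tau (D.pl x j)) = D.chi y (D.tau (D.pl y j)) ∧
    D.chi x (D.phi (D.pl x j)) = D.chi y (D.phi (D.pl y j)) := by
  unfold Dat.chi
  rw [(Sy1_ch0 hD hx hy hS j).1, (Sy1_ch0 hD hx hy hS j).2]
  constructor
  · congr 1
    refine Finset.sum_congr rfl fun i _ => ?_
    exact (Sy1_ch hD hx hy hS j (Sum.inr i) (Sy1_ninf hD hx i)).1
  · congr 1
    refine Finset.sum_congr rfl fun i _ => ?_
    exact (Sy1_ch hD hx hy hS j (Sum.inr i) (Sy1_ninf hD hx i)).2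

private theorem Sy1_act (hD : Ax D) {x y : ι → P} (hx : SyOk D x) (hy : SyOk D y)
    (hS : D.Sy x = D.Sy y) (j : D.J ι) (Q : N) (hQ : 4 • Q = 0) :
    D.tau (D.pl x j) • Q = D.tau (D.pl y j) • Q ∧
    D.phi (D.pl x j) • Q = D.phi (D.pl y j) • Q := by
  rcases j with s | i
  · exact ⟨rfl, rfl⟩
  · constructor
    · simp only [Dat.pl, Sum.elim_inr]
      rw [hD.unr _ (hx.2 i), hD.unr _ (hy.2 i)]
    · have h := congrFun (congrFun (congrArg (fun q => q.2.2.2) hS) i) ⟨Q, hQ⟩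
      exact h

private theorem Sy1_tw (hD : Ax D) {x y : ι → P} (hx : SyOk D x) (hy : SyOk D y)
    (hS : D.Sy x = D.Sy y) (j : D.J ι) (Q : N) (hQ : 4 • Q = 0) :
    tw (D.chi x) (D.tau (D.pl x j)) Q = tw (D.chi y) (D.tau (D.pl y j)) Q ∧
    tw (D.chi x) (D.phi (D.pl x j)) Q = tw (D.chi y) (D.phi (D.pl y j)) Q := by
  unfold tw
  rw [(Sy1_chi hD hx hy hS j).1, (Sy1_chi hD hx hy hS j).2, (Sy1_act hD hx hy hS j Q hQ).1,
    (Sy1_act hD hx hy hS j Q hQ).2]
  exact ⟨rfl, rfl⟩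

private theorem Sy1_plinf {x y : ι → P} (hD : Ax D) (hx : SyOk D x) (hy : SyOk D y) (j : D.J ι) :
    D.pl x j = D.inf ↔ D.pl y j = D.inf := by
  rcases j with s | i
  · exact Iff.rfl
  · exact ⟨fun h => absurd h (Sy1_ninf hD hx i), fun h => absurd h (Sy1_ninf hD hy i)⟩

/-- The values of `TH` depend only on the symbols. -/
private theorem Sy1_TH_eq (hD : Ax D) {x y : ι → P} (hx : SyOk D x) (hy : SyOk D y)
    (hS : D.Sy x = D.Sy y) (u : D.J ι → N) (c : N) (j : D.J ι) :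
    Sy1_TH D x u c (D.tau (D.pl x j)) = Sy1_TH D y u c (D.tau (D.pl y j)) ∧
    Sy1_TH D x u c (D.phi (D.pl x j)) = Sy1_TH D y u c (D.phi (D.pl y j)) := by
  classical
  unfold Sy1_TH
  rw [(Sy1_cst hD hS j).1, (Sy1_cst hD hS j).2]
  constructor
  · congr 1
    refine Finset.sum_congr rfl fun j' _ => ?_
    by_cases h : D.pl x j' = D.inf
    · rw [if_pos h, if_pos ((Sy1_plinf hD hx hy j').mp h)]
    · rw [if_neg h, if_neg (fun h' => h ((Sy1_plinf hD hx hy j').mpr h')),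
        (Sy1_ch hD hx hy hS j j' h).1]
  · congr 1
    refine Finset.sum_congr rfl fun j' _ => ?_
    by_cases h : D.pl x j' = D.inf
    · rw [if_pos h, if_pos ((Sy1_plinf hD hx hy j').mp h)]
    · rw [if_neg h, if_neg (fun h' => h ((Sy1_plinf hD hx hy j').mpr h')),
        (Sy1_ch hD hx hy hS j j' h).2]

end

section

variable {G N P : Type} [Group G] [TopologicalSpace G] [AddCommGroup N] [DistribMulAction G N]
  {D : DatL G N P} {ι : Type} [Fintype ι] [DecidableEq ι]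

/-- The type maps depend only on the symbols. -/
private theorem Sy1_lm (hD : Ax D.toDat) {x y : ι → P} (hx : SyOk D.toDat x)
    (hy : SyOk D.toDat y) (hS : D.Sy x = D.Sy y) (j : D.J ι) : D.lm x j = D.lm y j := by
  rcases j with s | i
  · have h := Sy1_chi hD hx hy hS (Sum.inl s)
    change D.lam s.1 (D.chi x (D.tau s.1)) (D.chi x (D.phi s.1)) =
      D.lam s.1 (D.chi y (D.tau s.1)) (D.chi y (D.phi s.1))
    have h1 : D.chi x (D.tau s.1) = D.chi y (D.tau s.1) := h.1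
    have h2 : D.chi x (D.phi s.1) = D.chi y (D.phi s.1) := h.2
    rw [h1, h2]
  · rfl

/-- One direction. -/
private theorem Sy1_main (hHom : MP72S.S_Hom) (hUq : S_Uq) (hDk : S_Dk1) (hA : AxL D)
    {x y : ι → P} (hx : D.Ok x) (hy : D.Ok y) (hS : D.Sy x = D.Sy y) (t : D.J ι → N)
    (ht : t ∈ D.Dk x 1) :
    t ∈ D.Dk y 1 ∧ ∀ s : N, 2 • s = 0 → (∀ σ, D.e (D.coc y t σ) s = 0) →
      ∀ σ, D.e (D.coc x t σ) s = 0 := by
  classical
  have hD : Ax D.toDat := hA.ax
  have hx' : SyOk D.toDat x := ⟨hx.inj, hx.nS⟩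
  have hy' : SyOk D.toDat y := ⟨hy.inj, hy.nS⟩
  obtain ⟨hDk1, -, -, -, -, -, -, -, hinj, -, -⟩ := hDk (ι := ι) D hA x hx
  obtain ⟨hDk1y, -⟩ := hDk (ι := ι) D hA y hy
  obtain ⟨htZ, ht2⟩ := (hDk1 t).mp ht
  obtain ⟨-, -, -, -, hU5⟩ := hUq D hA x hx
  set ψ := D.coc x t with hψ
  have hψZ : D.IsZ x t ψ := DatL.coc_spec htZ
  have hψ2 : ∀ σ, 2 • ψ σ = 0 := by
    intro σ
    have := hU5 t htZ 1 (by simpa using ht2) σ
    simpa using this
  have hψho : IsHo ψ := ⟨hψZ.u.lc, hψ2, fun σ τ => by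
    rw [hψZ.u.co σ τ, tw_two hD.tri (hψ2 τ)]⟩
  let u : D.J ι → N := fun j => ψ (D.tau (D.pl x j))
  let c : N := ψ (D.phi D.inf)
  have hu : ∀ j, 2 • u j = 0 := fun j => hψ2 _
  have hc : 2 • c = 0 := hψ2 _
  -- ψ = TH x
  have hψx : ∀ σ, ψ σ = Sy1_TH D.toDat x u c σ := by
    have hθ : IsHo (fun σ => ψ σ + Sy1_TH D.toDat x u c σ) := by
      have h1 := Sy1_TH_ho hD x hu hc
      refine ⟨hψho.lc.comp₂ h1.lc (fun a b => a + b), fun σ => ?_, fun σ τ => ?_⟩
      · rw [smul_add, hψ2, h1.two, add_zero]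
      · rw [hψho.mul, h1.mul]; abel
    have h0 := Sy1_uniq hHom hD _ hθ ?_ ?_
    · intro σ
      have h1 := h0 σ
      have h2 : ψ σ + ψ σ = 0 := by rw [← two_nsmul]; exact hψ2 σ
      have h3 : ψ σ + Sy1_TH D.toDat x u c σ = ψ σ + ψ σ := by rw [h1, h2]
      exact (add_left_cancel h3).symm
    · intro v hv
      by_cases hvr : v ∈ Set.range (D.pl x)
      · obtain ⟨j, rfl⟩ := hvr
        rw [Sy1_TH_tau hD x hinj j hv]
        change ψ _ + ψ _ = 0
        rw [← two_nsmul]; exact hψ2 _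
      · rw [Sy1_TH_tau' hD x v hv (fun j hj => hvr ⟨j, hj⟩), add_zero]
        exact hψZ.u.ur v hvr
    · rw [Sy1_TH_phi hD x]
      change ψ _ + ψ _ = 0
      rw [← two_nsmul]; exact hψ2 _
  have hθho := Sy1_TH_ho hD y hu hc
  have hval : ∀ j, ψ (D.tau (D.pl x j)) = Sy1_TH D.toDat y u c (D.tau (D.pl y j)) ∧
      ψ (D.phi (D.pl x j)) = Sy1_TH D.toDat y u c (D.phi (D.pl y j)) := by
    intro j
    rw [hψx, hψx]
    exact Sy1_TH_eq hD hx' hy' hS u c j
  have hIsZ : D.IsZ y t (Sy1_TH D.toDat y u c) := by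
    refine ⟨⟨hθho.lc, fun σ τ => ?_, ⟨1, fun σ => by simpa using hθho.two σ⟩, fun v hv => ?_⟩,
      fun j => ?_⟩
    · rw [hθho.mul, tw_two hD.tri (hθho.two τ)]
    · refine Sy1_TH_tau' hD y v ?_ fun j hj => hv ⟨j, hj⟩
      intro h
      exact hv ⟨Sum.inl ⟨D.inf, hD.infS⟩, h.symm⟩
    · obtain ⟨Q, hQ, hlo⟩ := hψZ.lo j
      refine ⟨Q, by rw [← Sy1_lm hD hx' hy' hS j, hQ], ?_⟩
      have h1 : tw (D.chi x) (D.tau (D.pl x j)) Q = tw (D.chi y) (D.tau (D.pl y j)) Q ∧
          tw (D.chi x) (D.phi (D.pl x j)) Q = tw (D.chi y) (D.phi (D.pl y j)) Q := by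
        rcases j with s | i
        · have h := Sy1_chi hD hx' hy' hS (Sum.inl s)
          unfold tw
          rw [h.1, h.2]
          exact ⟨rfl, rfl⟩
        · refine Sy1_tw hD hx' hy' hS (Sum.inr i) Q ?_
          have h2 : 2 • Q = t (Sum.inr i) := hQ
          have h1 : (4 : ℕ) • Q = 2 • (2 • Q) := by rw [smul_smul]; rfl
          rw [h1, h2]
          exact congrFun ht2 (Sum.inr i)
      exact ⟨by rw [← (hval j).1, hlo.1, h1.1], by rw [← (hval j).2, hlo.2, h1.2]⟩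
  have htZy : t ∈ D.Z y := ⟨_, hIsZ⟩
  refine ⟨(hDk1y t).mpr ⟨htZy, ht2⟩, ?_⟩
  intro s hs hall σ
  have hcoc : ∀ σ, D.coc y t σ = Sy1_TH D.toDat y u c σ := (hUq D hA y hy).1 t _ hIsZ
  have hall' : ∀ σ, D.e (Sy1_TH D.toDat y u c σ) s = 0 := fun σ => by rw [← hcoc]; exact hall σ
  have huj : ∀ j, D.e (u j) s = 0 := by
    intro j
    have := hall' (D.tau (D.pl y j))
    rw [← (hval j).1] at this
    exact this
  have hcj : D.e c s = 0 := by
    have := hall' (D.phi D.inf)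
    rwa [Sy1_TH_phi hD y] at this
  change D.e (ψ σ) s = 0
  rw [hψx σ]
  unfold Sy1_TH
  have hsel : ∀ (a : ZMod 2) (w : N), D.e w s = 0 → D.e (Sy1_sel a w) s = 0 := by
    intro a w hw
    unfold Sy1_sel
    split_ifs
    · exact Sy1_e0 hD hs
    · exact hw
  have hsel2 : ∀ (a : ZMod 2) (w : N), 2 • w = 0 → 2 • (Sy1_sel a w) = 0 := by
    intro a w hw
    unfold Sy1_sel
    split_ifs
    · exact smul_zero _
    · exact hw
  have hsum : ∀ S : Finset (D.J ι),
      2 • (∑ j ∈ S, if D.pl x j = D.inf then 0 else Sy1_sel (D.ch (D.pl x j) σ) (u j)) = 0 ∧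
      D.e (∑ j ∈ S, if D.pl x j = D.inf then 0 else Sy1_sel (D.ch (D.pl x j) σ) (u j)) s = 0 := by
    intro S
    induction S using Finset.induction_on with
    | empty =>
      rw [Finset.sum_empty]
      exact ⟨smul_zero _, Sy1_e0 hD hs⟩
    | insert j S hj ih =>
      rw [Finset.sum_insert hj]
      have h1 : 2 • (if D.pl x j = D.inf then 0 else Sy1_sel (D.ch (D.pl x j) σ) (u j)) = 0 := by
        split_ifs
        · exact smul_zero _
        · exact hsel2 _ _ (hu j)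
      refine ⟨by rw [smul_add, h1, ih.1, add_zero], ?_⟩
      rw [hD.e_add _ _ _ h1 ih.1 hs, ih.2, add_zero]
      split_ifs
      · exact Sy1_e0 hD hs
      · exact hsel _ _ (huj j)
  rw [hD.e_add _ _ _ (hsum univ).1 (hsel2 _ _ hc) hs, (hsum univ).2, hsel _ _ hcj, add_zero]

end

theorem tSy1 : MP72S.S_Hom → S_Uq → S_Tai → S_Dk1 → S_Fix → S_Sy1 := by
  intro hHom hUq _ hDk _ G N P ι _ _ _ _ _ _ D hD x y hx hy hS
  have hlm : ∀ j, D.lm x j = D.lm y j :=
    Sy1_lm hD.ax ⟨hx.inj, hx.nS⟩ ⟨hy.inj, hy.nS⟩ hS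
  refine ⟨le_antisymm (fun t ht => (Sy1_main hHom hUq hDk hD hx hy hS t ht).1)
    (fun t ht => (Sy1_main hHom hUq hDk hD hy hx hS.symm t ht).1), ?_, hlm, ?_⟩
  · intro t ht s hs hex
    by_contra hcon
    push Not at hcon
    obtain ⟨σ, hσ⟩ := hex
    have h := (Sy1_main hHom hUq hDk hD hx hy hS t ht).2 s hs (fun σ => ?_) σ
    · rw [h] at hσ
      exact zero_ne_one hσ
    · rcases zmod2 (D.e (D.coc y t σ) s) with h0 | h1
      · exact h0
      · exact absurd h1 (hcon σ)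
  · have htv : ∀ R : N, D.tv x R = D.tv y R := by
      intro R
      funext j
      change D.lm x j R = D.lm y j R
      rw [hlm j]
    ext t
    constructor
    · rintro ⟨R, hR, rfl⟩
      exact ⟨R, hR, htv R⟩
    · rintro ⟨R, hR, rfl⟩
      exact ⟨R, hR, (htv R).symm⟩

end Pool.Agent.MP72B
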