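import Pool.Agent.Lib.MP_72e2e6_nt.Sm.B.SpecR

/-! # MP_72e2e6_nt, `Sm/B`: from the `f` prime to `Dlt a` to all squarefree `D` -/

set_option autoImplicit false

namespace Pool.Agent.MP72B.Frm

open Finset Polynomial MP72e2e6 Pool.Agent.MP72S Pool.Agent.MP72T Pool.Agent.MP72S.Ns

section aux

variable {F : Type} [Field F]

private theorem totB_ne {a : Fin 3 → F[X]} (ha : Function.Injective a) : Dlt a ≠ 0 := by
  have h : ∀ i j : Fin 3, i ≠ j → a i - a j ≠ 0 := fun i j hij h0 => hij (ha (sub_eq_zero.1 h0))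
  exact mul_ne_zero (mul_ne_zero (h 0 1 (by decide)) (h 0 2 (by decide))) (h 1 2 (by decide))

private theorem totB_dvd {d Δ : F[X]} (hd : Squarefree d) (hΔ : Δ ≠ 0)
    (h : ∀ P, Irreducible P → P ∣ d → P ∣ Δ) : d ∣ Δ := by
  classical
  have hd0 : d ≠ 0 := hd.ne_zero
  rw [UniqueFactorizationMonoid.dvd_iff_normalizedFactors_le_normalizedFactors hd0 hΔ,
    Multiset.le_iff_subset
      ((UniqueFactorizationMonoid.squarefree_iff_nodup_normalizedFactors hd0).1 hd)]
  intro P hP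
  rw [UniqueFactorizationMonoid.mem_normalizedFactors_iff' hd0] at hP
  rw [UniqueFactorizationMonoid.mem_normalizedFactors_iff' hΔ]
  exact ⟨hP.1, hP.2.1, h P hP.1 hP.2.2⟩

open Classical in
private theorem totB_set (h1 : S_DcpB) [Finite F] {a : Fin 3 → F[X]}
    (ha : Function.Injective a) (T : Finset F[X]) (hT : ∀ d, d ∈ T ↔ d ∈ sq0 a) (n : ℕ)
    (hn : ∀ d ∈ T, d.natDegree ≤ n) (good : F[X] → Prop) :
    {D ∈ sqd F n | good D} = ((T.biUnion fun d =>
      ((sqf F (Dlt a) (n - d.natDegree)).filter fun f => good (d * f)).image (d * ·) :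
        Finset F[X]) : Set F[X]) := by
  obtain ⟨-, h2, h3⟩ := h1 F a ha
  ext D
  rw [mem_coe, mem_biUnion]
  constructor
  · rintro ⟨hD, hg⟩
    obtain ⟨d, hd, k, hk, f, hf, rfl⟩ := (h2 n D).1 hD
    refine ⟨d, (hT d).2 hd, mem_image.2 ⟨f, mem_filter.2 ⟨?_, hg⟩, rfl⟩⟩
    have : n - d.natDegree = k := by omega
    rw [this]
    exact hf
  · rintro ⟨d, hd, hD⟩
    obtain ⟨f, hf, rfl⟩ := mem_image.1 hD
    obtain ⟨hf, hg⟩ := mem_filter.1 hf
    refine ⟨(h2 n _).2 ⟨d, (hT d).1 hd, n - d.natDegree, ?_, f, hf, rfl⟩, hg⟩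
    have := hn d hd
    omega

open Classical in
private theorem totB_dis (h1 : S_DcpB) [Finite F] {a : Fin 3 → F[X]}
    (ha : Function.Injective a) (T : Finset F[X]) (hT : ∀ d, d ∈ T ↔ d ∈ sq0 a) (n : ℕ)
    (good : F[X] → Prop) :
    (T : Set F[X]).PairwiseDisjoint fun d =>
      ((sqf F (Dlt a) (n - d.natDegree)).filter fun f => good (d * f)).image (d * ·) := by
  obtain ⟨-, -, h3⟩ := h1 F a ha
  intro d hd d' hd' hne
  rw [Function.onFun, Finset.disjoint_left]
  intro D hD hD'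
  obtain ⟨f, hf, rfl⟩ := mem_image.1 hD
  obtain ⟨f', hf', he⟩ := mem_image.1 hD'
  exact hne (h3 d ((hT d).1 hd) d' ((hT d').1 hd') _ _ f (mem_filter.1 hf).1 f'
    (mem_filter.1 hf').1 he.symm).1

private theorem totB_card (h1 : S_DcpB) [Finite F] {a : Fin 3 → F[X]}
    (ha : Function.Injective a) (T : Finset F[X]) (hT : ∀ d, d ∈ T ↔ d ∈ sq0 a) (n : ℕ)
    (hn : ∀ d ∈ T, d.natDegree ≤ n) (good : F[X] → Prop) :
    {D ∈ sqd F n | good D}.ncard = ∑ d ∈ T,
      {f ∈ (sqf F (Dlt a) (n - d.natDegree) : Set F[X]) | good (d * f)}.ncard := by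
  classical
  have e1 : ∀ d : F[X], {f ∈ (sqf F (Dlt a) (n - d.natDegree) : Set F[X]) | good (d * f)}.ncard =
      #((sqf F (Dlt a) (n - d.natDegree)).filter fun f => good (d * f)) := by
    intro d
    rw [← Set.ncard_coe_finset, coe_filter]
    rfl
  rw [totB_set h1 ha T hT n hn good, Set.ncard_coe_finset,
    card_biUnion (totB_dis h1 ha T hT n good)]
  refine sum_congr rfl fun d hd => ?_
  rw [e1]
  refine card_image_of_injective _ fun f f' hff => ?_
  exact mul_left_cancel₀ ((hT d).1 hd).1.ne_zero hff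

end aux

theorem tTotB (h1 : S_DcpB) : S_TotB := by
  classical
  intro F _ _ a ha
  obtain ⟨hfin, -, -⟩ := h1 F a ha
  obtain ⟨T, hT⟩ : ∃ T : Finset F[X], ∀ d, d ∈ T ↔ d ∈ sq0 a := ⟨hfin.toFinset, fun d => by
    rw [Set.Finite.mem_toFinset]⟩
  refine ⟨?_, ?_⟩
  · intro good hgood ε hε
    have hch : ∀ d : F[X], ∃ n₀ : ℕ, d ∈ sq0 a → ∀ n, n₀ ≤ n →
        (1 - ε) * (#(sqf F (Dlt a) n) : ℝ) ≤
          ({f ∈ (sqf F (Dlt a) n : Set F[X]) | good (d * f)}.ncard : ℝ) := by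
      intro d
      by_cases hd : d ∈ sq0 a
      · obtain ⟨n₀, h⟩ := hgood d hd ε hε
        exact ⟨n₀, fun _ => h⟩
      · exact ⟨0, fun h => absurd h hd⟩
    choose n₀ hn₀ using hch
    refine ⟨∑ d ∈ T, (d.natDegree + n₀ d), fun n hn => ?_⟩
    have hb : ∀ d ∈ T, d.natDegree + n₀ d ≤ n := fun d hd =>
      (single_le_sum (f := fun d : F[X] => d.natDegree + n₀ d) (fun _ _ => Nat.zero_le _)
        hd).trans hn
    have e1 := totB_card h1 ha T hT n (fun d hd => by have := hb d hd; omega) good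
    have e2 := totB_card h1 ha T hT n (fun d hd => by have := hb d hd; omega) (fun _ => True)
    have e3 : {D ∈ sqd F n | (fun _ => True) D} = sqd F n := by
      ext D
      exact ⟨fun h => h.1, fun h => ⟨h, trivial⟩⟩
    have e4 : ∀ d : F[X], {f ∈ (sqf F (Dlt a) (n - d.natDegree) : Set F[X]) | True}.ncard =
        #(sqf F (Dlt a) (n - d.natDegree)) := by
      intro d
      rw [← Set.ncard_coe_finset]
      refine congrArg Set.ncard ?_
      ext f
      exact ⟨fun h => h.1, fun h => ⟨h, trivial⟩⟩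
    rw [e3] at e2
    rw [e1, e2, Nat.cast_sum, Nat.cast_sum, mul_sum]
    refine sum_le_sum fun d hd => ?_
    rw [e4]
    have h5 := hb d hd
    exact hn₀ d ((hT d).1 hd) (n - d.natDegree) (by omega)
  · intro n hn φ
    have hΔ : Dlt a ≠ 0 := totB_ne ha
    have hdeg : ∀ d ∈ T, d.natDegree ≤ n := fun d hd =>
      (natDegree_le_of_dvd (totB_dvd ((hT d).1 hd).1 hΔ ((hT d).1 hd).2) hΔ).trans hn
    have hs := totB_set h1 ha T hT n hdeg (fun _ => True)
    have e3 : {D ∈ sqd F n | (fun _ => True) D} = sqd F n := by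
      ext D
      exact ⟨fun h => h.1, fun h => ⟨h, trivial⟩⟩
    have e5 : sq0 a = (T : Set F[X]) := by
      ext d
      rw [mem_coe, hT]
    rw [e3] at hs
    rw [hs, e5, finsum_mem_coe_finset, finsum_mem_coe_finset,
      sum_biUnion (totB_dis h1 ha T hT n (fun _ => True))]
    refine sum_congr rfl fun d hd => ?_
    rw [sum_image fun f _ f' _ hff => mul_left_cancel₀ ((hT d).1 hd).1.ne_zero hff]
    rw [filter_true]

end Pool.Agent.MP72B.Frm
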