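import Pool.Agent.Lib.MP_72e2e6_nt.Sm.B.SpecA

/-!
# MP_72e2e6_nt, `Sm/B/TyU`: the type is unique
-/

namespace Pool.Agent.MP72B

open Finset Pool.Agent.MP72S

theorem tTyU : S_Uq → S_Fix → S_TyU := by
  intro _ hFix G N P ι _ _ _ _ _ _ D hA x hx
  obtain ⟨hf1, -⟩ := hFix D hA x hx
  have h1 : ∀ t t' (ψ : G → N), D.IsZ x t ψ → D.IsZ x t' ψ → t = t' := by
    intro t t' ψ h h'
    funext j
    obtain ⟨Q, hQ, hl⟩ := h.lo j
    obtain ⟨Q', hQ', hl'⟩ := h'.lo j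
    have h5 : tw (D.chi x) (D.tau (D.pl x j)) (Q - Q') = Q - Q' := by
      have h3 := hl.1.symm.trans hl'.1
      rw [sub_eq_sub_iff_add_eq_add] at h3
      rw [tw_sub, sub_eq_sub_iff_add_eq_add, h3, add_comm]
    have h6 : tw (D.chi x) (D.phi (D.pl x j)) (Q - Q') = Q - Q' := by
      have h3 := hl.2.symm.trans hl'.2
      rw [sub_eq_sub_iff_add_eq_add] at h3
      rw [tw_sub, sub_eq_sub_iff_add_eq_add, h3, add_comm]
    have h7 : D.lm x j (Q - Q') = 0 := (hf1 j (Q - Q')).2 ⟨h5, h6⟩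
    rw [map_sub, hQ, hQ', sub_eq_zero] at h7
    exact h7
  refine ⟨h1, fun t ht hne => ?_⟩
  by_contra hcon
  push Not at hcon
  apply hne
  have h2 : D.coc x t = fun _ => 0 := funext hcon
  have h3 := DatL.coc_spec ht
  rw [h2] at h3
  exact h1 t 0 _ h3 (D.isZ_zero x)

end Pool.Agent.MP72B
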