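import Pool.Agent.Lib.MP_72e2e6_nt.Sm.B.SpecN

/-!
# MP_72e2e6_nt, `Sm/B`: module `TyX` (a type is determined by its recorded coordinates)
-/

namespace Pool.Agent.MP72B

open Finset Pool.Agent.MP72S

theorem tTyX : S_Uq → S_Tai → S_TyU → S_Fix → S_TyX := by
  intro hUq hTai hTyU hFix G N P ι _ _ _ _ _ _ D hax x I₀ Ξ hx hS
  have key : ∀ (k : ℕ) (d : D.J ι → N), d ∈ D.Z x → 2 ^ k • d = 0 → (∀ j ∈ Ξ, d j = 0) →
      d = 0 := by
    intro k
    induction k with
    | zero =>
      intro d _ h _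
      rwa [pow_zero, one_nsmul] at h
    | succ k ih =>
      intro d hd hk hΞ
      apply ih d hd _ hΞ
      set d' : D.J ι → N := 2 ^ k • d with hd'
      have hd'Z : d' ∈ D.Z x := nsmul_mem hd _
      have h2 : 2 • d' = 0 := by
        rw [hd', ← mul_smul, ← pow_succ']
        exact hk
      have hdΞ : ∀ j ∈ Ξ, d' j = 0 := fun j hj => by
        rw [hd', Pi.smul_apply, hΞ j hj, smul_zero]
      have hz := DatL.coc_spec hd'Z
      have hv2 : ∀ σ, 2 • D.coc x d' σ = 0 := by
        intro σ
        have := (hUq D hax x hx).2.2.2.2 d' hd'Z 1 (by rw [pow_one]; exact h2) σ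
        rwa [pow_one] at this
      have hW : D.IsW x I₀ (D.coc x d') := by
        refine ⟨⟨hz.u.lc, hv2, fun σ τ => ?_⟩, ?_, ?_⟩
        · rw [hz.u.co σ τ, tw_two hax.ax.tri (hv2 τ)]
        · intro v hv hi
          by_cases hr : v ∈ Set.range (D.pl x)
          · obtain ⟨j, hj⟩ := hr
            rcases j with s | i
            · exact absurd (by rw [← hj]; exact s.2) hv
            · have hvi : v = x i := hj.symm
              have hiI : i ∈ I₀ := by
                by_contra hn
                exact hi i hn hvi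
              rw [hvi, (hTai D hax x hx).2.2.2.2.1 i d' _ hz, hdΞ _ (hS.sub i hiI), neg_zero]
          · exact hz.u.ur v hr
        · intro j _
          obtain ⟨Q, _, hL⟩ := hz.lo j
          exact ⟨Q, hL⟩
      have h0 := hS.sep _ hW (fun j hj _ => by
        obtain ⟨Q, hQ, hL⟩ := hz.lo j
        rw [hdΞ j hj] at hQ
        have hq := ((hFix D hax x hx).1 j Q).1 hQ
        rw [hL.1, hL.2, hq.1, hq.2, sub_self]
        exact ⟨rfl, rfl⟩)
      by_contra hne
      obtain ⟨σ, hσ⟩ := (hTyU D hax x hx).2 d' hd'Z hne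
      exact hσ (h0 σ)
  intro t ht t' ht' k hk hΞ
  rw [← sub_eq_zero]
  refine key k _ (sub_mem ht ht') ?_ fun j hj => ?_
  · rw [smul_sub, hk, sub_self]
  · rw [Pi.sub_apply, hΞ j hj, sub_self]

end Pool.Agent.MP72B
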