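import Pool.Agent.Lib.MP_72e2e6_nt.Sm.B.SpecA

/-!
# MP_72e2e6_nt, `Sm/B/Uq`: uniqueness of the cocycle, additivity
-/

namespace Pool.Agent.MP72B

open Finset Pool.Agent.MP72S

theorem tUq : S_Inj → S_Uq := by
  intro hInj G N P ι _ _ _ _ _ _ D hA x hok
  have huq : ∀ t (ψ ψ' : G → N), D.IsZ x t ψ → D.IsZ x t ψ' → ∀ σ, ψ σ = ψ' σ := by
    intro t ψ ψ' h h' σ
    have h0 : D.IsZ x (t + -t) fun σ => ψ σ + -ψ' σ := h.add h'.neg
    rw [add_neg_cancel] at h0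
    have := hInj D hA x hok _ h0 σ
    exact sub_eq_zero.1 (by rw [sub_eq_add_neg]; exact this)
  have h1 : ∀ t (ψ : G → N), D.IsZ x t ψ → ∀ σ, D.coc x t σ = ψ σ := by
    intro t ψ h
    exact huq t _ _ (DatL.coc_spec (D := D) ⟨ψ, h⟩) h
  have h2 : ∀ t ∈ D.Z x, ∀ t' ∈ D.Z x, ∀ σ, D.coc x (t + t') σ = D.coc x t σ + D.coc x t' σ := by
    intro t ht t' ht'
    exact h1 _ _ ((DatL.coc_spec ht).add (DatL.coc_spec ht'))
  have h3 : ∀ σ, D.coc x 0 σ = 0 := h1 0 _ (D.isZ_zero x)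
  have h4 : ∀ t ∈ D.Z x, ∀ (n : ℕ) (σ : G), D.coc x (n • t) σ = n • D.coc x t σ := by
    intro t ht n
    induction n with
    | zero =>
      intro σ
      rw [zero_smul, zero_smul, h3]
    | succ n ih =>
      intro σ
      rw [succ_nsmul, succ_nsmul, h2 _ ((D.Z x).nsmul_mem ht n) _ ht, ih]
  refine ⟨h1, h2, h4, h3, ?_⟩
  intro t ht k hk σ
  rw [← h4 t ht, hk, h3]

end Pool.Agent.MP72B
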