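import Pool.Agent.Lib.MP_72e2e6_nt.Sm.B.SpecB

/-!
# MP_72e2e6_nt, `Sm/B`: module `VCell`, the main inequality for one cell
-/

namespace Pool.Agent.MP72B

open Finset Pool.Agent.MP72S
open Pool.Agent.Lib.MP_72e2e6_nt.Sm.Cnt (vtx Corner CodingData)

private theorem VCell_poly (K A : ℕ) : ∃ L₁ : ℕ, ∀ L : ℕ, L₁ ≤ L → K * L ^ A + 1 ≤ 2 ^ L := by
  have h := tendsto_pow_const_div_const_pow_of_one_lt A (r := (2 : ℝ)) (by norm_num)
  have h2 := h.eventually_lt_const (show (0 : ℝ) < 1 / ((K : ℝ) + 1) by positivity)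
  obtain ⟨L₁, hL₁⟩ := Filter.eventually_atTop.mp h2
  refine ⟨max L₁ 1, fun L hL => ?_⟩
  have h3 := hL₁ L ((le_max_left _ _).trans hL)
  have hL1 : 1 ≤ L := (le_max_right _ _).trans hL
  rw [div_lt_div_iff₀ (by positivity) (by positivity), one_mul] at h3
  have h4 : L ^ A * (K + 1) < 2 ^ L := by exact_mod_cast h3
  have h5 : 1 ≤ L ^ A := Nat.one_le_pow _ _ hL1
  nlinarith

private theorem VCell_idB (K A₀ L : ℕ) (hL : 2 * K + 2 ^ (K + 1) ≤ L) (hL1 : 1 ≤ L) :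
    idB K (L ^ A₀) ≤ 2 ^ L ^ (A₀ * (K + 2) + 2) := by
  have hM : 1 ≤ L ^ A₀ := Nat.one_le_pow _ _ hL1
  have h4 : (L ^ A₀) ^ (K + 2) = L ^ (A₀ * (K + 2)) := by rw [← pow_mul]
  generalize L ^ A₀ = M at hM h4 ⊢
  have h1 : idB K M = 2 ^ (K * M * M + (K + 2 * 2 ^ K) * M ^ K) := by
    unfold idB
    rw [show (4 : ℕ) = 2 ^ 2 by norm_num, ← pow_mul, ← pow_add, ← pow_mul, ← pow_add]
  rw [h1]
  apply Nat.pow_le_pow_right (by norm_num)
  have h2 : M * M ≤ M ^ (K + 2) := by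
    rw [← sq]
    exact Nat.pow_le_pow_right hM (by omega)
  have h3 : M ^ K ≤ M ^ (K + 2) := Nat.pow_le_pow_right hM (by omega)
  calc K * M * M + (K + 2 * 2 ^ K) * M ^ K
      ≤ K * M ^ (K + 2) + (K + 2 * 2 ^ K) * M ^ (K + 2) := by
        rw [mul_assoc]
        gcongr
    _ = (2 * K + 2 ^ (K + 1)) * M ^ (K + 2) := by ring
    _ ≤ L * L ^ (A₀ * (K + 2)) := by
        rw [h4]
        gcongr
    _ = L ^ (A₀ * (K + 2) + 1) := by rw [pow_succ, mul_comm]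
    _ ≤ L ^ (A₀ * (K + 2) + 2) := Nat.pow_le_pow_right hL1 (by omega)

private theorem VCell_card (K A₀ L : ℕ) (hL : K + 1 ≤ L) (hL1 : 1 ≤ L) :
    L + K * L ^ A₀ ≤ L ^ (A₀ * (K + 2) + 2) := by
  have h1 : L ^ A₀ ≤ L ^ (A₀ * (K + 2) + 1) := Nat.pow_le_pow_right hL1 (by nlinarith)
  have h2 : L ^ 1 ≤ L ^ (A₀ * (K + 2) + 1) := Nat.pow_le_pow_right hL1 (by omega)
  rw [pow_one] at h2
  calc L + K * L ^ A₀ ≤ L ^ (A₀ * (K + 2) + 1) + K * L ^ (A₀ * (K + 2) + 1) := by gcongr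
    _ = (K + 1) * L ^ (A₀ * (K + 2) + 1) := by ring
    _ ≤ L * L ^ (A₀ * (K + 2) + 1) := by gcongr
    _ = L ^ (A₀ * (K + 2) + 2) := by rw [pow_succ L (A₀ * (K + 2) + 1), mul_comm]

private theorem VCell_C0 (K X L : ℕ) (hL : 2 * K + 5 ≤ L) (hX : X ≤ 2 ^ L) :
    2 ^ (3 * L) * 2 ^ (2 * K + 1) * X ≤ 2 ^ (L ^ 2) := by
  calc 2 ^ (3 * L) * 2 ^ (2 * K + 1) * X ≤ 2 ^ (3 * L) * 2 ^ (2 * K + 1) * 2 ^ L := by gcongr
    _ = 2 ^ (3 * L + (2 * K + 1) + L) := by rw [← pow_add, ← pow_add]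
    _ ≤ 2 ^ (L ^ 2) := Nat.pow_le_pow_right (by norm_num) (by nlinarith)

private theorem VCell_V (K X Y d L : ℕ) (hL : 2 * K + 2 ^ d ≤ L) (hX : X ≤ L) (hY : Y ≤ 2 ^ d) :
    4 ^ (K * X) * 2 ^ Y ≤ 2 ^ (L ^ 2) := by
  calc 4 ^ (K * X) * 2 ^ Y ≤ 4 ^ (K * L) * 2 ^ (2 ^ d) := by
        gcongr
        · norm_num
        · norm_num
    _ = 2 ^ (2 * (K * L) + 2 ^ d) := by
        rw [show (4 : ℕ) = 2 ^ 2 by norm_num, ← pow_mul, ← pow_add]
    _ ≤ 2 ^ (L ^ 2) := by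
        apply Nat.pow_le_pow_right (by norm_num)
        have h1 : 1 ≤ 2 ^ d := Nat.one_le_two_pow
        nlinarith

theorem tVCell : MP72S.S_Cf → MP72S.S_Spt → S_Sy1 → S_SepS → S_Thx → S_VDat →
    Pool.Agent.Lib.MP_72e2e6_nt.Sm.Cnt.S_Min2 → S_VCell := by
  intro hCf hSpt _ hSepS hThx hVDat hMin2 K d e hK
  obtain ⟨A₀, L₀', hmain⟩ := hMin2 K (4 ^ (K * (3 * K + 3 + d))) e hK
  obtain ⟨L₁, hL₁⟩ := VCell_poly K A₀
  refine ⟨A₀ * (K + 2) + 2, max L₀' (max L₁ (2 * K + 2 ^ (K + 1) + 2 ^ d + 5)), fun L hL => ?_⟩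
  have hLa : L₀' ≤ L := (le_max_left _ _).trans hL
  have hLb : L₁ ≤ L := (le_max_left _ _).trans ((le_max_right _ _).trans hL)
  have hLc : 2 * K + 2 ^ (K + 1) + 2 ^ d + 5 ≤ L :=
    (le_max_right _ _).trans ((le_max_right _ _).trans hL)
  have hp1 : 0 < 2 ^ (K + 1) := by positivity
  have hp2 : 0 < 2 ^ d := by positivity
  have hK1 : K < 2 ^ (K + 1) := (Nat.lt_two_pow_self).trans
    (Nat.pow_lt_pow_right (by norm_num) (by omega))
  have hL1 : 1 ≤ L := by linarith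
  have hLd : 2 * K + 2 ^ (K + 1) ≤ L := by linarith
  have hLe : 2 * K + 5 ≤ L := by linarith
  have hLf : 2 * K + 2 ^ d ≤ L := by linarith
  have hn1 := VCell_idB K A₀ L hLd hL1
  have hn2 := VCell_card K A₀ L (by linarith) hL1
  have hn3 := VCell_C0 K (K * L ^ A₀ + 1) L hLe (hL₁ L hLb)
  intro G N P ι _ _ _ _ _ _ _ D Gb hD hD2 hGt hGc S b I R hSR hok hSS hJ hSI hFew s Lam Tx f
    γ t' hC hLfin hLcard hLam hnz
  classical
  by_cases hz : ∃ z₀ ∈ tup S, D.IsSt K z₀ s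
  swap
  · have h0 : {z | z ∈ tup S ∧ (D.IsSt K z s ∧ f ∈ D.Dk z (K + 1))} = (∅ : Set (ι → P)) := by
      ext z
      simp only [Set.mem_ofPred_eq, Set.mem_empty_iff_false, iff_false]
      exact fun h => hz ⟨z, h.1, h.2.1⟩
    rw [h0, Set.ncard_empty]
    push_cast
    have : (0 : ℝ) ≤ ∏ i, (#(S i) : ℝ) := prod_nonneg fun i _ => by positivity
    positivity
  obtain ⟨z₀, hz₀, hst⟩ := hz
  obtain ⟨Ξ, hSep, hΞ⟩ := hThx D hD z₀ (hok z₀ hz₀) (insert b I)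
  have hΞ2 : #Ξ ≤ 3 * K + 3 + d := by
    rw [(hLam z₀ hz₀ hst.1).1, card_insert_of_notMem hC.hb, hC.cK] at hΞ
    have h1 : 2 ^ #Ξ ≤ 2 ^ (3 * K + 3 + d) := by
      calc 2 ^ #Ξ ≤ 8 ^ (K + 1) * Nat.card Lam := hΞ
        _ ≤ 8 ^ (K + 1) * 2 ^ d := by gcongr
        _ = 2 ^ (3 * K + 3 + d) := by
          rw [show (8 : ℕ) = 2 ^ 3 by norm_num, ← pow_mul, ← pow_add]
          congr 1
    exact (Nat.pow_le_pow_iff_right (by norm_num)).mp h1
  have hΞ4 : 4 ^ (K * #Ξ) ≤ 4 ^ (K * (3 * K + 3 + d)) := by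
    apply Nat.pow_le_pow_right (by norm_num)
    gcongr
  have hcardι : #D.S + Fintype.card ι ≤ L := by
    rw [Fintype.card_sum, Fintype.card_coe] at hJ
    exact hJ
  have hspt := hSpt S I b hC.hb (fun x => Function.Injective x ∧ D.IsSt K x s)
    (fun x => (Function.Injective x ∧ D.IsSt K x s) ∧ f ∈ D.Dk x (K + 1)) (15 / 16)
    (1 / (L : ℝ) ^ e) (by norm_num) (by positivity) ?_
  · have h1 : {z | z ∈ tup S ∧ (D.IsSt K z s ∧ f ∈ D.Dk z (K + 1))} = {x : ι → P |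
        (∀ i, x i ∈ S i) ∧ ((Function.Injective x ∧ D.IsSt K x s) ∧ f ∈ D.Dk x (K + 1))} := by
      ext z
      constructor
      · rintro ⟨h1, h2, h3⟩
        exact ⟨h1.1, ⟨h1.2, h2⟩, h3⟩
      · rintro ⟨h1, ⟨h2, h3⟩, h4⟩
        exact ⟨⟨h1, h2⟩, h3, h4⟩
    have h2 : {z | z ∈ tup S ∧ D.IsSt K z s} = {x : ι → P |
        (∀ i, x i ∈ S i) ∧ (Function.Injective x ∧ D.IsSt K x s)} := by
      ext z
      exact ⟨fun h => ⟨h.1.1, h.1.2, h.2⟩, fun h => ⟨⟨h.1, h.2.1⟩, h.2.2⟩⟩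
    rw [h1, h2]
    exact hspt
  · intro R' hR'
    let T : Finset P := (univ.filter fun j => j ∉ I ∧ j ≠ b).image R'
    have hT : #T ≤ Fintype.card ι := card_image_le.trans (card_filter_le _ _)
    have hm := hmain L hLa (ι := {i // i ∈ I}) (β := {c // c ∈ S b}) (fun i => S i.1) T
      (fun u c => Function.Injective (fun j => if h : j ∈ I then u ⟨j, h⟩ else
        if j = b then c.1 else R' j) ∧ D.IsSt K (fun j => if h : j ∈ I then u ⟨j, h⟩ else
        if j = b then c.1 else R' j) s)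
      (fun u c => (Function.Injective (fun j => if h : j ∈ I then u ⟨j, h⟩ else
        if j = b then c.1 else R' j) ∧ D.IsSt K (fun j => if h : j ∈ I then u ⟨j, h⟩ else
        if j = b then c.1 else R' j) s) ∧ f ∈ D.Dk (fun j => if h : j ∈ I then u ⟨j, h⟩ else
        if j = b then c.1 else R' j) (K + 1))
      (by rw [Fintype.card_coe, hC.cK]) (fun i => hSI i.1 i.2) (by nlinarith) ?_
    · rw [Fintype.card_coe] at hm
      exact hm
    · intro e' he hinj heT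
      let g : Grd P ι (L ^ A₀) := ⟨b, I, e', R'⟩
      have hg : D.Gok S g := by
        refine ⟨hC.hb, hinj, he, ?_, fun i _ => hSS i, hok⟩
        intro k j h1 h2 h3
        refine heT k ?_
        rw [show e' k = R' j from h3]
        exact mem_image_of_mem _ (mem_filter.mpr ⟨mem_univ _, h1, h2⟩)
      have hLam' : ∀ c p, D.Gp S g s c p → D.Dk (g.cf c p) 1 = Lam ∧ D.T (g.cf c p) = Tx := fun c p hp =>
        hLam _ hp.1 hp.2
      have hSep' : ∀ c p, D.Gp S g s c p → D.Sep (g.cf c p) (insert g.b g.I) Ξ := by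
        intro c p hp
        refine hSepS D hD z₀ _ _ Ξ (hok z₀ hz₀) (hok _ hp.1) ?_ (hst.1.trans hp.2.symm) hSep
        intro i hi
        rw [mem_insert, not_or] at hi
        have h1 := hz₀.1 i
        have h2 := hp.1.1 i
        rw [hSR i hi.2 hi.1, mem_singleton] at h1 h2
        rw [h1, h2]
      have hnz' : ∀ c p, D.Zp S g K s c p → ∃ σ, D.e (D.coc (g.cf c p) f σ) t' = 1 :=
        fun c p hp => hnz _ hp.1 hp.2
      have hAc : #(D.S ∪ (univ.image e' ∪ T)) ≤ L ^ (A₀ * (K + 2) + 2) := by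
        have h1 : #(univ.image e') ≤ K * L ^ A₀ := by
          refine card_image_le.trans ?_
          rw [card_univ, Fintype.card_prod, Fintype.card_coe, Fintype.card_fin, hC.cK]
        have h2 := card_union_le D.S (univ.image e' ∪ T)
        have h3 := card_union_le (univ.image e') T
        omega
      have hFew' : D.FewL Gb (D.S ∪ (univ.image e' ∪ T)) (idB K (L ^ A₀)) (2 ^ (3 * L)) (S g.b) := by
        have h1 := hFew (D.S ∪ (univ.image e' ∪ T)) hAc (by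
          intro v hv
          rcases mem_union.mp hv with hv | hv
          · exact Or.inl hv
          · rcases mem_union.mp hv with hv | hv
            · obtain ⟨k, -, rfl⟩ := mem_image.mp hv
              exact Or.inr ⟨_, he k⟩
            · obtain ⟨j, hj, rfl⟩ := mem_image.mp hv
              exact Or.inr ⟨j, hR' j (mem_filter.mp hj).2.1 (mem_filter.mp hj).2.2⟩)
        exact fun H h2 h3 h4 h5 => h1 H h2 h3 (h4.trans hn1) h5
      obtain ⟨𝒜, T1, T2, V, i0, i1, i2, i3, C, hT1, hT2, hV, hCZ, hCY⟩ := hVDat D Gb hD hD2 hGt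
        hGc S g s hg K Lam Tx f γ t' Ξ hLfin hC hLam' hSep' hnz' (D.S ∪ (univ.image e' ∪ T))
        subset_union_left
        (fun k => mem_union_right _ (mem_union_left _ (mem_image_of_mem _ (mem_univ k))))
        (fun j h1 h2 => mem_union_right _ (mem_union_right _
          (mem_image_of_mem _ (mem_filter.mpr ⟨mem_univ _, h1, h2⟩)))) (2 ^ (3 * L)) hFew'
      have hmem : ∀ (c : {c // c ∈ S b}) (p : {i // i ∈ I} → Fin (L ^ A₀)) (i : ι),
          g.cf c.1 p i ∈ S i := by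
        intro c p i
        obtain ⟨-, h2, h3, h4, -⟩ := hCf g hC.hb c.1 c.1 p p
        by_cases hi : i ∈ I
        · rw [h3 i hi]
          exact he (⟨i, hi⟩, p ⟨i, hi⟩)
        · by_cases hib : i = b
          · subst hib
            rw [show g.cf c.1 p i = c.1 from h2]
            exact c.2
          · rw [h4 i hi hib]
            exact hR' i hi hib
      refine ⟨𝒜, T1, T2, V, i0, i1, i2, i3, _, C, hn3, hT1.trans hΞ4, hT2.trans hΞ4,
        hV.trans (VCell_V K _ _ d L hLf hJ hLcard), ?_, ?_⟩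
      · intro c w
        rw [hCZ]
        exact ⟨fun h => ⟨h.1.2, h.2⟩, fun h => ⟨⟨hmem c w, h.1⟩, h.2⟩⟩
      · intro c w
        rw [hCY]
        exact ⟨fun h => ⟨⟨h.1.1.2, h.1.2⟩, h.2⟩, fun h => ⟨⟨⟨hmem c w, h.1.1⟩, h.1.2⟩, h.2⟩⟩

end Pool.Agent.MP72B
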