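import Pool.Agent.Lib.MP_72e2e6_nt.Sm.B.SpecB

/-!
# MP_72e2e6_nt, `Sm/B`: module `VDat`, the coding data of a grid (general local conditions)
-/

namespace Pool.Agent.MP72B

open Finset Pool.Agent.MP72S
open Pool.Agent.Lib.MP_72e2e6_nt.Sm.Cnt (vtx Corner CodingData)

section

variable {G N P : Type} [Group G] [TopologicalSpace G] [IsTopologicalGroup G] [AddCommGroup N]
  [DistribMulAction G N] (D : DatL G N P) {ι : Type} [Fintype ι] [DecidableEq ι] {M : ℕ}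

/-- The recorded values of the halves. -/
private abbrev VDat_T1 (I : Finset ι) (K : ℕ) (Ξ : Finset (D.J ι)) : Type :=
  {θ : D.J ι → N // 2 ≤ K ∧ 2 ^ (K - 1) • θ = 0 ∧ (∀ k, k ∉ Ξ → θ k = 0) ∧
    ∀ i ∈ I, 2 ^ (K - 2) • θ (Sum.inr i) = 0}

/-- The recorded values of the liftable types. -/
private abbrev VDat_T2 (f : D.J ι → N) (K : ℕ) (Ξ : Finset (D.J ι)) : Type :=
  {θ : D.J ι → N // (∀ k ∈ Ξ, 2 ^ (K - 1) • θ k = f k) ∧ ∀ k, k ∉ Ξ → θ k = 0}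

private abbrev VDat_A (I : Finset ι) (M : ℕ) : Type :=
  ({i // i ∈ I} × Fin M → ZMod 2) × Option ({i // i ∈ I} × Fin M) × Bool

omit [Fintype ι] in
private theorem VDat_cardA (I : Finset ι) (M : ℕ) :
    Nat.card (VDat_A I M) = 2 ^ (#I * M) * ((#I * M + 1) * 2) := by
  rw [Nat.card_eq_fintype_card]
  simp [Fintype.card_prod, Fintype.card_option, ZMod.card]

omit [IsTopologicalGroup G] in
private theorem VDat_val (S : ι → Finset P) (g : Grd P ι M) (K : ℕ) (s : D.ST ι)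
    (f : D.J ι → N) (Ξ : Finset (D.J ι)) (θ : D.J ι → N) (c : P)
    (p : {i // i ∈ g.I} → Fin M) (h : D.Lq S g K s f Ξ θ c p) :
    ∀ k ∈ Ξ, 2 ^ (K - 1) • θ k = f k := by
  obtain ⟨-, t, -, h1, h2⟩ := h
  intro k hk
  rw [← h2 k hk, ← h1]
  rfl

omit [IsTopologicalGroup G] in
open Classical in
private theorem VDat_norm (S : ι → Finset P) (g : Grd P ι M) (K : ℕ) (s : D.ST ι)
    (f : D.J ι → N) (Ξ : Finset (D.J ι)) (θ : D.J ι → N) (c : P) :
    D.Lq S g K s f Ξ θ c = D.Lq S g K s f Ξ (fun k => if k ∈ Ξ then θ k else 0) c := by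
  funext p
  refine propext (and_congr_right fun _ => exists_congr fun t => and_congr_right fun _ =>
    and_congr_right fun _ => forall₂_congr fun k hk => ?_)
  simp only [if_pos hk]

open Classical in
private theorem VDat_data (hDom : S_Dom) (hHg : S_VHg) (hHz : S_VHz) (hHl : S_VHl)
    (hCls : S_VCls) (Gb : Subgroup G) (hD : AxL D) (hD2 : Ax2 D.toDat) (hGt : ∀ v, D.tau v ∈ Gb)
    (hGc : ∀ σ τ : G, σ * τ * σ⁻¹ * τ⁻¹ ∈ Gb) (S : ι → Finset P) (g : Grd P ι M) (s : D.ST ι)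
    (hg : D.Gok S g) (K : ℕ) (Lam Tx : AddSubgroup (D.J ι → N)) (f : D.J ι → N)
    (γ : (D.J ι → N) → ZMod 2) (t' : N) (Ξ : Finset (D.J ι)) (hC : D.Cho g.I g.b K s Lam Tx f γ t')
    (hLam : ∀ c p, D.Gp S g s c p → D.Dk (g.cf c p) 1 = Lam ∧ D.T (g.cf c p) = Tx)
    (hSep : ∀ c p, D.Gp S g s c p → D.Sep (g.cf c p) (insert g.b g.I) Ξ)
    (hnz : ∀ c p, D.Zp S g K s c p → ∃ σ, D.e (D.coc (g.cf c p) f σ) t' = 1)
    (A : Finset P) (hSA : D.S ⊆ A) (hAe : ∀ k, g.e k ∈ A)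
    (hAR : ∀ j, j ∉ g.I → j ≠ g.b → g.R j ∈ A) (Λ : ℕ) (hΛ : D.FewL Gb A (idB K M) Λ (S g.b))
    [Fintype (VDat_T1 D g.I K Ξ)] [Fintype (VDat_T2 D f K Ξ)] [Fintype (D.GV K Lam)] :
    ∃ C : CodingData {i // i ∈ g.I} M {c // c ∈ S g.b} (VDat_A g.I M) (VDat_T1 D g.I K Ξ)
      (VDat_T2 D f K Ξ) (D.GV K Lam) (Λ * 2 ^ (2 * K + 1) * (K * M + 1)),
      (∀ b w, w ∈ C.Z b ↔ D.Zp S g K s b.1 w) ∧ ∀ b w, w ∈ C.Y b ↔ D.Yp S g K s f b.1 w := by
  refine ⟨{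
    a := fun c => D.cod S g s c.1
    g := fun θ c => D.gfx S g s K Lam Ξ θ.1 c.1
    Dom := fun _ α p => ∃ c' ∈ S g.b, D.cod S g s c' = α ∧ D.Gp S g s c' p
    Z := fun c => univ.filter fun p => D.Zp S g K s c.1 p
    Y := fun c => univ.filter fun p => D.Yp S g K s f c.1 p
    L := fun θ c => univ.filter fun p => D.Lq S g K s f Ξ θ.1 c.1 p
    hs := ?_
    hg := ?_
    hZ := ?_
    hYZ := ?_
    hLY := ?_
    hYL := ?_
    hL := ?_
    hP := ?_ }, ?_, ?_⟩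
  · intro θ c p hne
    refine ⟨c.1, c.2, rfl, ?_⟩
    by_contra h
    apply hne
    unfold DatL.gfx
    rw [dif_neg]
    exact fun h2 => h h2.1
  · intro θ c c' hcc x p hx hdom hw
    have h1 : ∀ w, D.Gp S g s c.1 (vtx x p w) := by
      intro w
      obtain ⟨c1, -, h2, h3⟩ := hdom w
      exact hDom D hD S g s hg c1 c.1 h2 _ h3
    have h2 : ∀ w, D.Gp S g s c'.1 (vtx x p w) := fun w =>
      hDom D hD S g s hg c.1 c'.1 hcc _ (h1 w)
    obtain ⟨hk2, -, -, hθ2⟩ := θ.2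
    have h3 := hHg D hD S g s hg Lam Ξ (fun c p h => (hLam c p h).1) hSep θ.1 (by rw [hC.cK]; exact hk2)
      (by rw [hC.cK]; exact hθ2) c.1 c'.1 x p hx h1 h2
    rw [hC.cK] at h3
    exact h3 hw
  · intro c c' hcc hgg
    have h1 : ∀ θ : D.J ι → N, 2 ≤ K → 2 ^ (K - 1) • θ = 0 → (∀ k, k ∉ Ξ → θ k = 0) →
        (∀ i ∈ g.I, 2 ^ (K - 2) • θ (Sum.inr i) = 0) →
        D.gfx S g s K Lam Ξ θ c.1 = D.gfx S g s K Lam Ξ θ c'.1 := fun θ h1 h2 h3 h4 =>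
      hgg ⟨θ, h1, h2, h3, h4⟩
    ext p
    simp only [mem_filter, mem_univ, true_and]
    exact ⟨hHz D hD hD2 S g s hg K Lam Tx f γ t' Ξ hC hLam hSep c.1 c'.1 hcc h1 p,
      hHz D hD hD2 S g s hg K Lam Tx f γ t' Ξ hC hLam hSep c'.1 c.1 hcc.symm
        (fun θ h2 h3 h4 h5 => (h1 θ h2 h3 h4 h5).symm) p⟩
  · intro c p hp
    simp only [mem_filter, mem_univ, true_and] at hp ⊢
    exact hp.1
  · intro θ c p hp
    simp only [mem_filter, mem_univ, true_and] at hp ⊢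
    exact hp.1
  · intro c p hp
    simp only [mem_filter, mem_univ, true_and] at hp
    obtain ⟨t, ⟨ht1, ht2⟩, ht3⟩ := hp.2
    have ht3' : 2 ^ (K + 1 - 1) • t = f := ht3
    have h1 : 2 ^ (K - 1) • (2 • t) = f := by
      rw [smul_smul, ← pow_succ]
      have h2 : K - 1 + 1 = K + 1 - 1 := by
        have := hC.hK
        omega
      rw [h2, ht3']
    refine ⟨⟨fun k => if k ∈ Ξ then 2 • t k else 0, fun k hk => ?_, fun k hk => if_neg hk⟩, ?_⟩
    · simp only [if_pos hk]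
      rw [← h1]
      rfl
    · simp only [mem_filter, mem_univ, true_and]
      exact ⟨hp, t, ht1, h1, fun k hk => (if_pos hk).symm⟩
  · intro θ c c' hcc hgg hYY x p hx hY hw
    simp only [mem_filter, mem_univ, true_and] at hY hw ⊢
    have h1 : ∀ w, D.Yp S g K s f c'.1 (vtx x p w) := by
      intro w
      have h2 : vtx x p w ∈ univ.filter fun p => D.Yp S g K s f c.1 p :=
        mem_filter.mpr ⟨mem_univ _, hY w⟩
      rw [hYY] at h2
      exact (mem_filter.mp h2).2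
    exact ⟨hHl D hD hD2 S g s hg K Lam Tx f γ t' Ξ hC hLam hSep θ.1 c.1 c'.1 x p hx hY h1 hw,
      hHl D hD hD2 S g s hg K Lam Tx f γ t' Ξ hC hLam hSep θ.1 c'.1 c.1 x p hx h1 hY
        fun w hwt => ⟨(hw w hwt).2, (hw w hwt).1⟩⟩
  · intro c₀
    have h1 := hCls D Gb hD hD2 hGt hGc S g s hg K Lam Tx f γ t' Ξ hC hLam hSep hnz A hSA hAe hAR Λ
      hΛ c₀.1
    rw [VDat_cardA, hC.cK, Fintype.card_coe]
    refine le_trans ?_ h1
    have hLL : ∀ (θ : VDat_T2 D f K Ξ) (c : {c // c ∈ S g.b}),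
        (fun p => p ∈ univ.filter fun p => D.Lq S g K s f Ξ θ.1 c.1 p) =
          D.Lq S g K s f Ξ θ.1 c.1 := by
      intro θ c
      funext p
      exact propext ⟨fun h => (mem_filter.mp h).2, fun h => mem_filter.mpr ⟨mem_univ _, h⟩⟩
    have hcard2 : Nat.card {p : {i // i ∈ g.I} → Fin M // ∃ θ : VDat_T2 D f K Ξ,
          Corner (· ∈ univ.filter fun p => D.Lq S g K s f Ξ θ.1 c₀.1 p) p} ≤
        Nat.card {p : {i // i ∈ g.I} → Fin M //
          ∃ θ : D.J ι → N, Corner (D.Lq S g K s f Ξ θ c₀.1) p} := by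
      refine Nat.card_le_card_of_injective (fun p => ⟨p.1, ?_⟩) fun p p' h =>
        Subtype.ext (congrArg (fun z => z.1) h)
      obtain ⟨θ, h2⟩ := p.2
      rw [hLL] at h2
      exact ⟨θ.1, h2⟩
    refine Nat.mul_le_mul_right _ (Nat.mul_le_mul ?_ (Nat.pow_le_pow_right (by norm_num) hcard2))
    have hfin : Finite ({c | c ∈ S g.b ∧ (D.cod S g s c = D.cod S g s c₀.1 ∧
        ∀ θ : D.J ι → N, D.Lq S g K s f Ξ θ c = D.Lq S g K s f Ξ θ c₀.1)} : Set P) :=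
      ((S g.b).finite_toSet.subset fun c hc => hc.1).to_subtype
    rw [← Nat.card_coe_set_eq]
    refine Nat.card_le_card_of_injective (β := ({c | c ∈ S g.b ∧ (D.cod S g s c = D.cod S g s c₀.1 ∧
        ∀ θ : D.J ι → N, D.Lq S g K s f Ξ θ c = D.Lq S g K s f Ξ θ c₀.1)} : Set P))
      (fun c => ⟨c.1.1, c.1.2, c.2.1, fun θ => ?_⟩) ?_
    · by_cases hθ : ∀ k ∈ Ξ, 2 ^ (K - 1) • θ k = f k
      · rw [VDat_norm D S g K s f Ξ θ c.1.1, VDat_norm D S g K s f Ξ θ c₀.1]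
        have h2 := c.2.2.2.2 ⟨fun k => if k ∈ Ξ then θ k else 0, fun k hk => by
          simp only [if_pos hk, hθ k hk], fun k hk => if_neg hk⟩
        rw [← hLL ⟨fun k => if k ∈ Ξ then θ k else 0, fun k hk => by
          simp only [if_pos hk, hθ k hk], fun k hk => if_neg hk⟩ c.1,
          ← hLL ⟨fun k => if k ∈ Ξ then θ k else 0, fun k hk => by
          simp only [if_pos hk, hθ k hk], fun k hk => if_neg hk⟩ c₀, h2]
      · funext p
        exact propext ⟨fun h => absurd (VDat_val D S g K s f Ξ θ _ p h) hθ,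
          fun h => absurd (VDat_val D S g K s f Ξ θ _ p h) hθ⟩
    · intro c c' h
      exact Subtype.ext (Subtype.ext (congrArg (fun z => z.1) h))
  · intro c p
    exact ⟨fun h => (mem_filter.mp h).2, fun h => mem_filter.mpr ⟨mem_univ _, h⟩⟩
  · intro c p
    exact ⟨fun h => (mem_filter.mp h).2, fun h => mem_filter.mpr ⟨mem_univ _, h⟩⟩

end

theorem tVDat : S_Dom → S_VHg → S_VHz → S_VHl → S_VCls → MP72S.S_VCrd → S_VGfx → S_VDat := by
  intro hDom hHg hHz hHl hCls hCrd _ G N P ι _ _ _ _ _ _ _ M D Gb hD hD2 hGt hGc S g s hg K Lam Tx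
    f γ t' Ξ hLf hC hLam hSep hnz A hSA hAe hAR Λ hΛ
  classical
  obtain ⟨-, hc2, hc3⟩ := hCrd (ι := ι) D.toDat hD.ax
  obtain ⟨hf2, hn2⟩ := hc2 K Ξ
  obtain ⟨hf3, hn3⟩ := hc3 K Lam hLf
  have hf2' : Finite {θ : D.J ι → N | 2 ^ K • θ = 0 ∧ ∀ k, k ∉ Ξ → θ k = 0} := hf2
  have hK := hC.hK
  have hpK : ∀ x : N, 2 ^ K • x = 2 • (2 ^ (K - 1) • x) := by
    intro x
    rw [smul_smul, ← pow_succ', Nat.sub_add_cancel hK]
  let φ1 : VDat_T1 D g.I K Ξ → {θ : D.J ι → N | 2 ^ K • θ = 0 ∧ ∀ k, k ∉ Ξ → θ k = 0} :=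
    fun θ => ⟨θ.1, by
      funext k
      have h1 : 2 ^ (K - 1) • θ.1 k = 0 := congrFun θ.2.2.1 k
      change 2 ^ K • θ.1 k = 0
      rw [hpK, h1, smul_zero], θ.2.2.2.1⟩
  let φ2 : VDat_T2 D f K Ξ → {θ : D.J ι → N | 2 ^ K • θ = 0 ∧ ∀ k, k ∉ Ξ → θ k = 0} :=
    fun θ => ⟨θ.1, by
      funext k
      change 2 ^ K • θ.1 k = 0
      by_cases hk : k ∈ Ξ
      · rw [hpK, θ.2.1 k hk]
        exact congrFun (hC.lam2 f hC.fL) k
      · rw [θ.2.2 k hk, smul_zero], θ.2.2⟩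
  have hφ1 : Function.Injective φ1 := fun θ θ' h => Subtype.ext (congrArg (fun z => z.1) h)
  have hφ2 : Function.Injective φ2 := fun θ θ' h => Subtype.ext (congrArg (fun z => z.1) h)
  have i1 : Finite (VDat_T1 D g.I K Ξ) := Finite.of_injective φ1 hφ1
  have i2 : Finite (VDat_T2 D f K Ξ) := Finite.of_injective φ2 hφ2
  let j1 : Fintype (VDat_T1 D g.I K Ξ) := Fintype.ofFinite _
  let j2 : Fintype (VDat_T2 D f K Ξ) := Fintype.ofFinite _
  let j3 : Fintype (D.GV K Lam) := Fintype.ofFinite _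
  obtain ⟨C, hCZ, hCY⟩ := VDat_data D hDom hHg hHz hHl hCls Gb hD hD2 hGt hGc S g s hg K Lam Tx f γ t'
    Ξ hC hLam hSep hnz A hSA hAe hAR Λ hΛ
  refine ⟨VDat_A g.I M, VDat_T1 D g.I K Ξ, VDat_T2 D f K Ξ, D.GV K Lam, inferInstance, j1, j2, j3,
    C, ?_, ?_, ?_, hCZ, hCY⟩
  · rw [← Nat.card_eq_fintype_card]
    refine (Nat.card_le_card_of_injective φ1 hφ1).trans ?_
    rw [Nat.card_coe_set_eq]
    exact hn2
  · rw [← Nat.card_eq_fintype_card]
    refine (Nat.card_le_card_of_injective φ2 hφ2).trans ?_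
    rw [Nat.card_coe_set_eq]
    exact hn2
  · rw [← Nat.card_eq_fintype_card]
    exact hn3

end Pool.Agent.MP72B
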