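import Pool.Agent.Lib.MP_72e2e6_nt.Sm.B.SpecB

/-!
# MP_72e2e6_nt, `Sm/N/VGfx`: characterization of the functions with values
-/

namespace Pool.Agent.MP72B

open Finset Pool.Agent.MP72S
open Pool.Agent.Lib.MP_72e2e6_nt.Sm.Cnt (vtx Corner CodingData)

section

variable {G N P : Type} [Group G] [TopologicalSpace G] [AddCommGroup N] [DistribMulAction G N]
  {D : DatL G N P} {ι : Type} [Fintype ι] [DecidableEq ι] {M : ℕ}

private theorem vGfx_uniq (hT : S_TyX) (hA : AxL D) {g : Grd P ι M} {K : ℕ}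
    {Lam : AddSubgroup (D.J ι → N)} {Ξ : Finset (D.J ι)} {I₀ : Finset ι} {θ : D.J ι → N} {c : P}
    {p : {i // i ∈ g.I} → Fin M} (hok : D.Ok (g.cf c p)) (hsep : D.Sep (g.cf c p) I₀ Ξ)
    {v v' : D.GV K Lam} (h : D.Gv g K Lam Ξ θ c p v) (h' : D.Gv g K Lam Ξ θ c p v') : v = v' := by
  obtain ⟨η, hη⟩ := h.hf
  obtain ⟨η', hη'⟩ := h'.hf
  have e1 : v.1.1 = v'.1.1 := by
    refine hT D hA (g.cf c p) I₀ Ξ hok hsep v.1.1 ⟨_, hη.hf⟩ v'.1.1 ⟨_, hη'.hf⟩ (K - 1) ?_ ?_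
    · rw [v.1.2, v'.1.2]
    · intro j hj
      rw [h.rc j hj, h'.rc j hj]
  refine Prod.ext (Subtype.ext e1) (funext fun ν => ?_)
  by_cases hν : ∀ i ∈ g.I, ν.1 (Sum.inr i) = 0
  · have hη2 : D.IsH (g.cf c p) v'.1.1 η := e1 ▸ hη
    rw [h.ob η hη ν hν, h'.ob η hη2 ν hν, e1]
  · rw [h.ob0 ν hν, h'.ob0 ν hν]

end

open Classical in
theorem tVGfx : S_ObA → S_TyX → S_VGfx := by
  intro hO hT G N P ι _ _ _ _ _ _ M D hA S g s hg K Lam Ξ hLam hSep θ c p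
  refine ⟨?_, ?_, ?_⟩
  · intro v hv
    unfold DatL.gfx at hv
    split_ifs at hv with h
    have hv' := Option.some.inj hv
    rw [← hv']
    exact ⟨h.1, h.2.choose_spec⟩
  · intro hGp ξ η hξ hΞ hη
    have hok : D.Ok (g.cf c p) := hg.ok _ hGp.1
    let v : D.GV K Lam := (⟨ξ, hξ⟩, fun ν =>
      if ∀ i ∈ g.I, ν.1 (Sum.inr i) = 0 then D.ob (g.cf c p) ξ η ν.1 else 0)
    have hv : D.Gv g K Lam Ξ θ c p v := by
      refine ⟨hΞ, ⟨η, hη⟩, ?_, ?_⟩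
      · intro η' hη' ν hν
        have hmem : ν.1 ∈ D.Dk (g.cf c p) 1 := by rw [hLam c p hGp]; exact ν.2
        have h5 := (hO D hA (g.cf c p) hok).2.2.2.2 ξ η η' hη hη' ν.1 hmem
        change (if ∀ i ∈ g.I, ν.1 (Sum.inr i) = 0 then D.ob (g.cf c p) ξ η ν.1 else 0) = _
        rw [if_pos hν, h5]
      · intro ν hν
        change (if ∀ i ∈ g.I, ν.1 (Sum.inr i) = 0 then D.ob (g.cf c p) ξ η ν.1 else 0) = _
        rw [if_neg hν]
    have hex : D.Gp S g s c p ∧ ∃ v, D.Gv g K Lam Ξ θ c p v := ⟨hGp, v, hv⟩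
    refine ⟨hex.2.choose, ?_, ?_⟩
    · unfold DatL.gfx
      rw [dif_pos hex]
    · have e := vGfx_uniq hT hA hok (hSep c p hGp) hex.2.choose_spec hv
      rw [e]
  · intro hGp v v' h h'
    exact vGfx_uniq hT hA (hg.ok _ hGp.1) (hSep c p hGp) h h'

end Pool.Agent.MP72B
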