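import Pool.Agent.Lib.MP_72e2e6_nt.Sm.B.SpecB

/-!
# MP_72e2e6_nt, `Sm/N`: module `VHl` (the completion rule for the sets `Lq`)
-/

namespace Pool.Agent.MP72B

open Finset Pool.Agent.MP72S
open Pool.Agent.Lib.MP_72e2e6_nt.Sm.Cnt (vtx Corner)

private theorem VHl_gp {G N P ι : Type} [Group G] [TopologicalSpace G] [AddCommGroup N]
    [DistribMulAction G N] [Fintype ι] [DecidableEq ι] {M : ℕ} {D : DatL G N P}
    {S : ι → Finset P} {g : Grd P ι M} {s : D.ST ι} {K : ℕ} {f : D.J ι → N} {c : P}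
    {p : {i // i ∈ g.I} → Fin M} (h : D.Yp S g K s f c p) : D.Gp S g s c p :=
  ⟨h.1.1, h.1.2.1⟩

/-- The alternating sum of the constant function over the nonempty subsets is `-1`. -/
private theorem VHl_cpl {P ι A : Type} [DecidableEq ι] [AddCommGroup A] (x y : ι → P)
    (U : Finset ι) (hU : U.Nonempty) (r : (ι → P) → A) (a : A)
    (h : ∀ w ⊆ U, w.Nonempty → r (mx x y w) = a) : cpl x y U r = a := by
  have h1 : ∑ w ∈ U.powerset.erase ∅, (-1 : ℤ) ^ #w • r (mx x y w) =
      ∑ w ∈ U.powerset.erase ∅, (-1 : ℤ) ^ #w • a := by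
    apply sum_congr rfl
    intro w hw
    rw [mem_erase, mem_powerset] at hw
    rw [h w hw.2 (nonempty_iff_ne_empty.2 hw.1)]
  have h2 : ∑ w ∈ U.powerset, (-1 : ℤ) ^ #w = 0 :=
    sum_powerset_neg_one_pow_card_of_nonempty hU
  have h3 : ∑ w ∈ U.powerset.erase ∅, (-1 : ℤ) ^ #w = -1 := by
    rw [← add_sum_erase _ _ (empty_mem_powerset U)] at h2
    rw [card_empty, pow_zero] at h2
    linarith
  rw [cpl, h1, ← sum_smul, h3, neg_smul, one_smul, neg_neg]

/-- A component of the completion. -/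
private theorem VHl_cplap {P ι B N : Type} [DecidableEq ι] [AddCommGroup N] (x y : ι → P)
    (U : Finset ι) (r : (ι → P) → B → N) (k : B) :
    cpl x y U r k = cpl x y U fun z => r z k := by
  simp only [cpl, Pi.neg_apply, Finset.sum_apply, Pi.smul_apply]

/-- A multiple of the completion. -/
private theorem VHl_cplsm {P ι A : Type} [DecidableEq ι] [AddCommGroup A] (x y : ι → P)
    (U : Finset ι) (r : (ι → P) → A) (n : ℕ) :
    n • cpl x y U r = cpl x y U fun z => n • r z := by
  simp only [cpl, smul_neg, Finset.smul_sum]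
  congr 1
  apply sum_congr rfl
  intro w _
  rw [smul_comm]

theorem tVHl : S_VRulL → S_Cf → S_Gdc → S_VHl := by
  intro hRul hCf hGdc G N P ι _ _ _ _ _ _ _ M D hax hax2 S g s hG K Lam Tx f γ t' Ξ hC hD1 hSep θ c
    c' x p hxp hY hY' hL hp
  classical
  by_cases hcc : c = c'
  · subst hcc
    exact hp
  have htop : vtx x p (fun _ => true) = p := by
    funext i
    simp [vtx]
  have hYt : D.Yp S g K s f c' p := by
    have := hY' (fun _ => true)
    rwa [htop] at this
  have hYt' : D.Yp S g K s f c p := by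
    have := hY (fun _ => true)
    rwa [htop] at this
  have hb : g.b ∉ g.I := hC.hb
  have hGd : D.Gd (g.cf c' p) (g.cf c x) (insert g.b g.I) :=
    (hGdc D S g s hG c c' x p hxp).2 hcc (fun w => VHl_gp (hY w)) (fun w => VHl_gp (hY' w))
  have hcard : #(insert g.b g.I) = K + 1 := by
    rw [card_insert_of_notMem hb, hC.cK]
  have hUne : (insert g.b g.I).Nonempty := insert_nonempty _ _
  have hK := hC.hK
  have hf2 : 2 • f = 0 := hC.lam2 f hC.fL
  have hmx : ∀ w : Finset ι, mx (g.cf c' p) (g.cf c x) w =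
      g.cf (if g.b ∈ w then c else c') (vtx x p fun i => decide (i.1 ∉ w)) :=
    (hCf g hb c c' x p).1
  have hgpw : ∀ w : Finset ι, D.Gp S g s (if g.b ∈ w then c else c')
      (vtx x p fun i => decide (i.1 ∉ w)) := by
    intro w
    by_cases hbw : g.b ∈ w
    · rw [if_pos hbw]
      exact VHl_gp (hY _)
    · rw [if_neg hbw]
      exact VHl_gp (hY' _)
  have hDw : ∀ w : Finset ι, D.Dk (mx (g.cf c' p) (g.cf c x) w) 1 = Lam := by
    intro w
    rw [hmx w]
    exact (hD1 _ _ (hgpw w)).1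
  have hDX : D.Dk (g.cf c' p) 1 = Lam := (hD1 _ _ (VHl_gp hYt)).1
  have hex : ∀ w ⊆ insert g.b g.I, w.Nonempty →
      ∃ t ∈ D.Z (mx (g.cf c' p) (g.cf c x) w), 2 ^ (K - 1) • (2 • t) = f ∧
        ∀ k ∈ Ξ, 2 • t k = θ k := by
    intro w hw hne
    rw [hmx w]
    by_cases hbw : g.b ∈ w
    · rw [if_pos hbw]
      by_cases hall : (fun i : {i // i ∈ g.I} => decide (i.1 ∉ w)) = fun _ => true
      · rw [hall, htop]
        exact hp.2
      · exact (hL _ hall).1.2
    · rw [if_neg hbw]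
      have hall : (fun i : {i // i ∈ g.I} => decide (i.1 ∉ w)) ≠ fun _ => true := by
        intro heq
        obtain ⟨i, hi⟩ := hne
        have hiI : i ∈ g.I := by
          rcases mem_insert.1 (hw hi) with h | h
          · exact absurd (h ▸ hi) hbw
          · exact h
        have := congrFun heq ⟨i, hiI⟩
        simp [hi] at this
      exact (hL _ hall).2.2
  let t : (ι → P) → D.J ι → N := fun z =>
    if h : ∃ t ∈ D.Z z, 2 ^ (K - 1) • (2 • t) = f ∧ ∀ k ∈ Ξ, 2 • t k = θ k then h.choose else 0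
  have ht : ∀ w ⊆ insert g.b g.I, w.Nonempty →
      t (mx (g.cf c' p) (g.cf c x) w) ∈ D.Z (mx (g.cf c' p) (g.cf c x) w) ∧
        2 ^ (K - 1) • (2 • t (mx (g.cf c' p) (g.cf c x) w)) = f ∧
        ∀ k ∈ Ξ, 2 • t (mx (g.cf c' p) (g.cf c x) w) k = θ k := by
    intro w hw hne
    have h := hex w hw hne
    have : t (mx (g.cf c' p) (g.cf c x) w) = h.choose := dif_pos h
    rw [this]
    exact h.choose_spec
  obtain ⟨t₀, ht₀, ht₀'⟩ := hRul D hax hax2 (g.cf c' p) (g.cf c x) (insert g.b g.I)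
    (insert g.b g.I) Ξ g.b hGd (mem_insert_self _ _) (by rw [hcard]; omega) (Subset.refl _)
    (hSep _ _ (VHl_gp hYt)) θ f t (by
      intro w hw hne
      rw [hcard, show K + 1 - 2 = K - 1 by omega]
      exact ht w hw hne) hf2 (by
      intro i hi
      rcases mem_insert.1 hi with h | h
      · rw [h]
        exact hC.fb
      · exact hC.fI i h) (by
      rw [hcard]
      exact hYt.2) (by
      intro w _
      rw [hDw w, hDX]) γ t' hC.two (by
      rw [hDX]
      exact hC.add) (by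
      rw [(hD1 _ _ (VHl_gp hYt)).2]
      exact hC.gT) (by
      rw [hDX]
      exact hC.g0) (by
      rw [hDX]
      intro ν hν
      obtain ⟨u, hu, h⟩ := hC.com ν hν
      refine ⟨u, hu, fun i hi => ?_⟩
      rw [erase_insert hb] at hi
      exact h i hi) (by
      rw [hDX, erase_insert hb]
      exact hC.pat) (by
      rw [hcard, Nat.add_sub_cancel, hYt.1.2.2.2]
      exact hC.gO)
  refine ⟨hYt, t₀, ht₀, ?_, fun k hk => ?_⟩
  · rw [ht₀', VHl_cplsm]
    exact VHl_cpl _ _ _ hUne _ _ fun w hw hne => (ht w hw hne).2.1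
  · rw [← Pi.smul_apply, ht₀', VHl_cplap]
    refine VHl_cpl _ _ _ hUne _ _ fun w hw hne => ?_
    rw [Pi.smul_apply]
    exact (ht w hw hne).2.2 k hk

end Pool.Agent.MP72B
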