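import Pool.Agent.Lib.MP_72e2e6_nt.Sm.B.SpecN

/-!
# MP_72e2e6_nt, `Sm/B/VLemE`: completion of halves, families of types
-/

namespace Pool.Agent.MP72B

open Finset Pool.Agent.MP72S

section

variable {G N P : Type} [Group G] [TopologicalSpace G] [AddCommGroup N] [DistribMulAction G N]
  {D : Dat G N P}

private theorem vlemE_e0 (hA : Ax D) {s : N} (hs : 2 • s = 0) : D.e 0 s = 0 := by
  have := hA.e_add 0 0 s (smul_zero _) (smul_zero _) hs
  rw [add_zero] at this
  exact left_eq_add.1 this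

private theorem vlemE_e0' (hA : Ax D) {s : N} (hs : 2 • s = 0) : D.e s 0 = 0 := by
  rw [hA.e_sym s 0 hs (smul_zero _), vlemE_e0 hA hs]

private theorem vlemE_sum2 {κ : Type} (s : Finset κ) (f : κ → N) (hf : ∀ k ∈ s, 2 • f k = 0) :
    2 • ∑ k ∈ s, f k = 0 := by
  rw [Finset.smul_sum]
  exact Finset.sum_eq_zero hf

private theorem vlemE_esum (hA : Ax D) {κ : Type} (s : Finset κ) (f : κ → N)
    (hf : ∀ k ∈ s, 2 • f k = 0) {c : N} (hc : 2 • c = 0) :
    D.e (∑ k ∈ s, f k) c = ∑ k ∈ s, D.e (f k) c := by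
  classical
  induction s using Finset.induction_on with
  | empty => simp [vlemE_e0 hA hc]
  | insert a s ha ih =>
    rw [sum_insert ha, sum_insert ha, hA.e_add _ _ _ (hf a (mem_insert_self a s))
      (vlemE_sum2 s f fun k hk => hf k (mem_insert_of_mem hk)) hc,
      ih fun k hk => hf k (mem_insert_of_mem hk)]

private theorem vlemE_sgn {a : N} (ha : 2 • a = 0) (n : ℕ) : -((-1 : ℤ) ^ n • a) = a := by
  have h1 : -a = a := by
    rw [two_nsmul] at ha
    exact neg_eq_of_add_eq_zero_left ha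
  rcases neg_one_pow_eq_or ℤ n with h | h <;> rw [h]
  · rw [one_smul, h1]
  · rw [neg_smul, one_smul, neg_neg]

private theorem vlemE_lc {κ : Type} (s : Finset κ) (f : κ → G → N)
    (hf : ∀ k ∈ s, IsLocallyConstant (f k)) : IsLocallyConstant fun σ => ∑ k ∈ s, f k σ := by
  classical
  induction s using Finset.induction_on with
  | empty =>
    simp only [sum_empty]
    exact IsLocallyConstant.const (0 : N)
  | insert a s ha ih =>
    simp only [sum_insert ha]
    exact (hf a (mem_insert_self a s)).comp₂ (ih fun k hk => hf k (mem_insert_of_mem hk))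
      (fun a b => a + b)

end

section

variable {G N P ι : Type} [Group G] [TopologicalSpace G] [AddCommGroup N] [DistribMulAction G N]
  [Fintype ι] [DecidableEq ι] {D : DatL G N P}

/-- The defect of a half has values in `V`. -/
private theorem vlemE_df (hA : AxL D) (hFix : S_Fix) (z : ι → P) (hok : D.Ok z)
    (ξ : D.J ι → N) (η : G → N) (hz : D.IsZ z ξ fun σ => 2 • η σ) (j : D.J ι) (g : G)
    (hg : g = D.tau (D.pl z j) ∨ g = D.phi (D.pl z j)) : 2 • D.df z ξ η j g = 0 := by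
  obtain ⟨Q, hQ, hl⟩ := hz.lo j
  have h1 : 2 • η g = tw (D.chi z) g Q - Q := by
    rcases hg with rfl | rfl
    · exact hl.1
    · exact hl.2
  have h2 : D.lm z j (Q - 2 • D.qr z j (ξ j)) = 0 := by
    rw [map_sub, hQ, (hFix D hA z hok).2.2.2.2.2.1 j (ξ j), sub_self]
  have h3 : tw (D.chi z) g (Q - 2 • D.qr z j (ξ j)) = Q - 2 • D.qr z j (ξ j) := by
    have h5 := ((hFix D hA z hok).1 j _).1 h2
    rcases hg with rfl | rfl
    · exact h5.1
    · exact h5.2
  rw [tw_sub, tw_nsmul] at h3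
  rw [DatL.df, smul_sub, h1, smul_sub, sub_eq_zero]
  have h4 : tw (D.chi z) g Q - Q -
      (2 • tw (D.chi z) g (D.qr z j (ξ j)) - 2 • D.qr z j (ξ j)) =
      tw (D.chi z) g Q - 2 • tw (D.chi z) g (D.qr z j (ξ j)) -
        (Q - 2 • D.qr z j (ξ j)) := by abel
  rw [← sub_eq_zero, h4, h3, sub_self]

private theorem vlemE_cpl {κ A : Type} [AddCommGroup A] (x y : ι → P)
    (U : Finset ι) (t : (ι → P) → κ → A) (k : κ) :
    cpl x y U t k = -∑ w ∈ U.powerset.erase ∅, (-1 : ℤ) ^ #w • t (mx x y w) k := by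
  unfold cpl
  rw [Pi.neg_apply, Finset.sum_apply]
  rfl

theorem tVLemE : MP72S.S_Alt → S_Gdf → MP72S.S_Hom → S_Uq → S_Tai → S_Chi → S_Cst →
    MP72S.S_Cmp → S_CmL → MP72S.S_Rcv → S_Dk1 → S_Fix → S_ObR → S_ObA → S_SepF → S_VLemB →
    S_VLemD → S_VLemE := by
  intro hAlt hGdf hHom hUq _ hChi hCst hCmp _ hRcv hDk hFix hObR _ hSepF hVB hVD G N P ι _ _ _ _ _
    _ D hA x y U I₀ Ξ hG hn hUI hSep θ₀ ξ hξ hξθ hθi η hη
  classical
  have hUne : U.Nonempty := card_pos.1 (by omega)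
  have h0 : mx x y ∅ = x := (hAlt (A := ℤ) x y ∅ (fun _ => 0) (fun _ => 0)).1
  have hmm : ∀ W w, mx (mx x y W) y w = mx x y (W ∪ w) :=
    (hAlt (A := ℤ) x y U (fun _ => 0) (fun _ => 0)).2.2.2.1
  obtain ⟨hface, hyx, hyS, -⟩ := hGdf D x y U hG
  have hmem : ∀ w ∈ U.powerset.erase ∅, w ⊆ U ∧ w.Nonempty := by
    intro w hw
    rw [mem_erase, mem_powerset] at hw
    exact ⟨hw.2, nonempty_iff_ne_empty.2 hw.1⟩
  have hokx : D.Ok x := h0 ▸ hG.ok ∅ (empty_subset U)
  -- (1)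
  obtain ⟨hξx, -, -, hcξ⟩ := hVD D hA x y U I₀ Ξ hG hUne hUI hSep θ₀ ξ hξ hξθ hθi
    fun w hw hwn => ⟨_, (hη w hw hwn).hf⟩
  have hξZ : ∀ w ⊆ U, w.Nonempty → ξ (mx x y w) ∈ D.Z (mx x y w) := fun w hw hwn =>
    ⟨_, (hη w hw hwn).hf⟩
  have h2η : ∀ w ⊆ U, w.Nonempty → ∀ σ,
      2 • η (mx x y w) σ = D.coc (mx x y w) (ξ (mx x y w)) σ :=
    fun w hw hwn σ => ((hUq D hA (mx x y w) (hG.ok w hw)).1 _ _ (hη w hw hwn).hf σ).symm
  -- (2)
  have h2η₁ : ∀ σ, 2 • cmp x y U η σ = D.coc x (cpl x y U ξ) σ := by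
    intro σ
    rw [hcξ σ, MP72S.cmp, MP72S.cmp, smul_neg, Finset.smul_sum]
    congr 1
    apply Finset.sum_congr rfl
    intro w hw
    rw [smul_comm, h2η w (hmem w hw).1 (hmem w hw).2]
  -- (3)
  have hco : IsCo (D.chi x) (cmp x y U η) := by
    apply hCmp D.toDat η x y U hG.ne fun w hw hwn => (hη w hw hwn).u.co
    intro W hW hWn σ
    have hWc : 1 ≤ #W := card_pos.2 hWn
    have hWU : #W ≤ #U := card_le_card hW
    have hUW : #(U \ W) = #U - #W := by rw [card_sdiff_of_subset hW]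
    have hg := hface W hW (U \ W) sdiff_subset disjoint_sdiff
    have hne : ∀ w, (W ∪ w).Nonempty := fun w => hWn.mono subset_union_left
    have hb := (hVB D hA (mx x y W) y (U \ W) I₀ Ξ hg (sdiff_subset.trans hUI)
      (hSepF D hA x y U I₀ Ξ hG hUI hSep W hW) (#U - #W) (2 ^ (#W - 1) • θ₀)
      (fun z => 2 ^ (#W - 1) • ξ z) hUW.ge
      (fun w hw => by
        rw [hmm, ← mul_smul, ← pow_add, show #U - #W + (#W - 1) = #U - 1 by omega]
        exact hξ _ (union_subset hW (hw.trans sdiff_subset)) (hne w))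
      (fun w hw k hk => by
        rw [hmm, Pi.smul_apply, Pi.smul_apply,
          hξθ _ (union_subset hW (hw.trans sdiff_subset)) (hne w) k hk])
      (fun i hi => by
        have hi' := mem_sdiff.1 hi
        have : 1 ≤ #(U \ W) := card_pos.2 ⟨i, hi⟩
        rw [Pi.smul_apply, ← mul_smul, ← pow_add,
          show #U - #W - 1 + (#W - 1) = #U - 2 by omega]
        exact hθi i hi'.1)
      (fun w hw => by
        rw [hmm]
        exact (D.Z _).nsmul_mem (hξZ _ (union_subset hW (hw.trans sdiff_subset)) (hne w)) _)).1 σ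
    have h1 : 2 ^ #W • alt (mx x y W) y (U \ W) (fun z => η z σ) =
        alt (mx x y W) y (U \ W) (fun z => D.coc z (2 ^ (#W - 1) • ξ z) σ) := by
      rw [alt, alt, Finset.smul_sum]
      apply Finset.sum_congr rfl
      intro w hw
      have hw' : W ∪ w ⊆ U := union_subset hW ((mem_powerset.1 hw).trans sdiff_subset)
      rw [hmm, (hUq D hA (mx x y (W ∪ w)) (hG.ok _ hw')).2.2.1 _ (hξZ _ hw' (hne w)) _ σ,
        ← h2η _ hw' (hne w), ← mul_smul (2 ^ (#W - 1)) 2, ← pow_succ,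
        Nat.sub_add_cancel hWc, smul_comm]
    rw [h1]
    exact hb
  -- (5)
  have hyr : ∀ i ∈ U, y i ∉ Set.range (D.pl x) := by
    rintro i hi ⟨j, hj⟩
    rcases j with s | k
    · exact hyS i hi (hj ▸ s.2)
    · exact hyx i hi k hj.symm
  have hu2 : ∀ i ∈ U, 2 • cmp x y U η (D.tau (y i)) = 0 := by
    intro i hi
    rw [h2η₁, (DatL.coc_spec hξx).u.ur _ (hyr i hi)]
  have hinfr : D.inf ∈ Set.range (D.pl x) := ⟨Sum.inl ⟨D.inf, hA.ax.infS⟩, rfl⟩
  obtain ⟨θ, hθ, hθ1, hθ2, -⟩ := (hHom D.toDat hA.ax).2.1 (U.image y)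
    (fun v => if v ∈ U.image y then cmp x y U η (D.tau v) else 0) 0
    (by
      intro h
      obtain ⟨i, hi, hi'⟩ := mem_image.1 h
      exact hyr i hi (hi'.symm ▸ hinfr))
    (by
      intro v
      beta_reduce
      split_ifs with h
      · obtain ⟨i, hi, rfl⟩ := mem_image.1 h
        exact hu2 i hi
      · exact smul_zero _)
    (smul_zero _)
  have hθy : ∀ i ∈ U, θ (D.tau (y i)) = cmp x y U η (D.tau (y i)) := by
    intro i hi
    have h := hθ1 (y i) (mem_image_of_mem y hi)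
    rw [h, if_pos (mem_image_of_mem y hi)]
  have hθ0 : ∀ v, v ∉ Set.range (D.pl x) → (∀ i ∈ U, v ≠ y i) → θ (D.tau v) = 0 := by
    intro v hv hv'
    apply hθ2 v
    · intro h
      obtain ⟨i, hi, hi'⟩ := mem_image.1 h
      exact hv' i hi hi'.symm
    · rintro rfl
      exact hv hinfr
  -- (7)
  have hlc : IsLocallyConstant (cmp x y U η) := by
    have h1 : IsLocallyConstant fun σ => ∑ w ∈ U.powerset.erase ∅,
        (-1 : ℤ) ^ #w • η (mx x y w) σ := by
      apply vlemE_lc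
      intro w hw
      exact (hη w (hmem w hw).1 (hmem w hw).2).u.lc.comp fun a => (-1 : ℤ) ^ #w • a
    exact h1.comp fun a => -a
  have hU : D.IsU x fun σ => cmp x y U η σ + θ σ := by
    refine ⟨hlc.comp₂ hθ.lc (fun a b => a + b), fun σ τ => ?_, ?_, fun v hv => ?_⟩
    · rw [hco σ τ, hθ.mul, tw_add, tw_two hA.ax.tri (hθ.two τ)]
      abel
    · obtain ⟨k, hk⟩ := (DatL.coc_spec hξx).u.bd
      refine ⟨k + 1, fun σ => ?_⟩
      rw [pow_succ, mul_smul, smul_add, h2η₁, hθ.two, add_zero, hk]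
    · by_cases hvy : ∃ i ∈ U, v = y i
      · obtain ⟨i, hi, rfl⟩ := hvy
        rw [hθy i hi, ← two_nsmul, hu2 i hi]
      · push Not at hvy
        rw [hθ0 v hv hvy, add_zero, MP72S.cmp, neg_eq_zero]
        apply Finset.sum_eq_zero
        intro w hw
        rw [(hη w (hmem w hw).1 (hmem w hw).2).u.ur v, smul_zero]
        rintro ⟨j, hj⟩
        rcases j with s | k
        · exact hv ⟨Sum.inl s, hj⟩
        · by_cases hk : k ∈ w
          · apply hvy k ((hmem w hw).1 hk)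
            rw [← hj]
            exact if_pos hk
          · apply hv
            refine ⟨Sum.inr k, ?_⟩
            rw [← hj]
            exact (if_neg hk).symm
  have h2η' : (fun σ => 2 • (cmp x y U η σ + θ σ)) = D.coc x (cpl x y U ξ) := by
    funext σ
    rw [smul_add, h2η₁, hθ.two, add_zero]
  have hH : D.IsH x (cpl x y U ξ) fun σ => cmp x y U η σ + θ σ := by
    refine ⟨hU, ?_⟩
    rw [h2η']
    exact DatL.coc_spec hξx
  refine ⟨_, hH, fun ν hνw hνi => ?_⟩
  have hinj := (hDk D hA x hokx).2.2.2.2.2.2.2.2.1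
  -- (8)
  have hνZ : ∀ w ⊆ U, ν ∈ D.Z (mx x y w) ∧ 2 • ν = 0 := fun w hw =>
    ((hDk D hA (mx x y w) (hG.ok w hw)).1 _).1 (hνw w hw)
  have hν2 : 2 • ν = 0 := (hνZ ∅ (empty_subset U)).2
  have hνx : ν ∈ D.Z x := by
    have := (hνZ ∅ (empty_subset U)).1
    rwa [h0] at this
  obtain ⟨hceq, hcst⟩ := hCst D hA x y U hG ν hν2 hνi fun w hw => (hνZ w hw).1
  have hc2 : ∀ σ, 2 • D.coc x ν σ = 0 := by
    intro σ
    have := (hUq D hA x hokx).2.2.2.2 ν hνx 1 (by simpa using hν2) σ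
    simpa using this
  -- the cocycle of ν vanishes at the places in U
  have hv0 : ∀ w ⊆ U, ∀ i ∈ U, D.coc x ν (D.tau (mx x y w i)) = 0 ∧
      D.coc x ν (D.phi (mx x y w i)) = 0 := by
    intro w hw i hi
    by_cases hiw : i ∈ w
    · have h1 : mx x y w i = y i := if_pos hiw
      rw [h1]
      exact ⟨hcst i hi _ (Or.inr (Or.inr (Or.inl rfl))),
        hcst i hi _ (Or.inr (Or.inr (Or.inr rfl)))⟩
    · have h1 : mx x y w i = x i := if_neg hiw
      rw [h1]
      exact ⟨hcst i hi _ (Or.inl rfl), hcst i hi _ (Or.inr (Or.inl rfl))⟩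
  have hHo : IsHo (D.coc x ν) := by
    refine ⟨(DatL.coc_spec hνx).u.lc, hc2, fun σ τ => ?_⟩
    rw [(DatL.coc_spec hνx).u.co σ τ, tw_two hA.ax.tri (hc2 τ)]
  -- (9)
  have hrec : ∑ j, D.lp θ (D.coc x ν) (D.pl x j) = 0 := by
    have h1 := hRcv D.toDat hA.ax θ (D.coc x ν) (univ.image (D.pl x) ∪ U.image y) hθ hHo (by
      intro v hv
      rw [mem_union, not_or] at hv
      have hvr : v ∉ Set.range (D.pl x) := by
        rintro ⟨j, hj⟩
        exact hv.1 (mem_image.2 ⟨j, mem_univ j, hj⟩)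
      have hvy : ∀ i ∈ U, v ≠ y i := by
        rintro i hi rfl
        exact hv.2 (mem_image_of_mem y hi)
      rw [Dat.lp, hθ0 v hvr hvy, (DatL.coc_spec hνx).u.ur v hvr, vlemE_e0 hA.ax (hc2 _),
        vlemE_e0' hA.ax (hθ.two _), add_zero])
    rw [← Finset.sum_subset (subset_union_left (s₁ := univ.image (D.pl x)) (s₂ := U.image y)),
      Finset.sum_image fun a _ b _ h => hinj h] at h1
    · exact h1
    · intro v hv hv'
      have hv'' : v ∈ U.image y := by
        rcases mem_union.1 hv with h | h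
        · exact absurd h hv'
        · exact h
      obtain ⟨i, hi, rfl⟩ := mem_image.1 hv''
      have h2 := hv0 {i} (singleton_subset_iff.2 hi) i hi
      have h3 : mx x y {i} i = y i := by simp [mx]
      rw [h3] at h2
      rw [Dat.lp, h2.1, h2.2, vlemE_e0' hA.ax (hθ.two _), vlemE_e0' hA.ax (hθ.two _), add_zero]
  -- (10)
  have hνD : ν ∈ D.Dk x 1 := by
    have := hνw ∅ (empty_subset U)
    rwa [h0] at this
  obtain ⟨R, hRdef⟩ : ∃ R : D.J ι → N, ∀ j, R j =
      -∑ w ∈ U.powerset.erase ∅, (-1 : ℤ) ^ #w • D.qr (mx x y w) j (ξ (mx x y w) j) :=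
    ⟨_, fun _ => rfl⟩
  have hR : ∀ j, D.lm x j (2 • R j) = cpl x y U ξ j := by
    intro j
    rw [hRdef, vlemE_cpl, smul_neg, Finset.smul_sum, map_neg, map_sum]
    congr 1
    apply Finset.sum_congr rfl
    intro w hw
    rw [smul_comm, map_zsmul, ← (hChi D hA x y U hG w (hmem w hw).1).2.2.2 j,
      (hFix D hA (mx x y w) (hG.ok w (hmem w hw).1)).2.2.2.2.2.1 j]
  obtain ⟨hO1, hO2⟩ := hObR D hA x hokx (cpl x y U ξ) _ hH R hR
  have hV1 : ∀ j g, (g = D.tau (D.pl x j) ∨ g = D.phi (D.pl x j)) →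
      2 • (cmp x y U η g - (tw (D.chi x) g (R j) - R j)) = 0 := by
    intro j g hg
    have h1 := hO1 j g hg
    have h2 : cmp x y U η g + θ g - (tw (D.chi x) g (R j) - R j) =
        (cmp x y U η g - (tw (D.chi x) g (R j) - R j)) + θ g := by abel
    rw [h2, smul_add, hθ.two, add_zero] at h1
    exact h1
  have hob : D.ob x (cpl x y U ξ) (fun σ => cmp x y U η σ + θ σ) ν =
      ∑ j, D.lp (fun g => cmp x y U η g - (tw (D.chi x) g (R j) - R j)) (D.coc x ν)
        (D.pl x j) := by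
    have h1 : ∀ j, D.lp (fun g => cmp x y U η g + θ g - (tw (D.chi x) g (R j) - R j))
        (D.coc x ν) (D.pl x j) =
        D.lp (fun g => cmp x y U η g - (tw (D.chi x) g (R j) - R j)) (D.coc x ν) (D.pl x j) +
          D.lp θ (D.coc x ν) (D.pl x j) := by
      intro j
      have h2 : ∀ g, cmp x y U η g + θ g - (tw (D.chi x) g (R j) - R j) =
          (cmp x y U η g - (tw (D.chi x) g (R j) - R j)) + θ g := by
        intro g
        abel
      rw [Dat.lp, Dat.lp, Dat.lp, h2, h2, hA.ax.e_add _ _ _ (hV1 j _ (Or.inl rfl)) (hθ.two _) (hc2 _),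
        hA.ax.e_add _ _ _ (hV1 j _ (Or.inr rfl)) (hθ.two _) (hc2 _)]
      abel
    rw [hO2 ν hνD, Finset.sum_congr rfl fun j _ => h1 j, Finset.sum_add_distrib, hrec, add_zero]
  rw [hob]
  have hobw : ∑ w ∈ U.powerset.erase ∅, D.ob (mx x y w) (ξ (mx x y w)) (η (mx x y w)) ν =
      ∑ j, ∑ w ∈ U.powerset.erase ∅,
        D.lp (D.df (mx x y w) (ξ (mx x y w)) (η (mx x y w)) j) (D.coc (mx x y w) ν)
          (D.pl (mx x y w) j) := by
    rw [Finset.sum_comm]
    rfl
  rw [hobw]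
  apply Finset.sum_congr rfl
  intro j _
  by_cases hj : ∃ i ∈ U, j = Sum.inr i
  · -- places in U
    obtain ⟨i, hi, rfl⟩ := hj
    have h1 : D.lp (fun g => cmp x y U η g - (tw (D.chi x) g (R (Sum.inr i)) - R (Sum.inr i)))
        (D.coc x ν) (D.pl x (Sum.inr i)) = 0 := by
      have h2 := hv0 ∅ (empty_subset U) i hi
      rw [h0] at h2
      have h3 : D.pl x (Sum.inr i) = x i := rfl
      have h4 := hV1 (Sum.inr i) _ (Or.inl rfl)
      have h5 := hV1 (Sum.inr i) _ (Or.inr rfl)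
      rw [h3] at h4 h5
      rw [Dat.lp, h3, h2.1, h2.2, vlemE_e0' hA.ax h4, vlemE_e0' hA.ax h5, add_zero]
    rw [h1]
    symm
    apply Finset.sum_eq_zero
    intro w hw
    obtain ⟨hwU, hwn⟩ := hmem w hw
    have h2 := hv0 w hwU i hi
    have h3 : D.pl (mx x y w) (Sum.inr i) = mx x y w i := rfl
    have h4 := vlemE_df hA hFix (mx x y w) (hG.ok w hwU) (ξ (mx x y w)) _ (hη w hwU hwn).hf (Sum.inr i) _
      (Or.inl rfl)
    have h5 := vlemE_df hA hFix (mx x y w) (hG.ok w hwU) (ξ (mx x y w)) _ (hη w hwU hwn).hf (Sum.inr i) _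
      (Or.inr rfl)
    rw [h3] at h4 h5
    rw [Dat.lp, h3, hceq w hwU, hceq w hwU, h2.1, h2.2, vlemE_e0' hA.ax h4, vlemE_e0' hA.ax h5, add_zero]
  · -- other places
    have hpl : ∀ w ⊆ U, D.pl (mx x y w) j = D.pl x j := by
      intro w hw
      rcases j with s | k
      · rfl
      · have hk : k ∉ w := fun h => hj ⟨k, hw h, rfl⟩
        exact if_neg hk
    have hchi : ∀ w ⊆ U, ∀ g, (g = D.tau (D.pl x j) ∨ g = D.phi (D.pl x j)) →
        D.chi (mx x y w) g = D.chi x g := by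
      intro w hw g hg
      rcases j with s | k
      · have := (hChi D hA x y U hG w hw).1 s.1 s.2
        rcases hg with rfl | rfl
        · exact this.1
        · exact this.2
      · have hk : k ∉ w := fun h => hj ⟨k, hw h, rfl⟩
        have := (hChi D hA x y U hG w hw).2.1 k hk
        rcases hg with rfl | rfl
        · exact this.1
        · exact this.2
    have hdf2 : ∀ w ⊆ U, w.Nonempty → ∀ g, (g = D.tau (D.pl x j) ∨ g = D.phi (D.pl x j)) →
        2 • D.df (mx x y w) (ξ (mx x y w)) (η (mx x y w)) j g = 0 := by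
      intro w hw hwn g hg
      apply vlemE_df hA hFix (mx x y w) (hG.ok w hw) (ξ (mx x y w)) _ (hη w hw hwn).hf j g
      rw [hpl w hw]
      exact hg
    have hdf : ∀ g, (g = D.tau (D.pl x j) ∨ g = D.phi (D.pl x j)) →
        cmp x y U η g - (tw (D.chi x) g (R j) - R j) =
          ∑ w ∈ U.powerset.erase ∅, D.df (mx x y w) (ξ (mx x y w)) (η (mx x y w)) j g := by
      intro g hg
      have h1 : ∑ w ∈ U.powerset.erase ∅, D.df (mx x y w) (ξ (mx x y w)) (η (mx x y w)) j g =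
          ∑ w ∈ U.powerset.erase ∅,
            -((-1 : ℤ) ^ #w • D.df (mx x y w) (ξ (mx x y w)) (η (mx x y w)) j g) := by
        apply Finset.sum_congr rfl
        intro w hw
        exact (vlemE_sgn (hdf2 w (hmem w hw).1 (hmem w hw).2 g hg) _).symm
      rw [h1]
      have h2 : ∀ w ∈ U.powerset.erase ∅,
          -((-1 : ℤ) ^ #w • D.df (mx x y w) (ξ (mx x y w)) (η (mx x y w)) j g) =
          -((-1 : ℤ) ^ #w • η (mx x y w) g) +
            (tw (D.chi x) g ((-1 : ℤ) ^ #w • D.qr (mx x y w) j (ξ (mx x y w) j)) -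
              (-1 : ℤ) ^ #w • D.qr (mx x y w) j (ξ (mx x y w) j)) := by
        intro w hw
        rw [tw_zsmul, DatL.df, tw, tw, hchi w (hmem w hw).1 g hg, smul_sub, smul_sub]
        abel
      rw [Finset.sum_congr rfl h2, Finset.sum_add_distrib, Finset.sum_neg_distrib,
        Finset.sum_sub_distrib, ← tw_sum, hRdef, tw_neg, MP72S.cmp]
      abel
    rw [Dat.lp, hdf _ (Or.inl rfl), hdf _ (Or.inr rfl),
      vlemE_esum hA.ax _ _ (fun w hw => hdf2 w (hmem w hw).1 (hmem w hw).2 _ (Or.inl rfl)) (hc2 _),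
      vlemE_esum hA.ax _ _ (fun w hw => hdf2 w (hmem w hw).1 (hmem w hw).2 _ (Or.inr rfl)) (hc2 _),
      ← Finset.sum_add_distrib]
    apply Finset.sum_congr rfl
    intro w hw
    rw [Dat.lp, hpl w (hmem w hw).1, hceq w (hmem w hw).1, hceq w (hmem w hw).1]

end

end Pool.Agent.MP72B
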