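import Pool.Agent.Lib.MP_72e2e6_nt.Sm.B.SpecN

/-!
# MP_72e2e6_nt, `Sm/B/VStar`: the splitting condition, families of types
-/

namespace Pool.Agent.MP72B

open Finset Pool.Agent.MP72S

private theorem VStar_lc_sum {X A κ : Type} [TopologicalSpace X] [AddCommGroup A] (s : Finset κ)
    (f : κ → X → A) (h : ∀ i ∈ s, IsLocallyConstant (f i)) :
    IsLocallyConstant (fun x => ∑ i ∈ s, f i x) := by
  classical
  induction s using Finset.induction_on with
  | empty =>
    simp only [sum_empty]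
    exact IsLocallyConstant.const (0 : A)
  | insert i s hi ih =>
    have h1 := ih fun k hk => h k (mem_insert_of_mem hk)
    have h2 := h i (mem_insert_self i s)
    have h3 := h2.comp₂ h1 (fun a b => a + b)
    simpa [sum_insert hi] using h3

private theorem VStar_congr {P ι A : Type} [DecidableEq ι] [AddCommGroup A] (x y : ι → P)
    (U : Finset ι) (f g : (ι → P) → A) (h : ∀ w ⊆ U, f (mx x y w) = g (mx x y w)) :
    alt x y U f = alt x y U g := by
  unfold alt
  exact sum_congr rfl fun w hw => by rw [h w (mem_powerset.mp hw)]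

private theorem VStar_zero {P ι A : Type} [DecidableEq ι] [AddCommGroup A] (x y : ι → P)
    (U : Finset ι) (f : (ι → P) → A) (h : ∀ w ⊆ U, f (mx x y w) = 0) :
    alt x y U f = 0 := by
  unfold alt
  exact sum_eq_zero fun w hw => by rw [h w (mem_powerset.mp hw), smul_zero]

private theorem VStar_pow {A : Type} [AddCommGroup A] {t : A} {j a : ℕ} (h : 2 ^ j • t = 0)
    (hj : j ≤ a) : 2 ^ a • t = 0 := by
  obtain ⟨b, rfl⟩ := Nat.exists_eq_add_of_le hj
  rw [pow_add, mul_comm, mul_smul, h, smul_zero]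

private theorem VStar_neg {A : Type} [AddCommGroup A] {a : A} (h : 2 • a = 0) : -a = a := by
  rw [two_nsmul] at h
  exact neg_eq_of_add_eq_zero_left h

private theorem VStar_42 {A : Type} [AddCommGroup A] (a : A) : 4 • a = 2 • (2 • a) := by
  rw [← mul_smul, show (2 : ℕ) * 2 = 4 from rfl]

/-- `f (mx x y w) = tw χ g (Q w) - Q w` for all vertices. -/
private theorem VStar_tw {G N P ι : Type} [Group G] [AddCommGroup N] [DistribMulAction G N]
    [DecidableEq ι] (χ : G → ZMod 2) (g : G) (x y : ι → P) (U : Finset ι) (f : (ι → P) → N)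
    (Q : Finset ι → N) (h : ∀ w ⊆ U, f (mx x y w) = tw χ g (Q w) - Q w) :
    alt x y U f = tw χ g (∑ w ∈ U.powerset, (-1 : ℤ) ^ #w • Q w) -
      ∑ w ∈ U.powerset, (-1 : ℤ) ^ #w • Q w := by
  rw [tw_sum, ← sum_sub_distrib]
  unfold alt
  refine sum_congr rfl fun w hw => ?_
  rw [h w (mem_powerset.mp hw), smul_sub, tw_zsmul]

private theorem VStar_four {P ι A : Type} [DecidableEq ι] [AddCommGroup A] (hAlt : MP72S.S_Alt)
    (x y : ι → P) (U : Finset ι) (hU : U.Nonempty) (Q : Finset ι → A) (a : A) (n : ℕ)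
    (hQ : ∀ w ⊆ U, n • Q w = a) : n • (∑ w ∈ U.powerset, (-1 : ℤ) ^ #w • Q w) = 0 := by
  rw [smul_sum]
  have h1 : ∑ w ∈ U.powerset, (-1 : ℤ) ^ #w • a = 0 :=
    (hAlt x y U (fun _ => a) (fun _ => a)).2.2.2.2.2.2.2 a hU
  rw [← h1]
  refine sum_congr rfl fun w hw => ?_
  rw [smul_comm, hQ w (mem_powerset.mp hw)]

/-- the values at higher levels -/
private theorem VStar_key (hAlt : MP72S.S_Alt) (hGdf : S_Gdf) (hUq : S_Uq) (hSepF : S_SepF)
    (hLemB : S_VLemB)
    {G N P ι : Type} [Group G] [TopologicalSpace G] [AddCommGroup N] [DistribMulAction G N]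
    [Fintype ι] [DecidableEq ι] (D : DatL G N P) (hD : AxL D) (x y : ι → P) (U I₀ : Finset ι)
    (Ξ : Finset (D.J ι)) (hG : D.Gd x y U) (hI₀ : U ⊆ I₀) (hSep : D.Sep x I₀ Ξ)
    (ρ : D.J ι → N) (hρ : ∀ i ∈ U, 2 ^ (#U - 2) • ρ (Sum.inr i) = 0)
    (t : (ι → P) → D.J ι → N)
    (ht : ∀ w ⊆ U, w.Nonempty → t (mx x y w) ∈ D.Z (mx x y w) ∧
      2 ^ (#U - 1) • (2 • t (mx x y w)) = 0 ∧ ∀ k ∈ Ξ, 2 • t (mx x y w) k = ρ k) :
    ∀ W ⊆ U, W.Nonempty → ∀ σ,
      2 ^ #W • alt (mx x y W) y (U \ W) (fun z => D.coc z (t z) σ) = 0 := by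
  intro W hW hWn σ
  have hmxu : ∀ W w, mx (mx x y W) y w = mx x y (W ∪ w) :=
    (hAlt x y U (fun _ => (0 : ℤ)) (fun _ => 0)).2.2.2.1
  have h1 := (hAlt (mx x y W) y (U \ W) (fun z => D.coc z (t z) σ)
    (fun z => D.coc z (t z) σ)).2.2.2.2.2.2.1 (2 ^ #W)
  rw [← h1]
  have hne : ∀ w, (W ∪ w).Nonempty := fun w => hWn.mono subset_union_left
  have hcW : 1 ≤ #W := card_pos.mpr hWn
  have hp : (2 : ℕ) ^ #W = 2 ^ (#W - 1) * 2 := by
    rw [← pow_succ]
    congr 1
    omega
  have hsub : ∀ w ⊆ U \ W, W ∪ w ⊆ U := fun w hw => union_subset hW (hw.trans sdiff_subset)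
  have h2 : alt (mx x y W) y (U \ W) (fun z => 2 ^ #W • D.coc z (t z) σ) =
      alt (mx x y W) y (U \ W) (fun z => D.coc z (2 ^ (#W - 1) • (2 • t z)) σ) := by
    refine VStar_congr _ _ _ _ _ fun w hw => ?_
    rw [hmxu]
    obtain ⟨h3, h4⟩ := ht _ (hsub w hw) (hne w)
    rw [← (hUq D hD _ (hG.ok _ (hsub w hw))).2.2.1 _ h3, hp, mul_smul]
  rw [h2]
  have hcU : #(U \ W) = #U - #W := card_sdiff_of_subset hW
  have hcle : #W ≤ #U := card_le_card hW
  refine (hLemB D hD (mx x y W) y (U \ W) I₀ Ξ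
    ((hGdf D x y U hG).1 W hW (U \ W) sdiff_subset disjoint_sdiff) (sdiff_subset.trans hI₀)
    (hSepF D hD x y U I₀ Ξ hG hI₀ hSep W hW) (#U - #W)
    (fun k => 2 ^ (#W - 1) • ρ k) (fun z => 2 ^ (#W - 1) • (2 • t z)) ?_ ?_ ?_ ?_ ?_).1 σ
  · rw [hcU]
  · intro w hw
    rw [hmxu, ← mul_smul, ← pow_add]
    exact VStar_pow (ht _ (hsub w hw) (hne w)).2.1 (by omega)
  · intro w hw k hk
    rw [hmxu, Pi.smul_apply, Pi.smul_apply, (ht _ (hsub w hw) (hne w)).2.2 k hk]
  · intro i hi
    have hpos : 1 ≤ #(U \ W) := card_pos.mpr ⟨i, hi⟩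
    rw [← mul_smul, ← pow_add]
    exact VStar_pow (hρ i (mem_sdiff.mp hi).1) (by omega)
  · intro w hw
    rw [hmxu]
    exact (D.Z _).nsmul_mem ((D.Z _).nsmul_mem (ht _ (hsub w hw) (hne w)).1 _) _

theorem tVStar : MP72S.S_Alt → MP72S.S_Dif → S_Gdf → MP72S.S_Hom → S_Uq → S_Tai → S_Chi →
    S_Fix → S_Cst → MP72S.S_Rcv → S_Dk1 → S_SepF → S_VLemB → S_VStar := by
  intro hAlt hDif hGdf hHom hUq hTai hChi hFix hCst hRcv hDk1 hSepF hVLemB G N P ι _ _ _ _ _ _ D
    hD x y U I₀ Ξ b hG hb hn hI₀ hSep ρ t ht hρ hyb ν hν hνi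
  classical
  have hmx0 : mx x y ∅ = x := (hAlt x y U (fun _ => (0 : ℤ)) (fun _ => 0)).1
  have hmxi : ∀ i w, mx (Function.update x i (y i)) y w = mx x y (insert i w) :=
    (hAlt x y U (fun _ => (0 : ℤ)) (fun _ => 0)).2.2.1
  have hok0 : D.Ok x := by
    have := hG.ok ∅ (empty_subset U)
    rwa [hmx0] at this
  obtain ⟨-, -, -, -, hiso, -, -⟩ := hFix D hD x hok0
  have hsp : ∀ w ⊆ U, D.IsZ (mx x y w) (t (mx x y w)) (D.coc (mx x y w) (t (mx x y w))) :=
    fun w hw => DatL.coc_spec (ht w hw).1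
  have hUne : U.Nonempty := ⟨b, hb⟩
  have hIne : (U.erase b).Nonempty := by
    rw [← card_pos, card_erase_of_mem hb]
    omega
  have hνx : ν ∈ D.Dk x 1 := by
    have := hν ∅ (empty_subset U)
    rwa [hmx0] at this
  obtain ⟨hνZ, hν2⟩ := ((hDk1 D hD x hok0).1 _).1 hνx
  have hνsp : D.IsZ x ν (D.coc x ν) := DatL.coc_spec hνZ
  have hnu := (hCst D hD x y (U.erase b) (by
    have := (hGdf D x y U hG).1 ∅ (empty_subset U) (U.erase b) (erase_subset b U)
      (disjoint_empty_left _)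
    rwa [hmx0] at this) ν hν2 hνi
    (fun w hw => (((hDk1 D hD _ (hG.ok w (hw.trans (erase_subset b U)))).1 _).1
      (hν w (hw.trans (erase_subset b U)))).1)).2
  -- the homomorphism of `ν`
  have hν2' : ∀ σ, 2 • D.coc x ν σ = 0 := by
    intro σ
    have := (hUq D hD x hok0).2.2.2.2 ν hνZ 1 (by rwa [pow_one]) σ
    rwa [pow_one] at this
  have hνH : IsHo (D.coc x ν) := ⟨hνsp.u.lc, hν2', fun σ τ => by
    rw [hνsp.u.co σ τ, tw_two hD.ax.tri (hν2' τ)]⟩
  have he0 : ∀ a : N, 2 • a = 0 → D.e 0 a = 0 := by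
    intro a ha
    have h1 := hD.ax.e_add 0 0 a (smul_zero _) (smul_zero _) ha
    rw [add_zero] at h1
    exact left_eq_add.mp h1
  have he0' : ∀ a : N, 2 • a = 0 → D.e a 0 = 0 := fun a ha => by
    rw [hD.ax.e_sym a 0 ha (smul_zero _), he0 a ha]
  have hlb := hVLemB D hD x y U I₀ Ξ hG hI₀ hSep (#U - 1) ρ (fun z => 2 • t z) (by omega)
    (fun w hw => (ht w hw).2.1) (fun w hw k hk => (ht w hw).2.2 k hk)
    (fun i hi => VStar_pow (hρ i hi) (by omega))
    (fun w hw => (D.Z (mx x y w)).nsmul_mem (ht w hw).1 2)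
  set θ : G → N := fun σ => alt x y U (fun z => D.coc z (t z) σ) with hθ
  have htwo : ∀ σ, 2 • θ σ = 0 := by
    intro σ
    have h1 := (hAlt x y U (fun z => D.coc z (t z) σ) (fun z => D.coc z (t z) σ)).2.2.2.2.2.2.1 2
    rw [hθ, ← h1]
    have h2 : alt x y U (fun z => 2 • D.coc z (t z) σ) =
        alt x y U (fun z => D.coc z (2 • t z) σ) :=
      VStar_congr _ _ _ _ _ fun w hw => by
        rw [← (hUq D hD _ (hG.ok w hw)).2.2.1 _ (ht w hw).1]
    rw [h2]
    exact hlb.1 σ
  have key := VStar_key hAlt hGdf hUq hSepF hVLemB D hD x y U I₀ Ξ hG hI₀ hSep ρ hρ t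
    (fun w hw _ => ht w hw)
  have hmul : ∀ σ τ, θ (σ * τ) = θ σ + θ τ := by
    intro σ τ'
    have h1 := hDif D.toDat (fun z => D.coc z (t z)) x y U σ τ'
    have h2 : alt x y U (fun z => D.coc z (t z) σ + tw (D.chi z) σ (D.coc z (t z) τ') -
        D.coc z (t z) (σ * τ')) = 0 := by
      refine VStar_zero _ _ _ _ fun w hw => ?_
      rw [(hsp w hw).u.co σ τ', sub_self]
    have h3 : (∑ W ∈ (U.filter fun i => D.ch (x i) σ + D.ch (y i) σ = 1).powerset,
          2 ^ #W • alt (mx x y W) y (U \ W) fun z => D.coc z (t z) τ') =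
        alt x y U (fun z => D.coc z (t z) τ') := by
      rw [sum_eq_single_of_mem ∅ (empty_mem_powerset _)]
      · rw [card_empty, pow_zero, one_smul, sdiff_empty, hmx0]
      · intro W hW hWn
        exact key W ((mem_powerset.mp hW).trans (filter_subset _ _)) (nonempty_iff_ne_empty.mpr hWn)
          τ'
    rw [h2, h3, tw_two hD.ax.tri (htwo τ')] at h1
    have h4 := h1.symm
    rw [sub_add_eq_add_sub, sub_eq_zero] at h4
    exact h4.symm
  have hθH : IsHo θ := by
    refine ⟨?_, htwo, hmul⟩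
    have h1 := VStar_lc_sum U.powerset
      (fun w σ => (-1 : ℤ) ^ #w • D.coc (mx x y w) (t (mx x y w)) σ)
      (fun w hw => (hsp w (mem_powerset.mp hw)).u.lc.comp (fun a => (-1 : ℤ) ^ #w • a))
    exact h1
  -- places of the vertices
  have hrg : ∀ v, ∀ w ⊆ U, v ∉ D.S → (∀ i, i ∉ w → v ≠ x i) → (∀ i ∈ w, v ≠ y i) →
      v ∉ Set.range (D.pl (mx x y w)) := by
    rintro v w hw hv hx hy ⟨jj, hjj⟩
    rcases jj with s | jj
    · exact hv (by rw [← hjj]; exact s.2)
    · by_cases hji : jj ∈ w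
      · have h1 : D.pl (mx x y w) (Sum.inr jj) = y jj := if_pos hji
        exact hy jj hji (hjj.symm.trans h1)
      · have h1 : D.pl (mx x y w) (Sum.inr jj) = x jj := if_neg hji
        exact hx jj hji (hjj.symm.trans h1)
  -- local data
  have hex : ∀ (w : Finset ι) (j : D.J ι), ∃ Q : N, w ⊆ U →
      D.lm x j Q = t (mx x y w) j ∧
        D.Lo (mx x y w) (D.pl (mx x y w) j) Q (D.coc (mx x y w) (t (mx x y w))) := by
    intro w j
    by_cases h : w ⊆ U
    · obtain ⟨Q, hQ⟩ := (hsp w h).lo j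
      rw [(hChi D hD x y U hG w h).2.2.2 j] at hQ
      exact ⟨Q, fun _ => hQ⟩
    · exact ⟨0, fun h1 => absurd h1 h⟩
  choose Q hQ using hex
  have hQ4 : ∀ w ⊆ U, 4 • Q w (Sum.inr b) = 2 • t (mx x y w) (Sum.inr b) := by
    intro w hw
    rw [← (hQ w (Sum.inr b) hw).1, VStar_42]
    rfl
  have hQ4' : ∀ j, 2 • D.lm x j (∑ w ∈ U.powerset, (-1 : ℤ) ^ #w • Q w j) = 0 := by
    intro j
    have h1 := congrFun (hlb.2 hUne) j
    rw [alt, Finset.sum_apply] at h1
    rw [map_sum, smul_sum]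
    refine Eq.trans (sum_congr rfl fun w hw => ?_) h1
    rw [map_zsmul, smul_comm, (hQ w j (mem_powerset.mp hw)).1]
    rfl
  -- all places except `x b`
  have hvan : ∀ v, v ∉ ({x b} : Finset P) → D.lp θ (D.coc x ν) v = 0 := by
    intro v hv
    rw [mem_singleton] at hv
    by_cases hj : ∃ j : D.J ι, (∀ i ∈ U, j ≠ Sum.inr i) ∧ v = D.pl x j
    · obtain ⟨j, hj, rfl⟩ := hj
      have hpl : ∀ w ⊆ U, D.pl (mx x y w) j = D.pl x j := by
        intro w hw
        rcases j with s | i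
        · rfl
        · exact if_neg fun h => hj i (hw h) rfl
      have hch : ∀ w ⊆ U,
          D.chi (mx x y w) (D.tau (D.pl x j)) = D.chi x (D.tau (D.pl x j)) ∧
          D.chi (mx x y w) (D.phi (D.pl x j)) = D.chi x (D.phi (D.pl x j)) := by
        intro w hw
        rcases j with s | i
        · exact (hChi D hD x y U hG w hw).1 s.1 s.2
        · exact (hChi D hD x y U hG w hw).2.1 i fun h => hj i (hw h) rfl
      have h1 : θ (D.tau (D.pl x j)) = _ := VStar_tw (D.chi x) (D.tau (D.pl x j)) x y U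
        (fun z => D.coc z (t z) (D.tau (D.pl x j))) (fun w => Q w j) fun w hw => by
          have h2 := (hQ w j hw).2.1
          rw [hpl w hw] at h2
          rw [h2, tw, tw, (hch w hw).1]
      have h1' : θ (D.phi (D.pl x j)) = _ := VStar_tw (D.chi x) (D.phi (D.pl x j)) x y U
        (fun z => D.coc z (t z) (D.phi (D.pl x j))) (fun w => Q w j) fun w hw => by
          have h2 := (hQ w j hw).2.2
          rw [hpl w hw] at h2
          rw [h2, tw, tw, (hch w hw).2]
      obtain ⟨Q', hQ', hL'⟩ := hνsp.lo j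
      rw [Dat.lp, h1, h1', hL'.1, hL'.2]
      refine hiso j _ _ (hQ4' j) ?_
      rw [hQ']
      exact congrFun hν2 j
    · have hS : v ∉ D.S := fun h => hj ⟨Sum.inl ⟨v, h⟩, fun i _ => Sum.inl_ne_inr, rfl⟩
      by_cases hx : ∃ i ∈ U, v = x i
      · obtain ⟨i, hi, rfl⟩ := hx
        have hib : i ≠ b := fun h => hv (by rw [h])
        have hiI : i ∈ U.erase b := mem_erase.mpr ⟨hib, hi⟩
        have h1 := hnu i hiI _ (Or.inl rfl)
        have h2 := hnu i hiI _ (Or.inr (Or.inl rfl))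
        rw [Dat.lp, h1, h2, he0' _ (htwo _), he0' _ (htwo _), add_zero]
      · have hx' : ∀ i, v ≠ x i := by
          intro i hi
          by_cases hiU : i ∈ U
          · exact hx ⟨i, hiU, hi⟩
          · exact hj ⟨Sum.inr i, fun k hk h => hiU (by rw [Sum.inr_injective h]; exact hk), hi⟩
        have hντ : D.coc x ν (D.tau v) = 0 := by
          refine hνsp.u.ur v ?_
          rintro ⟨jj, hjj⟩
          rcases jj with s | jj
          · exact hS (by rw [← hjj]; exact s.2)
          · exact hx' jj hjj.symm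
        by_cases hyI : ∃ i ∈ U.erase b, v = y i
        · obtain ⟨i, hi, rfl⟩ := hyI
          have h1 := hnu i hi _ (Or.inr (Or.inr (Or.inl rfl)))
          have h2 := hnu i hi _ (Or.inr (Or.inr (Or.inr rfl)))
          rw [Dat.lp, h1, h2, he0' _ (htwo _), he0' _ (htwo _), add_zero]
        · have hθτ : θ (D.tau v) = 0 := by
            have hdec := (hAlt x y (U.erase b) (fun z => D.coc z (t z) (D.tau v))
              (fun z => D.coc z (t z) (D.tau v))).2.2.2.2.1 b (notMem_erase b U)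
            rw [insert_erase hb] at hdec
            have hfirst : alt x y (U.erase b) (fun z => D.coc z (t z) (D.tau v)) = 0 := by
              refine VStar_zero _ _ _ _ fun w hw => ?_
              have hwU : w ⊆ U := hw.trans (erase_subset b U)
              exact (hsp w hwU).u.ur _ (hrg v w hwU hS (fun i _ => hx' i)
                (fun i hi h => hyI ⟨i, hw hi, h⟩))
            have hsec : alt (Function.update x b (y b)) y (U.erase b)
                (fun z => D.coc z (t z) (D.tau v)) = 0 := by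
              by_cases hvb : v = y b
              · rw [hvb]
                exact hyb
              · refine VStar_zero _ _ _ _ fun w hw => ?_
                rw [hmxi]
                have hwU : insert b w ⊆ U := insert_subset hb (hw.trans (erase_subset b U))
                refine (hsp _ hwU).u.ur _ (hrg v _ hwU hS (fun i _ => hx' i) fun i hi h => ?_)
                rcases mem_insert.mp hi with rfl | hi
                · exact hvb h
                · exact hyI ⟨i, hw hi, h⟩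
            rw [hθ]
            simp only
            rw [hdec, hfirst, hsec, sub_zero]
          rw [Dat.lp, hθτ, hντ, he0 _ (hν2' _), he0' _ (htwo _), add_zero]
  have hrec := hRcv D.toDat hD.ax θ (D.coc x ν) {x b} hθH hνH hvan
  rw [sum_singleton, Dat.lp] at hrec
  -- the place `x b`
  have hdecg : ∀ g, θ g = alt x y (U.erase b) (fun z => D.coc z (t z) g) -
      alt (Function.update x b (y b)) y (U.erase b) (fun z => D.coc z (t z) g) := by
    intro g
    have hdec := (hAlt x y (U.erase b) (fun z => D.coc z (t z) g)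
      (fun z => D.coc z (t z) g)).2.2.2.2.1 b (notMem_erase b U)
    rw [insert_erase hb] at hdec
    exact hdec
  have hατ : alt (Function.update x b (y b)) y (U.erase b)
      (fun z => D.coc z (t z) (D.tau (x b))) = 0 := by
    refine VStar_zero _ _ _ _ fun w hw => ?_
    rw [hmxi]
    have hwU : insert b w ⊆ U := insert_subset hb (hw.trans (erase_subset b U))
    refine (hsp _ hwU).u.ur _ (hrg _ _ hwU (hok0.nS b) (fun i hi h => ?_) fun i hi h => ?_)
    · have := hok0.inj h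
      subst this
      exact hi (mem_insert_self _ _)
    · exact (hGdf D x y U hG).2.1 i (hwU hi) b h.symm
  have hbw : ∀ w ⊆ U.erase b, b ∉ w := fun w hw h => notMem_erase b U (hw h)
  have hplb : ∀ w ⊆ U.erase b, D.pl (mx x y w) (Sum.inr b) = x b := fun w hw =>
    if_neg (hbw w hw)
  set R : N := ∑ w ∈ (U.erase b).powerset, (-1 : ℤ) ^ #w • Q w (Sum.inr b) with hR
  have hR4 : 4 • R = 0 := VStar_four hAlt x y (U.erase b) hIne (fun w => Q w (Sum.inr b))
    (ρ (Sum.inr b)) 4 fun w hw => by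
      rw [hQ4 w (hw.trans (erase_subset b U))]
      exact (ht w (hw.trans (erase_subset b U))).2.2 _ (hSep.sub b (hI₀ hb))
  have hβτ : alt x y (U.erase b) (fun z => D.coc z (t z) (D.tau (x b))) =
      tw (D.chi x) (D.tau (x b)) R - R :=
    VStar_tw (D.chi x) (D.tau (x b)) x y (U.erase b)
      (fun z => D.coc z (t z) (D.tau (x b))) (fun w => Q w (Sum.inr b)) fun w hw => by
        have hwU := hw.trans (erase_subset b U)
        have h2 := (hQ w (Sum.inr b) hwU).2.1
        rw [hplb w hw] at h2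
        rw [h2, tw, tw, ((hChi D hD x y U hG w hwU).2.1 b (hbw w hw)).1]
  have hβφ : alt x y (U.erase b) (fun z => D.coc z (t z) (D.phi (x b))) =
      tw (D.chi x) (D.phi (x b)) R - R :=
    VStar_tw (D.chi x) (D.phi (x b)) x y (U.erase b)
      (fun z => D.coc z (t z) (D.phi (x b))) (fun w => Q w (Sum.inr b)) fun w hw => by
        have hwU := hw.trans (erase_subset b U)
        have h2 := (hQ w (Sum.inr b) hwU).2.2
        rw [hplb w hw] at h2
        rw [h2, tw, tw, ((hChi D hD x y U hG w hwU).2.1 b (hbw w hw)).2]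
  set α : N := alt (Function.update x b (y b)) y (U.erase b)
    (fun z => D.coc z (t z) (D.phi (x b))) with hα
  have hθτ : θ (D.tau (x b)) = tw (D.chi x) (D.tau (x b)) R - R := by
    rw [hdecg, hατ, sub_zero, hβτ]
  have hθφ : θ (D.phi (x b)) = (tw (D.chi x) (D.phi (x b)) R - R) - α := by
    rw [hdecg, hβφ]
  have hR2 : 2 • (2 • R) = 0 := by rw [← VStar_42]; exact hR4
  have hV : ∀ g, 2 • (tw (D.chi x) g R - R) = 0 := by
    intro g
    rw [smul_sub, ← tw_nsmul, tw_two hD.ax.tri hR2, sub_self]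
  have hα2 : 2 • α = 0 := by
    have h1 := htwo (D.phi (x b))
    rw [hθφ, smul_sub, hV, zero_sub, neg_eq_zero] at h1
    exact h1
  obtain ⟨Q', hQ', hL'⟩ := hνsp.lo (Sum.inr b)
  have hL'' : D.Lo x (x b) Q' (D.coc x ν) := hL'
  have hQ5 : 2 • D.lm x (Sum.inr b) Q' = 0 := by
    rw [hQ']
    exact congrFun hν2 (Sum.inr b)
  have hντ : D.coc x ν (D.tau (x b)) = ν (Sum.inr b) := by
    rw [(hTai D hD x hok0).2.2.2.2.1 b ν _ hνsp]
    exact VStar_neg (congrFun hν2 (Sum.inr b))
  have hisb := hiso (Sum.inr b) R Q' hR2 hQ5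
  have hpb : D.pl x (Sum.inr b) = x b := rfl
  rw [hpb, ← hL''.1, ← hL''.2] at hisb
  have hθφ' : θ (D.phi (x b)) = (tw (D.chi x) (D.phi (x b)) R - R) + α := by
    rw [hθφ, sub_eq_add_neg _ α, VStar_neg hα2]
  rw [hθτ, hθφ', hD.ax.e_add _ _ _ (hV _) hα2 (hν2' _), ← add_assoc, hisb, zero_add, hντ] at hrec
  exact hrec

end Pool.Agent.MP72B
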