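import Pool.Agent.Lib.MP_72e2e6_nt.Sm.B.SpecD

/-!
# MP_72e2e6_nt, `Sm/B/VStp`: one step of the potential (adapted from `Sm/N/VStp`, helper7)
-/

namespace Pool.Agent.MP72B

open Finset Pool.Agent.MP72S

set_option linter.unusedSectionVars false

section

variable {G N P ι : Type} [Group G] [TopologicalSpace G] [AddCommGroup N]
  [DistribMulAction G N] [Fintype ι] [DecidableEq ι] (D : DatL G N P) (K Lp d : ℕ) (b : ι)
  (S : ι → Finset P)

/-- the configurations which count at level `K` -/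
private def VStp_Om (z : ι → P) : Prop :=
  z ∈ tup S ∧ D.Pat z b Lp ∧ Nat.card (D.Dk z 1) ≤ 2 ^ d ∧ 16 ≤ Nat.card (D.Dk z K)

/-- the state -/
private noncomputable def VStp_st (z : ι → P) : D.ST ι := (D.Sy z, D.Dk z K, D.O z K)

private theorem VStp_isSt {z : ι → P} {s : D.ST ι} : D.IsSt K z s ↔ VStp_st D K z = s := by
  obtain ⟨s1, s2, s3⟩ := s
  simp only [DatL.IsSt, VStp_st, Prod.mk.injEq]

/-- `I` is an admissible set of indices for the state `s` and the element `f` -/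
private def VStp_Q (s : D.ST ι) (f : D.J ι → N) (I : Finset ι) : Prop :=
  ∃ z₀, VStp_Om D K Lp d b S z₀ ∧ VStp_st D K z₀ = s ∧
    ∃ (f₀ : D.J ι → N) (γ : (D.J ι → N) → ZMod 2) (t' : N),
    D.Cho I b K s (D.Dk z₀ 1) (D.T z₀) f₀ γ t' ∧ (∃ σ, D.e (D.coc z₀ f₀ σ) t' = 1) ∧
    ∀ z : ι → P, D.Ok z → D.T z = D.T z₀ → ∀ k, 1 ≤ k → (f ∈ D.Dk z k ↔ f₀ ∈ D.Dk z k)

open Classical in
/-- the chosen set of indices -/
private noncomputable def VStp_I (s : D.ST ι) (f : D.J ι → N) : Finset ι :=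
  if h : ∃ I, VStp_Q D K Lp d b S s f I then h.choose else ∅

variable {D K Lp d b S}

private theorem VStp_exQ (hChs : S_Chs) (hD : AxL D) (hK : 1 ≤ K) (hKL : K ≤ Lp)
    (hok : ∀ z ∈ tup S, D.Ok z) {z : ι → P} (hz : VStp_Om D K Lp d b S z) {f : D.J ι → N}
    (hf : f ∈ D.Dk z K) (hfT : f ∉ D.T z) :
    VStp_Q D K Lp d b S (VStp_st D K z) f (VStp_I D K Lp d b S (VStp_st D K z) f) := by
  have h : ∃ I, VStp_Q D K Lp d b S (VStp_st D K z) f I := by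
    obtain ⟨h1, h2, h3, h4⟩ := hz
    have hPK : D.Pat z b K := by
      intro c hc1 hc2 hc3
      obtain ⟨I, hI1, hI2, hI3⟩ := h2 c hc1 hc2 hc3
      obtain ⟨I', hI', hcI'⟩ := exists_subset_card_eq (hI1.symm ▸ hKL : K ≤ #I)
      exact ⟨I', hcI', fun h => hI2 (hI' h), fun i hi => hI3 i (hI' hi)⟩
    obtain ⟨I, f₀, γ, t', h5, h6, h7⟩ := hChs D hD b K hK (VStp_st D K z) z (hok z h1)
      ((VStp_isSt D K).2 rfl) h4 hPK f hf hfT
    exact ⟨I, z, ⟨h1, h2, h3, h4⟩, rfl, f₀, γ, t', h5, h6, h7⟩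
  unfold VStp_I
  rw [dif_pos h]
  exact h.choose_spec

private theorem VStp_om_of (hSy : S_Sy1) (hD : AxL D) (hok : ∀ z ∈ tup S, D.Ok z)
    {z z₀ : ι → P} (hz₀ : VStp_Om D K Lp d b S z₀) (hz : z ∈ tup S)
    (h : VStp_st D K z = VStp_st D K z₀) : VStp_Om D K Lp d b S z := by
  obtain ⟨h1, h2, h3, h4⟩ := hz₀
  have e1 : D.Sy z = D.Sy z₀ := congrArg Prod.fst h
  have e2 : D.Dk z K = D.Dk z₀ K := congrArg (fun s : D.ST ι => s.2.1) h
  have e3 := (hSy D hD z z₀ (hok z hz) (hok z₀ h1) e1).1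
  have e4 := (hSy D hD z z₀ (hok z hz) (hok z₀ h1) e1).2.2.2
  refine ⟨hz, ?_, by rw [e3]; exact h3, by rw [e2]; exact h4⟩
  unfold DatL.Pat at h2 ⊢
  rw [e3, e4]
  exact h2

variable (D K d) in
/-- the main inequality for cells -/
private def VStp_C (Gb : Subgroup G) (e E L : ℕ) : Prop :=
  ∀ (S : ι → Finset P) (b : ι) (I : Finset ι) (R : ι → P),
    (∀ j, j ∉ I → j ≠ b → S j = {R j}) → (∀ z ∈ tup S, D.Ok z) →
    (∀ i, ∀ v ∈ S i, v ∉ D.S) → Fintype.card (D.J ι) ≤ L → (∀ i ∈ I, 2 ^ L ≤ #(S i)) →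
    (∀ A : Finset P, #A ≤ L ^ E → (∀ v ∈ A, v ∈ D.S ∨ ∃ i, v ∈ S i) →
      D.FewL Gb A (2 ^ L ^ E) (2 ^ (3 * L)) (S b)) →
    ∀ (s : D.ST ι) (Lam Tx : AddSubgroup (D.J ι → N)) (f : D.J ι → N)
      (γ : (D.J ι → N) → ZMod 2) (t' : N), D.Cho I b K s Lam Tx f γ t' → Finite Lam →
    Nat.card Lam ≤ 2 ^ d → (∀ z ∈ tup S, D.Sy z = s.1 → D.Dk z 1 = Lam ∧ D.T z = Tx) →
    (∀ z ∈ tup S, D.IsSt K z s → ∃ σ, D.e (D.coc z f σ) t' = 1) →
    ({z ∈ tup S | D.IsSt K z s ∧ f ∈ D.Dk z (K + 1)}.ncard : ℝ) ≤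
      15 / 16 * ({z ∈ tup S | D.IsSt K z s}.ncard : ℝ) +
        1 / (L : ℝ) ^ e * ∏ i, (#(S i) : ℝ)

private theorem VStp_tupmono {S' : ι → Finset P} (hS' : ∀ i, S' i ⊆ S i) : tup S' ⊆ tup S :=
  fun _ hz => ⟨fun i => hS' i (hz.1 i), hz.2⟩

/-- the inequality for one state and one element -/
private theorem VStp_pair (hSy : S_Sy1) (hDk : S_Dk1) (hD : AxL D) {Gb : Subgroup G}
    {e E L : ℕ} (hC : VStp_C (ι := ι) D K d Gb e E L) (hS : D.Szc Gb E L b S) (hL : 1 ≤ L)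
    {s : D.ST ι} {f : D.J ι → N} {I : Finset ι} (hQ : VStp_Q D K Lp d b S s f I)
    {S' : ι → Finset P} {R : ι → P} (hS' : ∀ i, S' i ⊆ S i)
    (hR : ∀ j, j ∉ I → j ≠ b → S' j = {R j}) (hI : ∀ i ∈ I, 2 ^ L ≤ #(S' i))
    (hb : #(S b) ≤ 2 ^ (2 * L) * #(S' b)) :
    ({z ∈ tup S' | D.IsSt K z s ∧ f ∈ D.Dk z (K + 1)}.ncard : ℝ) ≤
      15 / 16 * ({z ∈ tup S' | D.IsSt K z s}.ncard : ℝ) +
        1 / (L : ℝ) ^ e * ∏ i, (#(S' i) : ℝ) := by
  obtain ⟨z₀, hz₀, hs, f₀, γ, t', hCho, hσ, hff⟩ := hQ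
  obtain ⟨h1, h2, h3, h4⟩ := hz₀
  obtain ⟨-, -, -, -, d5, -⟩ := hDk D hD z₀ (hS.ok z₀ h1)
  have hsub := VStp_tupmono (S := S) hS'
  have hok : ∀ z ∈ tup S', D.Ok z := fun z hz => hS.ok z (hsub hz)
  have hs1 : D.Sy z₀ = s.1 := congrArg Prod.fst hs
  have hset : {z ∈ tup S' | D.IsSt K z s ∧ f ∈ D.Dk z (K + 1)} =
      {z ∈ tup S' | D.IsSt K z s ∧ f₀ ∈ D.Dk z (K + 1)} := by
    ext z
    constructor
    · rintro ⟨hz, hz1, hz2⟩
      exact ⟨hz, hz1, (hff z (hok z hz) (hSy D hD z z₀ (hok z hz) (hS.ok z₀ h1)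
        (hz1.1.trans hs1.symm)).2.2.2 (K + 1) (Nat.succ_pos K)).1 hz2⟩
    · rintro ⟨hz, hz1, hz2⟩
      exact ⟨hz, hz1, (hff z (hok z hz) (hSy D hD z z₀ (hok z hz) (hS.ok z₀ h1)
        (hz1.1.trans hs1.symm)).2.2.2 (K + 1) (Nat.succ_pos K)).2 hz2⟩
  rw [hset]
  refine hC S' b I R hR hok (fun i v hv => hS.nS i v (hS' i hv)) ?_ hI ?_ s (D.Dk z₀ 1)
    (D.T z₀) f₀ γ t' hCho (d5 1 le_rfl) h3 ?_ ?_
  · have := hS.card
    omega
  · intro A hA hAm H hHN hHo hHi hHt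
    have h5 := hS.few A hA (fun v hv => (hAm v hv).imp id fun ⟨i, hi⟩ => ⟨i, hS' i hi⟩) H hHN
      hHo hHi hHt
    have h6 : ({c ∈ S' b | D.phi c ∈ H} : Set P).ncard ≤
        ({c ∈ S b | D.phi c ∈ H} : Set P).ncard := by
      refine Set.ncard_le_ncard ?_ ?_
      · rintro c ⟨hc, hc'⟩
        exact ⟨hS' b hc, hc'⟩
      · exact (S b).finite_toSet.subset fun c hc => hc.1
    calc ({c ∈ S' b | D.phi c ∈ H} : Set P).ncard * H.relIndex Gb
        ≤ ({c ∈ S b | D.phi c ∈ H} : Set P).ncard * H.relIndex Gb := Nat.mul_le_mul_right _ h6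
      _ ≤ 2 * #(S b) := h5
      _ ≤ 2 * (2 ^ (2 * L) * #(S' b)) := Nat.mul_le_mul_left _ hb
      _ = 2 ^ (2 * L + 1) * #(S' b) := by ring
      _ ≤ 2 ^ (3 * L) * #(S' b) :=
          Nat.mul_le_mul_right _ (Nat.pow_le_pow_right (by norm_num) (by omega))
  · intro z hz hzs
    have h5 := hSy D hD z z₀ (hok z hz) (hS.ok z₀ h1) (hzs.trans hs1.symm)
    exact ⟨h5.1, h5.2.2.2⟩
  · intro z hz hzs
    have h5 : D.Sy z₀ = D.Sy z := hs1.trans hzs.1.symm
    exact (hSy D hD z₀ z (hS.ok z₀ h1) (hok z hz) h5).2.1 f₀ hCho.fL t' hCho.two hσ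

open Classical in
/-- the elements of `Dk z k` -/
private noncomputable def VStp_Δ (D : DatL G N P) (z : ι → P) (k : ℕ) : Finset (D.J ι → N) :=
  if h : ((D.Dk z k : Set (D.J ι → N))).Finite then h.toFinset else ∅

private theorem VStp_memΔ (hDk : S_Dk1) (hD : AxL D) {z : ι → P} (hz : D.Ok z) {k : ℕ}
    (hk : 1 ≤ k) {f : D.J ι → N} : f ∈ VStp_Δ D z k ↔ f ∈ D.Dk z k := by
  have h : ((D.Dk z k : Set (D.J ι → N))).Finite := by
    have := (hDk D hD z hz).2.2.2.2.1 k hk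
    exact Set.toFinite _
  unfold VStp_Δ
  rw [dif_pos h, Set.Finite.mem_toFinset]
  rfl

private theorem VStp_cardΔ (hDk : S_Dk1) (hD : AxL D) {z : ι → P} (hz : D.Ok z) {k : ℕ}
    (hk : 1 ≤ k) :
    #(VStp_Δ D z k) = Nat.card (D.Dk z k) := by
  have h : ((D.Dk z k : Set (D.J ι → N))) = (VStp_Δ D z k : Set (D.J ι → N)) := by
    ext f
    exact (VStp_memΔ hDk hD hz hk).symm
  rw [← Set.ncard_coe_finset, ← h]
  rfl

open Classical in
private noncomputable def VStp_F (D : DatL G N P) (K Lp d : ℕ) (b : ι) (S : ι → Finset P)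
    (I : Finset ι) (z : ι → P) : ℝ :=
  if VStp_Om D K Lp d b S z then
    (#((VStp_Δ D z K).filter fun f => (f ∉ D.T z ∧ f ∈ D.Dk z (K + 1)) ∧
      VStp_I D K Lp d b S (VStp_st D K z) f = I) : ℝ) else 0

open Classical in
private noncomputable def VStp_G (D : DatL G N P) (K Lp d : ℕ) (b : ι) (S : ι → Finset P)
    (I : Finset ι) (z : ι → P) : ℝ :=
  if VStp_Om D K Lp d b S z then
    15 / 16 * (#((VStp_Δ D z K).filter fun f => f ∉ D.T z ∧
      VStp_I D K Lp d b S (VStp_st D K z) f = I) : ℝ) else 0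

private theorem VStp_Gnn (I : Finset ι) (z : ι → P) : 0 ≤ VStp_G D K Lp d b S I z := by
  unfold VStp_G
  split_ifs
  · positivity
  · exact le_rfl

private theorem VStp_Fle (hDk : S_Dk1) (hD : AxL D) (hok : ∀ z ∈ tup S, D.Ok z) (hK : 1 ≤ K)
    (I : Finset ι) (z : ι → P) :
    0 ≤ VStp_F D K Lp d b S I z ∧ VStp_F D K Lp d b S I z ≤ 2 ^ d := by
  classical
  unfold VStp_F
  split_ifs with h
  · refine ⟨Nat.cast_nonneg _, le_trans (Nat.cast_le.2 (card_filter_le _ _)) ?_⟩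
    have h1 : #(VStp_Δ D z K) ≤ 2 ^ d := by
      rw [VStp_cardΔ hDk hD (hok z h.1) hK]
      have := (hDk D hD z (hok z h.1)).2.2.2.2.1 1 le_rfl
      exact (Nat.card_le_card_of_injective _
        (AddSubgroup.inclusion_injective ((hDk D hD z (hok z h.1)).2.2.2.1 K hK))).trans h.2.2.1
    exact_mod_cast h1
  · exact ⟨le_rfl, by positivity⟩

private theorem VStp_set (S' : ι → Finset P) (p : (ι → P) → Prop)
    [DecidablePred fun z => z ∈ tup S' ∧ p z] :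
    {z ∈ tup S' | p z} = ((Fintype.piFinset S').filter (fun z => z ∈ tup S' ∧ p z) :
      Finset (ι → P)) := by
  ext z
  rw [mem_coe, mem_filter, Fintype.mem_piFinset]
  constructor
  · rintro ⟨h1, h2⟩
    exact ⟨h1.1, h1, h2⟩
  · rintro ⟨-, h1, h2⟩
    exact ⟨h1, h2⟩

private theorem VStp_nc (S' : ι → Finset P) (p : (ι → P) → Prop)
    [DecidablePred fun z => z ∈ tup S' ∧ p z] :
    ({z ∈ tup S' | p z}.ncard : ℝ) =
      ∑ z ∈ Fintype.piFinset S', if z ∈ tup S' ∧ p z then (1 : ℝ) else 0 := by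
  rw [VStp_set, Set.ncard_coe_finset, sum_boole]

private theorem VStp_fs (S' : ι → Finset P) (p : (ι → P) → Prop) (f : (ι → P) → ℝ)
    [DecidablePred fun z => z ∈ tup S' ∧ p z] :
    ∑ᶠ z ∈ {z ∈ tup S' | p z}, f z =
      ∑ z ∈ Fintype.piFinset S', if z ∈ tup S' ∧ p z then f z else 0 := by
  rw [VStp_set, finsum_mem_coe_finset, sum_filter]

private theorem VStp_clS {Cl : Type} (S : ι → Finset P) (I₀ : Finset ι)
    (κ : (ι → P) → P → Cl) (z : ι → P) (i : ι) (c : P) :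
    c ∈ clS S I₀ κ z i ↔ (i ∈ I₀ ∧ c ∈ S i ∧ κ z c = κ z (z i)) ∨ (i ∉ I₀ ∧ c = z i) := by
  classical
  unfold clS
  split_ifs with h
  · rw [mem_filter]
    simp only [h, true_and, not_true_eq_false, false_and, or_false]
  · rw [mem_singleton]
    simp only [h, false_and, not_false_eq_true, true_and, false_or]

private theorem VStp_kap {I₀ : Finset ι} {z z' : ι → P} (h : ∀ i, i ∉ I₀ → z i = z' i) :
    D.kap I₀ z = D.kap I₀ z' := by
  classical
  funext c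
  unfold MP72S.Dat.kap
  refine Prod.ext ?_ rfl
  funext j
  by_cases hj : j ∈ I₀
  · simp only [if_pos hj]
  · simp only [if_neg hj]
    rw [h j hj]

/-- the inequality for a large cell -/
private theorem VStp_cell (hDk : S_Dk1) (hSy : S_Sy1) (hChs : S_Chs) (hNst : S_VNst)
    (hD : AxL D) (hK : 1 ≤ K) (hKL : K ≤ Lp) {Gb : Subgroup G} {e E L : ℕ}
    (hC : VStp_C (ι := ι) D K d Gb e E L) (hS : D.Szc Gb E L b S) (hL : 1 ≤ L)
    (I : Finset ι) (z₁ : ι → P) (hz₁ : z₁ ∈ Fintype.piFinset S) (S' : ι → Finset P)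
    (hS' : S' = clS S (insert b I) (D.kap (insert b I)) z₁)
    (hI : ∀ i ∈ I, 2 ^ L ≤ #(S' i)) (hb : #(S b) ≤ 2 ^ (2 * L) * #(S' b)) :
    ∑ z ∈ Fintype.piFinset S', VStp_F D K Lp d b S I z ≤
      ∑ z ∈ Fintype.piFinset S', VStp_G D K Lp d b S I z +
        (nst K d : ℝ) / (L : ℝ) ^ e * ∏ i, (#(S' i) : ℝ) := by
  classical
  obtain ⟨Pr, hPr⟩ : ∃ Pr : ℝ, Pr = ∏ i, (#(S' i) : ℝ) := ⟨_, rfl⟩
  have hPr0 : 0 ≤ Pr := by
    rw [hPr]
    exact prod_nonneg fun i _ => Nat.cast_nonneg _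
  rw [← hPr]
  have hL0 : (0 : ℝ) < (L : ℝ) ^ e := by
    have : (0 : ℝ) < L := by exact_mod_cast hL
    positivity
  have hRHS : 0 ≤ ∑ z ∈ Fintype.piFinset S', VStp_G D K Lp d b S I z +
        (nst K d : ℝ) / (L : ℝ) ^ e * Pr :=
    add_nonneg (sum_nonneg fun z _ => VStp_Gnn I z) (by positivity)
  have hcl : ∀ i c, c ∈ S' i ↔ (i ∈ insert b I ∧ c ∈ S i ∧
      D.kap (insert b I) z₁ c = D.kap (insert b I) z₁ (z₁ i)) ∨ (i ∉ insert b I ∧ c = z₁ i) := by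
    intro i c
    rw [hS', VStp_clS]
  have hsub : ∀ i, S' i ⊆ S i := by
    intro i c hc
    rcases (hcl i c).1 hc with h | h
    · exact h.2.1
    · rw [h.2]
      exact Fintype.mem_piFinset.1 hz₁ i
  have hfix1 : ∀ z : ι → P, (∀ i, z i ∈ S' i) → ∀ i, i ∉ insert b I → z i = z₁ i := by
    intro z hz i hi
    rcases (hcl i _).1 (hz i) with h | h
    · exact absurd h.1 hi
    · exact h.2
  have hfix2 : ∀ z : ι → P, (∀ i, z i ∈ S' i) → ∀ i ∈ insert b I,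
      D.kap (insert b I) z₁ (z i) = D.kap (insert b I) z₁ (z₁ i) := by
    intro z hz i hi
    rcases (hcl i _).1 (hz i) with h | h
    · exact h.2.2
    · exact absurd hi h.1
  have hR : ∀ j, j ∉ I → j ≠ b → S' j = {z₁ j} := by
    intro j hj hjb
    have h0 : j ∉ insert b I := by
      intro h
      rcases mem_insert.1 h with h | h
      · exact hjb h
      · exact hj h
    ext c
    rw [hcl, mem_singleton]
    exact ⟨fun h => h.elim (fun h => absurd h.1 h0) fun h => h.2, fun h => Or.inr ⟨h0, h⟩⟩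
  have hst : ∀ z : ι → P, VStp_Om D K Lp d b S z → (∀ i, z i ∈ S' i) → z ∈ tup S' :=
    fun z hz hz' => ⟨hz', hz.1.2⟩
  -- the pairs
  obtain ⟨PPs, hPPs⟩ : ∃ PPs : Set (D.ST ι × (D.J ι → N)), PPs = {q | ∃ z,
      VStp_Om D K Lp d b S z ∧ (∀ i, z i ∈ S' i) ∧ VStp_st D K z = q.1 ∧ q.2 ∈ q.1.2.1 ∧
      q.2 ∉ D.T z ∧ VStp_I D K Lp d b S q.1 q.2 = I} := ⟨_, rfl⟩
  have hQ : ∀ q ∈ PPs, VStp_Q D K Lp d b S q.1 q.2 I := by
    intro q hq
    rw [hPPs] at hq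
    obtain ⟨z, h1, h2, h3, h4, h5, h6⟩ := hq
    rw [← h3] at h4 h6 ⊢
    have h7 := VStp_exQ hChs hD hK hKL hS.ok h1 (f := q.2) h4 h5
    rwa [h6] at h7
  by_cases hne : PPs = ∅
  · refine le_trans (le_of_eq (sum_eq_zero fun z hz => ?_)) hRHS
    unfold VStp_F
    split_ifs with hOm
    · rw [Nat.cast_eq_zero, card_eq_zero, filter_eq_empty_iff]
      rintro f hf ⟨⟨h1, -⟩, h2⟩
      rw [VStp_memΔ hDk hD (hS.ok z hOm.1) hK] at hf
      have h3 : (VStp_st D K z, f) ∈ PPs := by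
        rw [hPPs]
        exact ⟨z, hOm, Fintype.mem_piFinset.1 hz, rfl, hf, h1, h2⟩
      rw [hne] at h3
      exact h3
    · rfl
  obtain ⟨q₀, hq₀⟩ := Set.nonempty_iff_ne_empty.2 hne
  obtain ⟨_, _, _, f₀, γ, t', hCho, _, _⟩ := hQ q₀ hq₀
  have hcI : #(insert b I) = K + 1 := by
    rw [card_insert_of_notMem hCho.hb, hCho.cK]
  rw [hPPs] at hq₀
  obtain ⟨z₀, hz₀, hz₀', -⟩ := hq₀
  obtain ⟨hfin, hcard⟩ := hNst D hD (insert b I) z₀ (hS.ok z₀ hz₀.1) K d hK hcI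
  have hkap : D.kap (insert b I) z₀ = D.kap (insert b I) z₁ := VStp_kap (hfix1 z₀ hz₀')
  have hPsub : PPs ⊆ {q : D.ST ι × (D.J ι → N) | ∃ z : ι → P, D.Ok z ∧
      (∀ i, i ∉ insert b I → z i = z₀ i) ∧
      (∀ i ∈ insert b I, D.kap (insert b I) z₀ (z i) = D.kap (insert b I) z₀ (z₀ i)) ∧
      Nat.card (D.Dk z 1) ≤ 2 ^ d ∧ D.IsSt K z q.1 ∧ q.2 ∈ q.1.2.1} := by
    intro q hq
    rw [hPPs] at hq
    obtain ⟨z, h1, h2, h3, h4, h5, h6⟩ := hq
    refine ⟨z, hS.ok z h1.1, fun i hi => ?_, fun i hi => ?_, h1.2.2.1, (VStp_isSt D K).2 h3, h4⟩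
    · rw [hfix1 z h2 i hi, hfix1 z₀ hz₀' i hi]
    · rw [hkap, hfix2 z h2 i hi, hfix2 z₀ hz₀' i hi]
  have hPfin : PPs.Finite := hfin.subset hPsub
  obtain ⟨PP, hPP⟩ : ∃ PP : Finset (D.ST ι × (D.J ι → N)), PP = hPfin.toFinset := ⟨_, rfl⟩
  have hmemP : ∀ q, q ∈ PP ↔ q ∈ PPs := fun q => by rw [hPP, Set.Finite.mem_toFinset]
  have hPcard : #PP ≤ nst K d := by
    rw [hPP, ← Set.ncard_eq_toFinset_card _ hPfin]
    exact (Set.ncard_le_ncard hPsub hfin).trans hcard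
  -- the inequality for the pairs
  have hpair : ∀ q ∈ PP, ({z ∈ tup S' | D.IsSt K z q.1 ∧ q.2 ∈ D.Dk z (K + 1)}.ncard : ℝ) ≤
      15 / 16 * ({z ∈ tup S' | D.IsSt K z q.1}.ncard : ℝ) + 1 / (L : ℝ) ^ e * Pr := by
    intro q hq
    rw [hPr]
    exact VStp_pair hSy hDk hD hC hS hL (hQ q ((hmemP q).1 hq)) hsub hR hI hb
  have hF : ∀ z ∈ Fintype.piFinset S', VStp_F D K Lp d b S I z ≤
      ∑ q ∈ PP, if z ∈ tup S' ∧ (D.IsSt K z q.1 ∧ q.2 ∈ D.Dk z (K + 1)) then (1 : ℝ) else 0 := by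
    intro z hz
    have hz' := Fintype.mem_piFinset.1 hz
    unfold VStp_F
    split_ifs with hOm
    · rw [sum_boole, Nat.cast_le]
      refine card_le_card_of_injOn (fun f => (VStp_st D K z, f)) ?_ ?_
      · intro f hf
        obtain ⟨h1, ⟨h2, h3⟩, h4⟩ := mem_filter.1 (mem_coe.1 hf)
        rw [VStp_memΔ hDk hD (hS.ok z hOm.1) hK] at h1
        refine mem_coe.2 (mem_filter.2 ⟨(hmemP _).2 ?_, hst z hOm hz', (VStp_isSt D K).2 rfl, h3⟩)
        rw [hPPs]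
        exact ⟨z, hOm, hz', rfl, h1, h2, h4⟩
      · intro f _ f' _ h
        exact congrArg Prod.snd h
    · exact sum_nonneg fun q _ => by split_ifs <;> norm_num
  have hG : ∀ z ∈ Fintype.piFinset S',
      ∑ q ∈ PP, 15 / 16 * (if z ∈ tup S' ∧ D.IsSt K z q.1 then (1 : ℝ) else 0) ≤
        VStp_G D K Lp d b S I z := by
    intro z hz
    have hz' := Fintype.mem_piFinset.1 hz
    rw [← mul_sum, sum_boole]
    unfold VStp_G
    split_ifs with hOm
    · refine mul_le_mul_of_nonneg_left ?_ (by norm_num)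
      rw [Nat.cast_le]
      refine card_le_card_of_injOn (fun q => q.2) ?_ ?_
      · intro q hq
        obtain ⟨h1, h2, h3⟩ := mem_filter.1 (mem_coe.1 hq)
        rw [hmemP, hPPs] at h1
        obtain ⟨z', hz'1, -, hz'2, h4, h5, h6⟩ := h1
        rw [VStp_isSt] at h3
        have h7 : D.Sy z = D.Sy z' := congrArg Prod.fst (h3.trans hz'2.symm)
        have h8 := (hSy D hD z z' (hS.ok z hOm.1) (hS.ok z' hz'1.1) h7).2.2.2
        rw [← h8] at h5
        rw [← h3] at h4 h6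
        exact mem_coe.2 (mem_filter.2 ⟨(VStp_memΔ hDk hD (hS.ok z hOm.1) hK).2 h4, h5, h6⟩)
      · intro q hq q' hq' h
        obtain ⟨h1, h2, h3⟩ := mem_filter.1 (mem_coe.1 hq)
        obtain ⟨h1', h2', h3'⟩ := mem_filter.1 (mem_coe.1 hq')
        rw [VStp_isSt] at h3 h3'
        exact Prod.ext (h3.symm.trans h3') h
    · rw [filter_false_of_mem, card_empty, Nat.cast_zero, mul_zero]
      rintro q hq ⟨h2, h3⟩
      rw [hmemP, hPPs] at hq
      obtain ⟨z', h4, -, h5, -⟩ := hq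
      rw [VStp_isSt] at h3
      exact hOm (VStp_om_of hSy hD hS.ok h4 (VStp_tupmono hsub h2) (h3.trans h5.symm))
  calc ∑ z ∈ Fintype.piFinset S', VStp_F D K Lp d b S I z
      ≤ ∑ z ∈ Fintype.piFinset S', ∑ q ∈ PP,
          (if z ∈ tup S' ∧ (D.IsSt K z q.1 ∧ q.2 ∈ D.Dk z (K + 1)) then (1 : ℝ) else 0) :=
        sum_le_sum hF
    _ = ∑ q ∈ PP, ({z ∈ tup S' | D.IsSt K z q.1 ∧ q.2 ∈ D.Dk z (K + 1)}.ncard : ℝ) := by
        rw [sum_comm]
        exact sum_congr rfl fun q _ => (VStp_nc S' _).symm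
    _ ≤ ∑ q ∈ PP, (15 / 16 * ({z ∈ tup S' | D.IsSt K z q.1}.ncard : ℝ) +
          1 / (L : ℝ) ^ e * Pr) := sum_le_sum hpair
    _ = (∑ z ∈ Fintype.piFinset S', ∑ q ∈ PP,
          15 / 16 * (if z ∈ tup S' ∧ D.IsSt K z q.1 then (1 : ℝ) else 0)) +
          #PP * (1 / (L : ℝ) ^ e * Pr) := by
        rw [sum_add_distrib, sum_const, nsmul_eq_mul, sum_comm]
        congr 1
        refine sum_congr rfl fun q _ => ?_
        rw [VStp_nc, mul_sum]
    _ ≤ ∑ z ∈ Fintype.piFinset S', VStp_G D K Lp d b S I z +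
        (nst K d : ℝ) / (L : ℝ) ^ e * Pr := by
        refine add_le_add (sum_le_sum hG) ?_
        have h1 : (#PP : ℝ) ≤ nst K d := by exact_mod_cast hPcard
        calc (#PP : ℝ) * (1 / (L : ℝ) ^ e * Pr) ≤ (nst K d : ℝ) * (1 / (L : ℝ) ^ e * Pr) :=
              mul_le_mul_of_nonneg_right h1 (by positivity)
          _ = _ := by ring

/-- summation over the cells for fixed `I` -/
private theorem VStp_sumI (hDk : S_Dk1) (hSy : S_Sy1) (hChs : S_Chs) (hNcl : MP72S.S_VNcl)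
    (hNst : S_VNst) (hSum : MP72S.S_VSum) (hD : AxL D) (hK : 1 ≤ K) (hKL : K ≤ Lp) {Gb : Subgroup G}
    {e E L : ℕ} (hC : VStp_C (ι := ι) D K d Gb e E L) (hS : D.Szc Gb E L b S)
    (I : Finset ι) (hIK : #I = K) (hbI : b ∉ I) :
    ∑ z ∈ Fintype.piFinset S, VStp_F D K Lp d b S I z ≤
      ∑ z ∈ Fintype.piFinset S, VStp_G D K Lp d b S I z +
        ((nst K d : ℝ) / (L : ℝ) ^ e + 2 ^ d * ((K + 1) / 2 ^ L)) * ∏ i, (#(S i) : ℝ) := by
  have hcardL := hS.card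
  have hL : 1 ≤ L := by omega
  have hL0 : (0 : ℝ) < (L : ℝ) ^ e := by
    have : (0 : ℝ) < L := by exact_mod_cast hL
    positivity
  have h := hSum S (insert b I) (D.kap (insert b I)) (fun z z' h => VStp_kap h) (2 ^ L)
    (fun z => ⟨(hNcl D.toDat hD.ax (insert b I) z).1, (hNcl D.toDat hD.ax (insert b I) z).2.trans
      (Nat.pow_le_pow_right (by norm_num) (by omega))⟩)
    (fun i => if i = b then (#(S b) : ℝ) / 2 ^ (2 * L) else 2 ^ L)
    (fun i => by split_ifs <;> positivity)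
    (VStp_F D K Lp d b S I) (VStp_G D K Lp d b S I) (2 ^ d) ((nst K d : ℝ) / (L : ℝ) ^ e)
    (by positivity) (by positivity) (fun z => VStp_Fle hDk hD hS.ok hK I z) (fun z => VStp_Gnn I z) ?_
  · refine h.trans ?_
    have h2 : ∀ i ∈ insert b I, ((2 ^ L : ℕ) : ℝ) *
        (if i = b then (#(S b) : ℝ) / 2 ^ (2 * L) else 2 ^ L) *
          ∏ j ∈ univ.erase i, (#(S j) : ℝ) ≤ 1 / 2 ^ L * ∏ i, (#(S i) : ℝ) := by
      intro i _
      rw [← mul_prod_erase univ (fun j => (#(S j) : ℝ)) (mem_univ i), ← mul_assoc]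
      refine mul_le_mul_of_nonneg_right ?_ (prod_nonneg fun j _ => Nat.cast_nonneg _)
      push_cast
      split_ifs with hib
      · rw [hib, two_mul, pow_add]
        refine le_of_eq ?_
        field_simp
      · have h3 : ((2 : ℝ) ^ (4 * L)) ≤ #(S i) := by exact_mod_cast hS.big i
        have h4 : (2 : ℝ) ^ (4 * L) = 2 ^ L * (2 ^ L * (2 ^ L * 2 ^ L)) := by
          rw [← pow_add, ← pow_add, ← pow_add]
          congr 1
          ring
        rw [one_div, ← div_eq_inv_mul, le_div_iff₀ (by positivity)]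
        refine le_trans ?_ h3
        rw [h4]
        have h5 : (1 : ℝ) ≤ 2 ^ L := one_le_pow₀ (by norm_num)
        have h6 : (0 : ℝ) ≤ 2 ^ L * 2 ^ L * 2 ^ L := by positivity
        nlinarith [mul_le_mul_of_nonneg_left h5 h6]
    have h3 := sum_le_sum h2
    rw [sum_const, nsmul_eq_mul, card_insert_of_notMem hbI, hIK] at h3
    have h4 := mul_le_mul_of_nonneg_left h3 (by positivity : (0 : ℝ) ≤ 2 ^ d)
    have h5 : (2 : ℝ) ^ d * (((K + 1 : ℕ) : ℝ) * (1 / 2 ^ L * ∏ i, (#(S i) : ℝ))) =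
        2 ^ d * ((K + 1) / 2 ^ L) * ∏ i, (#(S i) : ℝ) := by
      push_cast
      ring
    rw [h5] at h4
    rw [add_mul]
    linarith
  · intro z₁ hz₁ hlam
    refine VStp_cell hDk hSy hChs hNst hD hK hKL hC hS hL I z₁ hz₁ _ rfl ?_ ?_
    · intro i hi
      have h1 := hlam i (mem_insert_of_mem hi)
      rw [if_neg (by rintro rfl; exact hbI hi)] at h1
      exact_mod_cast h1
    · have h1 := hlam b (mem_insert_self b I)
      rw [if_pos rfl, div_le_iff₀ (by positivity)] at h1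
      rw [mul_comm]
      exact_mod_cast h1

open Classical in
/-- summation over the `I` -/
private theorem VStp_all (hDk : S_Dk1) (hSy : S_Sy1) (hChs : S_Chs) (hNcl : MP72S.S_VNcl)
    (hNst : S_VNst) (hSum : MP72S.S_VSum) (hD : AxL D) (hK : 1 ≤ K) (hKL : K ≤ Lp) {Gb : Subgroup G}
    {e E L : ℕ} (hC : VStp_C (ι := ι) D K d Gb e E L) (hS : D.Szc Gb E L b S) :
    ∑ z ∈ Fintype.piFinset S, (if VStp_Om D K Lp d b S z then
      (#((VStp_Δ D z K).filter fun f => f ∉ D.T z ∧ f ∈ D.Dk z (K + 1)) : ℝ) else 0) ≤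
    ∑ z ∈ Fintype.piFinset S, (if VStp_Om D K Lp d b S z then
      15 / 16 * (#((VStp_Δ D z K).filter fun f => f ∉ D.T z) : ℝ) else 0) +
      (L : ℝ) ^ K * ((nst K d : ℝ) / (L : ℝ) ^ e + 2 ^ d * ((K + 1) / 2 ^ L)) *
        ∏ i, (#(S i) : ℝ) := by
  have hcardL := hS.card
  have hcι : Fintype.card (D.J ι) = Fintype.card {v // v ∈ D.S} + Fintype.card ι :=
    Fintype.card_sum
  have hin : ∀ z, VStp_Om D K Lp d b S z → ∀ f ∈ (VStp_Δ D z K).filter (fun f => f ∉ D.T z),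
      VStp_I D K Lp d b S (VStp_st D K z) f ∈ (univ.erase b).powersetCard K := by
    intro z hz f hf
    rw [mem_filter, VStp_memΔ hDk hD (hS.ok z hz.1) hK] at hf
    obtain ⟨_, _, _, f₀, γ, t', hCho, _, _⟩ := VStp_exQ hChs hD hK hKL hS.ok hz hf.1 hf.2
    rw [mem_powersetCard]
    refine ⟨fun i hi => mem_erase.2 ⟨?_, mem_univ i⟩, hCho.cK⟩
    rintro rfl
    exact hCho.hb hi
  have hF : ∀ z, (if VStp_Om D K Lp d b S z then
      (#((VStp_Δ D z K).filter fun f => f ∉ D.T z ∧ f ∈ D.Dk z (K + 1)) : ℝ) else 0) =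
      ∑ I ∈ (univ.erase b).powersetCard K, VStp_F D K Lp d b S I z := by
    intro z
    unfold VStp_F
    split_ifs with hz
    · rw [card_eq_sum_card_fiberwise (f := fun f => VStp_I D K Lp d b S (VStp_st D K z) f)
        (t := (univ.erase b).powersetCard K)]
      · rw [Nat.cast_sum]
        exact sum_congr rfl fun I _ => by rw [filter_filter]
      · intro f hf
        have hf' := mem_filter.1 (mem_coe.1 hf)
        exact mem_coe.2 (hin z hz f (mem_filter.2 ⟨hf'.1, hf'.2.1⟩))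
    · rw [sum_const_zero]
  have hG : ∀ z, (if VStp_Om D K Lp d b S z then
      15 / 16 * (#((VStp_Δ D z K).filter fun f => f ∉ D.T z) : ℝ) else 0) =
      ∑ I ∈ (univ.erase b).powersetCard K, VStp_G D K Lp d b S I z := by
    intro z
    unfold VStp_G
    split_ifs with hz
    · rw [card_eq_sum_card_fiberwise (f := fun f => VStp_I D K Lp d b S (VStp_st D K z) f)
        (t := (univ.erase b).powersetCard K)]
      · rw [Nat.cast_sum, mul_sum]
        exact sum_congr rfl fun I _ => by rw [filter_filter]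
      · intro f hf
        exact mem_coe.2 (hin z hz f (mem_coe.1 hf))
    · rw [sum_const_zero]
  rw [sum_congr rfl fun z _ => hF z, sum_congr rfl fun z _ => hG z, sum_comm,
    sum_comm (s := Fintype.piFinset S)]
  have h1 : ∀ I ∈ (univ.erase b).powersetCard K,
      ∑ z ∈ Fintype.piFinset S, VStp_F D K Lp d b S I z ≤
      ∑ z ∈ Fintype.piFinset S, VStp_G D K Lp d b S I z +
        ((nst K d : ℝ) / (L : ℝ) ^ e + 2 ^ d * ((K + 1) / 2 ^ L)) * ∏ i, (#(S i) : ℝ) := by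
    intro I hI
    rw [mem_powersetCard] at hI
    exact VStp_sumI hDk hSy hChs hNcl hNst hSum hD hK hKL hC hS I hI.2 fun h =>
      (mem_erase.1 (hI.1 h)).1 rfl
  refine (sum_le_sum h1).trans ?_
  rw [sum_add_distrib, sum_const, nsmul_eq_mul]
  refine add_le_add le_rfl ?_
  rw [mul_assoc]
  refine mul_le_mul_of_nonneg_right ?_ ?_
  · rw [card_powersetCard, card_erase_of_mem (mem_univ b), card_univ]
    calc (((Fintype.card ι - 1).choose K : ℕ) : ℝ) ≤ (((Fintype.card ι - 1) ^ K : ℕ) : ℝ) := by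
          exact_mod_cast Nat.choose_le_pow _ _
      _ ≤ ((L ^ K : ℕ) : ℝ) := by
          exact_mod_cast Nat.pow_le_pow_left (by omega) K
      _ = (L : ℝ) ^ K := by push_cast; rfl
  · have h2 : (0 : ℝ) ≤ ∏ i, (#(S i) : ℝ) := prod_nonneg fun i _ => Nat.cast_nonneg _
    exact mul_nonneg (by positivity) h2

private theorem VStp_nat {X : Type} (s : Finset X) (A : Set X) (h : ∀ f, f ∈ s ↔ f ∈ A) :
    #s = Nat.card A := by
  have h' : A = (s : Set X) := by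
    ext f
    exact (h f).symm
  rw [h', Nat.card_coe_set_eq, Set.ncard_coe_finset]

open Classical in
private theorem VStp_c4 (hDk : S_Dk1) (hD : AxL D) (hne : Nonempty ι) {z : ι → P}
    (hz : D.Ok z) (hK : 1 ≤ K) (A : AddSubgroup (D.J ι → N)) (hTA : D.T z ≤ A) (hA : A ≤ D.Dk z K) :
    Nat.card A = 4 + #((VStp_Δ D z K).filter fun f => f ∉ D.T z ∧ f ∈ A) := by
  have h1 : #((VStp_Δ D z K).filter fun f => f ∈ A) = Nat.card A := by
    refine VStp_nat _ (A : Set (D.J ι → N)) fun f => ?_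
    rw [mem_filter, VStp_memΔ hDk hD hz hK]
    exact ⟨fun h => h.2, fun h => ⟨hA h, h⟩⟩
  have h2 : #(((VStp_Δ D z K).filter fun f => f ∈ A).filter fun f => f ∈ D.T z) = 4 := by
    rw [← (hDk D hD z hz).2.2.2.2.2.1 hne]
    refine VStp_nat _ (D.T z : Set (D.J ι → N)) fun f => ?_
    rw [mem_filter, mem_filter, VStp_memΔ hDk hD hz hK]
    exact ⟨fun h => h.2, fun h => ⟨⟨hA (hTA h), hTA h⟩, h⟩⟩
  have h3 := card_filter_add_card_filter_not (s := (VStp_Δ D z K).filter fun f => f ∈ A)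
    (fun f => f ∈ D.T z)
  rw [h1, h2, filter_filter] at h3
  rw [← h3]
  congr 2
  refine filter_congr fun f _ => ?_
  exact and_comm

end

private theorem VStp_num (K d : ℕ) {δ : ℝ} (hδ : 0 < δ) (n : ℝ) (hn : 0 ≤ n) :
    ∃ L₂ : ℕ, ∀ L : ℕ, L₂ ≤ L →
    (L : ℝ) ^ K * (n / (L : ℝ) ^ (K + 2) + 2 ^ d * ((K + 1) / 2 ^ L)) ≤ δ := by
  have h1 : Filter.Tendsto
      (fun L : ℕ => n / (L : ℝ) + 2 ^ d * ((K : ℝ) + 1) * ((L : ℝ) ^ K / 2 ^ L))
      Filter.atTop (nhds 0) := by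
    have h2 := tendsto_const_div_atTop_nhds_zero_nat n
    have h3 := (tendsto_pow_const_div_const_pow_of_one_lt K (one_lt_two (α := ℝ))).const_mul
      (2 ^ d * ((K : ℝ) + 1))
    have h4 := h2.add h3
    rw [mul_zero, add_zero] at h4
    exact h4
  obtain ⟨L₂, hL₂⟩ := Filter.eventually_atTop.1 (h1.eventually_lt_const hδ)
  refine ⟨max L₂ 1, fun L hL => ?_⟩
  have h5 := hL₂ L (le_trans (le_max_left _ _) hL)
  have h6 : (1 : ℝ) ≤ L := by exact_mod_cast le_trans (le_max_right _ _) hL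
  have h0 : (0 : ℝ) < L := lt_of_lt_of_le one_pos h6
  refine le_trans ?_ h5.le
  have h7 : (L : ℝ) ^ K * (n / (L : ℝ) ^ (K + 2)) ≤ n / L := by
    have h8 : (L : ℝ) ^ K * (n / (L : ℝ) ^ (K + 2)) = n / (L : ℝ) ^ 2 := by
      rw [pow_add]
      field_simp
    rw [h8]
    refine div_le_div_of_nonneg_left hn h0 ?_
    nlinarith
  have h9 : (L : ℝ) ^ K * (2 ^ d * (((K : ℝ) + 1) / 2 ^ L)) =
      2 ^ d * ((K : ℝ) + 1) * ((L : ℝ) ^ K / 2 ^ L) := by
    ring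
  rw [mul_add, h9]
  linarith

theorem tVStp : S_Dk1 → S_Sy1 → S_Chs → S_VCell → MP72S.S_VNcl → S_VNst → MP72S.S_VSum →
    S_VStp := by
  intro hDk hSy hChs hCell hNcl hNst hSum K Lp d hK hKL δ hδ
  classical
  obtain ⟨E, L₁, hE⟩ := hCell K d (K + 2) hK
  obtain ⟨L₂, hL₂⟩ := VStp_num K d hδ (nst K d : ℝ) (Nat.cast_nonneg _)
  refine ⟨E, max L₁ L₂, fun L hL => ?_⟩
  intro G N P ι _ _ _ _ _ _ _ D Gb hA hA2 hτ hcom b S hS
  have hC : VStp_C (ι := ι) D K d Gb (K + 2) E L := fun S b I R =>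
    hE L (le_trans (le_max_left _ _) hL) D Gb hA hA2 hτ hcom S b I R
  have h := VStp_all hDk hSy hChs hNcl hNst hSum hA hK hKL hC hS
  have hδ' := hL₂ L (le_trans (le_max_right _ _) hL)
  obtain ⟨Pr, hPr⟩ : ∃ Pr : ℝ, Pr = ∏ i, (#(S i) : ℝ) := ⟨_, rfl⟩
  have hPr0 : 0 ≤ Pr := by
    rw [hPr]
    exact prod_nonneg fun i _ => Nat.cast_nonneg _
  rw [← hPr] at h ⊢
  have hne : Nonempty ι := ⟨b⟩
  rw [VStp_fs, VStp_fs]
  have hX : ∀ z ∈ Fintype.piFinset S, (if z ∈ tup S ∧ (D.Pat z b Lp ∧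
      Nat.card (D.Dk z 1) ≤ 2 ^ d ∧ 16 ≤ Nat.card (D.Dk z (K + 1))) then
      (Nat.card (D.Dk z (K + 1)) : ℝ) else 0) ≤
      (if VStp_Om D K Lp d b S z then (4 : ℝ) else 0) + (if VStp_Om D K Lp d b S z then
      (#((VStp_Δ D z K).filter fun f => f ∉ D.T z ∧ f ∈ D.Dk z (K + 1)) : ℝ) else 0) := by
    intro z _
    split_ifs with h1 h2 h2
    · obtain ⟨-, d2, d3, -, d5, -⟩ := hDk D hA z (hS.ok z h1.1)
      rw [VStp_c4 hDk hA hne (hS.ok z h1.1) hK (D.Dk z (K + 1)) (d2 (K + 1) (Nat.succ_pos K))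
        (d3 K hK)]
      push_cast
      exact le_rfl
    · exfalso
      obtain ⟨h3, h4, h5, h6⟩ := h1
      obtain ⟨-, d2, d3, -, d5, -⟩ := hDk D hA z (hS.ok z h3)
      have := d5 K hK
      exact h2 ⟨h3, h4, h5, h6.trans (Nat.card_le_card_of_injective _
        (AddSubgroup.inclusion_injective (d3 K hK)))⟩
    · positivity
    · norm_num
  have hY : ∀ z ∈ Fintype.piFinset S,
      (if VStp_Om D K Lp d b S z then (4 : ℝ) else 0) + (if VStp_Om D K Lp d b S z then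
      15 / 16 * (#((VStp_Δ D z K).filter fun f => f ∉ D.T z) : ℝ) else 0) ≤
      61 / 64 * (if z ∈ tup S ∧ (D.Pat z b Lp ∧
      Nat.card (D.Dk z 1) ≤ 2 ^ d ∧ 16 ≤ Nat.card (D.Dk z K)) then
      (Nat.card (D.Dk z K) : ℝ) else 0) := by
    intro z _
    by_cases h1 : VStp_Om D K Lp d b S z
    · have h1' : z ∈ tup S ∧ (D.Pat z b Lp ∧ Nat.card (D.Dk z 1) ≤ 2 ^ d ∧
          16 ≤ Nat.card (D.Dk z K)) := h1
      rw [if_pos h1, if_pos h1, if_pos h1']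
      have h2 := VStp_c4 hDk hA hne (hS.ok z h1.1) hK (D.Dk z K)
        ((hDk D hA z (hS.ok z h1.1)).2.1 K hK) le_rfl
      have h3 : ((VStp_Δ D z K).filter fun f => f ∉ D.T z ∧ f ∈ D.Dk z K) =
          ((VStp_Δ D z K).filter fun f => f ∉ D.T z) := by
        refine filter_congr fun f hf => ?_
        rw [VStp_memΔ hDk hA (hS.ok z h1.1) hK] at hf
        exact ⟨fun h => h.1, fun h => ⟨h, hf⟩⟩
      rw [h3] at h2
      have h4 : (16 : ℝ) ≤ Nat.card (D.Dk z K) := by exact_mod_cast h1.2.2.2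
      have h5 : (Nat.card (D.Dk z K) : ℝ) =
          4 + (#((VStp_Δ D z K).filter fun f => f ∉ D.T z) : ℝ) := by
        rw [h2]
        push_cast
        rfl
      linarith
    · have h1' : ¬ (z ∈ tup S ∧ (D.Pat z b Lp ∧ Nat.card (D.Dk z 1) ≤ 2 ^ d ∧
          16 ≤ Nat.card (D.Dk z K))) := h1
      rw [if_neg h1, if_neg h1, if_neg h1']
      norm_num
  have hX' := sum_le_sum hX
  have hY' := sum_le_sum hY
  rw [sum_add_distrib] at hX' hY'
  rw [← mul_sum] at hY'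
  have hZ := mul_le_mul_of_nonneg_right hδ' hPr0
  linarith

end Pool.Agent.MP72B
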