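import Pool.Agent.Lib.MP_72e2e6_nt.Sm.B.SpecD

/-!
# MP_72e2e6_nt, `Sm/B`: module `VSyc` (the symbols on a cell)
-/

namespace Pool.Agent.MP72B

open Finset Pool.Agent.MP72S

private theorem VSyc_eq {G N P ι : Type} [Group G] [TopologicalSpace G] [AddCommGroup N]
    [DistribMulAction G N] [Fintype ι] [DecidableEq ι] {D : DatL G N P} (hS : MP72S.S_Sym) (hax : AxL D)
    {I₀ : Finset ι} {z₀ z z' : ι → P} (hz : D.Ok z) (hz' : D.Ok z')
    (h1 : ∀ i, i ∉ I₀ → z i = z₀ i) (h1' : ∀ i, i ∉ I₀ → z' i = z₀ i)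
    (h2 : ∀ i ∈ I₀, D.kap I₀ z₀ (z i) = D.kap I₀ z₀ (z₀ i))
    (h2' : ∀ i ∈ I₀, D.kap I₀ z₀ (z' i) = D.kap I₀ z₀ (z₀ i))
    (h3 : ∀ i ∈ I₀, ∀ j ∈ I₀, (D.Sy z).1 i j = (D.Sy z').1 i j) : D.Sy z = D.Sy z' := by
  classical
  have he : ∀ i, D.kap I₀ z₀ (z i) = D.kap I₀ z₀ (z' i) := by
    intro i
    by_cases hi : i ∈ I₀
    · rw [h2 i hi, h2' i hi]
    · rw [h1 i hi, h1' i hi]
  have hinf : ∀ w : ι → P, D.Ok w → ∀ i, w i ≠ D.inf := fun w hw i h => hw.nS i (h ▸ hax.ax.infS)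
  have hkj : ∀ i j, j ∉ I₀ → D.ch (z i) (D.phi (z₀ j)) = D.ch (z' i) (D.phi (z₀ j)) := by
    intro i j hj
    have h4 := congrFun (congrArg Prod.fst (he i)) j
    simp only [Dat.kap, if_neg hj] at h4
    exact h4
  have hA : (D.Sy z).1 = (D.Sy z').1 := by
    funext i j
    by_cases hi : i ∈ I₀ ∧ j ∈ I₀
    · exact h3 i hi.1 j hi.2
    by_cases hij : i = j
    · simp only [Dat.Sy, if_pos hij]
    simp only [Dat.Sy, if_neg hij]
    by_cases hj : j ∈ I₀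
    · have hi' : i ∉ I₀ := fun h => hi ⟨h, hj⟩
      rw [hS D.toDat hax.ax (z i) (z j) (hinf z hz i) (hinf z hz j) fun h => hij (hz.inj h),
        hS D.toDat hax.ax (z' i) (z' j) (hinf z' hz' i) (hinf z' hz' j) fun h => hij (hz'.inj h),
        h1 i hi', h1' i hi']
      exact hkj j i hi'
    · rw [h1 j hj, h1' j hj]
      exact hkj i j hj
  have hB : (D.Sy z).2.1 = (D.Sy z').2.1 := by
    funext i
    exact congrArg (fun k => k.2.1) (he i)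
  have hC : (D.Sy z).2.2.1 = (D.Sy z').2.2.1 := by
    funext i
    exact congrArg (fun k => k.2.2.1) (he i)
  have hE : (D.Sy z).2.2.2 = (D.Sy z').2.2.2 := by
    funext i
    exact congrArg (fun k => k.2.2.2) (he i)
  exact Prod.ext hA (Prod.ext hB (Prod.ext hC hE))

theorem tVSyc : MP72S.S_Sym → S_VSyc := by
  intro hS G N P ι _ _ _ _ _ _ D hax I₀ z₀ _
  classical
  set A := {σ | ∃ z : ι → P, D.Ok z ∧ (∀ i, i ∉ I₀ → z i = z₀ i) ∧
      (∀ i ∈ I₀, D.kap I₀ z₀ (z i) = D.kap I₀ z₀ (z₀ i)) ∧ D.Sy z = σ} with hA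
  let F : ((ι → ι → ZMod 2) × (ι → {v // v ∈ D.S} → ZMod 2 × ZMod 2 × ZMod 2) ×
      (ι → ZMod 2 × ZMod 2) × (ι → {u : N // 4 • u = 0} → N)) → ({i // i ∈ I₀} × {i // i ∈ I₀} →
      ZMod 2) := fun σ p => σ.1 p.1.1 p.2.1
  have hinj : Set.InjOn F A := by
    rintro σ ⟨z, hz, h1, h2, rfl⟩ σ' ⟨z', hz', h1', h2', rfl⟩ hF
    refine VSyc_eq hS hax hz hz' h1 h1' h2 h2' fun i hi j hj => ?_
    exact congrFun hF (⟨i, hi⟩, ⟨j, hj⟩)
  have hfin : A.Finite := Set.Finite.of_finite_image (Set.toFinite _) hinj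
  refine ⟨hfin, ?_⟩
  rw [← hinj.ncard_image]
  calc (F '' A).ncard ≤ (Set.univ : Set ({i // i ∈ I₀} × {i // i ∈ I₀} → ZMod 2)).ncard :=
        Set.ncard_le_ncard (Set.subset_univ _) Set.finite_univ
    _ = 2 ^ (#I₀ ^ 2) := by
        rw [Set.ncard_univ, Nat.card_eq_fintype_card, Fintype.card_fun, ZMod.card,
          Fintype.card_prod, Fintype.card_coe, sq]

end Pool.Agent.MP72B
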