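import Pool.Agent.Lib.MP_72e2e6_nt.Sm.B.SpecR

/-!
# MP_72e2e6_nt, `Sm/B`: the theorem on all squarefree twists from the interface
-/

set_option autoImplicit false

namespace Pool.Agent.MP72B.Frm

open Finset Polynomial MP72e2e6 Pool.Agent.MP72S Pool.Agent.MP72T Pool.Agent.MP72S.Ns

private theorem outB_dlt_ne {F : Type} [Field F] (a : Fin 3 → F[X]) (h : Function.Injective a) :
    Dlt a ≠ 0 := by
  have h01 : a 0 - a 1 ≠ 0 := sub_ne_zero.2 (h.ne (by decide))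
  have h02 : a 0 - a 2 ≠ 0 := sub_ne_zero.2 (h.ne (by decide))
  have h12 : a 1 - a 2 ≠ 0 := sub_ne_zero.2 (h.ne (by decide))
  exact mul_ne_zero (mul_ne_zero h01 h02) h12

theorem tOutB : S_DensB → S_TotB → S_HlfB → S_FrmB → S_OutB := by
  intro h1 h2 h3 h4 F _ _ a ha ε hε
  have hq1 : 1 < Nat.card F := Finite.one_lt_card
  have hq4 := ha.q4
  have hq : 3 ≤ Nat.card F := by omega
  obtain ⟨n₁, hn₁⟩ := (h2 F a ha.inj).1 (GdB a) (fun d hd ε hε =>
    h1 F hq (Dlt a) (outB_dlt_ne a ha.inj) (fun f => GdB a (d * f))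
      (fun ε hε => h4 F a ha d hd ε hε) ε hε) ε hε
  obtain ⟨n₂, hn₂⟩ := h3 F hq4 a ha.inj ε hε
  exact ⟨max n₁ n₂, fun n hn => ⟨hn₁ n ((le_max_left _ _).trans hn),
    hn₂ n ((le_max_right _ _).trans hn)⟩⟩

end Pool.Agent.MP72B.Frm
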