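import Pool.Agent.Lib.MP_72e2e6_nt.Sm.B.SpecQ

/-!
# MP_72e2e6_nt, `Sm/B`: the action on `N ⧸ U`
-/

namespace Pool.Agent.MP72B.Par

open Finset Pool.Agent.MP72S

private theorem QMuq_one {G N P R : Type} [Group G] [TopologicalSpace G] [AddCommGroup N]
    [DistribMulAction G N] [AddCommGroup R] [DistribMulAction G R] (hBs1 : C.S_Bs1)
    (hBs2 : C.S_Bs2) (hEFa : MP72S.S_EFa) (D : Dat G N P) (E : ℕ → N → N → R) (hf : R)
    (hD : Ax D) (hE : Ax3 D E hf) (U : AddSubgroup N) (s₀ : N) (hs : s₀ ∈ U) (hs0 : s₀ ≠ 0)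
    (hd : ∀ x ∈ U, ∃ y ∈ U, 2 • y = x) (h2 : ∀ x ∈ U, 2 • x = 0 ↔ x = 0 ∨ x = s₀) (g : G)
    (c : ZMod 2) (q : ℕ) (hq : q % 2 = 1) (hU : ∀ x ∈ U, sg c (g • x) = q • x)
    (hR : ∀ r : R, g • r = q • r) (x : N) : sg c (g • x) - x ∈ U := by
  obtain ⟨hadd2, -, h3, -, -, htw⟩ := hEFa D E hf hD hE
  have hP1 : C.P1 U ⟨s₀, hs⟩ :=
    { prim := fun x => by
        obtain ⟨k, hk⟩ := hD.prim x.1
        exact ⟨k, Subtype.ext hk⟩
      dvs := fun x => by
        obtain ⟨y, hy, hyx⟩ := hd x.1 x.2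
        exact ⟨⟨y, hy⟩, Subtype.ext hyx⟩
      hf0 := fun h => hs0 (congrArg Subtype.val h)
      two := fun x => by
        have := h2 x.1 x.2
        constructor
        · intro h
          rcases this.1 (congrArg Subtype.val h) with h' | h'
          · exact Or.inl (Subtype.ext h')
          · exact Or.inr (Subtype.ext h')
        · rintro (rfl | rfl)
          · exact smul_zero _
          · exact Subtype.ext (this.2 (Or.inr rfl)) }
  obtain ⟨⟨z, hz⟩, hz'⟩ := hBs1 U _ hP1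
  have hz1 := (hz' z hz).1
  let u : ℕ → N := fun n => (z n : N)
  have hP2 : C.P2 N := ⟨hD.prim, hD.dvs, hD.four⟩
  obtain ⟨w, hw⟩ := (hBs2 N hP2).2.1 u (congrArg Subtype.val hz.z0)
    (fun h => hz.z1 (Subtype.ext h)) (fun n => congrArg Subtype.val (hz.zs n))
  obtain ⟨ht, hgen, -, hV, -⟩ := (hBs2 N hP2).2.2 u w hw
  have hE0 : ∀ m b, 2 ^ m • b = 0 → E m 0 b = 0 := fun m b hb => by
    have := hE.E_add m 0 0 b (smul_zero _) (smul_zero _) hb
    rw [add_zero] at this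
    exact left_eq_add.1 this
  have hEn : ∀ m a b, 2 ^ m • a = 0 → 2 ^ m • b = 0 → ∀ j : ℕ, E m (j • a) b = j • E m a b := by
    intro m a b ha hb j
    induction j with
    | zero => rw [zero_smul, zero_smul]; exact hE0 m b hb
    | succ j ih =>
      rw [add_smul, one_smul, hE.E_add m _ _ _ (by rw [smul_comm, ha, smul_zero]) ha hb, ih,
        add_smul, one_smul]
  have hEn2 : ∀ m a b, 2 ^ m • a = 0 → 2 ^ m • b = 0 → ∀ j : ℕ, E m a (j • b) = j • E m a b := by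
    intro m a b ha hb j
    rw [hE.E_anti m _ _ ha (by rw [smul_comm, hb, smul_zero]), hEn m b a hb ha j,
      hE.E_anti m a b ha hb, smul_neg]
  obtain ⟨k, hk⟩ := hD.prim x
  have hx : 2 ^ (k + 1) • x = 0 := by rw [pow_succ', mul_smul, hk, smul_zero]
  obtain ⟨hu, hwt⟩ := ht (k + 1)
  have hy : 2 ^ (k + 1) • sg c (g • x) = 0 := by
    rw [← sg_nsmul, smul_comm, hx, smul_zero, sg_map_zero]
  set y := sg c (g • x) with hydef
  have hz2 : 2 ^ (k + 1) • (y - x) = 0 := by rw [smul_sub, hy, hx, sub_zero]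
  have e1 : E (k + 1) (sg c (g • u (k + 1))) y = g • E (k + 1) (u (k + 1)) x :=
    htw (k + 1) (fun _ => c) g (u (k + 1)) x hu hx
  rw [hU _ (z (k + 1)).2, hR, hEn _ _ _ hu hy] at e1
  have e2 : E (k + 1) (u (k + 1)) y = E (k + 1) (u (k + 1)) x + E (k + 1) (u (k + 1)) (y - x) := by
    rw [← hadd2 _ _ _ _ hu hx hz2, add_sub_cancel]
  have e3 : q • E (k + 1) (u (k + 1)) (y - x) = 0 := by
    rw [e2, smul_add] at e1
    exact left_eq_add.1 e1.symm
  have e4 : 2 ^ (k + 1) • E (k + 1) (u (k + 1)) (y - x) = 0 := by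
    rw [← hEn _ _ _ hu hz2, hu]
    exact hE0 _ _ hz2
  have e5 : E (k + 1) (u (k + 1)) (y - x) = 0 := by
    have hcop : Nat.Coprime q (2 ^ (k + 1)) := by
      apply Nat.Coprime.pow_right
      rw [Nat.coprime_two_right]
      exact Nat.odd_iff.2 hq
    have h8 := Nat.dvd_gcd (addOrderOf_dvd_of_nsmul_eq_zero e3)
      (addOrderOf_dvd_of_nsmul_eq_zero e4)
    rw [hcop] at h8
    exact AddMonoid.addOrderOf_eq_one_iff.1 (Nat.dvd_one.1 h8)
  obtain ⟨i, l, hil⟩ := hgen (k + 1) (y - x) hz2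
  have e6 : l • E (k + 1) (w (k + 1)) (u (k + 1)) = 0 := by
    rw [hE.E_anti _ _ _ hu hz2, neg_eq_zero, hil,
      hE.E_add _ _ _ _ (by rw [smul_comm, hu, smul_zero]) (by rw [smul_comm, hwt, smul_zero]) hu,
      hEn _ _ _ hu hu, hEn _ _ _ hwt hu, hE.E_alt _ _ hu, smul_zero, zero_add] at e5
    exact e5
  have hp : ∀ v : ℕ → N, (∀ n, 2 • v (n + 1) = v n) → ∀ j, 2 ^ j • v (j + 1) = v 1 := by
    intro v hv j
    induction j with
    | zero => rw [pow_zero, one_smul]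
    | succ j ih => rw [pow_succ, mul_smul, hv, ih]
  have hs2 : 2 • u 1 = 0 := by
    have := (ht 1).1
    rwa [pow_one] at this
  have hw2 : 2 • w 1 = 0 := by
    have := (ht 1).2
    rwa [pow_one] at this
  have e7 : 2 ^ k • E (k + 1) (w (k + 1)) (u (k + 1)) = hf := by
    rw [← hEn2 _ _ _ hwt hu, hp u hw.us k, h3 (k + 1) _ _ (by omega) hwt hs2,
      Nat.add_sub_cancel, hp w hw.ws k]
    refine if_neg fun h0 => hw.w1 (hD.e_nd _ hw2 fun b hb => ?_)
    have hz0 : D.e (w 1) 0 = 0 := by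
      have := hD.e_add 0 0 (w 1) (smul_zero _) (smul_zero _) hw2
      rw [add_zero] at this
      rw [hD.e_sym _ _ hw2 (smul_zero _)]
      exact left_eq_add.1 this
    rcases hV b hb with rfl | rfl | rfl | rfl
    · exact hz0
    · exact h0
    · exact hD.e_alt _ hw2
    · rw [hD.e_sym _ _ hw2 hb, hD.e_add _ _ _ hs2 hw2 hw2, hD.e_alt _ hw2, add_zero,
        hD.e_sym _ _ hs2 hw2, h0]
  have e8 : 2 ^ (k + 1) • E (k + 1) (w (k + 1)) (u (k + 1)) = 0 := by
    rw [← hEn _ _ _ hwt hu, hwt]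
    exact hE0 _ _ hu
  have e9 : 2 ^ (k + 1) ∣ l := by
    have := addOrderOf_eq_prime_pow (p := 2) (n := k) (by rw [e7]; exact hE.hf0) e8
    rw [← this]
    exact addOrderOf_dvd_of_nsmul_eq_zero e6
  obtain ⟨m, rfl⟩ := e9
  rw [hil, mul_comm (2 ^ (k + 1)) m, mul_smul, hwt, smul_zero, add_zero]
  exact U.nsmul_mem (z (k + 1)).2 i

/-- **Muq**. -/
theorem tMuq (hBs1 : C.S_Bs1) (hBs2 : C.S_Bs2) (_hBas : MP72S.S_Bas) (hEFa : MP72S.S_EFa) :
    S_Muq := by
  intro G N P R _ _ _ _ _ _ D E hf hD hE v U s₀ c d hs hs0 hd h2 hU x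
  constructor
  · refine QMuq_one hBs1 hBs2 hEFa D E hf hD hE U s₀ hs hs0 hd h2 (D.tau v) c 1 rfl
      (fun y hy => ?_) (fun r => ?_) x
    · rw [one_smul]
      exact (hU y hy).1
    · rw [one_smul]
      exact hE.tauR v r
  · refine QMuq_one hBs1 hBs2 hEFa D E hf hD hE U s₀ hs hs0 hd h2 (D.phi v) d (D.nq v) ?_
      (fun y hy => (hU y hy).2) (fun r => hE.phiR v r) x
    have := hD.q4 v
    omega

end Pool.Agent.MP72B.Par
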