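import Pool.Agent.Lib.MP_72e2e6_nt.Sm.B.SpecA

/-!
# MP_72e2e6_nt, `Sm/B/Rad`: the index of `Dk x (k+1)` in `Dk x k` is a power of four
-/

set_option autoImplicit false

namespace Pool.Agent.MP72B

open Finset Pool.Agent.MP72S

private theorem rad_card {M : Type} [AddCommGroup M] (H K : AddSubgroup M) (n : ℕ)
    (hK : ∀ m, m ∈ K ↔ m ∈ H ∧ n • m = 0) :
    Nat.card K * Nat.card (H.map (mulN M n)) = Nat.card H := by
  let φ : H →+ M := (mulN M n).comp H.subtype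
  have h1 : φ.range = H.map (mulN M n) := by
    rw [AddMonoidHom.range_comp, AddSubgroup.range_subtype]
  have h2 : Nat.card φ.ker * φ.ker.index = Nat.card H := φ.ker.card_mul_index
  rw [AddSubgroup.index_ker, h1] at h2
  rw [← h2]
  congr 1
  apply Nat.card_congr
  refine ⟨fun m => ⟨⟨m.1, ((hK m.1).1 m.2).1⟩, ((hK m.1).1 m.2).2⟩,
    fun m => ⟨m.1.1, (hK m.1.1).2 ⟨m.1.2, m.2⟩⟩, fun m => rfl, fun m => rfl⟩

/-- There are at most `#W / #Y` functionals on `W` which vanish on `Y`. -/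
private theorem rad_cnt {A : Type} [AddCommGroup A] (W Y : AddSubgroup A) (hYW : Y ≤ W)
    (h2 : ∀ w ∈ W, 2 • w = 0) [Finite W] (O : Set (A → ZMod 2))
    (hO : ∀ γ ∈ O, (∀ ν ∈ W, ∀ ν' ∈ W, γ (ν + ν') = γ ν + γ ν') ∧ (∀ ν ∈ Y, γ ν = 0) ∧
      ∀ ν, ν ∉ W → γ ν = 0) :
    O.ncard * Nat.card Y ≤ Nat.card W := by
  classical
  let Q := W ⧸ Y.addSubgroupOf W
  have : Finite Q := inferInstance
  have h2Q : ∀ q : Q, 2 • q = 0 := by
    intro q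
    induction q using QuotientAddGroup.induction_on with
    | H w =>
      have : (2 : ℕ) • w = 0 := Subtype.ext (h2 w.1 w.2)
      rw [← QuotientAddGroup.mk_nsmul, this, QuotientAddGroup.mk_zero]
  let : Module (ZMod 2) Q := AddCommGroup.zmodModule h2Q
  have : Module.Finite (ZMod 2) Q := Module.Finite.of_finite
  have : Fact (Nat.Prime 2) := ⟨Nat.prime_two⟩
  let φ : ∀ γ : O, W →+ ZMod 2 := fun γ =>
    { toFun := fun w => γ.1 w.1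
      map_zero' := (hO γ.1 γ.2).2.1 0 Y.zero_mem
      map_add' := fun a b => (hO γ.1 γ.2).1 a.1 a.2 b.1 b.2 }
  let F : O → Module.Dual (ZMod 2) Q := fun γ =>
    (QuotientAddGroup.lift (Y.addSubgroupOf W) (φ γ)
      (fun w hw => (hO γ.1 γ.2).2.1 w.1 hw)).toZModLinearMap 2
  have hinj : Function.Injective F := by
    intro γ γ' h
    apply Subtype.ext
    funext ν
    by_cases hν : ν ∈ W
    · have h3 : F γ (QuotientAddGroup.mk (⟨ν, hν⟩ : W)) = F γ' (QuotientAddGroup.mk (⟨ν, hν⟩ : W)) := by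
        rw [h]
      exact h3
    · rw [(hO γ.1 γ.2).2.2 ν hν, (hO γ'.1 γ'.2).2.2 ν hν]
  have : Finite (Module.Dual (ZMod 2) Q) := Module.finite_of_finite (ZMod 2)
  have h1 : O.ncard ≤ Nat.card (Module.Dual (ZMod 2) Q) := by
    rw [← Nat.card_coe_set_eq]
    exact Nat.card_le_card_of_injective F hinj
  have h3 : Nat.card (Module.Dual (ZMod 2) Q) = Nat.card Q := by
    rw [Module.natCard_eq_pow_finrank (K := ZMod 2), Subspace.dual_finrank_eq,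
      ← Module.natCard_eq_pow_finrank (K := ZMod 2)]
  have h4 : Nat.card W = Nat.card Q * Nat.card (Y.addSubgroupOf W) :=
    AddSubgroup.card_eq_card_quotient_mul_card_addSubgroup _
  have h5 : Nat.card (Y.addSubgroupOf W) = Nat.card Y :=
    Nat.card_congr (AddSubgroup.addSubgroupOfEquivOfLe hYW).toEquiv
  rw [h4, h5, ← h3]
  exact Nat.mul_le_mul_right _ h1

theorem tRad : S_Uq → MP72S.S_Bas → S_Dk1 → S_ObA → S_Dua → S_AltP → S_Hlf → MP72S.S_AltE → S_Rad := by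
  intro _ hBas hDk hObA hDua hAltP hHlf hAltE G N P ι R _ _ _ _ _ _ _ _ _ D E hf hA hA2 hA3 x hx
    k hk
  classical
  obtain ⟨hO1, hO2, hO3, -, hO5⟩ := hObA D hA x hx
  obtain ⟨hd1, -, hd3, hd4, hd5, -⟩ := hDk D hA x hx
  have hex : ∀ ξ ∈ D.Z x, ∃ η : G → N, D.IsH x ξ η := hHlf D hA hA2 x hx
  choose! η hη using hex
  have hkk : 2 ^ k = 2 ^ (k - 1) * 2 := by
    rw [← pow_succ, Nat.sub_add_cancel hk]
  have hfin : ∀ k : ℕ, Finite (D.Z x ⊓ tor (D.J ι → N) k : AddSubgroup (D.J ι → N)) := by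
    intro k
    have h1 : {t : D.J ι → N | 2 ^ k • t = 0}.Finite := by
      apply (Set.Finite.pi fun _ : D.J ι => (hBas D.toDat hA.ax).2.1 k).subset
      intro t ht j _
      exact congrFun ht j
    exact (h1.subset fun t ht => ht.2).to_subtype
  obtain ⟨Zk, hZk⟩ : ∃ Zk, Zk = D.Z x ⊓ tor (D.J ι → N) k := ⟨_, rfl⟩
  obtain ⟨K, hKdef⟩ : ∃ K, K = D.Z x ⊓ tor (D.J ι → N) (k - 1) := ⟨_, rfl⟩
  obtain ⟨W, hW⟩ : ∃ W, W = D.Dk x 1 := ⟨_, rfl⟩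
  have hZkfin : Finite Zk := by rw [hZk]; exact hfin k
  have hKfin : Finite K := by rw [hKdef]; exact hfin (k - 1)
  have hWfin : Finite W := by rw [hW]; exact hd5 1 le_rfl
  have mZk : ∀ m, m ∈ Zk ↔ m ∈ D.Z x ∧ 2 ^ k • m = 0 := fun m => by rw [hZk]; exact Iff.rfl
  have mK : ∀ m, m ∈ K ↔ m ∈ D.Z x ∧ 2 ^ (k - 1) • m = 0 := fun m => by rw [hKdef]; exact Iff.rfl
  have mW : ∀ m, m ∈ W ↔ m ∈ D.Z x ∧ 2 • m = 0 := fun m => by rw [hW]; exact hd1 m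
  have hKZ : K ≤ Zk := by
    intro m hm
    rw [mK] at hm
    rw [mZk]
    refine ⟨hm.1, ?_⟩
    rw [hkk, mul_comm, mul_smul, hm.2, smul_zero]
  -- the pairing
  obtain ⟨o, ho⟩ : ∃ o : (D.J ι → N) → (D.J ι → N) → ZMod 2,
      ∀ ξ ν, o ξ ν = D.ob x ξ (η ξ) ν := ⟨_, fun _ _ => rfl⟩
  have P1 : ∀ ξ ∈ D.Z x, ∀ ν ∈ W, ∀ ν' ∈ W, o ξ (ν + ν') = o ξ ν + o ξ ν' := by
    intro ξ hξ ν hν ν' hν'
    rw [hW] at hν hν'
    rw [ho, ho, ho]
    exact hO1 ξ (η ξ) (hη ξ hξ) ν hν ν' hν'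
  have P2 : ∀ ξ ∈ D.Z x, ∀ ξ' ∈ D.Z x, ∀ ν ∈ W, o (ξ + ξ') ν = o ξ ν + o ξ' ν := by
    intro ξ hξ ξ' hξ' ν hν
    rw [hW] at hν
    rw [ho, ho, ho]
    have h1 := hO2 ξ ξ' _ _ (hη ξ hξ) (hη ξ' hξ')
    rw [← h1.2 ν hν]
    exact hO5 _ _ _ (hη _ ((D.Z x).add_mem hξ hξ')) h1.1 ν hν
  have P3 : ∀ ζ ∈ D.Z x, ∀ ν ∈ W, o (2 • ζ) ν = 0 := by
    intro ζ hζ ν hν
    rw [hW] at hν
    rw [ho]
    have h1 := hO3 ζ hζ
    rw [hO5 _ _ _ (hη _ ((D.Z x).nsmul_mem hζ 2)) h1.1 ν hν]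
    exact h1.2 ν hν
  have P4 : ∀ ξ ∈ D.Z x, (∀ ν ∈ W, o ξ ν = 0) → ∃ ζ ∈ D.Z x, 2 • ζ = ξ := by
    intro ξ hξ h
    refine hDua D hA x hx ξ (η ξ) (hη ξ hξ) fun ν hν => ?_
    rw [← ho]
    exact h ν (by rw [hW]; exact hν)
  have P5 : ∀ ξ ∈ Zk, o ξ (2 ^ (k - 1) • ξ) = 0 := by
    intro ξ hξ
    rw [mZk] at hξ
    rw [ho]
    refine hAltP D E hf hA hA3 x hx (k - 1) ξ (η ξ) ?_ (hη ξ hξ.1)
    rw [Nat.sub_add_cancel hk]
    exact hξ.2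
  have P0 : ∀ ξ ∈ D.Z x, o ξ 0 = 0 := by
    intro ξ hξ
    have h := P1 ξ hξ 0 W.zero_mem 0 W.zero_mem
    rw [add_zero] at h
    exact left_eq_add.1 h
  have P0' : ∀ ν ∈ W, o 0 ν = 0 := by
    intro ν hν
    have h := P2 0 (D.Z x).zero_mem 0 (D.Z x).zero_mem ν hν
    rw [add_zero] at h
    exact left_eq_add.1 h
  have hpW : ∀ ξ ∈ Zk, 2 ^ (k - 1) • ξ ∈ W := by
    intro ξ hξ
    rw [mZk] at hξ
    rw [mW]
    refine ⟨(D.Z x).nsmul_mem hξ.1 _, ?_⟩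
    rw [← mul_smul, mul_comm, ← hkk]
    exact hξ.2
  have hZZ : ∀ ξ ∈ Zk, ξ ∈ D.Z x := fun ξ hξ => ((mZk ξ).1 hξ).1
  have z2 : ∀ i j : ZMod 2, i + j = 0 → i = j := by decide
  have sym : ∀ ξ ∈ Zk, ∀ ξ' ∈ Zk, o ξ (2 ^ (k - 1) • ξ') = o ξ' (2 ^ (k - 1) • ξ) := by
    intro ξ hξ ξ' hξ'
    have h1 := P5 (ξ + ξ') (Zk.add_mem hξ hξ')
    rw [smul_add, P2 _ (hZZ _ hξ) _ (hZZ _ hξ') _ (W.add_mem (hpW _ hξ) (hpW _ hξ')),
      P1 _ (hZZ _ hξ) _ (hpW _ hξ) _ (hpW _ hξ'), P1 _ (hZZ _ hξ') _ (hpW _ hξ) _ (hpW _ hξ'),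
      P5 _ hξ, P5 _ hξ', zero_add, add_zero] at h1
    exact z2 _ _ h1
  -- the radical
  let Rd : AddSubgroup (D.J ι → N) :=
    { carrier := {ξ | ξ ∈ Zk ∧ ∀ ξ' ∈ Zk, o ξ (2 ^ (k - 1) • ξ') = 0}
      zero_mem' := ⟨Zk.zero_mem, fun ξ' hξ' => P0' _ (hpW _ hξ')⟩
      add_mem' := by
        rintro a b ⟨ha, ha'⟩ ⟨hb, hb'⟩
        refine ⟨Zk.add_mem ha hb, fun ξ' hξ' => ?_⟩
        rw [P2 _ (hZZ _ ha) _ (hZZ _ hb) _ (hpW _ hξ'), ha' _ hξ', hb' _ hξ', add_zero]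
      neg_mem' := by
        rintro a ⟨ha, ha'⟩
        refine ⟨Zk.neg_mem ha, fun ξ' hξ' => ?_⟩
        have h1 := P2 _ (hZZ _ ha) _ (hZZ _ (Zk.neg_mem ha)) _ (hpW _ hξ')
        rw [add_neg_cancel, P0' _ (hpW _ hξ'), ha' _ hξ', zero_add] at h1
        exact h1.symm }
  have mR : ∀ ξ, ξ ∈ Rd ↔ ξ ∈ Zk ∧ ∀ ξ' ∈ Zk, o ξ (2 ^ (k - 1) • ξ') = 0 := fun ξ => Iff.rfl
  have hRZ : Rd ≤ Zk := fun ξ hξ => hξ.1
  have hKR : K ≤ Rd := by
    intro ξ hξ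
    refine (mR ξ).2 ⟨hKZ hξ, fun ξ' hξ' => ?_⟩
    rw [sym _ (hKZ hξ) _ hξ', ((mK ξ).1 hξ).2, P0 _ (hZZ _ hξ')]
  have hRfin : Finite Rd := Finite.of_injective (AddSubgroup.inclusion hRZ)
    (AddSubgroup.inclusion_injective hRZ)
  have hKZx : K ≤ D.Z x := fun ξ hξ => ((mK ξ).1 hξ).1
  have hRZx : Rd ≤ D.Z x := fun ξ hξ => hZZ ξ (hRZ hξ)
  -- alternating form
  obtain ⟨r, hr⟩ := hAltE Zk (fun a b => o a.1 (2 ^ (k - 1) • b.1))
    (fun a b c => P2 _ (hZZ _ a.2) _ (hZZ _ b.2) _ (hpW _ c.2))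
    (fun a b c => by
      change o a.1 (2 ^ (k - 1) • (b.1 + c.1)) = _
      rw [smul_add]
      exact P1 _ (hZZ _ a.2) _ (hpW _ b.2) _ (hpW _ c.2))
    (fun a => P5 _ a.2) (Rd.addSubgroupOf Zk) (fun a => by
      rw [AddSubgroup.mem_addSubgroupOf, mR]
      constructor
      · rintro ⟨_, h⟩ b
        exact h b.1 b.2
      · intro h
        exact ⟨a.2, fun ξ' hξ' => h ⟨ξ', hξ'⟩⟩)
  rw [Nat.card_congr (AddSubgroup.addSubgroupOfEquivOfLe hRZ).toEquiv] at hr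
  -- the functionals
  let g : D.Z x →+ ((D.J ι → N) → ZMod 2) :=
    { toFun := fun ξ ν => if ν ∈ W then o ξ.1 ν else 0
      map_zero' := by
        funext ν
        by_cases hν : ν ∈ W
        · rw [if_pos hν, Pi.zero_apply]
          exact P0' ν hν
        · rw [if_neg hν, Pi.zero_apply]
      map_add' := by
        intro ξ ξ'
        funext ν
        by_cases hν : ν ∈ W
        · rw [Pi.add_apply, if_pos hν, if_pos hν, if_pos hν]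
          exact P2 _ ξ.2 _ ξ'.2 ν hν
        · rw [Pi.add_apply, if_neg hν, if_neg hν, if_neg hν, add_zero] }
  have gap : ∀ (ξ : D.Z x) ν, g ξ ν = if ν ∈ W then o ξ.1 ν else 0 := fun _ _ => rfl
  let gK : K →+ ((D.J ι → N) → ZMod 2) := g.comp (AddSubgroup.inclusion hKZx)
  let gR : Rd →+ ((D.J ι → N) → ZMod 2) := g.comp (AddSubgroup.inclusion hRZx)
  have hle : gK.range ≤ gR.range := by
    rintro _ ⟨ξ, rfl⟩
    exact ⟨⟨ξ.1, hKR ξ.2⟩, rfl⟩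
  have hgRfin : Finite gR.range := Finite.of_surjective gR.rangeRestrict
    gR.rangeRestrict_surjective
  have hYW : D.Dk x k ≤ W := by rw [hW]; exact hd4 k hk
  have hYmem : ∀ ν ∈ D.Dk x k, ∃ ξ' ∈ Zk, 2 ^ (k - 1) • ξ' = ν := by
    rintro _ ⟨ξ', hξ', rfl⟩
    exact ⟨ξ', by rw [hZk]; exact hξ', rfl⟩
  have c1 : Nat.card gR.range * Nat.card (D.Dk x k) ≤ Nat.card W := by
    have h1 := rad_cnt W (D.Dk x k) hYW (fun w hw => ((mW w).1 hw).2)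
      (gR.range : Set ((D.J ι → N) → ZMod 2)) ?_
    · rwa [← Nat.card_coe_set_eq] at h1
    · rintro _ ⟨ξ, rfl⟩
      refine ⟨fun ν hν ν' hν' => ?_, fun ν hν => ?_, fun ν hν => ?_⟩
      · change g _ _ = g _ _ + g _ _
        rw [gap, gap, gap, if_pos (W.add_mem hν hν'), if_pos hν, if_pos hν']
        exact P1 _ (hRZx ξ.2) _ hν _ hν'
      · change g _ _ = 0
        rw [gap, if_pos (hYW hν)]
        obtain ⟨ξ', hξ', rfl⟩ := hYmem ν hν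
        exact ((mR ξ.1).1 ξ.2).2 ξ' hξ'
      · change g _ _ = 0
        rw [gap, if_neg hν]
  have e1 : Nat.card W * Nat.card (Zk.map (mulN (D.J ι → N) 2)) = Nat.card Zk := by
    apply rad_card
    intro m
    rw [mW, mZk]
    constructor
    · rintro ⟨h1, h2⟩
      refine ⟨⟨h1, ?_⟩, h2⟩
      rw [hkk, mul_smul, h2, smul_zero]
    · rintro ⟨h1, h2⟩
      exact ⟨h1.1, h2⟩
  have hDkk : D.Dk x k = Zk.map (mulN (D.J ι → N) (2 ^ (k - 1))) := by rw [hZk]; rfl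
  have e2 : Nat.card K * Nat.card (D.Dk x k) = Nat.card Zk := by
    rw [hDkk]
    apply rad_card
    intro m
    rw [mK, mZk]
    constructor
    · rintro ⟨h1, h2⟩
      refine ⟨⟨h1, ?_⟩, h2⟩
      rw [hkk, mul_comm, mul_smul, h2, smul_zero]
    · rintro ⟨h1, h2⟩
      exact ⟨h1.1, h2⟩
  have e3 : Nat.card K * Nat.card (Rd.map (mulN (D.J ι → N) (2 ^ (k - 1)))) = Nat.card Rd := by
    apply rad_card
    intro m
    constructor
    · intro h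
      exact ⟨hKR h, ((mK m).1 h).2⟩
    · rintro ⟨h1, h2⟩
      rw [mK]
      exact ⟨hRZx h1, h2⟩
  have c2 : Nat.card gK.range * Nat.card (Zk.map (mulN (D.J ι → N) 2)) = Nat.card K := by
    have h1 : Nat.card gK.ker * gK.ker.index = Nat.card K := gK.ker.card_mul_index
    rw [AddSubgroup.index_ker] at h1
    rw [← h1, mul_comm]
    congr 1
    have hmem : ∀ m, m ∈ Zk.map (mulN (D.J ι → N) 2) → m ∈ K ∧ ∀ ν ∈ W, o m ν = 0 := by
      rintro _ ⟨ζ, hζ, rfl⟩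
      have hζ' := (mZk ζ).1 hζ
      refine ⟨(mK _).2 ⟨(D.Z x).nsmul_mem hζ'.1 2, ?_⟩, fun ν hν => P3 ζ hζ'.1 ν hν⟩
      change 2 ^ (k - 1) • (2 • ζ) = 0
      rw [← mul_smul, ← hkk]
      exact hζ'.2
    have hmem' : ∀ m, m ∈ K → (∀ ν ∈ W, o m ν = 0) → m ∈ Zk.map (mulN (D.J ι → N) 2) := by
      intro m hm h
      obtain ⟨ζ, hζ, rfl⟩ := P4 m (hKZx hm) h
      refine ⟨ζ, (mZk ζ).2 ⟨hζ, ?_⟩, rfl⟩
      rw [hkk, mul_smul]
      exact ((mK _).1 hm).2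
    have hker : ∀ m : K, m ∈ gK.ker ↔ ∀ ν ∈ W, o m.1 ν = 0 := by
      intro m
      rw [AddMonoidHom.mem_ker]
      constructor
      · intro h ν hν
        have h2 := congrFun h ν
        change g _ _ = 0 at h2
        rw [gap, if_pos hν] at h2
        exact h2
      · intro h
        funext ν
        change g _ _ = 0
        rw [gap]
        split_ifs with hν
        · exact h ν hν
        · rfl
    apply Nat.card_congr
    exact ⟨fun m => ⟨⟨m.1, (hmem m.1 m.2).1⟩, (hker _).2 (hmem m.1 m.2).2⟩,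
      fun m => ⟨m.1.1, hmem' m.1.1 m.1.2 ((hker m.1).1 m.2)⟩, fun m => rfl, fun m => rfl⟩
  have hKpos : 0 < Nat.card K := Nat.card_pos
  have hYfin : Finite (D.Dk x k) := hd5 k hk
  have hYpos : 0 < Nat.card (D.Dk x k) := Nat.card_pos
  have hMpos : 0 < Nat.card (Zk.map (mulN (D.J ι → N) 2)) := by
    rw [← c2] at hKpos
    exact Nat.pos_of_mul_pos_left hKpos
  have c3 : Nat.card gK.range * Nat.card (D.Dk x k) = Nat.card W := by
    apply Nat.eq_of_mul_eq_mul_right hMpos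
    rw [e1, ← e2, ← c2]
    ring
  have heq : gK.range = gR.range := by
    apply AddSubgroup.eq_of_le_of_card_ge hle
    apply Nat.le_of_mul_le_mul_right _ hYpos
    rw [c3]
    exact c1
  have key : Rd.map (mulN (D.J ι → N) (2 ^ (k - 1))) = D.Dk x (k + 1) := by
    apply le_antisymm
    · rintro _ ⟨ξ, hξ, rfl⟩
      have h1 : gR ⟨ξ, hξ⟩ ∈ gK.range := by rw [heq]; exact ⟨_, rfl⟩
      obtain ⟨ξ', hξ'⟩ := h1
      have hξZ : ξ ∈ D.Z x := hRZx hξ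
      have hξ'Z : ξ'.1 ∈ D.Z x := hKZx ξ'.2
      have h2 : ∀ ν ∈ W, o (ξ + ξ'.1) ν = 0 := by
        intro ν hν
        have h3 := congrFun hξ' ν
        change g _ _ = g _ _ at h3
        rw [gap, gap, if_pos hν, if_pos hν] at h3
        have h4 : o ξ'.1 ν = o ξ ν := h3
        rw [P2 _ hξZ _ hξ'Z ν hν, h4]
        exact CharTwo.add_self_eq_zero _
      obtain ⟨ζ, hζ, hζ2⟩ := P4 _ ((D.Z x).add_mem hξZ hξ'Z) h2
      have hK' := ((mK _).1 ξ'.2).2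
      have h5 : 2 ^ (k - 1) • (2 • ζ) = 2 ^ (k - 1) • ξ := by
        rw [hζ2, smul_add, hK', add_zero]
      refine ⟨ζ, ⟨hζ, ?_⟩, ?_⟩
      · change 2 ^ (k + 1) • ζ = 0
        have h6 : 2 ^ (k + 1) • ζ = 2 • (2 ^ (k - 1) • (2 • ζ)) := by
          rw [← mul_smul, ← mul_smul]
          congr 1
          rw [pow_succ, hkk]
          ring
        rw [h6, h5, ← mul_smul, mul_comm, ← hkk]
        exact ((mZk ξ).1 (hRZ hξ)).2
      · change 2 ^ (k + 1 - 1) • ζ = 2 ^ (k - 1) • ξ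
        rw [← h5, ← mul_smul, ← hkk, Nat.add_sub_cancel]
    · rintro _ ⟨ζ, hζ, rfl⟩
      have hζ1 : ζ ∈ D.Z x := hζ.1
      have hζ2 : 2 ^ (k + 1) • ζ = 0 := hζ.2
      refine ⟨2 • ζ, ⟨(mZk _).2 ⟨(D.Z x).nsmul_mem hζ1 2, ?_⟩, fun ξ' hξ' => ?_⟩, ?_⟩
      · rw [← mul_smul, ← pow_succ]
        exact hζ2
      · exact P3 ζ hζ1 _ (hpW _ hξ')
      · change 2 ^ (k - 1) • (2 • ζ) = 2 ^ (k + 1 - 1) • ζ
        rw [← mul_smul, ← hkk, Nat.add_sub_cancel]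
  refine ⟨r, ?_⟩
  rw [key] at e3
  apply Nat.eq_of_mul_eq_mul_left hKpos
  rw [e2, hr, ← e3]
  ring

end Pool.Agent.MP72B
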