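import Pool.Agent.Lib.MP_72e2e6_nt.Sm.B.SpecN

/-!
# MP_72e2e6_nt, `Sm/B`: module `VFac`, the face functions form a system (families of types)
-/

namespace Pool.Agent.MP72B

open Finset Pool.Agent.MP72S

private theorem VFac_congr {P ι A : Type} [DecidableEq ι] [AddCommGroup A] (x y : ι → P)
    (U : Finset ι) (f g : (ι → P) → A) (h : ∀ w ⊆ U, f (mx x y w) = g (mx x y w)) :
    alt x y U f = alt x y U g := by
  unfold alt
  apply sum_congr rfl
  intro w hw
  rw [h w (mem_powerset.mp hw)]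

private theorem VFac_lc {G A κ : Type} [TopologicalSpace G] [AddCommGroup A] (s : Finset κ)
    (a : κ → ℤ) (f : κ → G → A) (h : ∀ k ∈ s, IsLocallyConstant (f k)) :
    IsLocallyConstant (fun σ => ∑ k ∈ s, a k • f k σ) := by
  classical
  induction s using Finset.induction_on with
  | empty =>
      simp only [sum_empty]
      exact IsLocallyConstant.const 0
  | insert k s hk ih =>
      simp only [sum_insert hk]
      have h1 := h k (mem_insert_self _ _)
      have h2 := ih (fun k' hk' => h k' (mem_insert_of_mem hk'))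
      exact (h1.comp (fun b => a k • b)).comp₂ h2 (fun a b => a + b)

private theorem VFac_alt_lc {G N P ι : Type} [TopologicalSpace G] [DecidableEq ι]
    [AddCommGroup N] (x y : ι → P) (U : Finset ι) (f : (ι → P) → G → N)
    (h : ∀ w ⊆ U, IsLocallyConstant (f (mx x y w))) :
    IsLocallyConstant (fun σ => alt x y U (fun z => f z σ)) := by
  unfold alt
  exact VFac_lc _ _ (fun w => f (mx x y w)) (fun w hw => h w (mem_powerset.mp hw))

theorem tVFac : MP72S.S_Alt → MP72S.S_Dif → S_Gdf → S_Uq → S_SepF → S_VLemB → S_VPar →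
    S_VFac := by
  intro hAlt hDif hGdf hUq _ hLemB hPar G N P ι _ _ _ _ _ _ D hA x y I I₀ Ξ hG hI hI₀ hSep θ t ht hθ
  classical
  have hn : 1 ≤ #I := card_pos.mpr hI
  obtain ⟨hGf, hGy, hGS, _⟩ := hGdf D x y I hG
  have hmx0 : mx x y ∅ = x := (@hAlt P ι N _ _ x y ∅ (fun _ => 0) (fun _ => 0)).1
  have hmxm : ∀ W w, mx (mx x y W) y w = mx x y (W ∪ w) :=
    (@hAlt P ι N _ _ x y ∅ (fun _ => 0) (fun _ => 0)).2.2.2.1
  have halt0 : ∀ f : (ι → P) → N, alt x y ∅ f = f x := fun f =>
    (@hAlt P ι N _ _ x y ∅ f f).2.1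
  have haltn : ∀ (x y : ι → P) (U : Finset ι) (n : ℕ) (f : (ι → P) → N),
      n • alt x y U f = alt x y U (fun z => n • f z) := fun x y U n f =>
    ((@hAlt P ι N _ _ x y U f f).2.2.2.2.2.2.1 n).symm
  have hcoc : ∀ w ⊆ I, ∀ s ∈ D.Z (mx x y w), ∀ (n : ℕ) (σ : G),
      n • D.coc (mx x y w) s σ = D.coc (mx x y w) (n • s) σ := fun w hw s hs n σ =>
    ((hUq D hA (mx x y w) (hG.ok w hw)).2.2.1 s hs n σ).symm
  have hZ : ∀ w ⊆ I, ∀ m : ℕ, m • t (mx x y w) ∈ D.Z (mx x y w) := fun w hw m =>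
    AddSubgroup.nsmul_mem _ (ht w hw).1 m
  have hG' : ∀ U ⊆ I, D.Gd x y U := by
    intro U hU
    have := hGf ∅ (empty_subset _) U hU (disjoint_empty_left _)
    rwa [hmx0] at this
  have hfc : ∀ U σ, D.vfc x y I t U σ = alt x y U (fun z => D.coc z (2 ^ (#I - #U) • t z) σ) :=
    fun U σ => rfl
  have hθi : ∀ i ∈ I, ∀ a b : ℕ, a + b = #I - 1 → 2 ^ a • 2 ^ b • θ (Sum.inr i) = 0 := by
    intro i hi a b h
    rw [smul_smul, ← pow_add, h]
    exact hθ i hi
  have ht0 : ∀ w ⊆ I, ∀ a b : ℕ, a + b = #I + 1 → 2 ^ a • 2 ^ b • t (mx x y w) = 0 := by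
    intro w hw a b h
    rw [smul_smul, ← pow_add, h, pow_succ, mul_smul]
    exact (ht w hw).2.1
  -- (1) two
  have htwo : ∀ U ⊆ I, ∀ σ, 2 • D.vfc x y I t U σ = 0 := by
    intro U hU σ
    have hc : #U ≤ #I := card_le_card hU
    rw [hfc U, haltn]
    rw [VFac_congr x y U (fun z => 2 • D.coc z (2 ^ (#I - #U) • t z) σ)
      (fun z => D.coc z (2 ^ (#I - #U + 1) • t z) σ)]
    · refine (hLemB D hA x y U I₀ Ξ (hG' U hU) (hU.trans hI₀) hSep #U
        (fun k => 2 ^ (#I - #U) • θ k) (fun z => 2 ^ (#I - #U + 1) • t z) le_rfl ?_ ?_ ?_ ?_).1 σ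
      · intro w hw
        exact ht0 w (hw.trans hU) _ _ (by omega)
      · intro w hw k hk
        change 2 ^ (#I - #U + 1) • t (mx x y w) k = 2 ^ (#I - #U) • θ k
        rw [pow_succ, mul_smul, (ht w (hw.trans hU)).2.2 k hk]
      · intro i hi
        have hU0 : 1 ≤ #U := card_pos.mpr ⟨i, hi⟩
        exact hθi i (hU hi) _ _ (by omega)
      · intro w hw
        exact hZ w (hw.trans hU) _
    · intro w hw
      rw [hcoc w (hw.trans hU) _ (hZ w (hw.trans hU) _), smul_smul, pow_succ']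
  -- the general step
  have hgen : ∀ (U : Finset ι), U ⊆ I → ∀ σ σ', D.vfc x y I t U (σ * σ') = D.vfc x y I t U σ +
        ∑ W ∈ (U.filter fun i => D.ch (x i) σ + D.ch (y i) σ = 1).powerset,
          D.vfc x y I t (U \ W) σ' := by
    intro U hU σ σ'
    have h1 := hDif D.toDat (fun z => D.coc z (2 ^ (#I - #U) • t z)) x y U σ σ'
    have h2 : alt x y U (fun z => D.coc z (2 ^ (#I - #U) • t z) σ +
        tw (D.chi z) σ (D.coc z (2 ^ (#I - #U) • t z) σ') -
        D.coc z (2 ^ (#I - #U) • t z) (σ * σ')) = 0 := by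
      rw [VFac_congr x y U _ (fun _ => 0)]
      · unfold alt
        simp
      · intro w hw
        have h3 := (DatL.coc_spec (hZ w (hw.trans hU) (2 ^ (#I - #U)))).u.co σ σ'
        change D.coc (mx x y w) (2 ^ (#I - #U) • t (mx x y w)) σ + tw (D.chi (mx x y w)) σ
          (D.coc (mx x y w) (2 ^ (#I - #U) • t (mx x y w)) σ') -
          D.coc (mx x y w) (2 ^ (#I - #U) • t (mx x y w)) (σ * σ') = 0
        rw [h3, sub_self]
    have h3 : ∀ W ∈ (U.filter fun i => D.ch (x i) σ + D.ch (y i) σ = 1).powerset,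
        2 ^ #W • alt (mx x y W) y (U \ W) (fun z => D.coc z (2 ^ (#I - #U) • t z) σ') =
          D.vfc x y I t (U \ W) σ' := by
      intro W hWm
      have hWU : W ⊆ U := (mem_powerset.mp hWm).trans (filter_subset _ _)
      rcases W.eq_empty_or_nonempty with hW0 | hW0
      · rw [hW0, card_empty, pow_zero, one_smul, hmx0, sdiff_empty, hfc]
      · have hWc : 1 ≤ #W := card_pos.mpr hW0
        have hUW : #(U \ W) = #U - #W := card_sdiff_of_subset hWU
        have hUI : #U ≤ #I := card_le_card hU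
        have hWUc : #W ≤ #U := card_le_card hWU
        rw [hfc (U \ W), haltn]
        rw [VFac_congr (mx x y W) y (U \ W) _
          (fun z => D.coc z (2 ^ (#I - #(U \ W)) • t z) σ')]
        · refine hPar D hA x y I I₀ Ξ hG hI₀ hSep (U \ W) (sdiff_subset.trans hU) W (hWU.trans hU)
            sdiff_disjoint (fun k => 2 ^ (#I - #(U \ W) - 1) • θ k)
            (fun z => 2 ^ (#I - #(U \ W)) • t z) ?_ ?_ ?_ ?_ σ'
          · intro w hw
            exact ht0 w hw _ _ (by omega)
          · intro w hw k hk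
            change 2 ^ (#I - #(U \ W)) • t (mx x y w) k = 2 ^ (#I - #(U \ W) - 1) • θ k
            rw [← (ht w hw).2.2 k hk, smul_smul, ← pow_succ]
            congr 2
            omega
          · intro i hi
            exact hθi i hi _ _ (by omega)
          · intro w hw
            exact hZ w hw _
        · intro w hw
          have hwU : W ∪ w ⊆ U := union_subset hWU (hw.trans sdiff_subset)
          rw [hmxm, hcoc _ (hwU.trans hU) _ (hZ _ (hwU.trans hU) _), smul_smul, ← pow_add]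
          congr 3
          omega
    have h4 : 2 • (∑ W ∈ (U.filter fun i => D.ch (x i) σ + D.ch (y i) σ = 1).powerset,
        D.vfc x y I t (U \ W) σ') = 0 := by
      rw [smul_sum]
      apply sum_eq_zero
      intro W _
      exact htwo _ (sdiff_subset.trans hU) σ'
    rw [h2, sum_congr rfl h3, tw_two hA.ax.tri h4, ← hfc, ← hfc] at h1
    have h5 : D.vfc x y I t U σ + (∑ W ∈ (U.filter fun i => D.ch (x i) σ +
        D.ch (y i) σ = 1).powerset, D.vfc x y I t (U \ W) σ') -
        D.vfc x y I t U (σ * σ') = 0 := by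
      rw [h1]
      abel
    exact (sub_eq_zero.mp h5).symm
  have hinf : ∀ i, x i ≠ D.inf := by
    intro i h
    have h1 := (hG.ok ∅ (empty_subset _)).nS i
    rw [hmx0, h] at h1
    exact h1 hA.ax.infS
  refine ⟨⟨htwo, ?_, hgen⟩, ?_, ?_⟩
  · -- hom
    intro i hi σ σ'
    have h1 : y i ≠ D.inf := by
      intro h
      have h2 := hGS i hi
      rw [h] at h2
      exact h2 hA.ax.infS
    rw [(hA.ax.chc _ (hinf i)).mul, (hA.ax.chc _ h1).mul]
    abel
  · -- locally constant
    intro U hU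
    exact VFac_alt_lc x y U (fun z => D.coc z (2 ^ (#I - #U) • t z))
      (fun w hw => (DatL.coc_spec (hZ w (hw.trans hU) _)).u.lc)
  · intro σ
    rw [hfc, halt0, card_empty, Nat.sub_zero]

end Pool.Agent.MP72B
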