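import Pool.Agent.Lib.MP_72e2e6_nt.Sm.N.Defs

/-!
# MP_72e2e6_nt, `Sm/B`: general local conditions at the fixed places, definitions

Block `B` removes the hypothesis of tameness. At a fixed place `s ∈ S` let `T_s ⊇ V` be the (finite)
group of the elements of `N` which are fixed by the twisted actions of `τ_s` and `φ_s`. It depends on
the values `a`, `b` of the character at `τ_s`, `φ_s`. A Selmer cocycle is `tw · Q - Q` at `τ_s`, `φ_s`, where
`Q` is determined modulo `T_s`. The type of the cocycle at `s` is `lam s a b Q`, where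
`lam s a b : N → N` is a surjective homomorphism with kernel `T_s` (in the tame case the
multiplication by two). At the places of the configuration the type is `2 • Q` as before. So
`D.lm x j` replaces the multiplication by two at the index `j`. All names are those of `Sm/Defs.lean`,
`Sm/N/Defs.lean`, with `DatL` in place of `Dat`; `D.T x` depends on `x` (but only on the characters at
the places of `S`): it consists of the types `D.tv x R`, `4 • R = 0`, of the torsion cocycles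
`tw · R - R`.
-/

namespace Pool.Agent.MP72B

open Finset Pool.Agent.MP72S

/-- The data with general local conditions at the fixed places. -/
structure DatL (G N P : Type) [AddCommGroup N] extends Dat G N P where
  /-- the type of the local datum at a fixed place, for given values of the character at `τ`, `φ` -/
  lam : P → ZMod 2 → ZMod 2 → N →+ N

/-- The axioms. -/
structure AxL {G N P : Type} [Group G] [TopologicalSpace G] [AddCommGroup N] [DistribMulAction G N]
    (D : DatL G N P) : Prop where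
  ax : Ax D.toDat
  sur : ∀ s ∈ D.S, ∀ χ : G → ZMod 2, IsCh χ →
    Function.Surjective (D.lam s (χ (D.tau s)) (χ (D.phi s)))
  ker : ∀ s ∈ D.S, ∀ χ : G → ZMod 2, IsCh χ → ∀ Q : N,
    D.lam s (χ (D.tau s)) (χ (D.phi s)) Q = 0 ↔ tw χ (D.tau s) Q = Q ∧ tw χ (D.phi s) Q = Q
  iso : ∀ s ∈ D.S, ∀ χ : G → ZMod 2, IsCh χ → ∀ Q Q' : N,
    2 • (tw χ (D.tau s) Q - Q) = 0 → 2 • (tw χ (D.phi s) Q - Q) = 0 →
    2 • (tw χ (D.tau s) Q' - Q') = 0 → 2 • (tw χ (D.phi s) Q' - Q') = 0 →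
    D.e (tw χ (D.tau s) Q - Q) (tw χ (D.phi s) Q' - Q') +
      D.e (tw χ (D.phi s) Q - Q) (tw χ (D.tau s) Q' - Q') = 0

section

variable {G N P : Type} [Group G] [TopologicalSpace G] [AddCommGroup N] [DistribMulAction G N]
  (D : DatL G N P) {ι : Type} [Fintype ι]

/-- The type at the index `j` of a local datum. -/
def DatL.lm (x : ι → P) : D.J ι → N →+ N
  | Sum.inl s => D.lam s.1 (D.chi x (D.tau s.1)) (D.chi x (D.phi s.1))
  | Sum.inr _ => mulN N 2

/-- The type of the cocycle `tw · R - R`. -/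
def DatL.tv (x : ι → P) (R : N) (j : D.J ι) : N := D.lm x j R

/-- Admissible configurations. -/
structure DatL.Ok (x : ι → P) : Prop where
  inj : Function.Injective x
  nS : ∀ i, x i ∉ D.S

/-- `ψ` is a Selmer cocycle of type `t`. -/
structure DatL.IsZ (x : ι → P) (t : D.J ι → N) (ψ : G → N) : Prop where
  u : D.IsU x ψ
  lo : ∀ j, ∃ Q : N, D.lm x j Q = t j ∧ D.Lo x (D.pl x j) Q ψ

/-- `η` is a half of the Selmer cocycle of type `ξ`. -/
structure DatL.IsH (x : ι → P) (ξ : D.J ι → N) (η : G → N) : Prop where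
  u : D.IsU x η
  hf : D.IsZ x ξ fun σ => 2 • η σ

/-- Good cubes. -/
structure DatL.Gd [DecidableEq ι] (x y : ι → P) (U : Finset ι) : Prop where
  ok : ∀ w ⊆ U, D.Ok (mx x y w)
  ne : ∀ i ∈ U, x i ≠ y i
  sS : ∀ i ∈ U, ∀ s ∈ D.S, D.ch (x i) (D.tau s) = D.ch (y i) (D.tau s) ∧
    D.ch (x i) (D.phi s) = D.ch (y i) (D.phi s)
  sx : ∀ i ∈ U, ∀ j, j ≠ i → D.ch (x i) (D.phi (x j)) = D.ch (y i) (D.phi (x j))
  sy : ∀ i ∈ U, ∀ j ∈ U, j ≠ i → D.ch (x i) (D.phi (y j)) = D.ch (y i) (D.phi (y j))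

end

section

variable {G N P : Type} [Group G] [TopologicalSpace G] [AddCommGroup N] [DistribMulAction G N]
  {D : DatL G N P} {ι : Type} [Fintype ι]

theorem DatL.IsZ.add {x : ι → P} {t t' : D.J ι → N} {ψ ψ' : G → N} (h : D.IsZ x t ψ)
    (h' : D.IsZ x t' ψ') : D.IsZ x (t + t') fun σ => ψ σ + ψ' σ := by
  refine ⟨h.u.add h'.u, fun j => ?_⟩
  obtain ⟨Q, hQ, h1⟩ := h.lo j
  obtain ⟨Q', hQ', h1'⟩ := h'.lo j
  exact ⟨Q + Q', by rw [map_add, hQ, hQ', Pi.add_apply], h1.add h1'⟩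

theorem DatL.IsZ.neg {x : ι → P} {t : D.J ι → N} {ψ : G → N} (h : D.IsZ x t ψ) :
    D.IsZ x (-t) fun σ => -ψ σ := by
  refine ⟨h.u.neg, fun j => ?_⟩
  obtain ⟨Q, hQ, h1⟩ := h.lo j
  exact ⟨-Q, by rw [map_neg, hQ, Pi.neg_apply], h1.neg⟩

theorem DatL.isZ_zero (D : DatL G N P) (x : ι → P) : D.IsZ x 0 (fun _ : G => (0 : N)) := by
  have h := D.toDat.isZ_zero x
  refine ⟨h.u, fun j => ⟨0, by simp, ?_, ?_⟩⟩
  · rw [tw_map_zero, sub_zero]
  · rw [tw_map_zero, sub_zero]

variable (D)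

/-- The group of the types of the Selmer cocycles. -/
def DatL.Z (x : ι → P) : AddSubgroup (D.J ι → N) where
  carrier := {t | ∃ ψ, D.IsZ x t ψ}
  zero_mem' := ⟨_, D.isZ_zero x⟩
  add_mem' := fun ⟨_, h⟩ ⟨_, h'⟩ => ⟨_, h.add h'⟩
  neg_mem' := fun ⟨_, h⟩ => ⟨_, h.neg⟩

variable {D}

theorem DatL.mem_Z {x : ι → P} {t : D.J ι → N} : t ∈ D.Z x ↔ ∃ ψ, D.IsZ x t ψ := Iff.rfl

variable (D)

open Classical in
/-- The Selmer cocycle of type `t`. -/
noncomputable def DatL.coc (x : ι → P) (t : D.J ι → N) : G → N :=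
  if h : ∃ ψ, D.IsZ x t ψ then h.choose else 0

variable {D}

theorem DatL.coc_spec {x : ι → P} {t : D.J ι → N} (h : t ∈ D.Z x) : D.IsZ x t (D.coc x t) := by
  have h' : ∃ ψ, D.IsZ x t ψ := h
  rw [DatL.coc, dif_pos h']
  exact h'.choose_spec

variable (D)

/-- The types of the torsion cocycles of level one. -/
def DatL.T (x : ι → P) : AddSubgroup (D.J ι → N) where
  carrier := {t | ∃ R : N, 4 • R = 0 ∧ t = D.tv x R}
  zero_mem' := ⟨0, smul_zero _, by funext j; exact (map_zero (D.lm x j)).symm⟩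
  add_mem' := by
    rintro a b ⟨s, hs, rfl⟩ ⟨s', hs', rfl⟩
    exact ⟨s + s', by rw [smul_add, hs, hs', add_zero],
      by funext j; exact (map_add (D.lm x j) s s').symm⟩
  neg_mem' := by
    rintro a ⟨s, hs, rfl⟩
    exact ⟨-s, by rw [smul_neg, hs, neg_zero], by funext j; exact (map_neg (D.lm x j) s).symm⟩

/-- `2 ^ (k - 1) Z_k`. -/
def DatL.Dk (x : ι → P) (k : ℕ) : AddSubgroup (D.J ι → N) :=
  (D.Z x ⊓ tor _ k).map (mulN _ (2 ^ (k - 1)))

open Classical in
/-- A half of a local datum of the type `u` at the index `j`. -/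
noncomputable def DatL.qr (x : ι → P) (j : D.J ι) (u : N) : N :=
  if h : ∃ R : N, D.lm x j (2 • R) = u then h.choose else 0

/-- The defect of the half `η` at `j`. -/
noncomputable def DatL.df (x : ι → P) (ξ : D.J ι → N) (η : G → N) (j : D.J ι) (g : G) : N :=
  η g - (tw (D.chi x) g (D.qr x j (ξ j)) - D.qr x j (ξ j))

/-- The obstruction functional of the half `η` (of the cocycle of type `ξ`). -/
noncomputable def DatL.ob (x : ι → P) (ξ : D.J ι → N) (η : G → N) (ν : D.J ι → N) : ZMod 2 :=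
  ∑ j, D.lp (D.df x ξ η j) (D.coc x ν) (D.pl x j)

/-- The set of the obstruction functionals of level `k` (extended by zero outside `Dk x 1`). -/
def DatL.O (x : ι → P) (k : ℕ) : Set ((D.J ι → N) → ZMod 2) :=
  {g | ∃ ξ η, 2 ^ (k - 1) • ξ = 0 ∧ D.IsH x ξ η ∧ (∀ ν ∈ D.Dk x 1, g ν = D.ob x ξ η ν) ∧
    ∀ ν, ν ∉ D.Dk x 1 → g ν = 0}

/-- `ν` is a homomorphism to `V`, unramified outside the fixed places, which satisfies the local
conditions at the fixed places. -/
structure DatL.IsW (x : ι → P) (I₀ : Finset ι) (ν : G → N) : Prop where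
  ho : IsHo ν
  ur : ∀ v, v ∉ D.S → (∀ i, i ∉ I₀ → v ≠ x i) → ν (D.tau v) = 0
  lo : ∀ j, D.Fx I₀ j → ∃ Q : N, D.Lo x (D.pl x j) Q ν

/-- `Ξ` is a set of recorded indices. -/
structure DatL.Sep (x : ι → P) (I₀ : Finset ι) (Ξ : Finset (D.J ι)) : Prop where
  sub : ∀ i ∈ I₀, Sum.inr i ∈ Ξ
  sep : ∀ ν : G → N, D.IsW x I₀ ν →
    (∀ j ∈ Ξ, D.Fx I₀ j → ν (D.tau (D.pl x j)) = 0 ∧ ν (D.phi (D.pl x j)) = 0) → ∀ σ, ν σ = 0

/-- The face functions of a cube with a family `t`. -/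
noncomputable def DatL.vfc [DecidableEq ι] (x y : ι → P) (I : Finset ι)
    (t : (ι → P) → D.J ι → N) (U : Finset ι) (σ : G) : N :=
  alt x y U fun z => D.coc z (2 ^ (#I - #U) • t z) σ

end

end Pool.Agent.MP72B
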