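import Pool.Agent.Lib.MP_72e2e6_nt.Sm.B.SpecF

set_option autoImplicit false

namespace Pool.Agent.MP72B.Frm

open Finset Polynomial Pool.Agent.MP72W Pool.Agent.MP72T Pool.Agent.MP72S Pool.Agent.MP72S.Ns

theorem tFHy : S_FHy := by
  intro F _ _ a ha d hd h n s hs
  classical
  obtain ⟨hdq, hdiv⟩ := hd
  have hs' : Squarefree s ∧ IsCoprime s (Dlt a) := by
    unfold Sml at hs
    rw [Finset.mem_biUnion] at hs
    obtain ⟨k, _, hk⟩ := hs
    rw [Finset.mem_filter] at hk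
    exact ⟨hk.2.1, hk.2.2.1⟩
  obtain ⟨hsq, hcop⟩ := hs'
  have hd0 : d ≠ 0 := hdq.ne_zero
  have hs0 : s ≠ 0 := hsq.ne_zero
  -- irreducible divisors of `Dlt a` do not divide `s`
  have hnd : ∀ P : F[X], Irreducible P → P ∣ Dlt a → ¬ P ∣ s := by
    intro P hP h1 h2
    exact hP.not_isUnit (hcop.isUnit_of_dvd' h2 h1)
  have hds : IsRelPrime d s := by
    apply IsCoprime.isRelPrime
    refine isCoprime_of_irreducible_dvd (fun h => hd0 h.1) ?_
    intro P hP h1 h2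
    exact hnd P hP (hdiv P hP h1) h2
  have hsqf : Squarefree (d * s) := squarefree_mul_iff.2 ⟨hds, hdq, hsq⟩
  exact ⟨ha.q4, ha.inj, ha.nis, hsqf⟩

end Pool.Agent.MP72B.Frm
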