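import Pool.Agent.Lib.MP_72e2e6_nt.Sm.B.SpecH

/-!
# MP_72e2e6_nt, `Sm/B/HAx`: the axioms `Ax`, `Ax2` for the concrete datum without tameness
-/

namespace Pool.Agent.MP72B.HB

open Polynomial Finset Pool.Agent.MP72S Pool.Agent.MP72W Pool.Agent.MP72S.D Pool.Agent.MP72S.HD

open Pool.Agent.MP72T (Spl nsp sqd RkOne)

private theorem two_ne {F : Type} [Field F] [Finite F] (h : Nat.card F % 4 = 1) :
    (2 : F) ≠ 0 := by
  intro h2
  have h1 : addOrderOf (1 : F) ∣ 2 := by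
    rw [addOrderOf_dvd_iff_nsmul_eq_zero, nsmul_one]
    exact_mod_cast h2
  have h3 : addOrderOf (1 : F) ∣ Nat.card F := addOrderOf_dvd_natCard _
  have h4 : addOrderOf (1 : F) = 1 := by
    rcases (Nat.dvd_prime Nat.prime_two).1 h1 with h5 | h5
    · exact h5
    · rw [h5] at h3
      omega
  exact one_ne_zero (AddMonoid.addOrderOf_eq_one_iff.1 h4)

private theorem neg_one {F : Type} [Field F] [Finite F] (h : Nat.card F % 4 = 1) :
    ∃ b : F, b ^ 2 = -1 := by
  have := Fintype.ofFinite F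
  have h1 : IsSquare (-1 : F) := by
    rw [FiniteField.isSquare_neg_one_iff, ← Nat.card_eq_fintype_card]
    omega
  obtain ⟨b, hb⟩ := h1
  exact ⟨b, by rw [hb, sq]⟩

private theorem pow4 (q d : ℕ) (h : q % 4 = 1) : q ^ d % 4 = 1 := by
  rw [Nat.pow_mod, h, one_pow]
  rfl

private theorem dvd6 {R : Type} [CommRing R] (P d : R) (a : Fin 3 → R) (i j : Fin 3) (hij : i ≠ j)
    (h : P ∣ a i - a j) : P ∣ d * ((a 0 - a 1) * (a 0 - a 2) * (a 1 - a 2)) := by
  have h3 : P ∣ a 0 - a 1 ∨ P ∣ a 0 - a 2 ∨ P ∣ a 1 - a 2 := by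
    have h' : P ∣ a j - a i := (dvd_sub_comm).1 h
    revert hij h h'
    revert i j
    intro i j
    fin_cases i <;> fin_cases j <;> intro h1 h2 h3 <;> first
      | exact absurd rfl h1
      | exact Or.inl h2
      | exact Or.inl h3
      | exact Or.inr (Or.inl h2)
      | exact Or.inr (Or.inl h3)
      | exact Or.inr (Or.inr h2)
      | exact Or.inr (Or.inr h3)
  apply dvd_mul_of_dvd_right
  rcases h3 with h3 | h3 | h3
  · exact dvd_mul_of_dvd_left (dvd_mul_of_dvd_left h3 _) _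
  · exact dvd_mul_of_dvd_left (dvd_mul_of_dvd_right h3 _) _
  · exact dvd_mul_of_dvd_right h3 _

theorem tAx (hAxN : C.S_AxN) (hGoo : C.S_Goo) (hQG : D.S_QG) (hKt : D.S_Kt) (hFi : D.S_Fi)
    (hRq : D.S_Rq) (hQd : D.S_Qd) (hEQ : HD.S_EQ) (hChr : S_Chr) (hNu : HD.S_Nu) : S_Ax := by
  intro F _ _ a d u S A hy hu hS hA
  have h2 : (2 : F) ≠ 0 := two_ne hy.q4
  obtain ⟨g1, -, -, g4, -⟩ := hQG F
  obtain ⟨t1, t2, t3, t4⟩ := hKt F
  obtain ⟨c1, c2, c3, c4, c5, c6, c7, c8, c9, c10⟩ := hChr F a d u S A hy hu hS hA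
  obtain ⟨n1, -, -, n4⟩ := hNu F a h2 hy.inj A hA
  have h2Q : (2 : Qf F) ≠ 0 := by
    have h : (2 : Qf F) = algebraMap (RatFunc F) (Qf F) (RatFunc.C 2) := by
      rw [map_ofNat, map_ofNat]
    rw [h, ne_eq, map_eq_zero, map_eq_zero]
    exact h2
  have hyp : C.Hyp (aR a) (Qf F) :=
    ⟨h2Q, fun i j hij => hy.inj (RatFunc.algebraMap_injective F hij)⟩
  have hsq : ∃ ι : RatFunc F, ι ^ 2 = -1 := by
    obtain ⟨b, hb⟩ := neg_one hy.q4
    exact ⟨RatFunc.C b, by rw [← map_pow, hb, map_neg, map_one]⟩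
  obtain ⟨x1, x2, x3, x4, x5⟩ := hAxN (RatFunc F) (aR a) (Qf F) hyp (g4 h2) hsq
  obtain ⟨q1, q2⟩ := hQd F hy.q4 A hA
  have hq := q2 (C.NN (aR a) (Qf F)) (DD F a d u S A) rfl (fun w => rfl) (fun w => rfl)
    (fun w => rfl)
  obtain ⟨e1, e2, e3, -⟩ := hEQ (GQ F) (C.NN (aR a) (Qf F)) (Pl F) (DD F a d u S A) (kF F) (Qf F)
    (tQ F) (Nat.card F) (fun w => dgP w.o) (rtP A) hq
  refine ⟨?_, e1⟩
  exact
    { q4 := fun v => pow4 _ _ hy.q4
      rel := fun v => (hRq F h2 v.o (A v) (hA.ok v)).2.2.2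
      infS := (hS none).2 (Or.inl rfl)
      prim := x1.prim
      dvs := x1.dvs
      four := x1.four
      act := x3
      tri := x4
      e_add := x2.add
      e_sym := x2.sym
      e_alt := x2.alt
      e_nd := x2.nd
      sa := x5
      unr := by
        rintro (_ | P) hv x
        · exact absurd ((hS none).2 (Or.inl rfl)) hv
        · have hP : ¬ P.1 ∣ bad a d := fun h => hv ((hS (some P)).2 (Or.inr ⟨P, rfl, h⟩))
          have hP' : ∀ i j, i ≠ j → ¬ P.1 ∣ a i - a j := fun i j hij h =>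
            hP (dvd6 P.1 d a i j hij h)
          exact hGoo (RatFunc F) (aR a) (Qf F) (kF F) _ _ _ _ _ hyp (n1 (some P))
            (fun i j hij => n4 P i j hij (hP' i j hij)) x
      chc := c1
      ch_tau := c2
      ch_tau' := c3
      ch_phi := c4
      ch_inf := c5
      cstc := c6
      cst_tau := c7
      cst_inf := c8
      ch0c := c9
      ch0_tau := c10
      fidx := by
        intro U hU
        have h := Subgroup.quotient_finite_of_isOpen U hU
        exact Subgroup.index_ne_zero_of_finite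
      fin := hFi F h2 A hA
      uni := e2
      rcp := e3 }

end Pool.Agent.MP72B.HB
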