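import Pool.Agent.Lib.MP_72e2e6_nt.Sm.B.SpecH

/-!
# MP_72e2e6_nt, `Sm/B/HPrt`: parity of the Selmer group and the split places
-/

namespace Pool.Agent.MP72B.HB

open Polynomial Finset Pool.Agent.MP72S Pool.Agent.MP72W Pool.Agent.MP72S.D Pool.Agent.MP72S.HD

open Pool.Agent.MP72T (Spl nsp sqd RkOne)

section aux

private theorem prt_two {F : Type} [Field F] [Finite F] (h : Nat.card F % 4 = 1) :
    (2 : F) ≠ 0 := by
  have hft : Fintype F := Fintype.ofFinite F
  apply Ring.two_ne_zero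
  intro h2
  rw [FiniteField.even_card_iff_char_two] at h2
  rw [Nat.card_eq_fintype_card] at h
  omega

private theorem prt_mxd {F : Type} [Field F] (a : Fin 3 → F[X]) (i j l : Fin 3) (hij : i ≠ j)
    (hil : i ≠ l) (hjl : j ≠ l) (hlt : (a i - a j).natDegree < (a i - a l).natDegree) :
    (a i - a l).natDegree = mxd a := by
  have hle : ∀ i j, (a i - a j).natDegree ≤ mxd a := by
    intro i j
    have h1 : (a i - a j).natDegree ≤ univ.sup fun j : Fin 3 => (a i - a j).natDegree :=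
      Finset.le_sup (f := fun j : Fin 3 => (a i - a j).natDegree) (Finset.mem_univ j)
    have h2 : (univ.sup fun j : Fin 3 => (a i - a j).natDegree) ≤ mxd a :=
      Finset.le_sup (f := fun i : Fin 3 => univ.sup fun j : Fin 3 => (a i - a j).natDegree)
        (Finset.mem_univ i)
    exact h1.trans h2
  have hex : ∃ i j, (a i - a j).natDegree = mxd a := by
    obtain ⟨i, -, hi⟩ := Finset.exists_mem_eq_sup (univ : Finset (Fin 3)) univ_nonempty
      (fun i : Fin 3 => univ.sup fun j : Fin 3 => (a i - a j).natDegree)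
    obtain ⟨j, -, hj⟩ := Finset.exists_mem_eq_sup (univ : Finset (Fin 3)) univ_nonempty
      (fun j : Fin 3 => (a i - a j).natDegree)
    exact ⟨i, j, by rw [mxd, hi, hj]⟩
  have hj : ∃ j, (a i - a j).natDegree = mxd a := by
    obtain ⟨k, l, hkl⟩ := hex
    have h1 : (a k - a l).natDegree ≤ max (a i - a l).natDegree (a i - a k).natDegree := by
      have h3 : a k - a l = (a i - a l) - (a i - a k) := by ring
      rw [h3]
      exact natDegree_sub_le _ _
    rcases le_max_iff.1 h1 with h | h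
    · exact ⟨l, le_antisymm (hle _ _) (hkl ▸ h)⟩
    · exact ⟨k, le_antisymm (hle _ _) (hkl ▸ h)⟩
  obtain ⟨k, hk⟩ := hj
  have h3 : ∀ i j l k : Fin 3, i ≠ j → i ≠ l → j ≠ l → k = i ∨ k = j ∨ k = l := by decide
  rcases h3 i j l k hij hil hjl with rfl | rfl | rfl
  · rw [sub_self, natDegree_zero] at hk
    have := hle k l
    omega
  · have := hle i l
    omega
  · exact hk

private theorem prt_dvd {R : Type} [CommRing R] (a : Fin 3 → R) (i j : Fin 3) (h : i ≠ j) :
    a i - a j ∣ (a 0 - a 1) * (a 0 - a 2) * (a 1 - a 2) := by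
  have h01 : a 0 - a 1 ∣ (a 0 - a 1) * (a 0 - a 2) * (a 1 - a 2) :=
    dvd_mul_of_dvd_left (dvd_mul_right _ _) _
  have h02 : a 0 - a 2 ∣ (a 0 - a 1) * (a 0 - a 2) * (a 1 - a 2) :=
    dvd_mul_of_dvd_left (dvd_mul_left _ _) _
  have h12 : a 1 - a 2 ∣ (a 0 - a 1) * (a 0 - a 2) * (a 1 - a 2) := dvd_mul_left _ _
  have h10 : a 1 - a 0 ∣ (a 0 - a 1) * (a 0 - a 2) * (a 1 - a 2) := by
    rw [← neg_sub (a 0) (a 1), neg_dvd]
    exact h01
  have h20 : a 2 - a 0 ∣ (a 0 - a 1) * (a 0 - a 2) * (a 1 - a 2) := by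
    rw [← neg_sub (a 0) (a 2), neg_dvd]
    exact h02
  have h21 : a 2 - a 1 ∣ (a 0 - a 1) * (a 0 - a 2) * (a 1 - a 2) := by
    rw [← neg_sub (a 1) (a 2), neg_dvd]
    exact h12
  fin_cases i <;> fin_cases j
  exacts [absurd rfl h, h01, h02, h10, absurd rfl h, h12, h20, h21, absurd rfl h]

private theorem prt_odd {m : ℕ} (h : Odd m) : (m : ZMod 2) = 1 := by
  obtain ⟨k, rfl⟩ := h
  push_cast
  have h2 : (2 : ZMod 2) = 0 := rfl
  rw [h2, zero_mul, zero_add]

private theorem prt_neg (x : ZMod 2) : -x = x := by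
  revert x
  decide

/-- The multiplicities at a place of potentially multiplicative reduction. -/
private theorem prt_mul {F : Type} [Field F] (a : Fin 3 → F[X]) (ha : Function.Injective a)
    {P : F[X]} (hP : Irreducible P) {i j l : Fin 3} (hij : i ≠ j) (hil : i ≠ l) (hjl : j ≠ l)
    (hlt : multiplicity P (a i - a l) < multiplicity P (a i - a j)) (k : Fin 3) (hk : k ≠ l) :
    multiplicity P (a l - a k) = multiplicity P (a i - a l) := by
  have h3 : ∀ i j l k : Fin 3, i ≠ j → i ≠ l → j ≠ l → k ≠ l → k = i ∨ k = j := by decide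
  have hfin : FiniteMultiplicity P (a i - a l) :=
    FiniteMultiplicity.of_not_isUnit hP.not_isUnit (sub_ne_zero.2 fun h => hil (ha h))
  rcases h3 i j l k hij hil hjl hk with rfl | rfl
  · rw [← neg_sub, multiplicity_neg]
  · have h1 : a l - a k = (a i - a k) - (a i - a l) := by ring
    rw [h1]
    exact multiplicity_sub_of_gt hlt hfin

private theorem prt_hKprod {F : Type} [Field F] [Finite F] (km : D.S_Km) (h2 : (2 : F) ≠ 0)
    {ι : Type} [DecidableEq ι] (s : Finset ι) (f : ι → RatFunc F) (hf : ∀ i, f i ≠ 0) (σ : GQ F) :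
    hK (∏ i ∈ s, f i) σ = ∑ i ∈ s, hK (f i) σ := by
  obtain ⟨-, -, k3, k4⟩ := km F h2
  induction s using Finset.induction_on with
  | empty =>
    rw [Finset.prod_empty, Finset.sum_empty]
    have h := k4 1 one_ne_zero σ
    rwa [one_pow] at h
  | insert i s his ih =>
    rw [Finset.prod_insert his, Finset.sum_insert his, k3 _ _ (hf i)
      (Finset.prod_ne_zero_iff.2 fun j _ => hf j), ih]

end aux

/-- **Prt.** Parity of the Selmer group and the split places. -/
theorem tPrt : S_Ax → S_Axl → S_Fnp → S_Isk → S_Cad → D.S_Km → HD.S_Ax → HD.S_Irf → HD.S_Okt →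
    HD.S_G3 → HD.S_Nu → MP72T.S_Ex → Par.S_Par → Par.S_Dkl → Par.S_Dkt → D.S_Kl → HD.S_Vl →
    S_Prt := by
  classical
  intro hAx hAxl hFnp hIsk hCad hKm hAx' hIrf hOkt hG3 hNu hEx hPar hDkl hDkt hKl hVl
    F _ _ a d u S A hy hu hS hA r R hOk
  have h2 : (2 : F) ≠ 0 := prt_two hy.q4
  obtain ⟨m1, -, m3, m4⟩ := hKm F h2
  obtain ⟨v1, v2, v3, v4, -, -⟩ := hVl F A hA
  obtain ⟨-, p2, p3, -⟩ := hNu F a h2 hy.inj A hA
  have hinj : ∀ f : F[X], f ≠ 0 → algebraMap F[X] (RatFunc F) f ≠ 0 := fun f hf h =>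
    hf (RatFunc.algebraMap_injective F (by rw [h, map_zero]))
  have hd0 : d ≠ 0 := hy.sqf.ne_zero
  have hRne : ∀ k, (R k).1 ≠ 0 := fun k => (R k).2.2.ne_zero
  have hR0 : (∏ k, (R k).1) ≠ 0 := Finset.prod_ne_zero_iff.2 fun j _ => hRne j
  have hD0 : d * ∏ k, (R k).1 ≠ 0 := mul_ne_zero hd0 hR0
  -- the reference
  obtain ⟨d', hd'm, hd't⟩ := hEx F a hy.inj
  have hy' : Hy a d' := ⟨hy.q4, hy.inj, hy.nis, hd't.sqf, hd't.odd⟩
  have hy0' : Hy0 a d' := ⟨hy.q4, hy.inj, hy.nis, hd't.sqf⟩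
  have hd'0 : d' ≠ 0 := hd't.sqf.ne_zero
  obtain ⟨⟨S', hS'⟩, -, hirf⟩ := hIrf F a d' A hy' hA
  obtain ⟨i1, -, i3⟩ := hirf S'
  obtain ⟨n₀, hn₀⟩ := i3 1
  obtain ⟨n', hn', hn'o⟩ : ∃ n', n₀ ≤ n' ∧ Odd (d'.natDegree + n' + mxd a) := by
    rcases Nat.even_or_odd (d'.natDegree + n₀ + mxd a) with h | h
    · exact ⟨n₀ + 1, by omega, by
        have h5 : d'.natDegree + (n₀ + 1) + mxd a = d'.natDegree + n₀ + mxd a + 1 := by ring
        rw [h5]
        exact h.add_one⟩
    · exact ⟨n₀, le_rfl, h⟩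
  obtain ⟨w', hw'⟩ : (irr F S' n').Nonempty := Finset.card_pos.1 (by
    have := hn₀ n' hn'
    omega)
  obtain ⟨⟨R', hwR, hR'n⟩, hw'S⟩ := (i1 n' w').1 hw'
  subst hwR
  let z' : Fin (0 + 1) → Pl F := fun _ => some R'
  have hAdm : HD.Adm a d' 0 (fun _ : Fin (0 + 1) => n') := by
    unfold HD.Adm
    rw [Fin.sum_univ_one]
    exact hn'o
  have hz' : z' ∈ tup fun i : Fin (0 + 1) => irr F S' ((fun _ => n') i) :=
    ⟨fun _ => hw', fun i j _ => Subsingleton.elim (α := Fin 1) i j⟩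
  obtain ⟨s', hs'⟩ := hG3 F a d' u S' A hy' hu hS' hA 0 _ hAdm z' hz'
  have hok' := hOkt F a d' u S' A hy' hS' hA 0 _ hAdm z' hz'
  have hax' := (hAx' F a d' u S' A hy' hu hS' hA).1
  have hfp' := hFnp F a d' u S' A hy0' hA
  have hdk' := hDkt (DD F a d' u S' A) hax' hfp' z' hok'
  -- the datum
  have hax := (hAx F a d u S A hy hu hS hA).1
  have haxl := hAxl F a d u S A hy hu hS hA
  have hfp := hFnp F a d u S A hy hA
  obtain ⟨k, hk⟩ := hIsk F a d u S A hy hu hS hA
  let z : Fin (r + 1) → Pl F := fun i => some (R i)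
  have hdk := hDkl (DL F a d u S A) haxl hfp z hOk
  -- the characters
  have hχ : ∀ σ, (DD F a d u S A).chi z σ =
      hK (algebraMap F[X] (RatFunc F) (d * ∏ k, (R k).1)) σ := by
    intro σ
    rw [map_mul, map_prod, m3 _ _ (hinj _ hd0) (Finset.prod_ne_zero_iff.2 fun j _ =>
      hinj _ (hRne j)), prt_hKprod hKm h2 _ _ (fun j => hinj _ (hRne j))]
    rfl
  have hχ' : ∀ σ, (DD F a d' u S' A).chi z' σ =
      hK (algebraMap F[X] (RatFunc F) (d' * R'.1)) σ := by
    intro σ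
    rw [map_mul, m3 _ _ (hinj _ hd'0) (hinj _ R'.2.2.ne_zero)]
    have h3 : (DD F a d' u S' A).chi z' σ = hK (algebraMap F[X] (RatFunc F) d') σ +
      ∑ i : Fin (0 + 1), hK (piP (z' i)) σ := rfl
    rw [h3, Fin.sum_univ_one]
    rfl
  have hD'0 : d' * R'.1 ≠ 0 := mul_ne_zero hd'0 R'.2.2.ne_zero
  have hχf : (DD F a d u S A).chi z = hK (algebraMap F[X] (RatFunc F) (d * ∏ k, (R k).1)) :=
    funext hχ
  have hχf' : (DD F a d' u S' A).chi z' = hK (algebraMap F[X] (RatFunc F) (d' * R'.1)) :=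
    funext hχ'
  have hch : IsCh ((DD F a d u S A).chi z) := by
    rw [hχf]
    exact m1 _ (hinj _ hD0)
  have hch' : IsCh ((DD F a d' u S' A).chi z') := by
    rw [hχf']
    exact m1 _ (hinj _ hD'0)
  have hnS : ∀ i, z i ∉ S := fun i => hOk.nS i
  have hnoneS : (none : Pl F) ∈ S := (hS none).2 (Or.inl rfl)
  have hnoneS' : (none : Pl F) ∈ S' := (hS' none).2 (Or.inl rfl)
  -- the finite set of places
  let B : Finset (Pl F) := S ∪ S' ∪ Finset.univ.image z ∪ {some R'}
  have hSB : S ⊆ B := fun v hv => by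
    simp only [B, Finset.mem_union]
    exact Or.inl (Or.inl (Or.inl hv))
  have hout : ∀ v, v ∉ B → (DD F a d u S A).chi z ((DD F a d u S A).tau v) = 0 ∧
      (DD F a d' u S' A).chi z' ((DD F a d u S A).tau v) = 0 := by
    intro v hv
    simp only [B, Finset.mem_union, Finset.mem_image, Finset.mem_univ, true_and,
      Finset.mem_singleton, not_or, not_exists] at hv
    obtain ⟨⟨⟨hvS, hvS'⟩, hvz⟩, hvR⟩ := hv
    constructor
    · have h3 : (DD F a d u S A).chi z ((DD F a d u S A).tau v) =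
          (DD F a d u S A).ch0 ((DD F a d u S A).tau v) +
          ∑ i, (DD F a d u S A).ch (z i) ((DD F a d u S A).tau v) := rfl
      rw [h3, hax.ch0_tau v hvS, zero_add]
      refine Finset.sum_eq_zero fun i _ => ?_
      refine hax.ch_tau' (z i) v ?_ ?_ (hvz i)
      · intro h
        exact hnS i (h ▸ hnoneS)
      · intro h
        exact hvS (h ▸ hnoneS)
    · have h3 : (DD F a d' u S' A).chi z' ((DD F a d u S A).tau v) =
          (DD F a d' u S' A).ch0 ((DD F a d' u S' A).tau v) +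
          ∑ i, (DD F a d' u S' A).ch (z' i) ((DD F a d' u S' A).tau v) := rfl
      rw [h3, hax'.ch0_tau v hvS', zero_add]
      refine Finset.sum_eq_zero fun i _ => ?_
      refine hax'.ch_tau' (z' i) v ?_ ?_ (fun h => hvR h.symm)
      · exact Option.some_ne_none R'
      · intro h
        exact hvS' (h ▸ hnoneS')
  obtain ⟨m, hm⟩ := hPar (DD F a d u S A) hax k hk hfp _ _ hch hch' B hSB hout
  -- the local intersections
  have hR'S : ∀ s : {P : F[X] // P.Monic ∧ Irreducible P}, (some s : Pl F) ∈ S' → s ≠ R' := by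
    rintro s hs rfl
    exact hw'S hs
  have hloc : ∀ v : Pl F, ∀ i j l : Fin 3, i ≠ j → i ≠ l → j ≠ l →
      nuP (A v) (C.al (aR a) (Qf F) i - C.al (aR a) (Qf F) l) <
        nuP (A v) (C.al (aR a) (Qf F) i - C.al (aR a) (Qf F) j) →
      hK (algebraMap F[X] (RatFunc F) ((d' * R'.1) * (a i - a l))) ((A v).rQ (A v).t) = 1 := by
    intro v i j l hij hil hjl hlt
    have hil0 : a i - a l ≠ 0 := sub_ne_zero.2 fun h => hil (hy.inj h)
    obtain ⟨k1, -⟩ := hKl F h2 v.o (A v) (hA.ok v)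
    rw [map_mul, map_mul, m3 _ _ (mul_ne_zero (hinj _ hd'0) (hinj _ R'.2.2.ne_zero))
      (hinj _ hil0), m3 _ _ (hinj _ hd'0) (hinj _ R'.2.2.ne_zero)]
    rcases v with _ | P
    · rw [p3 i l hil, p3 i j hij] at hlt
      have hlt' : (a i - a j).natDegree < (a i - a l).natDegree := by
        have h5 := WithTop.coe_lt_coe.1 hlt
        have h6 : (-((a i - a l).natDegree : ℤ)) < (-((a i - a j).natDegree : ℤ)) := by
          exact_mod_cast h5
        omega
      have hmx := prt_mxd a i j l hij hil hjl hlt'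
      rw [k1 _ _ (v2 d' hd'0), k1 _ _ (v2 R'.1 R'.2.2.ne_zero), k1 _ _ (v2 _ hil0), hR'n, hmx]
      have h5 := prt_odd hn'o
      rw [← h5]
      push_cast
      simp only [prt_neg]
    · rw [p2 P i l hil, p2 P i j hij] at hlt
      have hlt' : multiplicity P.1 (a i - a l) < multiplicity P.1 (a i - a j) := by
        have h5 := WithTop.coe_lt_coe.1 hlt
        exact_mod_cast h5
      have hdv : P.1 ∣ a i - a j := by
        by_contra h
        rw [multiplicity_eq_zero.2 h] at hlt'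
        exact Nat.not_lt_zero _ hlt'
      have hdv2 := hdv.trans (prt_dvd a i j hij)
      have hPS' : (some P : Pl F) ∈ S' :=
        (hS' _).2 (Or.inr ⟨P, rfl, Dvd.dvd.mul_left hdv2 _⟩)
      obtain ⟨j', hj', hodd⟩ := hd't.odd P.1 P.2.2 hdv2 l
      rw [prt_mul a hy.inj P.2.2 hij hil hjl hlt' j' hj'] at hodd
      rw [k1 _ _ (v1 P d' hd'0), k1 _ _ (v3 P R'.1 R'.2.2.ne_zero (v4 P R' (hR'S P hPS'))),
        k1 _ _ (v1 P _ hil0)]
      have h5 := prt_odd hodd
      rw [← h5]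
      push_cast
      ring
  have hcad := fun v => hCad F a d u S A hy hu hS hA (d * ∏ k, (R k).1) (d' * R'.1) hD0 hD'0 v
    (hloc v)
  choose e he using hcad
  -- the product
  have hprod : (∏ v ∈ B, Nat.card ↥(Par.Lsp (N := C.NN (aR a) (Qf F)) ((DD F a d u S A).tau v)
      ((DD F a d u S A).phi v) ((DD F a d u S A).chi z ((DD F a d u S A).tau v))
      ((DD F a d u S A).chi z ((DD F a d u S A).phi v)) ⊓
      Par.Lsp (N := C.NN (aR a) (Qf F)) ((DD F a d u S A).tau v)
      ((DD F a d u S A).phi v) ((DD F a d' u S' A).chi z' ((DD F a d u S A).tau v))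
      ((DD F a d' u S' A).chi z' ((DD F a d u S A).phi v)))) *
      2 ^ nsp a (d * ∏ k, (R k).1) = 4 ^ ∑ v ∈ B, e v := by
    have h5 : 2 ^ nsp a (d * ∏ k, (R k).1) =
        ∏ v ∈ B, (if Spl a (d * ∏ k, (R k).1) v.o then 2 else 1) := by
      rw [Finset.prod_ite, Finset.prod_const, Finset.prod_const_one, mul_one]
      refine congrArg (fun n => 2 ^ n) ?_
      have h6 : {w : Option F[X] | Spl a (d * ∏ k, (R k).1) w} =
          (Pl.o (F := F)) '' (B.filter fun v => Spl a (d * ∏ k, (R k).1) v.o : Finset (Pl F)) := by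
        ext w
        simp only [Set.mem_ofPred_eq, Set.mem_image, Finset.mem_coe, Finset.mem_filter]
        constructor
        · intro hw
          rcases w with _ | P
          · exact ⟨none, ⟨hSB hnoneS, hw⟩, rfl⟩
          · have hP := hw
            obtain ⟨hPm, hPi, i, j, l, hij, -, -, hlt, -⟩ := hP
            have hdv : P ∣ a i - a j := by
              by_contra h
              rw [multiplicity_eq_zero.2 h] at hlt
              exact Nat.not_lt_zero _ hlt
            refine ⟨some ⟨P, hPm, hPi⟩, ⟨hSB ((hS _).2 (Or.inr ⟨⟨P, hPm, hPi⟩, rfl, ?_⟩)), hw⟩,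
              rfl⟩
            exact Dvd.dvd.mul_left (hdv.trans (prt_dvd a i j hij)) _
        · rintro ⟨v, ⟨-, hv⟩, rfl⟩
          exact hv
      have h7 : Function.Injective (Pl.o (F := F)) :=
        Option.map_injective Subtype.val_injective
      unfold nsp
      rw [h6, Set.ncard_image_of_injective _ h7, Set.ncard_coe_finset]
    rw [h5, ← Finset.prod_mul_distrib, ← Finset.prod_pow_eq_pow_sum]
    refine Finset.prod_congr rfl fun v _ => ?_
    rw [hχf, hχf']
    exact he v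
  -- the conclusion
  have hX : Nat.card ((DL F a d u S A).Dk z 1) * 2 ^ (2 * (s' + ∑ v ∈ B, e v)) =
      2 ^ (2 * m + nsp a (d * ∏ k, (R k).1)) := by
    have h5 : Nat.card (Par.SelD (DD F a d u S A) ((DD F a d' u S' A).chi z')) = 4 ^ s' := by
      rw [← hs', hdk']
      rfl
    have h6 : Nat.card ((DL F a d u S A).Dk z 1) =
        Nat.card (Par.SelD (DD F a d u S A) ((DD F a d u S A).chi z)) := hdk
    rw [h5, ← h6] at hm
    rw [pow_mul, pow_add 2 (2 * m), pow_mul]
    change _ * 4 ^ (s' + ∑ v ∈ B, e v) = 4 ^ m * _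
    rw [← hm, pow_add, ← hprod]
    ring
  obtain ⟨x, -, hx⟩ : ∃ x ≤ 2 * m + nsp a (d * ∏ k, (R k).1),
      Nat.card ((DL F a d u S A).Dk z 1) = 2 ^ x :=
    (Nat.dvd_prime_pow Nat.prime_two).1 ⟨_, hX.symm⟩
  rw [hx, ← pow_add] at hX
  have hX' := Nat.pow_right_injective (le_refl 2) hX
  change Even (nsp a (d * ∏ k, (R k).1)) ↔
    ∃ s : ℕ, Nat.card ((DL F a d u S A).Dk z 1) = 4 ^ s
  rw [hx]
  constructor
  · rintro ⟨y, hy⟩
    refine ⟨m + y - (s' + ∑ v ∈ B, e v), ?_⟩
    have h4 : (4 : ℕ) = 2 ^ 2 := rfl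
    rw [h4, ← pow_mul]
    refine congrArg (fun n => 2 ^ n) ?_
    omega
  · rintro ⟨s, hs⟩
    have h4 : (4 : ℕ) = 2 ^ 2 := rfl
    rw [h4, ← pow_mul] at hs
    have h5 := Nat.pow_right_injective (le_refl 2) hs
    exact ⟨s + (s' + ∑ v ∈ B, e v) - m, by omega⟩

end Pool.Agent.MP72B.HB
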