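import Pool.Agent.Lib.MP_72e2e6_nt.Sm.NS.SpecT
import Pool.Agent.Lib.MP_72e2e6_nt.Sm.StmtB

/-!
# MP_72e2e6_nt, `Sm/B`: the interface between the density theorem and the arithmetic, all squarefree `D`

`D = d * s * ∏ z i`: `d ∈ sq0 a` squarefree (any leading coefficient) with prime factors dividing `Dlt a`, `s` the product of the
small primes not dividing `Dlt a`, `z i` the large primes. Definitions of `Dlt`, `Sml`, `om`, `tpl`, `FrN`: `Sm/NS/Spec.lean`,
`Sm/NS/SpecT.lean`.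
-/

set_option autoImplicit false

namespace Pool.Agent.MP72B.Frm

open Finset Polynomial MP72e2e6 Pool.Agent.MP72T Pool.Agent.MP72S.Ns

/-- The squarefree polynomials all of whose prime factors divide `Dlt a`. -/
def sq0 {F : Type} [Field F] (a : Fin 3 → F[X]) : Set F[X] :=
  {d | Squarefree d ∧ ∀ P, Irreducible P → P ∣ d → P ∣ Dlt a}

/-- The good polynomials `D`. -/
def GdB {F : Type} [Field F] (a : Fin 3 → F[X]) (D : F[X]) : Prop :=
  RkOne (twd a D) ∧ (Even (nsp a D) → Finite (twd a D).toAffine.Point ∧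
    MP72Y.ShaTwoFin (twd a D) (SeparableClosure (RatFunc F)))

/-- Some prime of the frame has an odd degree. -/
def OdP {F : Type} [Field F] (s : F[X]) {r : ℕ} (n' : Fin (r + 1) → ℕ) : Prop :=
  (∃ P : F[X], P.Monic ∧ Irreducible P ∧ P ∣ s ∧ Odd P.natDegree) ∨ ∃ i, Odd (n' i)

/-- THE INTERFACE: most of the tuples of every frame with a prime of odd degree are good. -/
def S_FrmB : Prop :=
  ∀ (F : Type) [Field F] [Finite F] (a : Fin 3 → F[X]), Cur a → ∀ d ∈ sq0 a, ∀ ε : ℝ, 0 < ε →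
    ∃ A : ℕ, ∀ n h : ℕ, (Dlt a).natDegree < h →
    ∀ s ∈ Sml F (Dlt a) h n, ∀ (r : ℕ) (n' : Fin (r + 1) → ℕ), s.natDegree + ∑ i, n' i = n →
    FrN (Nat.card F) A (om 1 h s) r n h n' → OdP s n' →
    (1 - ε) * (#(tpl F n') : ℝ) ≤
      ({z ∈ (tpl F n' : Set (Fin (r + 1) → F[X])) | GdB a (d * (s * ∏ i, z i))}.ncard : ℝ)

end Pool.Agent.MP72B.Frm
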