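import Pool.Agent.Lib.MP_72e2e6_nt.Sm.B.SpecL

/-!
# MP_72e2e6_nt, `Sm/B`: LHtr (heights and translations)
-/

namespace Pool.Agent.MP72B.Loc

open Finset WeierstrassCurve Polynomial Pool.Agent.MP72S

open Pool.Agent.MP72W (pmap IsCoc LocTriv InSha ShaTwoFin XY px py)

open Pool.Agent.MP72S.C (Wa PA Hyp QC NN al ee act rr pt Plc P2)

open Pool.Agent.MP72S.S (GOk Tht LocC Good rs hgt)

open scoped Classical

private theorem htr_hgt {F : Type} [Field F] (δ e₀ : RatFunc F)
    {W : WeierstrassCurve (RatFunc F)} {P : W.toAffine.Point} {x y : RatFunc F} (h : XY P x y) :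
    hgt δ e₀ P = max (δ * (x - e₀)).num.natDegree (δ * (x - e₀)).denom.natDegree := by
  obtain ⟨h, rfl⟩ := h
  rfl

/-- The height of a quotient of polynomials. -/
private theorem htr_quot {F : Type} [Field F] (u : RatFunc F) (N M : F[X]) (hM : M ≠ 0)
    (h : u * algebraMap F[X] (RatFunc F) M = algebraMap F[X] (RatFunc F) N) (n : ℕ)
    (h1 : N.natDegree ≤ n) (h2 : M.natDegree ≤ n) :
    max u.num.natDegree u.denom.natDegree ≤ n := by
  have hM' : algebraMap F[X] (RatFunc F) M ≠ 0 := RatFunc.algebraMap_ne_zero hM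
  have hu : u = algebraMap F[X] (RatFunc F) N / algebraMap F[X] (RatFunc F) M := by
    rw [eq_div_iff hM', h]
  have h3 : u.num ∣ N := by
    rw [hu]
    exact RatFunc.num_div_dvd N hM
  have h4 : u.denom ∣ M := by
    rw [hu]
    exact RatFunc.denom_div_dvd N M
  refine max_le ?_ ((natDegree_le_of_dvd h4 hM).trans h2)
  by_cases hN : N = 0
  · have h5 : u = 0 := by rw [hu, hN, map_zero, zero_div]
    rw [h5, RatFunc.num_zero, natDegree_zero]
    exact Nat.zero_le _
  · exact (natDegree_le_of_dvd h3 hN).trans h1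

/-- The degree of a polynomial whose square is known. -/
private theorem htr_w {F : Type} [Field F] (w p : F[X]) (h : w ^ 2 = p) (n : ℕ)
    (hp : p.natDegree ≤ 2 * n) : w.natDegree ≤ n := by
  have h1 : (w ^ 2).natDegree = 2 * w.natDegree := natDegree_pow w 2
  rw [h] at h1
  omega

/-- The generic case. -/
private theorem htr_gen {F : Type} [Field F] (e : Fin 3 → RatFunc F) (δ : RatFunc F) (hδ : δ ≠ 0)
    (x' y' : RatFunc F)
    (hy' : y' ^ 2 = (x' - e 0) * (x' - e 1) * (x' - e 2)) : ∃ C : ℕ, ∀ x y l X2 : RatFunc F,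
      y ^ 2 = (x - e 0) * (x - e 1) * (x - e 2) → x ≠ x' → l * (x - x') = y - y' →
      X2 = l ^ 2 + (e 0 + e 1 + e 2) - x - x' →
      max (δ * (X2 - e 0)).num.natDegree (δ * (X2 - e 0)).denom.natDegree ≤
        2 * max (δ * (x - e 0)).num.natDegree (δ * (x - e 0)).denom.natDegree + C := by
  obtain ⟨⟨m, hm⟩, hf⟩ := IsLocalization.exist_integer_multiples_of_finite (nonZeroDivisors F[X])
    (![δ⁻¹, x' - e 0, e 0 - e 1, e 0 - e 2, y', δ] : Fin 6 → RatFunc F)
  have hm0 : m ≠ 0 := nonZeroDivisors.ne_zero hm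
  set φ := algebraMap F[X] (RatFunc F) with hφ
  have hφm : φ m ≠ 0 := RatFunc.algebraMap_ne_zero hm0
  obtain ⟨A, hA⟩ := hf 0
  obtain ⟨B, hB⟩ := hf 1
  obtain ⟨c, hc⟩ := hf 2
  obtain ⟨d, hd⟩ := hf 3
  obtain ⟨E, hE⟩ := hf 4
  obtain ⟨G, hG⟩ := hf 5
  have hA : φ A = φ m * δ⁻¹ := hA.trans (Algebra.smul_def m _)
  have hB : φ B = φ m * (x' - e 0) := hB.trans (Algebra.smul_def m _)
  have hc : φ c = φ m * (e 0 - e 1) := hc.trans (Algebra.smul_def m _)
  have hd : φ d = φ m * (e 0 - e 2) := hd.trans (Algebra.smul_def m _)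
  have hE : φ E = φ m * y' := hE.trans (Algebra.smul_def m _)
  have hG : φ G = φ m * δ := hG.trans (Algebra.smul_def m _)
  obtain ⟨κ, k0, kA, kB, kc, kd, kE, kG⟩ : ∃ κ, m.natDegree ≤ κ ∧ A.natDegree ≤ κ ∧
      B.natDegree ≤ κ ∧ c.natDegree ≤ κ ∧ d.natDegree ≤ κ ∧ E.natDegree ≤ κ ∧ G.natDegree ≤ κ :=
    ⟨m.natDegree + A.natDegree + B.natDegree + c.natDegree + d.natDegree + E.natDegree +
      G.natDegree, by omega, by omega, by omega, by omega, by omega, by omega, by omega⟩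
  refine ⟨4 * κ, fun x y l X2 hy hx hl hX2 => ?_⟩
  set U := δ * (x - e 0) with hU
  set X := U.num with hXdef
  set Z := U.denom with hZdef
  set h := max X.natDegree Z.natDegree with hh
  have dX : X.natDegree ≤ h := le_max_left _ _
  have dZ : Z.natDegree ≤ h := le_max_right _ _
  have hZ : φ Z ≠ 0 := RatFunc.algebraMap_ne_zero U.denom_ne_zero
  have hX : φ X = U * φ Z := (div_eq_iff hZ).1 (RatFunc.num_div_denom U)
  have hAX : φ A * φ X = φ m * (x - e 0) * φ Z := by
    rw [hA, hX, hU]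
    field_simp
  -- the polynomial `w`
  have hw2 : (φ m ^ 2 * y * φ Z ^ 2) ^ 2 = φ (m * (A * X) * (A * X + c * Z) * (A * X + d * Z) * Z) := by
    simp only [map_mul, map_add, hAX, hc, hd]
    linear_combination φ m ^ 4 * φ Z ^ 4 * hy
  obtain ⟨w, hw⟩ : ∃ w, φ w = φ m ^ 2 * y * φ Z ^ 2 := by
    refine IsIntegrallyClosed.isIntegral_iff.1 (IsIntegral.of_pow (n := 2) (by norm_num) ?_)
    rw [hw2]
    exact isIntegral_algebraMap
  have hww : w ^ 2 = m * (A * X) * (A * X + c * Z) * (A * X + d * Z) * Z := by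
    apply RatFunc.algebraMap_injective F
    rw [map_pow]
    change φ w ^ 2 = φ _
    rw [hw, hw2]
  have dAX : (A * X).natDegree ≤ κ + h := natDegree_mul_le_of_le kA dX
  have dcZ : (c * Z).natDegree ≤ κ + h := natDegree_mul_le_of_le kc dZ
  have ddZ : (d * Z).natDegree ≤ κ + h := natDegree_mul_le_of_le kd dZ
  have dBZ : (B * Z).natDegree ≤ κ + h := natDegree_mul_le_of_le kB dZ
  have dw : w.natDegree ≤ 2 * κ + 2 * h := by
    refine htr_w w _ hww _ ?_
    have h1 := natDegree_mul_le_of_le (natDegree_mul_le_of_le (natDegree_mul_le_of_le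
      (natDegree_mul_le_of_le k0 dAX) (natDegree_add_le_of_degree_le dAX dcZ))
      (natDegree_add_le_of_degree_le dAX ddZ)) dZ
    omega
  -- the identity
  have key : (X2 - e 0) * (x - x') ^ 2 = (x' - e 0) * (x - e 0) ^ 2 +
      ((e 0 - e 1) * (e 0 - e 2) + (x' - e 0) ^ 2 +
        2 * (x' - e 0) * ((e 0 - e 1) + (e 0 - e 2))) * (x - e 0) +
      (e 0 - e 1) * (e 0 - e 2) * (x' - e 0) - 2 * y' * y := by
    linear_combination (x - x') ^ 2 * hX2 + (l * (x - x') + (y - y')) * hl + hy + hy'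
  refine htr_quot _ (G * (B * (A * X) ^ 2 + (c * d + B ^ 2 + 2 * B * (c + d)) * (A * X) * Z +
    c * d * B * Z ^ 2 - 2 * E * w)) (m ^ 2 * (A * X - B * Z) ^ 2) ?_ ?_ _ ?_ ?_
  · refine mul_ne_zero (pow_ne_zero _ hm0) (pow_ne_zero _ fun h0 => ?_)
    have h1 := congrArg φ h0
    rw [map_sub, map_mul, map_mul, hAX, hB, map_zero] at h1
    have h2 : φ m * φ Z * (x - x') = 0 := by
      rw [← h1]
      ring
    exact mul_ne_zero (mul_ne_zero hφm hZ) (sub_ne_zero.2 hx) h2
  · change _ * φ _ = φ _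
    simp only [map_mul, map_add, map_sub, map_pow, map_ofNat, hAX, hB, hc, hd, hE, hG, hw]
    linear_combination δ * φ m ^ 4 * φ Z ^ 2 * key
  · have d2 : (2 : F[X]).natDegree ≤ 0 := (natDegree_natCast (R := F) 2).le
    have t1 : (B * (A * X) ^ 2).natDegree ≤ 3 * κ + 2 * h :=
      (natDegree_mul_le_of_le kB (natDegree_pow_le_of_le 2 dAX)).trans (by omega)
    have u1 : (c * d).natDegree ≤ 2 * κ := (natDegree_mul_le_of_le kc kd).trans (by omega)
    have u2 : (B ^ 2).natDegree ≤ 2 * κ := natDegree_pow_le_of_le 2 kB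
    have u3 : (2 * B * (c + d)).natDegree ≤ 2 * κ :=
      (natDegree_mul_le_of_le (natDegree_mul_le_of_le d2 kB)
        (natDegree_add_le_of_degree_le kc kd)).trans (by omega)
    have u4 := natDegree_add_le_of_degree_le (natDegree_add_le_of_degree_le u1 u2) u3
    have t2 : ((c * d + B ^ 2 + 2 * B * (c + d)) * (A * X) * Z).natDegree ≤ 3 * κ + 2 * h :=
      (natDegree_mul_le_of_le (natDegree_mul_le_of_le u4 dAX) dZ).trans (by omega)
    have t3 : (c * d * B * Z ^ 2).natDegree ≤ 3 * κ + 2 * h :=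
      (natDegree_mul_le_of_le (natDegree_mul_le_of_le u1 kB)
        (natDegree_pow_le_of_le 2 dZ)).trans (by omega)
    have t4 : (2 * E * w).natDegree ≤ 3 * κ + 2 * h :=
      (natDegree_mul_le_of_le (natDegree_mul_le_of_le d2 kE) dw).trans (by omega)
    have t5 := natDegree_sub_le_of_le (natDegree_add_le_of_degree_le
      (natDegree_add_le_of_degree_le t1 t2) t3) t4
    rw [max_self] at t5
    exact (natDegree_mul_le_of_le kG t5).trans (by omega)
  · have t1 := natDegree_sub_le_of_le dAX dBZ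
    rw [max_self] at t1
    exact (natDegree_mul_le_of_le (natDegree_pow_le_of_le 2 k0)
      (natDegree_pow_le_of_le 2 t1)).trans (by omega)

theorem tHtr (h1 : C.S_Grp) : S_Htr := by
  intro F _ e hH δ hδ Q
  obtain ⟨g1, g2, -, -, -, g6, g7, -, -⟩ := h1 (RatFunc F) e (RatFunc F) hH
  have hal : ∀ i, al e (RatFunc F) i = e i := fun i => rfl
  by_cases hQ : Q = 0
  · refine ⟨0, fun P => ?_⟩
    rw [hQ, add_zero]
    omega
  obtain ⟨x', y', hxy'⟩ := (g1 Q).resolve_left hQ
  obtain ⟨-, hpx', -, heq'⟩ := g2 Q x' y' hxy'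
  simp only [hal] at heq'
  obtain ⟨C, hC⟩ := htr_gen e δ hδ x' y' heq'
  refine ⟨C + hgt δ (e 0) Q + hgt δ (e 0) (Q + Q) + hgt δ (e 0) (0 : PA e (RatFunc F)), fun P => ?_⟩
  by_cases hP : P = 0
  · rw [hP, zero_add]
    omega
  obtain ⟨x, y, hxy⟩ := (g1 P).resolve_left hP
  obtain ⟨-, hpx, -, heq⟩ := g2 P x y hxy
  simp only [hal] at heq
  by_cases hx : x = x'
  · rcases g6 Q P hQ hP (by rw [hpx', hpx, hx]) with rfl | rfl
    · omega
    · rw [neg_add_cancel]
      omega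
  · have hx0 : x - x' ≠ 0 := sub_ne_zero.2 hx
    have h3 := g7 P Q x y x' y' ((y - y') / (x - x')) _ hxy hxy' hx (by field_simp) rfl
    simp only [hal] at h3
    rw [htr_hgt δ (e 0) hxy, htr_hgt δ (e 0) h3]
    have h4 := hC x y _ _ heq hx (div_mul_cancel₀ _ hx0) rfl
    omega

end Pool.Agent.MP72B.Loc
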