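import Pool.Agent.Lib.MP_72e2e6_nt.Sm.B.SpecL

/-!
# MP_72e2e6_nt, `Sm/B`, part L: the torsion points over a local field
-/

namespace Pool.Agent.MP72B.Loc

open Finset WeierstrassCurve Polynomial Pool.Agent.MP72S

open Pool.Agent.MP72W (pmap IsCoc LocTriv InSha ShaTwoFin XY px py)

open Pool.Agent.MP72S.C (Wa PA Hyp QC NN al ee act rr pt Plc P2)

open Pool.Agent.MP72S.S (GOk Tht LocC Good rs hgt)

open scoped Classical

/-! ### The absolute value -/

/-- The absolute value of a valuation. -/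
private noncomputable def tsf_v {L : Type} [Field L] (ν : L → WithTop ℚ) (x : L) : ℝ :=
  if x = 0 then 0 else (1 / 2 : ℝ) ^ (((ν x).untopD 0 : ℚ) : ℝ)

private theorem tsf_val {L : Type} [Field L] {ν : L → WithTop ℚ} (top : ∀ x, ν x = ⊤ ↔ x = 0)
    {x : L} (hx : x ≠ 0) : ∃ r : ℚ, ν x = (r : WithTop ℚ) ∧ tsf_v ν x = (1 / 2 : ℝ) ^ (r : ℝ) := by
  have h1 : ν x ≠ ⊤ := fun h => hx ((top x).1 h)
  obtain ⟨r, hr⟩ := WithTop.ne_top_iff_exists.1 h1
  refine ⟨r, hr.symm, ?_⟩
  rw [tsf_v, if_neg hx, ← hr]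
  rfl

private theorem tsf_le {r s : ℚ} : (1 / 2 : ℝ) ^ (r : ℝ) ≤ (1 / 2 : ℝ) ^ (s : ℝ) ↔ s ≤ r := by
  rw [Real.rpow_le_rpow_left_iff_of_base_lt_one (by norm_num) (by norm_num)]
  exact Rat.cast_le

/-- The absolute value exists. -/
private theorem tsf_av {L : Type} [Field L] {ν : L → WithTop ℚ} (top : ∀ x, ν x = ⊤ ↔ x = 0)
    (mul : ∀ x y, ν (x * y) = ν x + ν y) (add : ∀ x y, min (ν x) (ν y) ≤ ν (x + y)) :
    ∃ v : AbsoluteValue L ℝ, IsNonarchimedean v ∧ ∀ x, v x = tsf_v ν x := by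
  have h0 : ∀ x, 0 ≤ tsf_v ν x := by
    intro x
    unfold tsf_v
    split_ifs
    · exact le_rfl
    · positivity
  have hz : ∀ x, tsf_v ν x = 0 ↔ x = 0 := by
    intro x
    unfold tsf_v
    split_ifs with h
    · simp [h]
    · exact iff_of_false (Real.rpow_pos_of_pos (by norm_num) _).ne' h
  have hm : ∀ x y, tsf_v ν (x * y) = tsf_v ν x * tsf_v ν y := by
    intro x y
    rcases eq_or_ne x 0 with rfl | hx
    · rw [zero_mul, (hz 0).2 rfl, zero_mul]
    rcases eq_or_ne y 0 with rfl | hy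
    · rw [mul_zero, (hz 0).2 rfl, mul_zero]
    obtain ⟨r, hr, e1⟩ := tsf_val top hx
    obtain ⟨s, hs, e2⟩ := tsf_val top hy
    obtain ⟨m, hm, e3⟩ := tsf_val top (mul_ne_zero hx hy)
    have h1 : m = r + s := by
      have h2 := mul x y
      rw [hr, hs, hm] at h2
      exact_mod_cast h2
    rw [e1, e2, e3, h1, Rat.cast_add, Real.rpow_add (by norm_num)]
  have hna : ∀ x y, tsf_v ν (x + y) ≤ max (tsf_v ν x) (tsf_v ν y) := by
    intro x y
    rcases eq_or_ne x 0 with rfl | hx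
    · rw [zero_add]
      exact le_max_right _ _
    rcases eq_or_ne y 0 with rfl | hy
    · rw [add_zero]
      exact le_max_left _ _
    rcases eq_or_ne (x + y) 0 with hxy | hxy
    · rw [hxy, (hz 0).2 rfl]
      exact le_max_of_le_left (h0 _)
    obtain ⟨r, hr, e1⟩ := tsf_val top hx
    obtain ⟨s, hs, e2⟩ := tsf_val top hy
    obtain ⟨m, hm, e3⟩ := tsf_val top hxy
    have h2 := add x y
    rw [hr, hs, hm] at h2
    rw [e1, e2, e3]
    rcases min_le_iff.1 h2 with h3 | h3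
    · exact le_max_of_le_left (tsf_le.2 (WithTop.coe_le_coe.1 h3))
    · exact le_max_of_le_right (tsf_le.2 (WithTop.coe_le_coe.1 h3))
  refine ⟨⟨⟨tsf_v ν, hm⟩, h0, hz, fun x y => (hna x y).trans ?_⟩, hna, fun x => rfl⟩
  exact max_le_add_of_nonneg (h0 _) (h0 _)

/-! ### Finiteness -/

/-- Bounded separated sets of elements fixed by `t` and `f` are finite. -/
private theorem tsf_fin {K L k : Type} [Field K] [Field L] [Algebra K L] [Field k]
    {t f : Gal(L/K)} {q : ℕ} {ν : L → WithTop ℚ} {res : L → k} (pl : Plc t f q ν res)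
    (n1 : ∀ x, ν (-x) = ν x) (π : K) (hπ : ν (algebraMap K L π) = ((1 : ℚ) : WithTop ℚ))
    (n : ℕ) : ∀ (m : ℤ) (X : Set L), (∀ x ∈ X, t x = x ∧ f x = x) →
      (∀ x ∈ X, (((m : ℚ)) : WithTop ℚ) ≤ ν x) →
      (∀ x ∈ X, ∀ x' ∈ X, x ≠ x' → ν (x - x') < (((m + n : ℤ) : ℚ) : WithTop ℚ)) → X.Finite := by
  have nsub : ∀ x y, min (ν x) (ν y) ≤ ν (x - y) := by
    intro x y
    have h := pl.add x (-y)
    rwa [n1, ← sub_eq_add_neg] at h
  induction n with
  | zero =>
    intro m X _ hm hs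
    refine Set.Subsingleton.finite ?_
    intro x hx y hy
    by_contra hne
    have h1 := hs x hx y hy hne
    have h2 := (le_min (hm x hx) (hm y hy)).trans (nsub x y)
    rw [Nat.cast_zero, add_zero] at h1
    exact absurd h2 (not_le.2 h1)
  | succ n ih =>
    intro m X hfix hm hs
    set p : L := algebraMap K L π with hp
    have hp0 : p ≠ 0 := by
      intro h
      rw [(pl.top p).2 h] at hπ
      exact absurd hπ (by simp)
    have hpz0 : p ^ m ≠ 0 := zpow_ne_zero _ hp0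
    have ν1 : ν 1 = 0 := by
      have h1 := pl.mul 1 1
      rw [one_mul] at h1
      obtain ⟨r, hr, -⟩ := tsf_val pl.top (one_ne_zero : (1 : L) ≠ 0)
      rw [hr] at h1 ⊢
      have h2 : r = r + r := by exact_mod_cast h1
      have h3 : r = 0 := by linarith
      rw [h3]
      rfl
    have νinv : ∀ x : L, x ≠ 0 → ∀ r : ℚ, ν x = (r : WithTop ℚ) →
        ν x⁻¹ = ((-r : ℚ) : WithTop ℚ) := by
      intro x hx r hr
      obtain ⟨s, hs, -⟩ := tsf_val pl.top (inv_ne_zero hx)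
      have h1 := pl.mul x x⁻¹
      rw [mul_inv_cancel₀ hx, ν1, hr, hs] at h1
      have h2 : (0 : ℚ) = r + s := by exact_mod_cast h1
      rw [hs]
      have h3 : s = -r := by linarith
      rw [h3]
    have νnat : ∀ j : ℕ, ν (p ^ j) = (((j : ℚ)) : WithTop ℚ) := by
      intro j
      induction j with
      | zero => rw [pow_zero, ν1, Nat.cast_zero]; rfl
      | succ j ihj =>
        rw [pow_succ, pl.mul, ihj, hπ, Nat.cast_succ]
        rfl
    have νz : ∀ m : ℤ, ν (p ^ m) = (((m : ℚ)) : WithTop ℚ) := by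
      intro m
      rcases Int.eq_nat_or_neg m with ⟨j, rfl | rfl⟩
      · rw [zpow_natCast, νnat, Int.cast_natCast]
      · rw [zpow_neg, zpow_natCast, νinv _ (pow_ne_zero _ hp0) _ (νnat j), Int.cast_neg,
          Int.cast_natCast]
    have tz : t (p ^ m) = p ^ m := by rw [map_zpow₀, hp, AlgEquiv.commutes]
    have fz : f (p ^ m) = p ^ m := by rw [map_zpow₀, hp, AlgEquiv.commutes]
    have νdiv : ∀ x : L, (((m : ℚ)) : WithTop ℚ) ≤ ν x → 0 ≤ ν (x / p ^ m) := by
      intro x hx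
      rcases eq_or_ne x 0 with rfl | hx0
      · rw [zero_div, (pl.top 0).2 rfl]
        exact le_top
      obtain ⟨r, hr, -⟩ := tsf_val pl.top hx0
      rw [div_eq_mul_inv, pl.mul, νinv _ hpz0 _ (νz m), hr]
      rw [hr] at hx
      have h1 : (m : ℚ) ≤ r := WithTop.coe_le_coe.1 hx
      have h2 : (0 : ℚ) ≤ r + -(m : ℚ) := by linarith
      exact_mod_cast h2
    -- the residues
    have hR : {r : k | r ^ q = r}.Finite := by
      have hne : (Polynomial.X ^ q - Polynomial.X : k[X]) ≠ 0 := FiniteField.X_pow_card_sub_X_ne_zero k pl.q1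
      refine ((Polynomial.X ^ q - Polynomial.X : k[X]).roots.toFinset.finite_toSet).subset ?_
      intro r hr
      rw [Finset.mem_coe, Multiset.mem_toFinset, mem_roots hne]
      simp only [IsRoot.def, eval_sub, eval_pow, eval_X]
      have hr' : r ^ q = r := hr
      rw [hr', sub_self]
    have hcov : X ⊆ ⋃ r ∈ {r : k | r ^ q = r}, {x ∈ X | res (x / p ^ m) = r} := by
      intro x hx
      refine Set.mem_biUnion (x := res (x / p ^ m)) ?_ ⟨hx, rfl⟩
      have h1 := pl.rf (x / p ^ m) (νdiv x (hm x hx))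
      rw [map_div₀, fz, (hfix x hx).2] at h1
      exact h1.symm
    refine (hR.biUnion fun r _ => ?_).subset hcov
    rcases Set.eq_empty_or_nonempty {x ∈ X | res (x / p ^ m) = r} with h0 | ⟨x₀, hx₀, hr₀⟩
    · rw [h0]
      exact Set.finite_empty
    have himg : ((fun x => x - x₀) '' {x ∈ X | res (x / p ^ m) = r}).Finite := by
      refine ih (m + 1) _ ?_ ?_ ?_
      · rintro _ ⟨x, ⟨hx, -⟩, rfl⟩
        constructor
        · show t (x - x₀) = x - x₀
          rw [map_sub, (hfix x hx).1, (hfix x₀ hx₀).1]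
        · show f (x - x₀) = x - x₀
          rw [map_sub, (hfix x hx).2, (hfix x₀ hx₀).2]
      · rintro _ ⟨x, ⟨hx, hr⟩, rfl⟩
        show (((m + 1 : ℤ) : ℚ) : WithTop ℚ) ≤ ν (x - x₀)
        rcases eq_or_ne (x - x₀) 0 with hz | hz
        · rw [hz, (pl.top 0).2 rfl]
          exact le_top
        have h1 := νdiv x (hm x hx)
        have h2 := νdiv x₀ (hm x₀ hx₀)
        have h2' : 0 ≤ ν (-(x₀ / p ^ m)) := by rw [n1]; exact h2
        have h3 : res ((x - x₀) / p ^ m) = 0 := by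
          have h4 := pl.radd (x / p ^ m) (-(x₀ / p ^ m)) h1 h2'
          have h5 := pl.radd (x₀ / p ^ m) (-(x₀ / p ^ m)) h2 h2'
          rw [add_neg_cancel, (pl.r0 0 (by rw [(pl.top 0).2 rfl]; exact le_top)).2
            (by rw [(pl.top 0).2 rfl]; exact WithTop.coe_lt_top _)] at h5
          have h6 : (x - x₀) / p ^ m = x / p ^ m + -(x₀ / p ^ m) := by ring
          rw [h6, h4, hr]
          rw [hr₀] at h5
          exact h5.symm
        have h7 : 0 ≤ ν ((x - x₀) / p ^ m) := by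
          have h6 : (x - x₀) / p ^ m = x / p ^ m + -(x₀ / p ^ m) := by ring
          rw [h6]
          exact (le_min h1 h2').trans (pl.add _ _)
        have h8 := (pl.r0 _ h7).1 h3
        have hz' : (x - x₀) / p ^ m ≠ 0 := div_ne_zero hz hpz0
        obtain ⟨j, hj⟩ := pl.int ((x - x₀) / p ^ m) (by
          rw [map_div₀, tz, map_sub, (hfix x hx).1, (hfix x₀ hx₀).1]) hz'
        rw [hj] at h8
        have h9 : (0 : ℚ) < (j : ℚ) := by exact_mod_cast h8
        have h10 : 1 ≤ j := by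
          have : (0 : ℤ) < j := by exact_mod_cast h9
          omega
        have h11 : ν (x - x₀) = (((m + j : ℤ) : ℚ) : WithTop ℚ) := by
          have h12 : x - x₀ = p ^ m * ((x - x₀) / p ^ m) := by
            field_simp
          rw [h12, pl.mul, νz, hj, Int.cast_add]
          rfl
        rw [h11]
        refine WithTop.coe_le_coe.2 ?_
        have : (m + 1 : ℤ) ≤ m + j := by omega
        exact_mod_cast this
      · rintro _ ⟨x, ⟨hx, -⟩, rfl⟩ _ ⟨x', ⟨hx', -⟩, rfl⟩ hne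
        show ν ((x - x₀) - (x' - x₀)) < (((m + 1 + n : ℤ) : ℚ) : WithTop ℚ)
        have h1 : (x - x₀) - (x' - x₀) = x - x' := by ring
        have h2 : x ≠ x' := fun h => hne (by rw [h])
        have h3 : (m + 1 + n : ℤ) = m + (n + 1 : ℕ) := by push_cast; ring
        rw [h1, h3]
        exact hs x hx x' hx' h2
    exact Set.Finite.of_finite_image himg fun x _ y _ hxy => sub_left_injective hxy

/-- **Tsf**. The torsion points over a local field. -/
theorem tTsf (grp : C.S_Grp) (acp : C.S_Acp) (ppr : C.S_Ppr) (itg : S_Itg) (dsc : S_Dsc) :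
    S_Tsf := by
  intro K _ a L _ _ k _ t f q ν res hyp pl ⟨π, hπ⟩
  obtain ⟨v, hna, hv⟩ := tsf_av pl.top pl.mul pl.add
  have n1 : ∀ x, ν (-x) = ν x := (ppr K L k t f q ν res pl).2.1
  obtain ⟨g1, g2, -, -, g5, g6, -, -, -⟩ := grp K a L hyp
  have v2 : v 2 = 1 := by
    have h2 : (2 : L) ≠ 0 := hyp.1
    obtain ⟨r, hr, e⟩ := tsf_val pl.top h2
    rw [hv, e]
    rw [pl.two] at hr
    have : r = 0 := by exact_mod_cast hr.symm
    rw [this, Rat.cast_zero, Real.rpow_zero]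
  obtain ⟨M, hM⟩ : ∃ M : ℝ, ∀ i j, v (al a L i - al a L j) ≤ M := by
    obtain ⟨M, hM⟩ := (Set.finite_range fun p : Fin 3 × Fin 3 =>
      v (al a L p.1 - al a L p.2)).bddAbove
    exact ⟨M, fun i j => hM ⟨(i, j), rfl⟩⟩
  obtain ⟨ε, hε, hdsc⟩ := dsc K a L hyp v hna v2 M
  have px_neg : ∀ P : PA a L, px (-P) = px P := by
    intro P
    rcases g1 P with rfl | ⟨x, y, hxy⟩
    · rw [neg_zero]
    · rw [(g2 _ _ _ (g5 _ _ _ hxy)).2.1, (g2 _ _ _ hxy).2.1]
  -- the set without zero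
  set Y : Set (NN a L) := {x : NN a L | ((t • x = x ∨ t • x = -x) ∧ (f • x = x ∨ f • x = -x)) ∧
    pt x ≠ 0} with hY
  have hfix : ∀ (s : Gal(L/K)) (x : NN a L), (s • x = x ∨ s • x = -x) →
      s (px (pt x)) = px (pt x) := by
    intro s x hx
    have h1 := ((acp K a L hyp s).2.2.1 (pt x)).1
    rw [← h1, ← C.pt_smul]
    rcases hx with h | h
    · rw [h]
    · rw [h, C.pt_neg, px_neg]
  have hsep : ∀ x ∈ Y, ∀ y ∈ Y, px (pt x) ≠ px (pt y) → ε ≤ v (px (pt x) - px (pt y)) := by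
    rintro x ⟨-, hx⟩ y ⟨-, hy⟩ hne
    by_contra hlt
    rw [not_le] at hlt
    rcases hdsc (pt x) (pt y) hx hy hne hlt with h | h
    · have h1 : pt x + pt y ≠ 0 := by
        intro h2
        apply hne
        rw [eq_neg_of_add_eq_zero_left h2, px_neg]
      have h3 := itg K a L hyp v hna M hM (pt x + pt y) (C.pt_mem (x + y)) h1 0
      exact absurd h3 (not_le.2 (h 0))
    · have h1 : pt x - pt y ≠ 0 := by
        intro h2
        exact hne (by rw [sub_eq_zero.1 h2])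
      have h3 := itg K a L hyp v hna M hM (pt x - pt y) (C.pt_mem (x - y)) h1 0
      exact absurd h3 (not_le.2 (h 0))
  -- the bound
  obtain ⟨N, hN⟩ := pow_unbounded_of_one_lt (max M (v (al a L 0))) (one_lt_two : (1 : ℝ) < 2)
  have hbd : ∀ x ∈ Y, v (px (pt x)) ≤ (2 : ℝ) ^ N := by
    rintro x ⟨-, hx⟩
    have h1 := itg K a L hyp v hna M hM (pt x) (C.pt_mem x) hx 0
    have h2 : px (pt x) = (px (pt x) - al a L 0) + al a L 0 := by ring
    rw [h2]
    exact (hna _ _).trans ((max_le_max h1 le_rfl).trans hN.le)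
  obtain ⟨k₀, hk₀⟩ := exists_pow_lt_of_lt_one hε (by norm_num : (1 / 2 : ℝ) < 1)
  have hfin : ((fun x => px (pt x)) '' Y).Finite := by
    refine tsf_fin pl n1 π hπ (N + k₀) (-(N : ℤ)) _ ?_ ?_ ?_
    · rintro _ ⟨x, ⟨hx, -⟩, rfl⟩
      exact ⟨hfix t x hx.1, hfix f x hx.2⟩
    · rintro _ ⟨x, hx, rfl⟩
      show ((((-(N : ℤ) : ℤ) : ℚ)) : WithTop ℚ) ≤ ν (px (pt x))
      rcases eq_or_ne (px (pt x)) 0 with h0 | h0
      · rw [(pl.top _).2 h0]
        exact le_top
      · obtain ⟨r, hr, e⟩ := tsf_val pl.top h0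
        have h1 := hbd x hx
        rw [hv, e] at h1
        have h2 : (2 : ℝ) ^ N = (1 / 2 : ℝ) ^ (((-(N : ℤ) : ℤ) : ℚ) : ℝ) := by
          push_cast
          rw [Real.rpow_neg (by norm_num), Real.rpow_natCast, one_div, inv_pow, inv_inv]
        rw [h2] at h1
        rw [hr]
        exact WithTop.coe_le_coe.2 (tsf_le.1 h1)
    · rintro _ ⟨x, hx, rfl⟩ _ ⟨y, hy, rfl⟩ hne
      have h1 := hsep x hx y hy hne
      show ν (px (pt x) - px (pt y)) < (((-(N : ℤ) + (N + k₀ : ℕ) : ℤ) : ℚ) : WithTop ℚ)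
      obtain ⟨r, hr, e⟩ := tsf_val pl.top (sub_ne_zero.2 hne)
      rw [hr]
      refine WithTop.coe_lt_coe.2 ?_
      by_contra hle
      rw [not_lt] at hle
      have h2 := tsf_le.2 hle
      rw [hv, e] at h1
      have h3 : (1 / 2 : ℝ) ^ (((-(N : ℤ) + (N + k₀ : ℕ) : ℤ) : ℚ) : ℝ) = (1 / 2 : ℝ) ^ k₀ := by
        have h4 : (-(N : ℤ) + (N + k₀ : ℕ) : ℤ) = (k₀ : ℤ) := by push_cast; ring
        rw [h4, Int.cast_natCast, Rat.cast_natCast, Real.rpow_natCast]
      rw [h3] at h2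
      linarith
  have hYf : Y.Finite := by
    refine Set.Finite.of_finite_fibers (fun x => px (pt x)) hfin ?_
    rintro _ ⟨x, hx, rfl⟩
    refine (Set.toFinite {x, -x}).subset ?_
    rintro y ⟨⟨-, hy⟩, hxy⟩
    have hxy' : px (pt x) = px (pt y) := (Set.mem_singleton_iff.1 hxy).symm
    rcases g6 (pt x) (pt y) hx.2 hy hxy' with h | h
    · left
      exact C.pt_inj h
    · right
      exact C.pt_inj h
  refine (hYf.insert 0).subset ?_
  intro x hx
  by_cases h0 : pt x = 0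
  · left
    exact C.pt_inj h0
  · right
    exact ⟨hx, h0⟩

end Pool.Agent.MP72B.Loc
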