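import Pool.Agent.Lib.MP_72e2e6_nt.Sm.B.SpecG

/-!
# MP_72e2e6_nt, `Sm/B`, module `MbdR`: the average number of the bad solutions
-/

set_option autoImplicit false

namespace Pool.Agent.MP72B

open Finset Polynomial MP72e2e6 Pool.Agent.MP72S Pool.Agent.MP72S.Lv

section

variable {T W X : Type} [Fintype T] [AddCommGroup W] [Module (ZMod 2) W] [Finite W] {m : ℕ}

omit [Fintype T] in
private theorem mb_dual (W : Type) [AddCommGroup W] [Module (ZMod 2) W] [Finite W] :
    Nat.card (Module.Dual (ZMod 2) W) = Nat.card W := by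
  rw [Module.natCard_eq_pow_finrank (K := ZMod 2) (V := W),
    Module.natCard_eq_pow_finrank (K := ZMod 2) (V := Module.Dual (ZMod 2) W),
    Subspace.dual_finrank_eq]

private theorem mb_fin (W : Type) [AddCommGroup W] [Module (ZMod 2) W] [Finite W] :
    Finite (Module.Dual (ZMod 2) W) :=
  Finite.of_injective (fun g : Module.Dual (ZMod 2) W => (g : W → ZMod 2)) DFunLike.coe_injective

omit [AddCommGroup W] [Module (ZMod 2) W] [Finite W] in
private theorem mb_unk : Nat.card (Unk T W m) = Nat.card W ^ (Fintype.card T + 1 + m) := by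
  rw [Nat.card_prod, Nat.card_prod, Nat.card_fun, Nat.card_fun, Nat.card_fin,
    Nat.card_eq_fintype_card (α := T), pow_add, pow_add, pow_one, mul_assoc]

open Classical in
private theorem mb_sum (hPrb : S_PrbR) (S : Opr T W) (T1 : Finset T)
    (hσ : ∀ v ∈ T1, ∀ y, S.σ v y = y) (n : Fin m → ZMod 2) (Z : Finset X)
    (A : X → T → Fin m → ZMod 2) (B : X → Fin m → Fin m → ZMod 2) {M ε : ℝ} (hM : 0 ≤ M)
    (hε : 0 ≤ ε) (h : Eqd Z A B M ε) (P : Unk T W m → Prop) :
    (∑ z ∈ Z, (Nat.card {x : Unk T W m // RE S T1 n (A z) (B z) x ∧ P x} : ℝ)) ≤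
      M * ((Nat.card {q : Unk T W m × ((Fin m → Module.Dual (ZMod 2) W) ×
          ({v // v ∈ T1} → Module.Dual (ZMod 2) W)) // P q.1 ∧ RC S T1 q.1 q.2.1 q.2.2} : ℝ) /
            (Nat.card W : ℝ) ^ (#T1 + m) +
        ε * (Nat.card W : ℝ) ^ (Fintype.card T + 1 + m)) := by
  have : Fintype W := Fintype.ofFinite W
  have := mb_fin W
  have : Fintype (Module.Dual (ZMod 2) W) := Fintype.ofFinite _
  have h1 : ∀ z, (Nat.card {x : Unk T W m // RE S T1 n (A z) (B z) x ∧ P x} : ℝ) =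
      ∑ x : Unk T W m, if RE S T1 n (A z) (B z) x ∧ P x then (1 : ℝ) else 0 := by
    intro z
    rw [Nat.card_eq_fintype_card, Fintype.card_subtype, Finset.sum_boole]
  have h2 : ∀ x : Unk T W m, ({z | z ∈ Z ∧ RE S T1 n (A z) (B z) x}.ncard : ℝ) =
      ∑ z ∈ Z, if RE S T1 n (A z) (B z) x then (1 : ℝ) else 0 := by
    intro x
    rw [Finset.sum_boole]
    congr 1
    rw [← Set.ncard_coe_finset]
    congr 1
    ext z
    simp
  have h3 : (Nat.card {q : Unk T W m × ((Fin m → Module.Dual (ZMod 2) W) ×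
          ({v // v ∈ T1} → Module.Dual (ZMod 2) W)) //
          P q.1 ∧ RC S T1 q.1 q.2.1 q.2.2} : ℝ) =
      ∑ x : Unk T W m, if P x then (Nat.card {p : (Fin m → Module.Dual (ZMod 2) W) ×
        ({v // v ∈ T1} → Module.Dual (ZMod 2) W) // RC S T1 x p.1 p.2} : ℝ) else 0 := by
    rw [Nat.card_eq_fintype_card, Fintype.card_subtype, Finset.card_filter]
    push_cast
    rw [Fintype.sum_prod_type]
    refine Finset.sum_congr rfl fun x _ => ?_
    by_cases hP : P x
    · rw [if_pos hP, Nat.card_eq_fintype_card, Fintype.card_subtype, Finset.card_filter]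
      push_cast
      refine Finset.sum_congr rfl fun p _ => ?_
      simp only [hP, true_and]
    · rw [if_neg hP]
      refine Finset.sum_eq_zero fun p _ => ?_
      simp only [hP, false_and, if_false]
  calc (∑ z ∈ Z, (Nat.card {x : Unk T W m // RE S T1 n (A z) (B z) x ∧ P x} : ℝ))
      = ∑ x : Unk T W m, if P x then ({z | z ∈ Z ∧ RE S T1 n (A z) (B z) x}.ncard : ℝ) else 0 := by
        simp_rw [h1]
        rw [Finset.sum_comm]
        refine Finset.sum_congr rfl fun x _ => ?_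
        by_cases hP : P x
        · rw [if_pos hP, h2]
          simp only [hP, and_true]
        · rw [if_neg hP]
          refine Finset.sum_eq_zero fun z _ => ?_
          simp only [hP, and_false, if_false]
    _ ≤ ∑ x : Unk T W m, ((if P x then M * ((Nat.card {p : (Fin m → Module.Dual (ZMod 2) W) ×
          ({v // v ∈ T1} → Module.Dual (ZMod 2) W) // RC S T1 x p.1 p.2} : ℝ) /
          (Nat.card W : ℝ) ^ (#T1 + m)) else 0) + M * ε) := by
        refine Finset.sum_le_sum fun x _ => ?_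
        by_cases hP : P x
        · rw [if_pos hP, if_pos hP, ← mul_add]
          exact hPrb T W X m S T1 hσ n Z A B M ε hM hε h x
        · rw [if_neg hP, if_neg hP, zero_add]
          exact mul_nonneg hM hε
    _ = _ := by
        rw [Finset.sum_add_distrib, Finset.sum_const, Finset.card_univ,
          ← Nat.card_eq_fintype_card (α := Unk T W m), mb_unk, h3, mul_add, Finset.sum_div,
          Finset.mul_sum, nsmul_eq_mul]
        congr 1
        · refine Finset.sum_congr rfl fun x _ => ?_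
          by_cases hP : P x
          · rw [if_pos hP, if_pos hP]
          · rw [if_neg hP, if_neg hP, zero_div, mul_zero]
        · push_cast
          ring

private theorem mb_card (S : Opr T W) (T1 : Finset T) (P : Unk T W m → Prop)
    (Q : (Fin m → W × Module.Dual (ZMod 2) W) → Prop)
    (hPQ : ∀ (x : Unk T W m) (lam : Fin m → Module.Dual (ZMod 2) W)
      (δ : {v // v ∈ T1} → Module.Dual (ZMod 2) W), P x → RC S T1 x lam δ →
        Q fun i => (x.2.2 i, lam i)) :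
    Nat.card {q : Unk T W m × ((Fin m → Module.Dual (ZMod 2) W) ×
          ({v // v ∈ T1} → Module.Dual (ZMod 2) W)) // P q.1 ∧ RC S T1 q.1 q.2.1 q.2.2} ≤
      Nat.card W ^ (Fintype.card T + 1 + #T1) *
        Nat.card {u : Fin m → W × Module.Dual (ZMod 2) W // Q u} := by
  have h1 : Nat.card ((T → W) × W × ({v // v ∈ T1} → Module.Dual (ZMod 2) W) ×
      {u : Fin m → W × Module.Dual (ZMod 2) W // Q u}) =
      Nat.card W ^ (Fintype.card T + 1 + #T1) *
        Nat.card {u : Fin m → W × Module.Dual (ZMod 2) W // Q u} := by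
    have h0 : Nat.card {v // v ∈ T1} = #T1 := by
      rw [Nat.card_eq_fintype_card, Fintype.card_coe]
    rw [Nat.card_prod, Nat.card_prod, Nat.card_prod, Nat.card_fun, Nat.card_fun, mb_dual,
      Nat.card_eq_fintype_card (α := T), h0]
    ring
  have := mb_fin W
  rw [← h1]
  refine Nat.card_le_card_of_injective (fun q => (q.1.1.1, q.1.1.2.1, q.1.2.2,
    ⟨fun i => (q.1.1.2.2 i, q.1.2.1 i), hPQ _ _ _ q.2.1 q.2.2⟩)) ?_
  rintro ⟨⟨⟨c, c₀, s⟩, lam, δ⟩, hq⟩ ⟨⟨⟨c', c₀', s'⟩, lam', δ'⟩, hq'⟩ h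
  simp only [Prod.mk.injEq, Subtype.mk.injEq] at h
  obtain ⟨h2, h3, h4, h5⟩ := h
  have h6 : s = s' := funext fun i => (Prod.mk.inj (congrFun h5 i)).1
  have h7 : lam = lam' := funext fun i => (Prod.mk.inj (congrFun h5 i)).2
  subst h2 h3 h4 h6 h7
  rfl

/-- The relation on `W × Dual W`. -/
private def mbRel {W : Type} [AddCommGroup W] [Module (ZMod 2) W]
    (u u' : W × Module.Dual (ZMod 2) W) : Prop :=
  (u.2 - u'.2) (u.1 - u'.1) = 0

private theorem mb_rel (h3 : StmtPpTS) (W : Type) [AddCommGroup W] [Module (ZMod 2) W] [Finite W]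
    (𝓥 : Finset (W × Module.Dual (ZMod 2) W)) (h : ∀ w ∈ 𝓥, ∀ w' ∈ 𝓥, mbRel w w') :
    #𝓥 ≤ Nat.card W := by
  have : Fact (Nat.Prime 2) := ⟨Nat.prime_two⟩
  refine (h3 2 W 𝓥 fun w hw w' hw' => ?_).1
  have h1 := h w hw w' hw'
  unfold mbRel at h1
  unfold BW
  rw [← neg_sub w.1 w'.1, map_neg, ← sub_eq_neg_add, ← neg_sub, ← LinearMap.sub_apply, h1, neg_zero]

private theorem mb_one (W : Type) [AddCommGroup W] [Finite W] : 1 ≤ Nat.card W :=
  Nat.card_pos

private theorem mb_few (h3 : StmtPpTS) (h1 : Lv.S_Few) (W : Type) [AddCommGroup W]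
    [Module (ZMod 2) W] [Finite W] (m L : ℕ) :
    Nat.card {u : Fin m → W × Module.Dual (ZMod 2) W // (∀ i j, mbRel (u i) (u j)) ∧
      ¬ ∃ 𝓥 : Finset (W × Module.Dual (ZMod 2) W), #𝓥 = Nat.card W ∧ (∀ i, u i ∈ 𝓥) ∧
        ∀ w ∈ 𝓥, L < {i | u i = w}.ncard} ≤
        2 ^ (Nat.card W ^ 2) * Nat.card W * few (Nat.card W) L m := by
  have := mb_fin W
  have hc : Nat.card (W × Module.Dual (ZMod 2) W) = Nat.card W ^ 2 := by
    rw [Nat.card_prod, mb_dual, sq]
  have h := h1 (W × Module.Dual (ZMod 2) W) mbRel (Nat.card W) (mb_one W)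
    (by rw [hc, sq]; exact Nat.le_mul_of_pos_left _ (mb_one W)) (mb_rel h3 W) m L
  rw [hc] at h
  exact h.2

end

section

variable {T V : Type} [AddCommGroup V] [Module (ZMod 2) V] {m : ℕ}

private theorem mb_zero {a : ZMod 2} (h : a ≠ 0) {y : V} (hy : a • y = 0) : y = 0 := by
  rcases zmod2 a with h1 | h1
  · exact absurd h1 h
  · rwa [h1, one_smul] at hy

private theorem mb_key [Fintype T] (hStr : S_StrR) [Finite V] {S : Opr T V} {T1 : Finset T}
    (hσ : ∀ v ∈ T1, ∀ y, S.σ v y = y) {n : Fin m → ZMod 2}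
    (hn : (∃ v ∈ T1, S.d v ≠ 0) ∨ ∃ i, n i ≠ 0)
    {k : ℕ} (hD : S.Dns k) {b : Fin m} {L : ℕ} {x : Unk T (Fin k → V) m}
    {A : T → Fin m → ZMod 2} {B : Fin m → Fin m → ZMod 2} (hE : RE (S.pow k) T1 n A B x)
    (hB : BadR S k b L x) {lam : Fin m → Module.Dual (ZMod 2) (Fin k → V)}
    {δ : {v // v ∈ T1} → Module.Dual (ZMod 2) (Fin k → V)} (hC : RC (S.pow k) T1 x lam δ) :
    ¬ ∃ 𝓥 : Finset ((Fin k → V) × Module.Dual (ZMod 2) (Fin k → V)),
      #𝓥 = Nat.card (Fin k → V) ∧ (∀ i, (x.2.2 i, lam i) ∈ 𝓥) ∧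
        ∀ w ∈ 𝓥, L < {i | (x.2.2 i, lam i) = w}.ncard := by
  rintro ⟨𝓥, hV1, hV2, hV3⟩
  obtain ⟨-, Au, h1, h2, h3, h4, h5⟩ := hStr T (Fin k → V) m (S.pow k) T1
    (fun v hv y => funext fun j => hσ v hv (y j)) x lam δ hC L 𝓥 hV1 hV2 hV3
  by_cases hA : Au = ⊤
  · obtain ⟨w, hw⟩ := hB.few
    have h6 := h5 b w (by rw [hA]; exact Submodule.mem_top)
    omega
  · obtain ⟨β, hβ, hβA⟩ := hD Au h1 hA
    apply hβ
    obtain ⟨ℓ, hℓ⟩ : ∃ ℓ : (Fin k → V) →ₗ[ZMod 2] V, ∀ a, ℓ a = ∑ j, β j • a j :=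
      ⟨∑ j, β j • LinearMap.proj j, fun a => by simp⟩
    have hℓA : ∀ a b : Fin k → V, a - b ∈ Au → ℓ a = ℓ b := by
      intro a b hab
      have h6 := hβA _ hab
      rw [← hℓ, map_sub, sub_eq_zero] at h6
      exact h6
    have hℓσ : ∀ v a, ℓ ((S.pow k).σ v a) = S.σ v (ℓ a) := by
      intro v a
      rw [hℓ, hℓ, map_sum]
      refine Finset.sum_congr rfl fun j _ => ?_
      rw [map_smul, Opr.pow_σ]
    have hℓΛ : ∀ a, ℓ ((S.pow k).Λ a) = S.Λ (ℓ a) := by
      intro a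
      rw [hℓ, hℓ, map_sum]
      refine Finset.sum_congr rfl fun j _ => ?_
      rw [map_smul, Opr.pow_Λ]
    have e1 : ∀ i, ℓ (x.2.2 i) = ℓ (x.2.2 b) := fun i => hℓA _ _ (h2 i b)
    have e2 : ∀ v ∈ T1, ℓ (x.1 v) = ℓ (x.2.2 b) := fun v hv => hℓA _ _ (h3 v hv b)
    have e3 : ∀ v, ℓ (x.1 v) = S.σ v (ℓ (x.2.2 b)) := by
      intro v
      by_cases hv : v ∈ T1
      · rw [hσ v hv]
        exact e2 v hv
      · rw [← hℓσ]
        exact hℓA _ _ (h4 v hv b)
    have e4 : ℓ x.2.1 = S.Λ (ℓ (x.2.2 b)) := by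
      rcases hn with ⟨v, hv, hd⟩ | ⟨i, hi⟩
      · have h6 := congrArg ℓ (hE.fix v hv)
        rw [map_zero, map_add, map_add, map_sum, map_sum, map_smul, map_sub, hℓΛ, e2 v hv,
          Finset.sum_eq_zero, Finset.sum_eq_zero, zero_add, zero_add] at h6
        · exact sub_eq_zero.1 (mb_zero hd h6)
        · intro i _
          rw [map_smul, map_sub, e1 i, e2 v hv, sub_self, smul_zero]
        · intro v' _
          rw [map_smul, map_sub, hℓσ, e3 v', e2 v hv, sub_self, smul_zero]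
      · have h6 := congrArg ℓ (hE.var i)
        rw [map_zero, map_add, map_add, map_sum, map_sum, map_smul, map_sub, hℓΛ, e1 i,
          Finset.sum_eq_zero, Finset.sum_eq_zero, zero_add, zero_add] at h6
        · exact sub_eq_zero.1 (mb_zero hi h6)
        · intro j _
          rw [map_smul, map_sub, e1 i, e1 j, sub_self, smul_zero]
        · intro v _
          rw [map_smul, map_sub, hℓσ, e3 v, e1 i, sub_self, smul_zero]
    refine hB.ind β (ℓ (x.2.2 b)) (fun i => ?_) (fun v => ?_) ?_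
    · rw [← hℓ]
      exact e1 i
    · rw [← hℓ]
      exact e3 v
    · rw [← hℓ]
      exact e4

end

theorem tMbdR : Lv.S_Few → S_PrbR → S_StrR → MP72e2e6.StmtPpTS → S_MbdR := by
  intro h1 h2 h4 h3 T V X _ _ _ _ m S T1 hσ n hn k hD Z A B M ε hM hε hE b L N hN
  have hW : Nat.card (Fin k → V) = N := by
    rw [Nat.card_fun, Nat.card_fin, hN]
  have hN0 : (0 : ℝ) < (N : ℝ) := by
    rw [← hW]
    exact_mod_cast mb_one (Fin k → V)
  have h5 := mb_sum h2 (S.pow k) T1 (fun v hv y => funext fun j => hσ v hv (y j)) n Z A B hM hε hE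
    (fun x : Unk T (Fin k → V) m => (∃ z ∈ Z, RE (S.pow k) T1 n (A z) (B z) x) ∧
      BadR S k b L x)
  have h6 : (∑ z ∈ Z, (Nat.card {x : Unk T (Fin k → V) m //
      RE (S.pow k) T1 n (A z) (B z) x ∧ BadR S k b L x} : ℝ)) ≤
      ∑ z ∈ Z, (Nat.card {x : Unk T (Fin k → V) m // RE (S.pow k) T1 n (A z) (B z) x ∧
        ((∃ z ∈ Z, RE (S.pow k) T1 n (A z) (B z) x) ∧ BadR S k b L x)} : ℝ) := by
    refine Finset.sum_le_sum fun z hz => ?_
    exact_mod_cast Nat.card_le_card_of_injective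
      (fun x : {x : Unk T (Fin k → V) m // RE (S.pow k) T1 n (A z) (B z) x ∧ BadR S k b L x} =>
        (⟨x.1, x.2.1, ⟨z, hz, x.2.1⟩, x.2.2⟩ : {x : Unk T (Fin k → V) m //
          RE (S.pow k) T1 n (A z) (B z) x ∧
            ((∃ z ∈ Z, RE (S.pow k) T1 n (A z) (B z) x) ∧ BadR S k b L x)}))
      (fun x y h => Subtype.ext (Subtype.mk.inj h))
  rw [hW] at h5
  refine (h6.trans h5).trans (mul_le_mul_of_nonneg_left (add_le_add_left ?_ _) hM)
  have h7 := (mb_card (S.pow k) T1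
    (fun x : Unk T (Fin k → V) m => (∃ z ∈ Z, RE (S.pow k) T1 n (A z) (B z) x) ∧
      BadR S k b L x)
    (fun u => (∀ i j, mbRel (u i) (u j)) ∧
      ¬ ∃ 𝓥 : Finset ((Fin k → V) × Module.Dual (ZMod 2) (Fin k → V)),
        #𝓥 = Nat.card (Fin k → V) ∧ (∀ i, u i ∈ 𝓥) ∧ ∀ w ∈ 𝓥, L < {i | u i = w}.ncard)
    (fun x lam δ hP hC => ⟨fun i j => hC.un i j, by
      obtain ⟨⟨z, -, hz⟩, hb⟩ := hP
      exact mb_key h4 hσ hn hD hz hb hC⟩)).trans
      (Nat.mul_le_mul_left _ (mb_few h3 h1 (Fin k → V) m L))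
  rw [hW] at h7
  rw [div_le_iff₀ (pow_pos hN0 _)]
  calc _ ≤ ((N ^ (Fintype.card T + 1 + #T1) * (2 ^ (N ^ 2) * N * few N L m) : ℕ) : ℝ) := by
        exact_mod_cast h7
    _ = _ := by
      push_cast
      rw [pow_add, pow_add, pow_add, pow_add]
      field_simp

end Pool.Agent.MP72B
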