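import Pool.Agent.Lib.MP_72e2e6_nt.Sm.B.Defs

/-!
# MP_72e2e6_nt, `Sm/B`: patterns
-/

namespace Pool.Agent.MP72B

open Finset Pool.Agent.MP72S

/-- Every pattern relative to the index `b` occurs for at least `K` indices. -/
def DatL.Pat {G N P ι : Type} [Group G] [TopologicalSpace G] [AddCommGroup N]
    [DistribMulAction G N] [Fintype ι] (D : DatL G N P) (x : ι → P) (b : ι) (K : ℕ) : Prop :=
  ∀ c : (D.J ι → N) → N, (∀ ν ∈ D.Dk x 1, ∀ ν' ∈ D.Dk x 1, c (ν + ν') = c ν + c ν') →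
    (∀ ν ∈ D.T x, c ν = 0) → (∀ ν ∈ D.Dk x 1, 2 • c ν = 0) →
    ∃ I : Finset ι, #I = K ∧ b ∉ I ∧
      ∀ i ∈ I, ∀ ν ∈ D.Dk x 1, ν (Sum.inr i) = ν (Sum.inr b) + c ν

end Pool.Agent.MP72B
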