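import Pool.Agent.Lib.MP_72e2e6_nt.Sm.B.Defs
import Pool.Agent.Lib.MP_72e2e6_nt.Sm.N.SpecA
import Pool.Agent.Lib.MP_72e2e6_nt.Sm.P.Spec

/-!
# MP_72e2e6_nt, `Sm/B`: statements with proofs, part A (block A with general local conditions)

`S_X` here is the statement `MP72S.S_X` of block A (`Sm/A/Spec1.lean` - `Spec3.lean`) for `DatL` in place of
`Dat`, `AxL` in place of `Ax`. THE PROOFS ARE THE OLD PROOFS (files `Sm/A/X.lean`: copy and change) with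
`D.lm x j Q = t j` in place of `2 • Q = t j`, `D.T x` in place of `D.T ι`, `D.tv x R` (`2 • R = s`) in place of the
constant type `fun _ => s`, `D.qr x j (ξ j)` in place of `quar (ξ j)`, and the key lemma `S_Fix` in place of the
statements on elements of order two. File `Sm/B/X.lean` (import this file only) with
`theorem tX : S_Y → .. → S_X`, namespace `Pool.Agent.MP72B` (with `open Finset Pool.Agent.MP72S`), all other
declarations `private`. `MP72S.S_X` are the old statements (they may be used as hypotheses if they do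
not contain types: `MP72S.S_Alt`, `S_Dif`, `S_Hom`, `S_Cmp`, `S_Bas`, `S_Msa`, `S_Rcv`, `S_Ivd`, `S_Trl`, `S_LinD`,
`S_Sym`, `S_SyF`, `S_Iso`).
-/

namespace Pool.Agent.MP72B

open Finset Pool.Agent.MP72S

/-- Module `Fix` (THE KEY LEMMA, 60 lines). `χ = chi x` is a character in the sense of `IsCh` (`Ax.ch0c`, `chc`;
`x i ∉ S`, so `x i ≠ ∞`). PROOF. (1), (2): for `j = inl s` this is `AxL.ker`. For `j = inr i` `lm x j Q = 2 Q`. (→) `tw_two`.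
(←) `chi x (τ_(x i)) = 1` (`ch_tau`, `ch_tau'`, `ch0_tau`, as in `MP72S.S_Tai`) and `τ_(x i) • Q = Q` (`unr`), so
`tw τ Q = -Q = Q`. (3) `AxL.sur`, `Ax.dvs`. (4) `tw_two` and (2). (5) `lm (2 Q) = 2 lm Q = 0`, so `2 Q` is fixed by (1). (6) If
`2 (tw τ Q - Q) = 0` and `2 (tw φ Q - Q) = 0` then `2 Q` is fixed, and `2 lm Q = lm (2 Q) = 0`. (7) For `j = inl s` `AxL.iso` with
(5); for `j = inr i` `4 Q = 0 = 4 Q'` and `MP72S.S_Iso` (it is stated for `Dat`: apply it to `D.toDat`). (8) definition. -/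
def S_Fix : Prop :=
  ∀ {G N P ι : Type} [Group G] [TopologicalSpace G] [AddCommGroup N] [DistribMulAction G N]
    [Fintype ι] [DecidableEq ι] (D : DatL G N P), AxL D → ∀ (x : ι → P), D.Ok x →
    (∀ j (Q : N), D.lm x j Q = 0 ↔
      tw (D.chi x) (D.tau (D.pl x j)) Q = Q ∧ tw (D.chi x) (D.phi (D.pl x j)) Q = Q) ∧
    (∀ j, Function.Surjective (D.lm x j)) ∧
    (∀ j (Q : N), 2 • Q = 0 → D.lm x j Q = 0) ∧
    (∀ j (Q : N), 2 • D.lm x j Q = 0 ↔ 2 • (tw (D.chi x) (D.tau (D.pl x j)) Q - Q) = 0 ∧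
      2 • (tw (D.chi x) (D.phi (D.pl x j)) Q - Q) = 0) ∧
    (∀ j (Q Q' : N), 2 • D.lm x j Q = 0 → 2 • D.lm x j Q' = 0 →
      D.e (tw (D.chi x) (D.tau (D.pl x j)) Q - Q) (tw (D.chi x) (D.phi (D.pl x j)) Q' - Q') +
      D.e (tw (D.chi x) (D.phi (D.pl x j)) Q - Q) (tw (D.chi x) (D.tau (D.pl x j)) Q' - Q') = 0) ∧
    (∀ j (u : N), D.lm x j (2 • D.qr x j u) = u) ∧ IsCh (D.chi x)

/-- Module `Gdf` (faces of good cubes). As the old one. -/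
def S_Gdf : Prop :=
  ∀ {G N P ι : Type} [Group G] [TopologicalSpace G] [AddCommGroup N] [DistribMulAction G N]
    [Fintype ι] [DecidableEq ι] (D : DatL G N P) (x y : ι → P) (U : Finset ι), D.Gd x y U →
    (∀ A ⊆ U, ∀ B ⊆ U, Disjoint A B → D.Gd (mx x y A) y B) ∧
    (∀ i ∈ U, ∀ j, y i ≠ x j) ∧ (∀ i ∈ U, y i ∉ D.S) ∧ (∀ i ∈ U, ∀ j ∈ U, i ≠ j → y i ≠ y j)

/-- Module `Inj` (uses `MP72S.S_Hom`, `S_Fix`). By `lo` and `Fix` (1) `ψ (τ_v) = 0 = ψ (φ_v)` at all places `pl x j`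
(`lm Q = 0`), the rest as the old one. -/
def S_Inj : Prop :=
  ∀ {G N P ι : Type} [Group G] [TopologicalSpace G] [AddCommGroup N] [DistribMulAction G N]
    [Fintype ι] [DecidableEq ι] (D : DatL G N P), AxL D → ∀ (x : ι → P), D.Ok x → ∀ (ψ : G → N),
    D.IsZ x 0 ψ → ∀ σ, ψ σ = 0

/-- Module `Uq` (uses `S_Inj`). As the old one. -/
def S_Uq : Prop :=
  ∀ {G N P ι : Type} [Group G] [TopologicalSpace G] [AddCommGroup N] [DistribMulAction G N]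
    [Fintype ι] [DecidableEq ι] (D : DatL G N P), AxL D → ∀ (x : ι → P), D.Ok x →
    (∀ t (ψ : G → N), D.IsZ x t ψ → ∀ σ, D.coc x t σ = ψ σ) ∧
    (∀ t ∈ D.Z x, ∀ t' ∈ D.Z x, ∀ σ, D.coc x (t + t') σ = D.coc x t σ + D.coc x t' σ) ∧
    (∀ t ∈ D.Z x, ∀ (n : ℕ) (σ : G), D.coc x (n • t) σ = n • D.coc x t σ) ∧
    (∀ σ, D.coc x 0 σ = 0) ∧
    (∀ t ∈ D.Z x, ∀ k : ℕ, 2 ^ k • t = 0 → ∀ σ, 2 ^ k • D.coc x t σ = 0)

/-- Module `Tin` (the torsion cocycles). As the old one: `lo` holds with `Q = R` at all places. -/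
def S_Tin : Prop :=
  ∀ {G N P ι : Type} [Group G] [TopologicalSpace G] [AddCommGroup N] [DistribMulAction G N]
    [Fintype ι] [DecidableEq ι] (D : DatL G N P), AxL D → ∀ (x : ι → P), D.Ok x →
    ∀ R : N, D.IsZ x (D.tv x R) fun σ => tw (D.chi x) σ R - R

/-- Module `Tai`. As the old one. -/
def S_Tai : Prop :=
  ∀ {G N P ι : Type} [Group G] [TopologicalSpace G] [AddCommGroup N] [DistribMulAction G N]
    [Fintype ι] [DecidableEq ι] (D : DatL G N P), AxL D → ∀ (x : ι → P), D.Ok x →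
    (∀ i, D.chi x (D.tau (x i)) = 1) ∧
    (∀ v, v ∉ Set.range (D.pl x) → D.chi x (D.tau v) = 0) ∧
    (∀ σ τ, D.chi x (σ * τ) = D.chi x σ + D.chi x τ) ∧ IsLocallyConstant (D.chi x) ∧
    (∀ i t (ψ : G → N), D.IsZ x t ψ → ψ (D.tau (x i)) = -t (Sum.inr i)) ∧
    (∀ i Q (ψ : G → N), D.Lo x (x i) Q ψ → ψ (D.tau (x i)) = -(2 • Q))

/-- Module `Chi` (uses `S_Gdf`, `MP72S.S_Alt`). As the old one; the last statement is immediate from the first one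
(`lm` is multiplication by two at `inr i`). -/
def S_Chi : Prop :=
  ∀ {G N P ι : Type} [Group G] [TopologicalSpace G] [AddCommGroup N] [DistribMulAction G N]
    [Fintype ι] [DecidableEq ι] (D : DatL G N P), AxL D → ∀ (x y : ι → P) (U : Finset ι),
    D.Gd x y U → ∀ w ⊆ U,
    (∀ s ∈ D.S, D.chi (mx x y w) (D.tau s) = D.chi x (D.tau s) ∧
      D.chi (mx x y w) (D.phi s) = D.chi x (D.phi s)) ∧
    (∀ j, j ∉ w → D.chi (mx x y w) (D.tau (x j)) = D.chi x (D.tau (x j)) ∧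
      D.chi (mx x y w) (D.phi (x j)) = D.chi x (D.phi (x j))) ∧
    (∀ j ∈ w, D.chi (mx x y w) (D.tau (y j)) = D.chi (mx x y {j}) (D.tau (y j)) ∧
      D.chi (mx x y w) (D.phi (y j)) = D.chi (mx x y {j}) (D.phi (y j))) ∧
    ∀ j, D.lm (mx x y w) j = D.lm x j

/-- Module `Lfx` (local agreement of cocycles, uses `S_Fix`). PROOF. `R = Q - Q'`, `lm x j R = 0`, so `R` is fixed by `tw (chi x)` at
`τ`, `φ`, so `tw Q - Q = tw Q' - Q'` there; the characters agree. -/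
def S_Lfx : Prop :=
  ∀ {G N P ι : Type} [Group G] [TopologicalSpace G] [AddCommGroup N] [DistribMulAction G N]
    [Fintype ι] [DecidableEq ι] (D : DatL G N P), AxL D → ∀ (x x' : ι → P), D.Ok x → ∀ (j : D.J ι)
    (Q Q' : N) (ψ ψ' : G → N), D.Lo x (D.pl x j) Q ψ → D.Lo x' (D.pl x j) Q' ψ' →
    D.lm x j Q = D.lm x j Q' → D.chi x (D.tau (D.pl x j)) = D.chi x' (D.tau (D.pl x j)) →
    D.chi x (D.phi (D.pl x j)) = D.chi x' (D.phi (D.pl x j)) →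
    ψ (D.tau (D.pl x j)) = ψ' (D.tau (D.pl x j)) ∧ ψ (D.phi (D.pl x j)) = ψ' (D.phi (D.pl x j))

/-- Module `Cst` (100 lines; replaces the applications of `LemB` with `j = 1` to a constant type of order two; uses
`MP72S.S_Hom`, `S_Gdf`, `S_Uq`, `S_Tai`, `S_Chi`, `S_Lfx`). PROOF. `z = mx x y w`. `coc z ν`, `coc x ν` are homomorphisms to `V` (`Uq` (5) with
`k = 1`, `tw_two`), `Φ` = their difference. `Φ (τ_v) = 0 = Φ (φ_v)` at `v = pl x j`, `j = inl s` or `j = inr i`, `i ∉ w`: `Lfx`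
(`pl z j = v`, `lm z j = lm x j`, the characters agree by `Chi`, and both types are `ν j`). At `x i`, `y i`, `i ∈ w`: `coc x ν` and `coc z ν`
are unramified or have the value `-ν (inr i) = 0` at `τ` (`Tai`). Elsewhere unramified. So `Φ = 0` (`Hom` (1)). The last claim: at
`x i`, `y i`, `i ∈ U` the value at `φ` of `coc x ν = coc (mx x y {i}) ν` is `tw Q - Q` with `2 Q = ν (inr i) = 0`. -/
def S_Cst : Prop :=
  ∀ {G N P ι : Type} [Group G] [TopologicalSpace G] [AddCommGroup N] [DistribMulAction G N]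
    [Fintype ι] [DecidableEq ι] (D : DatL G N P), AxL D → ∀ (x y : ι → P) (U : Finset ι),
    D.Gd x y U → ∀ ν : D.J ι → N, 2 • ν = 0 → (∀ i ∈ U, ν (Sum.inr i) = 0) →
    (∀ w ⊆ U, ν ∈ D.Z (mx x y w)) → (∀ w ⊆ U, ∀ σ, D.coc (mx x y w) ν σ = D.coc x ν σ) ∧
      ∀ i ∈ U, ∀ g, (g = D.tau (x i) ∨ g = D.phi (x i) ∨ g = D.tau (y i) ∨ g = D.phi (y i)) →
        D.coc x ν g = 0

/-- Module `CmL` (uses `MP72S.S_Alt`, `S_Gdf`, `S_Tai`, `S_Chi`). As the old one. -/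
def S_CmL : Prop :=
  ∀ {G N P ι : Type} [Group G] [TopologicalSpace G] [AddCommGroup N] [DistribMulAction G N]
    [Fintype ι] [DecidableEq ι] (D : DatL G N P), AxL D → ∀ (x y : ι → P) (U : Finset ι),
    D.Gd x y U → ∀ (ψ : (ι → P) → G → N) (Q : Finset ι → D.J ι → N),
    (∀ w ⊆ U, w.Nonempty → D.IsU (mx x y w) (ψ (mx x y w))) →
    (∀ w ⊆ U, w.Nonempty → ∀ j, (∀ i ∈ U, j ≠ Sum.inr i) →
      D.Lo (mx x y w) (D.pl (mx x y w) j) (Q w j) (ψ (mx x y w))) →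
    (∀ j, (∀ i ∈ U, j ≠ Sum.inr i) → D.Lo x (D.pl x j)
      (-∑ w ∈ U.powerset.erase ∅, (-1 : ℤ) ^ #w • Q w j) (cmp x y U ψ)) ∧
    (∀ i ∈ U, ∀ g, g = D.tau (x i) ∨ g = D.phi (x i) →
      (∀ w ⊆ U.erase i, w.Nonempty → ψ (mx x y w) g = tw (D.chi x) g (Q w (Sum.inr i)) -
        Q w (Sum.inr i)) →
      cmp x y U ψ g = tw (D.chi x) g
          (-∑ w ∈ (U.erase i).powerset.erase ∅, (-1 : ℤ) ^ #w • Q w (Sum.inr i)) -
        (-∑ w ∈ (U.erase i).powerset.erase ∅, (-1 : ℤ) ^ #w • Q w (Sum.inr i)) +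
        alt (Function.update x i (y i)) y (U.erase i) (fun z => ψ z g)) ∧
    (∀ i ∈ U, ∀ w ⊆ U, i ∈ w → ψ (mx x y w) (D.tau (x i)) = 0) ∧
    (∀ i ∈ U, cmp x y U ψ (D.tau (y i)) =
      alt (Function.update x i (y i)) y (U.erase i) (fun z => ψ z (D.tau (y i)))) ∧
    (∀ v, v ∉ Set.range (D.pl x) → (∀ i ∈ U, v ≠ y i) → cmp x y U ψ (D.tau v) = 0)

/-- Module `Dk1` (uses `S_Tin`, `S_Fix`, `MP72S.S_Bas`). As the old one. `T x ≤ Dk x k`: for `4 R = 0` take `R'` with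
`2 ^ (k - 1) R' = R`; `tv x R' ∈ Z x` (`Tin`), `2 ^ k tv x R' = tv x (2 R) = 0` (`Fix`: `2 (2 R) = 0`). `#(T x) = 4` if `ι` is not empty: `tv x R` depends
only on `2 R ∈ V` (`Fix`, third statement), and `tv x R (inr i) = 2 R`. -/
def S_Dk1 : Prop :=
  ∀ {G N P ι : Type} [Group G] [TopologicalSpace G] [AddCommGroup N] [DistribMulAction G N]
    [Fintype ι] [DecidableEq ι] (D : DatL G N P), AxL D → ∀ (x : ι → P), D.Ok x →
    (∀ ν, ν ∈ D.Dk x 1 ↔ ν ∈ D.Z x ∧ 2 • ν = 0) ∧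
    (∀ k, 1 ≤ k → D.T x ≤ D.Dk x k) ∧
    (∀ k : ℕ, 1 ≤ k → D.Dk x (k + 1) ≤ D.Dk x k) ∧
    (∀ k : ℕ, 1 ≤ k → D.Dk x k ≤ D.Dk x 1) ∧
    (∀ k : ℕ, 1 ≤ k → Finite (D.Dk x k)) ∧ (Nonempty ι → Nat.card (D.T x) = 4) ∧
    (∀ N₀ : N, 2 • half N₀ = N₀) ∧ half (0 : N) = 0 ∧
    Function.Injective (D.pl x) ∧
    (∀ R R' : N, 4 • R = 0 → 4 • R' = 0 → 2 • R = 2 • R' → D.tv x R = D.tv x R') ∧
    (∀ ν ∈ D.T x, 2 • ν = 0)

/-- Module `ObR` (uses `S_Uq`, `S_Fix`, `S_Dk1`). PROOF. (1) `2 (η g) = tw g Q - Q` with `lm Q = ξ j = lm (2 R j)`, so `Q - 2 R j` is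
fixed and `2 η g = tw g (2 R j) - 2 R j`. (2) Let `R₀ = qr x j (ξ j)`, `u = R j - R₀`, `lm (2 u) = 0`, so `2 lm u = 0`. The summands for `R`
and `R₀` differ by `lp (fun g => tw g u - u) (coc x ν)`, `coc x ν g = tw g Q' - Q'`, `lm Q' = ν j`, `2 lm Q' = 0`: zero by `Fix` (isotropy). -/
def S_ObR : Prop :=
  ∀ {G N P ι : Type} [Group G] [TopologicalSpace G] [AddCommGroup N] [DistribMulAction G N]
    [Fintype ι] [DecidableEq ι] (D : DatL G N P), AxL D → ∀ (x : ι → P), D.Ok x →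
    ∀ (ξ : D.J ι → N) (η : G → N), D.IsH x ξ η → ∀ R : D.J ι → N,
    (∀ j, D.lm x j (2 • R j) = ξ j) →
    (∀ j g, g = D.tau (D.pl x j) ∨ g = D.phi (D.pl x j) →
      2 • (η g - (tw (D.chi x) g (R j) - R j)) = 0) ∧
    (∀ ν ∈ D.Dk x 1, D.ob x ξ η ν = ∑ j,
      D.lp (fun g => η g - (tw (D.chi x) g (R j) - R j)) (D.coc x ν) (D.pl x j))

/-- Module `ObA` (uses `S_Uq`, `MP72S.S_Rcv`, `S_Dk1`, `S_ObR`, `S_Fix`). As the old one; in (3) choose `R j` with `2 R j = Q` a local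
datum of `coc x ζ`: then `lm (2 R j) = ζ j`.. precisely: `coc x ζ` is a half of `2 ζ`; a local datum `Q` of `coc x ζ` satisfies
`lm (2 Q) = (2 ζ) j`, so `R j = Q` and the defects are zero: `ObR`. -/
def S_ObA : Prop :=
  ∀ {G N P ι : Type} [Group G] [TopologicalSpace G] [AddCommGroup N] [DistribMulAction G N]
    [Fintype ι] [DecidableEq ι] (D : DatL G N P), AxL D → ∀ (x : ι → P), D.Ok x →
    (∀ ξ (η : G → N), D.IsH x ξ η → ∀ ν ∈ D.Dk x 1, ∀ ν' ∈ D.Dk x 1,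
      D.ob x ξ η (ν + ν') = D.ob x ξ η ν + D.ob x ξ η ν') ∧
    (∀ ξ ξ' (η η' : G → N), D.IsH x ξ η → D.IsH x ξ' η' →
      D.IsH x (ξ + ξ') (fun σ => η σ + η' σ) ∧ ∀ ν ∈ D.Dk x 1,
        D.ob x (ξ + ξ') (fun σ => η σ + η' σ) ν = D.ob x ξ η ν + D.ob x ξ' η' ν) ∧
    (∀ ζ ∈ D.Z x, D.IsH x (2 • ζ) (D.coc x ζ) ∧ ∀ ν ∈ D.Dk x 1,
      D.ob x (2 • ζ) (D.coc x ζ) ν = 0) ∧
    (∀ ξ (η θ : G → N), D.IsH x ξ η → IsHo θ → (∀ v, v ∉ Set.range (D.pl x) → θ (D.tau v) = 0) →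
      D.IsH x ξ (fun σ => η σ + θ σ) ∧ ∀ ν ∈ D.Dk x 1,
        D.ob x ξ (fun σ => η σ + θ σ) ν = D.ob x ξ η ν) ∧
    (∀ ξ (η η' : G → N), D.IsH x ξ η → D.IsH x ξ η' → ∀ ν ∈ D.Dk x 1,
      D.ob x ξ η ν = D.ob x ξ η' ν)

/-- Module `Tre` (`T`-reciprocity; uses `S_Uq`, `S_Tin`, `S_Tai`, `S_Dk1`, `S_ObR`, `MP72S.S_Trl`). As the old one:
`ν = tv x r`, `4 r = 0`, `s = 2 r`, `coc x ν g = tw g r - r`. -/
def S_Tre : Prop :=
  ∀ {G N P ι : Type} [Group G] [TopologicalSpace G] [IsTopologicalGroup G] [AddCommGroup N]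
    [DistribMulAction G N] [Fintype ι] [DecidableEq ι] (D : DatL G N P), AxL D → Ax2 D.toDat →
    ∀ (x : ι → P), D.Ok x → ∀ ξ (η : G → N), D.IsH x ξ η → ∀ ν ∈ D.T x, D.ob x ξ η ν = 0

/-- Module `Dua` (duality; uses `MP72S.S_Hom`, `S_Tai`, `MP72S.S_Bas`, `S_Fix`, `MP72S.S_Rcv`, `S_Uq`, `S_Dk1`, `S_ObR`, `MP72S.S_LinD`). As
the old one; `L` = the image of `V^J` under `s ↦ (tw τ r - r, tw φ r - r)_j`, where `lm x j r = s j` (surjectivity; does not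
depend on the choice, additive and injective by `Fix` (1), values in `V` and isotropic by `Fix`). In the last step `ζ j = lm x j (R j + r j)`,
`R j = qr x j (ξ j)`, `lm x j (r j) = s' j`: `2 ζ j = lm (2 R j) + 2 s' j = ξ j`. -/
def S_Dua : Prop :=
  ∀ {G N P ι : Type} [Group G] [TopologicalSpace G] [AddCommGroup N]
    [DistribMulAction G N] [Fintype ι] [DecidableEq ι] (D : DatL G N P), AxL D →
    ∀ (x : ι → P), D.Ok x → ∀ ξ (η : G → N), D.IsH x ξ η → (∀ ν ∈ D.Dk x 1, D.ob x ξ η ν = 0) →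
    ∃ ζ ∈ D.Z x, 2 • ζ = ξ

/-- Module `Cou` (uses `S_Uq`, `MP72S.S_Bas`, `S_Dk1`, `S_ObA`). As the old one. -/
def S_Cou : Prop :=
  ∀ {G N P ι : Type} [Group G] [TopologicalSpace G] [AddCommGroup N] [DistribMulAction G N]
    [Fintype ι] [DecidableEq ι] (D : DatL G N P), AxL D → ∀ (x : ι → P), D.Ok x → ∀ k, 1 ≤ k →
    (D.O x k).Finite ∧ (D.O x k).ncard * Nat.card (D.Dk x k) ≤ Nat.card (D.Dk x 1)

/-- Module `Gam` (uses `S_Dk1`, `S_Cou`). As the old one. -/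
def S_Gam : Prop :=
  ∀ {G N P ι : Type} [Group G] [TopologicalSpace G] [AddCommGroup N] [DistribMulAction G N]
    [Fintype ι] [DecidableEq ι] [Nonempty ι] (D : DatL G N P), AxL D → ∀ (x : ι → P), D.Ok x →
    ∀ k, 1 ≤ k → 16 ≤ Nat.card (D.Dk x k) → ∀ f ∈ D.Dk x k, f ∉ D.T x →
    ∃ γ : (D.J ι → N) → ZMod 2, (∀ ν ∈ D.Dk x 1, ∀ ν' ∈ D.Dk x 1, γ (ν + ν') = γ ν + γ ν') ∧
      (∀ ν ∈ D.T x, γ ν = 0) ∧ γ f = 0 ∧ (∀ ν, ν ∉ D.Dk x 1 → γ ν = 0) ∧ γ ∉ D.O x k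

/-- Module `TyU` (uses `S_Uq`, `S_Fix`). PROOF. `R = Q - Q'` is fixed by `tw τ` and `tw φ`, so `lm R = 0`. -/
def S_TyU : Prop :=
  ∀ {G N P ι : Type} [Group G] [TopologicalSpace G] [AddCommGroup N] [DistribMulAction G N]
    [Fintype ι] [DecidableEq ι] (D : DatL G N P), AxL D → ∀ x : ι → P, D.Ok x →
    (∀ t t' (ψ : G → N), D.IsZ x t ψ → D.IsZ x t' ψ → t = t') ∧
    (∀ t ∈ D.Z x, t ≠ 0 → ∃ σ, D.coc x t σ ≠ 0)

/-- Module `SyG` (uses `MP72S.S_Alt`). As the old one. -/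
def S_SyG : Prop :=
  ∀ {G N P ι : Type} [Group G] [TopologicalSpace G] [AddCommGroup N] [DistribMulAction G N]
    [Fintype ι] [DecidableEq ι] (D : DatL G N P) (x y : ι → P) (U : Finset ι),
    (∀ w ⊆ U, D.Ok (mx x y w)) → (∀ i ∈ U, x i ≠ y i) → (∀ w ⊆ U, D.Sy (mx x y w) = D.Sy x) →
    D.Gd x y U

/-- Module `Sy1` (uses `MP72S.S_Hom`, `S_Uq`, `S_Tai`, `S_Dk1`, `S_Fix`). As the old one: `chi` agrees at `τ_s`, `φ_s`, `s ∈ S`, so
`lm x = lm y` and `T x = T y`; at `inl s` a local datum `Q` of `ψ` is a local datum of `θ` (same place, same values, same character);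
at `inr i` `4 Q = 2 t = 0` and `φ_(x i)`, `φ_(y i)` agree on `N[4]`. -/
def S_Sy1 : Prop :=
  ∀ {G N P ι : Type} [Group G] [TopologicalSpace G] [AddCommGroup N] [DistribMulAction G N]
    [Fintype ι] [DecidableEq ι] (D : DatL G N P), AxL D → ∀ x y : ι → P, D.Ok x → D.Ok y →
    D.Sy x = D.Sy y → D.Dk x 1 = D.Dk y 1 ∧
      (∀ t ∈ D.Dk x 1, ∀ s : N, 2 • s = 0 → (∃ σ, D.e (D.coc x t σ) s = 1) →
        ∃ σ, D.e (D.coc y t σ) s = 1) ∧ (∀ j, D.lm x j = D.lm y j) ∧ D.T x = D.T y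

/-- Module `Det` (uses `S_Uq`, `S_Tin`, `S_Dk1`, `S_ObA`, `S_Tre`, `S_Dua`, `S_Fix`). As the old one with `tv x r'` (`2 r' = r`) in place of the
constant type `r`; `tv x = tv x'` as `lm x = lm x'`. -/
def S_Det : Prop :=
  ∀ {G N P ι : Type} [Group G] [TopologicalSpace G] [IsTopologicalGroup G] [AddCommGroup N]
    [DistribMulAction G N] [Fintype ι] [DecidableEq ι] (D : DatL G N P), AxL D → Ax2 D.toDat →
    ∀ (x x' : ι → P), D.Ok x → D.Ok x' → D.Dk x 1 = D.Dk x' 1 → (∀ j, D.lm x j = D.lm x' j) →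
    ∀ I : Finset ι, I.Nonempty →
    (∀ ν ∈ D.Dk x 1, ∃ s : N, 2 • s = 0 ∧ ∀ i ∈ I, ν (Sum.inr i) = s) → ∀ K, 2 ≤ K →
    (∀ ξ : D.J ι → N, 2 ^ (K - 1) • ξ = 0 → (∀ i ∈ I, 2 ^ (K - 2) • ξ (Sum.inr i) = 0) →
      ((∃ η, D.IsH x ξ η) ↔ ∃ η, D.IsH x' ξ η) ∧ ∀ η η', D.IsH x ξ η → D.IsH x' ξ η' →
        ∀ ν ∈ D.Dk x 1, (∀ i ∈ I, ν (Sum.inr i) = 0) → D.ob x ξ η ν = D.ob x' ξ η' ν) →
    D.Dk x K = D.Dk x' K ∧ D.O x K = D.O x' K

/-- Module `O1` (uses `S_Dk1`, `S_ObA`). As the old one. -/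
def S_O1 : Prop :=
  ∀ {G N P ι : Type} [Group G] [TopologicalSpace G] [AddCommGroup N] [DistribMulAction G N]
    [Fintype ι] [DecidableEq ι] (D : DatL G N P), AxL D → ∀ x : ι → P, D.Ok x → D.O x 1 = {0}

/-! ### Block P (parity) -/

/-- Module `IsoE` (isotropy from the Weil pairings, 100 lines; uses `MP72S.S_EFa`, `MP72S.S_IvR`, `MP72S.S_Ivc`). PROOF. `Γ` = the
subgroup generated by `τ = tau v`, `φ = phi v`. `a g = tw χ g Q - Q`, `f g = tw χ g Q' - Q'` are cocycles, with values in `V` on `Γ` (`2 a` is a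
cocycle which vanishes at `τ`, `φ`). Let `2 ^ M Q = 0`, `M ≥ 1` (`prim`), `2 ^ (M - 1) Q₁ = Q'` (`dvs`), `w g = tw χ g Q₁ - Q₁`, so `2 ^ (M - 1) w g = f g` and
`2 ^ M w g = 0` on `Γ`. `l g = E M Q (w g)`. For `g, h ∈ Γ`: `w (g h) = w g + tw g (w h)`, `g • l h = E M (tw g Q) (tw g (w h))`, so
`l g + g • l h - l (g h) = E M (a g) (tw g (w h))`, and by `EFa` (b2) and `E_anti` (value in `{0, hf}`) this is `hf` or `0` according to
`e (2 ^ (M-1) tw g (w h)) (a g) = e (f h) (a g)` (`tw g (f h) = f h`). So the cochain of `S_Ivc` for `a`, `f` is a coboundary on `Γ`; by `IvR` its `iv`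
vanishes, and `Ivc` gives the claim (`hf ≠ 0`). -/
def S_IsoE : Prop :=
  ∀ {G N P R : Type} [Group G] [TopologicalSpace G] [AddCommGroup N] [DistribMulAction G N]
    [AddCommGroup R] [DistribMulAction G R] (D : Dat G N P) (E : ℕ → N → N → R) (hf : R),
    Ax D → Ax3 D E hf → ∀ (v : P) (χ : G → ZMod 2), (∀ σ τ, χ (σ * τ) = χ σ + χ τ) → ∀ Q Q' : N,
    2 • (tw χ (D.tau v) Q - Q) = 0 → 2 • (tw χ (D.phi v) Q - Q) = 0 →
    2 • (tw χ (D.tau v) Q' - Q') = 0 → 2 • (tw χ (D.phi v) Q' - Q') = 0 →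
    D.e (tw χ (D.tau v) Q - Q) (tw χ (D.phi v) Q' - Q') +
      D.e (tw χ (D.phi v) Q - Q) (tw χ (D.tau v) Q' - Q') = 0

/-- Module `Qka` (variant of `MP72S.S_Qka` (1), `Sm/P/Qka.lean`, without a condition on the order of `Q`; uses `MP72S.S_EFa`). PROOF. `x g = tw g Q - Q`,
`2 ^ (m+1) x g = 0` on `Γ`. Let `2 ^ M Q = 0`, `M ≥ m + 1` (`prim`), `2 ^ (M-m-1) Q₁ = Q` (`dvs`), `w g = tw g Q₁ - Q₁`: `2 ^ (M-m-1) w g = x g`,
`2 ^ M w g = 0` on `Γ`. `l g = E M Q (w g)`. As in `IsoE` `l g + g • l h - l (g h) = E M (x g) (tw g (w h)) = E (m+1) (x g) (2 ^ (M-m-1) tw g (w h))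
= E (m+1) (x g) (tw g (x h))` (`EFa` (b1), iterated), and this is `qx (g, h)` as `x (g h) = x g + tw g (x h)` (the second term is
`E _ 0 = 0`). -/
def S_Qka : Prop :=
  ∀ {G N P R : Type} [Group G] [TopologicalSpace G] [AddCommGroup N]
    [DistribMulAction G N] [AddCommGroup R] [DistribMulAction G R] (D : Dat G N P)
    (E : ℕ → N → N → R) (hf : R), Ax D → Ax3 D E hf → ∀ m, 2 ≤ m → ∀ (χ : G → ZMod 2),
    (∀ σ τ, χ (σ * τ) = χ σ + χ τ) → ∀ (Γ : Subgroup G) (Q : N),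
    (∀ g ∈ Γ, 2 ^ (m + 1) • (tw χ g Q - Q) = 0) →
      ∃ l : G → R, ∀ g ∈ Γ, ∀ h ∈ Γ,
        qx E m χ (fun σ => tw χ σ Q - Q) g h = l g + g • l h - l (g * h)

/-- Module `Qlo` (variant of `MP72S.S_Qlo`, `Sm/P/Qlo.lean`, without the hypothesis `2 ^ (m + 1) • Q = 0`; uses the same statements and
`S_Qka` for `R = half Q`: `2 ^ (m+1) (tw g R - R) = 2 ^ m (tw g Q - Q) = 2 ^ m η g - 2 ^ m a g = 0` on `Γ`). -/
def S_Qlo : Prop :=
  ∀ {G N P R : Type} [Group G] [TopologicalSpace G] [AddCommGroup N]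
    [DistribMulAction G N] [AddCommGroup R] [DistribMulAction G R] (D : Dat G N P)
    (E : ℕ → N → N → R) (hf : R), Ax D → Ax3 D E hf → ∀ m, 2 ≤ m → ∀ (χ : G → ZMod 2),
    (∀ σ τ, χ (σ * τ) = χ σ + χ τ) → ∀ (v : P) (a η : G → N) (Q : N), IsCo χ η → IsCo χ a →
    2 • a (D.tau v) = 0 → 2 • a (D.phi v) = 0 → (∀ g, η g = tw χ g Q - Q + a g) →
    (∀ g, 2 ^ m • η g = 0) →
    D.iv (qx E m χ fun g => half (η g)) v =
      if D.e (a (D.tau v)) (2 ^ (m - 1) • η (D.phi v)) +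
        D.e (a (D.phi v)) (2 ^ (m - 1) • η (D.tau v)) = 0 then 0 else hf

/-- Module `AltP` (uses `S_Uq`, `S_Tai`, `S_Dk1`, `S_ObR`, `MP72S.S_EFa`, `MP72S.S_IvR`, `MP72S.S_Qc2`, `S_Qlo`). As the old one with
`Q = qr x j (ξ j)` in place of `quar (ξ j)`. -/
def S_AltP : Prop :=
  ∀ {G N P ι R : Type} [Group G] [TopologicalSpace G] [IsTopologicalGroup G] [AddCommGroup N]
    [DistribMulAction G N] [Fintype ι] [DecidableEq ι] [AddCommGroup R] [DistribMulAction G R]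
    (D : DatL G N P) (E : ℕ → N → N → R) (hf : R), AxL D → Ax3 D.toDat E hf → ∀ x : ι → P, D.Ok x →
    ∀ (k : ℕ) ξ (η : G → N), 2 ^ (k + 1) • ξ = 0 → D.IsH x ξ η →
    D.ob x ξ η (2 ^ k • ξ) = 0

/-- Module `Hlf` (uses `MP72S.S_Hom`, `S_Uq`, `S_Tai`, `MP72S.S_Bas`, `S_Dk1`, `MP72S.S_Trl`). As the old one. -/
def S_Hlf : Prop :=
  ∀ {G N P ι : Type} [Group G] [TopologicalSpace G] [IsTopologicalGroup G] [AddCommGroup N]
    [DistribMulAction G N] [Fintype ι] [DecidableEq ι] (D : DatL G N P), AxL D → Ax2 D.toDat →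
    ∀ x : ι → P, D.Ok x → ∀ ξ ∈ D.Z x, ∃ η : G → N, D.IsH x ξ η

/-- Module `Rad` (uses `S_Uq`, `MP72S.S_Bas`, `S_Dk1`, `S_ObA`, `S_Dua`, `S_AltP`, `S_Hlf`, `MP72S.S_AltE`). As the old one. -/
def S_Rad : Prop :=
  ∀ {G N P ι R : Type} [Group G] [TopologicalSpace G] [IsTopologicalGroup G] [AddCommGroup N]
    [DistribMulAction G N] [Fintype ι] [DecidableEq ι] [AddCommGroup R] [DistribMulAction G R]
    (D : DatL G N P) (E : ℕ → N → N → R) (hf : R), AxL D → Ax2 D.toDat → Ax3 D.toDat E hf →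
    ∀ x : ι → P, D.Ok x → ∀ k, 1 ≤ k →
    ∃ r : ℕ, Nat.card (D.Dk x k) = 4 ^ r * Nat.card (D.Dk x (k + 1))

/-- Module `Evn` (uses `S_Dk1`, `S_Rad`). As the old one; second statement: `#(Dk x 1) = 4 ^ s #(Dk x L)` by `Rad` and induction, `T x ≤ Dk x L` and
`#(Dk x L) < 16`, so `#(Dk x L)` is `4` or `8`. -/
def S_Evn : Prop :=
  ∀ {G N P ι R : Type} [Group G] [TopologicalSpace G] [IsTopologicalGroup G] [AddCommGroup N]
    [DistribMulAction G N] [Fintype ι] [DecidableEq ι] [Nonempty ι] [AddCommGroup R]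
    [DistribMulAction G R] (D : DatL G N P) (E : ℕ → N → N → R) (hf : R), AxL D → Ax2 D.toDat →
    Ax3 D.toDat E hf → ∀ x : ι → P, D.Ok x → ∀ L, 1 ≤ L → Nat.card (D.Dk x L) < 16 →
    ((∃ r : ℕ, Nat.card (D.Dk x 1) = 4 ^ r) → D.Dk x L = D.T x) ∧ Nat.card (D.Dk x L) ≤ 8

end Pool.Agent.MP72B
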