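import Pool.Agent.Lib.MP_72e2e6_nt.Sm.B.SpecN
import Pool.Agent.Lib.MP_72e2e6_nt.Sm.B.Pat
import Pool.Agent.Lib.MP_72e2e6_nt.Sm.N.SpecB

/-!
# MP_72e2e6_nt, `Sm/B`: statements with proofs, part B (the bridge to the counting theorem)

`S_X` here is the statement `MP72S.S_X` of `Sm/Br/Spec.lean`, `Sm/N/SpecB.lean` for `DatL`, `AxL`. THE PROOFS ARE THE
PROOFS THERE (files `Sm/Br/X.lean`, `Sm/N/X.lean`: copy and change). File `Sm/B/X.lean` (import this file only) with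
`theorem tX : S_Y → .. → S_X`, namespace `Pool.Agent.MP72B` (with `open Finset Pool.Agent.MP72S`), all other
declarations `private`. `S_Y` is the statement of `Sm/B` if there is one, and `MP72S.S_Y` means the old statement
(`MP72S.S_Cf`, `S_Spt`, `S_Hgr`, `S_Com`, `S_Rat`, `S_IdxE`, `S_VCrd`, `Cnt.S_Min2` do not contain types; apply them to `D.toDat`). CHANGES:
`D.Dk x 1 = Lam` is completed by `D.T x = Tx` (the torsion types `Tx` of the cell; `T` depends only on the symbols, `S_Sy1`),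
`D.Pat z b K` in place of `D.Pat (D.Dk z 1) b K`, and a constant type `fun _ => s` is replaced by `D.tv x R`, `4 R = 0`, `2 R = s`:
`D.tv x R (inr i) = 2 • R` (by `rfl`), `D.tv x R ∈ D.T x ≤ D.Dk x k` (`S_Dk1`). `D.ST`, `D.Gp`, `D.cod`, `D.GV`, `D.FewL`, `D.Sy`, `D.kap` are the
definitions for `D.toDat`; all the others are the definitions for `DatL` below.
-/

namespace Pool.Agent.MP72B

open Finset Pool.Agent.MP72S
open Pool.Agent.Lib.MP_72e2e6_nt.Sm.Cnt (vtx Corner CodingData)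

section

variable {G N P : Type} [Group G] [TopologicalSpace G] [AddCommGroup N] [DistribMulAction G N]
  (D : DatL G N P) {ι : Type} [Fintype ι] [DecidableEq ι] {M : ℕ}

/-- The state of a configuration. -/
def DatL.IsSt (K : ℕ) (z : ι → P) (s : D.ST ι) : Prop :=
  D.Sy z = s.1 ∧ D.Dk z K = s.2.1 ∧ D.O z K = s.2.2

/-- Admissible grids; `S` are the sets of primes. -/
structure DatL.Gok (S : ι → Finset P) (g : Grd P ι M) : Prop where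
  hb : g.b ∉ g.I
  inj : Function.Injective g.e
  mem : ∀ k, g.e k ∈ S k.1.1
  avd : ∀ k j, j ∉ g.I → j ≠ g.b → g.e k ≠ g.R j
  nS : ∀ i, i ≠ g.b → ∀ v ∈ S i, v ∉ D.S
  ok : ∀ z ∈ tup S, D.Ok z

/-- The choices: `Lam` = the `2`-Selmer types of the state, `Tx` the torsion types, `f` the element which
should lift, `γ` a functional outside `O`, `t' ∈ V`; the patterns of the indices in `I`. -/
structure DatL.Cho (I : Finset ι) (b : ι) (K : ℕ) (s : D.ST ι) (Lam Tx : AddSubgroup (D.J ι → N))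
    (f : D.J ι → N) (γ : (D.J ι → N) → ZMod 2) (t' : N) : Prop where
  cK : #I = K
  hK : 1 ≤ K
  hb : b ∉ I
  two : 2 • t' = 0
  lam2 : ∀ ν ∈ Lam, 2 • ν = 0
  TL : Tx ≤ Lam
  fL : f ∈ Lam
  fb : f (Sum.inr b) = 0
  fI : ∀ i ∈ I, f (Sum.inr i) = 0
  add : ∀ ν ∈ Lam, ∀ ν' ∈ Lam, γ (ν + ν') = γ ν + γ ν'
  gT : ∀ ν ∈ Tx, γ ν = 0
  g0 : ∀ ν, ν ∉ Lam → γ ν = 0
  gO : γ ∉ s.2.2
  com : ∀ ν ∈ Lam, ∃ u : N, 2 • u = 0 ∧ ∀ i ∈ I, ν (Sum.inr i) = u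
  pat : ∀ ν ∈ Lam, (∀ i ∈ I, ν (Sum.inr i) = 0) → ν (Sum.inr b) = if γ ν = 0 then 0 else t'

/-- The points where the state is right. -/
def DatL.Zp (S : ι → Finset P) (g : Grd P ι M) (K : ℕ) (s : D.ST ι) (c : P)
    (p : {i // i ∈ g.I} → Fin M) : Prop :=
  g.cf c p ∈ tup S ∧ D.IsSt K (g.cf c p) s

/-- The points where moreover `f` lifts. -/
def DatL.Yp (S : ι → Finset P) (g : Grd P ι M) (K : ℕ) (s : D.ST ι) (f : D.J ι → N) (c : P)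
    (p : {i // i ∈ g.I} → Fin M) : Prop :=
  D.Zp S g K s c p ∧ f ∈ D.Dk (g.cf c p) (K + 1)

/-- `v` is the value at `(c, p)` for the recorded value `θ`. -/
structure DatL.Gv (g : Grd P ι M) (K : ℕ) (Lam : AddSubgroup (D.J ι → N)) (Ξ : Finset (D.J ι))
    (θ : D.J ι → N) (c : P) (p : {i // i ∈ g.I} → Fin M) (v : D.GV K Lam) : Prop where
  rc : ∀ k ∈ Ξ, v.1.1 k = θ k
  hf : ∃ η, D.IsH (g.cf c p) v.1.1 η
  ob : ∀ η, D.IsH (g.cf c p) v.1.1 η → ∀ ν : {ν : D.J ι → N // ν ∈ Lam},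
    (∀ i ∈ g.I, ν.1 (Sum.inr i) = 0) → v.2 ν = D.ob (g.cf c p) v.1.1 η ν.1
  ob0 : ∀ ν : {ν : D.J ι → N // ν ∈ Lam}, ¬ (∀ i ∈ g.I, ν.1 (Sum.inr i) = 0) → v.2 ν = 0

open Classical in
/-- The partial functions: the type of a half with the recorded value `θ`, and its functional. -/
noncomputable def DatL.gfx (S : ι → Finset P) (g : Grd P ι M) (s : D.ST ι) (K : ℕ)
    (Lam : AddSubgroup (D.J ι → N)) (Ξ : Finset (D.J ι)) (θ : D.J ι → N) (c : P)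
    (p : {i // i ∈ g.I} → Fin M) : Option (D.GV K Lam) :=
  if h : D.Gp S g s c p ∧ ∃ v, D.Gv g K Lam Ξ θ c p v then some h.2.choose else none

/-- The points where `f` lifts and there is a liftable type `2 t` over `f` with recorded value `θ`. -/
def DatL.Lq (S : ι → Finset P) (g : Grd P ι M) (K : ℕ) (s : D.ST ι) (f : D.J ι → N)
    (Ξ : Finset (D.J ι)) (θ : D.J ι → N) (c : P) (p : {i // i ∈ g.I} → Fin M) : Prop :=
  D.Yp S g K s f c p ∧ ∃ t ∈ D.Z (g.cf c p), 2 ^ (K - 1) • (2 • t) = f ∧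
    ∀ k ∈ Ξ, 2 • t k = θ k

end

/-- Module `Gdc` (`Br/Gdc.lean`): `S_SyG → MP72S.S_Cf → S_Gdc`. -/
def S_Gdc : Prop :=
  ∀ {G N P ι : Type} [Group G] [TopologicalSpace G] [AddCommGroup N] [DistribMulAction G N]
    [Fintype ι] [DecidableEq ι] {M : ℕ} (D : DatL G N P) (S : ι → Finset P) (g : Grd P ι M)
    (s : D.ST ι), D.Gok S g → ∀ (c c' : P) (x p : {i // i ∈ g.I} → Fin M), (∀ i, x i < p i) →
    ((∀ w, D.Gp S g s c (vtx x p w)) → D.Gd (g.cf c p) (g.cf c x) g.I) ∧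
    (c ≠ c' → (∀ w, D.Gp S g s c (vtx x p w)) → (∀ w, D.Gp S g s c' (vtx x p w)) →
      D.Gd (g.cf c' p) (g.cf c x) (insert g.b g.I))

/-- Module `Dom` (`Br/Dom.lean`): `MP72S.S_Sym → MP72S.S_Cf → S_Dom`. Only `Ok.nS` and the axioms of `D.toDat` are used. -/
def S_Dom : Prop :=
  ∀ {G N P ι : Type} [Group G] [TopologicalSpace G] [AddCommGroup N] [DistribMulAction G N]
    [Fintype ι] [DecidableEq ι] {M : ℕ} (D : DatL G N P), AxL D → ∀ (S : ι → Finset P)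
    (g : Grd P ι M) (s : D.ST ι), D.Gok S g → ∀ c c' : P, D.cod S g s c = D.cod S g s c' →
    ∀ p, D.Gp S g s c p → D.Gp S g s c' p

/-- Module `Coe` (`Br/Coe.lean`): `MP72S.S_Hom → S_Uq → S_Tai → S_Lfx → S_Sy1 → MP72S.S_Cf → S_Coe`. The local data `Q`, `Q'` at a common place
`pl j` satisfy `lm (cf c p) j Q = ν j = lm (cf c' p') j Q'`, and `lm (cf c p) j = lm (cf c' p') j` by `Sy1` (both points have the symbols
`s.1`), so `Lfx` applies. -/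
def S_Coe : Prop :=
  ∀ {G N P ι : Type} [Group G] [TopologicalSpace G] [AddCommGroup N] [DistribMulAction G N]
    [Fintype ι] [DecidableEq ι] {M : ℕ} (D : DatL G N P), AxL D → ∀ (S : ι → Finset P)
    (g : Grd P ι M) (s : D.ST ι), D.Gok S g → ∀ (c c' : P) (p p' : {i // i ∈ g.I} → Fin M),
    D.Gp S g s c p → D.Gp S g s c' p' → ∀ ν : D.J ι → N, 2 • ν = 0 → ν ∈ D.Z (g.cf c p) →
    ν ∈ D.Z (g.cf c' p') → ν (Sum.inr g.b) = 0 → (∀ i ∈ g.I, ν (Sum.inr i) = 0) →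
    ∀ σ, D.coc (g.cf c p) ν σ = D.coc (g.cf c' p') ν σ

/-- Module `Chs` (`Br/Chs.lean`): `S_Gam → S_TyU → S_Dk1 → S_Uq → MP72S.S_Bas → S_Chs`. Let `2 R = f (inr b)` (`dvs`); `4 R = 0`. `f₀ = f - tv z₀ R`,
`tv z₀ R ∈ T z₀`. (`T z = T z₀` for the last claim.) -/
def S_Chs : Prop :=
  ∀ {G N P ι : Type} [Group G] [TopologicalSpace G] [AddCommGroup N] [DistribMulAction G N]
    [Fintype ι] [DecidableEq ι] (D : DatL G N P), AxL D → ∀ (b : ι) (K : ℕ), 1 ≤ K →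
    ∀ (s : D.ST ι) (z₀ : ι → P), D.Ok z₀ → D.IsSt K z₀ s → 16 ≤ Nat.card s.2.1 →
    D.Pat z₀ b K → ∀ f ∈ s.2.1, f ∉ D.T z₀ →
    ∃ (I : Finset ι) (f₀ : D.J ι → N) (γ : (D.J ι → N) → ZMod 2) (t' : N),
      D.Cho I b K s (D.Dk z₀ 1) (D.T z₀) f₀ γ t' ∧ (∃ σ, D.e (D.coc z₀ f₀ σ) t' = 1) ∧
      ∀ z : ι → P, D.Ok z → D.T z = D.T z₀ → ∀ k, 1 ≤ k → (f ∈ D.Dk z k ↔ f₀ ∈ D.Dk z k)

/-- Module `VGfx` (`N/VGfx.lean`): `S_ObA → S_TyX → S_VGfx`. -/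
def S_VGfx : Prop :=
  ∀ {G N P ι : Type} [Group G] [TopologicalSpace G] [AddCommGroup N] [DistribMulAction G N]
    [Fintype ι] [DecidableEq ι] {M : ℕ} (D : DatL G N P), AxL D → ∀ (S : ι → Finset P)
    (g : Grd P ι M) (s : D.ST ι), D.Gok S g → ∀ (K : ℕ) (Lam : AddSubgroup (D.J ι → N))
    (Ξ : Finset (D.J ι)), (∀ c p, D.Gp S g s c p → D.Dk (g.cf c p) 1 = Lam) →
    (∀ c p, D.Gp S g s c p → D.Sep (g.cf c p) (insert g.b g.I) Ξ) → ∀ (θ : D.J ι → N) (c : P)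
    (p : {i // i ∈ g.I} → Fin M),
    (∀ v, D.gfx S g s K Lam Ξ θ c p = some v → D.Gp S g s c p ∧ D.Gv g K Lam Ξ θ c p v) ∧
    (D.Gp S g s c p → ∀ (ξ : D.J ι → N) (η : G → N), 2 ^ (K - 1) • ξ = 0 →
      (∀ k ∈ Ξ, ξ k = θ k) → D.IsH (g.cf c p) ξ η →
      ∃ v, D.gfx S g s K Lam Ξ θ c p = some v ∧ v.1.1 = ξ) ∧
    (D.Gp S g s c p → ∀ v v', D.Gv g K Lam Ξ θ c p v → D.Gv g K Lam Ξ θ c p v' → v = v')

/-- Module `VHg` (`N/VHg.lean`): `S_VLemE → S_ObA → MP72S.S_Cf → S_Gdc → S_VGfx → S_VHg`. -/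
def S_VHg : Prop :=
  ∀ {G N P ι : Type} [Group G] [TopologicalSpace G] [AddCommGroup N] [DistribMulAction G N]
    [Fintype ι] [DecidableEq ι] {M : ℕ} (D : DatL G N P), AxL D → ∀ (S : ι → Finset P)
    (g : Grd P ι M) (s : D.ST ι), D.Gok S g → ∀ (Lam : AddSubgroup (D.J ι → N))
    (Ξ : Finset (D.J ι)), (∀ c p, D.Gp S g s c p → D.Dk (g.cf c p) 1 = Lam) →
    (∀ c p, D.Gp S g s c p → D.Sep (g.cf c p) (insert g.b g.I) Ξ) → ∀ θ : D.J ι → N, 2 ≤ #g.I →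
    (∀ i ∈ g.I, 2 ^ (#g.I - 2) • θ (Sum.inr i) = 0) →
    ∀ (c c' : P) (x p : {i // i ∈ g.I} → Fin M), (∀ i, x i < p i) →
    (∀ w, D.Gp S g s c (vtx x p w)) → (∀ w, D.Gp S g s c' (vtx x p w)) →
    (∀ w, w ≠ (fun _ => true) → D.gfx S g s #g.I Lam Ξ θ c (vtx x p w) ≠ none ∧
      D.gfx S g s #g.I Lam Ξ θ c (vtx x p w) = D.gfx S g s #g.I Lam Ξ θ c' (vtx x p w)) →
    D.gfx S g s #g.I Lam Ξ θ c p = D.gfx S g s #g.I Lam Ξ θ c' p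

/-- Module `VHz` (`N/VHz.lean`): `S_Det → S_O1 → S_ObA → S_Dom → S_Sy1 → S_VGfx → S_VHz`. `Det` has the additional hypothesis
`∀ j, lm x j = lm x' j`: `Sy1`. -/
def S_VHz : Prop :=
  ∀ {G N P ι : Type} [Group G] [TopologicalSpace G] [IsTopologicalGroup G] [AddCommGroup N]
    [DistribMulAction G N] [Fintype ι] [DecidableEq ι] {M : ℕ} (D : DatL G N P), AxL D →
    Ax2 D.toDat → ∀ (S : ι → Finset P) (g : Grd P ι M) (s : D.ST ι), D.Gok S g → ∀ (K : ℕ)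
    (Lam Tx : AddSubgroup (D.J ι → N)) (f : D.J ι → N) (γ : (D.J ι → N) → ZMod 2) (t' : N)
    (Ξ : Finset (D.J ι)), D.Cho g.I g.b K s Lam Tx f γ t' →
    (∀ c p, D.Gp S g s c p → D.Dk (g.cf c p) 1 = Lam ∧ D.T (g.cf c p) = Tx) →
    (∀ c p, D.Gp S g s c p → D.Sep (g.cf c p) (insert g.b g.I) Ξ) →
    ∀ (c c' : P), D.cod S g s c = D.cod S g s c' →
    (∀ θ : D.J ι → N, 2 ≤ K → 2 ^ (K - 1) • θ = 0 → (∀ k, k ∉ Ξ → θ k = 0) →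
      (∀ i ∈ g.I, 2 ^ (K - 2) • θ (Sum.inr i) = 0) →
      D.gfx S g s K Lam Ξ θ c = D.gfx S g s K Lam Ξ θ c') → ∀ p, D.Zp S g K s c p → D.Zp S g K s c' p

/-- Module `VHl` (`N/VHl.lean`): `S_VRulL → MP72S.S_Cf → S_Gdc → S_VHl`. (`VRulL`: `∀ ν ∈ D.T x, γ ν = 0` is `Cho.gT`, `D.T x = Tx`.) -/
def S_VHl : Prop :=
  ∀ {G N P ι : Type} [Group G] [TopologicalSpace G] [IsTopologicalGroup G] [AddCommGroup N]
    [DistribMulAction G N] [Fintype ι] [DecidableEq ι] {M : ℕ} (D : DatL G N P), AxL D →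
    Ax2 D.toDat → ∀ (S : ι → Finset P) (g : Grd P ι M) (s : D.ST ι), D.Gok S g → ∀ (K : ℕ)
    (Lam Tx : AddSubgroup (D.J ι → N)) (f : D.J ι → N) (γ : (D.J ι → N) → ZMod 2) (t' : N)
    (Ξ : Finset (D.J ι)), D.Cho g.I g.b K s Lam Tx f γ t' →
    (∀ c p, D.Gp S g s c p → D.Dk (g.cf c p) 1 = Lam ∧ D.T (g.cf c p) = Tx) →
    (∀ c p, D.Gp S g s c p → D.Sep (g.cf c p) (insert g.b g.I) Ξ) →
    ∀ (θ : D.J ι → N) (c c' : P) (x p : {i // i ∈ g.I} → Fin M),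
    (∀ i, x i < p i) → (∀ w, D.Yp S g K s f c (vtx x p w)) →
    (∀ w, D.Yp S g K s f c' (vtx x p w)) →
    (∀ w, w ≠ (fun _ => true) → D.Lq S g K s f Ξ θ c (vtx x p w) ∧
      D.Lq S g K s f Ξ θ c' (vtx x p w)) → D.Lq S g K s f Ξ θ c p → D.Lq S g K s f Ξ θ c' p

/-- Module `VPv` (`N/VPv.lean`): `S_VFac → S_VPsi0 → S_VStr0 → S_VStar → S_Tin → S_Uq → S_Dk1 → S_ObA → MP72S.S_Cf → S_Gdc → S_VPv`. `VStr0` (second
part) gives `R`, `4 R = 0`: `t X = t₀ X + tv X R`, `2 tv X R = 0` and `tv X R ∈ Z X` (`Dk1`: `T X ≤ Dk X 1`). The element `ν ∈ Lam` with `ν = 0` on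
`I`, `γ ν = 1`: subtract `tv X R'` with `2 R' = u` (`com`) from an element with `γ = 1`, `γ` vanishes on `tv X R' ∈ T X = Tx` (`gT`). -/
def S_VPv : Prop :=
  ∀ {G N P ι : Type} [Group G] [TopologicalSpace G] [IsTopologicalGroup G] [AddCommGroup N]
    [DistribMulAction G N] [Fintype ι] [DecidableEq ι] {M : ℕ} (D : DatL G N P), AxL D →
    Ax2 D.toDat → ∀ (S : ι → Finset P) (g : Grd P ι M) (s : D.ST ι), D.Gok S g → ∀ (K : ℕ)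
    (Lam Tx : AddSubgroup (D.J ι → N)) (f : D.J ι → N) (γ : (D.J ι → N) → ZMod 2) (t' : N)
    (Ξ : Finset (D.J ι)), D.Cho g.I g.b K s Lam Tx f γ t' →
    (∀ c p, D.Gp S g s c p → D.Dk (g.cf c p) 1 = Lam ∧ D.T (g.cf c p) = Tx) →
    (∀ c p, D.Gp S g s c p → D.Sep (g.cf c p) (insert g.b g.I) Ξ) →
    ∀ (θ : D.J ι → N) (c₀ : P) (x p : {i // i ∈ g.I} → Fin M),
    (∀ i, x i < p i) → (∀ w, D.Lq S g K s f Ξ θ c₀ (vtx x p w)) → ∀ A : Finset P, D.S ⊆ A →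
    (∀ k, g.e k ∈ A) → (∀ j, j ∉ g.I → j ≠ g.b → g.R j ∈ A) →
    ∃ F : Finset ι → G → N,
      Sys g.I (fun i σ => if i ∈ g.I then D.ch (g.cf c₀ p i) σ + D.ch (g.cf c₀ x i) σ else 0) F ∧
      (∀ U ⊆ g.I, IsLocallyConstant (F U) ∧ ∀ v, v ∉ A → F U (D.tau v) = 0) ∧
      (∀ U, ¬ U ⊆ g.I → F U = 0) ∧ (∀ σ, F ∅ σ = D.coc (g.cf c₀ p) f σ) ∧
      ∀ c, (∀ w, D.Lq S g K s f Ξ θ c (vtx x p w)) →
        D.phi c ∈ sysK g.I (fun i σ => if i ∈ g.I then D.ch (g.cf c₀ p i) σ +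
          D.ch (g.cf c₀ x i) σ else 0) F ∧ D.e (F g.I (D.phi c)) t' = 0

/-- Module `VCls` (`N/VCls.lean`): `MP72S.S_Com → MP72S.S_Rat → MP72S.S_Hgr → S_VPv → MP72S.S_IdxE → S_Coe → S_Tai → S_Uq → S_Dk1 → MP72S.S_Cf →
S_VCls`. -/
def S_VCls : Prop :=
  ∀ {G N P ι : Type} [Group G] [TopologicalSpace G] [IsTopologicalGroup G] [AddCommGroup N]
    [DistribMulAction G N] [Fintype ι] [DecidableEq ι] {M : ℕ} (D : DatL G N P)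
    (Gb : Subgroup G), AxL D → Ax2 D.toDat → (∀ v, D.tau v ∈ Gb) →
    (∀ σ τ : G, σ * τ * σ⁻¹ * τ⁻¹ ∈ Gb) →
    ∀ (S : ι → Finset P) (g : Grd P ι M) (s : D.ST ι), D.Gok S g → ∀ (K : ℕ)
    (Lam Tx : AddSubgroup (D.J ι → N)) (f : D.J ι → N) (γ : (D.J ι → N) → ZMod 2) (t' : N)
    (Ξ : Finset (D.J ι)), D.Cho g.I g.b K s Lam Tx f γ t' →
    (∀ c p, D.Gp S g s c p → D.Dk (g.cf c p) 1 = Lam ∧ D.T (g.cf c p) = Tx) →
    (∀ c p, D.Gp S g s c p → D.Sep (g.cf c p) (insert g.b g.I) Ξ) →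
    (∀ c p, D.Zp S g K s c p → ∃ σ, D.e (D.coc (g.cf c p) f σ) t' = 1) →
    ∀ A : Finset P, D.S ⊆ A → (∀ k, g.e k ∈ A) → (∀ j, j ∉ g.I → j ≠ g.b → g.R j ∈ A) →
    ∀ Λ : ℕ, D.FewL Gb A (idB K M) Λ (S g.b) →
    ∀ c₀ : P, ({c ∈ S g.b | D.cod S g s c = D.cod S g s c₀ ∧
        ∀ θ : D.J ι → N, D.Lq S g K s f Ξ θ c = D.Lq S g K s f Ξ θ c₀} : Set P).ncard *
      2 ^ Nat.card {p : {i // i ∈ g.I} → Fin M //
        ∃ θ : D.J ι → N, Corner (D.Lq S g K s f Ξ θ c₀) p} *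
      (2 ^ (K * M) * ((K * M + 1) * 2)) ≤ Λ * 2 ^ (2 * K + 1) * (K * M + 1) * #(S g.b)

/-- Module `VDat` (`N/VDat.lean`): `S_Dom → S_VHg → S_VHz → S_VHl → S_VCls → MP72S.S_VCrd → S_VGfx → S_VDat`. -/
def S_VDat : Prop :=
  ∀ {G N P ι : Type} [Group G] [TopologicalSpace G] [IsTopologicalGroup G] [AddCommGroup N]
    [DistribMulAction G N] [Fintype ι] [DecidableEq ι] {M : ℕ} (D : DatL G N P)
    (Gb : Subgroup G), AxL D → Ax2 D.toDat → (∀ v, D.tau v ∈ Gb) →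
    (∀ σ τ : G, σ * τ * σ⁻¹ * τ⁻¹ ∈ Gb) →
    ∀ (S : ι → Finset P) (g : Grd P ι M) (s : D.ST ι), D.Gok S g → ∀ (K : ℕ)
    (Lam Tx : AddSubgroup (D.J ι → N)) (f : D.J ι → N) (γ : (D.J ι → N) → ZMod 2) (t' : N)
    (Ξ : Finset (D.J ι)), Finite Lam → D.Cho g.I g.b K s Lam Tx f γ t' →
    (∀ c p, D.Gp S g s c p → D.Dk (g.cf c p) 1 = Lam ∧ D.T (g.cf c p) = Tx) →
    (∀ c p, D.Gp S g s c p → D.Sep (g.cf c p) (insert g.b g.I) Ξ) →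
    (∀ c p, D.Zp S g K s c p → ∃ σ, D.e (D.coc (g.cf c p) f σ) t' = 1) →
    ∀ A : Finset P, D.S ⊆ A → (∀ k, g.e k ∈ A) → (∀ j, j ∉ g.I → j ≠ g.b → g.R j ∈ A) →
    ∀ Λ : ℕ, D.FewL Gb A (idB K M) Λ (S g.b) →
    ∃ (𝒜 T1 T2 V : Type) (_ : Fintype 𝒜) (_ : Fintype T1) (_ : Fintype T2) (_ : Fintype V)
      (C : CodingData {i // i ∈ g.I} M {c // c ∈ S g.b} 𝒜 T1 T2 V
        (Λ * 2 ^ (2 * K + 1) * (K * M + 1))),
      Fintype.card T1 ≤ 4 ^ (K * #Ξ) ∧ Fintype.card T2 ≤ 4 ^ (K * #Ξ) ∧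
      Fintype.card V ≤ 4 ^ (K * Fintype.card (D.J ι)) * 2 ^ Nat.card Lam ∧
      (∀ b w, w ∈ C.Z b ↔ D.Zp S g K s b.1 w) ∧ ∀ b w, w ∈ C.Y b ↔ D.Yp S g K s f b.1 w

/-- Module `VCell` (`N/VCell.lean`): `MP72S.S_Cf → MP72S.S_Spt → S_Sy1 → S_SepS → S_Thx → S_VDat → Cnt.S_Min2 → S_VCell`. -/
def S_VCell : Prop :=
  ∀ K d e : ℕ, 1 ≤ K → ∃ E L₀ : ℕ, ∀ L : ℕ, L₀ ≤ L →
  ∀ {G N P ι : Type} [Group G] [TopologicalSpace G] [IsTopologicalGroup G] [AddCommGroup N]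
    [DistribMulAction G N] [Fintype ι] [DecidableEq ι] (D : DatL G N P) (Gb : Subgroup G),
    AxL D → Ax2 D.toDat → (∀ v, D.tau v ∈ Gb) → (∀ σ τ : G, σ * τ * σ⁻¹ * τ⁻¹ ∈ Gb) →
    ∀ (S : ι → Finset P) (b : ι) (I : Finset ι) (R : ι → P),
    (∀ j, j ∉ I → j ≠ b → S j = {R j}) → (∀ z ∈ tup S, D.Ok z) →
    (∀ i, ∀ v ∈ S i, v ∉ D.S) → Fintype.card (D.J ι) ≤ L → (∀ i ∈ I, 2 ^ L ≤ #(S i)) →
    (∀ A : Finset P, #A ≤ L ^ E → (∀ v ∈ A, v ∈ D.S ∨ ∃ i, v ∈ S i) →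
      D.FewL Gb A (2 ^ L ^ E) (2 ^ (3 * L)) (S b)) →
    ∀ (s : D.ST ι) (Lam Tx : AddSubgroup (D.J ι → N)) (f : D.J ι → N)
      (γ : (D.J ι → N) → ZMod 2) (t' : N), D.Cho I b K s Lam Tx f γ t' → Finite Lam →
    Nat.card Lam ≤ 2 ^ d → (∀ z ∈ tup S, D.Sy z = s.1 → D.Dk z 1 = Lam ∧ D.T z = Tx) →
    (∀ z ∈ tup S, D.IsSt K z s → ∃ σ, D.e (D.coc z f σ) t' = 1) →
    ({z ∈ tup S | D.IsSt K z s ∧ f ∈ D.Dk z (K + 1)}.ncard : ℝ) ≤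
      15 / 16 * ({z ∈ tup S | D.IsSt K z s}.ncard : ℝ) +
        1 / (L : ℝ) ^ e * ∏ i, (#(S i) : ℝ)

end Pool.Agent.MP72B
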