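import Pool.Agent.Lib.MP_72e2e6_nt.Sm.B.SpecB
import Pool.Agent.Lib.MP_72e2e6_nt.Sm.N.SpecD

/-!
# MP_72e2e6_nt, `Sm/B`: statements with proofs, part D (cells, one step, the uniform main theorem)

`S_X` here is the statement `MP72S.S_X` of `Sm/N/SpecD.lean` for `DatL`, `AxL`. THE PROOFS ARE THE PROOFS THERE (files
`Sm/N/X.lean`: copy and change); conventions and changes as in `Sm/B/SpecB.lean`. `D.kap`, `D.CL`, `clS`, `nst`, `D.Few`,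
`D.FewL` are the old definitions (for `D.toDat`); `MP72S.S_VNcl`, `MP72S.S_VSum`, `MP72S.S_VInj` are used as they are. New in the
conclusion: `#(Dk z Lf) < 16` in place of `Dk z Lf = T`, and no hypothesis that `#(Dk z 1)` is a power of four.
-/

namespace Pool.Agent.MP72B

open Finset Pool.Agent.MP72S

/-- The size conditions. -/
structure DatL.Szc {G N P : Type} [Group G] [TopologicalSpace G] [AddCommGroup N]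
    [DistribMulAction G N] (D : DatL G N P) {ι : Type} [Fintype ι] [DecidableEq ι]
    (Gb : Subgroup G) (E L : ℕ) (b : ι) (S : ι → Finset P) : Prop where
  card : 3 * Fintype.card (D.J ι) + 70 ≤ L
  big : ∀ i, 2 ^ (4 * L) ≤ #(S i)
  ok : ∀ z ∈ tup S, D.Ok z
  nS : ∀ i, ∀ v ∈ S i, v ∉ D.S
  few : ∀ A : Finset P, #A ≤ L ^ E → (∀ v ∈ A, v ∈ D.S ∨ ∃ i, v ∈ S i) →
    D.Few Gb A (2 ^ L ^ E) (S b)

/-- Module `VSyc` (`N/VSyc.lean`): `MP72S.S_Sym → S_VSyc`. -/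
def S_VSyc : Prop :=
  ∀ {G N P ι : Type} [Group G] [TopologicalSpace G] [AddCommGroup N] [DistribMulAction G N]
    [Fintype ι] [DecidableEq ι] (D : DatL G N P), AxL D → ∀ (I₀ : Finset ι) (z₀ : ι → P),
    D.Ok z₀ → {σ | ∃ z : ι → P, D.Ok z ∧ (∀ i, i ∉ I₀ → z i = z₀ i) ∧
      (∀ i ∈ I₀, D.kap I₀ z₀ (z i) = D.kap I₀ z₀ (z₀ i)) ∧ D.Sy z = σ}.Finite ∧
    {σ | ∃ z : ι → P, D.Ok z ∧ (∀ i, i ∉ I₀ → z i = z₀ i) ∧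
      (∀ i ∈ I₀, D.kap I₀ z₀ (z i) = D.kap I₀ z₀ (z₀ i)) ∧ D.Sy z = σ}.ncard ≤ 2 ^ (#I₀ ^ 2)

/-- Module `VNst` (`N/VNst.lean`): `S_VSyc → S_Sy1 → S_Dk1 → S_VNst`. -/
def S_VNst : Prop :=
  ∀ {G N P ι : Type} [Group G] [TopologicalSpace G] [AddCommGroup N] [DistribMulAction G N]
    [Fintype ι] [DecidableEq ι] (D : DatL G N P), AxL D → ∀ (I₀ : Finset ι) (z₀ : ι → P),
    D.Ok z₀ → ∀ K d : ℕ, 1 ≤ K → #I₀ = K + 1 →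
    {q : D.ST ι × (D.J ι → N) | ∃ z : ι → P, D.Ok z ∧ (∀ i, i ∉ I₀ → z i = z₀ i) ∧
      (∀ i ∈ I₀, D.kap I₀ z₀ (z i) = D.kap I₀ z₀ (z₀ i)) ∧ Nat.card (D.Dk z 1) ≤ 2 ^ d ∧
      D.IsSt K z q.1 ∧ q.2 ∈ q.1.2.1}.Finite ∧
    {q : D.ST ι × (D.J ι → N) | ∃ z : ι → P, D.Ok z ∧ (∀ i, i ∉ I₀ → z i = z₀ i) ∧
      (∀ i ∈ I₀, D.kap I₀ z₀ (z i) = D.kap I₀ z₀ (z₀ i)) ∧ Nat.card (D.Dk z 1) ≤ 2 ^ d ∧
      D.IsSt K z q.1 ∧ q.2 ∈ q.1.2.1}.ncard ≤ nst K d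

/-- Module `VStp` (`N/VStp.lean`): `S_Dk1 → S_Sy1 → S_Chs → S_VCell → MP72S.S_VNcl → S_VNst → MP72S.S_VSum → S_VStp`. The potential counts the
`f ∈ Dk z K`, `f ∉ T z`; in a state all `z` have the same `T z` (`Sy1`), `#(T z) = 4` (`Dk1`, `ι` is not empty), and `Pat z b Lp`
depends only on `Dk z 1`, `T z`. In the last part of `Chs` `T z = T z₀` is `Sy1`. -/
def S_VStp : Prop :=
  ∀ K Lp d : ℕ, 1 ≤ K → K ≤ Lp → ∀ δ : ℝ, 0 < δ → ∃ E L₀ : ℕ, ∀ L : ℕ, L₀ ≤ L →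
  ∀ {G N P ι : Type} [Group G] [TopologicalSpace G] [IsTopologicalGroup G] [AddCommGroup N]
    [DistribMulAction G N] [Fintype ι] [DecidableEq ι] (D : DatL G N P) (Gb : Subgroup G),
    AxL D → Ax2 D.toDat → (∀ v, D.tau v ∈ Gb) → (∀ σ τ : G, σ * τ * σ⁻¹ * τ⁻¹ ∈ Gb) →
    ∀ (b : ι) (S : ι → Finset P), D.Szc Gb E L b S →
      (∑ᶠ z ∈ {z ∈ tup S | D.Pat z b Lp ∧ Nat.card (D.Dk z 1) ≤ 2 ^ d ∧
          16 ≤ Nat.card (D.Dk z (K + 1))}, (Nat.card (D.Dk z (K + 1)) : ℝ)) ≤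
        61 / 64 * (∑ᶠ z ∈ {z ∈ tup S | D.Pat z b Lp ∧ Nat.card (D.Dk z 1) ≤ 2 ^ d ∧
          16 ≤ Nat.card (D.Dk z K)}, (Nat.card (D.Dk z K) : ℝ)) + δ * ∏ i, (#(S i) : ℝ)

/-- Module `VEnd` (THE UNIFORM MAIN THEOREM, `N/VEnd.lean`): `S_Dk1 → S_VStp → MP72S.S_VInj → S_VEnd`. `Evn` is not used: the conclusion
is `#(Dk z Lf) < 16`. `1 ≤ #(Dk z 1)` for `z ∈ tup S`: `Dk z 1` is finite (`Dk1`). -/
def S_VEnd : Prop :=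
  ∀ C ε : ℝ, 0 < ε → ∃ Lf : ℕ, 1 ≤ Lf ∧ ∀ d : ℕ, ∃ E L₀ : ℕ, ∀ L : ℕ, L₀ ≤ L →
  ∀ {G N P ι : Type} [Group G] [TopologicalSpace G] [IsTopologicalGroup G] [AddCommGroup N]
    [DistribMulAction G N] [Fintype ι] [DecidableEq ι]
    (D : DatL G N P) (Gb : Subgroup G),
    AxL D → Ax2 D.toDat → (∀ v, D.tau v ∈ Gb) → (∀ σ τ : G, σ * τ * σ⁻¹ * τ⁻¹ ∈ Gb) →
    ∀ (b : ι) (S : ι → Finset P), D.Szc Gb E L b S →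
    (∑ᶠ z ∈ tup S, (Nat.card (D.Dk z 1) : ℝ)) ≤ C * ∏ i, (#(S i) : ℝ) →
    (∑ᶠ z ∈ {z ∈ tup S | 2 ^ d < Nat.card (D.Dk z 1)}, (Nat.card (D.Dk z 1) : ℝ)) ≤
      ε * ∏ i, (#(S i) : ℝ) →
    (∑ᶠ z ∈ {z ∈ tup S | ¬ D.Pat z b Lf}, (Nat.card (D.Dk z 1) : ℝ)) ≤
      ε * ∏ i, (#(S i) : ℝ) →
    (1 - 6 * ε) * ∏ i, (#(S i) : ℝ) ≤ ({z ∈ tup S | Nat.card (D.Dk z Lf) < 16}.ncard : ℝ)

end Pool.Agent.MP72B
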