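import Pool.Agent.Lib.MP_72e2e6_nt.Sm.B.SpecA
import Pool.Agent.Lib.MP_72e2e6_nt.Sm.B.Pat
import Pool.Agent.Lib.MP_72e2e6_nt.Sm.NG.Spec

/-!
# MP_72e2e6_nt, `Sm/B`: statements with proofs, part G (level one with general local conditions)

THE RELAXED SYSTEM. A Selmer cocycle `ψ` with `2 ψ = 0` is a homomorphism to `V`; its coordinates are
`x.1 v = ψ (τ_v)` at the finite fixed places `v`, `x.2.1 = ψ (φ_∞)`, `x.2.2 i = ψ (τ_(z i))`. Only the local conditions at the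
variable primes and at the fixed places in `T1` are used; `T1` are the places where the inertia group acts on the
twisted module by `-1` (the prime divisors of the fixed factor at which `E` has good reduction), so `S.σ v = 1` for
`v ∈ T1`. At all other places (the bad ones, their number is at most `β`, and infinity) there is no condition. So the
number of the solutions is an upper bound for the order of `Dk z 1`, with the right order of magnitude. The places of `T1`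
play the same role as the variable primes. `Unk`, `Opr`, `Eqd`, `few`, `Dns`, `IsSy`, `Az`, `Bz`, `nz`, `Arith`, `tupF`: see `Sm/G/Defs.lean`;
`FrU`: see `Sm/NG/Spec.lean`.

Every module proves one of the propositions `S_X` below: file `Sm/B/X.lean` (import this file only) with
`theorem tX : S_Y → .. → S_X` (the used statements in the order of the docstring, with their namespaces: `Lv.S_X` is
`Pool.Agent.MP72S.Lv.S_X`, `LvU.S_X` is `Pool.Agent.MP72S.LvU.S_X`), namespace `Pool.Agent.MP72B`, all other declarations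
`private`. The complete proofs are in the docstrings. Everything is over `ZMod 2`: signs do not matter. `N = |W| = |Dual W|`.
-/

set_option autoImplicit false

namespace Pool.Agent.MP72B

open Finset Polynomial MP72e2e6 Pool.Agent.MP72S Pool.Agent.MP72S.Lv

/-! ### 1. Finite linear algebra and counting -/

section

variable {T W V : Type} [AddCommGroup W] [Module (ZMod 2) W] [AddCommGroup V]
  [Module (ZMod 2) V] {m : ℕ}

/-- The relaxed system of equations. -/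
structure RE [Fintype T] (S : Opr T W) (T1 : Finset T) (n : Fin m → ZMod 2)
    (A : T → Fin m → ZMod 2) (B : Fin m → Fin m → ZMod 2) (x : Unk T W m) : Prop where
  fix : ∀ v ∈ T1, ∑ v', S.l v v' • (x.1 v' - S.σ v' (x.1 v)) + ∑ i, A v i • (x.2.2 i - x.1 v) +
    S.d v • (x.2.1 - S.Λ (x.1 v)) = 0
  var : ∀ i, ∑ v, A v i • (x.1 v - S.σ v (x.2.2 i)) + ∑ j, B i j • (x.2.2 j - x.2.2 i) +
    n i • (x.2.1 - S.Λ (x.2.2 i)) = 0

/-- The characters `lam` (at the variable primes), `δ` (at the places of `T1`) are compatible with `x`: the exponent does not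
depend on the symbols of the variable primes. -/
structure RC (S : Opr T W) (T1 : Finset T) (x : Unk T W m)
    (lam : Fin m → Module.Dual (ZMod 2) W) (δ : {v // v ∈ T1} → Module.Dual (ZMod 2) W) :
    Prop where
  t1 : ∀ v i, (lam i - δ v) (x.1 v.1 - x.2.2 i) = 0
  t2 : ∀ v, v ∉ T1 → ∀ i, lam i (x.1 v - S.σ v (x.2.2 i)) = 0
  un : ∀ i j, (lam i - lam j) (x.2.2 i - x.2.2 j) = 0

/-- `x` consists of `k` elements which are independent modulo the torsion cocycles, and some pattern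
occurs less than `L` times. -/
structure BadR (S : Opr T V) (k : ℕ) (b : Fin m) (L : ℕ) (x : Unk T (Fin k → V) m) : Prop where
  ind : ∀ (β : Fin k → ZMod 2) (y : V), (∀ i, ∑ j, β j • x.2.2 i j = y) →
    (∀ v, ∑ j, β j • x.1 v j = S.σ v y) → ∑ j, β j • x.2.1 j = S.Λ y → β = 0
  few : ∃ w : Fin k → V, {i | i ≠ b ∧ x.2.2 i = x.2.2 b + w}.ncard < L

end

/-- Module `PrbR` (the probability of a solution, 200 lines). `Lv.S_Fou → S_PrbR`. PROOF. As `Lv.S_Prb` (copy `Sm/G/Prb.lean`). Let `g i`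
and `b v`, `v ∈ T1`, be the left sides of the equations `var i`, `fix v` (for `z`). By `S_Fou` for `I = Fin m ⊕ {v // v ∈ T1}`:
`N ^ (m + #T1) * [all equations hold] = ∑_{lam, δ} sgn (∑ i, lam i (g i) + ∑ v, δ v (b v))`. The exponent is
`κ + bch α β (A z) (B z)` where `κ` does not depend on `z`; for `v ∈ T1`
`α v i = lam i (x.1 v - S.σ v (s i)) + δ v (s i - x.1 v) = (lam i - δ v) (x.1 v - s i)` (`S.σ v = 1`), for `v ∉ T1`
`α v i = lam i (x.1 v - S.σ v (s i))`, and `β i j = (lam i - lam j) (s j - s i)` for `i < j` (the coefficient of `B z i j = B z j i`; the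
terms with `i = j` vanish). Sum over `z ∈ Z`: if `α = 0` and `β i j = 0` for all `i < j`, i.e. if `RC` holds, the absolute value
of the sum over `z` is at most `#Z ≤ M`; otherwise it is at most `ε * M`. There are `N ^ (m + #T1)` pairs `(lam, δ)`. Divide by
`N ^ (m + #T1)`. -/
def S_PrbR : Prop :=
  ∀ (T W X : Type) [Fintype T] [AddCommGroup W] [Module (ZMod 2) W] [Finite W] (m : ℕ)
    (S : Opr T W) (T1 : Finset T), (∀ v ∈ T1, ∀ y, S.σ v y = y) → ∀ (n : Fin m → ZMod 2)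
    (Z : Finset X) (A : X → T → Fin m → ZMod 2)
    (B : X → Fin m → Fin m → ZMod 2) (M ε : ℝ), 0 ≤ M → 0 ≤ ε → Eqd Z A B M ε →
    ∀ x : Unk T W m, ({z | z ∈ Z ∧ RE S T1 n (A z) (B z) x}.ncard : ℝ) ≤
      M * ((Nat.card {p : (Fin m → Module.Dual (ZMod 2) W) ×
          ({v // v ∈ T1} → Module.Dual (ZMod 2) W) // RC S T1 x p.1 p.2} : ℝ) /
        (Nat.card W : ℝ) ^ (#T1 + m) + ε)

/-- Module `StrR` (the structure of the main term, 200 lines). `MP72e2e6.StmtPpTS → S_StrR`. PROOF. Compare `Lv.S_Str` (`Sm/G/Str.lean`, copy the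
beginning). Write `u i = (s i, lam i)`, `R w w' = ((w.2 - w'.2) (w.1 - w'.1) = 0)`. `𝓥` is the set of the `u i` (every element of `𝓥` is one of
them, as it occurs more than `L ≥ 0` times). `m ≥ 1` as `𝓥` is not empty; let `u₀ ∈ 𝓥` and `L' ≤ W × Dual W` be the subspace of
`StmtPpTS` (`u ∈ 𝓥 ↔ u - u₀ ∈ L'`; `(0, e) ∈ L'` if `e` vanishes on `A`); `A = L'.map fst`. (0) Let `v ∈ T1`. By `RC.t1` `(x.1 v, δ v)` is related to
all `u i`, so to all elements of `𝓥`; so `insert (x.1 v, δ v) 𝓥` is a set of pairwise related elements and has at most `N = #𝓥` elements (first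
claim of `StmtPpTS`; `BW w w' + BW w' w = (w.2 - w'.2) (w'.1 - w.1)`): `(x.1 v, δ v) ∈ 𝓥`, and `x.1 v - s i ∈ A` for all `i`.
(a) `s i - s j ∈ A`: `u i - u j ∈ L'`. (b) Let `w ∈ A`, `w = p.1`, `p ∈ L'`. For every `b` `u b + p ∈ 𝓥`, so there are more than `L`
indices `i` with `u i = u b + p`, so `s i = s b + w`; at most one of them is `b`. (c) Let `e : Dual W` vanish on `A`; then
`(0, e) ∈ L'`, and for every `i` `u i + (0, e) ∈ 𝓥`, so there is `i'` with `s i' = s i`, `lam i' = lam i + e`; for `v ∉ T1` subtract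
`RC.t2 v i` and `RC.t2 v i'`: `e (x.1 v - S.σ v (s i)) = 0`. As this holds for all `e` vanishing on `A` `x.1 v - S.σ v (s i) ∈ A` for all
`v ∉ T1` and all `i`. (d) `A` is stable under `S.σ v`: for `v ∈ T1` `S.σ v = 1`; for `v ∉ T1` `a ∈ A` is `s i' - s i` for some `i`, `i'` by (b),
and `S.σ v a = (x.1 v - S.σ v (s i)) - (x.1 v - S.σ v (s i'))`. -/
def S_StrR : Prop :=
  ∀ (T W : Type) [AddCommGroup W] [Module (ZMod 2) W] [Finite W] (m : ℕ)
    (S : Opr T W) (T1 : Finset T), (∀ v ∈ T1, ∀ y, S.σ v y = y) → ∀ x : Unk T W m,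
    ∀ (lam : Fin m → Module.Dual (ZMod 2) W) (δ : {v // v ∈ T1} → Module.Dual (ZMod 2) W),
    RC S T1 x lam δ → ∀ (L : ℕ) (𝓥 : Finset (W × Module.Dual (ZMod 2) W)),
    #𝓥 = Nat.card W → (∀ i, (x.2.2 i, lam i) ∈ 𝓥) →
    (∀ w ∈ 𝓥, L < {i | (x.2.2 i, lam i) = w}.ncard) →
    (∀ v : {v // v ∈ T1}, (x.1 v.1, δ v) ∈ 𝓥) ∧
    ∃ A : Submodule (ZMod 2) W, (∀ v, ∀ y ∈ A, S.σ v y ∈ A) ∧
      (∀ i j, x.2.2 i - x.2.2 j ∈ A) ∧ (∀ v ∈ T1, ∀ i, x.1 v - x.2.2 i ∈ A) ∧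
      (∀ v, v ∉ T1 → ∀ i, x.1 v - S.σ v (x.2.2 i) ∈ A) ∧
      ∀ b, ∀ w ∈ A, L ≤ {i | i ≠ b ∧ x.2.2 i = x.2.2 b + w}.ncard

/-- Module `MomR` (the average number of the solutions, 250 lines). `Lv.S_Few → S_PrbR → S_StrR → MP72e2e6.StmtPpTS → S_MomR`. PROOF. Compare
`LvU.S_Momu` (`Sm/NG/Momu.lean`). Exchange the sums; by `S_PrbR` the left side is at most
`M (N ^ -(#T1 + m) #{(x, lam, δ) | RC} + ε N ^ (#T1 + β + 1 + m))` (`#(Unk T W m) = N ^ (card T + 1 + m)`). In the number of the `(x, lam, δ)` the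
components `x.2.1` (`N` choices) and `x.1 v`, `v ∉ T1` (`N ^ β`) are bounded trivially. Let `U = W × Dual W`, `|U| = N ^ 2`, `u i = (s i, lam i)`,
pairwise related (`RC.un`). The hypothesis of `Lv.S_Few` (sets of pairwise related elements have at most `N` elements) is the first
claim of `StmtPpTS`. (1) The `u` for which there is no `𝓥` as in `S_StrR` with `L = 0`: at most `2 ^ (N ^ 2) * N * few N 0 m` (`Lv.S_Few`, second
part), and `N ^ (2 #T1)` families `(x.1 v, δ v)`, `v ∈ T1`. (2) The other `u`: at most `2 ^ (N ^ 2) * N ^ m` (first part of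
`Lv.S_Few`), and for each of them `(x.1 v, δ v) ∈ 𝓥` (`S_StrR`; `𝓥` is the set of the `u i`, so it is determined by `u`): `N ^ #T1` families. Together:
`N * N ^ β * (2 ^ (N ^ 2) * N ^ m * N ^ #T1 + N ^ (2 #T1) * 2 ^ (N ^ 2) * N * few N 0 m)`; divide by `N ^ (#T1 + m)`. -/
def S_MomR : Prop :=
  ∀ (T W X : Type) [Fintype T] [AddCommGroup W] [Module (ZMod 2) W] [Finite W] (m : ℕ)
    (S : Opr T W) (T1 : Finset T), (∀ v ∈ T1, ∀ y, S.σ v y = y) → ∀ (n : Fin m → ZMod 2)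
    (Z : Finset X) (A : X → T → Fin m → ZMod 2)
    (B : X → Fin m → Fin m → ZMod 2) (M ε : ℝ), 0 ≤ M → 0 ≤ ε → Eqd Z A B M ε →
    ∀ N β : ℕ, N = Nat.card W → Fintype.card T = #T1 + β →
    (∑ z ∈ Z, (Nat.card {x : Unk T W m // RE S T1 n (A z) (B z) x} : ℝ)) ≤
      M * ((N : ℝ) ^ (β + 1) * 2 ^ (N ^ 2) +
        (N : ℝ) ^ (Fintype.card T + 2) * 2 ^ (N ^ 2) * (few N 0 m / (N : ℝ) ^ m) +
        ε * (N : ℝ) ^ (Fintype.card T + 1 + m))

/-- Module `MbdR` (the average number of the bad solutions, 250 lines). `Lv.S_Few → S_PrbR → S_StrR → MP72e2e6.StmtPpTS → S_MbdR`. PROOF.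
`W = Fin k → V`, `N = |W|`; `(S.pow k).σ v = 1` for `v ∈ T1`. As in `S_MomR`, but summing only over the set `Y` of those `x` which are `BadR` and
satisfy `RE (S.pow k) T1 n (A z) (B z) x` for at least one `z ∈ Z` (the others contribute zero). Claim: for `x ∈ Y` and `(lam, δ)` with
`RC` the tuple `u i = (s i, lam i)` is in the second set of `Lv.S_Few` (for `L`). Otherwise there is `𝓥` as in `S_StrR`, so there is `A`. If
`A = ⊤`, then for every `w` the set `{i | i ≠ b ∧ s i = s b + w}` has at least `L` elements, against `BadR.few`. If `A ≠ ⊤`, let `β ≠ 0` be as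
in `Dns` (`A` is stable under the `(S.pow k).σ v`): the linear map `ℓ a = ∑ j, β j • a j`, `W → V`, vanishes on `A` and commutes with the
operators: `ℓ ((S.pow k).σ v a) = S.σ v (ℓ a)`. Let `y = ℓ (s b)`. So `ℓ (s i) = y` for all `i`, `ℓ (x.1 v) = y = S.σ v y` for `v ∈ T1`,
`ℓ (x.1 v) = S.σ v y` for `v ∉ T1`. Now apply `ℓ` to an equation: if `S.d v ≠ 0`, `v ∈ T1`, apply it to `fix v`: the terms
`ℓ (x.1 v') - S.σ v' (ℓ (x.1 v)) = S.σ v' y - S.σ v' y` and `ℓ (s i - x.1 v)` vanish, so `ℓ (x.2.1) - S.Λ y = 0`; if `n i ≠ 0` apply it to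
`var i`. So `BadR.ind` gives `β = 0`, a contradiction. So the number of these `(x, lam, δ)` is at most
`N * N ^ β * N ^ (2 #T1) * 2 ^ (N ^ 2) * N * few N L m` (`β = card T - #T1`); divide by `N ^ (#T1 + m)`. -/
def S_MbdR : Prop :=
  ∀ (T V X : Type) [Fintype T] [AddCommGroup V] [Module (ZMod 2) V] [Finite V] (m : ℕ)
    (S : Opr T V) (T1 : Finset T), (∀ v ∈ T1, ∀ y, S.σ v y = y) → ∀ (n : Fin m → ZMod 2),
    ((∃ v ∈ T1, S.d v ≠ 0) ∨ ∃ i, n i ≠ 0) → ∀ k : ℕ, S.Dns k →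
    ∀ (Z : Finset X) (A : X → T → Fin m → ZMod 2)
    (B : X → Fin m → Fin m → ZMod 2) (M ε : ℝ), 0 ≤ M → 0 ≤ ε → Eqd Z A B M ε →
    ∀ (b : Fin m) (L N : ℕ), N = Nat.card V ^ k →
    (∑ z ∈ Z, (Nat.card {x : Unk T (Fin k → V) m // RE (S.pow k) T1 n (A z) (B z) x ∧
        BadR S k b L x} : ℝ)) ≤
      M * ((N : ℝ) ^ (Fintype.card T + 2) * 2 ^ (N ^ 2) * (few N L m / (N : ℝ) ^ m) +
        ε * (N : ℝ) ^ (Fintype.card T + 1 + m))

/-! ### 2. The group `Dk z 1` -/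

section

variable {G N P : Type} [Group G] [TopologicalSpace G] [AddCommGroup N] [DistribMulAction G N]

/-- `T1` consists of places where the twisted inertia group acts by `-1`. -/
def DatL.Tm1 (D : DatL G N P) (T1 : Finset (TT D.toDat)) : Prop :=
  ∀ v ∈ T1, D.ch0 (D.tau v.1) = 1 ∧ ∀ Q : N, D.tau v.1 • Q = Q

/-- `x` are the coordinates of the homomorphism `ψ`. -/
structure DatL.Crd (D : DatL G N P) {m : ℕ} (z : Fin m → P) (ψ : G → N)
    (x : Unk (TT D.toDat) (VN N) m) : Prop where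
  fx : ∀ v : TT D.toDat, (x.1 v).v = ψ (D.tau v.1)
  fi : x.2.1.v = ψ (D.phi D.inf)
  vr : ∀ i, (x.2.2 i).v = ψ (D.tau (z i))

end

/-- Module `LnkR` (the elements of `Dk z 1` solve the relaxed system, 250 lines). `MP72S.S_Hom → MP72S.S_Sym → Lv.S_Mop → Lv.S_Exp → S_Uq → S_Tai →
S_TyU → S_Dk1 → S_LnkR` (add `S_Tin`, `S_Fix`, `S_Inj` if you need them). PROOF. Compare `Lv.S_Lnk` (`Sm/G/Lnk.lean`), direction (→). `Ax D.toDat` is
`AxL.ax`. Let `t ∈ Dk z 1`, `ψ = coc z t`, `2 t = 0` (`Dk1`), so `2 ψ = 0` (`Uq`) and `ψ` is a homomorphism to `V` (`tw_two`): (1). `Crd` exists: `VN.mk`. By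
`Lv.S_Exp` (2) (`A` = the fixed finite places and the `z i`) `ψ g = ∑ v, [ch v g] ψ (τ_v) + ∑ i, [ch (z i) g] ψ (τ_(z i)) + [cst g] ψ (φ_∞)`; this
implies (3): two elements with the same coordinates have the same `ψ`, and the same type by `TyU`. (2) The equations. Write
`χ = D.chi z = ch0 + ∑ ch (z i)`. By `Lv.S_Mop` (7) and `Lv.S_Exp` (4) the operator of `(χ, g)` is
`L_g = ∑ v, ch v g • S.σ v + cst g • S.Λ + (∑ i, ch (z i) g) • 1`. At `v ∈ T1` let `Q` be the local datum of `ψ`: `χ (τ_v) = ch0 (τ_v) = 1`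
(`ch_tau'`) and `τ_v • Q = Q`, so `ψ (τ_v) = -Q - Q`, which is of order two, so `4 Q = 0`, `(x.1 v).v = 2 Q`, and
`ψ (φ_v) = tw χ φ_v Q - Q = L_(φ_v) (x.1 v)`. Compare with the expansion of `ψ (φ_v)`, with `cst (φ_v) = S.d v` (`Lv.S_Exp` (1)), `ch v' (φ_v) = S.l v v'`,
`ch (z i) (φ_v) = Az v i` (`S_Sym`): this is `fix v`. At `z i`: `ψ (τ_(z i)) = - t (inr i)` (`Tai`), `2 Q = t (inr i)`, `4 Q = 0`,
`ψ (φ_(z i)) = L_(φ_(z i)) (x.2.2 i)`, and `cst (φ_(z i)) = nz i`, `ch v (φ_(z i)) = Az v i`, `ch (z j) (φ_(z i)) = Bz i j` for `j ≠ i` (`S_Sym`), the terms with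
`j = i` are the same: this is `var i`. (4) For `v ∈ T1` and `x : VN N`, `2 Q = x.v`: `(S.σ v x).v = tw ch0 τ_v Q - Q = -Q - Q = x.v`. -/
def S_LnkR : Prop :=
  ∀ {G N P : Type} [Group G] [TopologicalSpace G] [AddCommGroup N] [DistribMulAction G N]
    (D : DatL G N P), AxL D → ∀ T1 : Finset (TT D.toDat), D.Tm1 T1 → ∀ S, IsSy D.toDat S →
    (∀ (m : ℕ) (z : Fin m → P), D.Ok z → (∀ t ∈ D.Dk z 1, IsHo (D.coc z t) ∧
      (∃ x, D.Crd z (D.coc z t) x) ∧ ∀ x, D.Crd z (D.coc z t) x →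
        RE S T1 (nz D.toDat z) (Az D.toDat z) (Bz D.toDat z) x ∧
          ∀ i, (x.2.2 i).v = t (Sum.inr i)) ∧
      ∀ t ∈ D.Dk z 1, ∀ t' ∈ D.Dk z 1, ∀ x, D.Crd z (D.coc z t) x → D.Crd z (D.coc z t') x →
        t = t') ∧
    ∀ v ∈ T1, ∀ y, S.σ v y = y

/-- Module `CntR` (an upper bound for the order, 100 lines). `S_LnkR → S_Dk1 → S_CntR`. PROOF. `Dk z 1` is finite (`Dk1`), `VN N` is finite (`AxL.ax`, `Ax.four`; see `card_VN` in `Sm/G/Pbd.lean`). Choose for `t ∈ Dk z 1` the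
coordinates `x_t` of `coc z t` (`LnkR`). The map which sends a family `t : Fin k → Dk z 1` to the element `x` of `Unk (TT D) (Fin k → VN N) m` with
`x.1 v j = (x_(t j)).1 v`, `x.2.1 j = (x_(t j)).2.1`, `x.2.2 i j = (x_(t j)).2.2 i` is injective (`LnkR`), and `x` satisfies `RE (S.pow k)`: an equation in
`Fin k → VN N` holds iff it holds for all components (`Opr.pow_σ`, `Opr.pow_Λ`). -/
def S_CntR : Prop :=
  ∀ {G N P : Type} [Group G] [TopologicalSpace G] [AddCommGroup N] [DistribMulAction G N]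
    (D : DatL G N P), AxL D → ∀ T1 : Finset (TT D.toDat), D.Tm1 T1 → ∀ S, IsSy D.toDat S →
    ∀ (m : ℕ) (z : Fin m → P), D.Ok z → ∀ k : ℕ, Nat.card (D.Dk z 1) ^ k ≤
      Nat.card {x : Unk (TT D.toDat) (Fin k → VN N) m //
        RE (S.pow k) T1 (nz D.toDat z) (Az D.toDat z) (Bz D.toDat z) x}

/-- Module `PbdR` (missing patterns give bad solutions, 250 lines). `MP72S.S_Hom → Lv.S_Mop → Lv.S_Exp → S_Uq → S_Tin → S_TyU → S_Dk1 → S_LnkR →
S_PbdR`. PROOF. Compare `Lv.S_Pbd` (`Sm/G/Pbd.lean`). `T = D.T z` has four elements (`Dk1`, `Fin m` is not empty because of `b`) and is contained in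
`Δ = D.Dk z 1`, an elementary abelian finite group; so `#Δ = 4 * 2 ^ k`: (1). (2) There are `ν_1, …, ν_k ∈ Δ` whose classes are a basis of
`Δ / T` over `F_2`: every `ν ∈ Δ` is `∑ j, β j ν_j + t`, `t ∈ T`, and `∑ j, β j ν_j ∈ T` only for `β = 0`. Let `x_j` be the coordinates of
`coc z ν_j` (`LnkR`) and `x` with `x.1 v j = (x_j).1 v` etc.; it satisfies `RE (S.pow k)` (componentwise). `BadR.ind`: let `β`, `y` be as there and
`R` with `2 R = y.v` (`dvs`), `4 R = 0`. The cocycle `ψ = ∑ β j coc z ν_j = coc z (∑ β j ν_j)` (`Uq`) and the torsion cocycle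
`ψ' g = tw χ g R - R` of type `tv z R ∈ T` (`Tin`), both homomorphisms to `V` unramified outside `S` and the `z i`, have the same values at the `τ_v` (`v` a
finite fixed place: `χ (τ_v) = ch0 (τ_v)`, so `ψ' (τ_v) = (S.σ v y).v` by `IsSy.sg`), at `φ_∞` (`χ (φ_∞) = ch0 (φ_∞)` by `ch_inf`; `IsSy.la`) and at the
`τ_(z i)` (`χ (τ) = 1`, `τ R = R`: `-2 R = y.v`). So `ψ = ψ'` (expansion `Lv.S_Exp` (2), or `S_Hom` (1)), and `∑ β j ν_j = tv z R ∈ T` by `TyU`, so `β = 0`.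
`BadR.few`: let `c` be a map against `Pat` and `w j = c (ν_j)` (an element of `VN N`). If `{i | i ≠ b ∧ s i = s b + w}` had at least `L`
elements, let `I` be a subset with `L` elements: for `i ∈ I` `ν_j (inr i) = ν_j (inr b) + c (ν_j)` for all `j` (`LnkR`: `(x_j).2.2 i` is `ν_j (inr i)`), so by
additivity `ν (inr i) = ν (inr b) + c ν` for all `ν ∈ Δ` (for `ν ∈ T`: `tv z R (inr i) = 2 R`, `c ν = 0`), a contradiction. -/
def S_PbdR : Prop :=
  ∀ {G N P : Type} [Group G] [TopologicalSpace G] [AddCommGroup N] [DistribMulAction G N]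
    (D : DatL G N P), AxL D → ∀ T1 : Finset (TT D.toDat), D.Tm1 T1 → ∀ S, IsSy D.toDat S →
    ∀ (m : ℕ) (z : Fin m → P), D.Ok z → ∀ b : Fin m,
    (∃ k : ℕ, Nat.card (D.Dk z 1) = 4 * 2 ^ k) ∧
    ∀ k : ℕ, Nat.card (D.Dk z 1) = 4 * 2 ^ k → ∀ L : ℕ, ¬ D.Pat z b L →
      ∃ x : Unk (TT D.toDat) (Fin k → VN N) m,
        RE (S.pow k) T1 (nz D.toDat z) (Az D.toDat z) (Bz D.toDat z) x ∧ BadR S k b L x

/-! ### 3. The targets -/

/-- Module `Lg1B` (the average order of `Dk z 1`, 150 lines). `Lv.S_Mop → Lv.S_Exp → S_LnkR → S_CntR → S_MomR → LvU.S_Binu → LvU.S_EqzE → LvU.S_Epsu →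
S_Lg1B`. PROOF. As `LvU.S_Lg1U` (copy `Sm/NG/Lg1U.lean`). `S` with `IsSy D.toDat S` (`Lv.S_Exp` (3)). By `S_CntR` for `k = 1` the sum is at most the sum over
`tupF` of the numbers of the solutions in `Unk _ (Fin 1 → VN N) m`, `N' = 4`; `nz D z` is the same for all `z` (`Arith.deg`); `S_MomR` with
`β' = card (TT D) - #T1 ≤ β`. Let `C₀`, `m₀` be from `S_Binu` for `N = 4`, `L = 0`, `ε = 1`; `A = max (2 C₀) (m₀ + 144)`: then
`C₀ (t + 2) ≤ 2 C₀ (t + 1) ≤ m`, `t = card (TT D)`, `m ≥ A ≥ m₀`, so `4 ^ (t + 2) few 4 0 m / 4 ^ m ≤ 1`, and by `S_Epsu` (`ε = 1`) the last term is at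
most `1`: `C = 4 ^ (β + 1) * 2 ^ 16 + 2 ^ 16 + 1`. -/
def S_Lg1B : Prop :=
  ∀ β : ℕ, ∃ C A : ℕ, ∀ {G N P F : Type} [Group G] [TopologicalSpace G] [AddCommGroup N]
    [DistribMulAction G N] [Field F] [Finite F] (D : DatL G N P) (pi : P → F[X])
    (Irr : ℕ → Finset P), AxL D → Arith D.toDat pi Irr → 4 ∣ Nat.card F - 1 →
    ∀ T1 : Finset (TT D.toDat), D.Tm1 T1 → Fintype.card (TT D.toDat) ≤ #T1 + β → ∀ (m : ℕ)
    (n : Fin m → ℕ) (h X : ℕ), LvU.FrU D.toDat pi A m n h X →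
    (∀ z ∈ tup fun i => Irr (n i), D.Ok z) →
    (∑ᶠ z ∈ tup fun i => Irr (n i), (Nat.card (D.Dk z 1) : ℝ)) ≤ C * ∏ i, (#(Irr (n i)) : ℝ)

/-- Module `Lg2aB` (large groups `Dk z 1` are rare, 150 lines). `Lv.S_Mop → Lv.S_Exp → S_LnkR → S_CntR → S_MomR → LvU.S_Binu → LvU.S_EqzE → LvU.S_Epsu →
S_Lg2aB`. PROOF. As `LvU.S_Lg2aU` (copy `Sm/NG/Lg2aU.lean`) with `S_CntR` for `k = 2`, `W = Fin 2 → VN N`, `N' = 16`: the sum of the `#(Dk z 1) ^ 2` is at
most `C₂ ∏`, `C₂ = 16 ^ (β + 1) * 2 ^ 256 + 2 ^ 256 + 1`, if `A ≥ max (2 C₀) (m₀ + 576)` with `C₀`, `m₀` from `S_Binu` for `N = 16`, `L = 0`, `ε = 1`.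
`K ≥ C₂ / ε`. -/
def S_Lg2aB : Prop :=
  ∀ (β : ℕ) (ε : ℝ), 0 < ε → ∃ K A : ℕ, ∀ {G N P F : Type} [Group G] [TopologicalSpace G]
    [AddCommGroup N] [DistribMulAction G N] [Field F] [Finite F] (D : DatL G N P) (pi : P → F[X])
    (Irr : ℕ → Finset P), AxL D → Arith D.toDat pi Irr → 4 ∣ Nat.card F - 1 →
    ∀ T1 : Finset (TT D.toDat), D.Tm1 T1 → Fintype.card (TT D.toDat) ≤ #T1 + β → ∀ (m : ℕ)
    (n : Fin m → ℕ) (h X : ℕ), LvU.FrU D.toDat pi A m n h X →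
    (∀ z ∈ tup fun i => Irr (n i), D.Ok z) →
    (∑ᶠ z ∈ {z ∈ tup fun i => Irr (n i) | K ≤ Nat.card (D.Dk z 1)},
      (Nat.card (D.Dk z 1) : ℝ)) ≤ ε * ∏ i, (#(Irr (n i)) : ℝ)

/-- Module `Lg2bB` (missing patterns are rare for a given order of `Dk z 1`, 200 lines). `Lv.S_Mop → Lv.S_Exp → Lv.S_Dnz → S_LnkR → S_MbdR →
S_PbdR → LvU.S_Binu → LvU.S_EqzE → LvU.S_Epsu → S_Lg2bB`. PROOF. As `LvU.S_Lg2bU` (copy `Sm/NG/Lg2bU.lean`), `N' = 4 ^ k`. `S_MbdR` has the term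
`N' ^ (t + 2) * 2 ^ (N' ^ 2) * few N' L m / N' ^ m`: by `S_Binu` for `N'`, `L` and `ε / (2 * 2 ^ (N' ^ 2))` it is at most `ε / 2` if
`C₀ (t + 2) ≤ m`, `m₀ ≤ m`; the second term is at most `ε / 2` by `S_Epsu` if `A ≥ 72 N' / ε`, `A ≥ N'`. The hypothesis of `S_MbdR` on the parities:
`S.d v = ch v (τ_∞)` (`IsSy.d`), `nz D z i = ch (z i) (τ_∞) = n i` modulo two (`Arith.deg`, `Arith.irr`). `S.Dns k`: `Lv.S_Dnz` for `D.toDat`. -/
def S_Lg2bB : Prop :=
  ∀ (k L : ℕ) (ε : ℝ), 0 < ε → ∃ A : ℕ, ∀ {G N P F : Type} [Group G] [TopologicalSpace G]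
    [AddCommGroup N] [DistribMulAction G N] [Field F] [Finite F] (D : DatL G N P) (pi : P → F[X])
    (Irr : ℕ → Finset P), AxL D → Ird D.toDat → Arith D.toDat pi Irr → 4 ∣ Nat.card F - 1 →
    ∀ T1 : Finset (TT D.toDat), D.Tm1 T1 → ∀ (m : ℕ)
    (n : Fin m → ℕ) (h X : ℕ), LvU.FrU D.toDat pi A m n h X →
    ((∃ v ∈ T1, D.ch v.1 (D.tau D.inf) = 1) ∨ ∃ i, Odd (n i)) →
    (∀ z ∈ tup fun i => Irr (n i), D.Ok z) → ∀ b : Fin m,
    ({z ∈ tup fun i => Irr (n i) | Nat.card (D.Dk z 1) = 4 * 2 ^ k ∧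
      ¬ D.Pat z b L}.ncard : ℝ) ≤ ε * ∏ i, (#(Irr (n i)) : ℝ)

/-- Module `Lg2B` (missing patterns are rare, 150 lines). `Lv.S_Exp → S_PbdR → S_Lg2aB → S_Lg2bB → S_Lg2B`. PROOF. As `LvU.S_Lg2U` (copy
`Sm/NG/Lg2U.lean`); `A` = the maximum of the finitely many constants (`FrU` for a larger `A` implies `FrU` for a smaller one). -/
def S_Lg2B : Prop :=
  ∀ (β L : ℕ) (ε : ℝ), 0 < ε → ∃ A : ℕ, ∀ {G N P F : Type} [Group G] [TopologicalSpace G]
    [AddCommGroup N] [DistribMulAction G N] [Field F] [Finite F] (D : DatL G N P) (pi : P → F[X])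
    (Irr : ℕ → Finset P), AxL D → Ird D.toDat → Arith D.toDat pi Irr → 4 ∣ Nat.card F - 1 →
    ∀ T1 : Finset (TT D.toDat), D.Tm1 T1 → Fintype.card (TT D.toDat) ≤ #T1 + β → ∀ (m : ℕ)
    (n : Fin m → ℕ) (h X : ℕ), LvU.FrU D.toDat pi A m n h X →
    ((∃ v ∈ T1, D.ch v.1 (D.tau D.inf) = 1) ∨ ∃ i, Odd (n i)) →
    (∀ z ∈ tup fun i => Irr (n i), D.Ok z) → ∀ b : Fin m,
    (∑ᶠ z ∈ {z ∈ tup fun i => Irr (n i) | ¬ D.Pat z b L},
      (Nat.card (D.Dk z 1) : ℝ)) ≤ ε * ∏ i, (#(Irr (n i)) : ℝ)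

end Pool.Agent.MP72B
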