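import Pool.Agent.Lib.MP_72e2e6_nt.Sm.B.SpecQ
import Pool.Agent.Lib.MP_72e2e6_nt.Sm.StmtB
import Pool.Agent.Lib.MP_72e2e6_nt.Sm.Out

/-!
# MP_72e2e6_nt, `Sm/B`: statements with proofs, part H (the concrete datum without tameness, conclusion)

As `Sm/H/Fin.lean`, for all squarefree `d` (`Hy0` in place of `Hy`). Modules `Sm/B/H<Name>.lean` (import this file only; the
copies of files of `Sm/H` may also use what those files use), theorem `t<Name> : S_Y → .. → S_<Name>`, namespace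
`Pool.Agent.MP72B.HB`, all other declarations `private`. `HD.S_..` are the statements of `Sm/H/Fin.lean`, `Loc.S_..`, `Par.S_..`
those of `Sm/B/SpecL.lean`, `Sm/B/SpecQ.lean`, `B.S_..` those of `Sm/B/SpecA.lean` (`Pool.Agent.MP72B.S_..`).
-/

namespace Pool.Agent.MP72B.HB

open Polynomial Finset Pool.Agent.MP72S Pool.Agent.MP72W Pool.Agent.MP72S.D Pool.Agent.MP72S.HD

open Pool.Agent.MP72T (Spl nsp sqd RkOne)

/-- The hypotheses on the curve and on the fixed factor `d`, without tameness. -/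
structure Hy0 {F : Type} [Field F] (a : Fin 3 → F[X]) (d : F[X]) : Prop where
  q4 : Nat.card F % 4 = 1
  inj : Function.Injective a
  nis : ∀ i j l : Fin 3, i ≠ j → i ≠ l → j ≠ l → ∀ (c : F) (z : F[X]),
    (a i - a j) * (a i - a l) ≠ C c * z ^ 2
  sqf : Squarefree d

/-! ### 1. Copies of `Sm/H` -/

/-- **Irf** (copy of `Sm/H/Irf.lean`). -/
def S_Irf : Prop :=
  ∀ (F : Type) [Field F] [Finite F] (a : Fin 3 → F[X]) (d : F[X]) (A : Pl F → Lcd F), Hy0 a d →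
    LDok F A → (∃ S, Sok a d S) ∧ (∃ u : F, ¬ ∃ b, b ^ 2 = u) ∧
    ∀ S : Finset (Pl F), (∀ n w, w ∈ irr F S n ↔ w ∈ SF.Irs F n ∧ w ∉ S) ∧
      (∃ n₁, ∀ n, n₁ ≤ n → (irr F S n : Set (Pl F)) = SF.Irs F n) ∧
      ∀ m : ℕ, ∃ n₀, ∀ n, n₀ ≤ n → m ≤ #(irr F S n)

/-- **Chr** (copy of `Sm/H/Chr.lean`). -/
def S_Chr : Prop :=
  ∀ (F : Type) [Field F] [Finite F] (a : Fin 3 → F[X]) (d : F[X]) (u : F) (S : Finset (Pl F))
    (A : Pl F → Lcd F), Hy0 a d → (¬ ∃ b, b ^ 2 = u) → Sok a d S → LDok F A →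
    let D := DD F a d u S A
    (∀ v, v ≠ D.inf → IsCh (D.ch v)) ∧ (∀ v, v ≠ D.inf → D.ch v (D.tau v) = 1) ∧
    (∀ v w, v ≠ D.inf → w ≠ D.inf → v ≠ w → D.ch v (D.tau w) = 0) ∧
    (∀ v, v ≠ D.inf → D.ch v (D.phi v) = 0) ∧ (∀ v, v ≠ D.inf → D.ch v (D.phi D.inf) = 0) ∧
    IsCh D.cst ∧ (∀ v, D.cst (D.tau v) = 0) ∧ D.cst (D.phi D.inf) = 1 ∧ IsCh D.ch0 ∧
    ∀ v, v ∉ D.S → D.ch0 (D.tau v) = 0

/-- **Ax** (copy of `Sm/H/Ax.lean`). -/
def S_Ax : Prop :=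
  ∀ (F : Type) [Field F] [Finite F] (a : Fin 3 → F[X]) (d : F[X]) (u : F) (S : Finset (Pl F))
    (A : Pl F → Lcd F), Hy0 a d → (¬ ∃ b, b ^ 2 = u) → Sok a d S → LDok F A →
    Ax (DD F a d u S A) ∧ Ax2 (DD F a d u S A)

/-- **Ax3** (copy of `Sm/H/Ax3.lean`). -/
def S_Ax3 : Prop :=
  ∀ (F : Type) [Field F] [Finite F] (a : Fin 3 → F[X]) (d : F[X]) (u : F) (S : Finset (Pl F))
    (A : Pl F → Lcd F), Hy0 a d → (¬ ∃ b, b ^ 2 = u) → Sok a d S → LDok F A →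
    ∃ E : ℕ → C.NN (aR a) (Qf F) → C.NN (aR a) (Qf F) → C.RU (Qf F),
      Ax3 (DD F a d u S A) E (C.hfU (Qf F))

/-- **GO** (copy of `Sm/H/GO.lean`). -/
def S_GO : Prop :=
  ∀ (F : Type) [Field F] [Finite F] (a : Fin 3 → F[X]) (d : F[X]) (u : F) (S : Finset (Pl F))
    (A : Pl F → Lcd F), Hy0 a d → LDok F A →
    MP72S.S.GOk (aR a) (Qf F) (DD F a d u S A) (fun w => (A w).av) piP (algebraMap F[X] (RatFunc F) d)

/-! ### 2. The datum -/

/-- **Fnp** (60 lines, uses `HD.S_Nu`, `D.S_Lf`, `D.S_Pc`, `Loc.S_Tsf`). The local torsion is finite at all places.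

Proof. `Loc.S_Tsf` for `HD.S_Nu` (1); `π = unP w.o` has absolute value `1 / 2` (`D.S_Lf`), so `nuP = 1` by `D.S_Pc` (2). `q` is odd, so `2 ≠ 0`. -/
def S_Fnp : Prop :=
  ∀ (F : Type) [Field F] [Finite F] (a : Fin 3 → F[X]) (d : F[X]) (u : F) (S : Finset (Pl F))
    (A : Pl F → Lcd F), Hy0 a d → LDok F A → Par.FinP (DD F a d u S A)

/-- **Axl** (30 lines, uses `S_Ax`, `S_Ax3`, `S_Fnp`, `Loc.S_Mkl`). -/
def S_Axl : Prop :=
  ∀ (F : Type) [Field F] [Finite F] (a : Fin 3 → F[X]) (d : F[X]) (u : F) (S : Finset (Pl F))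
    (A : Pl F → Lcd F), Hy0 a d → (¬ ∃ b, b ^ 2 = u) → Sok a d S → LDok F A →
    AxL (mkL (DD F a d u S A))

/-- **Isk** (80 lines, uses `S_Ax`, `HD.S_Nu`, `D.S_QG`, `Par.S_Kex`, `Par.S_Qqv`). The theta characteristic of the concrete datum.

Proof. `k` from `Par.S_Kex`; `qv`: `Par.S_Qqv` for the places of `HD.S_Nu` (1), `kt = k (tau v)`, `kf = k (phi v)` (`nq v % 4 = 1`, `QC`, a square
root of `-1` in `F(t)` as in `Sm/H/Ax.lean`). -/
def S_Isk : Prop :=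
  ∀ (F : Type) [Field F] [Finite F] (a : Fin 3 → F[X]) (d : F[X]) (u : F) (S : Finset (Pl F))
    (A : Pl F → Lcd F), Hy0 a d → (¬ ∃ b, b ^ 2 = u) → Sok a d S → LDok F A →
    ∃ k, Par.IsK (DD F a d u S A) k

/-- **Spc** (200 lines, uses `D.S_Lf`, `D.S_Lc`, `D.S_Ln`, `D.S_Km`, `D.S_Kl`, `D.S_Rq`, `S.S_Nrc`). Squares in the completions.

Proof. `τ = (A w).rQ (A w).t`, `φ = (A w).rQ (A w).f`, `e = (A w).eQ`. (1) `w = some P`, `f = P ^ n * g`, `P ∤ g` (`n` the multiplicity). `hK f τ = n`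
(`D.S_Kl` (1)), so it is `0` iff `n = 2 m`; then `hK f = hK g` (`D.S_Km` (3), (4)), `v g = 1`. If `P ∣ g - h ^ 2` then `P ∤ h`,
`v (g / h ^ 2 - 1) < 1` and `hK g φ = 0` (`D.S_Kl`). Conversely let `hK g φ = 0`, `x ^ 2 = g` in `Qf F`, so `φ x = x` (`D.S_Km` (2)) and
`f (e x) = e x` (`D.S_Rq` (1)), `nm (e x) = 1`. `S.S_Nrc`: `nm (e x - c) < 1` for a constant `c` of `Kvs`; `f c = c ^ Q`, `Q = q ^ deg P`
(`Lcd.Ok.ff`), so `nm (c ^ Q - c) < 1` and `c ^ Q = c` (constants, `D.S_Ln` (7)). By `D.S_Lc` (7) every element of `R` (of `LF`) is near to a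
`c₀` in the completion with `c₀ ^ Q = c₀`; these are `Q` different elements (`LF.sep`, `LF.card`), so all the roots of `X ^ Q - X` in `Kvs`
are in the completion and near to an element of `R`. So `nm (e x - r) < 1` for some `r ∈ F(t)`, `v r = 1`, and `v (g - r ^ 2) < 1`. `r` is
near to a polynomial `h` (`r = u / u'`, `P ∤ u'`, `u' u'' ≡ 1` modulo `P`, `h = u u''`), so `v (g - h ^ 2) < 1`, i.e. `P ∣ g - h ^ 2`. (2)
infinity: `v f = 2 ^ deg f`, `hK f τ = deg f`. `f = C c * P` with `P` monic, `hK P φ = 0` (`D.S_Kl` (6)), so `hK f φ = hK (C c) φ`, which is `0` iff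
`c` is a square (`D.S_Kl` (5), `dgP none = 1`). -/
def S_Spc : Prop :=
  ∀ (F : Type) [Field F] [Finite F], Nat.card F % 4 = 1 → ∀ (A : Pl F → Lcd F), LDok F A →
    (∀ (P : {P : F[X] // P.Monic ∧ Irreducible P}) (f : F[X]), f ≠ 0 →
      ((hK (algebraMap F[X] (RatFunc F) f) ((A (some P)).rQ (A (some P)).t) = 0 ∧
        hK (algebraMap F[X] (RatFunc F) f) ((A (some P)).rQ (A (some P)).f) = 0) ↔
      ∃ (e : ℕ) (g h : F[X]), f = P.1 ^ (2 * e) * g ∧ ¬ P.1 ∣ g ∧ P.1 ∣ g - h ^ 2)) ∧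
    ∀ f : F[X], f ≠ 0 →
      ((hK (algebraMap F[X] (RatFunc F) f) ((A none).rQ (A none).t) = 0 ∧
        hK (algebraMap F[X] (RatFunc F) f) ((A none).rQ (A none).f) = 0) ↔
      Even f.natDegree ∧ ∃ c : F, c ^ 2 = f.leadingCoeff)

/-- **Cad** (250 lines, uses `S_Ax`, `S_Ax3`, `HD.S_Nu`, `S_Fnp`, `S_Spc`, `D.S_Km`, `D.S_Kl`, `D.S_QG`, `Par.S_Lcf`, `Par.S_Pgd`, `Par.S_Pgc`,
`Par.S_Mab`, `Par.S_Mlu`, `Par.S_Muq`). The intersections of the local conditions at all places.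

Proof. Let `v` be a place, `τ`, `φ` as in `S_Spc`, `w = v.o`. All `Lsp` have order four (`Par.S_Lcf`, `S_Fnp`). The valuations
`ν (α i - α j)`, `i ≠ j`, are the integers of `HD.S_Nu` (2), (3). (a) All are equal: `Par.S_Pgd`, `Par.S_Pgc`, and `Spl a D w` is false (no strict
inequality). (b) Otherwise there are different `i, j, l` with `ν (α i - α l) < ν (α i - α j)`, and `ν (α i - α l) = ν (α j - α l)` (the smallest value
occurs twice). Let `s ^ 2 = α i - α l` in `Qf F`; `sgn g s = hK (a i - a l) g` (`D.S_Km` (2)). `Par.S_Mlu`, `Par.S_Muq`, `Par.S_Mab` with `c = sgn τ s`,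
`d = sgn φ s`. By the hypothesis on `D'` `hK D' τ = c + 1`. It remains to see: `Spl a D w` iff `hK D τ = c` and `hK D φ = d`, i.e. iff
`hK (D (a i - a l))` vanishes at `τ` and `φ` (`D.S_Km` (3)). By `S_Spc` this is the condition of `Spl` for `(i, j, l)`; the only other triple
which satisfies the inequality is `(j, i, l)`, and `hK (D (a j - a l)) g = hK (D (a i - a l)) g` for `g = τ, φ`, since
`(a j - a l) / (a i - a l) = 1 + (a j - a i) / (a i - a l)` is near to `1` (`D.S_Kl` (4), (1)). -/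
def S_Cad : Prop :=
  ∀ (F : Type) [Field F] [Finite F] (a : Fin 3 → F[X]) (d : F[X]) (u : F) (S : Finset (Pl F))
    (A : Pl F → Lcd F), Hy0 a d → (¬ ∃ b, b ^ 2 = u) → Sok a d S → LDok F A →
    ∀ (D D' : F[X]), D ≠ 0 → D' ≠ 0 → ∀ v : Pl F,
    (∀ i j l : Fin 3, i ≠ j → i ≠ l → j ≠ l →
      nuP (A v) (C.al (aR a) (Qf F) i - C.al (aR a) (Qf F) l) <
        nuP (A v) (C.al (aR a) (Qf F) i - C.al (aR a) (Qf F) j) →
      hK (algebraMap F[X] (RatFunc F) (D' * (a i - a l))) ((A v).rQ (A v).t) = 1) →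
    ∃ n : ℕ, Nat.card ↥(Par.Lsp (N := C.NN (aR a) (Qf F)) ((A v).rQ (A v).t) ((A v).rQ (A v).f)
        (hK (algebraMap F[X] (RatFunc F) D) ((A v).rQ (A v).t))
        (hK (algebraMap F[X] (RatFunc F) D) ((A v).rQ (A v).f)) ⊓
      Par.Lsp (N := C.NN (aR a) (Qf F)) ((A v).rQ (A v).t) ((A v).rQ (A v).f)
        (hK (algebraMap F[X] (RatFunc F) D') ((A v).rQ (A v).t))
        (hK (algebraMap F[X] (RatFunc F) D') ((A v).rQ (A v).f))) *
      (open Classical in if Spl a D v.o then 2 else 1) = 4 ^ n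

/-- The datum with general local conditions. -/
noncomputable abbrev DL (F : Type) [Field F] (a : Fin 3 → F[X]) (d : F[X]) (u : F)
    (S : Finset (Pl F)) (A : Pl F → Lcd F) : DatL (GQ F) (C.NN (aR a) (Qf F)) (Pl F) :=
  mkL (DD F a d u S A)

/-- **Prt** (250 lines, uses `S_Ax`, `S_Axl`, `S_Fnp`, `S_Isk`, `S_Cad`, `D.S_Km`, `HD.S_Ax`, `HD.S_Irf`, `HD.S_Okt`, `HD.S_G3`, `HD.S_Nu`, `MP72T.S_Ex`,
`Par.S_Par`, `Par.S_Dkl`, `Par.S_Dkt`). PARITY: the order of the Selmer group of level one is a power of four iff the number of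
the split places is even.

Proof. Let `z i = some (R i)`, `D = d ∏ R k`, `χ = chi z`; `χ σ = hK D σ` (`D.S_Km` (3)). Reference: let `d'` be monic and tame (`S_Ex`), so
`Hy a d'`, `S'` with `Sok a d' S'` (`HD.S_Irf`), and let `n'` be large with `Adm a d' 0 n'` (`Odd (deg d' + n' + mxd a)`) and
`irr F S' n'` not empty (`HD.S_Irf`); `z' : Fin 1 → Pl F` in it, `z' 0 = some R'`, `D' = d' R'`, `χ' = chi z' = hK D'`. By `HD.S_G3`, `HD.S_Okt` and
`Par.S_Dkt` (datum `DD F a d' u S' A`) `#(SelD χ')` is a power of four; `SelD` depends only on `tau`, `phi` and `χ'`, so it is the same for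
the datum `DD F a d u S A`. `Par.S_Par` with the finite set `S ∪ S' ∪ {z i} ∪ {z' 0}`; outside it `χ (τ_v) = 0 = χ' (τ_v)`. `S_Cad` for all the places
of this set: if `ν (α i - α l) < ν (α i - α j)` at `v = some P`, then `P ∣ a i - a j`, so `v ∈ S'`, `P ≠ R'`; by `Hy.tame` for the index `l` and some
`j' ≠ l` `m_P(d') + m_P(a l - a j')` is odd and `m_P(a l - a j') = m_P(a i - a l)` (both differences with `a l` have the same multiplicity);
`hK (D' (a i - a l)) τ = m_P(D') + m_P(a i - a l) = 1`. At infinity: `deg (a i - a l) = mxd a` and `Adm`. So the product of the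
orders of the intersections times `2 ^ #{v | Spl a D v.o}` is a power of four; all `w` with `Spl a D w` are `v.o` for a `v ∈ S`
(`P ∣ a i - a j`, or infinity), so the exponent is `nsp a D`. Together: `#(Dk z 1) * 2 ^ (nsp a D)` is a power of four
(`Par.S_Dkl`; orders are powers of two). -/
def S_Prt : Prop :=
  ∀ (F : Type) [Field F] [Finite F] (a : Fin 3 → F[X]) (d : F[X]) (u : F) (S : Finset (Pl F))
    (A : Pl F → Lcd F), Hy0 a d → (¬ ∃ b, b ^ 2 = u) → Sok a d S → LDok F A → ∀ r : ℕ,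
    ∀ R : Fin (r + 1) → {P : F[X] // P.Monic ∧ Irreducible P},
    (DL F a d u S A).Ok (fun i => some (R i)) →
    (Even (nsp a (d * ∏ k, (R k).1)) ↔
      ∃ s : ℕ, Nat.card ((DL F a d u S A).Dk (fun i => some (R i)) 1) = 4 ^ s)

/-- **Cnc** (200 lines, uses `S_Ax`, `S_Ax3`, `S_Axl`, `S_GO`, `S_Prt`, `D.S_Lf`, `S.S_Plt`, `Loc.S_Ldv`, `Loc.S_Main`, `B.S_Evn`). THE CONCLUSION.

Proof. `Loc.S_Main` for `D = DL F a d u S A`, `x = z`, `z i = some (R i)`, `d₀ = d` (`piP (some P) = P`), the curve is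
`Wa (fun i => (d * ∏ R k) * a i)`. `Ldp` at all places: `D.S_Lf` and `Loc.S_Ldv` for `fun i => (d * ∏ R k) * a i`. `Good` at the other places:
`S.S_Plt` (3). By `B.S_Evn` `#(Dk z L) ≤ 8`, and if `nsp` is even (`S_Prt`) `Dk z L = T z`. (See `Sm/H/Cnc.lean`.) -/
def S_Cnc : Prop :=
  ∀ (F : Type) [Field F] [Finite F] (a : Fin 3 → F[X]) (d : F[X]) (u : F) (S : Finset (Pl F))
    (A : Pl F → Lcd F), Hy0 a d → (¬ ∃ b, b ^ 2 = u) → Sok a d S → LDok F A → ∀ r : ℕ,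
    ∀ R : Fin (r + 1) → {P : F[X] // P.Monic ∧ Irreducible P},
    (DL F a d u S A).Ok (fun i => some (R i)) → ∀ L, 1 ≤ L →
    Nat.card ((DL F a d u S A).Dk (fun i => some (R i)) L) < 16 →
    RkOne (C.Wa fun i => algebraMap F[X] (RatFunc F) ((d * ∏ k, (R k).1) * a i)) ∧
    (Even (nsp a (d * ∏ k, (R k).1)) →
      Finite (C.Wa fun i => algebraMap F[X] (RatFunc F) ((d * ∏ k, (R k).1) * a i)).toAffine.Point ∧
      ShaTwoFin (C.Wa fun i => algebraMap F[X] (RatFunc F) ((d * ∏ k, (R k).1) * a i)))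

end Pool.Agent.MP72B.HB
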