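import Pool.Agent.Lib.MP_72e2e6_nt.Sm.B.SpecD
import Pool.Agent.Lib.MP_72e2e6_nt.Sm.B.SpecG
import Pool.Agent.Lib.MP_72e2e6_nt.Sm.B.SpecH
import Pool.Agent.Lib.MP_72e2e6_nt.Sm.B.IntB
import Pool.Agent.Lib.MP_72e2e6_nt.Sm.N.SpecF
import Pool.Agent.Lib.MP_72e2e6_nt.Sm.G.SpecD

/-!
# MP_72e2e6_nt, `Sm/B`: statements with proofs, part F (the interface `S_FrmB`)

As `Sm/N/SpecF.lean` (files `Sm/N/F*.lean`: copy and change) without tameness. File `Sm/B/<Name>.lean` (import this file only) with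
`theorem t<Name> : .. → S_<Name>` (hypotheses in the order of the docstring), namespace `Pool.Agent.MP72B.Frm`, all other
declarations `private`. `HB.S_..` are the statements of `Sm/B/SpecH.lean`, `B.S_..` those of namespace `Pool.Agent.MP72B`,
`HD.S_..`, `Lv.S_..`, `LvU.S_..`, `D.S_..`, `C.S_..`, `SF.S_..`, `N.S_..` those of `Pool.Agent.MP72S.HD`, .., `Pool.Agent.MP72S.Frm`. The fixed
factor of the twists is `d * s` (`d ∈ sq0 a`, `s` the small part), the datum is `HB.DL F a (d * s) u S A = mkL (HD.DD F a (d * s) u S A)`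
(`toDat` of it is `HD.DD ..` by `rfl`).
-/

set_option autoImplicit false

namespace Pool.Agent.MP72B.Frm

open Finset Polynomial Pool.Agent.MP72W Pool.Agent.MP72T Pool.Agent.MP72S Pool.Agent.MP72S.Ns

/-- The assumptions on a frame (without the size conditions). -/
structure Fra {F : Type} [Field F] [Finite F] (a : Fin 3 → F[X]) (d : F[X]) (n h : ℕ) (s : F[X])
    (S : Finset (D.Pl F)) (r : ℕ) (n' : Fin (r + 1) → ℕ) : Prop where
  cur : Cur a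
  td : d ∈ sq0 a
  dh : (Dlt a).natDegree < h
  sml : s ∈ Sml F (Dlt a) h n
  sok : HD.Sok a (d * s) S
  sum : s.natDegree + ∑ i, n' i = n
  ge : ∀ i, h ≤ n' i
  four : 4 ≤ h
  odp : OdP s n'

/-- **FAri** (150 lines, copy of `Sm/G/Ari.lean`): `StmtSuSy.{0} → StmtPeSyl.{0} → D.S_Kl → HD.S_Vl → HB.S_Irf → Lv.S_Ksy → S_FAri` (only `Hy0.q4` is
used). -/
def S_FAri : Prop :=
  ∀ (F : Type) [Field F] [Finite F] (a : Fin 3 → F[X]) (d : F[X]) (u : F) (S : Finset (D.Pl F))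
    (A : D.Pl F → D.Lcd F), HB.Hy0 a d → (¬ ∃ b, b ^ 2 = u) → HD.Sok a d S → D.LDok F A →
    Lv.Arith (HD.DD F a d u S A) Lv.pq (HD.irr F S)

/-- **FIrc** (150 lines, copy of `Sm/G/Irc.lean`, the same hypotheses with `Hy0` in place of `Hy`; `Hy.tame` is not used there). -/
def S_FIrc : Prop :=
  ∀ (F : Type) [Field F] [Finite F] (a : Fin 3 → F[X]) (d : F[X]) (u : F) (S : Finset (D.Pl F))
    (A : D.Pl F → D.Lcd F), HB.Hy0 a d → HD.Sok a d S → D.LDok F A → Lv.Ird (HD.DD F a d u S A)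

/-- **FHy** (80 lines). The fixed factor.

Proof. See `Sm/N/FHy.lean`: `d` and `s` are coprime and squarefree, `s` is prime to `Dlt a`, the irreducible divisors of `d` divide `Dlt a`. -/
def S_FHy : Prop :=
  ∀ (F : Type) [Field F] [Finite F] (a : Fin 3 → F[X]), Cur a → ∀ d ∈ sq0 a, ∀ h n : ℕ,
    ∀ s ∈ Sml F (Dlt a) h n, HB.Hy0 a (d * s)

/-- **FSok** (200 lines, copy of `Sm/N/FSok.lean`). The fixed places. `tm0 a` is used there only for: the irreducible divisors of `d` divide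
`Dlt a`. -/
def S_FSok : Prop :=
  ∀ (F : Type) [Field F] [Finite F] (a : Fin 3 → F[X]), Cur a → ∀ d ∈ sq0 a, ∀ h n : ℕ,
    (Dlt a).natDegree < h → ∀ s ∈ Sml F (Dlt a) h n, ∀ S : Finset (D.Pl F),
    HD.Sok a (d * s) S →
    (∀ w ∈ S, (Lv.pq w).natDegree < h ∧ dgP (D.Pl.o w) ≤ h) ∧
    (open Classical in #(S.erase none) ≤ (Dlt a).natDegree + MP72S.Ns.om 1 h s) ∧
    (open Classical in ∑ w ∈ S.erase none, (Lv.pq w).natDegree ≤
      (Dlt a).natDegree + s.natDegree) ∧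
    ((∀ n w, w ∈ HD.irr F S n ↔ w ∈ SF.Irs F n ∧ w ∉ S) → ∀ k, h ≤ k →
      (HD.irr F S k : Set (D.Pl F)) = SF.Irs F k ∧ #(HD.irr F S k) = #(MP72e2e6.irr F k))

/-- **FTm** (200 lines): `D.S_QG → D.S_Kl → HD.S_Vl → HD.S_Nu → C.S_Goo → S_FTm`. The places of the primes of `s`.

Proof. `T1` = the set of the `v : TT` (`v ∈ S`, `v ≠ none`) with `pq v ∣ s`. Let `v = some P`. (1) If `P ∣ s` then `P` does not divide `Dlt a` (`s` is prime to
`Dlt a`) and does not divide `d` (`d ∈ sq0 a`), and `multiplicity P s = 1` (squarefree), so `multiplicity P (d * s) = 1` and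
`ch0 (τ_v) = hK (d * s) (τ_v) = 1` by `D.S_Kl` (1) with the exponent of `HD.S_Vl` (1). `τ_v • Q = Q`: `C.S_Goo` with `HD.S_Nu` (1), (4) (`P` does not divide
the factors `a i - a j` of `Dlt a`), see `unr` in `Sm/H/Ax.lean`. (2) If `P` does not divide `s` then it divides `d * Dlt a` (`Sok`, `HD.bad`, `P` is prime), so it divides
`Dlt a`; the number of the monic irreducible divisors of `Dlt a ≠ 0` is at most `natDegree (Dlt a)` (see `Sm/N/FSok.lean`). (3) If `P` is monic and irreducible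
and divides `s` then `some P ∈ S` (`Sok`). -/
def S_FTm : Prop :=
  ∀ (F : Type) [Field F] [Finite F] (a : Fin 3 → F[X]) (d : F[X]) (n h : ℕ) (s : F[X])
    (S : Finset (D.Pl F)) (r : ℕ) (n' : Fin (r + 1) → ℕ), Fra a d n h s S r n' →
    ∀ (u : F) (A : D.Pl F → D.Lcd F), D.LDok F A →
    ∃ T1 : Finset (Lv.TT (HD.DD F a (d * s) u S A)), (HB.DL F a (d * s) u S A).Tm1 T1 ∧
      Fintype.card (Lv.TT (HD.DD F a (d * s) u S A)) ≤ #T1 + (Dlt a).natDegree ∧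
      ∀ P : {P : F[X] // P.Monic ∧ Irreducible P}, P.1 ∣ s → ∃ v ∈ T1, v.1 = some P

/-- **FFru** (100 lines, copy of `Sm/N/FFru.lean`): `S_FSok → S_FFru`. -/
def S_FFru : Prop :=
  ∀ (F : Type) [Field F] [Finite F] (a : Fin 3 → F[X]) (d : F[X]) (n h : ℕ) (s : F[X])
    (S : Finset (D.Pl F)) (r : ℕ) (n' : Fin (r + 1) → ℕ), Fra a d n h s S r n' →
    ∀ (u : F) (A : D.Pl F → D.Lcd F) (A₀ : ℕ),
    A₀ * ((Dlt a).natDegree + om 1 h s + 1) ≤ r + 1 →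
    ((2 * n) ^ 2 * A₀ ^ ((Dlt a).natDegree + om 1 h s + (r + 1) + 1)) ^ 2 ≤ Nat.card F ^ h →
    LvU.FrU (HD.DD F a (d * s) u S A) Lv.pq A₀ (r + 1) n' h (2 * n)

/-- **FSzc** (200 lines, copy of `Sm/N/FSzc.lean`): `HB.S_Irf → Lv.S_Nir → S_FHy → S_FSok → S_FSzc`. The size conditions of the core. `ok`: for
`z ∈ tup` `z` is injective and `z i ∈ HD.irr F S (n' i)`, so `z i ∉ S` (no admissibility is needed). -/
def S_FSzc : Prop :=
  ∀ (F : Type) [Field F] [Finite F] (a : Fin 3 → F[X]) (d : F[X]) (n h : ℕ) (s : F[X])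
    (S : Finset (D.Pl F)) (r : ℕ) (n' : Fin (r + 1) → ℕ), Fra a d n h s S r n' →
    ∀ (u : F) (A : D.Pl F → D.Lcd F), (¬ ∃ b, b ^ 2 = u) → D.LDok F A → ∀ C₀ : ℕ,
    (∀ H : Subgroup (D.GQ F), H.Normal → IsOpen (H : Set (D.GQ F)) →
      ∀ T : Finset (D.Pl F), (∀ w, w ∉ T → (A w).rQ (A w).t ∈ H) → ∀ m,
      (C₀ * (H.index * (1 + ∑ w ∈ T, dgP (D.Pl.o w)))) ^ C₀ ≤ Nat.card F ^ m →
      {w ∈ SF.Irs F m | (A w).rQ (A w).f ∈ H}.ncard * H.relIndex (SF.Gb F) ≤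
        2 * (SF.Irs F m).ncard) →
    ∀ E L : ℕ, 3 * ((Dlt a).natDegree + 1 + om 1 h s + (r + 1)) + 70 ≤ L →
    (∀ i, 2 ^ (4 * L) * (2 * n' i) ≤ Nat.card F ^ n' i) →
    (C₀ * (2 ^ L ^ E * (1 + L ^ E * n))) ^ C₀ ≤ Nat.card F ^ n' (Fin.last r) →
    (HB.DL F a (d * s) u S A).Szc (SF.Gb F) E L (Fin.last r) fun i => HD.irr F S (n' i)

/-- **FTop** (150 lines, copy of `Sm/N/FTop.lean`): `HB.S_Irf → HB.S_Cnc → S_FHy → S_FSok → S_FTop`. From the groups `Dk` to the twists. `HB.S_Cnc` for the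
fixed factor `d * s` (`Ok` as in `FSzc`): `RkOne` and, if `nsp` is even, `Finite` and `ShaTwoFin` (`MP72Y.shaTwoFin_of`) for
`C.Wa fun i => algebraMap ((d * s * ∏ R k) * a i) = twd a (d * (s * ∏ R k))`, i.e. `GdB`. -/
def S_FTop : Prop :=
  ∀ (F : Type) [Field F] [Finite F] (a : Fin 3 → F[X]) (d : F[X]) (n h : ℕ) (s : F[X])
    (S : Finset (D.Pl F)) (r : ℕ) (n' : Fin (r + 1) → ℕ), Fra a d n h s S r n' →
    ∀ (u : F) (A : D.Pl F → D.Lcd F), (¬ ∃ b, b ^ 2 = u) → D.LDok F A → ∀ Lf : ℕ, 1 ≤ Lf →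
    #(tpl F n') ≤ ∏ i, #(HD.irr F S (n' i)) ∧
    {z ∈ tup fun i => HD.irr F S (n' i) |
      Nat.card ((HB.DL F a (d * s) u S A).Dk z Lf) < 16}.ncard ≤
      {z ∈ (tpl F n' : Set (Fin (r + 1) → F[X])) | GdB a (d * (s * ∏ i, z i))}.ncard

/-- **FFrm** (THE INTERFACE, 250 lines; copy of `Sm/N/FFrm.lean`): `D.S_Lo → D.S_Rq → D.S_Kk → B.S_VEnd → B.S_Lg1B → B.S_Lg2aB → B.S_Lg2B → SF.S_SplI → HB.S_Ax →
HB.S_Axl → HB.S_Irf → HD.S_Cm → S_FIrc → S_FAri → S_FHy → N.S_FNum → S_FTm → S_FFru → S_FSzc → S_FTop → S_FFrm`.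

Proof. `β = natDegree (Dlt a)`. `C`, `A₁` from `Lg1B` for `β`; `Lf` from `VEnd` for `C`, `ε / 6`; `K`, `A₂` from `Lg2aB` for `β`, `ε / 6`, `A₃` from `Lg2B` for `β`, `Lf`,
`ε / 6`; the rest as in `Sm/N/FFrm.lean`. `T1` from `FTm`; the parity hypothesis of `Lg2B`: if `P ∣ s` is monic, irreducible of odd degree then `v = some P ∈ T1` and
`ch v (τ_∞) = natDegree P = 1` (`Arith.deg`); otherwise some `n' i` is odd (`Fra.odp`). `Ok` for all `z ∈ tup`: `Szc.ok`. -/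
def S_FFrm : Prop := S_FrmB

end Pool.Agent.MP72B.Frm
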