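import Pool.Agent.Lib.MP_72e2e6_nt.Sm.B.SpecA
import Pool.Agent.Lib.MP_72e2e6_nt.Sm.S.Spec

/-!
# MP_72e2e6_nt, `Sm/B`: statements with proofs, part L (local theory at arbitrary places)

The local theory for general places (no tameness): the `2`-power torsion points over a local field
are finite in number, and every point over a local field is a torsion point plus `2 ^ k` times a
point. Consequences for the literal Tate-Shafarevich group and for the rank. Modules
`Sm/B/L<Name>.lean` (import this file only), theorem `t<Name> : S_Y → .. → S_<Name>`, namespace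
`Pool.Agent.MP72B.Loc`, all other declarations `private`. `C.S_..`, `D.S_..`, `S.S_..` are the proved statements
of the blocks C, D, S (full names `Pool.Agent.MP72S.C.S_..` and so on); `B.S_..` are those of `Sm/B/SpecA.lean`
(`Pool.Agent.MP72B.S_..`). Conventions on `DecidableEq` as in `Sm/S/Spec.lean`. `α i = al a L i`.
-/

namespace Pool.Agent.MP72B.Loc

open Finset WeierstrassCurve Polynomial Pool.Agent.MP72S

open Pool.Agent.MP72W (pmap IsCoc LocTriv InSha ShaTwoFin XY px py)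

open Pool.Agent.MP72S.C (Wa PA Hyp QC NN al ee act rr pt Plc P2)

open Pool.Agent.MP72S.S (GOk Tht LocC Good rs hgt)

open scoped Classical

/-! ### 1. Discreteness -/

/-- **Itg** (60 lines, uses `C.S_Vee`, `C.S_Rrq`). Torsion points are integral (homogeneous version of `C.S_Int`).

Proof. Induction on `n` for `2 ^ n • P = 0`, `P ≠ 0`. If `P + P = 0` then `P = ee j` and
`px P - α i = α j - α i`. Otherwise `P + P ≠ 0` is killed by `2 ^ (n - 1)`; `v (rr P i) ^ 2 = v (px (P + P) - α i) ≤ M`,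
so `v (rr P i) ≤ √M`, `v (rr P i + rr P j) ≤ √M`, and `px P - α i` is a product of two such sums (`C.S_Rrq` (5)). -/
def S_Itg : Prop :=
  ∀ (K : Type) [Field K] (a : Fin 3 → K) (L : Type) [Field L] [Algebra K L], Hyp a L →
    ∀ v : AbsoluteValue L ℝ, IsNonarchimedean v → ∀ M : ℝ, (∀ i j, v (al a L i - al a L j) ≤ M) →
    ∀ P : PA a L, (∃ n : ℕ, 2 ^ n • P = 0) → P ≠ 0 → ∀ i, v (px P - al a L i) ≤ M

/-- **Dsc** (150 lines, uses `C.S_Grp`, `C.S_Prd`). Discreteness of the points.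

Proof. Let `M` be the maximum and `m > 0` the minimum of the `v (α i - α j)`, `i ≠ j`; we may suppose `B ≥ M`. Choose
`0 < ε ≤ m`, `ε (B + 1) ≤ m ^ 2`. Let `x = px P`, `x' = px Q`, `h = x - x' ≠ 0`, `v h < ε`, `u i = x - α i`,
`A i = (x - α i) (x' - α i) - (α i - α j) (α i - α k) = u i ^ 2 - h u i - (α i - α j) (α i - α k)` (`{i, j, k} = {0, 1, 2}`).
IDENTITY: `A i - A j = (α j - α i) (2 u k - h)` (`ring`). CLAIM: `m ^ 2 ≤ v (A i)` for some `i`. Otherwise all
`v (2 u k - h) < m`, so `v (u k) = v (2 u k) < m` (`v h < m`) for all `k`, and `v (α i - α j) = v (u j - u i) < m`: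
contradiction. By `C.S_Prd` (1) `v (px (P + Q) - α i) * v (px (P - Q) - α i) = v (A i) ^ 2 / v h ^ 2 > m ^ 4 / ε ^ 2
≥ (B + 1) ^ 2`, so for `R = P + Q` or `R = P - Q` `v (px R - α i) > B ≥ M`, and then
`v (px R - α j) = v (px R - α i)` for all `j` (ultrametric, `v (α i - α j) ≤ M`). -/
def S_Dsc : Prop :=
  ∀ (K : Type) [Field K] (a : Fin 3 → K) (L : Type) [Field L] [Algebra K L], Hyp a L →
    ∀ v : AbsoluteValue L ℝ, IsNonarchimedean v → v 2 = 1 → ∀ B : ℝ, ∃ ε : ℝ, 0 < ε ∧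
    ∀ P Q : PA a L, P ≠ 0 → Q ≠ 0 → px P ≠ px Q → v (px P - px Q) < ε →
      (∀ i, B < v (px (P + Q) - al a L i)) ∨ ∀ i, B < v (px (P - Q) - al a L i)

/-- **Tsf** (200 lines, uses `C.S_Grp`, `C.S_Acp`, `C.S_Ppr`, `S_Itg`, `S_Dsc`). The torsion points over a local field.

Proof. (1) `v x = (1 / 2) ^ (ν x)` (`0` if `ν x = ⊤`) is a nonarchimedean absolute value with `v 2 = 1` (`Plc.mul`,
`add`, `two`, `top`). (2) CLAIM: for `n : ℕ`, `m : ℤ`, every set `X` of elements of `L` fixed by `t` and `f` with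
`ν x ≥ m` for `x ∈ X` and `ν (x - x') < m + n` for `x ≠ x'` in `X` is finite. Induction on `n`. `n = 0`: at most one
element. Step: the residues `r = res (x / π ^ m)`, `x ∈ X`, satisfy `r ^ q = r` (`Plc.rf`, `π ∈ K` is fixed), so they
are finite in number (`q ≥ 2`); for every `r` choose `x₀ ∈ X` with this residue; then the set of the `x - x₀`,
`x ∈ X` with the same residue, satisfies the hypotheses for `(m + 1, n)`: `res ((x - x₀) / π ^ m) = 0`, so
`ν (x - x₀) > m` (`Plc.r0`) and `ν (x - x₀) ≥ m + 1` (`Plc.int`, it is fixed by `t`). So `X` is a finite union of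
finite sets. (3) Let `x ≠ 0` be in the set, `P = pt x`. `act s P = ± P` for `s = t, f`, so `px P` is fixed by `t`, `f`
(`C.S_Acp` (3), `px (-P) = px P`). Let `M` be the maximum of the `v (α i - α j)`. By `S_Itg` `v (px P - α i) ≤ M`, so
`v (px P)` is bounded. By `S_Dsc` with `B = M`: for two such `P`, `Q` with `px P ≠ px Q` the points `P ± Q` are
nonzero torsion points, so `v (px P - px Q) ≥ ε` (`S_Itg`). So the set of the `px P` is finite by (2), and
every value belongs to at most two points (`C.S_Grp` (6)). -/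
def S_Tsf : Prop :=
  ∀ (K : Type) [Field K] (a : Fin 3 → K) (L : Type) [Field L] [Algebra K L] (k : Type) [Field k]
    (t f : Gal(L/K)) (q : ℕ) (ν : L → WithTop ℚ) (res : L → k), Hyp a L → Plc t f q ν res →
    (∃ π : K, ν (algebraMap K L π) = ((1 : ℚ) : WithTop ℚ)) →
    {x : NN a L | (t • x = x ∨ t • x = -x) ∧ (f • x = x ∨ f • x = -x)}.Finite

/-- **Lme** (150 lines, uses `C.S_Bs2`). Homomorphisms with a given finite kernel.

Proof. Strong induction on the order of `T`. `T = 0`: the identity. Let `T ≠ 0`; it contains an element `u₁ ≠ 0`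
with `2 • u₁ = 0` (`P2.prim`). Choose halves `u 0 = 0`, `u 1 = u₁`, `2 • u (n + 1) = u n`, and `w` with `Bas u w`
(`C.S_Bs2` (2)). Every `x` is `k • u n + l • w n` for some `n` (`2 ^ n • x = 0`), with `k`, `l` unique modulo `2 ^ n`, and
`k • u n + l • w n = (k 2 ^ m) • u (n + m) + (l 2 ^ m) • w (n + m)`; so `g x = 2 k • u n + l • w n` is well defined
and additive. Its kernel is `{0, u 1}` (`2 ^ n ∣ 2 k`, `2 ^ n ∣ l`), and it is surjective: `k • u n + l • w n =
g (k • u (n + 1) + 2 l • w (n + 1))`. `T' = g (T)` has half as many elements; let `f'` be as in the claim for `T'`,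
`f = f' ∘ g`: `f x = 0` iff `g x ∈ g (T)` iff `x ∈ T` (`ker g ⊆ T`). -/
def S_Lme : Prop :=
  ∀ (N : Type) [AddCommGroup N], P2 N → ∀ T : AddSubgroup N, Finite T →
    ∃ f : N →+ N, Function.Surjective f ∧ ∀ x, f x = 0 ↔ x ∈ T

end Pool.Agent.MP72B.Loc

namespace Pool.Agent.MP72B

open Finset Pool.Agent.MP72S

open Classical in
/-- The datum with general local conditions belonging to a datum. -/
noncomputable def mkL {G N P : Type} [Group G] [AddCommGroup N] [DistribMulAction G N]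
    (D : Dat G N P) : DatL G N P where
  toDat := D
  lam s a b :=
    if h : ∃ f : N →+ N, Function.Surjective f ∧
      ∀ x, f x = 0 ↔ sg a (D.tau s • x) = x ∧ sg b (D.phi s • x) = x then h.choose else 0

end Pool.Agent.MP72B

namespace Pool.Agent.MP72B.Loc

open Finset WeierstrassCurve Polynomial Pool.Agent.MP72S

open Pool.Agent.MP72W (pmap IsCoc LocTriv InSha ShaTwoFin XY px py)

open Pool.Agent.MP72S.C (Wa PA Hyp QC NN al ee act rr pt Plc P2)

open Pool.Agent.MP72S.S (GOk Tht LocC Good rs hgt)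

open scoped Classical

/-- **Mkl** (80 lines, uses `S_Lme`, `B.S_IsoE`). The datum `mkL D` satisfies the axioms.

Proof. `P2 N` from `Ax` (`prim`, `dvs`, `four`). For `s ∈ S` and `a, b` the set `T` of the `x` with `sg a (tau • x) = x`,
`sg b (phi • x) = x` is a subgroup, contained in the finite set of the hypothesis; so `S_Lme` gives the
homomorphism, and `lam s a b` is such a homomorphism. `tw χ g Q = sg (χ g) (g • Q)` by definition. `iso`: `B.S_IsoE`. -/
def S_Mkl : Prop :=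
  ∀ {G N P R : Type} [Group G] [TopologicalSpace G] [AddCommGroup N] [DistribMulAction G N]
    [AddCommGroup R] [DistribMulAction G R] (D : Dat G N P) (E : ℕ → N → N → R) (hf : R),
    Ax D → Ax3 D E hf → (∀ s ∈ D.S, {x : N | (D.tau s • x = x ∨ D.tau s • x = -x) ∧
      (D.phi s • x = x ∨ D.phi s • x = -x)}.Finite) → AxL (mkL D)

/-! ### 2. Local divisibility -/

/-- **Pgk** (120 lines, uses `D.S_Lc`). Pigeonhole principle in the completion.

Proof. Let `ϖ` be as in `LF`, `p = v ϖ ∈ (0, 1)`. CLAIM: for `k : ℕ`, `m : ℤ`, every infinite set `I ⊆ ℕ` such that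
`‖x n - c‖ ≤ p ^ m` for all `n ∈ I` (for some `c`) contains an infinite set `I'` such that `‖x n - c'‖ ≤ p ^ (m + k)` for
all `n ∈ I'` (for some `c'`). It suffices to consider `k = 1`: `(x n - c) / ϖ ^ m` has norm at most `1`, so it is at
distance less than `1` from some `r ∈ R` (`D.S_Lc` (5)); the same `r` occurs for infinitely many `n`, and a norm
less than `1` is at most `p` (`D.S_Lc` (4)); `c' = c + r ϖ ^ m`. Choose `m` with `M ≤ p ^ m` and `k` with `p ^ (m + k) < ε`. -/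
def S_Pgk : Prop :=
  ∀ (F : Type) [Field F] [Finite F] (v : AbsoluteValue (RatFunc F) ℝ) (d : ℕ)
    (ϖ : RatFunc F) (R : Finset (RatFunc F)), MP72W.LF v d ϖ R →
    ∀ (M ε : ℝ), 0 < ε → ∀ x : ℕ → v.Completion, (∀ n, ‖x n‖ ≤ M) →
      ∃ n n', n < n' ∧ ‖x n - x n'‖ < ε

/-- **E1d** (150 lines, uses `C.S_Grp`, `C.S_Hal`, `S.S_Sq1`). The points near to `O` are divisible by two.

Proof. `P = 0`: `Q = 0`. `P = (x, y)`, `u i = x - α i`, `‖u i‖ > M`, `‖u i - u j‖ ≤ M`, so all `‖u i‖` are equal to some `ρ > M`,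
`ρ > 0`. By `S.S_Sq1` `u j = u 0 * s j ^ 2` for `j = 1, 2`; `‖s j ^ 2 - 1‖ < 1`, so after changing the sign
`‖s j - 1‖ < 1` (`(s j - 1) (s j + 1)`, the sum of the factors.. one of them has norm less than `1`). `y ^ 2 =
u 0 ^ 3 (s 1 s 2) ^ 2`, `r 0 = y / (u 0 s 1 s 2)`, `r 0 ^ 2 = u 0`, `r j = r 0 s j`, `r j ^ 2 = u j`. `r 0 r 1 r 2 = ± y`; if it is
`- y` replace all `r i` by `- r i`. `C.S_Hal` gives `Q` with `Q + Q = P` and
`px Q - α i = (r i + r (i + 1)) (r i + r (i + 2))`; `r i + r j = 2 r i + (r j - r i)` has the norm of `r i`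
(`‖r j - r i‖ < ‖r i‖`), so `‖px Q - α i‖ = ρ > M`. -/
def S_E1d : Prop :=
  ∀ (K : Type) [Field K] (a : Fin 3 → K) (L : Type) [NormedField L] [CompleteSpace L]
    [IsUltrametricDist L] [Algebra K L] [DecidableEq L], Hyp a L → ‖(2 : L)‖ = 1 → ∀ M : ℝ,
    (∀ i j, ‖al a L i - al a L j‖ ≤ M) → ∀ P : PA a L,
    (P = 0 ∨ ∀ i, M < ‖px P - al a L i‖) →
      ∃ Q : PA a L, (Q = 0 ∨ ∀ i, M < ‖px Q - al a L i‖) ∧ 2 • Q = P

/-- Every point is a torsion point plus `2 ^ k` times a point. -/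
def Ldp {K : Type} [Field K] (a : Fin 3 → K) (L : Type) [Field L] [Algebra K L] : Prop :=
  ∀ (k : ℕ) (P : PA a L), ∃ (T R : PA a L) (m : ℕ), 2 ^ m • T = 0 ∧ P = T + 2 ^ k • R

/-- **Ldv** (150 lines, uses `C.S_Grp`, `D.S_Lc`, `S_Dsc`, `S_Pgk`, `S_E1d`). Local divisibility.

Proof. `L = v.Completion` is a complete ultrametric field (`D.S_Lc` (3)), `‖2‖ = 1`; the norm is an absolute value
on `L`. Let `M` be the maximum of the `‖α i - α j‖`; call `P` near if `P = 0` or `M < ‖px P - α i‖` for all `i`. Let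
`P n = 2 ^ n • P`. CLAIM: there are `n` and an odd integer `c` such that `c 2 ^ n • P` is near. If some `P n` is
near take `c = 1`. Otherwise every `‖px (P n)‖` is bounded (`‖px (P n) - α i‖ ≤ M` for some `i`), and `S_Pgk` gives
`n < n'` with `‖px (P n) - px (P n')‖ < ε`, `ε` from `S_Dsc` with `B = M`. If `px (P n) = px (P n')` then
`P n' = ± P n` and `P n' ∓ P n = 0` is near (`C.S_Grp` (6)); otherwise `P n + P n'` or `P n - P n'` is near by `S_Dsc`. These
points are `c 2 ^ n • P` with `c = 1 ± 2 ^ (n' - n)`, odd. By `S_E1d` (iterated) `c 2 ^ n • P = 2 ^ (n + k) • R₂`, so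
`T₁ = c • P - 2 ^ k • R₂` satisfies `2 ^ n • T₁ = 0`. Let `u c + w 2 ^ k = 1`, `u, w ∈ ℤ`. Then
`P = u c • P + w 2 ^ k • P = u • T₁ + 2 ^ k • (u • R₂ + w • P)`. -/
def S_Ldv : Prop :=
  ∀ (F : Type) [Field F] [Finite F], (2 : F) ≠ 0 → ∀ (v : AbsoluteValue (RatFunc F) ℝ) (d : ℕ)
    (ϖ : RatFunc F) (R : Finset (RatFunc F)), MP72W.LF v d ϖ R →
    ∀ a : Fin 3 → RatFunc F, Hyp a (RatFunc F) → Ldp a v.Completion

/-! ### 3. Cocycles -/

/-- **Trg** (150 lines, uses `D.S_Re`, `S.S_Dvo`). Locally trivial cocycles at arbitrary places.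

Proof. As `S.S_Trm` (file `Sm/S/Trm.lean`, copy it; `trm_aux` there with the hypothesis `Ldp a M` in place of `hM`):
`R₀ = T + 2 ^ k • R`, `2 ^ m • T = 0`, `Q₁ = Q₀ - (image of R)`, `2 ^ k • Q₁` is the image of `T`, so
`2 ^ (k + m) • Q₁ = 0`. -/
def S_Trg : Prop :=
  ∀ (K : Type) [Field K] (Q : IntermediateField K (SeparableClosure K)) [Normal K Q]
    (a : Fin 3 → K), Hyp a K → ∀ (av : AbsoluteValue K ℝ) (g h : Gal(Q/K)), LocC Q av g h →
    Ldp a av.Completion → ∀ z, IsCoc (Wa a) z → (∃ k : ℕ, ∀ σ, 2 ^ k • z σ = 0) →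
      LocTriv (Wa a) z av.Completion →
      ∃ (R : PA a (SeparableClosure K)) (m : ℕ) (σ σ' : Gal(SeparableClosure K/K)),
        2 ^ m • R = 0 ∧ rs Q σ = g ∧ rs Q σ' = h ∧
        z σ = pmap (Wa a) (σ : SeparableClosure K →ₐ[K] SeparableClosure K) R - R ∧
        z σ' = pmap (Wa a) (σ' : SeparableClosure K →ₐ[K] SeparableClosure K) R - R

/-- Every locally trivial cocycle of order a power of two comes from a Selmer cocycle. -/
def TypOkL {K : Type} [Field K] (W : WeierstrassCurve K)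
    (Q : IntermediateField K (SeparableClosure K)) [Normal K Q] {N P : Type} [AddCommGroup N]
    [DistribMulAction Gal(Q/K) N] (D : DatL Gal(Q/K) N P) {ι : Type} [Fintype ι] (x : ι → P)
    (θ : N → (W⁄(SeparableClosure K)).toAffine.Point) : Prop :=
  ∀ z, InSha W z → (∃ k : ℕ, ∀ σ, 2 ^ k • z σ = 0) →
    ∃ t ψ, D.IsZ x t ψ ∧ ∀ σ, θ (ψ (rs Q σ)) = z σ

/-- **Typ** (100 lines, uses `S.S_Unr`, `S_Trg`, `S.S_Inf`). The Selmer cocycle of a locally trivial cocycle.

Proof. As `S.S_Typ` (file `Sm/S/Typ.lean`), with `S_Trg` in place of `S.S_Trm` at all the places of `range (D.pl x)` and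
`t j = D.lm x j Q_j`. -/
def S_Typ : Prop :=
  ∀ (K : Type) [Field K] (a : Fin 3 → K) (Q : IntermediateField K (SeparableClosure K))
    [Normal K Q] (P ι : Type) [Fintype ι] (D : DatL Gal(Q/K) (NN a Q) P)
    (av : P → AbsoluteValue K ℝ) (π : P → K) (d₀ : K), GOk a Q D.toDat av π d₀ →
    ∀ (x : ι → P) (dd : K) (θ : NN a Q → PA (fun i => dd * a i) (SeparableClosure K)), dd ≠ 0 →
    Tht (Wa fun i => dd * a i) Q (D.chi x) θ →
    (∀ v ∈ Set.range (D.pl x), Ldp (fun i => dd * a i) (av v).Completion) →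
    (∀ v, v ∉ Set.range (D.pl x) → Good (av v) fun i => dd * a i) →
    TypOkL (Wa fun i => dd * a i) Q D x θ

/-- **Exs** (120 lines, uses `B.S_Fix`, `B.S_Uq`, `B.S_Tin`, `B.S_TyU`, `B.S_Inj`, `MP72S.S_Bas`). Exponent and finiteness of
the Selmer group.

Proof (compare `Sm/S/Exs.lean`). `ℓ = L - 1`. (1) For `t ∈ Z x` there is `w ∈ N` with `2 ^ ℓ • t = tv x w`: `2 ^ n • t = 0` for
some `n` (finitely many components, `Ax.prim`); induction on `n`: `n ≤ ℓ`: `w = 0`. `n ≥ L`: `2 ^ (n - L) • t ∈ Z x ⊓ tor L`, so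
`2 ^ (n - 1) • t = 2 ^ ℓ • (2 ^ (n - L) • t) ∈ Dk x L ≤ T x`, so it is `tv x R`, `4 • R = 0`. Choose `w₀` with
`2 ^ (n - 1) • w₀ = R`; `tv x w₀ ∈ Z x` (`Tin`) and `2 ^ (n - 1) • (t - tv x w₀) = 0` (`tv` is additive), so by induction
`2 ^ ℓ • (t - tv x w₀) = tv x w₁`, `w = w₁ + 2 ^ ℓ • w₀`. (2) Let `IsZ x t ψ`, `2 ^ ℓ • t = tv x w`, `w = 2 ^ ℓ • R`.
`ψ₁ = ψ - (tw R - R)` is a Selmer cocycle of type `t₁ = t - tv x R` and `2 ^ ℓ • t₁ = 0`, so `2 ^ ℓ • ψ₁ = 0` (`Uq` (1), (5)).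
(3) Finiteness: if `IsZ x t ψ` and `2 ^ ℓ • ψ = 0`, then `2 ^ ℓ • t` is a type of the zero cocycle (`IsZ` is closed under
multiples), so it is `0` (`TyU` (1), `DatL.isZ_zero`); `ψ` is determined by `t` (`Uq` (1)) and there are finitely many `t`
(`MP72S.S_Bas` (2)). -/
def S_Exs : Prop :=
  ∀ {G N P ι : Type} [Group G] [TopologicalSpace G] [AddCommGroup N] [DistribMulAction G N]
    [Fintype ι] [DecidableEq ι] (D : DatL G N P), AxL D → ∀ x : ι → P, D.Ok x → ∀ L : ℕ, 1 ≤ L →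
    D.Dk x L ≤ D.T x →
    {ψ : G → N | (∃ t, D.IsZ x t ψ) ∧ ∀ σ, 2 ^ (L - 1) • ψ σ = 0}.Finite ∧
    ∀ t (ψ : G → N), D.IsZ x t ψ → ∃ (ψ₁ : G → N) (R : N), (∃ t₁, D.IsZ x t₁ ψ₁) ∧
      (∀ σ, 2 ^ (L - 1) • ψ₁ σ = 0) ∧ ∀ σ, ψ σ = ψ₁ σ + (tw (D.chi x) σ R - R)

/-- **Sha** (100 lines, uses `MP72W.S_Shg`, `S.S_Dvo`, `S_Exs`). Finiteness of `Sha[2^∞]`.

Proof. Part (1) of the proof of `S.S_Sfn` (file `Sm/S/Sfn.lean`). -/
def S_Sha : Prop :=
  ∀ (K : Type) [Field K] (b : Fin 3 → K) (Q : IntermediateField K (SeparableClosure K))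
    [Normal K Q] (N P ι : Type) [AddCommGroup N] [DistribMulAction Gal(Q/K) N] [Fintype ι]
    [DecidableEq ι] (D : DatL Gal(Q/K) N P) (x : ι → P)
    (θ : N → PA b (SeparableClosure K)), Hyp b K → Tht (Wa b) Q (D.chi x) θ → AxL D → D.Ok x →
    TypOkL (Wa b) Q D x θ → ∀ L : ℕ, 1 ≤ L → D.Dk x L ≤ D.T x → ShaTwoFin (Wa b)

/-- **Wmw** (200 lines, uses `MP72W.S_Shg`, `S.S_Dvo`, `B.S_Uq`, `B.S_TyU`). The Kummer image lies in the image of the
Selmer group of level `L`.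

Proof. Let `L ≥ 1`, `e ∈ PA b K`, `e₁` its image over `K^s`, `P` with `2 ^ L • P = e₁` (`S.S_Dvo` (1); `K^s` is closed under
square roots). `z = ∂P` is `InSha` (`MP72W.S_Shg`) and `2 ^ L • z = 0` (`e₁` is fixed). By `TypOkL` there are `t`, `ψ` with
`IsZ x t ψ`, `θ (ψ (rs Q σ)) = z σ`. `2 ^ L • ψ = 0` (`θ` is injective and additive, `rs Q` is surjective), so `2 ^ L • t` is
the type of the zero cocycle and `2 ^ L • t = 0` (`B.S_TyU` (1)). Put `g e = 2 ^ (L - 1) • t ∈ Dk x L` (by choice). Let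
`g e = g e'` with `(P, t, ψ)`, `(P', t', ψ')`. Then `2 ^ (L - 1) • (ψ - ψ')` is a Selmer cocycle of type `0`, so it is `0`
(`Uq` (1)), and `R = 2 ^ (L - 1) • (P - P')` is fixed by the Galois group, so `R` is the image of some `c ∈ PA b K`
(`K^s / K` is Galois; compare `Sm/S/Sfn.lean` part (2)), and `2 • c = e - e'` (`pm_inj`). -/
def S_Wmw : Prop :=
  ∀ (K : Type) [Field K] (b : Fin 3 → K) (Q : IntermediateField K (SeparableClosure K))
    [Normal K Q] (N P ι : Type) [AddCommGroup N] [DistribMulAction Gal(Q/K) N] [Fintype ι]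
    [DecidableEq ι] (D : DatL Gal(Q/K) N P) (x : ι → P)
    (θ : N → PA b (SeparableClosure K)), Hyp b K → Tht (Wa b) Q (D.chi x) θ → AxL D → D.Ok x →
    TypOkL (Wa b) Q D x θ → ∀ L : ℕ, 1 ≤ L → ∃ g : PA b K → (D.J ι → N),
      (∀ e, g e ∈ D.Dk x L) ∧ ∀ e e', g e = g e' → ∃ c, e - e' = 2 • c

/-! ### 4. Heights and the rank -/

/-- **Htr** (250 lines, uses `C.S_Grp`). Heights and translations.

Proof. `δ ≠ 0` as in `S.S_Hdb`: a nonzero polynomial such that `A = δ (e 0 - e 1)`, `B = δ (e 0 - e 2)` are polynomials; any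
`δ` will do: enlarge the constants. Let `s = x - e 0`, `U = δ s`, `h P = hgt δ (e 0) P = max (deg num U) (deg denom U)`.
Let `Q` be fixed. For `Q = 0` and for the finitely many `P` with `P = 0` or `px P = px Q` choose `C` large. Let
`P = (x, y)`, `Q = (x', y')`, `x ≠ x'`, `s = x - e 0`, `s' = x' - e 0`. By `C.S_Grp` (7)
`(px (P + Q) - e 0) (s - s') ^ 2 = (y - y') ^ 2 - (s + s' + (e 0 - e 1) + (e 0 - e 2)) (s - s') ^ 2`
(with `y ^ 2 = s (s + (e 0 - e 1)) (s + (e 0 - e 2))` the terms `s ^ 3` cancel), and the right side is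
`c₂ s ^ 2 + c₁ s + c₀ - 2 y' y` with constants `c i ∈ F(t)` depending only on `Q`. Let `U = X / Z` in lowest terms. Multiply
by `Z ^ 2`: `(px (P + Q) - e 0) (X / δ - s' Z) ^ 2 = c₂ X ^ 2 / δ ^ 2 + c₁ X Z / δ + c₀ Z ^ 2 - 2 y' y Z ^ 2`. `(y Z ^ 2) ^ 2 =
y ^ 2 Z ^ 4` is a polynomial in `X`, `Z` divided by a power of `δ`, of degree at most `4 h + c`; so `w = δ ^ 3 y Z ^ 2` is a
polynomial (its square is; `F[X]` is integrally closed) of degree at most `2 h + c`. Multiplying with a common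
denominator of the constants we get `U (P + Q) = δ (px (P + Q) - e 0) = N / M` with polynomials `N`, `M ≠ 0` of degree at
most `2 h + C`; so `hgt (P + Q) ≤ 2 h + C` (`num`, `denom` divide `N`, `M` up to common factors). -/
def S_Htr : Prop :=
  ∀ (F : Type) [Field F] (e : Fin 3 → RatFunc F), Hyp e (RatFunc F) → ∀ δ : RatFunc F, δ ≠ 0 →
    ∀ Q : PA e (RatFunc F), ∃ C : ℕ, ∀ P : PA e (RatFunc F),
      hgt δ (e 0) (P + Q) ≤ 2 * hgt δ (e 0) P + C

/-- **Fgr** (200 lines). Abelian groups with a height.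

Proof. Mathlib: `AddCommGroup.fg_of_descent` (`Mathlib/GroupTheory/Descent.lean`) with `n = 2`, `a = 2`, `b = 4`,
`h x` as a real number: `A` is finitely generated (`A ⧸ 2 A` has at most `m` elements: `g` is injective on representatives;
`h x ≤ 2 h (g + x) + C`: use the hypothesis for `P = g + x`, `Q = - g`). By
`AddCommGroup.equiv_free_prod_directSum_zmod` `A ≃+ (Fin n →₀ ℤ) × T` with `T` finite. `A ⧸ 2 A` has
`2 ^ n * #(T ⧸ 2 T) = 2 ^ n * #{x ∈ T | x + x = 0} = 2 ^ n * 4` elements (kernel and cokernel of the multiplication by two on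
the finite group `T` have the same order; the elements of order two of `A` are in `T`), so `2 ^ n * 4 ≤ m`. `m < 8`: `n = 0`
and `A` is finite. `m < 16`: `n ≤ 1`; `n = 0`: `P = 0`; `n = 1`: `P` = the element belonging to the generator of `ℤ`, the
quotient is `≃ T`. -/
def S_Fgr : Prop :=
  ∀ (A : Type) [AddCommGroup A] (h : A → ℕ) (B : ℕ), (∀ P, 4 * h P ≤ h (P + P) + B) →
    (∀ Q, ∃ C : ℕ, ∀ P, h (P + Q) ≤ 2 * h P + C) → (∀ n : ℕ, {P | h P ≤ n}.Finite) →
    Nat.card {P : A // P + P = 0} = 4 → ∀ (X : Type) (S : Set X), S.Finite → ∀ g : A → X,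
    (∀ e, g e ∈ S) → (∀ e e', g e = g e' → ∃ c, e - e' = 2 • c) →
    (S.ncard < 8 → Finite A) ∧ (S.ncard < 16 → ∃ P : A, Finite (A ⧸ AddSubgroup.zmultiples P))

/-- **Main** (80 lines, uses `S.S_Kum`, `S.S_Twt`, `S_Typ`, `S_Sha`, `S_Wmw`, `S.S_Hdb`, `S_Htr`, `S_Fgr`, `C.S_Vee`, `B.S_Dk1`).
THE THEOREM OF PART L.

Proof. As `Sm/S/Main.lean`: `dd = d₀ ∏ π (x i)`, `θ`, `TypOkL`. `S_Wmw` gives `g`, with values in the finite set `Dk x L`
(`B.S_Dk1`), and `S_Fgr` with the height of `S.S_Hdb` (`four`: `C.S_Vee` (2), (3), (4)). In the second case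
`Dk x L ≤ T x` has at most `4 < 8` elements (`B.S_Dk1`). (`(Wa b)⁄K = Wa b` as in `Sm/S/Main.lean`.) -/
def S_Main : Prop :=
  ∀ (F : Type) [Field F] [Finite F] (a : Fin 3 → RatFunc F)
    (Q : IntermediateField (RatFunc F) (SeparableClosure (RatFunc F))) (P ι : Type) [Fintype ι]
    [DecidableEq ι] [Nonempty ι] (D : DatL Gal(Q/RatFunc F) (NN a Q) P)
    (av : P → AbsoluteValue (RatFunc F) ℝ)
    (π : P → RatFunc F) (d₀ : RatFunc F), GOk a Q D.toDat av π d₀ → AxL D → ∀ x : ι → P, D.Ok x →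
    (∀ v ∈ Set.range (D.pl x), Ldp (fun i => (d₀ * ∏ k, π (x k)) * a i) (av v).Completion) →
    (∀ v, v ∉ Set.range (D.pl x) → Good (av v) fun i => (d₀ * ∏ k, π (x k)) * a i) →
    ∀ L : ℕ, 1 ≤ L →
      (Nat.card (D.Dk x L) ≤ 8 → ∃ e : (Wa fun i => (d₀ * ∏ k, π (x k)) * a i).toAffine.Point,
        Finite ((Wa fun i => (d₀ * ∏ k, π (x k)) * a i).toAffine.Point ⧸
          AddSubgroup.zmultiples e)) ∧
      (D.Dk x L ≤ D.T x → Finite (Wa fun i => (d₀ * ∏ k, π (x k)) * a i).toAffine.Point ∧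
        ShaTwoFin (Wa fun i => (d₀ * ∏ k, π (x k)) * a i))

end Pool.Agent.MP72B.Loc
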