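import Pool.Agent.Lib.MP_72e2e6_nt.Sm.B.SpecA

/-!
# MP_72e2e6_nt, `Sm/B`: statements with proofs, part N (cubes with families of types)

`S_X` here is the statement `MP72S.S_X` of `Sm/N/SpecA.lean` for `DatL`, `AxL`. THE PROOFS ARE THE PROOFS THERE (files
`Sm/N/X.lean`: copy and change) with `D.lm x j Q = t j` in place of `2 • Q = t j`, `D.tv x R` (`2 • R = s`) in place of the
constant type `s`, `S_Fix`, `S_Lfx` in place of the statements on elements of order two and four, and `S_Cst` in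
place of the old `S_LemB` (for the constant type `ν`). All vertices of a good cube have the same `lm`
(`S_Chi`). Conventions as in `Sm/B/SpecA.lean`. In `IsW` there is no condition `4 Q = 0` any more.
-/

namespace Pool.Agent.MP72B

open Finset Pool.Agent.MP72S

/-- Module `SepF` (faces; uses `S_Chi`). -/
def S_SepF : Prop :=
  ∀ {G N P ι : Type} [Group G] [TopologicalSpace G] [AddCommGroup N] [DistribMulAction G N]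
    [Fintype ι] [DecidableEq ι] (D : DatL G N P), AxL D → ∀ (x y : ι → P) (U I₀ : Finset ι)
    (Ξ : Finset (D.J ι)), D.Gd x y U → U ⊆ I₀ → D.Sep x I₀ Ξ → ∀ A ⊆ U, D.Sep (mx x y A) I₀ Ξ

/-- Module `SepS` (uses `S_Tai`). -/
def S_SepS : Prop :=
  ∀ {G N P ι : Type} [Group G] [TopologicalSpace G] [AddCommGroup N] [DistribMulAction G N]
    [Fintype ι] [DecidableEq ι] (D : DatL G N P), AxL D → ∀ (x z : ι → P) (I₀ : Finset ι)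
    (Ξ : Finset (D.J ι)), D.Ok x → D.Ok z → (∀ i, i ∉ I₀ → x i = z i) → D.Sy x = D.Sy z →
    D.Sep x I₀ Ξ → D.Sep z I₀ Ξ

/-- Module `TyX` (uses `S_Uq`, `S_Tai`, `S_TyU`, `S_Fix`). At `j ∈ Ξ` fixed: `lm Q = δ' j = 0`, so `tw Q - Q = 0` by `Fix` (1). -/
def S_TyX : Prop :=
  ∀ {G N P ι : Type} [Group G] [TopologicalSpace G] [AddCommGroup N] [DistribMulAction G N]
    [Fintype ι] [DecidableEq ι] (D : DatL G N P), AxL D → ∀ (x : ι → P) (I₀ : Finset ι)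
    (Ξ : Finset (D.J ι)), D.Ok x → D.Sep x I₀ Ξ → ∀ t ∈ D.Z x, ∀ t' ∈ D.Z x, ∀ k : ℕ,
    2 ^ k • t = 2 ^ k • t' → (∀ j ∈ Ξ, t j = t' j) → t = t'

/-- Module `Thx` (uses `MP72S.S_Hom`, `S_Uq`, `S_Dk1`, `S_Tai`, `S_Fix`). For `ν` in the kernel of `W → V ^ I₀` the type is
`t j = lm x j Q_j` at the fixed indices (`2 lm Q_j = 0` by `Fix` (4), as `ν` has values in `V`) and `t (inr i) = 0` for `i ∈ I₀`. -/
def S_Thx : Prop :=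
  ∀ {G N P ι : Type} [Group G] [TopologicalSpace G] [AddCommGroup N] [DistribMulAction G N]
    [Fintype ι] [DecidableEq ι] (D : DatL G N P), AxL D → ∀ (x : ι → P), D.Ok x →
    ∀ I₀ : Finset ι, ∃ Ξ : Finset (D.J ι), D.Sep x I₀ Ξ ∧
      2 ^ #Ξ ≤ 8 ^ #I₀ * Nat.card (D.Dk x 1)

/-- Module `VLemB`. PROOF (see `Sm/N/VLemB.lean`). In (iii) `Q = ∑ (-1)^#w Q_w` is a local datum of `Φ`; at `j' ∈ Ξ` fixed
`lm x j' Q = ∑ (-1)^#w θ j' = 0`, so `Φ (τ_v) = 0 = Φ (φ_v)` by `Fix` (1). SECOND CLAIM: `Φ = 0` gives `tw Q = Q` at `τ`, `φ`, so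
`0 = lm x j' Q = alt x y U (fun z => t z j')`. -/
def S_VLemB : Prop :=
  ∀ {G N P ι : Type} [Group G] [TopologicalSpace G] [AddCommGroup N] [DistribMulAction G N]
    [Fintype ι] [DecidableEq ι] (D : DatL G N P), AxL D → ∀ (x y : ι → P) (U I₀ : Finset ι)
    (Ξ : Finset (D.J ι)), D.Gd x y U → U ⊆ I₀ → D.Sep x I₀ Ξ → ∀ (j : ℕ) (θ : D.J ι → N)
    (t : (ι → P) → D.J ι → N), j ≤ #U → (∀ w ⊆ U, 2 ^ j • t (mx x y w) = 0) →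
    (∀ w ⊆ U, ∀ k ∈ Ξ, t (mx x y w) k = θ k) → (∀ i ∈ U, 2 ^ (j - 1) • θ (Sum.inr i) = 0) →
    (∀ w ⊆ U, t (mx x y w) ∈ D.Z (mx x y w)) →
    (∀ σ, alt x y U (fun z => D.coc z (t z) σ) = 0) ∧ (U.Nonempty → alt x y U t = 0)

/-- Module `VPar`. -/
def S_VPar : Prop :=
  ∀ {G N P ι : Type} [Group G] [TopologicalSpace G] [AddCommGroup N] [DistribMulAction G N]
    [Fintype ι] [DecidableEq ι] (D : DatL G N P), AxL D → ∀ (x y : ι → P) (U₀ I₀ : Finset ι)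
    (Ξ : Finset (D.J ι)), D.Gd x y U₀ → U₀ ⊆ I₀ → D.Sep x I₀ Ξ → ∀ U ⊆ U₀, ∀ W ⊆ U₀,
    Disjoint U W → ∀ (θ : D.J ι → N) (t : (ι → P) → D.J ι → N),
    (∀ w ⊆ U₀, 2 ^ (#U + 1) • t (mx x y w) = 0) →
    (∀ w ⊆ U₀, ∀ k ∈ Ξ, t (mx x y w) k = θ k) → (∀ i ∈ U₀, 2 ^ #U • θ (Sum.inr i) = 0) →
    (∀ w ⊆ U₀, t (mx x y w) ∈ D.Z (mx x y w)) →
    ∀ σ, alt (mx x y W) y U (fun z => D.coc z (t z) σ) = alt x y U (fun z => D.coc z (t z) σ)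

/-- Module `VLemD`. -/
def S_VLemD : Prop :=
  ∀ {G N P ι : Type} [Group G] [TopologicalSpace G] [AddCommGroup N] [DistribMulAction G N]
    [Fintype ι] [DecidableEq ι] (D : DatL G N P), AxL D → ∀ (x y : ι → P) (U I₀ : Finset ι)
    (Ξ : Finset (D.J ι)), D.Gd x y U → U.Nonempty → U ⊆ I₀ → D.Sep x I₀ Ξ → ∀ (θ : D.J ι → N)
    (t : (ι → P) → D.J ι → N), (∀ w ⊆ U, w.Nonempty → 2 ^ (#U - 1) • t (mx x y w) = 0) →
    (∀ w ⊆ U, w.Nonempty → ∀ k ∈ Ξ, t (mx x y w) k = θ k) →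
    (∀ i ∈ U, 2 ^ (#U - 2) • θ (Sum.inr i) = 0) →
    (∀ w ⊆ U, w.Nonempty → t (mx x y w) ∈ D.Z (mx x y w)) →
    cpl x y U t ∈ D.Z x ∧ 2 ^ (#U - 1) • cpl x y U t = 0 ∧ (∀ k ∈ Ξ, cpl x y U t k = θ k) ∧
      ∀ σ, D.coc x (cpl x y U t) σ = cmp x y U (fun z => D.coc z (t z)) σ

/-- Module `VLemE`. `R j = -∑_{w ≠ ∅} (-1)^#w qr (mx x y w) j (ξ (mx x y w) j)` satisfies `lm x j (2 R j) = ξ₀ j`. -/
def S_VLemE : Prop :=
  ∀ {G N P ι : Type} [Group G] [TopologicalSpace G] [AddCommGroup N] [DistribMulAction G N]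
    [Fintype ι] [DecidableEq ι] (D : DatL G N P), AxL D → ∀ (x y : ι → P) (U I₀ : Finset ι)
    (Ξ : Finset (D.J ι)), D.Gd x y U → 2 ≤ #U → U ⊆ I₀ → D.Sep x I₀ Ξ → ∀ (θ : D.J ι → N)
    (ξ : (ι → P) → D.J ι → N), (∀ w ⊆ U, w.Nonempty → 2 ^ (#U - 1) • ξ (mx x y w) = 0) →
    (∀ w ⊆ U, w.Nonempty → ∀ k ∈ Ξ, ξ (mx x y w) k = θ k) →
    (∀ i ∈ U, 2 ^ (#U - 2) • θ (Sum.inr i) = 0) → ∀ η : (ι → P) → G → N,
    (∀ w ⊆ U, w.Nonempty → D.IsH (mx x y w) (ξ (mx x y w)) (η (mx x y w))) →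
    ∃ η' : G → N, D.IsH x (cpl x y U ξ) η' ∧ ∀ ν, (∀ w ⊆ U, ν ∈ D.Dk (mx x y w) 1) →
      (∀ i ∈ U, ν (Sum.inr i) = 0) →
      D.ob x (cpl x y U ξ) η' ν =
        ∑ w ∈ U.powerset.erase ∅, D.ob (mx x y w) (ξ (mx x y w)) (η (mx x y w)) ν

/-- Module `VRulL`. The change of `t` at the vertex `{b}` is by `tv (mx x y {b}) R`, `2 R = s ∈ V`; `2 tv = tv (2 R) = 0` by `Fix` (3).
`R j = Q₀ - Q₁` satisfies `lm x j (2 R j) = ξ j`: `lm Q₀ = ω j`, `2 lm Q₁ = τ₀ j`. The hypotheses on `T`: `D.T x`. -/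
def S_VRulL : Prop :=
  ∀ {G N P ι : Type} [Group G] [TopologicalSpace G] [IsTopologicalGroup G] [AddCommGroup N]
    [DistribMulAction G N] [Fintype ι] [DecidableEq ι] (D : DatL G N P), AxL D → Ax2 D.toDat →
    ∀ (x y : ι → P) (U I₀ : Finset ι) (Ξ : Finset (D.J ι)) (b : ι), D.Gd x y U → b ∈ U →
    2 ≤ #U → U ⊆ I₀ → D.Sep x I₀ Ξ → ∀ (θ f : D.J ι → N) (t : (ι → P) → D.J ι → N),
    (∀ w ⊆ U, w.Nonempty → t (mx x y w) ∈ D.Z (mx x y w) ∧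
      2 ^ (#U - 2) • (2 • t (mx x y w)) = f ∧ ∀ k ∈ Ξ, 2 • t (mx x y w) k = θ k) →
    2 • f = 0 → (∀ i ∈ U, f (Sum.inr i) = 0) →
    f ∈ D.Dk x #U → (∀ w ⊆ U, D.Dk (mx x y w) 1 = D.Dk x 1) →
    ∀ (γ : (D.J ι → N) → ZMod 2) (t' : N), 2 • t' = 0 →
    (∀ ν ∈ D.Dk x 1, ∀ ν' ∈ D.Dk x 1, γ (ν + ν') = γ ν + γ ν') → (∀ ν ∈ D.T x, γ ν = 0) →
    (∀ ν, ν ∉ D.Dk x 1 → γ ν = 0) →
    (∀ ν ∈ D.Dk x 1, ∃ s : N, 2 • s = 0 ∧ ∀ i ∈ U.erase b, ν (Sum.inr i) = s) →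
    (∀ ν ∈ D.Dk x 1, (∀ i ∈ U.erase b, ν (Sum.inr i) = 0) →
      ν (Sum.inr b) = if γ ν = 0 then 0 else t') →
    γ ∉ D.O x (#U - 1) → ∃ t₀ ∈ D.Z x, 2 • t₀ = cpl x y U (fun z => 2 • t z)

/-- Module `VStar`. `lm x j (2 Q) = alt of the 2 t = 0` (second claim of `VLemB`), so `2 lm Q = 0`; isotropy is `Fix` (5). -/
def S_VStar : Prop :=
  ∀ {G N P ι : Type} [Group G] [TopologicalSpace G] [AddCommGroup N]
    [DistribMulAction G N] [Fintype ι] [DecidableEq ι] (D : DatL G N P), AxL D →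
    ∀ (x y : ι → P) (U I₀ : Finset ι) (Ξ : Finset (D.J ι)) (b : ι), D.Gd x y U → b ∈ U →
    2 ≤ #U → U ⊆ I₀ → D.Sep x I₀ Ξ → ∀ (θ : D.J ι → N) (t : (ι → P) → D.J ι → N),
    (∀ w ⊆ U, t (mx x y w) ∈ D.Z (mx x y w) ∧ 2 ^ (#U - 1) • (2 • t (mx x y w)) = 0 ∧
      ∀ k ∈ Ξ, 2 • t (mx x y w) k = θ k) → (∀ i ∈ U, 2 ^ (#U - 2) • θ (Sum.inr i) = 0) →
    alt (Function.update x b (y b)) y (U.erase b) (fun z => D.coc z (t z) (D.tau (y b))) = 0 →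
    ∀ ν, (∀ w ⊆ U, ν ∈ D.Dk (mx x y w) 1) → (∀ i ∈ U.erase b, ν (Sum.inr i) = 0) →
    D.e (alt (Function.update x b (y b)) y (U.erase b) fun z => D.coc z (t z) (D.phi (x b)))
      (ν (Sum.inr b)) = 0

/-- Module `VStr0`. -/
def S_VStr0 : Prop :=
  ∀ {G N P ι : Type} [Group G] [TopologicalSpace G] [AddCommGroup N]
    [DistribMulAction G N] [Fintype ι] [DecidableEq ι] (D : DatL G N P), AxL D →
    ∀ (x y : ι → P) (I : Finset ι) (b : ι), D.Gd x y I → b ∉ I → I.Nonempty → ∀ c : N,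
    ∀ t : (ι → P) → D.J ι → N,
    (∀ w ⊆ I, t (mx x y w) ∈ D.Z (mx x y w) ∧ 2 • t (mx x y w) (Sum.inr b) = c) →
    (alt x y I (fun z => D.coc z (t z) (D.tau (x b))) = 0 →
      alt x y I (fun z => D.coc z (t z) (D.phi (x b))) = 0) ∧
    ∃ R : N, 4 • R = 0 ∧ ∀ t₁ : (ι → P) → D.J ι → N, t₁ x = t x + D.tv x R →
      (∀ w ⊆ I, w.Nonempty → t₁ (mx x y w) = t (mx x y w)) →
      alt x y I (fun z => D.coc z (t₁ z) (D.tau (x b))) = 0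

/-- Module `VFac`. -/
def S_VFac : Prop :=
  ∀ {G N P ι : Type} [Group G] [TopologicalSpace G] [AddCommGroup N] [DistribMulAction G N]
    [Fintype ι] [DecidableEq ι] (D : DatL G N P), AxL D → ∀ (x y : ι → P) (I I₀ : Finset ι)
    (Ξ : Finset (D.J ι)), D.Gd x y I → I.Nonempty → I ⊆ I₀ → D.Sep x I₀ Ξ →
    ∀ (θ : D.J ι → N) (t : (ι → P) → D.J ι → N),
    (∀ w ⊆ I, t (mx x y w) ∈ D.Z (mx x y w) ∧ 2 ^ #I • (2 • t (mx x y w)) = 0 ∧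
      ∀ k ∈ Ξ, 2 • t (mx x y w) k = θ k) → (∀ i ∈ I, 2 ^ (#I - 1) • θ (Sum.inr i) = 0) →
    Sys I (fun i σ => D.ch (x i) σ + D.ch (y i) σ) (D.vfc x y I t) ∧
    (∀ U ⊆ I, IsLocallyConstant (D.vfc x y I t U)) ∧
    ∀ σ, D.vfc x y I t ∅ σ = D.coc x (2 ^ #I • t x) σ

/-- Module `VPsi0`. -/
def S_VPsi0 : Prop :=
  (∀ {G N P ι : Type} [Group G] [TopologicalSpace G] [AddCommGroup N] [DistribMulAction G N]
    [Fintype ι] [DecidableEq ι] (D : DatL G N P), AxL D → ∀ (x y : ι → P) (U I₀ : Finset ι)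
    (Ξ : Finset (D.J ι)) (b : ι), D.Gd x y U → b ∈ U → 2 ≤ #U → U ⊆ I₀ → D.Sep x I₀ Ξ →
    ∀ (θ : D.J ι → N) (t : (ι → P) → D.J ι → N),
    (∀ w ⊆ U, t (mx x y w) ∈ D.Z (mx x y w) ∧ 2 ^ (#U - 1) • (2 • t (mx x y w)) = 0 ∧
      ∀ k ∈ Ξ, 2 • t (mx x y w) k = θ k) → (∀ i ∈ U, 2 ^ (#U - 2) • θ (Sum.inr i) = 0) →
    ∀ F' ⊆ U.erase b, F' ≠ U.erase b →
    D.vfc (Function.update x b (y b)) y (U.erase b) t F' (D.phi (x b)) = 0) ∧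
  (∀ {G N P ι : Type} [Group G] [TopologicalSpace G] [AddCommGroup N] [DistribMulAction G N]
    [Fintype ι] [DecidableEq ι] (D : DatL G N P), AxL D → ∀ (x y : ι → P) (I : Finset ι) (b : ι),
    D.Gd x y I → b ∉ I → I.Nonempty → ∀ (c : N) (t : (ι → P) → D.J ι → N),
    2 ^ (#I - 1) • c = 0 →
    (∀ w ⊆ I, t (mx x y w) ∈ D.Z (mx x y w) ∧ 2 • t (mx x y w) (Sum.inr b) = c) →
    ∀ F' ⊆ I, F' ≠ I →
    D.vfc x y I t F' (D.phi (x b)) = 0 ∧ D.vfc x y I t F' (D.tau (x b)) = 0) ∧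
  (∀ {G N P ι : Type} [Group G] [TopologicalSpace G] [AddCommGroup N] [DistribMulAction G N]
    [Fintype ι] [DecidableEq ι] (D : DatL G N P), AxL D → ∀ (x y : ι → P) (I : Finset ι),
    D.Gd x y I → ∀ t : (ι → P) → D.J ι → N, (∀ w ⊆ I, t (mx x y w) ∈ D.Z (mx x y w)) →
    ∀ F' ⊆ I, ∀ v, v ∉ D.S →
    (∀ i, v ≠ x i) → (∀ i ∈ I, v ≠ y i) → D.vfc x y I t F' (D.tau v) = 0)

end Pool.Agent.MP72B
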