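import Pool.Agent.Lib.MP_72e2e6_nt.Sm.B.SpecL
import Pool.Agent.Lib.MP_72e2e6_nt.Sm.H.Fin

/-!
# MP_72e2e6_nt, `Sm/B`: statements with proofs, part Q (parity of the Selmer group of level one)

`#(Dk x 1)` is a power of four iff the number of the places of split multiplicative reduction of the
twist is even. The local conditions at a place `v` are maximal totally singular subgroups
`Lsp (τ_v) (φ_v) (χ τ_v) (χ φ_v)` of `V × V` for the quadratic form
`q_v (x, y) = e (x, y) + e (x, k (φ_v)) + e (y, k (τ_v))`, which does not depend on the character `χ`, and the global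
homomorphisms form a maximal totally singular subgroup of the sum. So the parity of the dimension of the Selmer group
changes by the sum of the dimensions of the intersections of the local conditions (`S_Lag`, `S_Par`).
Modules `Sm/B/Q<Name>.lean` (import this file only), theorem `t<Name> : S_Y → .. → S_<Name>`, namespace
`Pool.Agent.MP72B.Par`, all other declarations `private`. `V = {s | 2 • s = 0}`.
-/

namespace Pool.Agent.MP72B.Par

open Finset Pool.Agent.MP72S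

section

variable {G N P : Type} [Group G] [AddCommGroup N] [DistribMulAction G N]

/-- The local condition for the values `a`, `b` of the character at the inertia generator `t` and at the
Frobenius element `f`. -/
def Lsp (t f : G) (a b : ZMod 2) : AddSubgroup (N × N) where
  carrier := {p | 2 • p.1 = 0 ∧ 2 • p.2 = 0 ∧ ∃ Q : N, p.1 = sg a (t • Q) - Q ∧
    p.2 = sg b (f • Q) - Q}
  zero_mem' := ⟨smul_zero _, smul_zero _, 0, by simp [sg_map_zero], by simp [sg_map_zero]⟩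
  add_mem' := by
    rintro p p' ⟨h1, h2, Q, h3, h4⟩ ⟨h1', h2', Q', h3', h4'⟩
    refine ⟨by rw [Prod.fst_add, smul_add, h1, h1', add_zero],
      by rw [Prod.snd_add, smul_add, h2, h2', add_zero], Q + Q', ?_, ?_⟩
    · rw [Prod.fst_add, h3, h3', smul_add, sg_add]
      abel
    · rw [Prod.snd_add, h4, h4', smul_add, sg_add]
      abel
  neg_mem' := by
    rintro p ⟨h1, h2, Q, h3, h4⟩
    refine ⟨by rw [Prod.fst_neg, smul_neg, h1, neg_zero],
      by rw [Prod.snd_neg, smul_neg, h2, neg_zero], -Q, ?_, ?_⟩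
    · rw [Prod.fst_neg, h3, smul_neg, sg_neg]
      abel
    · rw [Prod.snd_neg, h4, smul_neg, sg_neg]
      abel

variable [TopologicalSpace G]

/-- The Selmer group of level one of the character `χ`. -/
def SelD (D : Dat G N P) (χ : G → ZMod 2) : AddSubgroup (G → N) where
  carrier := {ψ | IsHo ψ ∧ ∀ v, (ψ (D.tau v), ψ (D.phi v)) ∈
    Lsp (N := N) (D.tau v) (D.phi v) (χ (D.tau v)) (χ (D.phi v))}
  zero_mem' := ⟨⟨IsLocallyConstant.const 0, fun _ => smul_zero _, fun _ _ => (add_zero _).symm⟩,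
    fun _ => AddSubgroup.zero_mem _⟩
  add_mem' := by
    rintro ψ ψ' ⟨h, h1⟩ ⟨h', h1'⟩
    refine ⟨⟨h.lc.comp₂ h'.lc (fun a b => a + b), fun σ => ?_, fun σ τ => ?_⟩, fun v => ?_⟩
    · rw [Pi.add_apply, smul_add, h.two, h'.two, add_zero]
    · simp only [Pi.add_apply, h.mul, h'.mul]
      abel
    · exact AddSubgroup.add_mem _ (h1 v) (h1' v)
  neg_mem' := by
    rintro ψ ⟨h, h1⟩
    refine ⟨⟨h.lc.comp (fun a => -a), fun σ => ?_, fun σ τ => ?_⟩, fun v => ?_⟩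
    · rw [Pi.neg_apply, smul_neg, h.two, neg_zero]
    · simp only [Pi.neg_apply, h.mul]
      abel
    · exact AddSubgroup.neg_mem _ (h1 v)

/-- The fixed elements up to sign at all places are finite in number. -/
def FinP (D : Dat G N P) : Prop :=
  ∀ v, {x : N | (D.tau v • x = x ∨ D.tau v • x = -x) ∧
    (D.phi v • x = x ∨ D.phi v • x = -x)}.Finite

/-- The local quadratic form. -/
def qf (D : Dat G N P) (k : G → N) (v : P) (p : N × N) : ZMod 2 :=
  D.e p.1 p.2 + D.e p.1 (k (D.phi v)) + D.e p.2 (k (D.tau v))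

/-- The theta characteristic. -/
structure IsK (D : Dat G N P) (k : G → N) : Prop where
  ho : IsHo k
  kap : ∀ (σ : G) (Q : N), 4 • Q = 0 → D.e (σ • Q - Q) (2 • Q) = D.e (2 • Q) (k σ)
  qv : ∀ v (a b : ZMod 2), ∀ p ∈ Lsp (N := N) (D.tau v) (D.phi v) a b, qf D k v p = 0

end

/-! ### 1. The parity theorem -/

/-- **Lag** (250 lines, uses `MP72S.S_AltE`). Three maximal totally singular subgroups.

Proof. Write `U^⊥` for the orthogonal complement; `#U #(U^⊥) = #H` and `(U ⊓ W)^⊥ = U^⊥ + W^⊥` (nondegenerate form on an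
elementary abelian group; use `ZMod 2`-vector spaces or characters). `B` is symmetric and `B a a = 0` (from `q`:
`q (a + a) = 0`, `q 0 = 0`). `X`, `Y`, `Z` are isotropic (`B a b = q (a + b) - q a - q b`), so they are their own complements.
Let `W = X ⊓ (Y + Z)`. For `x = y + z ∈ W`, `x' ∈ W` put `[x, x'] = B y x'`: independent of `y` (`y₀ ∈ Y ⊓ Z` is orthogonal
to `Y + Z`), biadditive, and `[x, x] = B y (y + z) = B y z = q (y + z) - q y - q z = q x = 0`. Radical: let `[x, x'] = 0` for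
all `x' ∈ W`, so `y ∈ W^⊥ = X + (Y ⊓ Z)`, `y = x₁ + w`; `x₁ = y - w ∈ X ⊓ Y` and `x - x₁ = z + w ∈ X ⊓ Z`; so the radical is
`(X ⊓ Y) + (X ⊓ Z)` (the other inclusion: for `x ∈ X ⊓ Y` take `y = x`, orthogonal to `X`; for `x ∈ X ⊓ Z` `y = 0`). By
`S_AltE` `#W = 4 ^ r * #((X ⊓ Y) + (X ⊓ Z))`. Let `t = #(X ⊓ Y ⊓ Z)`. `#(X + Y + Z) = #H / t`, `#(Y + Z) = #H / #(Y ⊓ Z)`,
`#W = #X #(Y + Z) / #(X + Y + Z) = #X t / #(Y ⊓ Z)`, `#((X ⊓ Y) + (X ⊓ Z)) = #(X ⊓ Y) #(X ⊓ Z) / t`. So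
`#X * t ^ 2 = 4 ^ r * c`, `c = #(X ⊓ Y) #(X ⊓ Z) #(Y ⊓ Z)`; all orders are powers of two, so `c * #X` is a power of four. -/
def S_Lag : Prop :=
  ∀ (H : Type) [AddCommGroup H] [Finite H] (B : H → H → ZMod 2) (q : H → ZMod 2),
    (∀ w : H, 2 • w = 0) → (∀ a b c, B (a + b) c = B a c + B b c) →
    (∀ a b, q (a + b) = q a + q b + B a b) → (∀ a, (∀ b, B a b = 0) → a = 0) →
    ∀ X Y Z : AddSubgroup H, (∀ a ∈ X, q a = 0) → (∀ a ∈ Y, q a = 0) → (∀ a ∈ Z, q a = 0) →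
    Nat.card X ^ 2 = Nat.card H → Nat.card Y ^ 2 = Nat.card H → Nat.card Z ^ 2 = Nat.card H →
    ∃ m : ℕ, Nat.card ↥(X ⊓ Y) * Nat.card ↥(X ⊓ Z) * Nat.card ↥(Y ⊓ Z) * Nat.card X = 4 ^ m

/-- **Lcf** (120 lines). The local conditions have order four.

Proof. Let `T` be the finite group of the `x` with `sg a (t • x) = x`, `sg b (f • x) = x`; it contains `V`. Let
`T' = {Q | 2 • Q ∈ T}`; the multiplication by two `T' → T` is surjective (`P2.dvs`) with kernel `V`, so `#T' = 4 #T`.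
`Q ↦ (sg a (t • Q) - Q, sg b (f • Q) - Q)` is a surjective homomorphism `T' → Lsp t f a b` (the double of a component is
the component of `2 • Q`) with kernel `T`. -/
def S_Lcf : Prop :=
  ∀ {G N : Type} [Group G] [AddCommGroup N] [DistribMulAction G N], C.P2 N → ∀ t f : G,
    (∀ x : N, 2 • x = 0 → t • x = x ∧ f • x = x) → ∀ a b : ZMod 2,
    {x : N | sg a (t • x) = x ∧ sg b (f • x) = x}.Finite →
    Nat.card (Lsp (N := N) t f a b) = 4

/-- **Rcq** (80 lines, uses `MP72S.S_Bas`, `MP72S.S_Rcv`). Reciprocity for the quadratic forms.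

Proof. Let `T₁, T₂` be as in `S_Bas`, `ψ₁ = e (ψ _) T₁`, `ψ₂ = e (ψ _) T₂`: characters. `e (ψ τ) (ψ φ) = ψ₂ τ * ψ₁ φ + ψ₁ τ * ψ₂ φ`,
and `rcp` for `(ψ₂, ψ₁)` gives `∑ᶠ e (ψ τ_v) (ψ φ_v) = 0`. The other two terms of `qf` are `D.lp ψ k v`, so
`MP72S.S_Rcv` applies (with a finite set containing `A` and all the places with nonzero terms; almost all `ψ (τ_v)`, `k (τ_v)`
vanish by `fin`). Altogether `∑ᶠ v, qf v = 0`, and the terms outside `A` vanish. -/
def S_Rcq : Prop :=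
  ∀ {G N P : Type} [Group G] [TopologicalSpace G] [AddCommGroup N] [DistribMulAction G N]
    (D : Dat G N P), Ax D → ∀ (ψ k : G → N) (A : Finset P), IsHo ψ → IsHo k →
    (∀ v, v ∉ A → qf D k v (ψ (D.tau v), ψ (D.phi v)) = 0) →
    ∑ v ∈ A, qf D k v (ψ (D.tau v), ψ (D.phi v)) = 0

/-- **Par** (300 lines, uses `MP72S.S_Hom`, `MP72S.S_Bas`, `S_Lag`, `S_Lcf`, `S_Rcq`). THE PARITY THEOREM.

Proof. `H` = the group of the functions `A → V × V`, of order `16 ^ #A`, `B (f, g) = ∑ e (f 1) (g 2) + e (f 2) (g 1)`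
(nondegenerate by `e_nd`), `q f = ∑ qf D k v (f v)`; `q (f + g) = q f + q g + B f g` by `e_add`, `e_sym`. `X` = the image of the
homomorphisms `θ` to `V` unramified outside `A` (`θ (τ_v) = 0` for `v ∉ A`), `4 ^ #A` elements by `MP72S.S_Hom` (`inf ∈ S ⊆ A`, free
values at the `τ_v`, `v ∈ A`, `v ≠ ∞`, and at `φ_∞`; injective); singular by `S_Rcq`: for `v ∉ A` `θ (τ_v) = 0` and
`k (τ_v) = 0` (`v ∉ S`, `unr`, `IsK.kap`: `e (2 • Q) (k (τ_v)) = 0` for all `Q` with `4 • Q = 0`, so `k (τ_v) = 0` by `e_nd`), and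
`e 0 _ = 0 = e _ 0`. `Y`, `Z` = the products of the local conditions of `χ`, `χ'`, of order `4 ^ #A` (`S_Lcf`; the finite set is
contained in that of `FinP`), singular by `IsK.qv`. `X ⊓ Y ≃ SelD χ`: for `v ∉ A` the local condition of `χ` is `0 × V`: every
element has `p.1 = Q - Q = 0` (`unr`, `χ (τ_v) = 0`) and the order is four (`S_Lcf`). The same for `χ'`, and `Y ⊓ Z` is the product
of the intersections. `S_Lag`. -/
def S_Par : Prop :=
  ∀ {G N P : Type} [Group G] [TopologicalSpace G] [AddCommGroup N] [DistribMulAction G N]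
    (D : Dat G N P), Ax D → ∀ k : G → N, IsK D k → FinP D → ∀ χ χ' : G → ZMod 2, IsCh χ → IsCh χ' →
    ∀ A : Finset P, D.S ⊆ A → (∀ v, v ∉ A → χ (D.tau v) = 0 ∧ χ' (D.tau v) = 0) →
    ∃ m : ℕ, Nat.card (SelD D χ) * Nat.card (SelD D χ') *
      ∏ v ∈ A, Nat.card ↥(Lsp (N := N) (D.tau v) (D.phi v) (χ (D.tau v)) (χ (D.phi v)) ⊓
        Lsp (N := N) (D.tau v) (D.phi v) (χ' (D.tau v)) (χ' (D.phi v))) = 4 ^ m

/-- **Dkl** (150 lines, uses `MP72B.S_Fix`, `MP72B.S_Uq`, `MP72B.S_Dk1`, `MP72B.S_TyU`, `S_Lcf`). The Selmer group of level one (general local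
conditions).

Proof. `ν ↦ D.coc x ν` maps `Dk x 1` (`ν ∈ Z x`, `2 • ν = 0`) to `SelD`: `2 • coc = 0` (`Uq` (5) with `k = 1`), so it is a
homomorphism (`tw_two`); at `v = pl x j` `IsZ.lo` is the local condition (`tw χ g Q = sg (χ g) (g • Q)`); at the other places
`ψ (τ_v) = 0` and the local condition is `0 × V` (as in `S_Par`). Injective: `TyU` (2). Surjective: for `ψ ∈ SelD` choose the local
data `Q j`; `t j = D.lm x j (Q j)`, `IsZ x t ψ` (`ur`: for `v ∉ range (pl x)` the first component is `0`), and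
`2 • t = 0` by `Fix` (4). -/
def S_Dkl : Prop :=
  ∀ {G N P ι : Type} [Group G] [TopologicalSpace G] [AddCommGroup N] [DistribMulAction G N]
    [Fintype ι] [DecidableEq ι] (D : DatL G N P), AxL D → FinP D.toDat → ∀ x : ι → P, D.Ok x →
    Nat.card (D.Dk x 1) = Nat.card (SelD D.toDat (D.chi x))

/-- **Dkt** (150 lines, uses `MP72S.S_Uq`, `MP72S.S_Dk1`, `MP72S.S_TyU`, `MP72S.S_Tai`, `S_Lcf`). The Selmer group of level one (tame
configurations).

Proof. As `S_Dkl` with `2 • Q` in place of `D.lm x j Q`: `2 • 2 • Q j = 0` since `2 • Q j` is fixed by `tw (τ)`, `tw (φ)`, which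
gives `2 • 2 • Q j = 0` by `Ok.tame` for `j = inl s` and by `tw (τ_(x i)) R = - R` for `j = inr i`. -/
def S_Dkt : Prop :=
  ∀ {G N P ι : Type} [Group G] [TopologicalSpace G] [AddCommGroup N] [DistribMulAction G N]
    [Fintype ι] [DecidableEq ι] (D : Dat G N P), Ax D → FinP D → ∀ x : ι → P, D.Ok x →
    Nat.card (D.Dk x 1) = Nat.card (SelD D (D.chi x))

/-- **Kex** (120 lines, uses `MP72S.S_Bas`). The theta characteristic (without `qv`).

Proof. For `s ∈ V` choose `h s` with `2 • h s = s`; `b σ s = σ • h s - h s ∈ V` (`tri`), independent of the choice and additive in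
`s`; `κ s σ = e (b σ s) s` is additive in `s`: the mixed terms are `e (b σ s) s' + e (b σ s') s = 0` by `sa`, `e_sym`. Let `T₁, T₂`
be as in `S_Bas`, `k σ = (if κ T₂ σ = 0 then 0 else T₁) + (if κ T₁ σ = 0 then 0 else T₂)`, so `e (T i) (k σ) = κ (T i) σ` and by
additivity `e s (k σ) = κ s σ` for all `s ∈ V`. `b (σ τ) s = b σ s + b τ s` (`σ • (τ • h - h) = τ • h - h`), so `κ s` and `k` are
homomorphisms; locally constant by `act`. -/
def S_Kex : Prop :=
  ∀ {G N P : Type} [Group G] [TopologicalSpace G] [AddCommGroup N] [DistribMulAction G N]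
    (D : Dat G N P), Ax D → ∃ k : G → N, IsHo k ∧
      ∀ (σ : G) (Q : N), 4 • Q = 0 → D.e (σ • Q - Q) (2 • Q) = D.e (2 • Q) (k σ)

/-! ### 2. The local quadratic form vanishes on the local conditions -/

open Pool.Agent.MP72W (XY px py)

open Pool.Agent.MP72S.C

open scoped Classical

/-- The sign of `g` at `x`. -/
noncomputable def sgn {K L : Type} [Field K] [Field L] [Algebra K L] (g : Gal(L/K)) (x : L) :
    ZMod 2 := if g x = x then 0 else 1

/-- **Stb** (120 lines, uses `C.S_Ppr`). The Steinberg relation.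

Proof. `g (x ^ 2) = x ^ 2`, so `g x = ± x` for `g = t, f`, the same for `y`. CLAIM: if `ν u > 0`, `u ^ 2 + w ^ 2 = 1` and `g w = ± w`
for `g = t, f` then `t w = w` and `f w = w`: `(res w) ^ 2 = 1`, `res w = ± 1`, `res (t w) = res w`, `res (f w) = (res w) ^ q = res w`
(`q` odd); `g w = - w` would give `res w = - res w = 0` (`2 ≠ 0` in `k`). If `ν x > 0` or `ν y > 0` then one of the two
elements has both signs `0` (claim). If `ν x < 0` then `(1 / x) ^ 2 + (ι y / x) ^ 2 = 1`.. precisely `y ^ 2 = 1 - x ^ 2`,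
`(ι y / x) ^ 2 = 1 - (1 / x) ^ 2`, so `ι y / x` is fixed by `t`, `f` (claim with `u = 1 / x`), and `x`, `y` have the same signs:
the expression is `2 * _ = 0`. If `ν x = 0` and `ν y = 0` then `t x = x`, `t y = y` by `Plc.sq` with `m = 0`. (`ν y < 0` implies
`ν x < 0`.) -/
def S_Stb : Prop :=
  ∀ (K : Type) [Field K] (L : Type) [Field L] [Algebra K L] (k : Type) [Field k]
    (t f : Gal(L/K)) (q : ℕ) (ν : L → WithTop ℚ) (res : L → k), Plc t f q ν res → q % 4 = 1 →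
    ∀ ι : L, ι ^ 2 = -1 → t ι = ι → f ι = ι → ∀ x y : L, x ≠ 0 → y ≠ 0 → x ^ 2 + y ^ 2 = 1 →
    t (x ^ 2) = x ^ 2 → f (x ^ 2) = x ^ 2 → sgn t x * sgn f y + sgn f x * sgn t y = 0

/-- **Qqv** (300 lines, uses `C.S_Grp`, `C.S_Vee`, `C.S_Rrq`, `C.S_Acp`, `C.S_Msg`, `C.S_Dvn`, `S_Stb`). The quadratic form
vanishes on the local conditions.

Proof. Let `p ∈ Lsp t f a b` with the point `Q`. If `2 • Q = 0` then `p = 0` (`t`, `f` fix `Q`, `sg a Q = Q`) and `e2 0 _ = 0 = e2 _ 0`. Let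
`2 • Q ≠ 0`, `r i = rr (pt Q) i`, `X = px (pt (2 • Q))`, `r i ^ 2 = X - α i`. Let `g = t`, `c = a`, `A = p.1` or `g = f`, `c = b`, `A = p.2`:
`g • Q = sg c (Q + A)`, so `g (r i) = (-1) ^ (c + e2 A (ee i)) r i` (`C.S_Acp` (5), `C.S_Rrq` (9), `rr (-Q) i = - rr Q i`). Let
`s i j ^ 2 = α i - α j` (`QC`) for `(i, j) = (1, 2), (2, 0), (0, 1)`, `σ i j g = sgn g (s i j)` (`g (s i j) = ± s i j`); with `ι ∈ K` the
sign of a root of `α j - α i` is the same. Let `k_g` be `kt` or `kf`. For a half `R` of `ee i` `rr R j ^ 2 = α i - α j`, and by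
`C.S_Msg` `e2 (g R - R) (ee j) = σ i j g`; so `κ i g := e2 (g R - R) (ee i) = σ i j g + σ i l g`, `{i, j, l} = {0, 1, 2}`, and
`e2 (ee i) k_g = κ i g`. `ρ 0 = s 1 2 * r 0`, `ρ 1 = s 2 0 * r 1`, `ρ 2 = s 0 1 * r 2` satisfy `ρ 0 ^ 2 + ρ 1 ^ 2 + ρ 2 ^ 2 = 0` (`ring`). Put
`E i g = κ i g + e2 A (ee i)`. CLAIM: `E 1 t * E 0 f + E 1 f * E 0 t = 0`. If `ρ 0, ρ 1, ρ 2 ≠ 0`: `x = ι ρ 0 / ρ 2`, `y = ι ρ 1 / ρ 2`,
`x ^ 2 + y ^ 2 = 1`, `sgn g x = (σ 1 2 + σ 0 1) + e2 A (ee 0) + e2 A (ee 2) = E 1 g`, `sgn g y = E 0 g`: `S_Stb`. If `ρ 0 = 0`: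
`ρ 1 = ± ι ρ 2`, so `E 0 g = 0` (it is the sign of `ρ 1 ρ 2`; note `e2 A (ee 0) = e2 A (ee 1) + e2 A (ee 2)`). If `ρ 1 = 0`: `E 1 g = 0`. If
`ρ 2 = 0`: `E 2 g = 0`, so `E 0 g = E 1 g`. In the same way (`s i j` in place of `ρ`, `A = 0`): `κ 1 t * κ 0 f + κ 1 f * κ 0 t = 0`.
Expanding the claim, and with `e2 u v = e2 u (ee 0) * e2 v (ee 1) + e2 u (ee 1) * e2 v (ee 0)` for points of order two (check the
cases, `C.S_Vee`) we get the statement. -/
def S_Qqv : Prop :=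
  ∀ (K : Type) [Field K] (a : Fin 3 → K) (L : Type) [Field L] [Algebra K L] (k : Type) [Field k]
    (t f : Gal(L/K)) (q : ℕ) (ν : L → WithTop ℚ) (res : L → k), Hyp a L → QC L →
    (∃ ι : K, ι ^ 2 = -1) → Plc t f q ν res → q % 4 = 1 → ∀ kt kf : NN a L, 2 • kt = 0 →
    2 • kf = 0 → (∀ R : NN a L, 4 • R = 0 → eN (t • R - R) (2 • R) = eN (2 • R) kt) →
    (∀ R : NN a L, 4 • R = 0 → eN (f • R - R) (2 • R) = eN (2 • R) kf) →
    ∀ (c d : ZMod 2), ∀ p ∈ Lsp (N := NN a L) t f c d, eN p.1 p.2 + eN p.1 kf + eN p.2 kt = 0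

/-! ### 3. The intersections of the local conditions -/

/-- **Pgd** (100 lines, uses `C.S_Twi`, `C.S_Goo`, `C.S_Ppr`). Potentially good reduction.

Proof. Let `D = 1 / (a 0 - a 1)`, `δ ^ 2 = D` in `L`, `φ : PA a L ≃+ PA a' L`, `a' i = D a i` (`C.S_Twi`, identity permutation, `b = 0`).
`ν (α' i - α' j) = 0`, so `t` acts trivially on `NN a' L` (`C.S_Goo`). `ν D = - m`, so `t δ = δ` iff `m` is even (`Plc.sq`), and
`φ (act a t P) = ± φ P` by `C.S_Twi`. -/
def S_Pgd : Prop :=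
  ∀ (K : Type) [Field K] (a : Fin 3 → K) (L : Type) [Field L] [Algebra K L] (k : Type) [Field k]
    (t f : Gal(L/K)) (q : ℕ) (ν : L → WithTop ℚ) (res : L → k), Hyp a L → QC L →
    Plc t f q ν res → ∀ m : ℤ, (∀ i j, i ≠ j → ν (al a L i - al a L j) = ((m : ℚ) : WithTop ℚ)) →
    ∀ x : NN a L, t • x = sg (m : ZMod 2) x

/-- **Pgc** (100 lines). Intersections, potentially good reduction.

Proof. If `a + m = 0`: every `p ∈ Lsp t f a b` has `p.1 = Q - Q = 0`, so (order four) `Lsp t f a b = 0 × V`. If `a + m = 1`: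
`p.1 = - 2 • Q`, `4 • Q = 0`; with `s = 2 • Q ∈ V` `p = (s, b' s)`, `b' s = sg b (f • Q) - Q`, which depends only on `s`. Two different
local conditions: if exactly one of `a + m`, `a' + m` is `0` the intersection is `0`; if both are `0` they are equal; if both
are `1` and `b = b'` they are equal; if `b ≠ b'` then for `4 • Q = 0` `sg b (f • Q) - sg b' (f • Q) = ± 2 f • Q = 2 • Q`, so the
intersection is `0`. -/
def S_Pgc : Prop :=
  ∀ {G N : Type} [Group G] [AddCommGroup N] [DistribMulAction G N], C.P2 N → ∀ t f : G,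
    (∀ x : N, 2 • x = 0 → t • x = x ∧ f • x = x) → ∀ m : ZMod 2, (∀ x : N, t • x = sg m x) →
    (∀ a b : ZMod 2, Nat.card (Lsp (N := N) t f a b) = 4) → ∀ a b a' b' : ZMod 2,
    ∃ n : ℕ, Nat.card ↥(Lsp (N := N) t f a b ⊓ Lsp (N := N) t f a' b') = 4 ^ n

/-- **Mab** (200 lines). Intersections, multiplicative case.

Proof. Write `t' x = sg c (t • x)`, `f' x = sg d (f • x)` (additive), so `Lsp t f a b` consists of the
`p = (sg (a + c) (t' Q) - Q, sg (b + d) (f' Q) - Q)` in `V × V`. `(a' + c) = 1`. (1) Additive condition: `p.1 = - t' Q - Q = - 2 Q - w`,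
`w = t' Q - Q ∈ U`, `2 (2 Q + w) = 0`. Let `y ∈ U`, `2 y = w`.. `4 Q = - 2 w = - 4 y`, so `Q' = Q + y` satisfies `4 Q' = 0`,
`t' Q' - Q' = w`, and `2 w = t' (2 Q') - 2 Q' = 0` (`t'` is trivial on `V`); so `4 Q = 0`. With `s = 2 Q`, `b s = t' Q - Q ∈ U ⊓ V = {0, s₀}`
`p.1 = s + b s`, and `b s₀ = 0` (a half of `s₀` in `U` is fixed by `t'`). (2) `a + c = 1`: if `b = b'` the conditions are equal (order
four). If `b ≠ b'`: `s + b s = s' + b s'` gives `s - s' ∈ {0, s₀}`, `b (s - s') = 0`, so `s = s'`, and the second components differ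
by `s`, so `s = 0`: order one. (3) `a + c = 0`, `b + d = 0` (split): the elements have components `t' Q - Q`, `f' Q - Q` in
`U ⊓ V = {0, s₀}`, so (order four) the condition is `{0, s₀} × {0, s₀}`. An element of the additive condition has `p.1 ∈ {0, s₀}`
iff `s ∈ {0, s₀}`; for `s = s₀`, `Q = h ∈ U`, `2 h = s₀`: `p = (- 2 h, sg _ (q h) - h) = (s₀, 0 or s₀)` (`4 ∣ q - 1`); so the
intersection has order two. (4) `a + c = 0`, `b + d = 1` (nonsplit): an element of the intersection is `0` or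
`(s₀, e)`, `e ∈ {0, s₀}`. Suppose `t' Q - Q = s₀`, `- f' Q - Q = e`. `f' Q = Q + w`, `w ∈ U`, `2 Q = - w - e ∈ U`, so
`q 2 Q = f' (2 Q) = 2 Q + 2 w` and `4 Q = - 2 w = - (q - 1) 2 Q`, `(q + 1) 2 Q = 0`, `4 Q = 0` (`q + 1` is two times an odd number);
`2 Q ∈ {0, s₀}`. If `2 Q = 0` then `t' Q = Q`; if `2 Q = s₀` then `Q - h ∈ V` and `t' Q = Q`: contradiction. Order one. -/
def S_Mab : Prop :=
  ∀ {G N : Type} [Group G] [AddCommGroup N] [DistribMulAction G N], C.P2 N → ∀ t f : G,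
    (∀ x : N, 2 • x = 0 → t • x = x ∧ f • x = x) →
    (∀ a b : ZMod 2, Nat.card (Lsp (N := N) t f a b) = 4) →
    ∀ (U : AddSubgroup N) (s₀ : N) (q : ℕ) (c d : ZMod 2), q % 4 = 1 → s₀ ∈ U → s₀ ≠ 0 →
    (∀ x ∈ U, ∃ y ∈ U, 2 • y = x) → (∀ x ∈ U, 2 • x = 0 ↔ x = 0 ∨ x = s₀) →
    (∀ x ∈ U, sg c (t • x) = x ∧ sg d (f • x) = q • x) →
    (∀ x : N, sg c (t • x) - x ∈ U ∧ sg d (f • x) - x ∈ U) →
    ∀ a b a' b' : ZMod 2, a' = c + 1 → ∃ n : ℕ,
    Nat.card ↥(Lsp (N := N) t f a b ⊓ Lsp (N := N) t f a' b') *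
      (if a = c ∧ b = d then 2 else 1) = 4 ^ n

/-- **Ths** (60 lines, uses the same statements as `C.S_Tht`). The action of the Frobenius element, with its sign.

Proof. File `Sm/C/Tht.lean` (copy it): there `κ = res d`, `d ^ 2 = α 0 - α 2`; if `f d = d` then `κ ^ q = κ`, which is the first case. -/
def S_Ths : Prop := ∀ (K : Type) [Field K] (a : Fin 3 → K) (L : Type) [Field L] [Algebra K L]
  (k : Type) [Field k] (t f : Gal(L/K)) (q : ℕ) (ν : L → WithTop ℚ) (res : L → k), Hyp a L →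
    QC L → Plc t f q ν res → Mlt a ν → (∃ d : L, d ^ 2 = al a L 0 - al a L 2 ∧ f d = d) →
    ∃ θ : PA a L → k,
      (∀ P Q : PA a L, Us a ν P → Us a ν Q → θ (P + Q) = θ P * θ Q) ∧
      (∀ P : PA a L, Us a ν P → θ P ≠ 0 ∧ (θ P = 1 → P = 0)) ∧ θ 0 = 1 ∧
      (∀ P : PA a L, Us a ν P → θ (act a t P) = θ P) ∧
      ∀ P : PA a L, Us a ν P → θ (act a f P) = θ P ^ q

/-- **Mlu** (250 lines, uses `C.S_Vee`, `C.S_Ppr`, `C.S_Twi`, `C.S_Usg`, `C.S_Uhf`, `S_Ths`). The subgroup `U` at a place of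
potentially multiplicative reduction.

Proof. Let `π : 0 ↦ i, 1 ↦ j, 2 ↦ l`, `D = 1 / (a l - a i)`, `b = - D a i`, `a' = D a (π ·) + b`: `a' 0 = 0`, `a' 2 = 1`, `Mlt a' ν` (as in
`C.S_MlS`). `α' 0 - α' 2 = - 1 = ι ^ 2`, `ι ∈ K`, so `S_Ths` applies. `U' = {x : NN a' L | Us a' ν (pt x)}` is a subgroup (`C.S_Usg`),
`t x = x` and `f x = q x` on `U'` (`θ (t x - x) = 1`, `θ (f x - q x) = 1`), halves by `C.S_Uhf`; its elements of order at most two:
`ee 2` is `Us`, `ee 0` is not (`px (ee 0) - α' 0 = 0`), so (a subgroup of `V` which is not everything) they are `0`, `s₀' = ee 2`. With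
`δ ^ 2 = D` and `φ` as in `C.S_Twi` `U = φ⁻¹ (U')`, `s₀ = φ⁻¹ (s₀')`; `act a g P = ± φ⁻¹ (act a' g (φ P))` with the sign of `g` at `δ`,
which is the sign of `g` at `s` (`s δ ι` or `s δ` is in `K`: `(s δ) ^ 2 = (α i - α l) D = - 1`). -/
def S_Mlu : Prop := ∀ (K : Type) [Field K] (a : Fin 3 → K) (L : Type) [Field L] [Algebra K L]
  (k : Type) [Field k] (t f : Gal(L/K)) (q : ℕ) (ν : L → WithTop ℚ) (res : L → k), Hyp a L →
    QC L → (∃ ι : K, ι ^ 2 = -1) → Plc t f q ν res → ∀ i j l : Fin 3, i ≠ j → i ≠ l → j ≠ l →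
    ν (al a L i - al a L l) < ν (al a L i - al a L j) → ∀ s : L, s ^ 2 = al a L i - al a L l →
    ∃ (U : AddSubgroup (NN a L)) (s₀ : NN a L), s₀ ∈ U ∧ s₀ ≠ 0 ∧
      (∀ x ∈ U, ∃ y ∈ U, 2 • y = x) ∧ (∀ x ∈ U, 2 • x = 0 ↔ x = 0 ∨ x = s₀) ∧
      ∀ x ∈ U, sg (sgn t s) (t • x) = x ∧ sg (sgn f s) (f • x) = q • x

/-- **Muq** (150 lines, uses `C.S_Bs1`, `C.S_Bs2`, `MP72S.S_Bas`, `MP72S.S_EFa`). The action on `N ⧸ U`.

Proof. Write `t' x = sg c (t • x)`, `f' x = sg d (f • x)`, `t = tau v`, `f = phi v`. `U` is a group of rank one (`C.P1`, `hf = s₀`), `u` a basis of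
`U` (`C.S_Bs1`), extended to a basis `u, w` of `N` (`C.S_Bs2` (2)). Let `2 ^ n x = 0`, `n ≥ 1`, `z = f' x - x`. `E n (f' u n) (f' x) =
E n (f • u n) (f • x) = f • E n (u n) x = q • E n (u n) x` (signs cancel), and it is `E n (q u n) (f' x) = q • E n (u n) (f' x)`, so
`q • E n (u n) z = 0` and `E n (u n) z = 0` (`2 ^ n` kills it, `q` is odd). Let `z = k u n + l w n`: `l • E n (u n) (w n) = 0`; `E n (u n) (w n)` has
order `2 ^ n` (`2 ^ (n - 1)` times it is `E 1 (u 1) (w 1) = hf ≠ 0` by `E_two`, `E_one`, as `e (u 1) (w 1) = 1`), so `2 ^ n ∣ l` and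
`z = k u n ∈ U`. The same for `t'` (`t • r = r`). -/
def S_Muq : Prop :=
  ∀ {G N P R : Type} [Group G] [TopologicalSpace G] [AddCommGroup N] [DistribMulAction G N]
    [AddCommGroup R] [DistribMulAction G R] (D : Dat G N P) (E : ℕ → N → N → R) (hf : R),
    Ax D → Ax3 D E hf → ∀ (v : P) (U : AddSubgroup N) (s₀ : N) (c d : ZMod 2), s₀ ∈ U → s₀ ≠ 0 →
    (∀ x ∈ U, ∃ y ∈ U, 2 • y = x) → (∀ x ∈ U, 2 • x = 0 ↔ x = 0 ∨ x = s₀) →
    (∀ x ∈ U, sg c (D.tau v • x) = x ∧ sg d (D.phi v • x) = D.nq v • x) →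
    ∀ x : N, sg c (D.tau v • x) - x ∈ U ∧ sg d (D.phi v • x) - x ∈ U

end Pool.Agent.MP72B.Par
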