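import Pool.Agent.Lib.MP_72e2e6_nt.Sm.B.IntB

/-!
# MP_72e2e6_nt, `Sm/B`: statements with proofs, part R (from the frames to all squarefree polynomials)

Target `S_OutB = ThmQ` (`Sm/StmtB.lean`) from the interface `S_FrmB` (`Sm/B/IntB.lean`). `q = Nat.card F`; `mon F n`, `irr F n` (monic
polynomials, monic irreducible polynomials of degree `n`) are in `TwSpec.lean` (`mem_mon`), `sqf`, `om`, `Sml`, `tpl`, `FrN`: `Sm/NS/Spec.lean`,
`Dlt`: `Sm/NS/SpecT.lean`, `sq0`, `GdB`, `OdP`: `Sm/B/IntB.lean`, `sqd`, `Spl`, `nsp`: `Sm/StmtB.lean`.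

Every module proves one of the propositions `S_X` below: file `Sm/B/X.lean` (import this file only) with
`theorem tX : S_Y → .. → S_X` (the used statements in the order of the docstring; `Ns.S_X` is `Pool.Agent.MP72S.Ns.S_X`, `Lv.S_Nir` is
`Pool.Agent.MP72S.Lv.S_Nir`, `StmtTwMon` is `MP72e2e6.StmtTwMon.{0}`), namespace `Pool.Agent.MP72B.Frm`, all other declarations
`private`. The complete proofs are in the docstrings.
-/

set_option autoImplicit false

namespace Pool.Agent.MP72B.Frm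

open Finset Polynomial MP72e2e6 Pool.Agent.MP72S Pool.Agent.MP72T Pool.Agent.MP72S.Ns

/-! ### 1. Primes of odd degree, density -/

open Classical in
/-- Module `Vrj` (the variance for a set of degrees, 250 lines). `StmtTwMon → S_Vrj`. PROOF. As `Ns.S_Vr` (copy `Sm/NS/Vr.lean`) with the finite
set `J` of degrees in place of `Ico a b`. Let `I` be the finite set of the monic irreducible `P` with degree in `J`,
`om f = ∑_{P ∈ I} [P ∣ f]` (the sets `irr F d` are disjoint), `μ = ∑_{P ∈ I} q ^ (- deg P)`. By `StmtTwMon` the number of the multiples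
of `g ∈ mon F k` in `mon F n`, `k ≤ n`, is `q ^ (n - k)`. So `∑_f om = μ q ^ n` (`deg P ≤ n`), and
`∑_f om ^ 2 = ∑_{P, Q ∈ I} #{f | P ∣ f ∧ Q ∣ f}`; for `P = Q` the term is `q ^ n q ^ (- deg P)`, for `P ≠ Q` the polynomials are coprime,
`P ∣ f ∧ Q ∣ f ↔ P * Q ∣ f`, `deg P + deg Q ≤ n`, and the term is `q ^ n q ^ (- deg P) q ^ (- deg Q)`. So
`∑_f om ^ 2 ≤ q ^ n (μ + μ ^ 2)` and `∑_f (om - μ) ^ 2 ≤ q ^ n (μ + μ ^ 2 - 2 μ ^ 2 + μ ^ 2) = q ^ n μ` (`#(mon F n) = q ^ n`). -/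
def S_Vrj : Prop :=
  ∀ (F : Type) [Field F] [Finite F] (J : Finset ℕ) (n : ℕ) (μ : ℝ),
    (∀ d ∈ J, 1 ≤ d ∧ 2 * d ≤ n) →
    μ = ∑ d ∈ J, (#(MP72e2e6.irr F d) : ℝ) / (Nat.card F : ℝ) ^ d →
    ∑ f ∈ mon F n, (∑ d ∈ J, (#((MP72e2e6.irr F d).filter (· ∣ f)) : ℝ) - μ) ^ 2 ≤
      (Nat.card F : ℝ) ^ n * μ

/-- Module `Odf` (few polynomials have no prime divisor of odd degree, 150 lines). `Lv.S_Nir → S_Vrj → S_Odf`. PROOF. Let `K ≥ 3`,
`J = {2 k + 1 | 2 ≤ k < K}`, `n ≥ 4 K + 2`. In `S_Vrj` `μ ≥ ∑_{2 ≤ k < K} 1 / (2 (2 k + 1))` as `q ^ d ≤ 2 d #(irr F d)` for `d ≥ 4`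
(`Lv.S_Nir`). If `f` has no monic irreducible divisor of odd degree then the inner sum of `S_Vrj` is `0`; so the number of these `f` times
`μ ^ 2` is at most `q ^ n μ`, and the number is at most `q ^ n / μ`. The sums `∑_{2 ≤ k < K} 1 / (2 (2 k + 1)) ≥ ∑ 1 / (8 k)` tend to
infinity with `K` (`Real.tendsto_sum_range_one_div_nat_succ_atTop`). -/
def S_Odf : Prop :=
  ∀ (F : Type) [Field F] [Finite F] (ε : ℝ), 0 < ε → ∃ n₀ : ℕ, ∀ n, n₀ ≤ n →
    ({f ∈ (mon F n : Set F[X]) | ∀ P : F[X], P.Monic → Irreducible P → P ∣ f →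
      Even P.natDegree}.ncard : ℝ) ≤ ε * (Nat.card F : ℝ) ^ n

/-- Module `DensB` (the density theorem for the frames with a prime of odd degree, 150 lines). `Ns.S_Sqf → Ns.S_Dens → S_Odf → S_DensB`. PROOF.
`c`, `n₁` from `Ns.S_Sqf`. Let `ev f` say that all monic irreducible divisors of `f` have even degree. Apply `Ns.S_Dens` to the property
`good f ∨ ev f`, `par n = True`, with `ε / 2`: its hypothesis for `ε'` holds with the `A` of our hypothesis: if `OdP s n'`, clear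
(monotone, the sets are finite); if not, then for every tuple `z ∈ tpl F n'` a monic irreducible divisor of `s * ∏ z i` divides `s` or is equal
to some `z i` (monic irreducible of degree `n' i`), so it has even degree and all tuples satisfy `ev`; `(1 - ε') #(tpl) ≤ #(tpl)`. So
`(1 - ε / 2) #(sqf F B n) ≤ #{good} + #{f ∈ mon F n | ev f} ≤ #{good} + (ε c / 2) q ^ n ≤ #{good} + (ε / 2) #(sqf F B n)` by `S_Odf`. -/
def S_DensB : Prop :=
  ∀ (F : Type) [Field F] [Finite F], 3 ≤ Nat.card F → ∀ B : F[X], B ≠ 0 →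
    ∀ good : F[X] → Prop,
    (∀ ε : ℝ, 0 < ε → ∃ A : ℕ, ∀ n h : ℕ, B.natDegree < h → ∀ s ∈ Sml F B h n,
      ∀ (r : ℕ) (n' : Fin (r + 1) → ℕ), s.natDegree + ∑ i, n' i = n →
      FrN (Nat.card F) A (om 1 h s) r n h n' → OdP s n' →
      (1 - ε) * (#(tpl F n') : ℝ) ≤
        ({z ∈ (tpl F n' : Set (Fin (r + 1) → F[X])) | good (s * ∏ i, z i)}.ncard : ℝ)) →
    ∀ ε : ℝ, 0 < ε → ∃ n₀ : ℕ, ∀ n, n₀ ≤ n →
      (1 - ε) * (#(sqf F B n) : ℝ) ≤ ({f ∈ (sqf F B n : Set F[X]) | good f}.ncard : ℝ)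

/-! ### 2. Decomposition -/

/-- Module `DcpB` (decomposition of a squarefree polynomial, 200 lines). `S_DcpB`. PROOF. As `Ns.S_Dcp` (copy `Sm/NS/Dcp.lean`) without the
condition on the multiplicities. (1) `d ∈ sq0 a` divides `Dlt a ≠ 0`, so its degree is bounded. (2) Let `D` be squarefree of degree
`n`, `f` the product of its monic irreducible divisors which do not divide `Dlt a`, `D = d * f`. (3) Uniqueness and the converse as there. -/
def S_DcpB : Prop :=
  ∀ (F : Type) [Field F] [Finite F] (a : Fin 3 → F[X]), Function.Injective a →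
    (sq0 a).Finite ∧
    (∀ (n : ℕ) (D : F[X]), D ∈ sqd F n ↔ ∃ d ∈ sq0 a, ∃ k, d.natDegree + k = n ∧
      ∃ f ∈ sqf F (Dlt a) k, D = d * f) ∧
    ∀ d ∈ sq0 a, ∀ d' ∈ sq0 a, ∀ k k' : ℕ, ∀ f ∈ sqf F (Dlt a) k, ∀ f' ∈ sqf F (Dlt a) k',
      d * f = d' * f' → d = d' ∧ f = f'

/-- Module `TotB` (from the `f` prime to `Dlt a` to all squarefree `D`, 150 lines). `S_DcpB → S_TotB`. PROOF. As `Ns.S_Tot` (copy
`Sm/NS/Tot.lean`) with `sqd F n` in place of `tms a n`, `sq0 a` in place of `tm0 a`, and no parity condition. Second statement: the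
decomposition of the sum of a real function `φ` over `sqd F n` (for `n ≥ natDegree (Dlt a)`, so that `natDegree d ≤ n` for all `d ∈ sq0 a`: they
divide `Dlt a`), from the disjoint union. -/
def S_TotB : Prop :=
  ∀ (F : Type) [Field F] [Finite F] (a : Fin 3 → F[X]), Function.Injective a →
    (∀ good : F[X] → Prop,
    (∀ d ∈ sq0 a, ∀ ε : ℝ, 0 < ε → ∃ n₀ : ℕ, ∀ n, n₀ ≤ n →
      (1 - ε) * (#(sqf F (Dlt a) n) : ℝ) ≤
        ({f ∈ (sqf F (Dlt a) n : Set F[X]) | good (d * f)}.ncard : ℝ)) →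
    ∀ ε : ℝ, 0 < ε → ∃ n₀ : ℕ, ∀ n, n₀ ≤ n →
      (1 - ε) * ((sqd F n).ncard : ℝ) ≤ ({D ∈ sqd F n | good D}.ncard : ℝ)) ∧
    ∀ n, (Dlt a).natDegree ≤ n → ∀ φ : F[X] → ℝ,
      ∑ᶠ D ∈ sqd F n, φ D = ∑ᶠ d ∈ sq0 a, ∑ f ∈ sqf F (Dlt a) (n - d.natDegree), φ (d * f)

/-! ### 3. The parity of the number of the places of split multiplicative reduction -/

/-- `P` is a place of multiplicative reduction of the twists `E_D`, `D = g * f`, `f` prime to `Dlt a`. -/
def Mlt {F : Type} [Field F] (a : Fin 3 → F[X]) (g P : F[X]) : Prop :=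
  P.Monic ∧ Irreducible P ∧ ∃ i j l : Fin 3, i ≠ j ∧ i ≠ l ∧ j ≠ l ∧
    multiplicity P (a i - a l) < multiplicity P (a i - a j) ∧
    Even (multiplicity P g + multiplicity P (a i - a l))

/-- Module `NsA` (the finite places, 250 lines). `S_NsA`. PROOF. (1) Let `(i, j, l)` be as in `Mlt`, `m = multiplicity P (a i - a l)`,
`multiplicity P g + m = 2 e`. `P ∣ a i - a j` (positive multiplicity), so `P ∣ Dlt a`. `g (a i - a l) = P ^ (2 e) w` with `P ∤ w`. Let
`P ∤ f`. (←) If `mk P (w f)` is a square, let `h` be such that `P ∣ w f - h ^ 2` (`AdjoinRoot.mk` is surjective): `Spl` with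
`(i, j, l)`, `e`, `w f`, `h`. (→) Let `(i', j', l')`, `e'`, `g'`, `h'` be as in `Spl a (g * f) (some P)`. Write `m(x)` for the multiplicity of `P` in
`x`. As `a j - a l = (a i - a l) - (a i - a j)` and `m(a i - a l) < m(a i - a j)` we have `m(a j - a l) = m(a i - a l) < m(a i - a j)`, and the
same for `(i', j', l')`; so `{i', j'} = {i, j}` is the unique pair with the largest multiplicity, and `l' = l`. If `i' = i` then
`P ^ (2 e) (w f) = P ^ (2 e') g'` with `P ∤ w f`, `P ∤ g'`, so `e = e'`, `g' = w f`. If `i' = j`: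
`g f (a j - a l) = g f (a i - a l) - g f (a i - a j) = P ^ (2 e) (w f - P w')` since `m(g f (a i - a j)) ≥ 2 e + 1`; so `e' = e`,
`g' = w f - P w'`. In both cases `P ∣ w f - h' ^ 2`. (2) Let `(i, j, l)`, `e`, `g'`, `h` be as in `Spl`; `P ∣ a i - a j`, so `P ∣ Dlt a` and `P ∤ f`;
`g f (a i - a l) = P ^ (2 e) g'` is not `0`, and its multiplicity is `2 e = m(g) + m(a i - a l)`. (3) `m(C ν * g) = m(g)` for `ν ≠ 0`. -/
def S_NsA : Prop :=
  ∀ (F : Type) [Field F] [Finite F] (a : Fin 3 → F[X]), Function.Injective a → ∀ g : F[X],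
    g ≠ 0 → ∀ P : F[X],
    (Mlt a g P → P ∣ Dlt a ∧ ∃ w : F[X], ¬ P ∣ w ∧ ∀ f, ¬ P ∣ f →
      (Spl a (g * f) (some P) ↔ IsSquare (AdjoinRoot.mk P (w * f)))) ∧
    (∀ f, IsCoprime f (Dlt a) → Spl a (g * f) (some P) → Mlt a g P) ∧
    ∀ ν : F, ν ≠ 0 → (Mlt a (C ν * g) P ↔ Mlt a g P)

/-- Module `NsB` (infinity and finiteness, 150 lines). `S_NsB`. PROOF. (1) The condition `Spl a D none` depends only on the parity of the
degree and the square class of the leading coefficient of `D`. (2) Let `(i, j, l)` be as in `Spl a D none`: `deg (a i - a j) < deg (a i - a l)`, so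
`a j - a l = (a i - a l) - (a i - a j)` has the same degree and leading coefficient as `a i - a l`. If `(i', j', l')` is as in
`Spl a (C ν * D) none` then `{i', j'} = {i, j}` is the unique pair with the smallest degree, `l' = l`, and `a i' - a l` has the leading
coefficient `b` of `a i - a l`. So `lc(D) b` and `ν lc(D) b` are squares, and they are not `0`, so `ν` is a square. (3) If `Spl a D (some P)` then `P`
is monic, irreducible and divides `Dlt a ≠ 0` (it divides `a i - a j`): finitely many. -/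
def S_NsB : Prop :=
  ∀ (F : Type) [Field F] [Finite F] (a : Fin 3 → F[X]), Function.Injective a →
    (∀ (D D' : F[X]) (c : F), c ≠ 0 → D'.leadingCoeff = c ^ 2 * D.leadingCoeff →
      (Even D.natDegree ↔ Even D'.natDegree) → (Spl a D none ↔ Spl a D' none)) ∧
    (∀ (D : F[X]) (ν : F), D ≠ 0 → ¬ IsSquare ν → ¬ (Spl a D none ∧ Spl a (C ν * D) none)) ∧
    ∀ D : F[X], {w : Option F[X] | Spl a D w}.Finite

/-- Module `NsC` (squares; no finite multiplicative place, 200 lines). `S_NsA → S_NsB → S_NsC`. PROOF. (1) The places of the two sets are the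
same. For `some P`: both imply `Mlt a g P` (`NsA` (2); `h ^ 2 * f` is prime to `Dlt a`), and if `Mlt a g P` then `P ∣ Dlt a`, so `P ∤ f`, `P ∤ h`, and
`mk P (w h ^ 2 f) = mk P h ^ 2 * mk P (w f)` is a square iff `mk P (w f)` is one (`mk P h` is a unit: `AdjoinRoot P` is a field and `P ∤ h`). For
`none`: `NsB` (1) with `c = lc(h)`. (2) No `some P` is in the sets of `g * f` and of `C ν * g * f` (`NsA` (2), (3)), so `nsp` is `1` or `0`
according to `Spl .. none`, and `NsB` (2): not both are `1`. So the sum of the signs is `2` or `0`. -/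
def S_NsC : Prop :=
  ∀ (F : Type) [Field F] [Finite F] (a : Fin 3 → F[X]), Function.Injective a → ∀ g : F[X],
    g ≠ 0 → ∀ f : F[X], IsCoprime f (Dlt a) → f ≠ 0 →
    (∀ h : F[X], IsCoprime h (Dlt a) → h ≠ 0 → nsp a (g * (h ^ 2 * f)) = nsp a (g * f)) ∧
    ((∀ P, ¬ Mlt a g P) → ∀ ν : F, ν ≠ 0 → ¬ IsSquare ν →
      (0 : ℝ) ≤ (-1) ^ nsp a (g * f) + (-1) ^ nsp a (C ν * g * f))

open Classical in
/-- Module `NsZ` (a finite multiplicative place, 250 lines). `S_NsA → S_NsB → S_NsZ`. PROOF. Let `Mlt a g P₀`. `Dlt a ≠ 0`; `k₀ = AdjoinRoot P₀` is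
a finite field of odd order, so there is `u₀ ∈ F[X]` which is not a square modulo `P₀` (`FiniteField.exists_nonsquare`). Let `Q` be the product
of the other monic irreducible divisors of `Dlt a`; it is prime to `P₀`, so there is `u` with `P₀ ∣ u - u₀`, `Q ∣ u - 1`. `u` is prime to `Dlt a`. Let
`B` be the monic associate of `Dlt a`, `b = natDegree B ≤ k`, and for monic `f` of degree `k` prime to `Dlt a` let
`Φ f = f - f %ₘ B + (u * f) %ₘ B`. It is monic of degree `k` (for `b ≥ 1` the change has degree less than `b ≤ k`; `P₀ ∣ Dlt a`, so `b ≥ 1`),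
`Φ f = u f` modulo `B`, so it is prime to `Dlt a`. `Φ` is injective: `Φ f /ₘ B = f /ₘ B`, and `u f = u f'` modulo `B` implies
`f = f'` modulo `B`. So it is a bijection of the finite set of the `f`, and it is enough to show that the sign of `Φ f` is opposite to the sign of
`f` (`∑ φ f = ∑ φ (Φ f) = - ∑ φ f`). The sets of the places: `none`: the same (`NsB` (1) with `c = 1`: same degree, and the leading
coefficients are those of `g`). `some P`, `P ≠ P₀`: if `Mlt a g P` then `P ∣ Dlt a`, `P ∣ Q`, `P ∣ Φ f - f` (`P ∣ B`, `Φ f - u f` and `u - 1` are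
divisible by `P`), so `mk P (w Φ f) = mk P (w f)`; otherwise both are not in the set. `P₀`: `mk (w Φ f) = mk (w f) * mk u₀`, and exactly one of
`mk (w f)`, `mk (w f) * mk u₀` is a square (`w f` and `u₀` are units of the finite field `k₀`; the product of two nonsquares is a square). So the
numbers of the elements of the two finite sets (`NsB` (3)) differ by one. -/
def S_NsZ : Prop :=
  ∀ (F : Type) [Field F] [Finite F], Nat.card F % 2 = 1 → ∀ a : Fin 3 → F[X],
    Function.Injective a → ∀ g : F[X], g ≠ 0 → (∃ P, Mlt a g P) → ∀ k, (Dlt a).natDegree ≤ k →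
    ∑ f ∈ (mon F k).filter (fun f => IsCoprime f (Dlt a)), (-1 : ℝ) ^ nsp a (g * f) = 0

open Classical in
/-- Module `SqB` (the largest square divisor, 200 lines). `S_SqB`. PROOF. The map `(d, h, E) ↦ h ^ 2 * E` is a bijection from the index set on the
right to the one on the left. Surjective: let `f` be monic of degree `k`, prime to `B`, and `h` a monic polynomial of the largest degree
with `h ^ 2 ∣ f` (`h = 1` is one; the degrees are at most `k / 2`), `f = h ^ 2 * E`. `E` is monic, and squarefree: if `P ^ 2 ∣ E` with `P`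
irreducible, which we may suppose to be monic, then `(h P) ^ 2 ∣ f`. `h` and `E` divide `f`, so they are prime to `B`. Injective: if
`h ^ 2 * E = h' ^ 2 * E'` then for all irreducible `P` `2 m(h) + m(E) = 2 m(h') + m(E')` with `m(E), m(E') ≤ 1` (`m` = the multiplicity of `P`), so
`m(h) = m(h')`; so the monic polynomials `h`, `h'` have the same normalized factors and are equal. -/
def S_SqB : Prop :=
  ∀ (F : Type) [Field F] [Finite F] (B : F[X]) (k : ℕ) (φ : F[X] → ℝ),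
    ∑ f ∈ (mon F k).filter (fun f => IsCoprime f B), φ f =
      ∑ d ∈ range (k / 2 + 1), ∑ h ∈ (mon F d).filter (fun h => IsCoprime h B),
        ∑ E ∈ sqf F B (k - 2 * d), φ (h ^ 2 * E)

open Classical in
/-- Module `SqS` (sums over squarefree polynomials, 150 lines). `StmtTwMon → S_SqB → S_SqS`. PROOF. Let `b = natDegree B`, `T k` the sum over
`sqf F B k`, `A k` the sum over the monic `f` of degree `k` prime to `B`, `c d ≤ q ^ d` the number of the monic `h` of degree `d` prime to `B`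
(`#(mon F d) = q ^ d`). By `S_SqB` `A k = ∑_{d ≤ k / 2} c d * T (k - 2 d)` and `c 0 = 1`, so
`|T k| ≤ |A k| + ∑_{1 ≤ d ≤ k / 2} q ^ d |T (k - 2 d)|`; `|A k| ≤ q ^ k`, and `A k = 0` for `k ≥ b`. Claim: `|T k| ≤ q ^ b λ ^ k`,
`λ = √(2 q)`, by strong induction: `∑_{1 ≤ d ≤ k / 2} q ^ d q ^ b λ ^ (k - 2 d) = q ^ b λ ^ k ∑_{1 ≤ d ≤ k / 2} 2 ^ (-d) =
q ^ b λ ^ k (1 - 2 ^ (-(k / 2)))` (`λ ^ (2 d) = (2 q) ^ d`), and for `k < b` `q ^ k ≤ q ^ b ≤ q ^ b λ ^ k 2 ^ (-(k / 2))` since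
`λ ^ k ≥ λ ^ (2 (k / 2)) = (2 q) ^ (k / 2) ≥ 2 ^ (k / 2)` (natural number division). -/
def S_SqS : Prop :=
  ∀ (F : Type) [Field F] [Finite F] (B : F[X]), B ≠ 0 → ∀ φ : F[X] → ℝ, (∀ f, |φ f| ≤ 1) →
    (∀ h f : F[X], h.Monic → IsCoprime h B → f.Monic → IsCoprime f B → φ (h ^ 2 * f) = φ f) →
    (∀ k, B.natDegree ≤ k → ∑ f ∈ (mon F k).filter (fun f => IsCoprime f B), φ f = 0) →
    ∀ k, |∑ E ∈ sqf F B k, φ E| ≤
      (Nat.card F : ℝ) ^ B.natDegree * Real.sqrt (2 * (Nat.card F : ℝ)) ^ k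

/-- Module `HlfB` (at least one half of the twists have the root number `+1`, 250 lines). `Ns.S_Sqf → S_DcpB → S_TotB → S_NsA → S_NsC → S_NsZ →
S_SqS → S_HlfB`. PROOF. `q % 4 = 1`, `q ≥ 5`. Let `s D = (-1) ^ nsp a D`. `#{D ∈ sqd F n | Even (nsp a D)} = (#(sqd F n) + ∑_D s D) / 2`, so it is
enough that `∑_D s D ≥ - 2 ε #(sqd F n)`. Let `n ≥ natDegree (Dlt a) = δ`. By `S_TotB` `∑_D s D = ∑_{g ∈ sq0 a} ∑_{E ∈ sqf F (Dlt a) (n - deg g)} s (g E)`.
(1) The `g` with `Mlt a g P` for some `P`: the inner sum has absolute value at most `q ^ δ λ ^ (n - deg g) ≤ q ^ δ λ ^ n`, `λ = √(2 q)`, by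
`S_SqS` for `B = Dlt a`, `φ f = s (g f)` (`NsC` (1), `NsZ`; `g ≠ 0` as it is squarefree). (2) The other `g` form a subset `G₀` of the finite set
`sq0 a`. Let `ν ∈ F` be a nonsquare (`FiniteField.exists_nonsquare`). `g ↦ C ν * g` is an injective map from `G₀` to itself (`C ν` is a unit;
`NsA` (3)), so a bijection, and it does not change the degree. So twice the sum over `G₀` is the sum over `g ∈ G₀` and `E` of
`s (g E) + s (C ν * g * E) ≥ 0` (`NsC` (2)). Together `∑_D s D ≥ - #(sq0 a) q ^ δ λ ^ n`. `#(sqd F n) ≥ #(sqf F (Dlt a) n) ≥ c q ^ n` for large `n`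
(`Ns.S_Sqf`), and `λ < q`, so `(λ / q) ^ n → 0`. -/
def S_HlfB : Prop :=
  ∀ (F : Type) [Field F] [Finite F], Nat.card F % 4 = 1 → ∀ a : Fin 3 → F[X],
    Function.Injective a → ∀ ε : ℝ, 0 < ε → ∃ n₀ : ℕ, ∀ n, n₀ ≤ n →
      (1 / 2 - ε) * ((sqd F n).ncard : ℝ) ≤ ({D ∈ sqd F n | Even (nsp a D)}.ncard : ℝ)

/-- Module `OutB` (THE THEOREM, 80 lines). `S_DensB → S_TotB → S_HlfB → S_FrmB → S_OutB`. PROOF. `q % 4 = 1` (`Cur.q4`), `q ≥ 3`. The first
inequality: `S_TotB` (1) for `good = GdB a`; its hypothesis is `S_DensB` for `B = Dlt a ≠ 0` and the good `f` with `GdB a (d * f)`, by `S_FrmB`. The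
second one: `S_HlfB`. Take the maximum of the two `n₀`. -/
def S_OutB : Prop := ThmQ

end Pool.Agent.MP72B.Frm
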